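import Pool.Agent.Work.MP_193ce1_co.Rim.KkD

-- merged part: Pool.Agent.Work.MP_193ce1_co.Rim.WpR
section
set_option linter.unusedVariables false

namespace Pool.Agent.Work.MP_193ce1_co.Rim.Wp

/-- hypotheses -/
noncomputable def kr0 : List Fk.C :=
  [.le (.add .x (.k 3)) .L, .le (.add .x (.k 1)) .y, .le (.k 0) .x, .le (.add .y .L) (.add (.add .N
  .x) (.k 2)), .ne (.add .y .L) (.add (.add .t .x) (.k 3)), .ne (.add (.add .t .y) .L) (.add (.add
  .N .x) (.k 3))]

theorem qr0 {N t x y L : ℤ} (hD : D N t) : Fk.All ⟨N, t, x, y, L⟩ kr0 → P (A N t) N x y L :=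
  Fk.route (fam hD x y L) kr0 .y (.dn .x (.k 0))
    [(0, .pt .N), (1, .dn (.sub (.sub (.add .y .L) .x) (.k 3)) .y)]
    [.f 128, .f 8650880, .f 36029355373297797, .f 128, .f 128, .f 9044096, .f 128, .f 128, .f
    9044096, .f 8978624, .f 386858660390284707041378437, .f 128, .f 128, .f 37436730256851072, .f
    549764399236, .f 8519808, .f 8716416, .f 36029355373297796, .f 8716416, .s 7 (.f 12648576) (.f
    8454272), .s 6 (.f 12648576) (.f 8454272), .f 128, .f 128, .f 8716417, .f 8585344, .f 128, .f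
    128, .f 128, .f 128]
    (by decide +kernel)

theorem rT0 {N t x y L : ℤ} (hD : D N t)
    (c0 : x + 3 ≤ L)
    (c1 : x + 1 ≤ y)
    (c2 : (0 : ℤ) ≤ x)
    (c3 : y + L ≤ N + x + 2)
    (c4 : y + L ≠ t + x + 3)
    (c5 : t + y + L ≠ N + x + 3) :
    P (A N t) N x y L := by
  exact qr0 hD ⟨c0, c1, c2, c3, c4, c5, trivial⟩

/-- hypotheses -/
noncomputable def kr1 : List Fk.C :=
  [.le (.add .x (.k 4)) .L, .le (.add .x (.k 1)) .y, .le (.k 0) .x, .le (.add (.add .t .y) .L)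
  (.add (.add .N .x) (.k 4)), .ne (.add .y .L) (.add (.add .t .x) (.k 4)), .ne (.add (.add .t .y)
  .L) (.add (.add .N .x) (.k 4))]

theorem qr1 {N t x y L : ℤ} (hD : D N t) : Fk.All ⟨N, t, x, y, L⟩ kr1 → P (A N t) N x y L :=
  Fk.route (fam hD x y L) kr1 .y (.dn .x (.k 0))
    [(4, .pt (.add (.sub .N .t) (.k 1))), (0, .pt .N), (1, .dn (.sub (.sub (.add .y .L) .x) (.k 4))
    .y)]
    [.f 128, .f 8650880, .f 154747264243546137339363589, .f 128, .f 128, .f 8978560, .f
    154744903024275905497792645, .f 128, .f 128, .f 128, .f 128, .f 37436730256851072, .f 9044096,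
    .f 128, .f 8978560, .f 154744903024275905497792645, .f 128, .f 8913088, .f 128, .f 128, .f
    154744903024275905497792645, .f 315534398252292350151229578, .f 549764399236, .f 8519808, .f
    154744903024275905497792773, .f 36029355373297796, .f 154744903024275905497792773, .s 7 (.f
    12648576) (.f 8454272), .f 824642633861, .f 128, .f 128, .f 315532000174999285380153475, .f
    8716417, .f 8585344, .f 128, .f 128, .f 128, .f 128]
    (by decide +kernel)

theorem rT1 {N t x y L : ℤ} (hD : D N t)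
    (c0 : x + 4 ≤ L)
    (c1 : x + 1 ≤ y)
    (c2 : (0 : ℤ) ≤ x)
    (c3 : t + y + L ≤ N + x + 4)
    (c4 : y + L ≠ t + x + 4)
    (c5 : t + y + L ≠ N + x + 4) :
    P (A N t) N x y L := by
  exact qr1 hD ⟨c0, c1, c2, c3, c4, c5, trivial⟩

/-- hypotheses -/
noncomputable def kr2 : List Fk.C :=
  [.le (.add .N (.k 4)) (.add (.add .t .y) .L), .le (.add .x (.k 1)) .y, .le (.add .t .y) (.add .N
  (.k 1)), .le (.add (.add .t .y) .L) (.add (.add .N .x) (.k 4)), .ne (.add .y .L) (.add .x (.k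
  4)), .ne (.add (.add (.mul 2 .t) .y) .L) (.add (.add .N .x) (.k 4))]

theorem qr2 {N t x y L : ℤ} (hD : D N t) : Fk.All ⟨N, t, x, y, L⟩ kr2 → P (A N t) N x y L :=
  Fk.route (fam hD x y L) kr2 .y (.dn .x (.add (.sub (.sub (.sub (.add .N .x) .t) .y) .L) (.k 4)))
    [(0, .pt .N), (1, .dn (.add (.sub .N .t) (.k 1)) .y)]
    [.f 8716416, .f 8519808, .f 154747301137034289053040776, .f 128, .f 128, .f 9044096, .f 128, .f
    8716416, .f 154747301137034289061429384, .s 6 (.f 8454272) (.f 12648576), .f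
    3541812017411808952456, .f 128, .f 128, .f 164418633906975027612418308, .f 36029359668396162,
    .f 8650880, .f 154744939917764057211469960, .f 8978560, .f 154744939917764057211469960, .f 128,
    .f 8913088, .f 128, .f 128, .f 164416272723170642836455555, .f 8585344, .f 128, .f 128, .f 128,
    .f 128]
    (by decide +kernel)

theorem rT2 {N t x y L : ℤ} (hD : D N t)
    (c0 : N + 4 ≤ t + y + L)
    (c1 : x + 1 ≤ y)
    (c2 : t + y ≤ N + 1)
    (c3 : t + y + L ≤ N + x + 4)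
    (c4 : y + L ≠ x + 4)
    (c5 : 2 * t + y + L ≠ N + x + 4) :
    P (A N t) N x y L := by
  exact qr2 hD ⟨c0, c1, c2, c3, c4, c5, trivial⟩

/-- hypotheses -/
noncomputable def kr3 : List Fk.C :=
  [.le (.add .x (.k 2)) .L, .le (.add .x (.k 1)) .y, .le (.k 1) .x, .le (.add .y .L) (.add (.add .N
  .x) (.k 1)), .ne (.add .y .L) (.add (.add .t .x) (.k 2)), .ne (.add .t (.k 1)) .N, .ne (.add
  (.add .t .y) .L) (.add (.add .N .x) (.k 2))]

theorem qr3 {N t x y L : ℤ} (hD : D N t) : Fk.All ⟨N, t, x, y, L⟩ kr3 → P (A N t) N x y L :=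
  Fk.route (fam hD x y L) kr3 .y (.dn .x (.k 1))
    [(0, .pt .N), (1, .dn (.sub (.sub (.add .y .L) .x) (.k 2)) .y)]
    [.f 128, .f 8650880, .f 36029355373297797, .f 128, .f 128, .f 9109632, .f 128, .f 128, .f
    9109632, .s 7 (.f 12648576) (.f 8454272), .f 386858660390284707041443973, .f 128, .f 128, .f
    37436730256851072, .f 549764399236, .f 8519808, .f 8716416, .f 36029355373297796, .f 8716416,
    .s 8 (.f 12648576) (.f 8454272), .s 6 (.f 12648576) (.f 8454272), .f 128, .f 128, .f 8716417,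
    .f 8585344, .f 128, .f 128, .f 128, .f 128]
    (by decide +kernel)

theorem rT3 {N t x y L : ℤ} (hD : D N t)
    (c0 : x + 2 ≤ L)
    (c1 : x + 1 ≤ y)
    (c2 : (1 : ℤ) ≤ x)
    (c3 : y + L ≤ N + x + 1)
    (c4 : y + L ≠ t + x + 2)
    (c5 : t + 1 ≠ N)
    (c6 : t + y + L ≠ N + x + 2) :
    P (A N t) N x y L := by
  exact qr3 hD ⟨c0, c1, c2, c3, c4, c5, c6, trivial⟩

/-- hypotheses -/
noncomputable def kr4 : List Fk.C :=
  [.le (.add (.mul 2 .N) (.k 4)) (.add (.add .t .y) .L), .le (.add .x (.k 1)) .y, .le (.add .y (.k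
  1)) .N, .le (.add .y .L) (.add (.add .N .x) (.k 2)), .ne (.add .y .L) (.add (.add .N .x) (.k 4)),
  .ne (.add (.add (.mul 2 .t) .y) .L) (.add (.add (.mul 2 .N) .x) (.k 4))]

theorem qr4 {N t x y L : ℤ} (hD : D N t) : Fk.All ⟨N, t, x, y, L⟩ kr4 → P (A N t) N x y L :=
  Fk.route (fam hD x y L) kr4 .y (.dn .x (.add (.sub (.sub (.sub (.add (.mul 2 .N) .x) .t) .y) .L) (.k 4)))
    [(0, .pt .N), (1, .dn (.add (.sub .N .t) (.k 1)) (.k 0)), (3, .dn (.sub .N (.k 1)) .y)]
    [.f 571239628928, .f 8519808, .f 549764399236, .f 128, .f 128, .f 9044096, .f 128, .f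
    571239628928, .f 36029359668199556, .f 8716416, .s 7 (.f 8454272) (.f 12648576), .f 128, .f
    128, .f 549764399236, .f 128, .f 8978560, .f 2453454117050060505219, .f 8978560, .f
    2453454117050060505219, .f 128, .f 8913088, .f 128, .f 128, .f 2416560628906936565890, .f
    8716417, .f 2361221804069281398914, .f 8650880, .f 128, .f 128, .f 128, .f 128, .f 128, .f
    37436721666916482, .f 129, .f 8585344, .f 128, .f 128, .f 128, .f 128]
    (by decide +kernel)

theorem rT4 {N t x y L : ℤ} (hD : D N t)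
    (c0 : 2 * N + 4 ≤ t + y + L)
    (c1 : x + 1 ≤ y)
    (c2 : y + 1 ≤ N)
    (c3 : y + L ≤ N + x + 2)
    (c4 : y + L ≠ N + x + 4)
    (c5 : 2 * t + y + L ≠ 2 * N + x + 4) :
    P (A N t) N x y L := by
  exact qr4 hD ⟨c0, c1, c2, c3, c4, c5, trivial⟩

/-- hypotheses -/
noncomputable def kr5 : List Fk.C :=
  [.le (.add (.add .N .x) (.k 4)) (.add .t .L), .le (.add .x (.k 1)) .y, .le (.k 0) .x, .le (.add
  .y .L) (.add (.add .N .x) (.k 2)), .ne (.add .y .L) (.add (.add .N .x) (.k 4)), .ne (.add (.add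
  (.mul 2 .t) .y) .L) (.add (.add (.mul 2 .N) .x) (.k 4))]

theorem qr5 {N t x y L : ℤ} (hD : D N t) : Fk.All ⟨N, t, x, y, L⟩ kr5 → P (A N t) N x y L :=
  Fk.route (fam hD x y L) kr5 .y (.dn .x (.k 0))
    [(3, .dn (.sub .N (.k 1)) (.sub .t (.k 1))), (0, .pt .N), (1, .dn (.sub (.sub (.sub (.add (.add
    .t .y) .L) .N) .x) (.k 4)) .y)]
    [.f 128, .f 8650880, .f 2361221804069281202309, .f 128, .f 128, .f 2453452991163038695554, .f
    8978560, .f 128, .f 128, .f 128, .f 128, .f 128, .f 37436721666916482, .f 9044096, .f 128, .f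
    2453452991163038695554, .f 8978560, .f 8913024, .f 192, .f 128, .f 128, .f 128, .f
    2453455524437828829314, .f 549764399236, .f 8519808, .f 549764792453, .f 36029359668330626, .f
    549764792453, .s 7 (.f 12648576) (.f 8454272), .f 8716480, .f 128, .f 128, .f 571239628929, .f
    8716417, .f 8585344, .f 128, .f 128, .f 128, .f 128]
    (by decide +kernel)

theorem rT5 {N t x y L : ℤ} (hD : D N t)
    (c0 : N + x + 4 ≤ t + L)
    (c1 : x + 1 ≤ y)
    (c2 : (0 : ℤ) ≤ x)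
    (c3 : y + L ≤ N + x + 2)
    (c4 : y + L ≠ N + x + 4)
    (c5 : 2 * t + y + L ≠ 2 * N + x + 4) :
    P (A N t) N x y L := by
  exact qr5 hD ⟨c0, c1, c2, c3, c4, c5, trivial⟩

/-- hypotheses -/
noncomputable def kr6 : List Fk.C :=
  [.le (.add .N (.k 4)) (.add (.add .t .x) .L), .le (.add .x .L) (.add .y (.k 2)), .le (.k 0) .x,
  .le (.add .t .x) (.add .N (.k 1)), .le (.add .y (.k 1)) .N, .ne (.add .y (.k 4)) (.add .x .L),
  .ne (.add (.add (.mul 2 .t) .x) .L) (.add (.add .N .y) (.k 4))]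

theorem qr6 {N t x y L : ℤ} (hD : D N t) : Fk.All ⟨N, t, x, y, L⟩ kr6 → P (A N t) N x y L :=
  Fk.route (fam hD x y L) kr6 .y (.up .x (.add (.sub .N .t) (.k 1)))
    [(0, .pt .N), (1, .up (.add (.sub (.sub (.sub (.add .N .y) .t) .x) .L) (.k 4)) .y)]
    [.f 8650880, .f 8716416, .f 36029359668199558, .f 128, .f 128, .f 9109632, .f 128, .f 9044096,
    .f 36029359668199558, .f 128, .f 8978624, .f 128, .f 128, .f 37718209528332418, .f
    36873793188397184, .f 8519808, .f 8781952, .f 36873793188397184, .f 549764333702, .f 8585344,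
    .s 8 (.f 8454272) (.f 12648576), .f 128, .f 128, .f 8781953, .f 8585344, .f 128, .f 128, .f
    128, .f 128]
    (by decide +kernel)

theorem rT6 {N t x y L : ℤ} (hD : D N t)
    (c0 : N + 4 ≤ t + x + L)
    (c1 : x + L ≤ y + 2)
    (c2 : (0 : ℤ) ≤ x)
    (c3 : t + x ≤ N + 1)
    (c4 : y + 1 ≤ N)
    (c5 : y + 4 ≠ x + L)
    (c6 : 2 * t + x + L ≠ N + y + 4) :
    P (A N t) N x y L := by
  exact qr6 hD ⟨c0, c1, c2, c3, c4, c5, c6, trivial⟩

/-- hypotheses -/
noncomputable def kr7 : List Fk.C :=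
  [.le (.add .x (.k 4)) .L, .le (.add .x (.k 1)) .y, .le (.k 0) .x, .le (.add .y .L) (.add (.add .N
  .x) (.k 2)), .ne (.add .y .L) (.add (.add .t .x) (.k 4)), .ne (.add .t (.k 1)) .N, .ne (.add
  (.add .t .y) .L) (.add (.add .N .x) (.k 4))]

theorem qr7 {N t x y L : ℤ} (hD : D N t) : Fk.All ⟨N, t, x, y, L⟩ kr7 → P (A N t) N x y L :=
  Fk.route (fam hD x y L) kr7 .y (.dn .x (.k 0))
    [(3, .pt (.sub .N (.k 1))), (0, .pt .N), (1, .dn (.sub (.sub (.add .y .L) .x) (.k 4)) .y)]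
    [.f 128, .f 8650880, .f 36029355373297797, .f 128, .f 128, .f 9109632, .f 128, .f 128, .f 128,
    .f 128, .f 128, .f 37436730256851072, .f 9109632, .f 128, .f 9109632, .f 128, .f
    309487407934948439860248709, .s 7 (.f 8454272) (.f 12648576), .f 128, .f 128, .f 128, .f
    37436730256851072, .f 549764399236, .f 8519808, .f 8716416, .f 36029355373297796, .f 8716416,
    .s 8 (.f 12648576) (.f 8454272), .s 6 (.f 12648576) (.f 8454272), .f 128, .f 128, .f 8716417,
    .f 8716417, .f 8585344, .f 128, .f 128, .f 128, .f 128]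
    (by decide +kernel)

theorem rT7 {N t x y L : ℤ} (hD : D N t)
    (c0 : x + 4 ≤ L)
    (c1 : x + 1 ≤ y)
    (c2 : (0 : ℤ) ≤ x)
    (c3 : y + L ≤ N + x + 2)
    (c4 : y + L ≠ t + x + 4)
    (c5 : t + 1 ≠ N)
    (c6 : t + y + L ≠ N + x + 4) :
    P (A N t) N x y L := by
  exact qr7 hD ⟨c0, c1, c2, c3, c4, c5, c6, trivial⟩

/-- hypotheses -/
noncomputable def kr8 : List Fk.C :=
  [.le (.add .x (.k 1)) .y, .le (.k 3) .L, .le .L (.add .x (.k 3)), .le (.add .y (.k 1)) .N, .ne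
  (.add .x (.k 3)) (.add .t .L), .ne .y .t, .ne (.add (.add .t .x) (.k 3)) (.add .N .L), .ne (.add
  .t .y) .N]

theorem qr8 {N t x y L : ℤ} (hD : D N t) : Fk.All ⟨N, t, x, y, L⟩ kr8 → P (A N t) N x y L :=
  Fk.route (fam hD x y L) kr8 .y (.dn .x (.add (.sub .x .L) (.k 3)))
    [(0, .pt .N), (1, .pt .y)]
    [.f 8650880, .f 8585344, .f 549764333701, .f 128, .f 128, .f 9175168, .f 128, .f 8650880, .f
    36029359668199557, .s 8 (.f 12648576) (.f 8454272), .s 6 (.f 12648576) (.f 8454272), .f 128, .f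
    128, .f 571239039106, .f 36029359668199556, .f 8716416, .f 36029359668199556, .f 8716416, .s 9
    (.f 12648576) (.f 8454272), .s 7 (.f 12648576) (.f 8454272), .f 128, .f 128, .f 8716417, .f
    8519808, .f 128, .f 128, .f 128, .f 128]
    (by decide +kernel)

theorem rT8 {N t x y L : ℤ} (hD : D N t)
    (c0 : x + 1 ≤ y)
    (c1 : (3 : ℤ) ≤ L)
    (c2 : L ≤ x + 3)
    (c3 : y + 1 ≤ N)
    (c4 : x + 3 ≠ t + L)
    (c5 : y ≠ t)
    (c6 : t + x + 3 ≠ N + L)
    (c7 : t + y ≠ N) :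
    P (A N t) N x y L := by
  exact qr8 hD ⟨c0, c1, c2, c3, c4, c5, c6, c7, trivial⟩

/-- hypotheses -/
noncomputable def kr9 : List Fk.C :=
  [.le (.add .t (.k 1)) .x, .le (.add .x (.k 1)) .y, .le (.add .x (.k 2)) (.add .t .L), .le (.add
  (.add .t .y) .L) (.add (.add .N .x) (.k 1)), .ne (.add .y .L) (.add .x (.k 2)), .ne (.add (.add
  (.mul 2 .t) .y) .L) (.add (.add .N .x) (.k 2))]

theorem qr9 {N t x y L : ℤ} (hD : D N t) : Fk.All ⟨N, t, x, y, L⟩ kr9 → P (A N t) N x y L :=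
  Fk.route (fam hD x y L) kr9 .y (.dn .x (.add .t (.k 1)))
    [(0, .pt .N), (1, .dn (.sub (.sub (.add (.add .t .y) .L) .x) (.k 2)) .y)]
    [.f 154744939917764044326961285, .f 8519808, .f 36029363963232389, .f 128, .f 128, .f 9044096,
    .f 128, .f 154744939917764044326961285, .f 2361220396694397649029, .f 8913024, .f 128, .f 128,
    .f 128, .f 37436738846785664, .f 154744939953793391101739141, .f 8650880, .f 8716416, .f
    154747301137034825924345989, .f 8716416, .f 2361220396694397649032, .f 36029363963232386, .f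
    128, .f 128, .f 8716417, .f 8585344, .f 128, .f 128, .f 128, .f 128]
    (by decide +kernel)

theorem rT9 {N t x y L : ℤ} (hD : D N t)
    (c0 : t + 1 ≤ x)
    (c1 : x + 1 ≤ y)
    (c2 : x + 2 ≤ t + L)
    (c3 : t + y + L ≤ N + x + 1)
    (c4 : y + L ≠ x + 2)
    (c5 : 2 * t + y + L ≠ N + x + 2) :
    P (A N t) N x y L := by
  exact qr9 hD ⟨c0, c1, c2, c3, c4, c5, trivial⟩

/-- hypotheses -/
noncomputable def kr10 : List Fk.C :=
  [.le (.add .N (.k 3)) (.add .y .L), .le (.add .x (.k 1)) .y, .le (.add .y (.k 1)) .N, .le (.add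
  .y .L) (.add (.add .N .x) (.k 2)), .ne (.add .y .L) (.add (.add .t .x) (.k 3)), .ne (.add (.add
  .t .y) .L) (.add (.add .N .x) (.k 3))]

theorem qr10 {N t x y L : ℤ} (hD : D N t) : Fk.All ⟨N, t, x, y, L⟩ kr10 → P (A N t) N x y L :=
  Fk.route (fam hD x y L) kr10 .y (.dn .x (.add (.sub (.sub (.add .N .x) .y) .L) (.k 3)))
    [(0, .pt .N), (1, .pt (.k 0)), (3, .dn (.sub .N (.k 1)) .y)]
    [.f 8716416, .f 8519808, .f 549764464771, .f 128, .f 128, .f 9044096, .f 128, .f 8716416, .f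
    36029363963166851, .s 6 (.f 8454272) (.f 12648576), .s 7 (.f 8454272) (.f 12648576), .f 128, .f
    128, .f 562649104516, .f 128, .f 9044096, .f 128, .f 9044096, .f 8978624, .f
    386858697283491383778738307, .f 128, .f 128, .f 9044097, .f 8716417, .f 36873771713429637, .f
    8650880, .f 128, .f 128, .f 128, .f 128, .f 128, .f 36873771713429637, .f 129, .f 8585344, .f
    128, .f 128, .f 128, .f 128]
    (by decide +kernel)

theorem rT10 {N t x y L : ℤ} (hD : D N t)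
    (c0 : N + 3 ≤ y + L)
    (c1 : x + 1 ≤ y)
    (c2 : y + 1 ≤ N)
    (c3 : y + L ≤ N + x + 2)
    (c4 : y + L ≠ t + x + 3)
    (c5 : t + y + L ≠ N + x + 3) :
    P (A N t) N x y L := by
  exact qr10 hD ⟨c0, c1, c2, c3, c4, c5, trivial⟩

/-- hypotheses -/
noncomputable def kr11 : List Fk.C :=
  [.le (.add .N (.k 1)) (.add .t .x), .le (.add .x (.k 1)) .y, .le (.add .y .L) (.add (.add .t .x)
  (.k 2)), .le (.add (.add .t .x) (.k 3)) (.add .N .L), .ne (.add .y .L) (.add .x (.k 3)), .ne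
  (.add (.add (.mul 2 .t) .x) (.k 3)) (.add (.add .N .y) .L)]

theorem qr11 {N t x y L : ℤ} (hD : D N t) : Fk.All ⟨N, t, x, y, L⟩ kr11 → P (A N t) N x y L :=
  Fk.route (fam hD x y L) kr11 .y (.dn .x (.add (.sub .N .t) (.k 1)))
    [(5, .pt (.k 0)), (0, .pt .N), (1, .dn (.sub (.sub (.sub (.add (.add .N .y) .L) .t) .x) (.k 3))
    .y)]
    [.f 8978560, .f 8519808, .f 36029368258199684, .f 128, .f 128, .f 128, .f 9044096, .f 128, .f
    128, .f 128, .f 128, .f 8978561, .f 9044096, .f 128, .f 128, .f 9044096, .f 8978624, .f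
    2435007654464216629378, .f 128, .f 128, .f 9044096, .f 37155246690205829, .f 36029359668658306,
    .f 8716416, .f 8650880, .f 2361220678169374818434, .f 8650880, .f 36029368258199682, .s 7 (.f
    8454272) (.f 12648576), .f 128, .f 128, .f 8650881, .f 36873771713429641, .f 8585344, .f 128,
    .f 128, .f 128, .f 128]
    (by decide +kernel)

theorem rT11 {N t x y L : ℤ} (hD : D N t)
    (c0 : N + 1 ≤ t + x)
    (c1 : x + 1 ≤ y)
    (c2 : y + L ≤ t + x + 2)
    (c3 : t + x + 3 ≤ N + L)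
    (c4 : y + L ≠ x + 3)
    (c5 : 2 * t + x + 3 ≠ N + y + L) :
    P (A N t) N x y L := by
  exact qr11 hD ⟨c0, c1, c2, c3, c4, c5, trivial⟩

/-- hypotheses -/
noncomputable def kr12 : List Fk.C :=
  [.le (.add .x (.k 2)) .y, .le (.k 4) .L, .le .L (.add .x (.k 4)), .le (.add .y (.k 1)) .N, .ne
  (.add .x (.k 4)) (.add .t .L), .ne .y (.add .t (.k 1)), .ne (.add (.add .t .x) (.k 4)) (.add .N
  .L), .ne (.add .t .y) (.add .N (.k 1))]

theorem qr12 {N t x y L : ℤ} (hD : D N t) : Fk.All ⟨N, t, x, y, L⟩ kr12 → P (A N t) N x y L :=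
  Fk.route (fam hD x y L) kr12 .y (.dn .x (.add (.sub .x .L) (.k 4)))
    [(0, .pt .N), (1, .up (.sub .y (.k 1)) .y)]
    [.f 8650880, .f 8585344, .f 549764333701, .f 128, .f 128, .f 9175168, .f 128, .f 8650880, .f
    36029359668199557, .s 8 (.f 12648576) (.f 8454272), .s 6 (.f 12648576) (.f 8454272), .f 128, .f
    128, .f 571239039106, .f 36029359668199556, .f 128, .f 8716416, .f 36029359668199556, .f
    8716416, .s 9 (.f 12648576) (.f 8454272), .s 7 (.f 12648576) (.f 8454272), .f 128, .f 128, .f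
    8716417, .f 8519808, .f 128, .f 128, .f 128, .f 128]
    (by decide +kernel)

theorem rT12 {N t x y L : ℤ} (hD : D N t)
    (c0 : x + 2 ≤ y)
    (c1 : (4 : ℤ) ≤ L)
    (c2 : L ≤ x + 4)
    (c3 : y + 1 ≤ N)
    (c4 : x + 4 ≠ t + L)
    (c5 : y ≠ t + 1)
    (c6 : t + x + 4 ≠ N + L)
    (c7 : t + y ≠ N + 1) :
    P (A N t) N x y L := by
  exact qr12 hD ⟨c0, c1, c2, c3, c4, c5, c6, c7, trivial⟩

/-- hypotheses -/
noncomputable def kr13 : List Fk.C :=
  [.le (.add .x (.k 1)) .y, .le (.k 4) .L, .le .L (.add .x (.k 4)), .le (.add .y (.k 2)) .N, .ne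
  (.add .x (.k 4)) (.add .t .L), .ne (.add .y (.k 1)) .t, .ne (.add (.add .t .x) (.k 4)) (.add .N
  .L), .ne (.add (.add .t .y) (.k 1)) .N]

theorem qr13 {N t x y L : ℤ} (hD : D N t) : Fk.All ⟨N, t, x, y, L⟩ kr13 → P (A N t) N x y L :=
  Fk.route (fam hD x y L) kr13 .y (.dn .x (.add (.sub .x .L) (.k 4)))
    [(0, .pt .N), (1, .dn (.add .y (.k 1)) .y)]
    [.f 8650880, .f 8585344, .f 549764333701, .f 128, .f 128, .f 9175168, .f 128, .f 8650880, .f
    36029359668199557, .s 8 (.f 12648576) (.f 8454272), .s 6 (.f 12648576) (.f 8454272), .f 128, .f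
    128, .f 571239039106, .f 36029359668199556, .f 128, .f 8716416, .f 36029359668199556, .f
    8716416, .s 9 (.f 12648576) (.f 8454272), .s 7 (.f 12648576) (.f 8454272), .f 128, .f 128, .f
    8716417, .f 8519808, .f 128, .f 128, .f 128, .f 128]
    (by decide +kernel)

theorem rT13 {N t x y L : ℤ} (hD : D N t)
    (c0 : x + 1 ≤ y)
    (c1 : (4 : ℤ) ≤ L)
    (c2 : L ≤ x + 4)
    (c3 : y + 2 ≤ N)
    (c4 : x + 4 ≠ t + L)
    (c5 : y + 1 ≠ t)
    (c6 : t + x + 4 ≠ N + L)
    (c7 : t + y + 1 ≠ N) :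
    P (A N t) N x y L := by
  exact qr13 hD ⟨c0, c1, c2, c3, c4, c5, c6, c7, trivial⟩

/-- hypotheses -/
noncomputable def kr14 : List Fk.C :=
  [.le (.add .t (.k 4)) (.add .y .L), .le (.add .x (.k 1)) .y, .le .y (.add .t (.k 1)), .le (.add
  .y .L) (.add (.add .t .x) (.k 4)), .le (.add .t (.k 2)) .N, .ne (.add .y .L) (.add .x (.k 4)),
  .ne (.add (.add (.mul 2 .t) .x) (.k 4)) (.add (.add .N .y) .L)]

theorem qr14 {N t x y L : ℤ} (hD : D N t) : Fk.All ⟨N, t, x, y, L⟩ kr14 → P (A N t) N x y L :=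
  Fk.route (fam hD x y L) kr14 .y (.dn .x (.add (.sub (.sub (.add .t .x) .y) .L) (.k 4)))
    [(0, .pt .N), (1, .dn (.add .t (.k 1)) .y)]
    [.f 8716416, .f 8519808, .f 36029363963232390, .f 128, .f 128, .f 9109632, .f 128, .f 8716416,
    .f 2361220396690102747270, .s 8 (.f 12648576) (.f 8454272), .s 7 (.f 8454272) (.f 12648576), .f
    128, .f 128, .f 37718213823299715, .f 36873771713429637, .f 8650880, .f 8781952, .f
    2361220396690102878339, .f 8781952, .f 8978560, .f 128, .f 128, .f 128, .f 8781953, .f 8585344,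
    .f 128, .f 128, .f 128, .f 128]
    (by decide +kernel)

theorem rT14 {N t x y L : ℤ} (hD : D N t)
    (c0 : t + 4 ≤ y + L)
    (c1 : x + 1 ≤ y)
    (c2 : y ≤ t + 1)
    (c3 : y + L ≤ t + x + 4)
    (c4 : t + 2 ≤ N)
    (c5 : y + L ≠ x + 4)
    (c6 : 2 * t + x + 4 ≠ N + y + L) :
    P (A N t) N x y L := by
  exact qr14 hD ⟨c0, c1, c2, c3, c4, c5, c6, trivial⟩

/-- hypotheses -/
noncomputable def kr15 : List Fk.C :=
  [.le (.add .t (.k 5)) (.add .y .L), .le (.add .x (.k 1)) .y, .le .y (.add .t (.k 2)), .le (.add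
  .y .L) (.add (.add .t .x) (.k 5)), .le (.add .t (.k 3)) .N, .ne (.add .y .L) (.add .x (.k 5)),
  .ne (.add (.add (.mul 2 .t) .x) (.k 5)) (.add (.add .N .y) .L)]

theorem qr15 {N t x y L : ℤ} (hD : D N t) : Fk.All ⟨N, t, x, y, L⟩ kr15 → P (A N t) N x y L :=
  Fk.route (fam hD x y L) kr15 .y (.dn .x (.add (.sub (.sub (.add .t .x) .y) .L) (.k 5)))
    [(0, .pt .N), (1, .dn (.add .t (.k 2)) .y)]
    [.f 8716416, .f 8519808, .f 36873788893167750, .f 128, .f 128, .f 9109632, .f 128, .f 8716416,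
    .f 2416560628911231205510, .s 8 (.f 12648576) (.f 8454272), .s 7 (.f 8454272) (.f 12648576), .f
    128, .f 128, .f 36873788893167750, .f 36873771713429637, .f 8650880, .f 8781952, .f
    2361220396690102878339, .f 8781952, .f 8978560, .f 128, .f 128, .f 128, .f 8781953, .f 8585344,
    .f 128, .f 128, .f 128, .f 128]
    (by decide +kernel)

theorem rT15 {N t x y L : ℤ} (hD : D N t)
    (c0 : t + 5 ≤ y + L)
    (c1 : x + 1 ≤ y)
    (c2 : y ≤ t + 2)
    (c3 : y + L ≤ t + x + 5)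
    (c4 : t + 3 ≤ N)
    (c5 : y + L ≠ x + 5)
    (c6 : 2 * t + x + 5 ≠ N + y + L) :
    P (A N t) N x y L := by
  exact qr15 hD ⟨c0, c1, c2, c3, c4, c5, c6, trivial⟩

/-- hypotheses -/
noncomputable def kr16 : List Fk.C :=
  [.le (.add (.add .N .x) (.k 2)) (.add .y .L), .le (.k 1) .x, .le (.add .y (.k 1)) .N, .le .L
  (.add .N (.k 1)), .ne .x (.add .t (.k 1)), .ne (.add .t .x) (.add .N (.k 1)), .ne (.add .y .L)
  (.add (.add .N .t) (.k 2)), .ne (.add (.add .t .y) .L) (.add (.mul 2 .N) (.k 2))]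

theorem qr16 {N t x y L : ℤ} (hD : D N t) : Fk.All ⟨N, t, x, y, L⟩ kr16 → P (A N t) N x y L :=
  Fk.route (fam hD x y L) kr16 .y (.up .x (.sub (.sub (.add .y .L) .N) (.k 2)))
    [(0, .pt .N), (1, .dn (.sub .x (.k 1)) (.k 0)), (3, .dn (.sub .N (.k 1)) .y)]
    [.f 8585344, .f 8519808, .f 549764464773, .f 128, .f 128, .f 9175168, .f 128, .f 549764333699,
    .f 549764464773, .s 9 (.f 12648576) (.f 8454272), .s 8 (.f 12648576) (.f 8454272), .f 128, .f
    128, .f 571239301248, .f 128, .f 8585344, .f 36029363963166853, .f 8585344, .f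
    36029363963166853, .s 7 (.f 12648576) (.f 8454272), .s 6 (.f 12648576) (.f 8454272), .f 128, .f
    128, .f 37436738846720129, .f 129, .f 36029355373297797, .f 8650880, .f 128, .f 128, .f 128, .f
    128, .f 128, .f 549764333701, .f 129, .f 8716416, .f 128, .f 128, .f 128, .f 128]
    (by decide +kernel)

theorem rT16 {N t x y L : ℤ} (hD : D N t)
    (c0 : N + x + 2 ≤ y + L)
    (c1 : (1 : ℤ) ≤ x)
    (c2 : y + 1 ≤ N)
    (c3 : L ≤ N + 1)
    (c4 : x ≠ t + 1)
    (c5 : t + x ≠ N + 1)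
    (c6 : y + L ≠ N + t + 2)
    (c7 : t + y + L ≠ 2 * N + 2) :
    P (A N t) N x y L := by
  exact qr16 hD ⟨c0, c1, c2, c3, c4, c5, c6, c7, trivial⟩

/-- hypotheses -/
noncomputable def kr17 : List Fk.C :=
  [.le (.add (.add .N .x) (.k 1)) (.add .y .L), .le (.k 2) .x, .le (.add .y (.k 1)) .N, .le .L .N,
  .ne .x (.add .t (.k 2)), .ne (.add .t .x) (.add .N (.k 2)), .ne (.add .y .L) (.add (.add .N .t)
  (.k 1)), .ne (.add (.add .t .y) .L) (.add (.mul 2 .N) (.k 1))]

theorem qr17 {N t x y L : ℤ} (hD : D N t) : Fk.All ⟨N, t, x, y, L⟩ kr17 → P (A N t) N x y L :=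
  Fk.route (fam hD x y L) kr17 .y (.up .x (.sub (.sub (.add .y .L) .N) (.k 1)))
    [(0, .pt .N), (1, .dn (.sub .x (.k 2)) (.k 0)), (3, .dn (.sub .N (.k 1)) .y)]
    [.f 8585344, .f 8519808, .f 549764464773, .f 128, .f 128, .f 9175168, .f 128, .f 549764333699,
    .f 549764464773, .s 9 (.f 12648576) (.f 8454272), .s 8 (.f 12648576) (.f 8454272), .f 128, .f
    128, .f 571239301248, .f 128, .f 8585344, .f 36029363963166853, .f 8585344, .f
    36029363963166853, .s 7 (.f 12648576) (.f 8454272), .s 6 (.f 12648576) (.f 8454272), .f 128, .f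
    128, .f 37436738846720129, .f 129, .f 36029355373297797, .f 8650880, .f 128, .f 128, .f 128, .f
    128, .f 128, .f 549764333701, .f 129, .f 8716416, .f 128, .f 128, .f 128, .f 128]
    (by decide +kernel)

theorem rT17 {N t x y L : ℤ} (hD : D N t)
    (c0 : N + x + 1 ≤ y + L)
    (c1 : (2 : ℤ) ≤ x)
    (c2 : y + 1 ≤ N)
    (c3 : L ≤ N)
    (c4 : x ≠ t + 2)
    (c5 : t + x ≠ N + 2)
    (c6 : y + L ≠ N + t + 1)
    (c7 : t + y + L ≠ 2 * N + 1) :
    P (A N t) N x y L := by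
  exact qr17 hD ⟨c0, c1, c2, c3, c4, c5, c6, c7, trivial⟩

/-- hypotheses -/
noncomputable def kr18 : List Fk.C :=
  [.le (.add .N (.k 2)) (.add .y .L), .le (.k 0) .x, .le (.add .x .L) (.add .N (.k 1)), .le (.add
  .y (.k 1)) .N, .ne (.add .t (.k 1)) .N, .ne (.add (.add .x .y) .L) (.add (.add .N .t) (.k 2)),
  .ne (.add (.add (.add .t .x) .y) .L) (.add (.mul 2 .N) (.k 2))]

theorem qr18 {N t x y L : ℤ} (hD : D N t) : Fk.All ⟨N, t, x, y, L⟩ kr18 → P (A N t) N x y L :=
  Fk.route (fam hD x y L) kr18 .y (.up .x (.sub (.sub (.add (.add .x .y) .L) .N) (.k 2)))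
    [(0, .pt .N), (1, .dn (.sub .N (.k 1)) .y)]
    [.f 8585344, .f 8519808, .f 549764530308, .f 128, .f 128, .f 9109632, .f 128, .f 549764333699,
    .f 549764530308, .s 8 (.f 12648576) (.f 8454272), .s 7 (.f 12648576) (.f 8454272), .f 128, .f
    128, .f 566944399488, .f 37155246690140291, .f 8716416, .f 128, .f 9109632, .f 128, .f
    309487463274899181717225604, .s 6 (.f 8454272) (.f 12648576), .f 128, .f 128, .f 129, .f
    8650880, .f 128, .f 128, .f 128, .f 128]
    (by decide +kernel)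

theorem rT18 {N t x y L : ℤ} (hD : D N t)
    (c0 : N + 2 ≤ y + L)
    (c1 : (0 : ℤ) ≤ x)
    (c2 : x + L ≤ N + 1)
    (c3 : y + 1 ≤ N)
    (c4 : t + 1 ≠ N)
    (c5 : x + y + L ≠ N + t + 2)
    (c6 : t + x + y + L ≠ 2 * N + 2) :
    P (A N t) N x y L := by
  exact qr18 hD ⟨c0, c1, c2, c3, c4, c5, c6, trivial⟩

/-- hypotheses -/
noncomputable def kr19 : List Fk.C :=
  [.le (.add .N (.k 2)) (.add .x .L), .le (.add .x (.k 1)) .y, .le (.add .y (.k 1)) .N, .le .L
  (.add .N (.k 1)), .ne .y (.add .t (.k 1)), .ne (.add .t .y) (.add .N (.k 1)), .ne (.add .x .L)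
  (.add (.add .N .t) (.k 2)), .ne (.add (.add .t .x) .L) (.add (.mul 2 .N) (.k 2))]

theorem qr19 {N t x y L : ℤ} (hD : D N t) : Fk.All ⟨N, t, x, y, L⟩ kr19 → P (A N t) N x y L :=
  Fk.route (fam hD x y L) kr19 .y (.up .x (.sub .y (.k 1)))
    [(0, .pt .N), (1, .dn (.sub (.sub (.add .x .L) .N) (.k 2)) (.k 0)), (3, .dn (.sub .N (.k 1))
    .y)]
    [.f 549764530306, .f 8585344, .f 8650880, .f 128, .f 128, .f 9175168, .f 128, .f
    36029359668199557, .f 8650880, .s 7 (.f 12648576) (.f 8454272), .s 6 (.f 12648576) (.f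
    8454272), .f 128, .f 128, .f 8650880, .f 128, .f 8519808, .f 36029363963232389, .f 8519808, .f
    36029363963232389, .s 9 (.f 12648576) (.f 8454272), .s 8 (.f 12648576) (.f 8454272), .f 128, .f
    128, .f 37436738846785665, .f 8716417, .f 36029359668199557, .f 8650880, .f 128, .f 128, .f
    128, .f 128, .f 128, .f 571239039107, .f 129, .f 128, .f 128, .f 128, .f 128, .f 128]
    (by decide +kernel)

theorem rT19 {N t x y L : ℤ} (hD : D N t)
    (c0 : N + 2 ≤ x + L)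
    (c1 : x + 1 ≤ y)
    (c2 : y + 1 ≤ N)
    (c3 : L ≤ N + 1)
    (c4 : y ≠ t + 1)
    (c5 : t + y ≠ N + 1)
    (c6 : x + L ≠ N + t + 2)
    (c7 : t + x + L ≠ 2 * N + 2) :
    P (A N t) N x y L := by
  exact qr19 hD ⟨c0, c1, c2, c3, c4, c5, c6, c7, trivial⟩

/-- hypotheses -/
noncomputable def kr20 : List Fk.C :=
  [.le (.add (.mul 2 .N) (.k 3)) (.add (.add .t .y) .L), .le (.add .N (.k 2)) (.add .t .x), .le
  (.add .y (.k 1)) .N, .le (.add (.add .t .x) .L) (.add (.mul 2 .N) (.k 2)), .ne (.add .t (.k 2))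
  .N, .ne (.add (.add .x .y) .L) (.add (.mul 2 .N) (.k 3)), .ne (.add (.add (.add (.mul 2 .t) .x)
  .y) .L) (.add (.mul 3 .N) (.k 3))]

theorem qr20 {N t x y L : ℤ} (hD : D N t) : Fk.All ⟨N, t, x, y, L⟩ kr20 → P (A N t) N x y L :=
  Fk.route (fam hD x y L) kr20 .y (.up .x (.sub (.sub (.add (.add (.add .t .x) .y) .L) (.mul 2 .N)) (.k 3)))
    [(0, .pt .N), (1, .up (.k 2) (.add (.sub .N .t) (.k 1))), (5, .pt (.k 0)), (3, .dn (.sub .N (.k
    1)) .y)]
    [.f 549764857987, .f 8519808, .f 571239039108, .f 128, .f 128, .f 9109632, .f 128, .f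
    36029389733036162, .f 571239039108, .f 562649104514, .s 7 (.f 12648576) (.f 8454272), .f 128,
    .f 128, .f 571239039108, .f 128, .f 9044096, .f 2453454117050060570754, .f 128, .f 9109632, .s
    6 (.f 12648576) (.f 8454272), .f 2416560629177519308933, .f 128, .f 128, .f
    2453454117054355538050, .f 8585345, .f 128, .f 9109632, .f 128, .f 128, .f 128, .f 128, .f 129,
    .f 9109633, .f 562649170058, .f 2361222085552847913090, .f 8650880, .f 128, .f 128, .f 128, .f
    128, .f 128, .f 2453452991193103401090, .f 37436721666916482, .f 129, .f 8716416, .f 128, .f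
    128, .f 128, .f 128]
    (by decide +kernel)

theorem rT20 {N t x y L : ℤ} (hD : D N t)
    (c0 : 2 * N + 3 ≤ t + y + L)
    (c1 : N + 2 ≤ t + x)
    (c2 : y + 1 ≤ N)
    (c3 : t + x + L ≤ 2 * N + 2)
    (c4 : t + 2 ≠ N)
    (c5 : x + y + L ≠ 2 * N + 3)
    (c6 : 2 * t + x + y + L ≠ 3 * N + 3) :
    P (A N t) N x y L := by
  exact qr20 hD ⟨c0, c1, c2, c3, c4, c5, c6, trivial⟩

/-- hypotheses -/
noncomputable def kr21 : List Fk.C :=
  [.le (.add (.mul 2 .N) (.k 2)) (.add (.add .t .y) .L), .le .N (.add .t .x), .le (.add .y (.k 1))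
  .N, .le (.add (.add .t .x) .L) (.add (.mul 2 .N) (.k 1)), .ne (.add (.add .x .y) .L) (.add (.mul
  2 .N) (.k 2)), .ne (.add (.add (.add (.mul 2 .t) .x) .y) .L) (.add (.mul 3 .N) (.k 2))]

theorem qr21 {N t x y L : ℤ} (hD : D N t) : Fk.All ⟨N, t, x, y, L⟩ kr21 → P (A N t) N x y L :=
  Fk.route (fam hD x y L) kr21 .y (.up .x (.sub (.sub (.add (.add (.add .t .x) .y) .L) (.mul 2 .N)) (.k 2)))
    [(0, .pt .N), (1, .dn (.sub (.sub .N .t) (.k 1)) (.k 0)), (3, .dn (.sub .N (.k 1)) .y)]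
    [.f 549764792451, .f 8519808, .f 571239039108, .f 128, .f 128, .f 9044096, .f 128, .f
    36029385438068866, .f 571239039108, .s 7 (.f 12648576) (.f 8454272), .s 6 (.f 12648576) (.f
    8454272), .f 128, .f 128, .f 571239039108, .f 128, .f 8978560, .f 2453454117050060570754, .f
    8978560, .f 2453454117050060570754, .f 192, .f 8913088, .f 128, .f 128, .f
    2453454117054355538050, .f 8585345, .f 2361221804077871202434, .f 8650880, .f 128, .f 128, .f
    128, .f 128, .f 128, .f 37436721666916482, .f 129, .f 8716416, .f 128, .f 128, .f 128, .f 128]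
    (by decide +kernel)

theorem rT21 {N t x y L : ℤ} (hD : D N t)
    (c0 : 2 * N + 2 ≤ t + y + L)
    (c1 : N ≤ t + x)
    (c2 : y + 1 ≤ N)
    (c3 : t + x + L ≤ 2 * N + 1)
    (c4 : x + y + L ≠ 2 * N + 2)
    (c5 : 2 * t + x + y + L ≠ 3 * N + 2) :
    P (A N t) N x y L := by
  exact qr21 hD ⟨c0, c1, c2, c3, c4, c5, trivial⟩

/-- hypotheses -/
noncomputable def kr22 : List Fk.C :=
  [.le (.add .x (.k 2)) .y, .le (.add .y (.k 2)) .L, .le (.k 0) .x, .le .L .N, .ne (.add .x (.k 2))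
  .t, .ne .L (.add (.add .t .y) (.k 1)), .ne (.add (.add .t .x) (.k 2)) .N, .ne (.add .t .L) (.add
  (.add .N .y) (.k 1))]

theorem qr22 {N t x y L : ℤ} (hD : D N t) : Fk.All ⟨N, t, x, y, L⟩ kr22 → P (A N t) N x y L :=
  Fk.route (fam hD x y L) kr22 .y (.dn .x (.k 0))
    [(3, .dn (.sub .N (.k 1)) (.add (.sub (.add .N .y) .L) (.k 1))), (0, .pt .N), (1, .up (.add .x
    (.k 2)) .y)]
    [.f 128, .f 8650880, .f 36029359668199557, .f 128, .f 128, .f 36029355373363333, .f 8585344, .f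
    128, .f 128, .f 128, .f 128, .f 128, .f 571239170176, .f 9175168, .f 128, .f 36029355373363333,
    .f 8585344, .s 7 (.f 8454272) (.f 12648576), .s 9 (.f 8454272) (.f 12648576), .f 128, .f 128,
    .f 128, .f 37436734551752832, .f 8650880, .f 8519808, .f 549764399237, .f 8650880, .f
    36029359668199557, .s 8 (.f 12648576) (.f 8454272), .s 6 (.f 12648576) (.f 8454272), .f 128, .f
    128, .f 571239235713, .f 8716417, .f 128, .f 128, .f 128, .f 128, .f 128]
    (by decide +kernel)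

theorem rT22 {N t x y L : ℤ} (hD : D N t)
    (c0 : x + 2 ≤ y)
    (c1 : y + 2 ≤ L)
    (c2 : (0 : ℤ) ≤ x)
    (c3 : L ≤ N)
    (c4 : x + 2 ≠ t)
    (c5 : L ≠ t + y + 1)
    (c6 : t + x + 2 ≠ N)
    (c7 : t + L ≠ N + y + 1) :
    P (A N t) N x y L := by
  exact qr22 hD ⟨c0, c1, c2, c3, c4, c5, c6, c7, trivial⟩

/-- hypotheses -/
noncomputable def kr23 : List Fk.C :=
  [.le (.add .N .x) (.add .t .L), .le (.k 0) .x, .le .y (.add .t (.k 2)), .le (.add .t (.k 4)) .N,
  .le (.add (.add .t .L) (.k 1)) (.add .N .y), .ne .L (.add .x .y), .ne (.add (.mul 2 .t) .L) (.add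
  (.add .N .x) .y)]

theorem qr23 {N t x y L : ℤ} (hD : D N t) : Fk.All ⟨N, t, x, y, L⟩ kr23 → P (A N t) N x y L :=
  Fk.route (fam hD x y L) kr23 .y (.dn .x (.k 0))
    [(3, .dn (.sub .N (.k 1)) (.add .t (.k 3))), (0, .pt .N), (1, .up (.sub (.sub (.add (.add .N
    .x) .y) .t) .L) .y)]
    [.f 128, .f 8585344, .f 2471901142598746767492, .f 128, .f 128, .f 2361219833757329195140, .f
    8716416, .f 128, .f 128, .f 128, .f 128, .f 128, .f 37155255280337024, .f 9109632, .f 128, .f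
    2361219833757329195140, .f 8716416, .f 8978560, .f 128, .f 128, .f 128, .f 128, .f
    2435007654477097336962, .f 575534203008, .f 8519808, .f 549764530308, .f 575534203008, .f
    36029368258134148, .s 7 (.f 8454272) (.f 12648576), .s 8 (.f 8454272) (.f 12648576), .f 128, .f
    128, .f 566944137349, .f 8650881, .f 8781952, .f 128, .f 128, .f 128, .f 128]
    (by decide +kernel)

theorem rT23 {N t x y L : ℤ} (hD : D N t)
    (c0 : N + x ≤ t + L)
    (c1 : (0 : ℤ) ≤ x)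
    (c2 : y ≤ t + 2)
    (c3 : t + 4 ≤ N)
    (c4 : t + L + 1 ≤ N + y)
    (c5 : L ≠ x + y)
    (c6 : 2 * t + L ≠ N + x + y) :
    P (A N t) N x y L := by
  exact qr23 hD ⟨c0, c1, c2, c3, c4, c5, c6, trivial⟩

/-- hypotheses -/
noncomputable def kr24 : List Fk.C :=
  [.le (.add .x (.k 3)) .L, .le .L (.add .y (.k 2)), .le (.k 0) .x, .le (.add .y (.k 1)) .N, .ne
  (.add (.add .x .y) (.k 3)) (.add .t .L), .ne (.add (.add (.add .t .x) .y) (.k 3)) (.add .N .L)]

theorem qr24 {N t x y L : ℤ} (hD : D N t) : Fk.All ⟨N, t, x, y, L⟩ kr24 → P (A N t) N x y L :=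
  Fk.route (fam hD x y L) kr24 .y (.dn .x (.k 0))
    [(0, .pt .N), (1, .up (.add (.sub (.add .x .y) .L) (.k 3)) .y)]
    [.f 128, .f 8650880, .f 36029355373297797, .f 128, .f 128, .f 9044096, .f 128, .f 128, .f
    9044096, .f 8978624, .f 386858660390284707041378437, .f 128, .f 128, .f 37436730256851072, .f
    562649104516, .f 8519808, .f 8716416, .f 562649104516, .f 549764333701, .s 7 (.f 12648576) (.f
    8454272), .s 6 (.f 12648576) (.f 8454272), .f 128, .f 128, .f 8716417, .f 8585344, .f 128, .f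
    128, .f 128, .f 128]
    (by decide +kernel)

theorem rT24 {N t x y L : ℤ} (hD : D N t)
    (c0 : x + 3 ≤ L)
    (c1 : L ≤ y + 2)
    (c2 : (0 : ℤ) ≤ x)
    (c3 : y + 1 ≤ N)
    (c4 : x + y + 3 ≠ t + L)
    (c5 : t + x + y + 3 ≠ N + L) :
    P (A N t) N x y L := by
  exact qr24 hD ⟨c0, c1, c2, c3, c4, c5, trivial⟩

/-- hypotheses -/
noncomputable def kr25 : List Fk.C :=
  [.le (.add .x (.k 2)) .L, .le .L (.add .y (.k 1)), .le (.k 1) .x, .le (.add .y (.k 1)) .N, .ne
  (.add (.add .x .y) (.k 2)) (.add .t .L), .ne (.add (.add (.add .t .x) .y) (.k 2)) (.add .N .L),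
  .ne (.add .t (.k 1)) .N]

theorem qr25 {N t x y L : ℤ} (hD : D N t) : Fk.All ⟨N, t, x, y, L⟩ kr25 → P (A N t) N x y L :=
  Fk.route (fam hD x y L) kr25 .y (.dn .x (.k 1))
    [(0, .pt .N), (1, .up (.add (.sub (.add .x .y) .L) (.k 2)) .y)]
    [.f 128, .f 8650880, .f 36029355373297797, .f 128, .f 128, .f 9109632, .f 128, .f 128, .f
    9109632, .s 8 (.f 12648576) (.f 8454272), .f 386858660390284707041443973, .f 128, .f 128, .f
    37436730256851072, .f 562649104516, .f 8519808, .f 8716416, .f 562649104516, .f 549764333701,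
    .s 7 (.f 12648576) (.f 8454272), .s 6 (.f 12648576) (.f 8454272), .f 128, .f 128, .f 8716417,
    .f 8585344, .f 128, .f 128, .f 128, .f 128]
    (by decide +kernel)

theorem rT25 {N t x y L : ℤ} (hD : D N t)
    (c0 : x + 2 ≤ L)
    (c1 : L ≤ y + 1)
    (c2 : (1 : ℤ) ≤ x)
    (c3 : y + 1 ≤ N)
    (c4 : x + y + 2 ≠ t + L)
    (c5 : t + x + y + 2 ≠ N + L)
    (c6 : t + 1 ≠ N) :
    P (A N t) N x y L := by
  exact qr25 hD ⟨c0, c1, c2, c3, c4, c5, c6, trivial⟩

/-- hypotheses -/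
noncomputable def kr26 : List Fk.C :=
  [.le (.add (.mul 2 .N) (.k 3)) (.add (.add (.add .t .x) .y) .L), .le (.add .N (.k 2)) (.add .t
  .y), .le (.add .t .x) (.add .N (.k 1)), .le (.add .y (.k 2)) .N, .le (.add (.add .t .y) .L) (.add
  (.mul 2 .N) (.k 2)), .ne (.add .t (.k 2)) .N, .ne (.add (.add .x .y) .L) (.add (.mul 2 .N) (.k
  3)), .ne (.add (.add (.add (.mul 2 .t) .x) .y) .L) (.add (.mul 3 .N) (.k 3))]

theorem qr26 {N t x y L : ℤ} (hD : D N t) : Fk.All ⟨N, t, x, y, L⟩ kr26 → P (A N t) N x y L :=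
  Fk.route (fam hD x y L) kr26 .y (.up .x (.add (.sub .N .t) (.k 1)))
    [(5, .up (.k 0) (.sub (.sub (.add (.add (.add .t .x) .y) .L) (.mul 2 .N)) (.k 3))), (0, .pt
    .N), (1, .dn (.sub .N (.k 2)) .y)]
    [.f 549764595842, .f 8650880, .f 549764530307, .f 128, .f 128, .f 128, .f 8519808, .f
    2471901142615926505603, .f 128, .f 128, .f 128, .f 128, .f 8781953, .f 9175168, .f 128, .f
    8519808, .f 2471901142615926505603, .s 9 (.f 12648576) (.f 8454272), .f 38844113734336646, .f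
    128, .f 128, .f 2416560910394798243968, .f 562649432192, .f 2416559503019914690690, .f 8716416,
    .f 128, .f 9175168, .f 128, .f 562649432192, .s 7 (.f 8454272) (.f 12648576), .f 128, .f 128,
    .f 129, .f 36873771713560710, .f 8585344, .f 128, .f 128, .f 128, .f 128]
    (by decide +kernel)

theorem rT26 {N t x y L : ℤ} (hD : D N t)
    (c0 : 2 * N + 3 ≤ t + x + y + L)
    (c1 : N + 2 ≤ t + y)
    (c2 : t + x ≤ N + 1)
    (c3 : y + 2 ≤ N)
    (c4 : t + y + L ≤ 2 * N + 2)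
    (c5 : t + 2 ≠ N)
    (c6 : x + y + L ≠ 2 * N + 3)
    (c7 : 2 * t + x + y + L ≠ 3 * N + 3) :
    P (A N t) N x y L := by
  exact qr26 hD ⟨c0, c1, c2, c3, c4, c5, c6, c7, trivial⟩

/-- hypotheses -/
noncomputable def kr27 : List Fk.C :=
  [.le (.add .N (.k 1)) (.add .y .L), .le (.k 0) .x, .le (.add .x .L) .N, .le (.add .y (.k 2)) .N,
  .ne (.add .t (.k 2)) .N, .ne (.add (.add .x .y) .L) (.add (.add .N .t) (.k 1)), .ne (.add (.add
  (.add .t .x) .y) .L) (.add (.mul 2 .N) (.k 1))]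

theorem qr27 {N t x y L : ℤ} (hD : D N t) : Fk.All ⟨N, t, x, y, L⟩ kr27 → P (A N t) N x y L :=
  Fk.route (fam hD x y L) kr27 .y (.up .x (.sub (.sub (.add (.add .x .y) .L) .N) (.k 1)))
    [(0, .pt .N), (1, .dn (.sub .N (.k 2)) .y)]
    [.f 8585344, .f 8519808, .f 549764530308, .f 128, .f 128, .f 9109632, .f 128, .f 549764333699,
    .f 549764530308, .s 8 (.f 12648576) (.f 8454272), .s 7 (.f 12648576) (.f 8454272), .f 128, .f
    128, .f 566944399488, .f 37155246690140291, .f 8716416, .f 128, .f 9109632, .f 128, .f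
    309487463274899181717225604, .s 6 (.f 8454272) (.f 12648576), .f 128, .f 128, .f 129, .f
    8650880, .f 128, .f 128, .f 128, .f 128]
    (by decide +kernel)

theorem rT27 {N t x y L : ℤ} (hD : D N t)
    (c0 : N + 1 ≤ y + L)
    (c1 : (0 : ℤ) ≤ x)
    (c2 : x + L ≤ N)
    (c3 : y + 2 ≤ N)
    (c4 : t + 2 ≠ N)
    (c5 : x + y + L ≠ N + t + 1)
    (c6 : t + x + y + L ≠ 2 * N + 1) :
    P (A N t) N x y L := by
  exact qr27 hD ⟨c0, c1, c2, c3, c4, c5, c6, trivial⟩

/-- hypotheses -/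
noncomputable def kr28 : List Fk.C :=
  [.le (.add .t (.k 2)) (.add .y .L), .le (.k 0) .x, .le (.add .x .L) (.add .t (.k 1)), .le (.add
  .y (.k 1)) .t, .ne (.add (.add .x .y) .L) (.add (.mul 2 .t) (.k 2)), .ne (.add (.add .x .y) .L)
  (.add .N (.k 2))]

theorem qr28 {N t x y L : ℤ} (hD : D N t) : Fk.All ⟨N, t, x, y, L⟩ kr28 → P (A N t) N x y L :=
  Fk.route (fam hD x y L) kr28 .y (.up .x (.sub (.sub (.add (.add .x .y) .L) .t) (.k 2)))
    [(0, .pt .N), (1, .dn (.sub .t (.k 1)) .y)]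
    [.f 8585344, .f 8519808, .f 36029368258265225, .f 128, .f 128, .f 9044096, .f 128, .f
    549764333699, .f 36029368258265225, .s 7 (.f 12648576) (.f 8454272), .f 824642437252, .f 128,
    .f 128, .f 38562643048398980, .f 37155246690140291, .f 8716416, .f 8978560, .f
    2361220678165079457924, .f 8978560, .f 8913024, .f 192, .f 128, .f 128, .f 8978561, .f 8650880,
    .f 128, .f 128, .f 128, .f 128]
    (by decide +kernel)

theorem rT28 {N t x y L : ℤ} (hD : D N t)
    (c0 : t + 2 ≤ y + L)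
    (c1 : (0 : ℤ) ≤ x)
    (c2 : x + L ≤ t + 1)
    (c3 : y + 1 ≤ t)
    (c4 : x + y + L ≠ 2 * t + 2)
    (c5 : x + y + L ≠ N + 2) :
    P (A N t) N x y L := by
  exact qr28 hD ⟨c0, c1, c2, c3, c4, c5, trivial⟩

/-- hypotheses -/
noncomputable def kr29 : List Fk.C :=
  [.le (.add .N (.k 2)) (.add (.add .t .x) .L), .le (.add .x .L) (.add .y (.k 2)), .le (.k 0) .x,
  .le (.add (.add .t .x) (.k 1)) .N, .le (.add .y (.k 1)) .N, .ne (.add .y (.k 2)) (.add .x .L),
  .ne (.add (.add (.mul 2 .t) .x) .L) (.add (.add .N .y) (.k 2))]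

theorem qr29 {N t x y L : ℤ} (hD : D N t) : Fk.All ⟨N, t, x, y, L⟩ kr29 → P (A N t) N x y L :=
  Fk.route (fam hD x y L) kr29 .y (.up .x (.sub (.sub .N .t) (.k 1)))
    [(0, .pt .N), (1, .up (.add (.sub (.sub (.sub (.add .N .y) .t) .x) .L) (.k 2)) .y)]
    [.f 8650880, .f 8716416, .f 36029359668199558, .f 128, .f 128, .f 9109632, .f 128, .f 9044096,
    .f 36029359668199558, .f 192, .f 8978624, .f 128, .f 128, .f 37718209528332418, .f
    36873793188397184, .f 8519808, .f 8781952, .f 36873793188397184, .f 549764333702, .s 7 (.f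
    12648576) (.f 8454272), .s 8 (.f 8454272) (.f 12648576), .f 128, .f 128, .f 8781953, .f
    8585344, .f 128, .f 128, .f 128, .f 128]
    (by decide +kernel)

theorem rT29 {N t x y L : ℤ} (hD : D N t)
    (c0 : N + 2 ≤ t + x + L)
    (c1 : x + L ≤ y + 2)
    (c2 : (0 : ℤ) ≤ x)
    (c3 : t + x + 1 ≤ N)
    (c4 : y + 1 ≤ N)
    (c5 : y + 2 ≠ x + L)
    (c6 : 2 * t + x + L ≠ N + y + 2) :
    P (A N t) N x y L := by
  exact qr29 hD ⟨c0, c1, c2, c3, c4, c5, c6, trivial⟩

/-- hypotheses -/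
noncomputable def kr30 : List Fk.C :=
  [.le (.add .t .x) (.add .L (.k 1)), .le (.k 0) .x, .le (.add .L (.k 2)) (.add .t .y), .le (.add
  .t .y) (.add .N (.k 3)), .ne (.add .L (.k 1)) (.add .x .y), .ne (.add (.add (.mul 2 .t) .x) .y)
  (.add (.add .N .L) (.k 1)), .ne (.mul 2 .t) (.add .N (.k 4))]

theorem qr30 {N t x y L : ℤ} (hD : D N t) : Fk.All ⟨N, t, x, y, L⟩ kr30 → P (A N t) N x y L :=
  Fk.route (fam hD x y L) kr30 .y (.dn .x (.k 0))
    [(3, .dn (.sub .N (.k 1)) (.add (.sub .N .t) (.k 4))), (0, .pt .N), (1, .up (.sub (.sub (.add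
    (.add .t .x) .y) .L) (.k 1)) .y)]
    [.f 128, .f 8585344, .f 160789661249276075181342858, .f 128, .f 128, .f 9044096, .f
    588419629312, .f 128, .f 128, .f 128, .f 128, .f 128, .f 37436730256916608, .f 9109632, .f 128,
    .f 9044096, .f 588419629312, .f 128, .s 8 (.f 8454272) (.f 12648576), .f 128, .f 128, .f 128,
    .f 315534398252573825128005771, .f 549764399236, .f 8519808, .f 38562668826591493, .f
    549764399236, .f 2527243064228089692421, .s 7 (.f 12648576) (.f 8454272), .s 6 (.f 8454272) (.f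
    12648576), .f 128, .f 128, .f 38562668826657029, .f 8716417, .f 8650880, .f 128, .f 128, .f
    128, .f 128]
    (by decide +kernel)

theorem rT30 {N t x y L : ℤ} (hD : D N t)
    (c0 : t + x ≤ L + 1)
    (c1 : (0 : ℤ) ≤ x)
    (c2 : L + 2 ≤ t + y)
    (c3 : t + y ≤ N + 3)
    (c4 : L + 1 ≠ x + y)
    (c5 : 2 * t + x + y ≠ N + L + 1)
    (c6 : 2 * t ≠ N + 4) :
    P (A N t) N x y L := by
  exact qr30 hD ⟨c0, c1, c2, c3, c4, c5, c6, trivial⟩

/-- hypotheses -/
noncomputable def kr31 : List Fk.C :=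
  [.le (.add (.add .N .x) (.k 2)) (.add .y .L), .le (.k 0) .x, .le (.add .y (.k 2)) .N, .le .L
  (.add .N (.k 1)), .ne (.add .y (.k 1)) .t, .ne .L (.add (.add .t .x) (.k 2)), .ne (.add (.add .t
  .y) (.k 1)) .N, .ne (.add .t .L) (.add (.add .N .x) (.k 2))]

theorem qr31 {N t x y L : ℤ} (hD : D N t) : Fk.All ⟨N, t, x, y, L⟩ kr31 → P (A N t) N x y L :=
  Fk.route (fam hD x y L) kr31 .y (.dn .x (.k 0))
    [(3, .dn (.sub .N (.k 1)) (.add .y (.k 1))), (0, .pt .N), (1, .up (.add (.sub (.add .N .x) .L)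
    (.k 2)) .y)]
    [.f 128, .f 8585344, .f 36029363963166853, .f 128, .f 128, .f 36029355373428867, .f 8650880, .f
    128, .f 128, .f 128, .f 128, .f 128, .f 571239170176, .f 9175168, .f 128, .f 36029355373428867,
    .f 8650880, .s 8 (.f 12648576) (.f 8454272), .s 6 (.f 12648576) (.f 8454272), .f 128, .f 128,
    .f 128, .f 37436738846720128, .f 571239039107, .f 8519808, .f 8650880, .f 571239039107, .f
    549764464770, .s 7 (.f 8454272) (.f 12648576), .s 9 (.f 8454272) (.f 12648576), .f 128, .f 128,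
    .f 8650881, .f 129, .f 8716416, .f 128, .f 128, .f 128, .f 128]
    (by decide +kernel)

theorem rT31 {N t x y L : ℤ} (hD : D N t)
    (c0 : N + x + 2 ≤ y + L)
    (c1 : (0 : ℤ) ≤ x)
    (c2 : y + 2 ≤ N)
    (c3 : L ≤ N + 1)
    (c4 : y + 1 ≠ t)
    (c5 : L ≠ t + x + 2)
    (c6 : t + y + 1 ≠ N)
    (c7 : t + L ≠ N + x + 2) :
    P (A N t) N x y L := by
  exact qr31 hD ⟨c0, c1, c2, c3, c4, c5, c6, c7, trivial⟩

/-- hypotheses -/
noncomputable def kr32 : List Fk.C :=
  [.le .t (.add .y (.k 1)), .le (.add .x .L) (.add .y (.k 2)), .le (.k 0) .x, .le (.add .y (.k 4))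
  (.add .t .L), .le (.add .y (.k 1)) .N, .ne (.add .y (.k 4)) (.add .x .L), .ne (.add (.add (.mul 2
  .t) .x) .L) (.add (.add .N .y) (.k 4))]

theorem qr32 {N t x y L : ℤ} (hD : D N t) : Fk.All ⟨N, t, x, y, L⟩ kr32 → P (A N t) N x y L :=
  Fk.route (fam hD x y L) kr32 .y (.up .x (.sub (.sub (.add (.add .t .x) .L) .y) (.k 4)))
    [(0, .pt .N), (1, .up (.sub .t (.k 1)) .y)]
    [.f 8650880, .f 8716416, .f 36029359668199558, .f 128, .f 128, .f 9109632, .f 128, .f
    549764464773, .f 36029359668199558, .s 8 (.f 12648576) (.f 8454272), .f 8585408, .f 128, .f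
    128, .f 37718209528463488, .f 36873771713560709, .f 8519808, .f 8781952, .f 36873771713560709,
    .f 9044096, .f 8978560, .f 192, .f 128, .f 128, .f 8781953, .f 8585344, .f 128, .f 128, .f 128,
    .f 128]
    (by decide +kernel)

theorem rT32 {N t x y L : ℤ} (hD : D N t)
    (c0 : t ≤ y + 1)
    (c1 : x + L ≤ y + 2)
    (c2 : (0 : ℤ) ≤ x)
    (c3 : y + 4 ≤ t + L)
    (c4 : y + 1 ≤ N)
    (c5 : y + 4 ≠ x + L)
    (c6 : 2 * t + x + L ≠ N + y + 4) :
    P (A N t) N x y L := by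
  exact qr32 hD ⟨c0, c1, c2, c3, c4, c5, c6, trivial⟩


/-- table of hypotheses -/
noncomputable def tabr : List (List Fk.C) :=
  [kr0, kr1, kr2, kr3, kr4, kr5, kr6, kr7, kr8, kr9, kr10, kr11, kr12, kr13, kr14, kr15, kr16,
  kr17, kr18, kr19, kr20, kr21, kr22, kr23, kr24, kr25, kr26, kr27, kr28, kr29, kr30, kr31, kr32]

theorem tbr {N t x y L : ℤ} (hD : D N t) : Fk.Tab ⟨N, t, x, y, L⟩ (P (A N t) N x y L) tabr :=
  ⟨qr0 hD, qr1 hD, qr2 hD, qr3 hD, qr4 hD, qr5 hD, qr6 hD, qr7 hD, qr8 hD, qr9 hD, qr10 hD, qr11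
  hD, qr12 hD, qr13 hD, qr14 hD, qr15 hD, qr16 hD, qr17 hD, qr18 hD, qr19 hD, qr20 hD, qr21 hD,
  qr22 hD, qr23 hD, qr24 hD, qr25 hD, qr26 hD, qr27 hD, qr28 hD, qr29 hD, qr30 hD, qr31 hD, qr32
  hD, trivial⟩

theorem rn1 {N t x y L : ℤ} (hD : D N t)
    (h0 : (0 : ℤ) ≤ x)
    (h1 : x + 1 ≤ y)
    (h2 : y + 1 ≤ N)
    (h3 : (5 : ℤ) ≤ L)
    (h4 : L ≤ N)
    (h5 : y + L ≤ N + x + 2) :
    P (A N t) N x y L := by
  exact Fk.tree (fam hD x y L) (tbr hD)
    [.le (.k 0) .x, .le (.add .x (.k 1)) .y, .le (.add .y (.k 1)) .N, .le (.k 5) .L, .le .L .N, .le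
    (.add .y .L) (.add (.add .N .x) (.k 2))]
    (.nd (.add .x (.k 3)) .L (.nd (.add (.add .t .x) (.k 4)) (.add .y .L) (.lf 0 [.f 8585344, .f
    8716416, .f 8650880, .f 8978560, .f 8519808, .f 558354137226]) (.nd (.add .y .L) (.add (.add .t
    .x) (.k 2)) (.nd (.add (.add .N .x) (.k 4)) (.add (.add .t .y) .L) (.lf 0 [.f 8716416, .f
    8847488, .f 8781952, .f 9109632, .f 8585408, .f 8519808]) (.nd (.add .x (.k 4)) .L (.lf 1 [.f
    8519808, .f 8913024, .f 8847488, .f 8585344, .f 8650944, .f 8585408]) (.nd (.add (.add .t .y)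
    .L) (.add .N (.k 4)) (.lf 0 [.f 8847488, .f 8978560, .f 8913024, .f 9240704, .f 8716480, .f
    54043792537485442]) (.lf 2 [.f 8519808, .f 8978560, .f 549764661380, .f 8650880, .f
    2361221241115032944777, .f 2361221241145097584773])))) (.nd (.k 1) .x (.nd (.add .y .L) (.add
    (.add .N .x) (.k 1)) (.lf 3 [.f 8781952, .f 8913024, .f 8585344, .f 8519808, .f 8650880, .f
    824642371714, .f 605599039616]) (.nd (.add (.mul 2 .N) (.k 4)) (.add (.add .t .y) .L) (.lf 4
    [.f 8519808, .f 8978560, .f 9044096, .f 9240704, .f 9240768, .f 2398114729253862441094]) (.nd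
    (.add (.add .N .x) (.k 4)) (.add .t .L) (.lf 5 [.f 8519808, .f 9044096, .f 8716416, .f 9306240,
    .f 9306304, .f 163207420657036786271387776]) (.lf 6 [.f 2490348731114574905472, .f
    154747282870715726980120834, .f 8716416, .f 562649366656, .f 9109632, .f
    154745179941891809422541059, .f 74028485828149376])))) (.nd (.add .t (.k 2)) .N (.lf 7 [.f
    562649759872, .f 8913024, .f 8847488, .f 9175168, .f 8716480, .f 8519872, .f 566944923776])
    (.lf 5 [.f 36592339686260867, .f 8913024, .f 8847488, .f 9175168, .f 9175232, .f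
    2361222368114451415178]))))) (.nd (.add .t (.k 1)) .y (.nd (.add (.add .t .x) (.k 4)) (.add .N
    .L) (.lf 8 [.f 8781952, .f 8913024, .f 8650880, .f 8847488, .f 558358331531, .f 8585344, .f
    8519872, .f 562649104523]) (.nd (.add .N .L) (.add (.add .t .x) (.k 2)) (.nd (.add .x (.k 4))
    (.add .t .L) (.lf 8 [.f 8913024, .f 9044096, .f 8781952, .f 8978560, .f 8519872, .f 8716416, .f
    8585344, .f 36873793188266112]) (.nd (.add .t .L) (.add .x (.k 2)) (.lf 8 [.f 8978560, .f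
    9109632, .f 8847488, .f 9044096, .f 8519808, .f 8781952, .f 8650880, .f 36029394028069001])
    (.nd (.add (.add .t .y) .L) (.add (.add .N .x) (.k 1)) (.lf 9 [.f 566944858240, .f 9044096, .f
    8585344, .f 8519808, .f 549764661379, .f 37436751740076160]) (.lf 10 [.f 37155298229747840, .f
    9044096, .f 9109632, .f 9306240, .f 571243233419, .f 566948266123])))) (.lf 11 [.f
    562649694336, .f 8847488, .f 562649104520, .f 8519808, .f 549764792455, .f 824642371714])))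
    (.nd (.add .y (.k 1)) .t (.nd (.add (.add .t .x) (.k 4)) (.add .N .L) (.nd (.add .N (.k 1))
    (.add .t .y) (.lf 8 [.f 8913024, .f 9044096, .f 8781952, .f 8978560, .f 54043753882845315, .f
    8650944, .f 8585408, .f 8519808]) (.nd (.add .N (.k 4)) (.add (.add .t .y) .L) (.lf 2 [.f
    8519808, .f 8978560, .f 8585344, .f 579829170304, .f 36029359668199561, .f 36029385438003333])
    (.lf 8 [.f 8978560, .f 9109632, .f 8847488, .f 9044096, .f 54043792537878661, .f 8716480, .f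
    8650944, .f 558354858176]))) (.nd (.add .x (.k 2)) .y (.lf 12 [.f 8519808, .f 9044096, .f
    8781952, .f 8978560, .f 37155289639813312, .f 8650944, .f 8585344, .f 36873814663102592]) (.nd
    (.add .y (.k 2)) .t (.lf 13 [.f 8978560, .f 9109632, .f 8847488, .f 549764333711, .f
    54043792537878658, .f 8519872, .f 8650880, .f 37155293935239296]) (.nd (.add .t (.k 2)) .N (.lf
    14 [.f 562649890944, .f 9044096, .f 8781952, .f 37718196643758210, .f 8519808, .f 592713875596,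
    .f 575534334080]) (.lf 10 [.f 36873823253037184, .f 9044096, .f 9109632, .f 9306240, .f
    584124334272, .f 36592339686260876]))))) (.nd (.add .t (.k 2)) .N (.nd (.add (.add (.mul 2 .t)
    .x) (.k 5)) (.add (.add .N .y) .L) (.lf 14 [.f 566944727168, .f 8913024, .f 8716416, .f
    575534334080, .f 8585344, .f 549764857992, .f 8519872]) (.nd (.add .t (.k 3)) .N (.lf 15 [.f
    549764923525, .f 8978560, .f 8781952, .f 562649104514, .f 8519808, .f 549764923529, .f
    8585344]) (.lf 10 [.f 36592343981228165, .f 8978560, .f 9044096, .f 9240704, .f 562653298820,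
    .f 36592343981228169]))) (.lf 10 [.f 36873810368135296, .f 8847488, .f 8913024, .f 9109632, .f
    571239301312, .f 36592335391293575])))))
    (by decide +kernel) ⟨h0, h1, h2, h3, h4, h5, trivial⟩

theorem rn2 {N t x y L : ℤ} (hD : D N t)
    (h0 : (0 : ℤ) ≤ x)
    (h1 : x + 1 ≤ y)
    (h2 : y + 1 ≤ N)
    (h3 : (5 : ℤ) ≤ L)
    (h4 : L ≤ N)
    (h5 : ¬ (y + L ≤ N + x + 2)) :
    P (A N t) N x y L := by
  exact Fk.tree (fam hD x y L) (tbr hD)
    [.le (.k 0) .x, .le (.add .x (.k 1)) .y, .le (.add .y (.k 1)) .N, .le (.k 5) .L, .le .L .N,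
    .nle (.add .y .L) (.add (.add .N .x) (.k 2))]
    (.nd (.k 1) .x (.nd (.add (.mul 2 .N) (.k 3)) (.add (.add .t .y) .L) (.nd (.add .t .x) .N (.nd
    (.add .y .L) (.add (.add .N .t) (.k 1)) (.lf 16 [.f 9109632, .f 8716416, .f 8913024, .f
    9044096, .f 36592309625684100, .f 8585408, .f 8519872, .f 8650880]) (.nd (.k 2) .x (.lf 17 [.f
    9175168, .f 8519808, .f 8978560, .f 9109632, .f 605602971780, .f 8650944, .f 8585344, .f
    8716416]) (.lf 18 [.f 37155268165238912, .f 8781952, .f 558354858112, .f 8978560, .f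
    54043783947550859, .f 562649104518, .f 549764595845]))) (.nd (.add .N (.k 3)) (.add .t .x) (.nd
    (.add .y .L) (.add .N .t) (.lf 16 [.f 9175168, .f 8781952, .f 8978560, .f 9109632, .f
    601308004482, .f 8585344, .f 8519872, .f 8716416]) (.nd (.add (.mul 2 .N) (.k 3)) (.add (.add
    .t .x) .L) (.nd (.add .x .L) (.add (.add .N .t) (.k 1)) (.nd (.add .t (.k 2)) .y (.lf 19 [.f
    36029355373887620, .f 9109632, .f 9175168, .f 9306240, .f 8519808, .f 36873780303233156, .f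
    8585408, .f 8650880]) (.lf 16 [.f 9371776, .f 8978560, .f 9175168, .f 9306240, .f 558358331531,
    .f 8781952, .f 558358331534, .f 8913024])) (.lf 16 [.f 9306240, .f 8913024, .f 9109632, .f
    9240704, .f 549764333709, .f 8716416, .f 558354792576, .f 8847488])) (.lf 20 [.f 8781952, .f
    8650880, .f 9044096, .f 8519808, .f 3541813706265964183683, .f 549764399236, .f
    549764595844]))) (.nd (.add (.add .t .x) .L) (.add (.mul 2 .N) (.k 1)) (.nd (.add (.add .x .y)
    .L) (.add (.mul 2 .N) (.k 1)) (.lf 21 [.f 8781952, .f 8716416, .f 9044096, .f 8585344, .f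
    8519872, .f 571239039110]) (.nd (.add .t (.k 2)) .y (.lf 19 [.f 562649825408, .f 9044096, .f
    9109632, .f 9240704, .f 8519808, .f 37155276754780294, .f 614188974272, .f 8650944]) (.nd (.add
    .y (.k 2)) .L (.nd (.add .x (.k 3)) .t (.lf 22 [.f 36029368258396290, .f 8585344, .f 9044096,
    .f 9371776, .f 8519872, .f 4869994479226089242886, .f 8913024, .f 73747015141425288]) (.nd
    (.add .t (.k 4)) .N (.lf 23 [.f 38281189546852480, .f 9109632, .f 8716416, .f 8519808, .f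
    36029372561817737, .f 74591693479280774, .f 1120995967104]) (.lf 24 [.f 36029376848593028, .f
    2398112758954795270407, .f 9109632, .f 9306240, .f 157165208118184871795425540, .f
    2398114448358714704000]))) (.lf 25 [.f 36029372553494668, .f 8519808, .f 8978560, .f 9175168,
    .f 36873823257100431, .f 579829104768, .f 37155298229944512])))) (.nd (.add .y .L) (.add (.add
    .N .t) (.k 1)) (.lf 16 [.f 9240704, .f 8847488, .f 9044096, .f 9175168, .f 36592313920651398,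
    .f 549764989059, .f 8519872, .f 8781952]) (.lf 20 [.f 8781952, .f 549764399244, .f 9044096, .f
    566944858240, .f 54043788243107970, .f 36029359668854914, .f 571239039110]))))) (.nd (.add
    (.add .t .y) .L) (.add (.mul 2 .N) (.k 1)) (.lf 16 [.f 9044096, .f 8650880, .f 8847488, .f
    8978560, .f 36592343981883584, .f 592718069890, .f 824642240651, .f 8519872]) (.nd (.add .y (.k
    2)) .N (.nd (.add .t (.k 3)) .N (.lf 26 [.f 549764464774, .f 549764464779, .f 571239825536, .f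
    8585344, .f 8716416, .f 8519872, .f 73465574521045184, .f 601312526528]) (.lf 18 [.f
    601304203392, .f 8781952, .f 2453456368897118699650, .f 8585344, .f 37436747437310144, .f
    160789716592041845986558083, .f 566944071814])) (.lf 6 [.f 36029368258199688, .f
    4759299096588592087300, .f 8716416, .f 597008842884, .f 8913024, .f 4759299096588592087300, .f
    72621368634179844])))) (.nd (.add (.add (.add .t .x) .y) .L) (.add (.mul 2 .N) (.k 1)) (.lf 18
    [.f 588419170432, .f 8650880, .f 562649104520, .f 8781952, .f 54043783956004994, .f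
    558354792640, .f 8519872]) (.nd (.add .y (.k 2)) .N (.nd (.add (.add .x .y) .L) (.add .N .t)
    (.nd (.add .t (.k 3)) .N (.lf 27 [.f 36029372553298050, .f 8847488, .f 597008842886, .f
    8650880, .f 8519872, .f 8585408, .f 8716416]) (.nd (.add .x .L) (.add .t (.k 1)) (.nd (.add .y
    (.k 1)) .t (.lf 28 [.f 40533006540669056, .f 8978560, .f 8585344, .f 8519808, .f 562653298818,
    .f 1138175639680]) (.lf 29 [.f 549764661382, .f 558354137219, .f 8978560, .f 36029381143036038,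
    .f 8781952, .f 558354137219, .f 37155246690468102])) (.nd (.add (.mul 2 .N) (.k 3)) (.add (.add
    (.add .t .x) .y) .L) (.lf 18 [.f 4722404764059191935106, .f 8978560, .f 584124792960, .f
    8781952, .f 54043758178074765, .f 8716480, .f 8519808]) (.lf 30 [.f 549773115523, .f 8978560,
    .f 38281146597310733, .f 37155259574911106, .f 2435044527673285214341, .f
    2435044527681875148992, .f 1116699885713])))) (.lf 31 [.f 9109632, .f 8781952, .f 8585344, .f
    9044096, .f 37436764616523904, .f 36592296745304195, .f 37436764616392836, .f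
    73465531570585732])) (.nd (.add (.add (.mul 2 .t) .x) .L) (.add (.add .N .y) (.k 3)) (.lf 32
    [.f 38281146596982916, .f 36873814663299200, .f 8781952, .f 36029368266915972, .f 8913024, .f
    36873771713953925, .f 8519872]) (.lf 29 [.f 584123940996, .f 36873814663299200, .f 8781952, .f
    605599105152, .f 8913024, .f 36873771713953925, .f 8519808])))))
    (by decide +kernel) ⟨h0, h1, h2, h3, h4, h5, trivial⟩


theorem rn0 {N t x y L : ℤ} (hD : D N t)
    (h0 : (0 : ℤ) ≤ x)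
    (h1 : x + 1 ≤ y)
    (h2 : y + 1 ≤ N)
    (h3 : (5 : ℤ) ≤ L)
    (h4 : L ≤ N) :
    P (A N t) N x y L := by
  obtain ⟨d0, d1, d2⟩ := id hD
  by_cases h5 : y + L ≤ N + x + 2
  · exact rn1 hD h0 h1 h2 h3 h4 h5
  · exact rn2 hD h0 h1 h2 h3 h4 h5

end Pool.Agent.Work.MP_193ce1_co.Rim.Wp
end

-- merged part: Pool.Agent.Work.MP_193ce1_co.Rim.DdD
section
set_option linter.unusedVariables false

namespace Pool.Agent.Work.MP_193ce1_co.Rim.Dd

def D (N t : ℤ) : Prop :=
  2 * N + 3 ≤ 3 * t ∧ t + 1 ≤ N ∧ (10 : ℤ) ≤ N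

def B (N t a b : ℤ) : Prop :=
  (0 ≤ a ∧ b = a + 1 ∧ b < N) ∨ (a = N ∧ 0 ≤ b ∧ b < N ∧ b ≠ N - t ∧ b ≠ t) ∨
    (a = N - 1 ∧ b = 0) ∨
    (a = 0 ∧ b = N - t + 1) ∨
    (a = N - t + 1 ∧ b = t - 1)

def A (N t a b : ℤ) : Prop := a ≠ b ∧ (B N t a b ∨ B N t b a)

variable {N t : ℤ}

theorem rel (hD : D N t) : Rel (A N t) N :=
  ⟨fun _ _ h => ⟨h.1.symm, h.2.symm⟩, fun _ h => h.1 rfl,
    fun a h0 h1 => ⟨by omega, Or.inl (Or.inl ⟨h0, rfl, h1⟩)⟩⟩

theorem hubB (hD : D N t) (e : ℤ) (h0 : 0 ≤ e) (h1 : e < N) (x0 : e ≠ N - t) (x1 : e ≠ t) : A N t N e :=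
  ⟨by omega, Or.inl (Or.inr (Or.inl ⟨rfl, h0, h1, x0, x1⟩))⟩

theorem hubA (hD : D N t) (e : ℤ) (h0 : 0 ≤ e) (h1 : e < N) (x0 : e ≠ N - t) (x1 : e ≠ t) : A N t e N :=
  ⟨by omega, Or.inr (Or.inr (Or.inl ⟨rfl, h0, h1, x0, x1⟩))⟩

theorem ch0 (hD : D N t) : A N t (N - 1) 0 :=
  ⟨by unfold D at hD; omega, Or.inl (Or.inr (Or.inr (Or.inl ⟨rfl, rfl⟩)))⟩

theorem ch1 (hD : D N t) : A N t 0 (N - 1) :=
  ⟨by unfold D at hD; omega, Or.inr (Or.inr (Or.inr (Or.inl ⟨rfl, rfl⟩)))⟩

theorem ch2 (hD : D N t) : A N t 0 (N - t + 1) :=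
  ⟨by unfold D at hD; omega, Or.inl (Or.inr (Or.inr (Or.inr (Or.inl ⟨rfl, rfl⟩))))⟩

theorem ch3 (hD : D N t) : A N t (N - t + 1) 0 :=
  ⟨by unfold D at hD; omega, Or.inr (Or.inr (Or.inr (Or.inr (Or.inl ⟨rfl, rfl⟩))))⟩

theorem ch4 (hD : D N t) : A N t (N - t + 1) (t - 1) :=
  ⟨by unfold D at hD; omega, Or.inl (Or.inr (Or.inr (Or.inr (Or.inr ⟨rfl, rfl⟩))))⟩

theorem ch5 (hD : D N t) : A N t (t - 1) (N - t + 1) :=
  ⟨by unfold D at hD; omega, Or.inr (Or.inr (Or.inr (Or.inr (Or.inr ⟨rfl, rfl⟩))))⟩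

/-- vertices missed by the hub -/
noncomputable def fV : List Fk.E :=
  [.sub .N .t, .t]

/-- chords -/
noncomputable def fH : List (Fk.E × Fk.E) :=
  [(.sub .N (.k 1), .k 0), (.k 0, .sub .N (.k 1)), (.k 0, .add (.sub .N .t) (.k 1)), (.add (.sub .N
  .t) (.k 1), .k 0), (.add (.sub .N .t) (.k 1), .sub .t (.k 1)), (.sub .t (.k 1), .add (.sub .N .t)
  (.k 1))]

/-- parameter range -/
noncomputable def fD : List Fk.C :=
  [.le (.add (.mul 2 .N) (.k 3)) (.mul 3 .t), .le (.add .t (.k 1)) .N, .le (.k 10) .N]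

theorem fam (hD : D N t) (x y L : ℤ) : Fk.Fam (A N t) ⟨N, t, x, y, L⟩ fV fH fD :=
  ⟨rel hD, fun e h0 h1 h => ⟨hubA hD e h0 h1 h.1 h.2.1,
    hubB hD e h0 h1 h.1 h.2.1⟩,
    ⟨ch0 hD, ch1 hD, ch2 hD, ch3 hD, ch4 hD, ch5 hD, trivial⟩, hD.1, hD.2.1, hD.2.2, trivial⟩

end Pool.Agent.Work.MP_193ce1_co.Rim.Dd
end

-- merged part: Pool.Agent.Work.MP_193ce1_co.Rim.DdR
section
set_option linter.unusedVariables false

namespace Pool.Agent.Work.MP_193ce1_co.Rim.Dd

/-- hypotheses -/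
noncomputable def kr0 : List Fk.C :=
  [.le (.add .N (.k 2)) (.add .y .L), .le (.k 0) .x, .le (.add .x .L) (.add .N (.k 1)), .le (.add
  .y (.k 1)) .N, .ne (.add .t (.k 1)) .N, .ne (.add (.add .x .y) .L) (.add (.add .N .t) (.k 2)),
  .ne (.add (.add (.add .t .x) .y) .L) (.add (.mul 2 .N) (.k 2))]

theorem qr0 {N t x y L : ℤ} (hD : D N t) : Fk.All ⟨N, t, x, y, L⟩ kr0 → P (A N t) N x y L :=
  Fk.route (fam hD x y L) kr0 .y (.up .x (.sub (.sub (.add (.add .x .y) .L) .N) (.k 2)))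
    [(0, .pt .N), (1, .dn (.sub .N (.k 1)) .y)]
    [.f 8585344, .f 8519808, .f 549764530308, .f 128, .f 128, .f 9109632, .f 128, .f 549764333699,
    .f 549764530308, .s 8 (.f 12648576) (.f 8454272), .s 7 (.f 12648576) (.f 8454272), .f 128, .f
    128, .f 566944399488, .f 37155246690140291, .f 8716416, .f 128, .f 9109632, .f 128, .f
    464232329404842497677000964, .s 6 (.f 8454272) (.f 12648576), .f 128, .f 128, .f 129, .f
    8650880, .f 128, .f 128, .f 128, .f 128]
    (by decide +kernel)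

theorem rT0 {N t x y L : ℤ} (hD : D N t)
    (c0 : N + 2 ≤ y + L)
    (c1 : (0 : ℤ) ≤ x)
    (c2 : x + L ≤ N + 1)
    (c3 : y + 1 ≤ N)
    (c4 : t + 1 ≠ N)
    (c5 : x + y + L ≠ N + t + 2)
    (c6 : t + x + y + L ≠ 2 * N + 2) :
    P (A N t) N x y L := by
  exact qr0 hD ⟨c0, c1, c2, c3, c4, c5, c6, trivial⟩

/-- hypotheses -/
noncomputable def kr1 : List Fk.C :=
  [.le (.add .N (.k 3)) (.add .y .L), .le (.k 1) .x, .le (.add .x .L) (.add .N (.k 2)), .le (.add
  .y (.k 1)) .N, .ne (.add (.add .x .y) .L) (.add (.add .N .t) (.k 3)), .ne (.add (.add (.add .t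
  .x) .y) .L) (.add (.mul 2 .N) (.k 3))]

theorem qr1 {N t x y L : ℤ} (hD : D N t) : Fk.All ⟨N, t, x, y, L⟩ kr1 → P (A N t) N x y L :=
  Fk.route (fam hD x y L) kr1 .y (.up .x (.sub (.sub (.add (.add .x .y) .L) .N) (.k 3)))
    [(0, .pt .N), (1, .pt (.k 0)), (3, .dn (.sub .N (.k 1)) .y)]
    [.f 8585344, .f 8519808, .f 549764530308, .f 128, .f 128, .f 9044096, .f 128, .f 549764333699,
    .f 549764530308, .s 7 (.f 12648576) (.f 8454272), .s 6 (.f 12648576) (.f 8454272), .f 128, .f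
    128, .f 566944399488, .f 128, .f 9044096, .f 128, .f 9044096, .f 8978624, .f
    541603581860178764858130692, .f 128, .f 128, .f 9044097, .f 8585345, .f 37155246690140291, .f
    8716416, .f 128, .f 128, .f 128, .f 128, .f 128, .f 37155246690140291, .f 129, .f 8650880, .f
    128, .f 128, .f 128, .f 128]
    (by decide +kernel)

theorem rT1 {N t x y L : ℤ} (hD : D N t)
    (c0 : N + 3 ≤ y + L)
    (c1 : (1 : ℤ) ≤ x)
    (c2 : x + L ≤ N + 2)
    (c3 : y + 1 ≤ N)
    (c4 : x + y + L ≠ N + t + 3)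
    (c5 : t + x + y + L ≠ 2 * N + 3) :
    P (A N t) N x y L := by
  exact qr1 hD ⟨c0, c1, c2, c3, c4, c5, trivial⟩

/-- hypotheses -/
noncomputable def kr2 : List Fk.C :=
  [.le (.add .N .L) (.add (.add (.mul 2 .t) .x) (.k 1)), .le (.add (.add .t .x) (.k 3)) (.add .y
  .L), .le (.k 0) .x, .le (.add .y (.k 1)) .t, .le (.add .t .x) .N, .ne (.add .y .L) (.add (.add .t
  .x) (.k 2)), .ne (.add (.add (.mul 3 .t) .x) (.k 2)) (.add (.add .N .y) .L)]

theorem qr2 {N t x y L : ℤ} (hD : D N t) : Fk.All ⟨N, t, x, y, L⟩ kr2 → P (A N t) N x y L :=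
  Fk.route (fam hD x y L) kr2 .y (.dn .x (.k 0))
    [(0, .pt .N), (1, .dn (.sub (.sub (.sub (.add (.add .N .y) .L) (.mul 2 .t)) .x) (.k 2)) (.add
    (.sub .N .t) (.k 1))), (6, .dn (.sub .t (.k 1)) .y)]
    [.f 128, .f 8650880, .f 154744958364508126626054406, .f 128, .f 128, .f 9109632, .f 128, .f
    128, .f 9109632, .f 9044160, .f 232116210819844393807249542, .f 128, .f 128, .f
    316741018192868968612626571, .f 9044096, .f 8585344, .f 2361220678173669326982, .f
    37718209528594560, .f 2361220678173669326982, .f 8585344, .f 824642437250, .f 128, .f 128, .f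
    2398114166308203659398, .f 8781952, .f 2471899735236748247170, .f 8716416, .f 9044096, .f 128,
    .f 128, .f 128, .f 128, .f 8519808, .f 9044097, .f 37718196643627138, .f 128, .f 128, .f 128,
    .f 128]
    (by decide +kernel)

theorem rT2 {N t x y L : ℤ} (hD : D N t)
    (c0 : N + L ≤ 2 * t + x + 1)
    (c1 : t + x + 3 ≤ y + L)
    (c2 : (0 : ℤ) ≤ x)
    (c3 : y + 1 ≤ t)
    (c4 : t + x ≤ N)
    (c5 : y + L ≠ t + x + 2)
    (c6 : 3 * t + x + 2 ≠ N + y + L) :
    P (A N t) N x y L := by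
  exact qr2 hD ⟨c0, c1, c2, c3, c4, c5, c6, trivial⟩

/-- hypotheses -/
noncomputable def kr3 : List Fk.C :=
  [.le (.add (.add .N .y) (.k 4)) (.add (.add (.mul 2 .t) .x) .L), .le .t (.add .y (.k 1)), .le (.k
  0) .x, .le (.add (.add (.mul 2 .t) .x) .L) (.add (.add .N .y) (.k 4)), .le (.add .t .x) (.add .N
  (.k 1)), .le (.add .y (.k 1)) .N]

theorem qr3 {N t x y L : ℤ} (hD : D N t) : Fk.All ⟨N, t, x, y, L⟩ kr3 → P (A N t) N x y L :=
  Fk.route (fam hD x y L) kr3 .y (.up .x (.add (.sub .N .t) (.k 1)))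
    [(6, .up (.sub .t (.k 1)) .y)]
    [.f 8650880, .f 8781952, .f 36029381151490311, .f 128, .f 128, .f 38281709237567751, .f
    8585344, .f 8847488, .f 128, .f 128, .f 128, .f 128, .f 36873771713822855, .f 128, .f 128, .f
    8519808, .f 8716416]
    (by decide +kernel)

theorem rT3 {N t x y L : ℤ} (hD : D N t)
    (c0 : N + y + 4 ≤ 2 * t + x + L)
    (c1 : t ≤ y + 1)
    (c2 : (0 : ℤ) ≤ x)
    (c3 : 2 * t + x + L ≤ N + y + 4)
    (c4 : t + x ≤ N + 1)
    (c5 : y + 1 ≤ N) :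
    P (A N t) N x y L := by
  exact qr3 hD ⟨c0, c1, c2, c3, c4, c5, trivial⟩

/-- hypotheses -/
noncomputable def kr4 : List Fk.C :=
  [.le (.add .t (.k 2)) (.add .y .L), .le (.k 0) .x, .le (.add .x .L) (.add .t (.k 1)), .le (.add
  .y (.k 1)) .t, .ne (.add (.add .x .y) .L) (.add (.mul 2 .t) (.k 2)), .ne (.add (.add .x .y) .L)
  (.add .N (.k 2))]

theorem qr4 {N t x y L : ℤ} (hD : D N t) : Fk.All ⟨N, t, x, y, L⟩ kr4 → P (A N t) N x y L :=
  Fk.route (fam hD x y L) kr4 .y (.up .x (.sub (.sub (.add (.add .x .y) .L) .t) (.k 2)))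
    [(0, .pt .N), (1, .dn (.sub .t (.k 1)) .y)]
    [.f 8585344, .f 8519808, .f 36029368258265225, .f 128, .f 128, .f 9044096, .f 128, .f
    549764333699, .f 36029368258265225, .s 7 (.f 12648576) (.f 8454272), .f 824642437252, .f 128,
    .f 128, .f 38562643048398980, .f 37155246690140291, .f 8716416, .f 8978560, .f
    2361220678165079457924, .f 8978560, .f 164416364921143680752156928, .f 192, .f 128, .f 128, .f
    8978561, .f 8650880, .f 128, .f 128, .f 128, .f 128]
    (by decide +kernel)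

theorem rT4 {N t x y L : ℤ} (hD : D N t)
    (c0 : t + 2 ≤ y + L)
    (c1 : (0 : ℤ) ≤ x)
    (c2 : x + L ≤ t + 1)
    (c3 : y + 1 ≤ t)
    (c4 : x + y + L ≠ 2 * t + 2)
    (c5 : x + y + L ≠ N + 2) :
    P (A N t) N x y L := by
  exact qr4 hD ⟨c0, c1, c2, c3, c4, c5, trivial⟩

/-- hypotheses -/
noncomputable def kr5 : List Fk.C :=
  [.le (.add .x (.k 3)) .L, .le .L (.add .y (.k 2)), .le (.k 0) .x, .le (.add .y (.k 1)) .N, .ne
  (.add (.add .x .y) (.k 3)) (.add .t .L), .ne (.add (.add (.add .t .x) .y) (.k 3)) (.add .N .L)]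

theorem qr5 {N t x y L : ℤ} (hD : D N t) : Fk.All ⟨N, t, x, y, L⟩ kr5 → P (A N t) N x y L :=
  Fk.route (fam hD x y L) kr5 .y (.dn .x (.k 0))
    [(0, .pt .N), (1, .up (.add (.sub (.add .x .y) .L) (.k 3)) .y)]
    [.f 128, .f 8650880, .f 36029355373297797, .f 128, .f 128, .f 9044096, .f 128, .f 128, .f
    9044096, .f 8978624, .f 541603526520228023001153797, .f 128, .f 128, .f 37436730256851072, .f
    562649104516, .f 8519808, .f 8716416, .f 562649104516, .f 549764333701, .s 7 (.f 12648576) (.f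
    8454272), .s 6 (.f 12648576) (.f 8454272), .f 128, .f 128, .f 8716417, .f 8585344, .f 128, .f
    128, .f 128, .f 128]
    (by decide +kernel)

theorem rT5 {N t x y L : ℤ} (hD : D N t)
    (c0 : x + 3 ≤ L)
    (c1 : L ≤ y + 2)
    (c2 : (0 : ℤ) ≤ x)
    (c3 : y + 1 ≤ N)
    (c4 : x + y + 3 ≠ t + L)
    (c5 : t + x + y + 3 ≠ N + L) :
    P (A N t) N x y L := by
  exact qr5 hD ⟨c0, c1, c2, c3, c4, c5, trivial⟩

/-- hypotheses -/
noncomputable def kr6 : List Fk.C :=
  [.le (.add .t (.k 2)) (.add .y .L), .le (.add .x (.k 1)) .y, .le (.add .y (.k 1)) .t, .le (.add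
  .y .L) (.add (.add .t .x) (.k 2)), .ne (.add .y .L) (.add .x (.k 2)), .ne (.add (.add (.mul 2 .t)
  .x) (.k 2)) (.add (.add .N .y) .L)]

theorem qr6 {N t x y L : ℤ} (hD : D N t) : Fk.All ⟨N, t, x, y, L⟩ kr6 → P (A N t) N x y L :=
  Fk.route (fam hD x y L) kr6 .y (.dn .x (.add (.sub (.sub (.add .t .x) .y) .L) (.k 2)))
    [(0, .pt .N), (1, .dn (.sub .t (.k 1)) .y)]
    [.f 8716416, .f 8519808, .f 36029363963232393, .f 128, .f 128, .f 9044096, .f 128, .f 8716416,
    .f 2361220396690102747273, .s 7 (.f 12648576) (.f 8454272), .f 54043753882779780, .f 128, .f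
    128, .f 38562638753431683, .f 36873771713429637, .f 8650880, .f 8978560, .f
    2361220396690102878339, .f 8978560, .f 164416346474399615632474368, .f 192, .f 128, .f 128, .f
    8978561, .f 8585344, .f 128, .f 128, .f 128, .f 128]
    (by decide +kernel)

theorem rT6 {N t x y L : ℤ} (hD : D N t)
    (c0 : t + 2 ≤ y + L)
    (c1 : x + 1 ≤ y)
    (c2 : y + 1 ≤ t)
    (c3 : y + L ≤ t + x + 2)
    (c4 : y + L ≠ x + 2)
    (c5 : 2 * t + x + 2 ≠ N + y + L) :
    P (A N t) N x y L := by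
  exact qr6 hD ⟨c0, c1, c2, c3, c4, c5, trivial⟩

/-- hypotheses -/
noncomputable def kr7 : List Fk.C :=
  [.le (.add .x (.k 3)) .L, .le (.add .x (.k 1)) .y, .le (.k 0) .x, .le (.add .y .L) (.add (.add .N
  .x) (.k 2)), .ne (.add .y .L) (.add (.add .t .x) (.k 3)), .ne (.add (.add .t .y) .L) (.add (.add
  .N .x) (.k 3))]

theorem qr7 {N t x y L : ℤ} (hD : D N t) : Fk.All ⟨N, t, x, y, L⟩ kr7 → P (A N t) N x y L :=
  Fk.route (fam hD x y L) kr7 .y (.dn .x (.k 0))
    [(0, .pt .N), (1, .dn (.sub (.sub (.add .y .L) .x) (.k 3)) .y)]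
    [.f 128, .f 8650880, .f 36029355373297797, .f 128, .f 128, .f 9044096, .f 128, .f 128, .f
    9044096, .f 8978624, .f 541603526520228023001153797, .f 128, .f 128, .f 37436730256851072, .f
    549764399236, .f 8519808, .f 8716416, .f 36029355373297796, .f 8716416, .s 7 (.f 12648576) (.f
    8454272), .s 6 (.f 12648576) (.f 8454272), .f 128, .f 128, .f 8716417, .f 8585344, .f 128, .f
    128, .f 128, .f 128]
    (by decide +kernel)

theorem rT7 {N t x y L : ℤ} (hD : D N t)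
    (c0 : x + 3 ≤ L)
    (c1 : x + 1 ≤ y)
    (c2 : (0 : ℤ) ≤ x)
    (c3 : y + L ≤ N + x + 2)
    (c4 : y + L ≠ t + x + 3)
    (c5 : t + y + L ≠ N + x + 3) :
    P (A N t) N x y L := by
  exact qr7 hD ⟨c0, c1, c2, c3, c4, c5, trivial⟩

/-- hypotheses -/
noncomputable def kr8 : List Fk.C :=
  [.le (.add .t (.k 2)) .y, .le (.add .t (.k 4)) (.add .x .L), .le (.k 0) .x, .le .x (.add .t (.k
  1)), .le (.add (.add .x .y) .L) (.add (.add .N .t) (.k 3)), .ne (.add (.add .x .y) .L) (.add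
  (.mul 2 .t) (.k 4)), .ne (.add (.add .x .y) .L) (.add .N (.k 4))]

theorem qr8 {N t x y L : ℤ} (hD : D N t) : Fk.All ⟨N, t, x, y, L⟩ kr8 → P (A N t) N x y L :=
  Fk.route (fam hD x y L) kr8 .y (.up .x (.add .t (.k 1)))
    [(0, .pt .N), (1, .dn (.sub (.sub (.add (.add .x .y) .L) .t) (.k 4)) .y)]
    [.f 8650880, .f 8716416, .f 36029355373297798, .f 128, .f 128, .f 9109632, .f 128, .f
    549764530308, .f 36029355373297798, .f 2361219833744444686470, .f 128, .f 128, .f 128, .f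
    37718196643561603, .f 36029368258134148, .f 8585344, .f 8781952, .f 2361220678165079457924, .f
    8781952, .f 2361255863091219464326, .f 549764333699, .f 128, .f 128, .f 8781953, .f 8519808, .f
    128, .f 128, .f 128, .f 128]
    (by decide +kernel)

theorem rT8 {N t x y L : ℤ} (hD : D N t)
    (c0 : t + 2 ≤ y)
    (c1 : t + 4 ≤ x + L)
    (c2 : (0 : ℤ) ≤ x)
    (c3 : x ≤ t + 1)
    (c4 : x + y + L ≤ N + t + 3)
    (c5 : x + y + L ≠ 2 * t + 4)
    (c6 : x + y + L ≠ N + 4) :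
    P (A N t) N x y L := by
  exact qr8 hD ⟨c0, c1, c2, c3, c4, c5, c6, trivial⟩

/-- hypotheses -/
noncomputable def kr9 : List Fk.C :=
  [.le .t (.add .x (.k 1)), .le (.add .x (.k 1)) .y, .le (.add .x (.k 4)) (.add .t .L), .le (.add
  (.add .t .y) .L) (.add (.add .N .x) (.k 3)), .ne (.add .y .L) (.add .x (.k 4)), .ne (.add (.add
  (.mul 2 .t) .y) .L) (.add (.add .N .x) (.k 4))]

theorem qr9 {N t x y L : ℤ} (hD : D N t) : Fk.All ⟨N, t, x, y, L⟩ kr9 → P (A N t) N x y L :=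
  Fk.route (fam hD x y L) kr9 .y (.dn .x (.sub .t (.k 1)))
    [(0, .pt .N), (1, .dn (.sub (.sub (.add (.add .t .y) .L) .x) (.k 4)) .y)]
    [.f 164416272723734129669308677, .f 8519808, .f 36029359668330629, .f 128, .f 128, .f 9044096,
    .f 128, .f 164416272723734129669308677, .f 8978560, .f 154744903024275922677399685, .f 192, .f
    128, .f 128, .f 37436738846785664, .f 154749625462816386368930053, .f 8650880, .f 8716416, .f
    154749625462816386377318661, .f 8716416, .f 154747301137034825924345989, .s 6 (.f 12648576) (.f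
    8454272), .f 128, .f 128, .f 8716417, .f 8585344, .f 128, .f 128, .f 128, .f 128]
    (by decide +kernel)

theorem rT9 {N t x y L : ℤ} (hD : D N t)
    (c0 : t ≤ x + 1)
    (c1 : x + 1 ≤ y)
    (c2 : x + 4 ≤ t + L)
    (c3 : t + y + L ≤ N + x + 3)
    (c4 : y + L ≠ x + 4)
    (c5 : 2 * t + y + L ≠ N + x + 4) :
    P (A N t) N x y L := by
  exact qr9 hD ⟨c0, c1, c2, c3, c4, c5, trivial⟩

/-- hypotheses -/
noncomputable def kr10 : List Fk.C :=
  [.le (.add (.add .N .x) (.k 4)) (.add .t .L), .le (.add .x (.k 1)) .y, .le (.k 0) .x, .le (.add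
  .y .L) (.add (.add .N .x) (.k 2)), .ne (.add .y .L) (.add (.add .N .x) (.k 4)), .ne (.add (.add
  (.mul 2 .t) .y) .L) (.add (.add (.mul 2 .N) .x) (.k 4))]

theorem qr10 {N t x y L : ℤ} (hD : D N t) : Fk.All ⟨N, t, x, y, L⟩ kr10 → P (A N t) N x y L :=
  Fk.route (fam hD x y L) kr10 .y (.dn .x (.k 0))
    [(3, .dn (.sub .N (.k 1)) (.sub .t (.k 1))), (0, .pt .N), (1, .dn (.sub (.sub (.sub (.add (.add
    .t .y) .L) .N) .x) (.k 4)) .y)]
    [.f 128, .f 8650880, .f 2361221804069281202309, .f 128, .f 128, .f 2453452991163038695554, .f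
    8978560, .f 128, .f 128, .f 128, .f 128, .f 128, .f 37436721666916482, .f 9044096, .f 128, .f
    2453452991163038695554, .f 8978560, .f 164418633870946226298552453, .f 192, .f 128, .f 128, .f
    128, .f 2453455524437828829314, .f 549764399236, .f 8519808, .f 549764792453, .f
    36029359668330626, .f 549764792453, .s 7 (.f 12648576) (.f 8454272), .f 8716480, .f 128, .f
    128, .f 571239628929, .f 8716417, .f 8585344, .f 128, .f 128, .f 128, .f 128]
    (by decide +kernel)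

theorem rT10 {N t x y L : ℤ} (hD : D N t)
    (c0 : N + x + 4 ≤ t + L)
    (c1 : x + 1 ≤ y)
    (c2 : (0 : ℤ) ≤ x)
    (c3 : y + L ≤ N + x + 2)
    (c4 : y + L ≠ N + x + 4)
    (c5 : 2 * t + y + L ≠ 2 * N + x + 4) :
    P (A N t) N x y L := by
  exact qr10 hD ⟨c0, c1, c2, c3, c4, c5, trivial⟩

/-- hypotheses -/
noncomputable def kr11 : List Fk.C :=
  [.le (.add .N (.k 2)) (.add .t .y), .le (.add .N (.k 4)) (.add (.add .t .x) .L), .le (.k 0) .x,
  .le (.add .t .x) (.add .N (.k 1)), .le (.add (.add (.add .t .x) .y) .L) (.add (.mul 2 .N) (.k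
  3)), .ne (.add (.add .x .y) .L) (.add .N (.k 4)), .ne (.add (.add (.add (.mul 2 .t) .x) .y) .L)
  (.add (.mul 2 .N) (.k 4))]

theorem qr11 {N t x y L : ℤ} (hD : D N t) : Fk.All ⟨N, t, x, y, L⟩ kr11 → P (A N t) N x y L :=
  Fk.route (fam hD x y L) kr11 .y (.up .x (.add (.sub .N .t) (.k 1)))
    [(0, .pt .N), (1, .dn (.sub (.sub (.add (.add (.add .t .x) .y) .L) .N) (.k 4)) .y)]
    [.f 8650880, .f 8716416, .f 36029359668199558, .f 128, .f 128, .f 9109632, .f 128, .f 9044096,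
    .f 36029359668199558, .f 128, .f 2527294010653405216902, .f 128, .f 128, .f 37718196643627138,
    .f 36029368258134148, .f 8585344, .f 8781952, .f 2361220678165079523459, .f 8781952, .f
    558354137219, .s 7 (.f 12648576) (.f 8454272), .f 128, .f 128, .f 8781953, .f 8519808, .f 128,
    .f 128, .f 128, .f 128]
    (by decide +kernel)

theorem rT11 {N t x y L : ℤ} (hD : D N t)
    (c0 : N + 2 ≤ t + y)
    (c1 : N + 4 ≤ t + x + L)
    (c2 : (0 : ℤ) ≤ x)
    (c3 : t + x ≤ N + 1)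
    (c4 : t + x + y + L ≤ 2 * N + 3)
    (c5 : x + y + L ≠ N + 4)
    (c6 : 2 * t + x + y + L ≠ 2 * N + 4) :
    P (A N t) N x y L := by
  exact qr11 hD ⟨c0, c1, c2, c3, c4, c5, c6, trivial⟩

/-- hypotheses -/
noncomputable def kr12 : List Fk.C :=
  [.le (.add .N (.k 2)) (.add .t .y), .le (.add .N (.k 7)) (.add (.add .t .x) .L), .le (.k 0) .x,
  .le (.add .t .x) (.add .N (.k 1)), .le (.add .t (.k 2)) .N, .le (.add (.add .x .y) .L) (.add .N
  (.k 5)), .ne (.add (.add .x .y) .L) (.add .N (.k 7)), .ne (.add (.add (.add (.mul 2 .t) .x) .y)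
  .L) (.add (.mul 2 .N) (.k 7))]

theorem qr12 {N t x y L : ℤ} (hD : D N t) : Fk.All ⟨N, t, x, y, L⟩ kr12 → P (A N t) N x y L :=
  Fk.route (fam hD x y L) kr12 .y (.up .x (.add (.sub .N .t) (.k 1)))
    [(6, .up (.sub .t (.k 1)) (.add .t (.k 1))), (0, .pt .N), (1, .dn (.sub (.sub (.add (.add (.add
    .t .x) .y) .L) .N) (.k 7)) .y)]
    [.f 8650880, .f 8716416, .f 2361220959644351070343, .f 128, .f 128, .f 2361220959644351070343,
    .f 128, .f 8781952, .f 128, .f 128, .f 128, .f 128, .f 36029376848134274, .f 9175168, .f 128,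
    .f 2361219833744444555398, .f 8781952, .f 36029359668199559, .f 128, .f 128, .f 128, .f
    8781952, .f 2361221241132212748418, .f 36029368258134148, .f 8585344, .f 549764595847, .f
    2361220678165079523459, .f 549764595847, .f 558354137219, .f 8847552, .f 128, .f 128, .f
    579829366913, .f 8847489, .f 8519808, .f 128, .f 128, .f 128, .f 128]
    (by decide +kernel)

theorem rT12 {N t x y L : ℤ} (hD : D N t)
    (c0 : N + 2 ≤ t + y)
    (c1 : N + 7 ≤ t + x + L)
    (c2 : (0 : ℤ) ≤ x)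
    (c3 : t + x ≤ N + 1)
    (c4 : t + 2 ≤ N)
    (c5 : x + y + L ≤ N + 5)
    (c6 : x + y + L ≠ N + 7)
    (c7 : 2 * t + x + y + L ≠ 2 * N + 7) :
    P (A N t) N x y L := by
  exact qr12 hD ⟨c0, c1, c2, c3, c4, c5, c6, c7, trivial⟩

/-- hypotheses -/
noncomputable def kr13 : List Fk.C :=
  [.le (.add .N (.k 2)) (.add (.add .t .x) .L), .le (.add .x .L) (.add .y (.k 2)), .le (.k 0) .x,
  .le (.add (.add .t .x) (.k 1)) .N, .le (.add .y (.k 1)) .N, .ne (.add .y (.k 2)) (.add .x .L),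
  .ne (.add (.add (.mul 2 .t) .x) .L) (.add (.add .N .y) (.k 2))]

theorem qr13 {N t x y L : ℤ} (hD : D N t) : Fk.All ⟨N, t, x, y, L⟩ kr13 → P (A N t) N x y L :=
  Fk.route (fam hD x y L) kr13 .y (.up .x (.sub (.sub .N .t) (.k 1)))
    [(0, .pt .N), (1, .up (.add (.sub (.sub (.sub (.add .N .y) .t) .x) .L) (.k 2)) .y)]
    [.f 8650880, .f 8716416, .f 36029359668199558, .f 128, .f 128, .f 9109632, .f 128, .f 9044096,
    .f 36029359668199558, .f 192, .f 2527240812694555721862, .f 128, .f 128, .f 37718209528332418,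
    .f 36873793188397184, .f 8519808, .f 8781952, .f 36873793188397184, .f 549764333702, .s 7 (.f
    12648576) (.f 8454272), .s 8 (.f 8454272) (.f 12648576), .f 128, .f 128, .f 8781953, .f
    8585344, .f 128, .f 128, .f 128, .f 128]
    (by decide +kernel)

theorem rT13 {N t x y L : ℤ} (hD : D N t)
    (c0 : N + 2 ≤ t + x + L)
    (c1 : x + L ≤ y + 2)
    (c2 : (0 : ℤ) ≤ x)
    (c3 : t + x + 1 ≤ N)
    (c4 : y + 1 ≤ N)
    (c5 : y + 2 ≠ x + L)
    (c6 : 2 * t + x + L ≠ N + y + 2) :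
    P (A N t) N x y L := by
  exact qr13 hD ⟨c0, c1, c2, c3, c4, c5, c6, trivial⟩

/-- hypotheses -/
noncomputable def kr14 : List Fk.C :=
  [.le (.add .N (.k 2)) (.add .x .L), .le (.add .x (.k 1)) .y, .le (.add .y (.k 1)) .N, .le .L
  (.add .N (.k 1)), .ne .y (.add .t (.k 1)), .ne (.add .t .y) (.add .N (.k 1)), .ne (.add .x .L)
  (.add (.add .N .t) (.k 2)), .ne (.add (.add .t .x) .L) (.add (.mul 2 .N) (.k 2))]

theorem qr14 {N t x y L : ℤ} (hD : D N t) : Fk.All ⟨N, t, x, y, L⟩ kr14 → P (A N t) N x y L :=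
  Fk.route (fam hD x y L) kr14 .y (.up .x (.sub .y (.k 1)))
    [(0, .pt .N), (1, .dn (.sub (.sub (.add .x .L) .N) (.k 2)) (.k 0)), (3, .dn (.sub .N (.k 1))
    .y)]
    [.f 549764530306, .f 8585344, .f 8650880, .f 128, .f 128, .f 9175168, .f 128, .f
    36029359668199557, .f 8650880, .s 7 (.f 12648576) (.f 8454272), .s 6 (.f 12648576) (.f
    8454272), .f 128, .f 128, .f 8650880, .f 128, .f 8519808, .f 36029363963232389, .f 8519808, .f
    36029363963232389, .s 9 (.f 12648576) (.f 8454272), .s 8 (.f 12648576) (.f 8454272), .f 128, .f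
    128, .f 37436738846785665, .f 8716417, .f 36029359668199557, .f 8650880, .f 128, .f 128, .f
    128, .f 128, .f 128, .f 571239039107, .f 129, .f 128, .f 128, .f 128, .f 128, .f 128]
    (by decide +kernel)

theorem rT14 {N t x y L : ℤ} (hD : D N t)
    (c0 : N + 2 ≤ x + L)
    (c1 : x + 1 ≤ y)
    (c2 : y + 1 ≤ N)
    (c3 : L ≤ N + 1)
    (c4 : y ≠ t + 1)
    (c5 : t + y ≠ N + 1)
    (c6 : x + L ≠ N + t + 2)
    (c7 : t + x + L ≠ 2 * N + 2) :
    P (A N t) N x y L := by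
  exact qr14 hD ⟨c0, c1, c2, c3, c4, c5, c6, c7, trivial⟩

/-- hypotheses -/
noncomputable def kr15 : List Fk.C :=
  [.le (.add (.add .N .t) (.k 4)) (.add .y .L), .le (.add .t (.k 2)) .x, .le (.add .y (.k 1)) .N,
  .le (.add .x .L) (.add (.add .N .t) (.k 3)), .ne (.add (.add .x .y) .L) (.add (.add .N (.mul 2
  .t)) (.k 4)), .ne (.add (.add .x .y) .L) (.add (.mul 2 .N) (.k 4))]

theorem qr15 {N t x y L : ℤ} (hD : D N t) : Fk.All ⟨N, t, x, y, L⟩ kr15 → P (A N t) N x y L :=
  Fk.route (fam hD x y L) kr15 .y (.up .x (.sub (.sub (.sub (.add (.add .x .y) .L) .N) .t) (.k 4)))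
    [(0, .pt .N), (1, .dn (.add .t (.k 1)) (.k 0)), (3, .dn (.sub .N (.k 1)) .y)]
    [.f 154747301136753904998416645, .f 8519808, .f 549764464773, .f 128, .f 128, .f 9044096, .f
    128, .f 154747301172782702017380613, .f 549764464773, .f 154744939953511920419995781, .f
    549764333699, .f 128, .f 128, .f 571239301248, .f 128, .f 154747301136753355242602757, .f
    2361220396690102747269, .f 154747301136753355242602757, .f 2361220396690102747269, .f
    154744939917482573645217925, .f 128, .f 128, .f 128, .f 2453454117058650505345, .f 8585345, .f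
    154747301172782702017380741, .f 8650880, .f 128, .f 128, .f 128, .f 128, .f 128, .f
    37436721666850947, .f 129, .f 8716416, .f 128, .f 128, .f 128, .f 128]
    (by decide +kernel)

theorem rT15 {N t x y L : ℤ} (hD : D N t)
    (c0 : N + t + 4 ≤ y + L)
    (c1 : t + 2 ≤ x)
    (c2 : y + 1 ≤ N)
    (c3 : x + L ≤ N + t + 3)
    (c4 : x + y + L ≠ N + 2 * t + 4)
    (c5 : x + y + L ≠ 2 * N + 4) :
    P (A N t) N x y L := by
  exact qr15 hD ⟨c0, c1, c2, c3, c4, c5, trivial⟩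

/-- hypotheses -/
noncomputable def kr16 : List Fk.C :=
  [.le (.add .N (.k 2)) (.add .y .L), .le (.add .x (.k 1)) .y, .le (.add .y (.k 1)) .N, .le (.add
  .y .L) (.add (.add .N .x) (.k 2)), .ne (.add .y .L) (.add (.add .t .x) (.k 2)), .ne (.add .t (.k
  1)) .N, .ne (.add (.add .t .y) .L) (.add (.add .N .x) (.k 2))]

theorem qr16 {N t x y L : ℤ} (hD : D N t) : Fk.All ⟨N, t, x, y, L⟩ kr16 → P (A N t) N x y L :=
  Fk.route (fam hD x y L) kr16 .y (.dn .x (.add (.sub (.sub (.add .N .x) .y) .L) (.k 2)))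
    [(0, .pt .N), (1, .dn (.sub .N (.k 1)) .y)]
    [.f 8716416, .f 8519808, .f 549764464771, .f 128, .f 128, .f 9109632, .f 128, .f 8716416, .f
    36029363963166851, .s 6 (.f 8454272) (.f 12648576), .s 8 (.f 8454272) (.f 12648576), .f 128, .f
    128, .f 562649104516, .f 36873771713429637, .f 8650880, .f 128, .f 9109632, .f 128, .f
    464232310958098432557383939, .s 7 (.f 8454272) (.f 12648576), .f 128, .f 128, .f 129, .f
    8585344, .f 128, .f 128, .f 128, .f 128]
    (by decide +kernel)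

theorem rT16 {N t x y L : ℤ} (hD : D N t)
    (c0 : N + 2 ≤ y + L)
    (c1 : x + 1 ≤ y)
    (c2 : y + 1 ≤ N)
    (c3 : y + L ≤ N + x + 2)
    (c4 : y + L ≠ t + x + 2)
    (c5 : t + 1 ≠ N)
    (c6 : t + y + L ≠ N + x + 2) :
    P (A N t) N x y L := by
  exact qr16 hD ⟨c0, c1, c2, c3, c4, c5, c6, trivial⟩

/-- hypotheses -/
noncomputable def kr17 : List Fk.C :=
  [.le (.add (.mul 2 .N) (.k 3)) (.add (.add .t .y) .L), .le (.add .N (.k 2)) (.add .t .x), .le
  (.add .y (.k 1)) .N, .le (.add (.add .t .x) .L) (.add (.mul 2 .N) (.k 2)), .ne (.add .t (.k 2))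
  .N, .ne (.add (.add .x .y) .L) (.add (.mul 2 .N) (.k 3)), .ne (.add (.add (.add (.mul 2 .t) .x)
  .y) .L) (.add (.mul 3 .N) (.k 3))]

theorem qr17 {N t x y L : ℤ} (hD : D N t) : Fk.All ⟨N, t, x, y, L⟩ kr17 → P (A N t) N x y L :=
  Fk.route (fam hD x y L) kr17 .y (.up .x (.sub (.sub (.add (.add (.add .t .x) .y) .L) (.mul 2 .N)) (.k 3)))
    [(0, .pt .N), (1, .up (.k 2) (.add (.sub .N .t) (.k 1))), (5, .pt (.k 0)), (3, .dn (.sub .N (.k
    1)) .y)]
    [.f 549764857987, .f 8519808, .f 571239039108, .f 128, .f 128, .f 9109632, .f 128, .f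
    36029389733036162, .f 571239039108, .f 562649104514, .s 7 (.f 12648576) (.f 8454272), .f 128,
    .f 128, .f 571239039108, .f 128, .f 9044096, .f 2453454117050060570754, .f 128, .f 9109632, .s
    6 (.f 12648576) (.f 8454272), .f 2416560629177519308933, .f 128, .f 128, .f
    2453454117054355538050, .f 8585345, .f 128, .f 9109632, .f 128, .f 128, .f 128, .f 128, .f 129,
    .f 9109633, .f 562649170058, .f 2361222085552847913090, .f 8650880, .f 128, .f 128, .f 128, .f
    128, .f 128, .f 2453452991193103401090, .f 37436721666916482, .f 129, .f 8716416, .f 128, .f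
    128, .f 128, .f 128]
    (by decide +kernel)

theorem rT17 {N t x y L : ℤ} (hD : D N t)
    (c0 : 2 * N + 3 ≤ t + y + L)
    (c1 : N + 2 ≤ t + x)
    (c2 : y + 1 ≤ N)
    (c3 : t + x + L ≤ 2 * N + 2)
    (c4 : t + 2 ≠ N)
    (c5 : x + y + L ≠ 2 * N + 3)
    (c6 : 2 * t + x + y + L ≠ 3 * N + 3) :
    P (A N t) N x y L := by
  exact qr17 hD ⟨c0, c1, c2, c3, c4, c5, c6, trivial⟩

/-- hypotheses -/
noncomputable def kr18 : List Fk.C :=
  [.le (.add .x (.k 1)) .y, .le (.add .y (.k 3)) .L, .le (.k 0) .x, .le .L (.add .N (.k 1)), .ne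
  (.add .x (.k 1)) .t, .ne .L (.add (.add .t .y) (.k 2)), .ne (.add (.add .t .x) (.k 1)) .N, .ne
  (.add .t .L) (.add (.add .N .y) (.k 2))]

theorem qr18 {N t x y L : ℤ} (hD : D N t) : Fk.All ⟨N, t, x, y, L⟩ kr18 → P (A N t) N x y L :=
  Fk.route (fam hD x y L) kr18 .y (.dn .x (.k 0))
    [(3, .dn (.sub .N (.k 1)) (.add (.sub (.add .N .y) .L) (.k 2))), (0, .pt .N), (1, .up (.add .x
    (.k 1)) .y)]
    [.f 128, .f 8650880, .f 36029359668199557, .f 128, .f 128, .f 36029355373363333, .f 8585344, .f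
    128, .f 128, .f 128, .f 128, .f 128, .f 571239170176, .f 9175168, .f 128, .f 36029355373363333,
    .f 8585344, .s 7 (.f 8454272) (.f 12648576), .s 9 (.f 8454272) (.f 12648576), .f 128, .f 128,
    .f 128, .f 37436734551752832, .f 8650880, .f 8519808, .f 549764399237, .f 8650880, .f
    36029359668199557, .s 8 (.f 12648576) (.f 8454272), .s 6 (.f 12648576) (.f 8454272), .f 128, .f
    128, .f 571239235713, .f 8716417, .f 128, .f 128, .f 128, .f 128, .f 128]
    (by decide +kernel)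

theorem rT18 {N t x y L : ℤ} (hD : D N t)
    (c0 : x + 1 ≤ y)
    (c1 : y + 3 ≤ L)
    (c2 : (0 : ℤ) ≤ x)
    (c3 : L ≤ N + 1)
    (c4 : x + 1 ≠ t)
    (c5 : L ≠ t + y + 2)
    (c6 : t + x + 1 ≠ N)
    (c7 : t + L ≠ N + y + 2) :
    P (A N t) N x y L := by
  exact qr18 hD ⟨c0, c1, c2, c3, c4, c5, c6, c7, trivial⟩

/-- hypotheses -/
noncomputable def kr19 : List Fk.C :=
  [.le (.add (.mul 2 .N) (.k 4)) (.add (.add .t .y) .L), .le (.add .N (.k 2)) (.add .t .x), .le
  (.add .y (.k 1)) .N, .le (.add (.add .t .x) .L) (.add (.mul 2 .N) (.k 3)), .ne (.add (.add .x .y)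
  .L) (.add (.mul 2 .N) (.k 4)), .ne (.add (.add (.add (.mul 2 .t) .x) .y) .L) (.add (.mul 3 .N)
  (.k 4))]

theorem qr19 {N t x y L : ℤ} (hD : D N t) : Fk.All ⟨N, t, x, y, L⟩ kr19 → P (A N t) N x y L :=
  Fk.route (fam hD x y L) kr19 .y (.up .x (.sub (.sub (.add (.add (.add .t .x) .y) .L) (.mul 2 .N)) (.k 4)))
    [(0, .pt .N), (1, .dn (.add (.sub .N .t) (.k 1)) (.k 0)), (3, .dn (.sub .N (.k 1)) .y)]
    [.f 549764792451, .f 8519808, .f 571239039108, .f 128, .f 128, .f 9044096, .f 128, .f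
    36029385438068866, .f 571239039108, .f 562649104514, .s 6 (.f 12648576) (.f 8454272), .f 128,
    .f 128, .f 571239039108, .f 128, .f 8978560, .f 2453454117050060570754, .f 8978560, .f
    2453454117050060570754, .f 128, .f 164416346527879852617498757, .f 128, .f 128, .f
    2453454117054355538050, .f 8585345, .f 2361221804077871202434, .f 8650880, .f 128, .f 128, .f
    128, .f 128, .f 128, .f 37436721666916482, .f 129, .f 8716416, .f 128, .f 128, .f 128, .f 128]
    (by decide +kernel)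

theorem rT19 {N t x y L : ℤ} (hD : D N t)
    (c0 : 2 * N + 4 ≤ t + y + L)
    (c1 : N + 2 ≤ t + x)
    (c2 : y + 1 ≤ N)
    (c3 : t + x + L ≤ 2 * N + 3)
    (c4 : x + y + L ≠ 2 * N + 4)
    (c5 : 2 * t + x + y + L ≠ 3 * N + 4) :
    P (A N t) N x y L := by
  exact qr19 hD ⟨c0, c1, c2, c3, c4, c5, trivial⟩

/-- hypotheses -/
noncomputable def kr20 : List Fk.C :=
  [.le (.add (.mul 2 .N) (.k 2)) (.add (.add .t .y) .L), .le (.add .x (.k 1)) .y, .le (.add .y (.k
  1)) .N, .le (.add .y .L) (.add (.add .N .x) (.k 2)), .ne (.add .y .L) (.add (.add .N .x) (.k 2)),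
  .ne (.add (.add (.mul 2 .t) .y) .L) (.add (.add (.mul 2 .N) .x) (.k 2))]

theorem qr20 {N t x y L : ℤ} (hD : D N t) : Fk.All ⟨N, t, x, y, L⟩ kr20 → P (A N t) N x y L :=
  Fk.route (fam hD x y L) kr20 .y (.dn .x (.add (.sub (.sub (.sub (.add (.mul 2 .N) .x) .t) .y) .L) (.k 2)))
    [(0, .pt .N), (1, .dn (.sub (.sub .N .t) (.k 1)) (.k 0)), (3, .dn (.sub .N (.k 1)) .y)]
    [.f 571239628928, .f 8519808, .f 549764399236, .f 128, .f 128, .f 9044096, .f 128, .f
    571239628928, .f 36029359668199556, .s 6 (.f 8454272) (.f 12648576), .s 7 (.f 8454272) (.f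
    12648576), .f 128, .f 128, .f 549764399236, .f 128, .f 8978560, .f 2453454117050060505219, .f
    8978560, .f 2453454117050060505219, .f 192, .f 164416346527879861207433347, .f 128, .f 128, .f
    2416560628906936565890, .f 8716417, .f 2361221804069281398914, .f 8650880, .f 128, .f 128, .f
    128, .f 128, .f 128, .f 37436721666916482, .f 129, .f 8585344, .f 128, .f 128, .f 128, .f 128]
    (by decide +kernel)

theorem rT20 {N t x y L : ℤ} (hD : D N t)
    (c0 : 2 * N + 2 ≤ t + y + L)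
    (c1 : x + 1 ≤ y)
    (c2 : y + 1 ≤ N)
    (c3 : y + L ≤ N + x + 2)
    (c4 : y + L ≠ N + x + 2)
    (c5 : 2 * t + y + L ≠ 2 * N + x + 2) :
    P (A N t) N x y L := by
  exact qr20 hD ⟨c0, c1, c2, c3, c4, c5, trivial⟩

/-- hypotheses -/
noncomputable def kr21 : List Fk.C :=
  [.le (.add (.add .N .t) (.k 2)) (.add (.add .x .y) .L), .le .t .y, .le (.add .x (.k 1)) .t, .le
  (.add .y (.k 1)) .N, .le (.add .y .L) (.add (.add .N .t) (.k 1)), .ne (.add (.add .x .y) .L)
  (.add (.add .N (.mul 2 .t)) (.k 2)), .ne (.add (.add .x .y) .L) (.add (.mul 2 .N) (.k 2))]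

theorem qr21 {N t x y L : ℤ} (hD : D N t) : Fk.All ⟨N, t, x, y, L⟩ kr21 → P (A N t) N x y L :=
  Fk.route (fam hD x y L) kr21 .y (.up .x (.sub .t (.k 1)))
    [(0, .pt .N), (1, .dn (.sub (.sub (.sub (.add (.add .x .y) .L) .N) .t) (.k 2)) (.k 0)), (3, .dn
    (.sub .N (.k 1)) .y)]
    [.f 549764333702, .f 8650880, .f 9044096, .f 128, .f 128, .f 9109632, .f 128, .f
    36029363963166854, .f 9044096, .f 36029368258199689, .f 192, .f 128, .f 128, .f 9044096, .f
    128, .f 8519808, .f 2361220678173669589123, .f 8519808, .f 2361220678173669589123, .s 8 (.f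
    12648576) (.f 8454272), .f 824642371718, .f 128, .f 128, .f 2416560910394797916294, .f 8781953,
    .f 2361220396690102943875, .f 8716416, .f 128, .f 128, .f 128, .f 128, .f 128, .f
    36873771713560710, .f 129, .f 8585344, .f 128, .f 128, .f 128, .f 128]
    (by decide +kernel)

theorem rT21 {N t x y L : ℤ} (hD : D N t)
    (c0 : N + t + 2 ≤ x + y + L)
    (c1 : t ≤ y)
    (c2 : x + 1 ≤ t)
    (c3 : y + 1 ≤ N)
    (c4 : y + L ≤ N + t + 1)
    (c5 : x + y + L ≠ N + 2 * t + 2)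
    (c6 : x + y + L ≠ 2 * N + 2) :
    P (A N t) N x y L := by
  exact qr21 hD ⟨c0, c1, c2, c3, c4, c5, c6, trivial⟩

/-- hypotheses -/
noncomputable def kr22 : List Fk.C :=
  [.le (.add (.mul 2 .N) (.k 2)) (.add (.add .x .y) .L), .le .t .y, .le (.add .x (.k 1)) .t, .le
  (.add .y (.k 1)) .N, .le (.add .y .L) (.add .N .t), .ne (.add (.add .x .y) .L) (.add (.add .N
  (.mul 2 .t)) (.k 1)), .ne (.add (.add .x .y) .L) (.add (.mul 2 .N) (.k 1))]

theorem qr22 {N t x y L : ℤ} (hD : D N t) : Fk.All ⟨N, t, x, y, L⟩ kr22 → P (A N t) N x y L :=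
  Fk.route (fam hD x y L) kr22 .y (.up .x (.sub .t (.k 1)))
    [(7, .up (.add (.sub .N .t) (.k 1)) (.sub (.sub (.sub (.add (.add .x .y) .L) .N) .t) (.k 1))),
    (0, .pt .N), (1, .dn (.sub (.sub .N .t) (.k 1)) (.k 0)), (3, .dn (.sub .N (.k 1)) .y)]
    [.f 2361220115215126167686, .f 8650880, .f 9044096, .f 128, .f 128, .f 9044096, .f 8519808, .f
    2361220678169374490758, .f 128, .f 128, .f 128, .f 128, .f 8781953, .f 9109632, .f 128, .f
    37436734551752832, .f 2361220678169374490758, .f 8519808, .f 824642371718, .f 128, .f 128, .f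
    2471900861136654827653, .f 9044096, .f 128, .f 9044096, .f 154744958364508118036250758, .f
    9044096, .f 154744958364508118036250758, .f 192, .f 54043753882845318, .f 128, .f 128, .f
    2471936045504448954507, .f 129, .f 554059300998, .f 154744958400536915055214726, .f 8716416, .f
    128, .f 128, .f 128, .f 128, .f 128, .f 2361220115232305840260, .f 129, .f 37718213823496320,
    .f 8585344, .f 128, .f 128, .f 128, .f 128]
    (by decide +kernel)

theorem rT22 {N t x y L : ℤ} (hD : D N t)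
    (c0 : 2 * N + 2 ≤ x + y + L)
    (c1 : t ≤ y)
    (c2 : x + 1 ≤ t)
    (c3 : y + 1 ≤ N)
    (c4 : y + L ≤ N + t)
    (c5 : x + y + L ≠ N + 2 * t + 1)
    (c6 : x + y + L ≠ 2 * N + 1) :
    P (A N t) N x y L := by
  exact qr22 hD ⟨c0, c1, c2, c3, c4, c5, c6, trivial⟩

/-- hypotheses -/
noncomputable def kr23 : List Fk.C :=
  [.le (.add (.add .N .x) (.k 1)) (.add .t .L), .le (.k 0) .x, .le .y (.add .t (.k 1)), .le (.add
  .t (.k 3)) .N, .le (.add .t .L) (.add .N .y), .ne .L (.add (.add .x .y) (.k 1)), .ne (.add (.mul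
  2 .t) .L) (.add (.add (.add .N .x) .y) (.k 1))]

theorem qr23 {N t x y L : ℤ} (hD : D N t) : Fk.All ⟨N, t, x, y, L⟩ kr23 → P (A N t) N x y L :=
  Fk.route (fam hD x y L) kr23 .y (.dn .x (.k 0))
    [(3, .dn (.sub .N (.k 1)) (.add .t (.k 2))), (0, .pt .N), (1, .up (.add (.sub (.sub (.add (.add
    .N .x) .y) .t) .L) (.k 1)) .y)]
    [.f 128, .f 8585344, .f 2471901142598746767492, .f 128, .f 128, .f 2361219833757329195140, .f
    8716416, .f 128, .f 128, .f 128, .f 128, .f 128, .f 37155255280337024, .f 9109632, .f 128, .f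
    2361219833757329195140, .f 8716416, .f 549764792453, .f 128, .f 128, .f 128, .f 128, .f
    2435007654477097336962, .f 575534203008, .f 8519808, .f 549764530308, .f 575534203008, .f
    36029368258134148, .s 7 (.f 8454272) (.f 12648576), .s 8 (.f 8454272) (.f 12648576), .f 128, .f
    128, .f 566944137349, .f 8650881, .f 8781952, .f 128, .f 128, .f 128, .f 128]
    (by decide +kernel)

theorem rT23 {N t x y L : ℤ} (hD : D N t)
    (c0 : N + x + 1 ≤ t + L)
    (c1 : (0 : ℤ) ≤ x)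
    (c2 : y ≤ t + 1)
    (c3 : t + 3 ≤ N)
    (c4 : t + L ≤ N + y)
    (c5 : L ≠ x + y + 1)
    (c6 : 2 * t + L ≠ N + x + y + 1) :
    P (A N t) N x y L := by
  exact qr23 hD ⟨c0, c1, c2, c3, c4, c5, c6, trivial⟩

/-- hypotheses -/
noncomputable def kr24 : List Fk.C :=
  [.le (.add .x (.k 1)) .y, .le (.k 3) .L, .le (.k 0) .x, .le (.add .y .L) (.add .N (.k 2)), .ne .x
  .t, .ne (.add .y .L) (.add .t (.k 3)), .ne (.add .t .x) .N, .ne (.add (.add .t .y) .L) (.add .N
  (.k 3))]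

theorem qr24 {N t x y L : ℤ} (hD : D N t) : Fk.All ⟨N, t, x, y, L⟩ kr24 → P (A N t) N x y L :=
  Fk.route (fam hD x y L) kr24 .y (.pt .x)
    [(0, .pt .N), (1, .dn (.sub (.add .y .L) (.k 3)) .y)]
    [.f 8650880, .f 37436734551752832, .f 128, .f 128, .f 9175168, .f 128, .f 8650880, .f
    36029359668199557, .s 8 (.f 12648576) (.f 8454272), .s 6 (.f 12648576) (.f 8454272), .f 128, .f
    128, .f 36029359668199557, .f 549764333700, .f 8585344, .f 8716416, .f 36029359668199556, .f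
    8716416, .s 9 (.f 12648576) (.f 8454272), .s 7 (.f 12648576) (.f 8454272), .f 128, .f 128, .f
    8716417, .f 8519808, .f 128, .f 128, .f 128, .f 128]
    (by decide +kernel)

theorem rT24 {N t x y L : ℤ} (hD : D N t)
    (c0 : x + 1 ≤ y)
    (c1 : (3 : ℤ) ≤ L)
    (c2 : (0 : ℤ) ≤ x)
    (c3 : y + L ≤ N + 2)
    (c4 : x ≠ t)
    (c5 : y + L ≠ t + 3)
    (c6 : t + x ≠ N)
    (c7 : t + y + L ≠ N + 3) :
    P (A N t) N x y L := by
  exact qr24 hD ⟨c0, c1, c2, c3, c4, c5, c6, c7, trivial⟩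

/-- hypotheses -/
noncomputable def kr25 : List Fk.C :=
  [.le .N (.add (.add .t .x) (.k 1)), .le (.add .x (.k 1)) .y, .le (.add .y .L) (.add (.add .t .x)
  (.k 3)), .le (.add (.add .t .x) (.k 4)) (.add .N .L), .ne (.add .y .L) (.add .x (.k 4)), .ne
  (.add (.add (.mul 2 .t) .x) (.k 4)) (.add (.add .N .y) .L)]

theorem qr25 {N t x y L : ℤ} (hD : D N t) : Fk.All ⟨N, t, x, y, L⟩ kr25 → P (A N t) N x y L :=
  Fk.route (fam hD x y L) kr25 .y (.dn .x (.sub (.sub .N .t) (.k 1)))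
    [(0, .pt .N), (1, .dn (.sub (.sub (.sub (.add (.add .N .y) .L) .t) .x) (.k 4)) .y)]
    [.f 8978560, .f 8519808, .f 37155246690205829, .f 128, .f 128, .f 9044096, .f 128, .f 8978560,
    .f 2361219833744444358789, .f 192, .f 164416309581193746349031557, .f 128, .f 128, .f
    37155246690205829, .f 36029359668658306, .f 8716416, .f 8650880, .f 2361219833744444686469, .f
    8650880, .s 6 (.f 12648576) (.f 8454272), .s 7 (.f 8454272) (.f 12648576), .f 128, .f 128, .f
    8650881, .f 8585344, .f 128, .f 128, .f 128, .f 128]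
    (by decide +kernel)

theorem rT25 {N t x y L : ℤ} (hD : D N t)
    (c0 : N ≤ t + x + 1)
    (c1 : x + 1 ≤ y)
    (c2 : y + L ≤ t + x + 3)
    (c3 : t + x + 4 ≤ N + L)
    (c4 : y + L ≠ x + 4)
    (c5 : 2 * t + x + 4 ≠ N + y + L) :
    P (A N t) N x y L := by
  exact qr25 hD ⟨c0, c1, c2, c3, c4, c5, trivial⟩

/-- hypotheses -/
noncomputable def kr26 : List Fk.C :=
  [.le (.add .x (.k 1)) .y, .le (.k 4) .L, .le (.k 1) .x, .le (.add .y .L) (.add .N (.k 3)), .ne .x
  (.add .t (.k 1)), .ne (.add .y .L) (.add .t (.k 4)), .ne (.add .t .x) (.add .N (.k 1)), .ne (.add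
  (.add .t .y) .L) (.add .N (.k 4))]

theorem qr26 {N t x y L : ℤ} (hD : D N t) : Fk.All ⟨N, t, x, y, L⟩ kr26 → P (A N t) N x y L :=
  Fk.route (fam hD x y L) kr26 .y (.dn .x (.sub .x (.k 1)))
    [(0, .pt .N), (1, .dn (.sub (.add .y .L) (.k 4)) .y)]
    [.f 8650880, .f 128, .f 36029359668199557, .f 128, .f 128, .f 9175168, .f 128, .f 8650880, .f
    36029359668199557, .s 8 (.f 12648576) (.f 8454272), .s 6 (.f 12648576) (.f 8454272), .f 128, .f
    128, .f 36029359668199557, .f 549764333700, .f 8585344, .f 8716416, .f 36029359668199556, .f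
    8716416, .s 9 (.f 12648576) (.f 8454272), .s 7 (.f 12648576) (.f 8454272), .f 128, .f 128, .f
    8716417, .f 8519808, .f 128, .f 128, .f 128, .f 128]
    (by decide +kernel)

theorem rT26 {N t x y L : ℤ} (hD : D N t)
    (c0 : x + 1 ≤ y)
    (c1 : (4 : ℤ) ≤ L)
    (c2 : (1 : ℤ) ≤ x)
    (c3 : y + L ≤ N + 3)
    (c4 : x ≠ t + 1)
    (c5 : y + L ≠ t + 4)
    (c6 : t + x ≠ N + 1)
    (c7 : t + y + L ≠ N + 4) :
    P (A N t) N x y L := by
  exact qr26 hD ⟨c0, c1, c2, c3, c4, c5, c6, c7, trivial⟩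

/-- hypotheses -/
noncomputable def kr27 : List Fk.C :=
  [.le (.add .N (.k 2)) (.add (.add .t .y) .L), .le (.add .x (.k 1)) .y, .le (.add (.add .t .y) (.k
  1)) .N, .le (.add (.add .t .y) .L) (.add (.add .N .x) (.k 2)), .ne (.add .y .L) (.add .x (.k 2)),
  .ne (.add (.add (.mul 2 .t) .y) .L) (.add (.add .N .x) (.k 2))]

theorem qr27 {N t x y L : ℤ} (hD : D N t) : Fk.All ⟨N, t, x, y, L⟩ kr27 → P (A N t) N x y L :=
  Fk.route (fam hD x y L) kr27 .y (.dn .x (.add (.sub (.sub (.sub (.add .N .x) .t) .y) .L) (.k 2)))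
    [(0, .pt .N), (1, .dn (.sub (.sub .N .t) (.k 1)) .y)]
    [.f 8716416, .f 8519808, .f 154749662356305070658814088, .f 128, .f 128, .f 9044096, .f 128, .f
    8716416, .f 154749662356305070667202696, .f 36873788893298880, .f 232118553592370556242624648,
    .f 128, .f 128, .f 164420995126245809218191748, .f 36029359668396162, .f 8650880, .f
    154747301137034838817243272, .f 8978560, .f 154747301137034838817243272, .f 192, .f
    232116192373100324392665224, .f 128, .f 128, .f 164418633942441424442228995, .f 8585344, .f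
    128, .f 128, .f 128, .f 128]
    (by decide +kernel)

theorem rT27 {N t x y L : ℤ} (hD : D N t)
    (c0 : N + 2 ≤ t + y + L)
    (c1 : x + 1 ≤ y)
    (c2 : t + y + 1 ≤ N)
    (c3 : t + y + L ≤ N + x + 2)
    (c4 : y + L ≠ x + 2)
    (c5 : 2 * t + y + L ≠ N + x + 2) :
    P (A N t) N x y L := by
  exact qr27 hD ⟨c0, c1, c2, c3, c4, c5, trivial⟩

/-- hypotheses -/
noncomputable def kr28 : List Fk.C :=
  [.le (.add .N (.k 1)) (.add .t .x), .le (.add .x (.k 1)) .y, .le (.add .y .L) (.add (.add .t .x)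
  (.k 2)), .le (.add (.add .t .x) (.k 3)) (.add .N .L), .ne (.add .y .L) (.add .x (.k 3)), .ne
  (.add (.add (.mul 2 .t) .x) (.k 3)) (.add (.add .N .y) .L)]

theorem qr28 {N t x y L : ℤ} (hD : D N t) : Fk.All ⟨N, t, x, y, L⟩ kr28 → P (A N t) N x y L :=
  Fk.route (fam hD x y L) kr28 .y (.dn .x (.add (.sub .N .t) (.k 1)))
    [(5, .pt (.k 0)), (0, .pt .N), (1, .dn (.sub (.sub (.sub (.add (.add .N .y) .L) .t) .x) (.k 3))
    .y)]
    [.f 8978560, .f 8519808, .f 36029368258199684, .f 128, .f 128, .f 128, .f 9044096, .f 128, .f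
    128, .f 128, .f 128, .f 8978561, .f 9044096, .f 128, .f 128, .f 9044096, .f 8978624, .f
    2435007654464216629378, .f 128, .f 128, .f 9044096, .f 37155246690205829, .f 36029359668658306,
    .f 8716416, .f 8650880, .f 2361220678169374818434, .f 8650880, .f 36029368258199682, .s 7 (.f
    8454272) (.f 12648576), .f 128, .f 128, .f 8650881, .f 36873771713429641, .f 8585344, .f 128,
    .f 128, .f 128, .f 128]
    (by decide +kernel)

theorem rT28 {N t x y L : ℤ} (hD : D N t)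
    (c0 : N + 1 ≤ t + x)
    (c1 : x + 1 ≤ y)
    (c2 : y + L ≤ t + x + 2)
    (c3 : t + x + 3 ≤ N + L)
    (c4 : y + L ≠ x + 3)
    (c5 : 2 * t + x + 3 ≠ N + y + L) :
    P (A N t) N x y L := by
  exact qr28 hD ⟨c0, c1, c2, c3, c4, c5, trivial⟩

/-- hypotheses -/
noncomputable def kr29 : List Fk.C :=
  [.le (.add .x (.k 4)) .L, .le (.add .x (.k 1)) .y, .le (.k 0) .x, .le (.add .y .L) (.add (.add .N
  .x) (.k 2)), .ne (.add .y .L) (.add (.add .t .x) (.k 4)), .ne (.add .t (.k 1)) .N, .ne (.add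
  (.add .t .y) .L) (.add (.add .N .x) (.k 4))]

theorem qr29 {N t x y L : ℤ} (hD : D N t) : Fk.All ⟨N, t, x, y, L⟩ kr29 → P (A N t) N x y L :=
  Fk.route (fam hD x y L) kr29 .y (.dn .x (.k 0))
    [(3, .pt (.sub .N (.k 1))), (0, .pt .N), (1, .dn (.sub (.sub (.add .y .L) .x) (.k 4)) .y)]
    [.f 128, .f 8650880, .f 36029355373297797, .f 128, .f 128, .f 9109632, .f 128, .f 128, .f 128,
    .f 128, .f 128, .f 37436730256851072, .f 9109632, .f 128, .f 9109632, .f 128, .f
    464232274064891755820024069, .s 7 (.f 8454272) (.f 12648576), .f 128, .f 128, .f 128, .f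
    37436730256851072, .f 549764399236, .f 8519808, .f 8716416, .f 36029355373297796, .f 8716416,
    .s 8 (.f 12648576) (.f 8454272), .s 6 (.f 12648576) (.f 8454272), .f 128, .f 128, .f 8716417,
    .f 8716417, .f 8585344, .f 128, .f 128, .f 128, .f 128]
    (by decide +kernel)

theorem rT29 {N t x y L : ℤ} (hD : D N t)
    (c0 : x + 4 ≤ L)
    (c1 : x + 1 ≤ y)
    (c2 : (0 : ℤ) ≤ x)
    (c3 : y + L ≤ N + x + 2)
    (c4 : y + L ≠ t + x + 4)
    (c5 : t + 1 ≠ N)
    (c6 : t + y + L ≠ N + x + 4) :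
    P (A N t) N x y L := by
  exact qr29 hD ⟨c0, c1, c2, c3, c4, c5, c6, trivial⟩

/-- hypotheses -/
noncomputable def kr30 : List Fk.C :=
  [.le (.add .x (.k 4)) .L, .le (.add .x (.k 1)) .y, .le (.k 0) .x, .le .L (.add (.add .t .x) (.k
  2)), .le (.add .t .y) .N, .ne .L (.add .x (.k 3)), .ne .y .t, .ne (.add (.add (.mul 2 .t) .x) (.k
  3)) (.add .N .L), .ne (.add .t .y) .N]

theorem qr30 {N t x y L : ℤ} (hD : D N t) : Fk.All ⟨N, t, x, y, L⟩ kr30 → P (A N t) N x y L :=
  Fk.route (fam hD x y L) kr30 .y (.dn .x (.k 0))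
    [(4, .up (.add (.sub .N .t) (.k 1)) (.sub (.sub (.sub (.add .N .L) .t) .x) (.k 3))), (0, .pt
    .N), (1, .pt .y)]
    [.f 128, .f 8650880, .f 2361219833744444424326, .f 128, .f 128, .f 9175168, .f 8519808, .f
    8716416, .f 128, .f 128, .f 128, .f 128, .f 575534203008, .f 9240704, .f 128, .f
    2361219833744444358790, .f 8716416, .f 8519808, .s 9 (.f 8454272) (.f 12648576), .f 128, .f
    128, .f 8716416, .f 2471900298186701406341, .f 549764399236, .f 36029355373428870, .f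
    549764399236, .f 36029355373428870, .s 10 (.f 12648576) (.f 8454272), .f
    2564134019366998311174, .f 128, .f 128, .f 36310830350139526, .f 8781953, .f 8585344, .f 128,
    .f 128, .f 128, .f 128]
    (by decide +kernel)

theorem rT30 {N t x y L : ℤ} (hD : D N t)
    (c0 : x + 4 ≤ L)
    (c1 : x + 1 ≤ y)
    (c2 : (0 : ℤ) ≤ x)
    (c3 : L ≤ t + x + 2)
    (c4 : t + y ≤ N)
    (c5 : L ≠ x + 3)
    (c6 : y ≠ t)
    (c7 : 2 * t + x + 3 ≠ N + L)
    (c8 : t + y ≠ N) :
    P (A N t) N x y L := by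
  exact qr30 hD ⟨c0, c1, c2, c3, c4, c5, c6, c7, c8, trivial⟩


/-- table of hypotheses -/
noncomputable def tabr : List (List Fk.C) :=
  [kr0, kr1, kr2, kr3, kr4, kr5, kr6, kr7, kr8, kr9, kr10, kr11, kr12, kr13, kr14, kr15, kr16,
  kr17, kr18, kr19, kr20, kr21, kr22, kr23, kr24, kr25, kr26, kr27, kr28, kr29, kr30]

theorem tbr {N t x y L : ℤ} (hD : D N t) : Fk.Tab ⟨N, t, x, y, L⟩ (P (A N t) N x y L) tabr :=
  ⟨qr0 hD, qr1 hD, qr2 hD, qr3 hD, qr4 hD, qr5 hD, qr6 hD, qr7 hD, qr8 hD, qr9 hD, qr10 hD, qr11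
  hD, qr12 hD, qr13 hD, qr14 hD, qr15 hD, qr16 hD, qr17 hD, qr18 hD, qr19 hD, qr20 hD, qr21 hD,
  qr22 hD, qr23 hD, qr24 hD, qr25 hD, qr26 hD, qr27 hD, qr28 hD, qr29 hD, qr30 hD, trivial⟩

theorem rn2 {N t x y L : ℤ} (hD : D N t)
    (h0 : (0 : ℤ) ≤ x)
    (h1 : x + 1 ≤ y)
    (h2 : y + 1 ≤ N)
    (h3 : (4 : ℤ) ≤ L)
    (h4 : L ≤ N)
    (h5 : N + 2 ≤ y + L)
    (h6 : x + L ≤ N + 1) :
    P (A N t) N x y L := by
  exact Fk.tree (fam hD x y L) (tbr hD)
    [.le (.k 0) .x, .le (.add .x (.k 1)) .y, .le (.add .y (.k 1)) .N, .le (.k 4) .L, .le .L .N, .le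
    (.add .N (.k 2)) (.add .y .L), .le (.add .x .L) (.add .N (.k 1))]
    (.nd (.add (.mul 2 .N) (.k 3)) (.add (.add (.add .t .x) .y) .L) (.nd (.add (.add .x .y) .L)
    (.add (.add .N .t) (.k 1)) (.nd (.add .t (.k 2)) .N (.lf 0 [.f 9044096, .f 8716416, .f 9109632,
    .f 8847488, .f 8519872, .f 8585408, .f 8650880]) (.nd (.add .N (.k 3)) (.add .y .L) (.nd (.k 1)
    .x (.nd (.add (.mul 2 .N) (.k 4)) (.add (.add (.add .t .x) .y) .L) (.lf 1 [.f 8650880, .f
    8585344, .f 9306240, .f 9044096, .f 8782016, .f 8519808]) (.nd (.add .y (.k 1)) .t (.lf 2 [.f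
    37155822216478848, .f 549764399365, .f 8650880, .f 8519808, .f 549764399237, .f 549772918915,
    .f 73747560598536320]) (.lf 3 [.f 4833122101701923569792, .f 8519808, .f 8650880, .f
    37718754989179011, .f 562649432192, .f 9109632]))) (.nd (.add .y (.k 1)) .t (.lf 4 [.f
    618483941504, .f 8913024, .f 37436721667506307, .f 8519808, .f 2453471005600202752131, .f
    584123940996]) (.lf 5 [.f 36873814663233664, .f 2453489582931486048384, .f 8913024, .f 9044096,
    .f 2416577517422719009034, .f 2398116136663113859200]))) (.nd (.add .x .L) (.add .t (.k 1))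
    (.lf 4 [.f 614189498496, .f 8847488, .f 8519808, .f 37155289639878784, .f 36592571614757001, .f
    614189105280]) (.nd (.add (.add .N .y) .L) (.add (.add (.mul 2 .t) .x) (.k 1)) (.lf 6 [.f
    549764792451, .f 8978560, .f 37155268164845707, .f 579837624448, .f 4888424616280476287104, .f
    8519808]) (.lf 7 [.f 315534398215418591331680516, .f 8978560, .f 8913024, .f 36593963183898887,
    .f 824642568452, .f 37436721667440777]))))) (.nd (.add (.add .N .t) (.k 3)) (.add (.add .x .y)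
    .L) (.lf 0 [.f 9044096, .f 8716416, .f 9109632, .f 8847488, .f 39125846405349506, .f 8519808,
    .f 8650880]) (.nd (.add .N (.k 3)) (.add .y .L) (.nd (.k 1) .x (.lf 1 [.f 8585344, .f 8519808,
    .f 9240704, .f 8978560, .f 8650944, .f 2398113603375430762752]) (.nd (.add .t (.k 4)) (.add .x
    .L) (.lf 8 [.f 37718209529118848, .f 8519808, .f 8913024, .f 549764530308, .f 8716416, .f
    2471900298186702192768, .f 2361219833744444555404]) (.lf 5 [.f 36873814663233664, .f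
    37718205234151552, .f 8913024, .f 9044096, .f 37999946506633482, .f 72902594506260746]))) (.lf
    9 [.f 558354399360, .f 8847488, .f 39125610181689475, .f 1108110213248, .f 549764792455, .f
    2416562036307589595269])))) (.nd (.add (.add (.add .t .x) .y) .L) (.add (.mul 2 .N) (.k 1))
    (.nd (.add .t (.k 2)) .N (.lf 0 [.f 9044096, .f 8716416, .f 9109632, .f 8847488, .f 8519872, .f
    36592348276392128, .f 8585408]) (.nd (.add .N .L) (.add (.add (.mul 2 .t) .x) (.k 1)) (.lf 2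
    [.f 8519808, .f 549773312132, .f 8781952, .f 2361221804073576431875, .f 597008842884, .f
    1146764656772, .f 36592296736784520]) (.lf 10 [.f 549765054594, .f 8847488, .f 8781952, .f
    37155259574911238, .f 37155259579105542, .f 158371643589350179216359559]))) (.nd (.add .N (.k
    2)) (.add .t .y) (.nd (.add .N (.k 4)) (.add (.add .t .x) .L) (.nd (.add .N (.k 5)) (.add (.add
    .x .y) .L) (.lf 11 [.f 8650880, .f 8585344, .f 8847488, .f 601304203392, .f 8781952, .f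
    8519808, .f 562649104516]) (.nd (.add .x .L) (.add .t (.k 1)) (.nd (.add .y (.k 1)) .t (.lf 4
    [.f 36029956669112456, .f 8978560, .f 8585344, .f 8519808, .f 562653298818, .f 579830087808])
    (.lf 3 [.f 566944071941, .f 8519808, .f 8978560, .f 566952591488, .f 36592348276457600, .f
    9109632])) (.lf 12 [.f 8716416, .f 2361223492936329724037, .f 8913024, .f 36029359668199561, .f
    36029376848068741, .f 8585344, .f 8585408, .f 4759296000393920970895]))) (.nd (.add (.add (.mul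
    2 .t) .x) .L) (.add (.add .N .y) (.k 1)) (.lf 13 [.f 549764530313, .f 562649366656, .f 8847488,
    .f 562649759872, .f 8978560, .f 562649104516, .f 8519872]) (.lf 5 [.f 2453491834696939733379,
    .f 36873771713757316, .f 8847488, .f 8978560, .c (.add .N (.k 3)) (.add .t .L) (.f
    579833233664) (.f 554067558534), .f 160789569087896454981091584]))) (.nd (.add (.add .t .x) (.k
    2)) .N (.lf 1 [.f 549764464770, .f 36873788893823104, .f 9175168, .f 8913024, .f
    2416560066227566411917, .f 8716480]) (.lf 7 [.f 159587708372386315793924352, .f 8847488, .f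
    8781952, .f 36592296737243267, .c .N (.add .t .x) (.f 575538266368) (.f 1099520082053), .f
    159580735465127855713485191])))))
    (by decide +kernel) ⟨h0, h1, h2, h3, h4, h5, h6, trivial⟩

theorem rn3 {N t x y L : ℤ} (hD : D N t)
    (h0 : (0 : ℤ) ≤ x)
    (h1 : x + 1 ≤ y)
    (h2 : y + 1 ≤ N)
    (h3 : (4 : ℤ) ≤ L)
    (h4 : L ≤ N)
    (h5 : N + 2 ≤ y + L)
    (h6 : ¬ (x + L ≤ N + 1)) :
    P (A N t) N x y L := by
  exact Fk.tree (fam hD x y L) (tbr hD)
    [.le (.k 0) .x, .le (.add .x (.k 1)) .y, .le (.add .y (.k 1)) .N, .le (.k 4) .L, .le .L .N, .le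
    (.add .N (.k 2)) (.add .y .L), .nle (.add .x .L) (.add .N (.k 1))]
    (.nd (.add .t (.k 2)) .y (.nd (.add (.add .t .x) .L) (.add (.mul 2 .N) (.k 1)) (.lf 14 [.f
    9044096, .f 8716416, .f 8781952, .f 8913024, .f 8585344, .f 36029909424603270, .f
    7120481493628557656512, .f 8519872]) (.nd (.add (.mul 2 .N) (.k 3)) (.add (.add .t .x) .L) (.nd
    (.add .x .L) (.add (.add .N .t) (.k 1)) (.lf 14 [.f 9175168, .f 8847488, .f 8913024, .f
    9044096, .f 8716416, .f 36029355373428867, .f 8519872, .f 8585344]) (.nd (.add (.add .N .t) (.k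
    3)) (.add .x .L) (.lf 14 [.f 9240704, .f 8913024, .f 8978560, .f 9109632, .f 8781952, .f
    36029381143167115, .f 8519808, .f 8650880]) (.nd (.add (.add .N .t) (.k 4)) (.add .y .L) (.lf
    15 [.f 8519808, .f 566944071820, .f 9044096, .f 8585344, .f 37155255279943820, .f
    579828973701]) (.lf 16 [.f 9240704, .f 8978560, .f 9044096, .f 37155805035757703, .f
    74591418593181828, .f 824642764935, .f 74591461542199429])))) (.lf 17 [.f 549764595843, .f
    549764792451, .f 8847488, .f 8519808, .f 824642568324, .f 562649104516, .f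
    72902607387361408]))) (.nd .y .t (.nd (.add (.add .t .x) .L) (.add (.mul 2 .N) (.k 1)) (.nd
    (.add .N (.k 2)) (.add .t .y) (.lf 14 [.f 9175168, .f 8847488, .f 8913024, .f 9044096, .f
    8650944, .f 8519808, .f 37155259579105410, .f 8585408]) (.nd (.add (.add .t .x) (.k 2)) .N (.nd
    .L (.add (.add .t .y) (.k 1)) (.lf 18 [.f 8978560, .f 39969996457508995, .f 8913024, .f
    9175168, .f 159580827667041264129409283, .f 8519872, .f 8585408, .f 2435007091501375029391])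
    (.lf 14 [.f 9306240, .f 8978560, .f 9044096, .f 9175168, .f 8782016, .f 601303941312, .f
    39407085162594438, .f 8716480])) (.lf 16 [.f 9175168, .f 8913024, .f 8978560, .f
    36592296737308803, .f 36029359668920584, .f 2601029195814521733259, .f 39407080863760512])))
    (.nd (.add (.mul 2 .N) (.k 3)) (.add (.add .t .x) .L) (.lf 14 [.f 9175168, .f 8847488, .f
    8913024, .f 9044096, .f 8650944, .f 36029376848068746, .f 37155289643876487, .f 8519808]) (.nd
    (.add .t (.k 3)) .N (.lf 17 [.f 549764726916, .f 549764923524, .f 8978560, .f 8585344, .f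
    8519872, .f 571239235776, .f 36029913719373963]) (.nd (.add (.mul 2 .N) (.k 4)) (.add (.add .t
    .y) .L) (.lf 19 [.f 8519808, .f 549764530316, .f 9044096, .f 8650880, .f 575534268608, .f
    36029368258134156]) (.lf 20 [.f 588418908293, .f 8978560, .f 9044096, .f 36029355373428876, .f
    36592348276523200, .f 37718785053950085]))))) (.nd (.add .x (.k 1)) .t (.nd (.add (.add .x .y)
    .L) (.add (.mul 2 .N) (.k 1)) (.lf 21 [.f 601304072320, .f 8650880, .f 8585344, .f 8913024, .f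
    549764530314, .f 38844118025306304, .f 8519872]) (.nd (.add .y .L) (.add .N .t) (.lf 22 [.f
    8585344, .f 8716416, .f 8650880, .f 8978560, .f 8519808, .f 558358331524, .f 8585344]) (.nd
    (.add (.mul 2 .N) (.k 3)) (.add (.add .x .y) .L) (.lf 21 [.f 37718239593234560, .f 8781952, .f
    8716416, .f 9044096, .f 579829760128, .f 37999723160076480, .f 8519808]) (.nd (.add .t (.k 3))
    .N (.lf 23 [.f 37155281049747590, .f 8978560, .f 8913024, .f 8519808, .f 549764661389, .f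
    824642437389, .f 314323074319919376076112002]) (.lf 5 [.f 36029372553691268, .f
    36592296737046669, .f 8978560, .f 9109632, .f 4796228613601753038979, .f
    36592318211424525]))))) (.nd (.add .y .L) (.add (.add .t .x) (.k 1)) (.lf 16 [.f 9109632, .f
    8847488, .f 8913024, .f 37155281049747586, .f 8519872, .f 36873801782263944, .f
    39407067978531079]) (.lf 20 [.f 36873827548004480, .f 8847488, .f 8913024, .f
    36873771713626250, .f 36874046591860869, .f 558354989184])))))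
    (by decide +kernel) ⟨h0, h1, h2, h3, h4, h5, h6, trivial⟩

theorem rn4 {N t x y L : ℤ} (hD : D N t)
    (h0 : (0 : ℤ) ≤ x)
    (h1 : x + 1 ≤ y)
    (h2 : y + 1 ≤ N)
    (h3 : (4 : ℤ) ≤ L)
    (h4 : L ≤ N)
    (h5 : ¬ (N + 2 ≤ y + L)) :
    P (A N t) N x y L := by
  exact Fk.tree (fam hD x y L) (tbr hD)
    [.le (.k 0) .x, .le (.add .x (.k 1)) .y, .le (.add .y (.k 1)) .N, .le (.k 4) .L, .le .L .N,
    .nle (.add .N (.k 2)) (.add .y .L)]
    (.nd (.add .t (.k 4)) (.add .y .L) (.nd (.add (.add .t .x) (.k 1)) .N (.lf 24 [.f 8716416, .f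
    8847488, .f 8650880, .f 8978560, .f 157162846950424328762884233, .f 8585344, .f 8519872, .f
    36029389741424777]) (.nd (.add .N (.k 1)) (.add .t .x) (.nd (.add .x (.k 1)) .t (.lf 24 [.f
    8847488, .f 8978560, .f 8781952, .f 9109632, .f 8519872, .f 8716416, .f 8585344, .f
    36873793188266112]) (.nd (.add .x (.k 4)) (.add .t .L) (.lf 9 [.f 8585344, .f 8913024, .f
    8519808, .f 601303810179, .f 36029359668592770, .f 38281163776852096]) (.lf 24 [.f 8913024, .f
    9044096, .f 8847488, .f 9175168, .f 558354792576, .f 8781952, .f 8650880, .f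
    36029389733101704]))) (.nd (.add (.add (.mul 2 .t) .x) (.k 5)) (.add (.add .N .y) .L) (.lf 25
    [.f 8650880, .f 8847488, .f 597008842884, .f 562649694336, .f 549764792455, .f 8519872]) (.nd
    (.add .y (.k 1)) .t (.lf 6 [.f 8781952, .f 8913024, .f 8519808, .f 39407072273694848, .f
    36029372553494658, .f 566948266118]) (.lf 3 [.f 562658148480, .f 8519808, .f 8847488, .f
    36874338657501312, .f 8650880, .f 8978560]))))) (.nd (.k 1) .x (.nd (.add .t .x) .N (.nd (.add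
    .N (.k 5)) (.add (.add .t .y) .L) (.lf 26 [.f 8847488, .f 8978560, .f 8650880, .f 9109632, .f
    54043758177681541, .f 8716480, .f 8585408, .f 8519808]) (.nd (.add (.add .t .y) .L) (.add .N
    (.k 2)) (.lf 24 [.f 8913024, .f 9044096, .f 8716416, .f 9175168, .f 54043788242845830, .f
    232116303089312088692621453, .f 36592339686785216, .f 8519872]) (.nd (.add (.add .t .y) (.k 1))
    .N (.nd (.add (.add .t .y) .L) (.add (.add .N .x) (.k 2)) (.lf 27 [.f 8650880, .f 9044096, .f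
    8585344, .f 8519808, .f 549764464774, .f 36029913719373958]) (.lf 24 [.f 9044096, .f 9175168,
    .f 8847488, .f 9306240, .f 3541812580378942242952, .f 160790675822451959085858947, .f
    824642306186, .f 549764661378])) (.lf 24 [.f 8978560, .f 9109632, .f 8781952, .f 9240704, .f
    2490349575543795482754, .f 232116321501997694515544324, .f 37155293935239360, .f
    549764923522])))) (.nd (.add .N (.k 2)) (.add .t .x) (.lf 26 [.f 8847488, .f 8978560, .f
    8650880, .f 9109632, .f 37436760325619847, .f 8716480, .f 8519808, .f 36029385438331010]) (.lf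
    28 [.f 8585344, .f 8847488, .f 571239039108, .f 558354727040, .f 549764792455, .f
    571239235712]))) (.nd (.add (.add .N .x) (.k 5)) (.add (.add .t .y) .L) (.nd (.add .t (.k 2))
    .N (.lf 29 [.f 566944661632, .f 8847488, .f 8781952, .f 36029372553298050, .f 824642502789, .f
    8519872, .f 8585344]) (.lf 7 [.f 566944661632, .f 8847488, .f 8781952, .f 597008842886, .f
    54043753882976395, .f 8585344])) (.nd (.add (.add .t .y) (.k 1)) .N (.lf 30 [.f 566944661632,
    .f 8847488, .f 8781952, .f 37436721667178758, .f 8519808, .f 566944661632, .f 824642699397, .f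
    2416559503032799592588, .f 8519872]) (.lf 7 [.f 566944661632, .f 8847488, .f 8781952, .f
    158371791198769165713604743, .f 169252141986579304046329995, .f 37155285344714882])))))
    (by decide +kernel) ⟨h0, h1, h2, h3, h4, h5, trivial⟩


theorem rn1 {N t x y L : ℤ} (hD : D N t)
    (h0 : (0 : ℤ) ≤ x)
    (h1 : x + 1 ≤ y)
    (h2 : y + 1 ≤ N)
    (h3 : (4 : ℤ) ≤ L)
    (h4 : L ≤ N)
    (h5 : N + 2 ≤ y + L) :
    P (A N t) N x y L := by
  obtain ⟨d0, d1, d2⟩ := id hD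
  by_cases h6 : x + L ≤ N + 1
  · exact rn2 hD h0 h1 h2 h3 h4 h5 h6
  · exact rn3 hD h0 h1 h2 h3 h4 h5 h6

theorem rn0 {N t x y L : ℤ} (hD : D N t)
    (h0 : (0 : ℤ) ≤ x)
    (h1 : x + 1 ≤ y)
    (h2 : y + 1 ≤ N)
    (h3 : (4 : ℤ) ≤ L)
    (h4 : L ≤ N) :
    P (A N t) N x y L := by
  obtain ⟨d0, d1, d2⟩ := id hD
  by_cases h5 : N + 2 ≤ y + L
  · exact rn1 hD h0 h1 h2 h3 h4 h5
  · exact rn4 hD h0 h1 h2 h3 h4 h5

end Pool.Agent.Work.MP_193ce1_co.Rim.Dd
end

-- merged part: Pool.Agent.Work.MP_193ce1_co.Rim.DdH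
section
set_option linter.unusedVariables false

namespace Pool.Agent.Work.MP_193ce1_co.Rim.Dd

/-- hypotheses -/
noncomputable def kh0 : List Fk.C :=
  [.le (.k 2) .L, .le .L (.add .x (.k 2)), .le (.add .x (.k 1)) .N, .ne (.add .x (.k 2)) (.add .t
  .L), .ne (.add (.add .t .x) (.k 2)) (.add .N .L)]

theorem qh0 {N t x L : ℤ} (hD : D N t) : Fk.All ⟨N, t, x, 0, L⟩ kh0 → P (A N t) N x N L :=
  Fk.route (fam hD x 0 L) kh0 .N (.dn .x (.add (.sub .x .L) (.k 2)))
    [(0, .pt .N)]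
    [.f 8585344, .f 8519808, .f 8650880, .f 128, .f 128, .f 8978560, .f 128, .f 8585344, .f
    549764333700, .s 6 (.f 12648576) (.f 8454272), .s 5 (.f 12648576) (.f 8454272), .f 128, .f 128,
    .f 8650880, .f 128, .f 128, .f 128, .f 128]
    (by decide +kernel)

theorem hT0 {N t x L : ℤ} (hD : D N t)
    (c0 : (2 : ℤ) ≤ L)
    (c1 : L ≤ x + 2)
    (c2 : x + 1 ≤ N)
    (c3 : x + 2 ≠ t + L)
    (c4 : t + x + 2 ≠ N + L) :
    P (A N t) N x N L := by
  exact qh0 hD ⟨c0, c1, c2, c3, c4, trivial⟩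

/-- hypotheses -/
noncomputable def kh1 : List Fk.C :=
  [.le (.add .N (.k 2)) (.add .x .L), .le (.add .x (.k 1)) .N, .le .L (.add .N (.k 1)), .ne (.add
  .x .L) (.add (.add .N .t) (.k 2)), .ne (.add (.add .t .x) .L) (.add (.mul 2 .N) (.k 2))]

theorem qh1 {N t x L : ℤ} (hD : D N t) : Fk.All ⟨N, t, x, 0, L⟩ kh1 → P (A N t) N x N L :=
  Fk.route (fam hD x 0 L) kh1 .N (.up .x (.sub .N (.k 1)))
    [(2, .up (.k 0) (.sub (.sub (.add .x .L) .N) (.k 2))), (0, .pt .N)]
    [.f 549764333700, .f 8585344, .f 128, .f 128, .f 128, .f 128, .f 8519808, .f 549764399236, .f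
    128, .f 128, .f 128, .f 128, .f 8650881, .f 8978560, .f 128, .f 8519808, .f 549764399236, .s 6
    (.f 12648576) (.f 8454272), .s 5 (.f 12648576) (.f 8454272), .f 128, .f 128, .f 566944268416,
    .f 128, .f 128, .f 128, .f 128, .f 128]
    (by decide +kernel)

theorem hT1 {N t x L : ℤ} (hD : D N t)
    (c0 : N + 2 ≤ x + L)
    (c1 : x + 1 ≤ N)
    (c2 : L ≤ N + 1)
    (c3 : x + L ≠ N + t + 2)
    (c4 : t + x + L ≠ 2 * N + 2) :
    P (A N t) N x N L := by
  exact qh1 hD ⟨c0, c1, c2, c3, c4, trivial⟩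

/-- hypotheses -/
noncomputable def kh2 : List Fk.C :=
  [.le (.k 2) .L, .le (.k 0) .x, .le (.add .x .L) (.add .N (.k 1)), .ne (.add .x .L) (.add .t (.k
  2)), .ne (.add (.add .t .x) .L) (.add .N (.k 2))]

theorem qh2 {N t x L : ℤ} (hD : D N t) : Fk.All ⟨N, t, x, 0, L⟩ kh2 → P (A N t) N x N L :=
  Fk.route (fam hD x 0 L) kh2 .N (.up .x (.sub (.add .x .L) (.k 2)))
    [(0, .pt .N)]
    [.f 8585344, .f 8519808, .f 8650880, .f 128, .f 128, .f 8978560, .f 128, .f 549764333699, .f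
    8650880, .s 6 (.f 12648576) (.f 8454272), .s 5 (.f 12648576) (.f 8454272), .f 128, .f 128, .f
    8650880, .f 128, .f 128, .f 128, .f 128]
    (by decide +kernel)

theorem hT2 {N t x L : ℤ} (hD : D N t)
    (c0 : (2 : ℤ) ≤ L)
    (c1 : (0 : ℤ) ≤ x)
    (c2 : x + L ≤ N + 1)
    (c3 : x + L ≠ t + 2)
    (c4 : t + x + L ≠ N + 2) :
    P (A N t) N x N L := by
  exact qh2 hD ⟨c0, c1, c2, c3, c4, trivial⟩

/-- hypotheses -/
noncomputable def kh3 : List Fk.C :=
  [.le (.add .N (.k 1)) (.add .t .x), .le .L (.add .x (.k 2)), .le (.add (.add .t .x) (.k 2)) (.add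
  .N .L), .le (.add .x (.k 1)) .N, .ne .L (.add .x (.k 2)), .ne (.add (.add (.mul 2 .t) .x) (.k 2))
  (.add .N .L)]

theorem qh3 {N t x L : ℤ} (hD : D N t) : Fk.All ⟨N, t, x, 0, L⟩ kh3 → P (A N t) N x N L :=
  Fk.route (fam hD x 0 L) kh3 .N (.dn .x (.add (.sub .N .t) (.k 1)))
    [(5, .up (.k 0) (.sub (.sub (.sub (.add .N .L) .t) .x) (.k 2))), (0, .pt .N)]
    [.f 8978560, .f 8519808, .f 8716416, .f 128, .f 128, .f 128, .f 8650880, .f 36029359668199557,
    .f 128, .f 128, .f 128, .f 128, .f 8585345, .f 9044096, .f 128, .f 8650880, .f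
    36029359668199557, .s 6 (.f 12648576) (.f 8454272), .f 2508793786883876651328, .f 128, .f 128,
    .f 37436721666916482, .f 8716416, .f 128, .f 128, .f 128, .f 128]
    (by decide +kernel)

theorem hT3 {N t x L : ℤ} (hD : D N t)
    (c0 : N + 1 ≤ t + x)
    (c1 : L ≤ x + 2)
    (c2 : t + x + 2 ≤ N + L)
    (c3 : x + 1 ≤ N)
    (c4 : L ≠ x + 2)
    (c5 : 2 * t + x + 2 ≠ N + L) :
    P (A N t) N x N L := by
  exact qh3 hD ⟨c0, c1, c2, c3, c4, c5, trivial⟩

/-- hypotheses -/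
noncomputable def kh4 : List Fk.C :=
  [.le (.add .x (.k 3)) .L, .le (.k 0) .x, .le .L (.add .N (.k 1)), .ne .L (.add (.add .t .x) (.k
  2)), .ne (.add .t .L) (.add (.add .N .x) (.k 2))]

theorem qh4 {N t x L : ℤ} (hD : D N t) : Fk.All ⟨N, t, x, 0, L⟩ kh4 → P (A N t) N x N L :=
  Fk.route (fam hD x 0 L) kh4 .N (.dn .x (.k 0))
    [(3, .dn (.sub .N (.k 1)) (.add (.sub (.add .N .x) .L) (.k 2))), (0, .pt .N)]
    [.f 128, .f 8585344, .f 549764333700, .f 128, .f 128, .f 549764399236, .f 8519808, .f 128, .f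
    128, .f 128, .f 128, .f 128, .f 8650880, .f 8978560, .f 128, .f 549764399236, .f 8519808, .s 5
    (.f 8454272) (.f 12648576), .s 6 (.f 8454272) (.f 12648576), .f 128, .f 128, .f 128, .f
    566944202880, .f 128, .f 128, .f 128, .f 128]
    (by decide +kernel)

theorem hT4 {N t x L : ℤ} (hD : D N t)
    (c0 : x + 3 ≤ L)
    (c1 : (0 : ℤ) ≤ x)
    (c2 : L ≤ N + 1)
    (c3 : L ≠ t + x + 2)
    (c4 : t + L ≠ N + x + 2) :
    P (A N t) N x N L := by
  exact qh4 hD ⟨c0, c1, c2, c3, c4, trivial⟩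

/-- hypotheses -/
noncomputable def kh5 : List Fk.C :=
  [.le (.add .N (.k 5)) (.add (.add .t .x) .L), .le (.k 1) .x, .le (.add .t .x) (.add .N (.k 1)),
  .le (.add .x .L) (.add .N (.k 2)), .ne (.add .x .L) (.add .N (.k 4)), .ne (.add (.add (.mul 2 .t)
  .x) .L) (.add (.mul 2 .N) (.k 4))]

theorem qh5 {N t x L : ℤ} (hD : D N t) : Fk.All ⟨N, t, x, 0, L⟩ kh5 → P (A N t) N x N L :=
  Fk.route (fam hD x 0 L) kh5 .N (.up .x (.add (.sub .N .t) (.k 1)))
    [(5, .pt (.k 0)), (3, .dn (.sub .N (.k 1)) (.add (.sub (.sub (.sub (.mul 2 .N) .t) .x) .L) (.k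
    4))), (0, .pt .N)]
    [.f 8585344, .f 8650880, .f 549764333701, .f 128, .f 128, .f 128, .f 9044096, .f 128, .f 128,
    .f 128, .f 128, .f 8585345, .f 36029363963232389, .f 8519808, .f 128, .f 128, .f 128, .f 128,
    .f 128, .f 37436738846785664, .f 8716416, .f 9044096, .f 128, .f 36029363963232389, .f 8519808,
    .f 8716416, .s 7 (.f 8454272) (.f 12648576), .f 128, .f 128, .f 128, .f 9044096, .f
    571239039106, .f 128, .f 128, .f 128, .f 128]
    (by decide +kernel)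

theorem hT5 {N t x L : ℤ} (hD : D N t)
    (c0 : N + 5 ≤ t + x + L)
    (c1 : (1 : ℤ) ≤ x)
    (c2 : t + x ≤ N + 1)
    (c3 : x + L ≤ N + 2)
    (c4 : x + L ≠ N + 4)
    (c5 : 2 * t + x + L ≠ 2 * N + 4) :
    P (A N t) N x N L := by
  exact qh5 hD ⟨c0, c1, c2, c3, c4, c5, trivial⟩

/-- hypotheses -/
noncomputable def kh6 : List Fk.C :=
  [.le (.add .N (.k 1)) (.add .t .x), .le (.add .x (.k 3)) .L, .le (.add .x (.k 2)) .t, .le (.add
  .t .L) (.add (.add .N .x) (.k 3)), .ne .L (.add (.add .t .x) (.k 3)), .ne (.add .t .L) (.add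
  (.add .N .x) (.k 3))]

theorem qh6 {N t x L : ℤ} (hD : D N t) : Fk.All ⟨N, t, x, 0, L⟩ kh6 → P (A N t) N x N L :=
  Fk.route (fam hD x 0 L) kh6 .N (.dn .x (.add (.sub .N .t) (.k 1)))
    [(6, .up (.sub .t (.k 1)) (.sub .N (.k 1))), (2, .up (.k 0) (.sub (.sub .L .x) (.k 3))), (0,
    .pt .N)]
    [.f 8978560, .f 8519808, .f 36029359668396164, .f 128, .f 128, .f 2435007091501374242949, .f
    8978560, .f 128, .f 128, .f 128, .f 128, .f 128, .f 8650880, .f 128, .f 8585344, .f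
    2361220115777766686852, .f 128, .f 128, .f 128, .f 128, .f 37155250985304194, .f 8716417, .f
    9044096, .f 128, .f 8585344, .f 2361220115777766686852, .s 7 (.f 12648576) (.f 8454272), .f
    54043766767616132, .f 128, .f 128, .f 2435042276444693725322, .f 128, .f 37155259574911109, .f
    128, .f 128, .f 128, .f 128]
    (by decide +kernel)

theorem hT6 {N t x L : ℤ} (hD : D N t)
    (c0 : N + 1 ≤ t + x)
    (c1 : x + 3 ≤ L)
    (c2 : x + 2 ≤ t)
    (c3 : t + L ≤ N + x + 3)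
    (c4 : L ≠ t + x + 3)
    (c5 : t + L ≠ N + x + 3) :
    P (A N t) N x N L := by
  exact qh6 hD ⟨c0, c1, c2, c3, c4, c5, trivial⟩

/-- hypotheses -/
noncomputable def kh7 : List Fk.C :=
  [.le (.add .x (.k 3)) .L, .le (.k 0) .x, .le .L (.add (.add .t .x) (.k 1)), .le (.add .t .x) .N,
  .ne .L (.add .x (.k 2)), .ne (.add (.add (.mul 2 .t) .x) (.k 2)) (.add .N .L)]

theorem qh7 {N t x L : ℤ} (hD : D N t) : Fk.All ⟨N, t, x, 0, L⟩ kh7 → P (A N t) N x N L :=
  Fk.route (fam hD x 0 L) kh7 .N (.dn .x (.k 0))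
    [(4, .up (.add (.sub .N .t) (.k 1)) (.sub (.sub (.sub (.add .N .L) .t) .x) (.k 2))), (0, .pt
    .N)]
    [.f 128, .f 8585344, .f 36029355373363333, .f 128, .f 128, .f 8978560, .f 8519808, .f 8650880,
    .f 128, .f 128, .f 128, .f 128, .f 8716416, .f 9044096, .f 128, .f 36029355373297797, .f
    8650880, .f 8519808, .s 7 (.f 8454272) (.f 12648576), .f 128, .f 128, .f 8650880, .f
    37436730256654468, .f 128, .f 128, .f 128, .f 128]
    (by decide +kernel)

theorem hT7 {N t x L : ℤ} (hD : D N t)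
    (c0 : x + 3 ≤ L)
    (c1 : (0 : ℤ) ≤ x)
    (c2 : L ≤ t + x + 1)
    (c3 : t + x ≤ N)
    (c4 : L ≠ x + 2)
    (c5 : 2 * t + x + 2 ≠ N + L) :
    P (A N t) N x N L := by
  exact qh7 hD ⟨c0, c1, c2, c3, c4, c5, trivial⟩


/-- table of hypotheses -/
noncomputable def tabh : List (List Fk.C) :=
  [kh0, kh1, kh2, kh3, kh4, kh5, kh6, kh7]

theorem tbh {N t x L : ℤ} (hD : D N t) : Fk.Tab ⟨N, t, x, 0, L⟩ (P (A N t) N x N L) tabh :=
  ⟨qh0 hD, qh1 hD, qh2 hD, qh3 hD, qh4 hD, qh5 hD, qh6 hD, qh7 hD, trivial⟩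

theorem hn0 {N t x L : ℤ} (hD : D N t)
    (h0 : (0 : ℤ) ≤ x)
    (h1 : x + 1 ≤ N)
    (h2 : (4 : ℤ) ≤ L)
    (h3 : L ≤ N)
    (h4 : L ≠ t + 2) :
    P (A N t) N x N L := by
  exact Fk.tree (fam hD x 0 L) (tbh hD)
    [.le (.k 0) .x, .le (.add .x (.k 1)) .N, .le (.k 4) .L, .le .L .N, .ne .L (.add .t (.k 2))]
    (.nd .L (.add .x (.k 2)) (.nd (.add .N .L) (.add (.add .t .x) (.k 1)) (.nd (.add .x (.k 3))
    (.add .t .L) (.lf 0 [.f 8847488, .f 8650880, .f 8781952, .f 8519872, .f 8585344]) (.nd (.add .t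
    .L) (.add .x (.k 1)) (.lf 0 [.f 8913024, .f 8716416, .f 8847488, .f 8519808, .f 8650880]) (.nd
    (.add .N (.k 2)) (.add .x .L) (.lf 1 [.f 8519808, .f 8913024, .f 9044096, .f 824642437384, .f
    566952984768]) (.lf 2 [.f 8978560, .f 8847488, .f 8519808, .f 566944071945, .f
    549773181061])))) (.nd (.add (.add .t .x) (.k 3)) (.add .N .L) (.lf 0 [.f 8847488, .f 8650880,
    .f 8781952, .f 2398114729296811917632, .f 8519872]) (.lf 3 [.f 558354595968, .f 8650880, .f
    8585344, .f 8781952, .f 597008974016, .f 72621123820716160]))) (.nd (.add (.add .N .x) (.k 3))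
    (.add .t .L) (.nd .L (.add (.add .t .x) (.k 1)) (.lf 4 [.f 8650880, .f 8716416, .f 8913024, .f
    8519872, .f 8585344]) (.nd (.add (.add .t .x) (.k 3)) .L (.lf 4 [.f 8716416, .f 8781952, .f
    8978560, .f 8519808, .f 8650880]) (.nd (.add .x .L) (.add .N (.k 2)) (.lf 5 [.f
    2361256426608108765322, .s 11 (.f 571239563392) (.f 554059169924), .f 36592313916915840, .f
    8519808, .f 8519872, .f 36029926604013708]) (.lf 1 [.f 8519808, .f 8913024, .f 9044096, .f
    1142473883781, .f 566953115840])))) (.nd (.add .t .L) (.add (.add .N .x) (.k 1)) (.lf 4 [.f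
    8650880, .f 8716416, .f 8913024, .f 37155521568571650, .f 8519872]) (.nd (.add .N (.k 1)) (.add
    .t .x) (.lf 6 [.f 8519808, .f 8716416, .f 562649694336, .f 8650880, .f 588423102594, .f
    8650944]) (.lf 7 [.f 8716416, .f 8781952, .f 2435009343326958190848, .f 8519808, .f 8716416, .f
    549764923524])))))
    (by decide +kernel) ⟨h0, h1, h2, h3, h4, trivial⟩



variable {N t : ℤ} {f : ℤ → ℤ}

theorem thread (c d : ℤ) (h : A N t c d) (hN : c ≠ N)
    (l0 : c ≠ (0 : ℤ))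
    (l1 : c ≠ N - 1)
    (l2 : c ≠ N - t + 1)
    (l3 : c ≠ t - 1)
    : d = c + 1 ∨ d = c - 1 ∨ d = N ∨ d = 0 := by
  rcases h.2 with (⟨a1, a2, a3⟩ | ⟨a1, a2⟩ | ⟨a1, a2⟩ | ⟨a1, a2⟩ | ⟨a1, a2⟩) | (⟨a1, a2, a3⟩ | ⟨a1, a2⟩ | ⟨a1, a2⟩ | ⟨a1, a2⟩ | ⟨a1, a2⟩) <;> omega

theorem nb (h : W (A N t) 0 N (t + 1) f) (hD : D N t) (i : ℤ) (h0 : 0 ≤ i) (h1 : i < t) :
    (f (i + 1) = f i + 1 ∧ f i + 1 < N) ∨
    (f (i + 1) = f i - 1 ∧ 1 ≤ f i) ∨
    (f i = N - 1 ∧ f (i + 1) = (0 : ℤ)) ∨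
    (f i = (0 : ℤ) ∧ f (i + 1) = N - 1) ∨
    (f i = (0 : ℤ) ∧ f (i + 1) = N - t + 1) ∨
    (f i = N - t + 1 ∧ f (i + 1) = (0 : ℤ)) ∨
    (f i = N - t + 1 ∧ f (i + 1) = t - 1) ∨
    (f i = t - 1 ∧ f (i + 1) = N - t + 1) := by
  have e1 : f i ≠ N := fun e => by
    have := h.inj i (t + 1) (by omega) (by omega) (by omega) (by omega) (by rw [h.hT]; exact e)
    omega
  have e2 : f (i + 1) ≠ N := fun e => by
    have := h.inj (i + 1) (t + 1) (by omega) (by omega) (by omega) (by omega) (by rw [h.hT]; exact e)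
    omega
  rcases (h.adj i h0 (by omega)).2 with (⟨a1, a2, a3⟩ | ⟨a1, a2⟩ | ⟨a1, a2⟩ | ⟨a1, a2⟩ | ⟨a1, a2⟩) | (⟨a1, a2, a3⟩ | ⟨a1, a2⟩ | ⟨a1, a2⟩ | ⟨a1, a2⟩ | ⟨a1, a2⟩)
  · exact (Or.inl ⟨by omega, by omega⟩)
  · exact absurd a1 e1
  · exact (Or.inr (Or.inr (Or.inl ⟨a1, a2⟩)))
  · exact (Or.inr (Or.inr (Or.inr (Or.inr (Or.inl ⟨a1, a2⟩)))))
  · exact (Or.inr (Or.inr (Or.inr (Or.inr (Or.inr (Or.inr (Or.inl ⟨a1, a2⟩)))))))
  · exact (Or.inr (Or.inl ⟨by omega, by omega⟩))
  · exact absurd a1 e2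
  · exact (Or.inr (Or.inr (Or.inr (Or.inl ⟨a2, a1⟩))))
  · exact (Or.inr (Or.inr (Or.inr (Or.inr (Or.inr (Or.inl ⟨a2, a1⟩))))))
  · exact (Or.inr (Or.inr (Or.inr (Or.inr (Or.inr (Or.inr (Or.inr ⟨a2, a1⟩)))))))

theorem fin (h : W (A N t) 0 N (t + 1) f) (hD : D N t) {c : ℤ} (hv : V f t c)
    (e : c = N - t ∨ c = t) : False := by
  have h1 := h.adj t (by unfold D at hD; omega) (by omega)
  rw [h.hT, show f t = c from hv] at h1
  unfold D at hD
  rcases h1.2 with (⟨a1, a2, a3⟩ | ⟨a1, a2⟩ | ⟨a1, a2⟩ | ⟨a1, a2⟩ | ⟨a1, a2⟩) | (⟨a1, a2, a3⟩ | ⟨a1, a2⟩ | ⟨a1, a2⟩ | ⟨a1, a2⟩ | ⟨a1, a2⟩) <;> omega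

theorem nb0 (h : W (A N t) 0 N (t + 1) f) (hD : D N t) {i : ℤ} (hv : V f i (0 : ℤ))
    (e : 0 ≤ i ∧ i < t) :
    V f (i + 1) (1 : ℤ) ∨ V f (i + 1) (N - 1) ∨ V f (i + 1) (N - t + 1) := by
  have := nb h hD i e.1 e.2
  unfold V at *
  unfold D at hD
  omega

theorem th1 (hD : D N t) : Th (A N t) N 0 (0 : ℤ) (N - t + 1) := by
  intro c d h1 h2 h3
  unfold D at hD
  exact thread c d h3 (by omega) (by omega) (by omega) (by omega) (by omega)

theorem nb2 (h : W (A N t) 0 N (t + 1) f) (hD : D N t) {i : ℤ} (hv : V f i (N - t + 1))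
    (e : 0 ≤ i ∧ i < t) :
    V f (i + 1) (N - t + 2) ∨ V f (i + 1) (N - t) ∨ V f (i + 1) (0 : ℤ) ∨ V f (i + 1) (t - 1) := by
  have := nb h hD i e.1 e.2
  unfold V at *
  unfold D at hD
  omega

theorem th3 (hD : D N t) : Th (A N t) N 0 (N - t + 1) (t - 1) := by
  intro c d h1 h2 h3
  unfold D at hD
  exact thread c d h3 (by omega) (by omega) (by omega) (by omega) (by omega)

theorem nb4 (h : W (A N t) 0 N (t + 1) f) (hD : D N t) {i : ℤ} (hv : V f i (t - 1))
    (e : 0 ≤ i ∧ i < t) :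
    V f (i + 1) t ∨ V f (i + 1) (t - 2) ∨ V f (i + 1) (N - t + 1) := by
  have := nb h hD i e.1 e.2
  unfold V at *
  unfold D at hD
  omega

theorem th5 (hD : D N t) : Th (A N t) N 0 (t - 1) (N - 1) := by
  intro c d h1 h2 h3
  unfold D at hD
  exact thread c d h3 (by omega) (by omega) (by omega) (by omega) (by omega)

theorem nb6 (h : W (A N t) 0 N (t + 1) f) (hD : D N t) {i : ℤ} (hv : V f i (N - 1))
    (e : 0 ≤ i ∧ i < t) :
    V f (i + 1) (N - 2) ∨ V f (i + 1) (0 : ℤ) := by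
  have := nb h hD i e.1 e.2
  unfold V at *
  unfold D at hD
  omega

theorem no (hD : D N t) (h : W (A N t) 0 N (t + 1) f) : False := by
  obtain ⟨d0, d1, d2⟩ := id hD
  have v0 : V f (0 : ℤ) (0 : ℤ) := h.h0
  rcases nb0 h hD v0 (by omega) with n1 | n1 | n1
  · have r2 := h.ru v0 n1 (th1 hD) (by omega)
    have v3 := r2.at (N - t + 1) (N - t + 1) (by omega)
    rcases nb2 h hD v3 (by omega) with n4 | n4 | n4 | n4
    · have r5 := h.ru v3 n4 (th3 hD) (by omega)
      have v6 := r5.at (t - 1) (t - 1) (by omega)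
      rcases nb4 h hD v6 (by omega) with n7 | n7 | n7
      · by_cases s9 : (0 : ℤ) ≤ t - N + 1
        · have r10 := h.ru v6 n7 (th5 hD) (by omega)
          have v11 := r10.at (N - 1) (N - 1) (by omega)
          exact fin h hD (v11.cast t (by omega)) (by omega)
        · have r12 := h.ru v6 n7 (th5 hD) (by omega)
          exact fin h hD (r12.at t t (by omega)) (by omega)
      · exact h.clash n7 (r5.at (t - 2) (t - 2) (by omega)) (by omega)
      · exact h.clash n7 v3 (by omega)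
    · exact h.clash n4 (r2.at (N - t) (N - t) (by omega)) (by omega)
    · exact h.clash n4 v0 (by omega)
    · have v13 := n4.cast (N - t + 2) (by omega)
      rcases nb4 h hD v13 (by omega) with n14 | n14 | n14
      · have r15 := h.ru v13 n14 (th5 hD) (by omega)
        have v16 := r15.at (2 * N - 2 * t + 2) (N - 1) (by omega)
        by_cases s17 : (0 : ℤ) ≤ t - N + 1
        · rcases nb6 h hD v16 (by omega) with n18 | n18
          · exact h.clash n18 v13 (by omega)
          · exact h.clash n18 v0 (by omega)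
        · rcases nb6 h hD v16 (by omega) with n19 | n19
          · exact h.clash n19 (r15.at (2 * N - 2 * t + 1) (N - 2) (by omega)) (by omega)
          · exact h.clash n19 v0 (by omega)
      · have r20 := h.rd v13 n14 (th3 hD) (by omega)
        exact h.clash (r20.at t (N - t + 1) (by omega)) v3 (by omega)
      · exact h.clash n14 v3 (by omega)
  · have v21 := n1.cast (1 : ℤ) (by omega)
    rcases nb6 h hD v21 (by omega) with n22 | n22
    · have r23 := h.rd v21 n22 (th5 hD) (by omega)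
      have v24 := r23.at (N - t + 1) (t - 1) (by omega)
      by_cases s25 : (0 : ℤ) ≤ t - N + 1
      · rcases nb4 h hD v24 (by omega) with n26 | n26 | n26
        · exact h.clash n26 v21 (by omega)
        · have r27 := h.rd v24 n26 (th3 hD) (by omega)
          have v28 := r27.at (t - 1) (N - t + 1) (by omega)
          rcases nb2 h hD v28 (by omega) with n29 | n29 | n29 | n29
          · exact h.clash n29 (r27.at (t - 2) (N - t + 2) (by omega)) (by omega)
          · have r30 := h.rd v28 n29 (th1 hD) (by omega)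
            exact fin h hD (r30.at t (N - t) (by omega)) (by omega)
          · exact h.clash n29 v0 (by omega)
          · exact h.clash n29 v24 (by omega)
        · have v31 := n26.cast (N - t + 2) (by omega)
          rcases nb2 h hD v31 (by omega) with n32 | n32 | n32 | n32
          · have r33 := h.ru v31 n32 (th3 hD) (by omega)
            exact h.clash (r33.at t (t - 1) (by omega)) v24 (by omega)
          · have r34 := h.rd v31 n32 (th1 hD) (by omega)
            exact h.clash (r34.at (2 * N - 2 * t + 3) (0 : ℤ) (by omega)) v0 (by omega)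
          · exact h.clash n32 v0 (by omega)
          · exact h.clash n32 v24 (by omega)
      · rcases nb4 h hD v24 (by omega) with n35 | n35 | n35
        · exact h.clash n35 (r23.at (N - t) t (by omega)) (by omega)
        · have r36 := h.rd v24 n35 (th3 hD) (by omega)
          have v37 := r36.at (t - 1) (N - t + 1) (by omega)
          rcases nb2 h hD v37 (by omega) with n38 | n38 | n38 | n38
          · exact h.clash n38 (r36.at (t - 2) (N - t + 2) (by omega)) (by omega)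
          · have r39 := h.rd v37 n38 (th1 hD) (by omega)
            exact fin h hD (r39.at t (N - t) (by omega)) (by omega)
          · exact h.clash n38 v0 (by omega)
          · exact h.clash n38 v24 (by omega)
        · have v40 := n35.cast (N - t + 2) (by omega)
          rcases nb2 h hD v40 (by omega) with n41 | n41 | n41 | n41
          · have r42 := h.ru v40 n41 (th3 hD) (by omega)
            exact h.clash (r42.at t (t - 1) (by omega)) v24 (by omega)
          · have r43 := h.rd v40 n41 (th1 hD) (by omega)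
            exact h.clash (r43.at (2 * N - 2 * t + 3) (0 : ℤ) (by omega)) v0 (by omega)
          · exact h.clash n41 v0 (by omega)
          · exact h.clash n41 v24 (by omega)
    · exact h.clash n22 v0 (by omega)
  · have v44 := n1.cast (1 : ℤ) (by omega)
    rcases nb2 h hD v44 (by omega) with n45 | n45 | n45 | n45
    · have r46 := h.ru v44 n45 (th3 hD) (by omega)
      have v47 := r46.at (2 * t - N - 1) (t - 1) (by omega)
      rcases nb4 h hD v47 (by omega) with n48 | n48 | n48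
      · have r49 := h.ru v47 n48 (th5 hD) (by omega)
        have v50 := r49.at (t - 1) (N - 1) (by omega)
        by_cases s51 : (0 : ℤ) ≤ t - N + 1
        · rcases nb6 h hD v50 (by omega) with n52 | n52
          · exact h.clash n52 v47 (by omega)
          · exact h.clash n52 v0 (by omega)
        · rcases nb6 h hD v50 (by omega) with n53 | n53
          · exact h.clash n53 (r49.at (t - 2) (N - 2) (by omega)) (by omega)
          · exact h.clash n53 v0 (by omega)
      · exact h.clash n48 (r46.at (2 * t - N - 2) (t - 2) (by omega)) (by omega)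
      · exact h.clash n48 v44 (by omega)
    · have r54 := h.rd v44 n45 (th1 hD) (by omega)
      exact h.clash (r54.at (N - t + 2) (0 : ℤ) (by omega)) v0 (by omega)
    · exact h.clash n45 v0 (by omega)
    · have v55 := n45.cast (2 : ℤ) (by omega)
      rcases nb4 h hD v55 (by omega) with n56 | n56 | n56
      · have r57 := h.ru v55 n56 (th5 hD) (by omega)
        have v58 := r57.at (N - t + 2) (N - 1) (by omega)
        by_cases s59 : (0 : ℤ) ≤ t - N + 1
        · rcases nb6 h hD v58 (by omega) with n60 | n60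
          · exact h.clash n60 v55 (by omega)
          · exact h.clash n60 v0 (by omega)
        · rcases nb6 h hD v58 (by omega) with n61 | n61
          · exact h.clash n61 (r57.at (N - t + 1) (N - 2) (by omega)) (by omega)
          · exact h.clash n61 v0 (by omega)
      · have r62 := h.rd v55 n56 (th3 hD) (by omega)
        exact h.clash (r62.at (2 * t - N) (N - t + 1) (by omega)) v44 (by omega)
      · exact h.clash n56 v44 (by omega)

end Pool.Agent.Work.MP_193ce1_co.Rim.Dd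
end
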