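import Pool.Agent.Work.MP_193ce1_co.Rim.KkD

-- merged part: Pool.Agent.Work.MP_193ce1_co.Rim.FpD
section
set_option linter.unusedVariables false

namespace Pool.Agent.Work.MP_193ce1_co.Rim.Fp

def D (N t : ℤ) : Prop :=
  2 * t + 2 ≤ N ∧ N ≤ 2 * t + 2 ∧ (8 : ℤ) ≤ N

def B (N t a b : ℤ) : Prop :=
  (0 ≤ a ∧ b = a + 1 ∧ b < N) ∨ (a = N ∧ 0 ≤ b ∧ b < N ∧ b ≠ t ∧ b ≠ N - t) ∨
    (a = N - 1 ∧ b = 0) ∨
    (a = t ∧ b = N - t)

def A (N t a b : ℤ) : Prop := a ≠ b ∧ (B N t a b ∨ B N t b a)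

variable {N t : ℤ}

theorem rel (hD : D N t) : Rel (A N t) N :=
  ⟨fun _ _ h => ⟨h.1.symm, h.2.symm⟩, fun _ h => h.1 rfl,
    fun a h0 h1 => ⟨by omega, Or.inl (Or.inl ⟨h0, rfl, h1⟩)⟩⟩

theorem hubB (hD : D N t) (e : ℤ) (h0 : 0 ≤ e) (h1 : e < N) (x0 : e ≠ t) (x1 : e ≠ N - t) : A N t N e :=
  ⟨by omega, Or.inl (Or.inr (Or.inl ⟨rfl, h0, h1, x0, x1⟩))⟩

theorem hubA (hD : D N t) (e : ℤ) (h0 : 0 ≤ e) (h1 : e < N) (x0 : e ≠ t) (x1 : e ≠ N - t) : A N t e N :=
  ⟨by omega, Or.inr (Or.inr (Or.inl ⟨rfl, h0, h1, x0, x1⟩))⟩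

theorem ch0 (hD : D N t) : A N t (N - 1) 0 :=
  ⟨by unfold D at hD; omega, Or.inl (Or.inr (Or.inr (Or.inl ⟨rfl, rfl⟩)))⟩

theorem ch1 (hD : D N t) : A N t 0 (N - 1) :=
  ⟨by unfold D at hD; omega, Or.inr (Or.inr (Or.inr (Or.inl ⟨rfl, rfl⟩)))⟩

theorem ch2 (hD : D N t) : A N t t (N - t) :=
  ⟨by unfold D at hD; omega, Or.inl (Or.inr (Or.inr (Or.inr ⟨rfl, rfl⟩)))⟩

theorem ch3 (hD : D N t) : A N t (N - t) t :=
  ⟨by unfold D at hD; omega, Or.inr (Or.inr (Or.inr (Or.inr ⟨rfl, rfl⟩)))⟩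

/-- vertices missed by the hub -/
noncomputable def fV : List Fk.E :=
  [.t, .sub .N .t]

/-- chords -/
noncomputable def fH : List (Fk.E × Fk.E) :=
  [(.sub .N (.k 1), .k 0), (.k 0, .sub .N (.k 1)), (.t, .sub .N .t), (.sub .N .t, .t)]

/-- parameter range -/
noncomputable def fD : List Fk.C :=
  [.le (.add (.mul 2 .t) (.k 2)) .N, .le .N (.add (.mul 2 .t) (.k 2)), .le (.k 8) .N]

theorem fam (hD : D N t) (x y L : ℤ) : Fk.Fam (A N t) ⟨N, t, x, y, L⟩ fV fH fD :=
  ⟨rel hD, fun e h0 h1 h => ⟨hubA hD e h0 h1 h.1 h.2.1,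
    hubB hD e h0 h1 h.1 h.2.1⟩,
    ⟨ch0 hD, ch1 hD, ch2 hD, ch3 hD, trivial⟩, hD.1, hD.2.1, hD.2.2, trivial⟩

end Pool.Agent.Work.MP_193ce1_co.Rim.Fp
end

-- merged part: Pool.Agent.Work.MP_193ce1_co.Rim.FpR
section
set_option linter.unusedVariables false

namespace Pool.Agent.Work.MP_193ce1_co.Rim.Fp

/-- hypotheses -/
noncomputable def kr0 : List Fk.C :=
  [.le (.add .x (.k 1)) .y, .le (.k 3) .L, .le (.k 0) .x, .le (.add .y .L) (.add .N (.k 2)), .ne .x
  .t, .ne (.add .y .L) (.add .t (.k 3)), .ne (.add .t .x) .N, .ne (.add (.add .t .y) .L) (.add .N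
  (.k 3))]

theorem qr0 {N t x y L : ℤ} (hD : D N t) : Fk.All ⟨N, t, x, y, L⟩ kr0 → P (A N t) N x y L :=
  Fk.route (fam hD x y L) kr0 .y (.pt .x)
    [(0, .pt .N), (1, .dn (.sub (.add .y .L) (.k 3)) .y)]
    [.f 8650880, .f 37436734551752832, .f 128, .f 128, .f 9175168, .f 128, .f 8650880, .f
    36029359668199557, .s 6 (.f 12648576) (.f 8454272), .s 8 (.f 12648576) (.f 8454272), .f 128, .f
    128, .f 36029359668199557, .f 549764333700, .f 8585344, .f 8716416, .f 36029359668199556, .f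
    8716416, .s 7 (.f 12648576) (.f 8454272), .s 9 (.f 12648576) (.f 8454272), .f 128, .f 128, .f
    8716417, .f 8519808, .f 128, .f 128, .f 128, .f 128]
    (by decide +kernel)

theorem rT0 {N t x y L : ℤ} (hD : D N t)
    (c0 : x + 1 ≤ y)
    (c1 : (3 : ℤ) ≤ L)
    (c2 : (0 : ℤ) ≤ x)
    (c3 : y + L ≤ N + 2)
    (c4 : x ≠ t)
    (c5 : y + L ≠ t + 3)
    (c6 : t + x ≠ N)
    (c7 : t + y + L ≠ N + 3) :
    P (A N t) N x y L := by
  exact qr0 hD ⟨c0, c1, c2, c3, c4, c5, c6, c7, trivial⟩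

/-- hypotheses -/
noncomputable def kr1 : List Fk.C :=
  [.le .t (.add .x (.k 1)), .le (.add .x (.k 1)) .y, .le (.add .x (.k 4)) (.add .t .L), .le (.add
  (.add .t .y) .L) (.add (.add .N .x) (.k 3)), .ne (.add .y .L) (.add .x (.k 4)), .ne (.add (.add
  (.mul 2 .t) .y) .L) (.add (.add .N .x) (.k 4))]

theorem qr1 {N t x y L : ℤ} (hD : D N t) : Fk.All ⟨N, t, x, y, L⟩ kr1 → P (A N t) N x y L :=
  Fk.route (fam hD x y L) kr1 .y (.dn .x (.sub .t (.k 1)))
    [(0, .pt .N), (1, .dn (.sub (.sub (.add (.add .t .y) .L) .x) (.k 4)) .y)]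
    [.f 588427296906, .f 8519808, .f 36029359668330629, .f 128, .f 128, .f 9044096, .f 128, .f
    588427296906, .f 2361219833744444358789, .f 192, .f 8913088, .f 128, .f 128, .f
    37436721666916484, .f 4722439104526042071178, .f 8650880, .f 8716416, .f
    309489769154218693184716938, .f 8716416, .s 6 (.f 12648576) (.f 8454272), .s 7 (.f 12648576)
    (.f 8454272), .f 128, .f 128, .f 8716417, .f 8585344, .f 128, .f 128, .f 128, .f 128]
    (by decide +kernel)

theorem rT1 {N t x y L : ℤ} (hD : D N t)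
    (c0 : t ≤ x + 1)
    (c1 : x + 1 ≤ y)
    (c2 : x + 4 ≤ t + L)
    (c3 : t + y + L ≤ N + x + 3)
    (c4 : y + L ≠ x + 4)
    (c5 : 2 * t + y + L ≠ N + x + 4) :
    P (A N t) N x y L := by
  exact qr1 hD ⟨c0, c1, c2, c3, c4, c5, trivial⟩

/-- hypotheses -/
noncomputable def kr2 : List Fk.C :=
  [.le .t (.add .x (.k 2)), .le (.add .x (.k 1)) .y, .le (.add .x (.k 5)) (.add .t .L), .le (.add
  (.add .t .y) .L) (.add (.add .N .x) (.k 4)), .ne (.add .y .L) (.add .x (.k 5)), .ne (.add (.add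
  (.mul 2 .t) .y) .L) (.add (.add .N .x) (.k 5))]

theorem qr2 {N t x y L : ℤ} (hD : D N t) : Fk.All ⟨N, t, x, y, L⟩ kr2 → P (A N t) N x y L :=
  Fk.route (fam hD x y L) kr2 .y (.dn .x (.sub .t (.k 2)))
    [(0, .pt .N), (1, .dn (.sub (.sub (.add (.add .t .y) .L) .x) (.k 5)) .y)]
    [.f 588427296906, .f 8519808, .f 36029359668330629, .f 128, .f 128, .f 9044096, .f 128, .f
    588427296906, .f 2361219833744444358789, .f 192, .f 8913088, .f 128, .f 128, .f
    37436721666916484, .f 4722439104526042071178, .f 8650880, .f 8716416, .f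
    309489769154218693184716938, .f 8716416, .s 6 (.f 12648576) (.f 8454272), .s 7 (.f 12648576)
    (.f 8454272), .f 128, .f 128, .f 8716417, .f 8585344, .f 128, .f 128, .f 128, .f 128]
    (by decide +kernel)

theorem rT2 {N t x y L : ℤ} (hD : D N t)
    (c0 : t ≤ x + 2)
    (c1 : x + 1 ≤ y)
    (c2 : x + 5 ≤ t + L)
    (c3 : t + y + L ≤ N + x + 4)
    (c4 : y + L ≠ x + 5)
    (c5 : 2 * t + y + L ≠ N + x + 5) :
    P (A N t) N x y L := by
  exact qr2 hD ⟨c0, c1, c2, c3, c4, c5, trivial⟩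

/-- hypotheses -/
noncomputable def kr3 : List Fk.C :=
  [.le (.add .t (.k 1)) .x, .le (.add .x (.k 1)) .y, .le (.add .x (.k 2)) (.add .t .L), .le (.add
  (.add .t .y) .L) (.add (.add .N .x) (.k 1)), .ne (.add .y .L) (.add .x (.k 2)), .ne (.add (.add
  (.mul 2 .t) .y) .L) (.add (.add .N .x) (.k 2))]

theorem qr3 {N t x y L : ℤ} (hD : D N t) : Fk.All ⟨N, t, x, y, L⟩ kr3 → P (A N t) N x y L :=
  Fk.route (fam hD x y L) kr3 .y (.dn .x (.add .t (.k 1)))
    [(0, .pt .N), (1, .dn (.sub (.sub (.add (.add .t .y) .L) .x) (.k 2)) .y)]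
    [.f 154744939917764044327026821, .f 8519808, .f 36029363963232389, .f 128, .f 128, .f 9044096,
    .f 128, .f 154744939917764044327026821, .f 2361220396694397649029, .f 128, .f 8913088, .f 128,
    .f 128, .f 37436738846785664, .f 154744939953793391101804677, .f 8650880, .f 8716416, .f
    154747301137034825924411525, .f 8716416, .f 36029363963232386, .s 7 (.f 12648576) (.f 8454272),
    .f 128, .f 128, .f 8716417, .f 8585344, .f 128, .f 128, .f 128, .f 128]
    (by decide +kernel)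

theorem rT3 {N t x y L : ℤ} (hD : D N t)
    (c0 : t + 1 ≤ x)
    (c1 : x + 1 ≤ y)
    (c2 : x + 2 ≤ t + L)
    (c3 : t + y + L ≤ N + x + 1)
    (c4 : y + L ≠ x + 2)
    (c5 : 2 * t + y + L ≠ N + x + 2) :
    P (A N t) N x y L := by
  exact qr3 hD ⟨c0, c1, c2, c3, c4, c5, trivial⟩

/-- hypotheses -/
noncomputable def kr4 : List Fk.C :=
  [.le (.add .t (.k 2)) (.add .y .L), .le (.k 0) .x, .le (.add .x .L) (.add .t (.k 1)), .le (.add
  .y (.k 1)) .t, .ne (.add (.add .x .y) .L) (.add (.mul 2 .t) (.k 2)), .ne (.add (.add .x .y) .L)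
  (.add .N (.k 2))]

theorem qr4 {N t x y L : ℤ} (hD : D N t) : Fk.All ⟨N, t, x, y, L⟩ kr4 → P (A N t) N x y L :=
  Fk.route (fam hD x y L) kr4 .y (.up .x (.sub (.sub (.add (.add .x .y) .L) .t) (.k 2)))
    [(0, .pt .N), (1, .dn (.sub .t (.k 1)) .y)]
    [.f 8585344, .f 8519808, .f 154747319547468082185502856, .f 128, .f 128, .f 9044096, .f 128, .f
    549764333699, .f 154747319547468082185502856, .f 824642437252, .f 54043766767747208, .f 128, .f
    128, .f 164418726104104177477353603, .f 37155246690140291, .f 8716416, .f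
    154744958364226647354507400, .f 2361220678165079457924, .f 154744958364226647354507400, .f 192,
    .f 8913088, .f 128, .f 128, .f 164416272687423312212590724, .f 8650880, .f 128, .f 128, .f 128,
    .f 128]
    (by decide +kernel)

theorem rT4 {N t x y L : ℤ} (hD : D N t)
    (c0 : t + 2 ≤ y + L)
    (c1 : (0 : ℤ) ≤ x)
    (c2 : x + L ≤ t + 1)
    (c3 : y + 1 ≤ t)
    (c4 : x + y + L ≠ 2 * t + 2)
    (c5 : x + y + L ≠ N + 2) :
    P (A N t) N x y L := by
  exact qr4 hD ⟨c0, c1, c2, c3, c4, c5, trivial⟩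

/-- hypotheses -/
noncomputable def kr5 : List Fk.C :=
  [.le (.add .t (.k 2)) (.add .y .L), .le (.add .x (.k 1)) .y, .le (.add .y (.k 1)) .t, .le (.add
  .y .L) (.add (.add .t .x) (.k 2)), .ne (.add .y .L) (.add .x (.k 2)), .ne (.add (.add (.mul 2 .t)
  .x) (.k 2)) (.add (.add .N .y) .L)]

theorem qr5 {N t x y L : ℤ} (hD : D N t) : Fk.All ⟨N, t, x, y, L⟩ kr5 → P (A N t) N x y L :=
  Fk.route (fam hD x y L) kr5 .y (.dn .x (.add (.sub (.sub (.add .t .x) .y) .L) (.k 2)))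
    [(0, .pt .N), (1, .dn (.sub .t (.k 1)) .y)]
    [.f 8716416, .f 8519808, .f 154747301100724017065820296, .f 128, .f 128, .f 9044096, .f 128, .f
    8716416, .f 154747301136752814084784264, .f 54043753882779780, .f 3541812017407514050696, .f
    128, .f 128, .f 164418707693106897529012353, .f 36873771713429637, .f 8650880, .f
    154744939917482582234824840, .f 2361220396690102878339, .f 154744939917482582234824840, .f 192,
    .f 8913088, .f 128, .f 128, .f 164416272687423320802525315, .f 8585344, .f 128, .f 128, .f 128,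
    .f 128]
    (by decide +kernel)

theorem rT5 {N t x y L : ℤ} (hD : D N t)
    (c0 : t + 2 ≤ y + L)
    (c1 : x + 1 ≤ y)
    (c2 : y + 1 ≤ t)
    (c3 : y + L ≤ t + x + 2)
    (c4 : y + L ≠ x + 2)
    (c5 : 2 * t + x + 2 ≠ N + y + L) :
    P (A N t) N x y L := by
  exact qr5 hD ⟨c0, c1, c2, c3, c4, c5, trivial⟩

/-- hypotheses -/
noncomputable def kr6 : List Fk.C :=
  [.le (.add (.add .t .x) (.k 3)) (.add .y .L), .le (.add .x (.k 1)) .y, .le (.k 0) .x, .le (.add
  .y (.k 1)) .t, .le (.add .y .L) (.add (.add .N .x) (.k 2)), .ne (.add .y .L) (.add (.add (.mul 2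
  .t) .x) (.k 2)), .ne (.add .y .L) (.add (.add .N .x) (.k 2))]

theorem qr6 {N t x y L : ℤ} (hD : D N t) : Fk.All ⟨N, t, x, y, L⟩ kr6 → P (A N t) N x y L :=
  Fk.route (fam hD x y L) kr6 .y (.dn .x (.k 0))
    [(3, .dn (.sub .N (.k 1)) (.add (.sub (.sub (.add (.add .N .t) .x) .y) .L) (.k 2))), (0, .pt
    .N), (1, .dn (.sub .t (.k 1)) .y)]
    [.f 128, .f 8650880, .f 2361220678165079457926, .f 128, .f 128, .f 2361220678173669392518, .f
    8519808, .f 128, .f 128, .f 128, .f 128, .f 128, .f 37718218118267011, .f 9109632, .f 128, .f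
    2361220678173669392518, .f 8519808, .s 8 (.f 8454272) (.f 12648576), .s 7 (.f 8454272) (.f
    12648576), .f 128, .f 128, .f 128, .f 2471901142607336571011, .f 562649104516, .f 8716416, .f
    549764333702, .f 36029368258265219, .f 549764333702, .f 192, .f 8978624, .f 128, .f 128, .f
    575534137473, .f 8781953, .f 8585344, .f 128, .f 128, .f 128, .f 128]
    (by decide +kernel)

theorem rT6 {N t x y L : ℤ} (hD : D N t)
    (c0 : t + x + 3 ≤ y + L)
    (c1 : x + 1 ≤ y)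
    (c2 : (0 : ℤ) ≤ x)
    (c3 : y + 1 ≤ t)
    (c4 : y + L ≤ N + x + 2)
    (c5 : y + L ≠ 2 * t + x + 2)
    (c6 : y + L ≠ N + x + 2) :
    P (A N t) N x y L := by
  exact qr6 hD ⟨c0, c1, c2, c3, c4, c5, c6, trivial⟩

/-- hypotheses -/
noncomputable def kr7 : List Fk.C :=
  [.le (.add (.add .N .x) .L) (.add (.mul 3 .t) (.k 6)), .le (.k 0) .x, .le .y .t, .le (.add (.mul
  3 .t) (.k 7)) (.add (.add .N .y) .L), .ne (.add (.add .x .y) .L) (.add (.mul 2 .t) (.k 7)), .ne
  (.add (.mul 4 .t) (.k 7)) (.add (.add (.add .N .x) .y) .L)]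

theorem qr7 {N t x y L : ℤ} (hD : D N t) : Fk.All ⟨N, t, x, y, L⟩ kr7 → P (A N t) N x y L :=
  Fk.route (fam hD x y L) kr7 .y (.up .x (.sub (.sub (.add (.add (.add .N .x) .y) .L) (.mul 3 .t)) (.k 7)))
    [(0, .pt .N), (1, .dn (.add .t (.k 3)) (.sub .N .t)), (5, .dn .t .y)]
    [.f 8585344, .f 8716416, .f 154744958400255444381859976, .f 128, .f 128, .f 9044096, .f 128, .f
    549764399237, .f 154744958400255444381859976, .f 566944202944, .f 54043762472648840, .f 128, .f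
    128, .f 164418707693670375755022465, .f 154744939918326998574956680, .f 8978560, .f
    584132329610, .f 2361219833744444358789, .f 584132329610, .f 128, .f 8978560, .f 128, .f 128,
    .f 584132395146, .f 36029363963166856, .f 36029355373297797, .f 8650880, .f
    164416346473836657089052805, .f 128, .f 128, .f 128, .f 128, .f 8913025, .f
    164416272723170634246520965, .f 8519808, .f 128, .f 128, .f 128, .f 128]
    (by decide +kernel)

theorem rT7 {N t x y L : ℤ} (hD : D N t)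
    (c0 : N + x + L ≤ 3 * t + 6)
    (c1 : (0 : ℤ) ≤ x)
    (c2 : y ≤ t)
    (c3 : 3 * t + 7 ≤ N + y + L)
    (c4 : x + y + L ≠ 2 * t + 7)
    (c5 : 4 * t + 7 ≠ N + x + y + L) :
    P (A N t) N x y L := by
  exact qr7 hD ⟨c0, c1, c2, c3, c4, c5, trivial⟩

/-- hypotheses -/
noncomputable def kr8 : List Fk.C :=
  [.le (.add .N (.k 2)) (.add .y .L), .le (.k 0) .x, .le (.add .x .L) (.add .N (.k 1)), .le (.add
  .y (.k 1)) .N, .ne (.add (.add .x .y) .L) (.add (.add .N .t) (.k 2)), .ne (.add (.add (.add .t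
  .x) .y) .L) (.add (.mul 2 .N) (.k 2))]

theorem qr8 {N t x y L : ℤ} (hD : D N t) : Fk.All ⟨N, t, x, y, L⟩ kr8 → P (A N t) N x y L :=
  Fk.route (fam hD x y L) kr8 .y (.up .x (.sub (.sub (.add (.add .x .y) .L) .N) (.k 2)))
    [(0, .pt .N), (1, .dn (.sub .N (.k 1)) .y)]
    [.f 8585344, .f 8519808, .f 549764530308, .f 128, .f 128, .f 9044096, .f 128, .f 549764333699,
    .f 549764530308, .s 6 (.f 12648576) (.f 8454272), .s 7 (.f 12648576) (.f 8454272), .f 128, .f
    128, .f 566944399488, .f 37155246690140291, .f 8716416, .f 128, .f 9044096, .f 128, .f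
    164416364921143680760283268, .f 588427296906, .f 128, .f 128, .f 129, .f 8650880, .f 128, .f
    128, .f 128, .f 128]
    (by decide +kernel)

theorem rT8 {N t x y L : ℤ} (hD : D N t)
    (c0 : N + 2 ≤ y + L)
    (c1 : (0 : ℤ) ≤ x)
    (c2 : x + L ≤ N + 1)
    (c3 : y + 1 ≤ N)
    (c4 : x + y + L ≠ N + t + 2)
    (c5 : t + x + y + L ≠ 2 * N + 2) :
    P (A N t) N x y L := by
  exact qr8 hD ⟨c0, c1, c2, c3, c4, c5, trivial⟩

/-- hypotheses -/
noncomputable def kr9 : List Fk.C :=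
  [.le (.add .N (.k 1)) (.add .t .y), .le (.add .N (.k 3)) (.add (.add .t .x) .L), .le (.k 0) .x,
  .le .x .t, .le (.add (.add (.add .t .x) .y) .L) (.add (.mul 2 .N) (.k 2)), .ne (.add (.add .x .y)
  .L) (.add .N (.k 3)), .ne (.add (.add (.add (.mul 2 .t) .x) .y) .L) (.add (.mul 2 .N) (.k 3))]

theorem qr9 {N t x y L : ℤ} (hD : D N t) : Fk.All ⟨N, t, x, y, L⟩ kr9 → P (A N t) N x y L :=
  Fk.route (fam hD x y L) kr9 .y (.up .x .t)
    [(4, .dn (.sub .N .t) (.add .t (.k 1))), (0, .pt .N), (1, .dn (.sub (.sub (.add (.add (.add .t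
    .x) .y) .L) .N) (.k 3)) .y)]
    [.f 8650880, .f 8716416, .f 2361219833770214097030, .f 128, .f 128, .f 549764530308, .f
    8978560, .f 37718196643627138, .f 128, .f 128, .f 128, .f 128, .f 128, .f 9109632, .f 128, .f
    549764530308, .f 2361219833770214097030, .f 128, .f 8978624, .f 128, .f 128, .f
    37718196643561603, .f 72058160982589569, .f 2361255862567233060998, .f 8585344, .f 8781952, .f
    2361255862567241449606, .f 8781952, .f 36029385438003331, .f 558354137219, .f 128, .f 128, .f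
    8781953, .f 8519808, .f 558354137225, .f 128, .f 128, .f 128, .f 128]
    (by decide +kernel)

theorem rT9 {N t x y L : ℤ} (hD : D N t)
    (c0 : N + 1 ≤ t + y)
    (c1 : N + 3 ≤ t + x + L)
    (c2 : (0 : ℤ) ≤ x)
    (c3 : x ≤ t)
    (c4 : t + x + y + L ≤ 2 * N + 2)
    (c5 : x + y + L ≠ N + 3)
    (c6 : 2 * t + x + y + L ≠ 2 * N + 3) :
    P (A N t) N x y L := by
  exact qr9 hD ⟨c0, c1, c2, c3, c4, c5, c6, trivial⟩

/-- hypotheses -/
noncomputable def kr10 : List Fk.C :=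
  [.le (.add .N (.k 1)) (.add .y .L), .le (.k 0) .x, .le (.add .x .L) .N, .le (.add .y (.k 2)) .N,
  .ne (.add (.add .x .y) .L) (.add (.add .N .t) (.k 1)), .ne (.add (.add (.add .t .x) .y) .L) (.add
  (.mul 2 .N) (.k 1))]

theorem qr10 {N t x y L : ℤ} (hD : D N t) : Fk.All ⟨N, t, x, y, L⟩ kr10 → P (A N t) N x y L :=
  Fk.route (fam hD x y L) kr10 .y (.up .x (.sub (.sub (.add (.add .x .y) .L) .N) (.k 1)))
    [(0, .pt .N), (1, .dn (.sub .N (.k 2)) .y)]
    [.f 8585344, .f 8519808, .f 549764530308, .f 128, .f 128, .f 9044096, .f 128, .f 549764333699,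
    .f 549764530308, .s 6 (.f 12648576) (.f 8454272), .s 7 (.f 12648576) (.f 8454272), .f 128, .f
    128, .f 566944399488, .f 37155246690140291, .f 8716416, .f 128, .f 9044096, .f 128, .f
    164416364921143680760283268, .f 588427296906, .f 128, .f 128, .f 129, .f 8650880, .f 128, .f
    128, .f 128, .f 128]
    (by decide +kernel)

theorem rT10 {N t x y L : ℤ} (hD : D N t)
    (c0 : N + 1 ≤ y + L)
    (c1 : (0 : ℤ) ≤ x)
    (c2 : x + L ≤ N)
    (c3 : y + 2 ≤ N)
    (c4 : x + y + L ≠ N + t + 1)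
    (c5 : t + x + y + L ≠ 2 * N + 1) :
    P (A N t) N x y L := by
  exact qr10 hD ⟨c0, c1, c2, c3, c4, c5, trivial⟩

/-- hypotheses -/
noncomputable def kr11 : List Fk.C :=
  [.le (.add .t (.k 1)) (.add .x .L), .le (.add .x .L) (.add .y (.k 2)), .le (.k 0) .x, .le (.add
  .x (.k 2)) .t, .le (.add .y (.k 1)) .N, .ne (.add .y (.k 1)) (.add .x .L), .ne (.add (.add (.mul
  2 .t) .y) (.k 1)) (.add (.add .N .x) .L)]

theorem qr11 {N t x y L : ℤ} (hD : D N t) : Fk.All ⟨N, t, x, y, L⟩ kr11 → P (A N t) N x y L :=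
  Fk.route (fam hD x y L) kr11 .y (.up .x (.sub .t (.k 2)))
    [(0, .pt .N), (1, .up (.add (.sub (.sub (.add .t .y) .x) .L) (.k 1)) .y)]
    [.f 8650880, .f 8716416, .f 36029359668199558, .f 128, .f 128, .f 9109632, .f 128, .f
    549764530308, .f 36029359668199558, .f 192, .f 8978624, .f 128, .f 128, .f 37718209528463488,
    .f 36873793188135044, .f 8519808, .f 8781952, .f 36873793188135044, .f 549764333702, .s 7 (.f
    12648576) (.f 8454272), .s 8 (.f 12648576) (.f 8454272), .f 128, .f 128, .f 8781953, .f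
    8585344, .f 128, .f 128, .f 128, .f 128]
    (by decide +kernel)

theorem rT11 {N t x y L : ℤ} (hD : D N t)
    (c0 : t + 1 ≤ x + L)
    (c1 : x + L ≤ y + 2)
    (c2 : (0 : ℤ) ≤ x)
    (c3 : x + 2 ≤ t)
    (c4 : y + 1 ≤ N)
    (c5 : y + 1 ≠ x + L)
    (c6 : 2 * t + y + 1 ≠ N + x + L) :
    P (A N t) N x y L := by
  exact qr11 hD ⟨c0, c1, c2, c3, c4, c5, c6, trivial⟩

/-- hypotheses -/
noncomputable def kr12 : List Fk.C :=
  [.le (.add .x (.k 3)) .L, .le .L (.add .y (.k 2)), .le (.k 0) .x, .le (.add .y (.k 1)) .N, .ne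
  (.add (.add .x .y) (.k 3)) (.add .t .L), .ne (.add (.add (.add .t .x) .y) (.k 3)) (.add .N .L)]

theorem qr12 {N t x y L : ℤ} (hD : D N t) : Fk.All ⟨N, t, x, y, L⟩ kr12 → P (A N t) N x y L :=
  Fk.route (fam hD x y L) kr12 .y (.dn .x (.k 0))
    [(0, .pt .N), (1, .up (.add (.sub (.add .x .y) .L) (.k 3)) .y)]
    [.f 128, .f 8650880, .f 36029355373297797, .f 128, .f 128, .f 9044096, .f 128, .f 128, .f
    9044096, .f 1374398578825, .f 164416309581192938907500677, .f 128, .f 128, .f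
    37436730256851072, .f 562649104516, .f 8519808, .f 8716416, .f 562649104516, .f 549764333701,
    .s 6 (.f 12648576) (.f 8454272), .s 7 (.f 12648576) (.f 8454272), .f 128, .f 128, .f 8716417,
    .f 8585344, .f 128, .f 128, .f 128, .f 128]
    (by decide +kernel)

theorem rT12 {N t x y L : ℤ} (hD : D N t)
    (c0 : x + 3 ≤ L)
    (c1 : L ≤ y + 2)
    (c2 : (0 : ℤ) ≤ x)
    (c3 : y + 1 ≤ N)
    (c4 : x + y + 3 ≠ t + L)
    (c5 : t + x + y + 3 ≠ N + L) :
    P (A N t) N x y L := by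
  exact qr12 hD ⟨c0, c1, c2, c3, c4, c5, trivial⟩

/-- hypotheses -/
noncomputable def kr13 : List Fk.C :=
  [.le .t .y, .le (.add .y (.k 3)) .L, .le (.k 0) .x, .le (.add .x .L) (.add (.add .t .y) (.k 2)),
  .le (.add (.add .t .y) (.k 1)) .N, .ne (.add .x .L) (.add (.add .t .y) (.k 3)), .ne (.add (.add
  .t .x) .L) (.add (.add .N .y) (.k 3))]

theorem qr13 {N t x y L : ℤ} (hD : D N t) : Fk.All ⟨N, t, x, y, L⟩ kr13 → P (A N t) N x y L :=
  Fk.route (fam hD x y L) kr13 .y (.up .x (.sub (.sub (.add .x .L) .y) (.k 3)))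
    [(0, .pt .N), (1, .dn (.sub .N (.k 1)) (.sub .N .t)), (5, .up .t .y)]
    [.f 8650880, .f 8585344, .f 154744921470738504238825606, .f 128, .f 128, .f 9109632, .f 128, .f
    549764399236, .f 154744921470738504238825606, .f 8716480, .f 54043766767616134, .f 128, .f 128,
    .f 161998439494938664443904132, .f 154744921470738504230436998, .f 36029359668330629, .f 128,
    .f 9109632, .f 128, .f 154744921470738504230436998, .f 592722264203, .f 128, .f 128, .f 129, .f
    37718205233692800, .f 36029359668330629, .f 8519808, .f 2361220115223716102278, .f 128, .f 128,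
    .f 128, .f 128, .f 8781953, .f 2471900579653088444549, .f 8716416, .f 128, .f 128, .f 128, .f
    128]
    (by decide +kernel)

theorem rT13 {N t x y L : ℤ} (hD : D N t)
    (c0 : t ≤ y)
    (c1 : y + 3 ≤ L)
    (c2 : (0 : ℤ) ≤ x)
    (c3 : x + L ≤ t + y + 2)
    (c4 : t + y + 1 ≤ N)
    (c5 : x + L ≠ t + y + 3)
    (c6 : t + x + L ≠ N + y + 3) :
    P (A N t) N x y L := by
  exact qr13 hD ⟨c0, c1, c2, c3, c4, c5, c6, trivial⟩

/-- hypotheses -/
noncomputable def kr14 : List Fk.C :=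
  [.le (.add .N (.k 2)) (.add .x .L), .le (.add .x (.k 1)) .y, .le (.add .y (.k 1)) .N, .le .L
  (.add .N (.k 1)), .ne .y (.add .t (.k 1)), .ne (.add .t .y) (.add .N (.k 1)), .ne (.add .x .L)
  (.add (.add .N .t) (.k 2)), .ne (.add (.add .t .x) .L) (.add (.mul 2 .N) (.k 2))]

theorem qr14 {N t x y L : ℤ} (hD : D N t) : Fk.All ⟨N, t, x, y, L⟩ kr14 → P (A N t) N x y L :=
  Fk.route (fam hD x y L) kr14 .y (.up .x (.sub .y (.k 1)))
    [(0, .pt .N), (1, .dn (.sub (.sub (.add .x .L) .N) (.k 2)) (.k 0)), (3, .dn (.sub .N (.k 1))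
    .y)]
    [.f 549764530306, .f 8585344, .f 8650880, .f 128, .f 128, .f 9175168, .f 128, .f
    36029359668199557, .f 8650880, .s 6 (.f 12648576) (.f 8454272), .s 7 (.f 12648576) (.f
    8454272), .f 128, .f 128, .f 8650880, .f 128, .f 8519808, .f 36029363963232389, .f 8519808, .f
    36029363963232389, .s 8 (.f 12648576) (.f 8454272), .s 9 (.f 12648576) (.f 8454272), .f 128, .f
    128, .f 37436738846785665, .f 8716417, .f 36029359668199557, .f 8650880, .f 128, .f 128, .f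
    128, .f 128, .f 128, .f 571239039107, .f 129, .f 128, .f 128, .f 128, .f 128, .f 128]
    (by decide +kernel)

theorem rT14 {N t x y L : ℤ} (hD : D N t)
    (c0 : N + 2 ≤ x + L)
    (c1 : x + 1 ≤ y)
    (c2 : y + 1 ≤ N)
    (c3 : L ≤ N + 1)
    (c4 : y ≠ t + 1)
    (c5 : t + y ≠ N + 1)
    (c6 : x + L ≠ N + t + 2)
    (c7 : t + x + L ≠ 2 * N + 2) :
    P (A N t) N x y L := by
  exact qr14 hD ⟨c0, c1, c2, c3, c4, c5, c6, c7, trivial⟩

/-- hypotheses -/
noncomputable def kr15 : List Fk.C :=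
  [.le (.add (.mul 2 .N) (.k 3)) (.add (.add .t .y) .L), .le (.add .N (.k 1)) (.add .t .x), .le
  (.add .y (.k 1)) .N, .le (.add (.add .t .x) .L) (.add (.mul 2 .N) (.k 2)), .ne (.add (.add .x .y)
  .L) (.add (.mul 2 .N) (.k 3)), .ne (.add (.add (.add (.mul 2 .t) .x) .y) .L) (.add (.mul 3 .N)
  (.k 3))]

theorem qr15 {N t x y L : ℤ} (hD : D N t) : Fk.All ⟨N, t, x, y, L⟩ kr15 → P (A N t) N x y L :=
  Fk.route (fam hD x y L) kr15 .y (.up .x (.sub (.sub (.add (.add (.add .t .x) .y) .L) (.mul 2 .N)) (.k 3)))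
    [(0, .pt .N), (1, .up (.add .t (.k 1)) (.sub .N .t)), (5, .dn .t (.k 0)), (3, .dn (.sub .N (.k
    1)) .y)]
    [.f 154745013705303843168977028, .f 8519808, .f 571239039108, .f 128, .f 128, .f 9044096, .f
    128, .f 154745013705303843177365636, .f 571239039108, .f 36029359668592770, .f 562649104514, .f
    128, .f 128, .f 571239039108, .f 2361220396690102747269, .f 8913024, .f 2453454117050060570754,
    .f 2361220396690102747269, .f 154745013705303293413163140, .f 128, .f 8913088, .f 128, .f 128,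
    .f 2379667140763812298885, .f 8585345, .f 128, .f 2453454117050060570754, .f
    154745013705303293413163140, .f 128, .f 128, .f 128, .f 128, .f 129, .f 1103815508106, .f
    562649170056, .f 154745013741332640196329604, .f 8650880, .f 128, .f 128, .f 128, .f 128, .f
    128, .f 2453452991184513466498, .f 36029355373297797, .f 129, .f 8716416, .f 128, .f 128, .f
    128, .f 128]
    (by decide +kernel)

theorem rT15 {N t x y L : ℤ} (hD : D N t)
    (c0 : 2 * N + 3 ≤ t + y + L)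
    (c1 : N + 1 ≤ t + x)
    (c2 : y + 1 ≤ N)
    (c3 : t + x + L ≤ 2 * N + 2)
    (c4 : x + y + L ≠ 2 * N + 3)
    (c5 : 2 * t + x + y + L ≠ 3 * N + 3) :
    P (A N t) N x y L := by
  exact qr15 hD ⟨c0, c1, c2, c3, c4, c5, trivial⟩

/-- hypotheses -/
noncomputable def kr16 : List Fk.C :=
  [.le (.add (.add .N .t) (.k 4)) (.add .y .L), .le (.add .t (.k 2)) .x, .le (.add .y (.k 1)) .N,
  .le (.add .x .L) (.add (.add .N .t) (.k 3)), .ne (.add (.add .x .y) .L) (.add (.add .N (.mul 2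
  .t)) (.k 4)), .ne (.add (.add .x .y) .L) (.add (.mul 2 .N) (.k 4))]

theorem qr16 {N t x y L : ℤ} (hD : D N t) : Fk.All ⟨N, t, x, y, L⟩ kr16 → P (A N t) N x y L :=
  Fk.route (fam hD x y L) kr16 .y (.up .x (.sub (.sub (.sub (.add (.add .x .y) .L) .N) .t) (.k 4)))
    [(0, .pt .N), (1, .dn (.add .t (.k 1)) (.k 0)), (3, .dn (.sub .N (.k 1)) .y)]
    [.f 154744939917483123401097349, .f 8519808, .f 549764464773, .f 128, .f 128, .f 9044096, .f
    128, .f 154744939953511920420061317, .f 549764464773, .f 549764333699, .s 7 (.f 12648576) (.f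
    8454272), .f 128, .f 128, .f 571239301248, .f 128, .f 154744939917482573645283461, .f
    2361220396690102747269, .f 154744939917482573645283461, .f 2361220396690102747269, .f 128, .f
    8913088, .f 128, .f 128, .f 2453454117058650505345, .f 8585345, .f 154744939953511920420061445,
    .f 8650880, .f 128, .f 128, .f 128, .f 128, .f 128, .f 37436721666850947, .f 129, .f 8716416,
    .f 128, .f 128, .f 128, .f 128]
    (by decide +kernel)

theorem rT16 {N t x y L : ℤ} (hD : D N t)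
    (c0 : N + t + 4 ≤ y + L)
    (c1 : t + 2 ≤ x)
    (c2 : y + 1 ≤ N)
    (c3 : x + L ≤ N + t + 3)
    (c4 : x + y + L ≠ N + 2 * t + 4)
    (c5 : x + y + L ≠ 2 * N + 4) :
    P (A N t) N x y L := by
  exact qr16 hD ⟨c0, c1, c2, c3, c4, c5, trivial⟩

/-- hypotheses -/
noncomputable def kr17 : List Fk.C :=
  [.le (.add .x (.k 3)) .L, .le (.add .x (.k 1)) .y, .le (.k 0) .x, .le (.add .y .L) (.add (.add .N
  .x) (.k 2)), .ne (.add .y .L) (.add (.add .t .x) (.k 3)), .ne (.add (.add .t .y) .L) (.add (.add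
  .N .x) (.k 3))]

theorem qr17 {N t x y L : ℤ} (hD : D N t) : Fk.All ⟨N, t, x, y, L⟩ kr17 → P (A N t) N x y L :=
  Fk.route (fam hD x y L) kr17 .y (.dn .x (.k 0))
    [(0, .pt .N), (1, .dn (.sub (.sub (.add .y .L) .x) (.k 3)) .y)]
    [.f 128, .f 8650880, .f 36029355373297797, .f 128, .f 128, .f 9044096, .f 128, .f 128, .f
    9044096, .f 1374398578825, .f 164416309581192938907500677, .f 128, .f 128, .f
    37436730256851072, .f 549764399236, .f 8519808, .f 8716416, .f 36029355373297796, .f 8716416,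
    .s 6 (.f 12648576) (.f 8454272), .s 7 (.f 12648576) (.f 8454272), .f 128, .f 128, .f 8716417,
    .f 8585344, .f 128, .f 128, .f 128, .f 128]
    (by decide +kernel)

theorem rT17 {N t x y L : ℤ} (hD : D N t)
    (c0 : x + 3 ≤ L)
    (c1 : x + 1 ≤ y)
    (c2 : (0 : ℤ) ≤ x)
    (c3 : y + L ≤ N + x + 2)
    (c4 : y + L ≠ t + x + 3)
    (c5 : t + y + L ≠ N + x + 3) :
    P (A N t) N x y L := by
  exact qr17 hD ⟨c0, c1, c2, c3, c4, c5, trivial⟩

/-- hypotheses -/
noncomputable def kr18 : List Fk.C :=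
  [.le (.add (.add .N (.mul 2 .t)) (.k 5)) (.add (.add .x .y) .L), .le (.add .t (.k 1)) .x, .le .x
  (.add .t (.k 1)), .le (.add .x .L) (.add (.mul 3 .t) (.k 4)), .le (.add .y (.k 1)) .N, .ne (.add
  (.add .x .y) .L) (.add (.mul 4 .t) (.k 5)), .ne (.add (.add .x .y) .L) (.add (.add .N (.mul 2
  .t)) (.k 5))]

theorem qr18 {N t x y L : ℤ} (hD : D N t) : Fk.All ⟨N, t, x, y, L⟩ kr18 → P (A N t) N x y L :=
  Fk.route (fam hD x y L) kr18 .y (.up .x (.add .t (.k 1)))
    [(0, .pt .N), (1, .dn (.sub (.sub (.add (.add .x .y) .L) (.mul 3 .t)) (.k 5)) (.sub .N .t)),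
    (5, .dn .t (.k 0)), (3, .dn (.sub .N (.k 1)) .y)]
    [.f 2416561191852594823301, .f 8650880, .f 2361220959640056299657, .f 128, .f 128, .f 9109632,
    .f 128, .f 36029372553101445, .f 2361220959640056299657, .f 128, .f 8978624, .f 128, .f 128, .f
    2527239967453582000262, .f 2361220959640056299657, .f 8519808, .f 549764595845, .f
    2361220960189812113545, .f 549764595845, .f 549764333705, .s 8 (.f 12648576) (.f 8454272), .f
    128, .f 128, .f 571239432321, .f 8978560, .f 128, .f 36029372553101445, .f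
    2361220959640056299657, .f 128, .f 128, .f 128, .f 128, .f 8978561, .f 588427362443, .f
    8585345, .f 2361220960189820502153, .f 8781952, .f 128, .f 128, .f 128, .f 128, .f 128, .f
    38562621573693573, .f 8716416, .f 129, .f 38562621573693573, .f 128, .f 128, .f 128, .f 128]
    (by decide +kernel)

theorem rT18 {N t x y L : ℤ} (hD : D N t)
    (c0 : N + 2 * t + 5 ≤ x + y + L)
    (c1 : t + 1 ≤ x)
    (c2 : x ≤ t + 1)
    (c3 : x + L ≤ 3 * t + 4)
    (c4 : y + 1 ≤ N)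
    (c5 : x + y + L ≠ 4 * t + 5)
    (c6 : x + y + L ≠ N + 2 * t + 5) :
    P (A N t) N x y L := by
  exact qr18 hD ⟨c0, c1, c2, c3, c4, c5, c6, trivial⟩

/-- hypotheses -/
noncomputable def kr19 : List Fk.C :=
  [.le (.add .N (.k 2)) (.add .y .L), .le (.add .x (.k 1)) .y, .le (.add .y (.k 1)) .N, .le (.add
  .y .L) (.add (.add .N .x) (.k 2)), .ne (.add .y .L) (.add (.add .t .x) (.k 2)), .ne (.add (.add
  .t .y) .L) (.add (.add .N .x) (.k 2))]

theorem qr19 {N t x y L : ℤ} (hD : D N t) : Fk.All ⟨N, t, x, y, L⟩ kr19 → P (A N t) N x y L :=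
  Fk.route (fam hD x y L) kr19 .y (.dn .x (.add (.sub (.sub (.add .N .x) .y) .L) (.k 2)))
    [(0, .pt .N), (1, .dn (.sub .N (.k 1)) .y)]
    [.f 8716416, .f 8519808, .f 549764464771, .f 128, .f 128, .f 9044096, .f 128, .f 8716416, .f
    36029363963166851, .s 7 (.f 8454272) (.f 12648576), .s 6 (.f 8454272) (.f 12648576), .f 128, .f
    128, .f 562649104516, .f 36873771713429637, .f 8650880, .f 128, .f 9044096, .f 128, .f
    164416346474399615640666243, .f 588427296906, .f 128, .f 128, .f 129, .f 8585344, .f 128, .f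
    128, .f 128, .f 128]
    (by decide +kernel)

theorem rT19 {N t x y L : ℤ} (hD : D N t)
    (c0 : N + 2 ≤ y + L)
    (c1 : x + 1 ≤ y)
    (c2 : y + 1 ≤ N)
    (c3 : y + L ≤ N + x + 2)
    (c4 : y + L ≠ t + x + 2)
    (c5 : t + y + L ≠ N + x + 2) :
    P (A N t) N x y L := by
  exact qr19 hD ⟨c0, c1, c2, c3, c4, c5, trivial⟩

/-- hypotheses -/
noncomputable def kr20 : List Fk.C :=
  [.le (.add .x (.k 1)) .y, .le (.add .y (.k 3)) .L, .le (.k 0) .x, .le .L (.add .N (.k 1)), .ne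
  (.add .x (.k 1)) .t, .ne .L (.add (.add .t .y) (.k 2)), .ne (.add (.add .t .x) (.k 1)) .N, .ne
  (.add .t .L) (.add (.add .N .y) (.k 2))]

theorem qr20 {N t x y L : ℤ} (hD : D N t) : Fk.All ⟨N, t, x, y, L⟩ kr20 → P (A N t) N x y L :=
  Fk.route (fam hD x y L) kr20 .y (.dn .x (.k 0))
    [(3, .dn (.sub .N (.k 1)) (.add (.sub (.add .N .y) .L) (.k 2))), (0, .pt .N), (1, .up (.add .x
    (.k 1)) .y)]
    [.f 128, .f 8650880, .f 36029359668199557, .f 128, .f 128, .f 36029355373363333, .f 8585344, .f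
    128, .f 128, .f 128, .f 128, .f 128, .f 571239170176, .f 9175168, .f 128, .f 36029355373363333,
    .f 8585344, .s 9 (.f 8454272) (.f 12648576), .s 7 (.f 8454272) (.f 12648576), .f 128, .f 128,
    .f 128, .f 37436734551752832, .f 8650880, .f 8519808, .f 549764399237, .f 8650880, .f
    36029359668199557, .s 6 (.f 12648576) (.f 8454272), .s 8 (.f 12648576) (.f 8454272), .f 128, .f
    128, .f 571239235713, .f 8716417, .f 128, .f 128, .f 128, .f 128, .f 128]
    (by decide +kernel)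

theorem rT20 {N t x y L : ℤ} (hD : D N t)
    (c0 : x + 1 ≤ y)
    (c1 : y + 3 ≤ L)
    (c2 : (0 : ℤ) ≤ x)
    (c3 : L ≤ N + 1)
    (c4 : x + 1 ≠ t)
    (c5 : L ≠ t + y + 2)
    (c6 : t + x + 1 ≠ N)
    (c7 : t + L ≠ N + y + 2) :
    P (A N t) N x y L := by
  exact qr20 hD ⟨c0, c1, c2, c3, c4, c5, c6, c7, trivial⟩

/-- hypotheses -/
noncomputable def kr21 : List Fk.C :=
  [.le (.add .t (.k 1)) .y, .le (.k 0) .x, .le (.add (.add .x .y) (.k 3)) (.add .t .L), .le .x .t,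
  .le (.add .t .L) (.add (.add .N .x) (.k 1)), .ne .L (.add (.add .x .y) (.k 2)), .ne (.add (.mul 2
  .t) .L) (.add (.add (.add .N .x) .y) (.k 2))]

theorem qr21 {N t x y L : ℤ} (hD : D N t) : Fk.All ⟨N, t, x, y, L⟩ kr21 → P (A N t) N x y L :=
  Fk.route (fam hD x y L) kr21 .y (.dn .x (.k 0))
    [(3, .dn (.sub .N (.k 1)) (.add (.sub (.sub (.add (.add .N .x) .y) .t) .L) (.k 2))), (0, .pt
    .N), (1, .up (.add .t (.k 1)) .y)]
    [.f 128, .f 8585344, .f 2361220396690102878342, .f 128, .f 128, .f 2361219833753034227846, .f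
    8650880, .f 128, .f 128, .f 128, .f 128, .f 128, .f 37718205233692800, .f 9109632, .f 128, .f
    2361219833753034227846, .f 8650880, .f 549764333702, .s 7 (.f 8454272) (.f 12648576), .f 128,
    .f 128, .f 128, .f 2471900861132359860357, .f 549764399237, .f 8519808, .f 549764464774, .f
    549764399237, .f 36029363963166854, .f 128, .f 8978624, .f 128, .f 128, .f 575534268545, .f
    8781953, .f 8716416, .f 128, .f 128, .f 128, .f 128]
    (by decide +kernel)

theorem rT21 {N t x y L : ℤ} (hD : D N t)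
    (c0 : t + 1 ≤ y)
    (c1 : (0 : ℤ) ≤ x)
    (c2 : x + y + 3 ≤ t + L)
    (c3 : x ≤ t)
    (c4 : t + L ≤ N + x + 1)
    (c5 : L ≠ x + y + 2)
    (c6 : 2 * t + L ≠ N + x + y + 2) :
    P (A N t) N x y L := by
  exact qr21 hD ⟨c0, c1, c2, c3, c4, c5, c6, trivial⟩

/-- hypotheses -/
noncomputable def kr22 : List Fk.C :=
  [.le (.add .N (.k 4)) (.add .x .L), .le (.add .N (.k 1)) (.add .t .y), .le (.add .t (.k 1)) .x,
  .le (.add .t .x) .N, .le (.add (.add .x .y) .L) (.add (.mul 2 .N) (.k 3)), .ne (.add (.add .x .y)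
  .L) (.add (.add .N .t) (.k 4)), .ne (.add (.add (.add .t .x) .y) .L) (.add (.mul 2 .N) (.k 4))]

theorem qr22 {N t x y L : ℤ} (hD : D N t) : Fk.All ⟨N, t, x, y, L⟩ kr22 → P (A N t) N x y L :=
  Fk.route (fam hD x y L) kr22 .y (.up .x (.sub .N .t))
    [(5, .dn .t (.k 0)), (0, .pt .N), (1, .dn (.sub (.sub (.add (.add .x .y) .L) .N) (.k 4)) .y)]
    [.f 2471899735241043083395, .f 8716416, .f 36029372553101443, .f 128, .f 128, .f 128, .f
    36029372553101443, .f 154744976811815141699158148, .f 128, .f 128, .f 128, .f 128, .f 8650881,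
    .f 9109632, .f 128, .f 128, .f 9109632, .f 54043771062583427, .f 232116229267151408880353412,
    .f 128, .f 128, .f 37155796446150795, .f 36029355373297798, .f 159580569409809216149061766, .f
    8519808, .f 8781952, .f 159580569409809765904875654, .f 8781952, .f 2435006247097918947459, .f
    549764333699, .f 128, .f 128, .f 8781953, .f 37155246690336899, .f 8585344, .f 128, .f 128, .f
    128, .f 128]
    (by decide +kernel)

theorem rT22 {N t x y L : ℤ} (hD : D N t)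
    (c0 : N + 4 ≤ x + L)
    (c1 : N + 1 ≤ t + y)
    (c2 : t + 1 ≤ x)
    (c3 : t + x ≤ N)
    (c4 : x + y + L ≤ 2 * N + 3)
    (c5 : x + y + L ≠ N + t + 4)
    (c6 : t + x + y + L ≠ 2 * N + 4) :
    P (A N t) N x y L := by
  exact qr22 hD ⟨c0, c1, c2, c3, c4, c5, c6, trivial⟩

/-- hypotheses -/
noncomputable def kr23 : List Fk.C :=
  [.le .N (.add .t .y), .le (.k 0) .x, .le (.add .x (.k 1)) .t, .le .L (.add (.add .t .x) (.k 4)),
  .le (.add (.add (.add .t .x) .y) (.k 6)) (.add .N .L), .ne .L (.add (.add .x .y) (.k 5)), .ne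
  (.add (.add (.add (.mul 2 .t) .x) .y) (.k 5)) (.add .N .L)]

theorem qr23 {N t x y L : ℤ} (hD : D N t) : Fk.All ⟨N, t, x, y, L⟩ kr23 → P (A N t) N x y L :=
  Fk.route (fam hD x y L) kr23 .y (.dn .x (.k 0))
    [(3, .dn (.sub .N (.k 1)) (.add (.sub (.add (.add .t .x) .y) .L) (.k 5))), (0, .pt .N), (1, .dn
    (.add .t (.k 1)) .t), (4, .up (.sub .N .t) .y)]
    [.f 128, .f 8585344, .f 165625198507037949969039494, .f 128, .f 128, .f 4814636232623639363718,
    .f 8781952, .f 128, .f 128, .f 128, .f 128, .f 128, .f 2435006247115099013250, .f 9109632, .f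
    128, .f 4814636232623639363718, .f 8781952, .f 36029355373428873, .f 571239170176, .f 128, .f
    128, .f 128, .f 73184082372067467, .f 566944071811, .f 128, .f 2361219833770214228102, .f
    549764399236, .f 2361219833770214228102, .f 128, .f 8978624, .f 128, .f 128, .f
    2379667703743830622338, .f 38562625868660869, .f 8650880, .f 2527239967453582000262, .f
    8519808, .f 571239039110, .f 128, .f 128, .f 128, .f 128, .f 8978560, .f 571239104646, .f
    8716417, .f 549764792452, .f 128, .f 128, .f 128, .f 128]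
    (by decide +kernel)

theorem rT23 {N t x y L : ℤ} (hD : D N t)
    (c0 : N ≤ t + y)
    (c1 : (0 : ℤ) ≤ x)
    (c2 : x + 1 ≤ t)
    (c3 : L ≤ t + x + 4)
    (c4 : t + x + y + 6 ≤ N + L)
    (c5 : L ≠ x + y + 5)
    (c6 : 2 * t + x + y + 5 ≠ N + L) :
    P (A N t) N x y L := by
  exact qr23 hD ⟨c0, c1, c2, c3, c4, c5, c6, trivial⟩

/-- hypotheses -/
noncomputable def kr24 : List Fk.C :=
  [.le (.add (.mul 3 .t) (.k 5)) (.add (.add .x .y) .L), .le (.add .t (.k 1)) .y, .le .x .t, .le .y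
  (.add .t (.k 1)), .le (.add .y .L) (.add (.mul 3 .t) (.k 4)), .ne (.add (.add .x .y) .L) (.add
  (.mul 4 .t) (.k 5)), .ne (.add (.add .x .y) .L) (.add (.add .N (.mul 2 .t)) (.k 5))]

theorem qr24 {N t x y L : ℤ} (hD : D N t) : Fk.All ⟨N, t, x, y, L⟩ kr24 → P (A N t) N x y L :=
  Fk.route (fam hD x y L) kr24 .y (.up .x .t)
    [(4, .up (.sub .N .t) (.sub .N (.k 1))), (2, .up (.k 0) (.sub (.sub (.add (.add .x .y) .L)
    (.mul 3 .t)) (.k 5))), (0, .pt .N), (1, .dn (.add .t (.k 1)) .y)]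
    [.f 575534006402, .f 8650880, .f 2361220396690102943881, .f 128, .f 128, .f
    2361220396690102943881, .f 36029363963166854, .f 128, .f 128, .f 128, .f 128, .f 128, .f
    8978560, .f 128, .f 8519808, .f 2361256425487130296457, .f 128, .f 128, .f 128, .f 128, .f
    38562638753497222, .f 8781953, .f 9109632, .f 128, .f 8519808, .f 2361256425487130296457, .f
    824642371718, .f 54043762472910985, .f 128, .f 128, .f 2527277122691682140299, .f 128, .f
    2527275996250601029761, .f 2361220396694397649030, .f 8716416, .f 2361220396690102943881, .f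
    36029363963166854, .f 2361220396690102943881, .f 128, .f 8978624, .f 128, .f 128, .f
    2527240248937148448902, .f 36873771713560710, .f 8978561, .f 8585344, .f 128, .f 128, .f 128,
    .f 128]
    (by decide +kernel)

theorem rT24 {N t x y L : ℤ} (hD : D N t)
    (c0 : 3 * t + 5 ≤ x + y + L)
    (c1 : t + 1 ≤ y)
    (c2 : x ≤ t)
    (c3 : y ≤ t + 1)
    (c4 : y + L ≤ 3 * t + 4)
    (c5 : x + y + L ≠ 4 * t + 5)
    (c6 : x + y + L ≠ N + 2 * t + 5) :
    P (A N t) N x y L := by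
  exact qr24 hD ⟨c0, c1, c2, c3, c4, c5, c6, trivial⟩

/-- hypotheses -/
noncomputable def kr25 : List Fk.C :=
  [.le .N (.add .y .L), .le (.add .x (.k 1)) .y, .le (.add .y (.k 3)) .N, .le (.add .y .L) (.add .N
  .x), .ne (.k 3) .t, .ne (.add .y .L) (.add .t .x), .ne (.add (.add .t .y) .L) (.add .N .x)]

theorem qr25 {N t x y L : ℤ} (hD : D N t) : Fk.All ⟨N, t, x, y, L⟩ kr25 → P (A N t) N x y L :=
  Fk.route (fam hD x y L) kr25 .y (.dn .x (.sub (.sub (.add .N .x) .y) .L))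
    [(0, .pt .N), (1, .dn (.sub .N (.k 3)) .y)]
    [.f 8716416, .f 8519808, .f 549764464771, .f 128, .f 128, .f 9109632, .f 128, .f 8716416, .f
    36029363963166851, .s 8 (.f 8454272) (.f 12648576), .s 7 (.f 8454272) (.f 12648576), .f 128, .f
    128, .f 562649104516, .f 36873771713429637, .f 8650880, .f 128, .f 9109632, .f 128, .f
    588419629312, .s 6 (.f 8454272) (.f 12648576), .f 128, .f 128, .f 129, .f 8585344, .f 128, .f
    128, .f 128, .f 128]
    (by decide +kernel)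

theorem rT25 {N t x y L : ℤ} (hD : D N t)
    (c0 : N ≤ y + L)
    (c1 : x + 1 ≤ y)
    (c2 : y + 3 ≤ N)
    (c3 : y + L ≤ N + x)
    (c4 : (3 : ℤ) ≠ t)
    (c5 : y + L ≠ t + x)
    (c6 : t + y + L ≠ N + x) :
    P (A N t) N x y L := by
  exact qr25 hD ⟨c0, c1, c2, c3, c4, c5, c6, trivial⟩

/-- hypotheses -/
noncomputable def kr26 : List Fk.C :=
  [.le (.add .N (.k 7)) (.add (.add .x .y) .L), .le (.add .N (.k 1)) (.add .t .y), .le (.add .t (.k
  1)) .x, .le .y (.add .t (.k 3)), .le (.add .t .x) .N, .le (.add (.add .x .y) .L) (.add (.add .N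
  .t) (.k 7)), .ne (.add (.add .x .y) .L) (.add (.mul 2 .t) (.k 7)), .ne (.add (.add .x .y) .L)
  (.add .N (.k 7))]

theorem qr26 {N t x y L : ℤ} (hD : D N t) : Fk.All ⟨N, t, x, y, L⟩ kr26 → P (A N t) N x y L :=
  Fk.route (fam hD x y L) kr26 .y (.up .x (.sub .N .t))
    [(5, .dn .t (.add (.sub (.sub (.sub (.add .N .t) .x) .y) .L) (.k 7))), (0, .pt .N), (1, .dn
    (.add .t (.k 3)) .y)]
    [.f 37155246690140295, .f 8781952, .f 36873793188921600, .f 128, .f 128, .f 8847488, .f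
    8519808, .f 2361220959640056430724, .f 128, .f 128, .f 128, .f 128, .f 8650881, .f 9175168, .f
    128, .f 8847488, .f 2361220960189812244612, .s 9 (.f 8454272) (.f 12648576), .f
    37155272459944128, .f 128, .f 128, .f 2435007935930607599751, .f 36874321469898885, .f
    159580569410090691117383815, .f 8716416, .f 1099520802954, .f 549764661378, .f 1099520802954,
    .f 128, .f 9109632, .f 128, .f 128, .f 37155800741183628, .f 37155246690402435, .f 8585344, .f
    128, .f 128, .f 128, .f 128]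
    (by decide +kernel)

theorem rT26 {N t x y L : ℤ} (hD : D N t)
    (c0 : N + 7 ≤ x + y + L)
    (c1 : N + 1 ≤ t + y)
    (c2 : t + 1 ≤ x)
    (c3 : y ≤ t + 3)
    (c4 : t + x ≤ N)
    (c5 : x + y + L ≤ N + t + 7)
    (c6 : x + y + L ≠ 2 * t + 7)
    (c7 : x + y + L ≠ N + 7) :
    P (A N t) N x y L := by
  exact qr26 hD ⟨c0, c1, c2, c3, c4, c5, c6, c7, trivial⟩

/-- hypotheses -/
noncomputable def kr27 : List Fk.C :=
  [.le (.add (.add .N .t) (.k 4)) (.add (.add .x .y) .L), .le (.add .t (.k 2)) .y, .le .x (.add .t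
  (.k 1)), .le (.add .y (.k 1)) .N, .le (.add .y .L) (.add (.add .N .t) (.k 3)), .ne (.add (.add .x
  .y) .L) (.add (.add .N (.mul 2 .t)) (.k 4)), .ne (.add (.add .x .y) .L) (.add (.mul 2 .N) (.k
  4))]

theorem qr27 {N t x y L : ℤ} (hD : D N t) : Fk.All ⟨N, t, x, y, L⟩ kr27 → P (A N t) N x y L :=
  Fk.route (fam hD x y L) kr27 .y (.up .x (.add .t (.k 1)))
    [(0, .pt .N), (1, .dn (.sub (.sub (.sub (.add (.add .x .y) .L) .N) .t) (.k 4)) (.k 0)), (3, .dn
    (.sub .N (.k 1)) .y)]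
    [.f 575534006402, .f 8650880, .f 549764530307, .f 128, .f 128, .f 9109632, .f 128, .f
    36029363963166854, .f 549764530307, .f 128, .f 8978624, .f 128, .f 128, .f 562649104517, .f
    128, .f 8519808, .f 2471901142615926505603, .f 8519808, .f 2471901142615926505603, .s 7 (.f
    12648576) (.f 8454272), .f 38562638757625990, .f 128, .f 128, .f 2416560910394797916294, .f
    8781953, .f 2361220396694397649030, .f 8716416, .f 128, .f 128, .f 128, .f 128, .f 128, .f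
    37718213823496320, .f 129, .f 8585344, .f 128, .f 128, .f 128, .f 128]
    (by decide +kernel)

theorem rT27 {N t x y L : ℤ} (hD : D N t)
    (c0 : N + t + 4 ≤ x + y + L)
    (c1 : t + 2 ≤ y)
    (c2 : x ≤ t + 1)
    (c3 : y + 1 ≤ N)
    (c4 : y + L ≤ N + t + 3)
    (c5 : x + y + L ≠ N + 2 * t + 4)
    (c6 : x + y + L ≠ 2 * N + 4) :
    P (A N t) N x y L := by
  exact qr27 hD ⟨c0, c1, c2, c3, c4, c5, c6, trivial⟩


/-- table of hypotheses -/
noncomputable def tabr : List (List Fk.C) :=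
  [kr0, kr1, kr2, kr3, kr4, kr5, kr6, kr7, kr8, kr9, kr10, kr11, kr12, kr13, kr14, kr15, kr16,
  kr17, kr18, kr19, kr20, kr21, kr22, kr23, kr24, kr25, kr26, kr27]

theorem tbr {N t x y L : ℤ} (hD : D N t) : Fk.Tab ⟨N, t, x, y, L⟩ (P (A N t) N x y L) tabr :=
  ⟨qr0 hD, qr1 hD, qr2 hD, qr3 hD, qr4 hD, qr5 hD, qr6 hD, qr7 hD, qr8 hD, qr9 hD, qr10 hD, qr11
  hD, qr12 hD, qr13 hD, qr14 hD, qr15 hD, qr16 hD, qr17 hD, qr18 hD, qr19 hD, qr20 hD, qr21 hD,
  qr22 hD, qr23 hD, qr24 hD, qr25 hD, qr26 hD, qr27 hD, trivial⟩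

theorem rn1 {N t x y L : ℤ} (hD : D N t)
    (h0 : (0 : ℤ) ≤ x)
    (h1 : x + 1 ≤ y)
    (h2 : y + 1 ≤ N)
    (h3 : (5 : ℤ) ≤ L)
    (h4 : L ≤ N + 1)
    (h5 : x + L ≤ N + 1) :
    P (A N t) N x y L := by
  exact Fk.tree (fam hD x y L) (tbr hD)
    [.le (.k 0) .x, .le (.add .x (.k 1)) .y, .le (.add .y (.k 1)) .N, .le (.k 5) .L, .le .L (.add
    .N (.k 1)), .le (.add .x .L) (.add .N (.k 1))]
    (.nd (.add .y .L) (.add .N (.k 2)) (.nd (.add .N (.k 4)) (.add (.add .t .y) .L) (.nd (.add .x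
    (.k 1)) .t (.lf 0 [.f 8781952, .f 8913024, .f 8716416, .f 8650880, .f 8519872, .f 562649104523,
    .f 558354858176, .f 8585344]) (.nd (.add .x (.k 5)) (.add .t .L) (.nd (.add (.add .N .x) (.k
    5)) (.add (.add (.mul 2 .t) .y) .L) (.lf 1 [.f 8650880, .f 8913024, .f 8585344, .f
    549764464774, .f 36029363963232392, .f 8519808]) (.lf 2 [.f 8650880, .f 8913024, .f 8585344, .f
    575534268544, .f 36029363963560067, .f 8519872])) (.nd (.add .N (.k 1)) (.add .t .x) (.lf 0 [.f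
    8913024, .f 9044096, .f 8847488, .f 8781952, .f 549764857987, .f 38281739302535296, .f 8519808,
    .f 8716416]) (.lf 3 [.f 549764857987, .f 8913024, .f 36592339686260878, .f 36029389733036166,
    .f 558354464896, .f 39970039406788744])))) (.nd (.add (.add .t .y) .L) (.add .N (.k 2)) (.nd
    (.add .y .L) (.add .t (.k 2)) (.lf 0 [.f 8847488, .f 8978560, .f 8781952, .f 8716416, .f
    54043783947812994, .f 8519872, .f 54043783947812995, .f 8585408]) (.nd (.add .x .L) (.add .t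
    (.k 1)) (.lf 4 [.f 8585344, .f 8847488, .f 8519808, .f 39970039406788740, .f
    2619476502571900731524, .f 37155289643876482]) (.nd (.add .y .L) (.add (.add .t .x) (.k 2))
    (.lf 5 [.f 8650880, .f 8978560, .f 40251518678466693, .f 8519808, .f 588419629184, .f
    3541813987736654774405]) (.lf 6 [.f 8519808, .f 8978560, .f 8913024, .f 36029394028789893, .f
    584124399744, .f 4814690276364637896848, .f 232116321501998252861358341])))) (.lf 7 [.f
    36873797492277376, .f 8716416, .f 36873806073823360, .f 558354137355, .f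
    4777744996263144718604, .f 4777744996263158087808]))) (.nd (.add (.add .N .t) (.k 3)) (.add
    (.add .x .y) .L) (.nd (.add (.mul 2 .N) (.k 3)) (.add (.add (.add .t .x) .y) .L) (.lf 8 [.f
    8650880, .f 8716416, .f 9044096, .f 8847488, .f 8585344, .f 8519808]) (.nd (.add .N (.k 1))
    (.add .t .y) (.nd (.add .N (.k 3)) (.add (.add .t .x) .L) (.nd .x .t (.lf 9 [.f 8650880, .f
    8585344, .f 8913024, .f 8519808, .f 8716416, .f 2361220959652941136003, .f 566944071811]) (.lf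
    1 [.f 8519808, .f 8978560, .f 2637922402212086743173, .f 40251492917182592, .f
    2361257269920641777925, .f 172878882552778644439433355])) (.lf 8 [.f 8781952, .f 8847488, .f
    9175168, .f 8978560, .f 8716416, .f 824642699394])) (.lf 8 [.f 8716416, .f 8781952, .f 9109632,
    .f 8913024, .f 8650880, .f 824642240651]))) (.nd (.add (.add .x .y) .L) (.add (.add .N .t) (.k
    1)) (.lf 8 [.f 8650880, .f 8716416, .f 9044096, .f 8847488, .f 8519872, .f 824642240651]) (.nd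
    (.add .x .L) .N (.nd (.add .y (.k 2)) .N (.lf 10 [.f 8781952, .f 8847488, .f 8585344, .f
    8519808, .f 8650880, .f 571239891136]) (.nd (.add (.add .N .x) .L) (.add (.mul 2 .t) .y) (.lf
    11 [.f 571239694464, .f 562649104516, .f 8913024, .f 36873797483102347, .f 9044096, .f
    549764333710, .f 8519808]) (.lf 12 [.f 2361256989540890640514, .f 36873771713822852, .f
    8913024, .f 9044096, .f 2471936608445821091982, .c (.add .t (.k 3)) .L (.f 579837362369) (.f
    554067558534)]))) (.lf 13 [.f 597009039488, .f 2453456369408228458624, .f 8781952, .f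
    36873827547873547, .f 36592313916457100, .f 36873827552067851, .f 1146768851075])))))
    (by decide +kernel) ⟨h0, h1, h2, h3, h4, h5, trivial⟩

theorem rn2 {N t x y L : ℤ} (hD : D N t)
    (h0 : (0 : ℤ) ≤ x)
    (h1 : x + 1 ≤ y)
    (h2 : y + 1 ≤ N)
    (h3 : (5 : ℤ) ≤ L)
    (h4 : L ≤ N + 1)
    (h5 : ¬ (x + L ≤ N + 1)) :
    P (A N t) N x y L := by
  exact Fk.tree (fam hD x y L) (tbr hD)
    [.le (.k 0) .x, .le (.add .x (.k 1)) .y, .le (.add .y (.k 1)) .N, .le (.k 5) .L, .le .L (.add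
    .N (.k 1)), .nle (.add .x .L) (.add .N (.k 1))]
    (.nd (.add .N (.k 2)) (.add .t .y) (.nd (.add .x .L) (.add (.add .N .t) (.k 1)) (.lf 14 [.f
    8978560, .f 8716416, .f 8781952, .f 8913024, .f 549764399242, .f 8585344, .f 8519872, .f
    558358331530]) (.nd (.add (.add .N .t) (.k 3)) (.add .x .L) (.nd (.add (.mul 2 .N) (.k 3))
    (.add (.add .t .x) .L) (.lf 14 [.f 9109632, .f 8847488, .f 8913024, .f 9044096, .f
    36029376848134282, .f 8716416, .f 8585344, .f 8519808]) (.nd (.add (.mul 2 .N) (.k 3)) (.add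
    (.add .t .y) .L) (.nd (.add .N (.k 1)) (.add .t .x) (.lf 15 [.f 8585344, .f 8519808, .f
    9044096, .f 8650880, .f 2398112758946205073539, .f 558354137219]) (.lf 14 [.f 9240704, .f
    8978560, .f 9044096, .f 9175168, .f 37155276754780293, .f 8847488, .f 8716416, .f
    824642896002])) (.lf 14 [.f 9175168, .f 8913024, .f 8978560, .f 9109632, .f 36873797483364480,
    .f 8781952, .f 8650880, .f 558354661568]))) (.nd (.add (.add .N .t) (.k 4)) (.add .y .L) (.nd
    (.add .t (.k 2)) .x (.nd (.add (.mul 2 .N) (.k 5)) (.add (.add .x .y) .L) (.lf 16 [.f 8650880,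
    .f 8585344, .f 9044096, .f 8716416, .f 562649366656, .f 8519808]) (.lf 17 [.f
    2398116981620611219594, .f 8978560, .f 8913024, .f 36592361161097475, .f 37436721675370634, .f
    157162994470333710034272394])) (.lf 18 [.f 36029359668396171, .f 549764923525, .f 8519808, .f
    609894006912, .f 8978560, .f 2601028351114713694347, .f 37436777501687936])) (.lf 19 [.f
    2361221522611484491909, .f 8847488, .f 8913024, .f 36592339686523008, .f 37155281058594944, .f
    2601029195556823499015])))) (.nd (.add .y (.k 3)) .L (.nd .L (.add (.add .t .y) (.k 1)) (.nd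
    (.add .x (.k 2)) .t (.lf 20 [.f 8847488, .f 8650880, .f 8781952, .f 9044096, .f 8519872, .f
    8585408, .f 824642240652, .f 824642896003]) (.nd (.add .y .L) (.add (.add .N .x) (.k 2)) (.lf
    19 [.f 601304334464, .f 8913024, .f 8978560, .f 8519808, .f 36029368266915971, .f
    2619475095239979958528]) (.nd (.add .t .L) (.add (.add .N .x) (.k 1)) (.nd .x .t (.lf 21 [.f
    562649366656, .f 8978560, .f 558354595968, .f 8519808, .f 8585344, .f 40532963598991552, .f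
    1112405180608]) (.lf 22 [.f 174090169555354341561729280, .f 2656403204775157563526, .f 8519808,
    .f 36029363963429128, .f 2656368301860874682632, .f 4759297970705864720512, .f
    174087808372112356983308416])) (.lf 23 [.f 37155246690336898, .f 8913024, .f 558354923648, .f
    40251471434612868, .f 2398112758989155205254, .f 566948266117, .f 40251492908925056])))) (.nd
    .y .t (.lf 14 [.f 9109632, .f 8847488, .f 8913024, .f 9044096, .f 8519872, .f 592714072256, .f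
    38844371428638850, .f 54043758178009354]) (.lf 24 [.f 2361220115764882374794, .f 8519808, .f
    2416561473327572254858, .f 36873771714150538, .f 36873771722342669, .f 2490383352794417267082,
    .f 2490364494258732073354]))) (.nd (.add .y .L) (.add .N .x) (.nd (.add .y (.k 3)) .N (.nd (.k
    4) .t (.lf 25 [.f 601304334464, .f 8913024, .f 8585344, .f 8650880, .f 8519872, .f
    74309995155423366, .f 2471938015872236257408]) (.lf 1 [.f 169252160469351371615764612, .f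
    8913024, .f 157162939168382055665762563, .f 566944202880, .f 584124596352, .f
    2619473688397655834755])) (.lf 26 [.f 39125580117835904, .f 72621153885946112, .f
    2564134018555257553036, .f 571239039117, .f 571239497856, .f 157167532407374934375727235, .f
    2582618761750823174272, .f 39125580117835904])) (.nd .x (.add .t (.k 1)) (.nd (.add (.add .x
    .y) .L) (.add (.add .N (.mul 2 .t)) (.k 3)) (.lf 27 [.f 325203591164173787624899072, .f
    169259059517858525907058820, .f 8585344, .f 8978560, .f 4722512287521787740421, .f 8519872, .f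
    160796689496487179797528711]) (.lf 17 [.f 36029385446457474, .f 8913024, .f 8847488, .f
    154745142831669046619799813, .f 2361292173358928560261, .f 160803717704289103319662860])) (.lf
    2 [.f 8519808, .f 8847488, .f 4722440792869104189582, .f 2435006810597628051597, .f
    549764661385, .f 36029402618658947])))))
    (by decide +kernel) ⟨h0, h1, h2, h3, h4, h5, trivial⟩


theorem rn0 {N t x y L : ℤ} (hD : D N t)
    (h0 : (0 : ℤ) ≤ x)
    (h1 : x + 1 ≤ y)
    (h2 : y + 1 ≤ N)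
    (h3 : (5 : ℤ) ≤ L)
    (h4 : L ≤ N + 1) :
    P (A N t) N x y L := by
  obtain ⟨d0, d1, d2⟩ := id hD
  by_cases h5 : x + L ≤ N + 1
  · exact rn1 hD h0 h1 h2 h3 h4 h5
  · exact rn2 hD h0 h1 h2 h3 h4 h5

end Pool.Agent.Work.MP_193ce1_co.Rim.Fp
end

-- merged part: Pool.Agent.Work.MP_193ce1_co.Rim.FpH
section
set_option linter.unusedVariables false

namespace Pool.Agent.Work.MP_193ce1_co.Rim.Fp

/-- hypotheses -/
noncomputable def kh0 : List Fk.C :=
  [.le (.add .N (.k 2)) (.add .x .L), .le (.add .x (.k 1)) .N, .le .L (.add .N (.k 1)), .ne (.add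
  .x .L) (.add (.add .N .t) (.k 2)), .ne (.add (.add .t .x) .L) (.add (.mul 2 .N) (.k 2))]

theorem qh0 {N t x L : ℤ} (hD : D N t) : Fk.All ⟨N, t, x, 0, L⟩ kh0 → P (A N t) N x N L :=
  Fk.route (fam hD x 0 L) kh0 .N (.up .x (.sub .N (.k 1)))
    [(2, .up (.k 0) (.sub (.sub (.add .x .L) .N) (.k 2))), (0, .pt .N)]
    [.f 549764333700, .f 8585344, .f 128, .f 128, .f 128, .f 128, .f 8519808, .f 549764399236, .f
    128, .f 128, .f 128, .f 128, .f 8650881, .f 8978560, .f 128, .f 8519808, .f 549764399236, .s 5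
    (.f 12648576) (.f 8454272), .s 6 (.f 12648576) (.f 8454272), .f 128, .f 128, .f 566944268416,
    .f 128, .f 128, .f 128, .f 128, .f 128]
    (by decide +kernel)

theorem hT0 {N t x L : ℤ} (hD : D N t)
    (c0 : N + 2 ≤ x + L)
    (c1 : x + 1 ≤ N)
    (c2 : L ≤ N + 1)
    (c3 : x + L ≠ N + t + 2)
    (c4 : t + x + L ≠ 2 * N + 2) :
    P (A N t) N x N L := by
  exact qh0 hD ⟨c0, c1, c2, c3, c4, trivial⟩

/-- hypotheses -/
noncomputable def kh1 : List Fk.C :=
  [.le (.add .x (.k 3)) .L, .le (.k 0) .x, .le .L (.add .N (.k 1)), .ne .L (.add (.add .t .x) (.k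
  2)), .ne (.add .t .L) (.add (.add .N .x) (.k 2))]

theorem qh1 {N t x L : ℤ} (hD : D N t) : Fk.All ⟨N, t, x, 0, L⟩ kh1 → P (A N t) N x N L :=
  Fk.route (fam hD x 0 L) kh1 .N (.dn .x (.k 0))
    [(3, .dn (.sub .N (.k 1)) (.add (.sub (.add .N .x) .L) (.k 2))), (0, .pt .N)]
    [.f 128, .f 8585344, .f 549764333700, .f 128, .f 128, .f 549764399236, .f 8519808, .f 128, .f
    128, .f 128, .f 128, .f 128, .f 8650880, .f 8978560, .f 128, .f 549764399236, .f 8519808, .s 6
    (.f 8454272) (.f 12648576), .s 5 (.f 8454272) (.f 12648576), .f 128, .f 128, .f 128, .f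
    566944202880, .f 128, .f 128, .f 128, .f 128]
    (by decide +kernel)

theorem hT1 {N t x L : ℤ} (hD : D N t)
    (c0 : x + 3 ≤ L)
    (c1 : (0 : ℤ) ≤ x)
    (c2 : L ≤ N + 1)
    (c3 : L ≠ t + x + 2)
    (c4 : t + L ≠ N + x + 2) :
    P (A N t) N x N L := by
  exact qh1 hD ⟨c0, c1, c2, c3, c4, trivial⟩

/-- hypotheses -/
noncomputable def kh2 : List Fk.C :=
  [.le (.k 2) .L, .le .L (.add .x (.k 2)), .le (.add .x (.k 1)) .N, .ne (.add .x (.k 2)) (.add .t
  .L), .ne (.add (.add .t .x) (.k 2)) (.add .N .L)]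

theorem qh2 {N t x L : ℤ} (hD : D N t) : Fk.All ⟨N, t, x, 0, L⟩ kh2 → P (A N t) N x N L :=
  Fk.route (fam hD x 0 L) kh2 .N (.dn .x (.add (.sub .x .L) (.k 2)))
    [(0, .pt .N)]
    [.f 8585344, .f 8519808, .f 8650880, .f 128, .f 128, .f 8978560, .f 128, .f 8585344, .f
    549764333700, .s 5 (.f 12648576) (.f 8454272), .s 6 (.f 12648576) (.f 8454272), .f 128, .f 128,
    .f 8650880, .f 128, .f 128, .f 128, .f 128]
    (by decide +kernel)

theorem hT2 {N t x L : ℤ} (hD : D N t)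
    (c0 : (2 : ℤ) ≤ L)
    (c1 : L ≤ x + 2)
    (c2 : x + 1 ≤ N)
    (c3 : x + 2 ≠ t + L)
    (c4 : t + x + 2 ≠ N + L) :
    P (A N t) N x N L := by
  exact qh2 hD ⟨c0, c1, c2, c3, c4, trivial⟩

/-- hypotheses -/
noncomputable def kh3 : List Fk.C :=
  [.le .N (.add .t .x), .le (.add .N .L) (.add (.add (.mul 2 .t) .x) (.k 3)), .le (.add (.add .t
  .x) (.k 3)) (.add .N .L), .le (.add .x (.k 1)) .N, .ne (.add (.add .t .x) (.k 3)) (.add .N .L),
  .ne (.add (.add (.mul 3 .t) .x) (.k 3)) (.add (.mul 2 .N) .L)]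

theorem qh3 {N t x L : ℤ} (hD : D N t) : Fk.All ⟨N, t, x, 0, L⟩ kh3 → P (A N t) N x N L :=
  Fk.route (fam hD x 0 L) kh3 .N (.dn .x (.sub .N .t))
    [(5, .dn .t (.add (.sub (.sub (.add (.mul 2 .t) .x) .N) .L) (.k 3))), (0, .pt .N)]
    [.f 38281155186786437, .f 8519808, .f 8716416, .f 128, .f 128, .f 8585344, .f 8650880, .f
    36029381143036037, .f 128, .f 128, .f 128, .f 128, .f 8913025, .f 9044096, .f 128, .f 8585344,
    .f 2361220396715872485509, .s 6 (.f 12648576) (.f 8454272), .f 824642371720, .f 128, .f 128, .f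
    72058178162065537, .f 8716416, .f 128, .f 128, .f 128, .f 128]
    (by decide +kernel)

theorem hT3 {N t x L : ℤ} (hD : D N t)
    (c0 : N ≤ t + x)
    (c1 : N + L ≤ 2 * t + x + 3)
    (c2 : t + x + 3 ≤ N + L)
    (c3 : x + 1 ≤ N)
    (c4 : t + x + 3 ≠ N + L)
    (c5 : 3 * t + x + 3 ≠ 2 * N + L) :
    P (A N t) N x N L := by
  exact qh3 hD ⟨c0, c1, c2, c3, c4, c5, trivial⟩

/-- hypotheses -/
noncomputable def kh4 : List Fk.C :=
  [.le .N (.add .t .x), .le .L (.add (.mul 2 .t) (.k 2)), .le (.add (.add (.mul 2 .t) .x) (.k 4))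
  (.add .N .L), .ne .L (.add (.add .t .x) (.k 3)), .ne (.add (.add (.mul 3 .t) .x) (.k 3)) (.add .N
  .L)]

theorem qh4 {N t x L : ℤ} (hD : D N t) : Fk.All ⟨N, t, x, 0, L⟩ kh4 → P (A N t) N x N L :=
  Fk.route (fam hD x 0 L) kh4 .N (.dn .x (.sub .N .t))
    [(5, .dn .t (.k 0)), (3, .dn (.sub .N (.k 1)) (.add (.sub (.add (.mul 2 .t) .x) .L) (.k 3))),
    (0, .pt .N)]
    [.f 2490347605206069411971, .f 8519808, .f 549764399236, .f 128, .f 128, .f 128, .f
    36029359668330626, .f 2361220115223715905671, .f 128, .f 128, .f 128, .f 128, .f 8847489, .f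
    4777742744467630325892, .f 8650880, .f 128, .f 128, .f 128, .f 128, .f 128, .f
    36873771713757314, .f 8585344, .f 8978560, .f 128, .f 4777742744467630325892, .f 8650880, .f
    36029376848068739, .f 562649235584, .f 128, .f 128, .f 128, .f 579837362313, .f 562649104516,
    .f 128, .f 128, .f 128, .f 128]
    (by decide +kernel)

theorem hT4 {N t x L : ℤ} (hD : D N t)
    (c0 : N ≤ t + x)
    (c1 : L ≤ 2 * t + 2)
    (c2 : 2 * t + x + 4 ≤ N + L)
    (c3 : L ≠ t + x + 3)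
    (c4 : 3 * t + x + 3 ≠ N + L) :
    P (A N t) N x N L := by
  exact qh4 hD ⟨c0, c1, c2, c3, c4, trivial⟩

/-- hypotheses -/
noncomputable def kh5 : List Fk.C :=
  [.le .t .x, .le (.add .x (.k 3)) .L, .le .L (.add (.add .t .x) (.k 2)), .le (.add (.add .t .x)
  (.k 1)) .N, .ne .L (.add (.add .t .x) (.k 3)), .ne (.add .t .L) (.add (.add .N .x) (.k 3))]

theorem qh5 {N t x L : ℤ} (hD : D N t) : Fk.All ⟨N, t, x, 0, L⟩ kh5 → P (A N t) N x N L :=
  Fk.route (fam hD x 0 L) kh5 .N (.dn .x .t)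
    [(4, .up (.sub .N .t) (.sub .N (.k 1))), (2, .up (.k 0) (.sub (.sub .L .x) (.k 3))), (0, .pt
    .N)]
    [.f 549764399236, .f 8519808, .f 36029359668330629, .f 128, .f 128, .f 2361220115215126102149,
    .f 549764399236, .f 128, .f 128, .f 128, .f 128, .f 128, .f 8716416, .f 128, .f 8585344, .f
    2361220115215134490757, .f 128, .f 128, .f 128, .f 128, .f 37436730256916609, .f 8650881, .f
    9044096, .f 128, .f 8585344, .f 2361220115215134490757, .f 8650944, .f 54043753882845317, .f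
    128, .f 128, .f 2453489019955771080842, .f 128, .f 37436734551621764, .f 128, .f 128, .f 128,
    .f 128]
    (by decide +kernel)

theorem hT5 {N t x L : ℤ} (hD : D N t)
    (c0 : t ≤ x)
    (c1 : x + 3 ≤ L)
    (c2 : L ≤ t + x + 2)
    (c3 : t + x + 1 ≤ N)
    (c4 : L ≠ t + x + 3)
    (c5 : t + L ≠ N + x + 3) :
    P (A N t) N x N L := by
  exact qh5 hD ⟨c0, c1, c2, c3, c4, c5, trivial⟩

/-- hypotheses -/
noncomputable def kh6 : List Fk.C :=
  [.le (.k 2) .L, .le (.k 0) .x, .le (.add .x .L) (.add .N (.k 1)), .ne (.add .x .L) (.add .t (.k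
  2)), .ne (.add (.add .t .x) .L) (.add .N (.k 2))]

theorem qh6 {N t x L : ℤ} (hD : D N t) : Fk.All ⟨N, t, x, 0, L⟩ kh6 → P (A N t) N x N L :=
  Fk.route (fam hD x 0 L) kh6 .N (.up .x (.sub (.add .x .L) (.k 2)))
    [(0, .pt .N)]
    [.f 8585344, .f 8519808, .f 8650880, .f 128, .f 128, .f 8978560, .f 128, .f 549764333699, .f
    8650880, .s 5 (.f 12648576) (.f 8454272), .s 6 (.f 12648576) (.f 8454272), .f 128, .f 128, .f
    8650880, .f 128, .f 128, .f 128, .f 128]
    (by decide +kernel)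

theorem hT6 {N t x L : ℤ} (hD : D N t)
    (c0 : (2 : ℤ) ≤ L)
    (c1 : (0 : ℤ) ≤ x)
    (c2 : x + L ≤ N + 1)
    (c3 : x + L ≠ t + 2)
    (c4 : t + x + L ≠ N + 2) :
    P (A N t) N x N L := by
  exact qh6 hD ⟨c0, c1, c2, c3, c4, trivial⟩

/-- hypotheses -/
noncomputable def kh7 : List Fk.C :=
  [.le (.add .t (.k 3)) (.add .x .L), .le (.k 0) .x, .le .x .t, .le (.add .x .L) (.add (.mul 2 .t)
  (.k 2)), .ne (.add .x .L) (.add .t (.k 3)), .ne (.add (.mul 3 .t) (.k 3)) (.add (.add .N .x) .L)]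

theorem qh7 {N t x L : ℤ} (hD : D N t) : Fk.All ⟨N, t, x, 0, L⟩ kh7 → P (A N t) N x N L :=
  Fk.route (fam hD x 0 L) kh7 .N (.up .x .t)
    [(4, .up (.sub .N .t) (.sub (.sub (.add (.add .N .x) .L) (.mul 2 .t)) (.k 3))), (0, .pt .N)]
    [.f 8585344, .f 8650880, .f 36029355373428872, .f 128, .f 128, .f 36029355373428872, .f
    8519808, .f 8716416, .f 128, .f 128, .f 128, .f 128, .f 8913024, .f 9044096, .f 128, .f
    36029905129242760, .f 8716416, .f 549764333704, .s 6 (.f 12648576) (.f 8454272), .f 128, .f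
    128, .f 8716416, .f 36029368258134152, .f 128, .f 128, .f 128, .f 128]
    (by decide +kernel)

theorem hT7 {N t x L : ℤ} (hD : D N t)
    (c0 : t + 3 ≤ x + L)
    (c1 : (0 : ℤ) ≤ x)
    (c2 : x ≤ t)
    (c3 : x + L ≤ 2 * t + 2)
    (c4 : x + L ≠ t + 3)
    (c5 : 3 * t + 3 ≠ N + x + L) :
    P (A N t) N x N L := by
  exact qh7 hD ⟨c0, c1, c2, c3, c4, c5, trivial⟩


/-- table of hypotheses -/
noncomputable def tabh : List (List Fk.C) :=
  [kh0, kh1, kh2, kh3, kh4, kh5, kh6, kh7]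

theorem tbh {N t x L : ℤ} (hD : D N t) : Fk.Tab ⟨N, t, x, 0, L⟩ (P (A N t) N x N L) tabh :=
  ⟨qh0 hD, qh1 hD, qh2 hD, qh3 hD, qh4 hD, qh5 hD, qh6 hD, qh7 hD, trivial⟩

theorem hn0 {N t x L : ℤ} (hD : D N t)
    (h0 : (0 : ℤ) ≤ x)
    (h1 : x + 1 ≤ N)
    (h2 : (5 : ℤ) ≤ L)
    (h3 : L ≤ N + 1)
    (h4 : L ≠ t + 2) :
    P (A N t) N x N L := by
  exact Fk.tree (fam hD x 0 L) (tbh hD)
    [.le (.k 0) .x, .le (.add .x (.k 1)) .N, .le (.k 5) .L, .le .L (.add .N (.k 1)), .ne .L (.add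
    .t (.k 2))]
    (.nd (.add .N (.k 2)) (.add .x .L) (.nd (.add .x .L) (.add (.add .N .t) (.k 1)) (.lf 0 [.f
    8585344, .f 8716416, .f 8847488, .f 8519872, .f 824642240649]) (.nd (.add (.add .N .t) (.k 3))
    (.add .x .L) (.nd (.add (.mul 2 .N) (.k 3)) (.add (.add .t .x) .L) (.lf 0 [.f 8716416, .f
    8847488, .f 8978560, .f 8585344, .f 8519808]) (.nd (.add .x (.k 3)) .L (.lf 1 [.f 8519808, .f
    8847488, .f 9044096, .f 39688538669318336, .f 824651153540]) (.lf 2 [.f 8978560, .f 8519808, .f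
    8913024, .f 39688538669187264, .f 1133880017088]))) (.nd (.add .N .L) (.add (.add (.mul 2 .t)
    .x) (.k 3)) (.lf 3 [.f 558362525829, .f 8519808, .f 566952919168, .f 8847488, .f 824642371847,
    .f 39126151347830976]) (.nd .N (.add .t .x) (.lf 4 [.f 8519808, .f 549764333700, .f 8585344, .f
    824642764930, .f 549772722308]) (.lf 5 [.f 592714203264, .f 7120480649723318698121, .f
    36029939488981133, .f 8519808, .f 54043766768337162, .f 824642437386]))))) (.nd (.add .N (.k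
    3)) (.add (.add .t .x) .L) (.lf 6 [.f 8781952, .f 8650880, .f 8585344, .f 558354137225, .f
    8519808]) (.nd (.add (.add .t .x) .L) (.add .N (.k 1)) (.nd (.add .x .L) (.add .t (.k 1)) (.lf
    6 [.f 8913024, .f 8781952, .f 8716416, .f 8519872, .f 8585408]) (.nd (.add .x (.k 3)) .L (.lf 1
    [.f 8519808, .f 8847488, .f 9044096, .s 11 (.f 828937339136) (.f 36310881897808005), .f
    566952919232]) (.lf 2 [.f 8978560, .f 8519808, .f 8913024, .f 39688796367290500, .f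
    824651088004]))) (.lf 7 [.f 558354137226, .f 8716416, .f 36873801778790528, .f
    72059290566983820, .f 558354137226, .f 558358331658]))))
    (by decide +kernel) ⟨h0, h1, h2, h3, h4, trivial⟩



variable {N t : ℤ} {f : ℤ → ℤ}

theorem thread (c d : ℤ) (h : A N t c d) (hN : c ≠ N)
    (l0 : c ≠ (0 : ℤ))
    (l1 : c ≠ N - 1)
    (l2 : c ≠ t)
    (l3 : c ≠ N - t)
    : d = c + 1 ∨ d = c - 1 ∨ d = N ∨ d = 0 := by
  rcases h.2 with (⟨a1, a2, a3⟩ | ⟨a1, a2⟩ | ⟨a1, a2⟩ | ⟨a1, a2⟩) | (⟨a1, a2, a3⟩ | ⟨a1, a2⟩ | ⟨a1, a2⟩ | ⟨a1, a2⟩) <;> omega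

theorem nb (h : W (A N t) 0 N (t + 1) f) (hD : D N t) (i : ℤ) (h0 : 0 ≤ i) (h1 : i < t) :
    (f (i + 1) = f i + 1 ∧ f i + 1 < N) ∨
    (f (i + 1) = f i - 1 ∧ 1 ≤ f i) ∨
    (f i = N - 1 ∧ f (i + 1) = (0 : ℤ)) ∨
    (f i = (0 : ℤ) ∧ f (i + 1) = N - 1) ∨
    (f i = t ∧ f (i + 1) = N - t) ∨
    (f i = N - t ∧ f (i + 1) = t) := by
  have e1 : f i ≠ N := fun e => by
    have := h.inj i (t + 1) (by omega) (by omega) (by omega) (by omega) (by rw [h.hT]; exact e)
    omega
  have e2 : f (i + 1) ≠ N := fun e => by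
    have := h.inj (i + 1) (t + 1) (by omega) (by omega) (by omega) (by omega) (by rw [h.hT]; exact e)
    omega
  rcases (h.adj i h0 (by omega)).2 with (⟨a1, a2, a3⟩ | ⟨a1, a2⟩ | ⟨a1, a2⟩ | ⟨a1, a2⟩) | (⟨a1, a2, a3⟩ | ⟨a1, a2⟩ | ⟨a1, a2⟩ | ⟨a1, a2⟩)
  · exact (Or.inl ⟨by omega, by omega⟩)
  · exact absurd a1 e1
  · exact (Or.inr (Or.inr (Or.inl ⟨a1, a2⟩)))
  · exact (Or.inr (Or.inr (Or.inr (Or.inr (Or.inl ⟨a1, a2⟩)))))
  · exact (Or.inr (Or.inl ⟨by omega, by omega⟩))
  · exact absurd a1 e2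
  · exact (Or.inr (Or.inr (Or.inr (Or.inl ⟨a2, a1⟩))))
  · exact (Or.inr (Or.inr (Or.inr (Or.inr (Or.inr ⟨a2, a1⟩)))))

theorem fin (h : W (A N t) 0 N (t + 1) f) (hD : D N t) {c : ℤ} (hv : V f t c)
    (e : c = t ∨ c = N - t) : False := by
  have h1 := h.adj t (by unfold D at hD; omega) (by omega)
  rw [h.hT, show f t = c from hv] at h1
  unfold D at hD
  rcases h1.2 with (⟨a1, a2, a3⟩ | ⟨a1, a2⟩ | ⟨a1, a2⟩ | ⟨a1, a2⟩) | (⟨a1, a2, a3⟩ | ⟨a1, a2⟩ | ⟨a1, a2⟩ | ⟨a1, a2⟩) <;> omega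

theorem nb0 (h : W (A N t) 0 N (t + 1) f) (hD : D N t) {i : ℤ} (hv : V f i (0 : ℤ))
    (e : 0 ≤ i ∧ i < t) :
    V f (i + 1) (1 : ℤ) ∨ V f (i + 1) (N - 1) := by
  have := nb h hD i e.1 e.2
  unfold V at *
  unfold D at hD
  omega

theorem th1 (hD : D N t) : Th (A N t) N 0 (0 : ℤ) t := by
  intro c d h1 h2 h3
  unfold D at hD
  exact thread c d h3 (by omega) (by omega) (by omega) (by omega) (by omega)

theorem nb2 (h : W (A N t) 0 N (t + 1) f) (hD : D N t) {i : ℤ} (hv : V f i (N - 1))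
    (e : 0 ≤ i ∧ i < t) :
    V f (i + 1) (N - 2) ∨ V f (i + 1) (0 : ℤ) := by
  have := nb h hD i e.1 e.2
  unfold V at *
  unfold D at hD
  omega

theorem th3 (hD : D N t) : Th (A N t) N 0 (N - t) (N - 1) := by
  intro c d h1 h2 h3
  unfold D at hD
  exact thread c d h3 (by omega) (by omega) (by omega) (by omega) (by omega)

theorem no (hD : D N t) (h : W (A N t) 0 N (t + 1) f) : False := by
  obtain ⟨d0, d1, d2⟩ := id hD
  have v0 : V f (0 : ℤ) (0 : ℤ) := h.h0
  rcases nb0 h hD v0 (by omega) with n1 | n1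
  · have r2 := h.ru v0 n1 (th1 hD) (by omega)
    have v3 := r2.at t t (by omega)
    exact fin h hD (v3.cast t (by omega)) (by omega)
  · have v4 := n1.cast (1 : ℤ) (by omega)
    rcases nb2 h hD v4 (by omega) with n5 | n5
    · have r6 := h.rd v4 n5 (th3 hD) (by omega)
      have v7 := r6.at t (N - t) (by omega)
      exact fin h hD (v7.cast t (by omega)) (by omega)
    · exact h.clash n5 v0 (by omega)

end Pool.Agent.Work.MP_193ce1_co.Rim.Fp
end

-- merged part: Pool.Agent.Work.MP_193ce1_co.Rim.FqD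
section
set_option linter.unusedVariables false

namespace Pool.Agent.Work.MP_193ce1_co.Rim.Fq

def D (N t : ℤ) : Prop :=
  2 * t + 3 ≤ N ∧ (1 : ℤ) ≤ t ∧ (7 : ℤ) ≤ N

def B (N t a b : ℤ) : Prop :=
  (0 ≤ a ∧ b = a + 1 ∧ b < N) ∨ (a = N ∧ 0 ≤ b ∧ b < N ∧ b ≠ t ∧ b ≠ N - t) ∨
    (a = N - 1 ∧ b = 0) ∨
    (a = t ∧ b = N - t) ∨
    (a = t + 1 ∧ b = N - t - 1)

def A (N t a b : ℤ) : Prop := a ≠ b ∧ (B N t a b ∨ B N t b a)

variable {N t : ℤ}

theorem rel (hD : D N t) : Rel (A N t) N :=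
  ⟨fun _ _ h => ⟨h.1.symm, h.2.symm⟩, fun _ h => h.1 rfl,
    fun a h0 h1 => ⟨by omega, Or.inl (Or.inl ⟨h0, rfl, h1⟩)⟩⟩

theorem hubB (hD : D N t) (e : ℤ) (h0 : 0 ≤ e) (h1 : e < N) (x0 : e ≠ t) (x1 : e ≠ N - t) : A N t N e :=
  ⟨by omega, Or.inl (Or.inr (Or.inl ⟨rfl, h0, h1, x0, x1⟩))⟩

theorem hubA (hD : D N t) (e : ℤ) (h0 : 0 ≤ e) (h1 : e < N) (x0 : e ≠ t) (x1 : e ≠ N - t) : A N t e N :=
  ⟨by omega, Or.inr (Or.inr (Or.inl ⟨rfl, h0, h1, x0, x1⟩))⟩

theorem ch0 (hD : D N t) : A N t (N - 1) 0 :=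
  ⟨by unfold D at hD; omega, Or.inl (Or.inr (Or.inr (Or.inl ⟨rfl, rfl⟩)))⟩

theorem ch1 (hD : D N t) : A N t 0 (N - 1) :=
  ⟨by unfold D at hD; omega, Or.inr (Or.inr (Or.inr (Or.inl ⟨rfl, rfl⟩)))⟩

theorem ch2 (hD : D N t) : A N t t (N - t) :=
  ⟨by unfold D at hD; omega, Or.inl (Or.inr (Or.inr (Or.inr (Or.inl ⟨rfl, rfl⟩))))⟩

theorem ch3 (hD : D N t) : A N t (N - t) t :=
  ⟨by unfold D at hD; omega, Or.inr (Or.inr (Or.inr (Or.inr (Or.inl ⟨rfl, rfl⟩))))⟩

theorem ch4 (hD : D N t) : A N t (t + 1) (N - t - 1) :=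
  ⟨by unfold D at hD; omega, Or.inl (Or.inr (Or.inr (Or.inr (Or.inr ⟨rfl, rfl⟩))))⟩

theorem ch5 (hD : D N t) : A N t (N - t - 1) (t + 1) :=
  ⟨by unfold D at hD; omega, Or.inr (Or.inr (Or.inr (Or.inr (Or.inr ⟨rfl, rfl⟩))))⟩

/-- vertices missed by the hub -/
noncomputable def fV : List Fk.E :=
  [.t, .sub .N .t]

/-- chords -/
noncomputable def fH : List (Fk.E × Fk.E) :=
  [(.sub .N (.k 1), .k 0), (.k 0, .sub .N (.k 1)), (.t, .sub .N .t), (.sub .N .t, .t), (.add .t (.k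
  1), .sub (.sub .N .t) (.k 1)), (.sub (.sub .N .t) (.k 1), .add .t (.k 1))]

/-- parameter range -/
noncomputable def fD : List Fk.C :=
  [.le (.add (.mul 2 .t) (.k 3)) .N, .le (.k 1) .t, .le (.k 7) .N]

theorem fam (hD : D N t) (x y L : ℤ) : Fk.Fam (A N t) ⟨N, t, x, y, L⟩ fV fH fD :=
  ⟨rel hD, fun e h0 h1 h => ⟨hubA hD e h0 h1 h.1 h.2.1,
    hubB hD e h0 h1 h.1 h.2.1⟩,
    ⟨ch0 hD, ch1 hD, ch2 hD, ch3 hD, ch4 hD, ch5 hD, trivial⟩, hD.1, hD.2.1, hD.2.2, trivial⟩

end Pool.Agent.Work.MP_193ce1_co.Rim.Fq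
end

-- merged part: Pool.Agent.Work.MP_193ce1_co.Rim.FqR
section
set_option linter.unusedVariables false

namespace Pool.Agent.Work.MP_193ce1_co.Rim.Fq

/-- hypotheses -/
noncomputable def kr0 : List Fk.C :=
  [.le (.add .x (.k 1)) .y, .le (.k 3) .L, .le (.k 0) .x, .le (.add .y .L) (.add .N (.k 2)), .ne .x
  .t, .ne (.add .y .L) (.add .t (.k 3)), .ne (.add .t .x) .N, .ne (.add (.add .t .y) .L) (.add .N
  (.k 3))]

theorem qr0 {N t x y L : ℤ} (hD : D N t) : Fk.All ⟨N, t, x, y, L⟩ kr0 → P (A N t) N x y L :=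
  Fk.route (fam hD x y L) kr0 .y (.pt .x)
    [(0, .pt .N), (1, .dn (.sub (.add .y .L) (.k 3)) .y)]
    [.f 8650880, .f 37436734551752832, .f 128, .f 128, .f 9175168, .f 128, .f 8650880, .f
    36029359668199557, .s 6 (.f 12648576) (.f 8454272), .s 8 (.f 12648576) (.f 8454272), .f 128, .f
    128, .f 36029359668199557, .f 549764333700, .f 8585344, .f 8716416, .f 36029359668199556, .f
    8716416, .s 7 (.f 12648576) (.f 8454272), .s 9 (.f 12648576) (.f 8454272), .f 128, .f 128, .f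
    8716417, .f 8519808, .f 128, .f 128, .f 128, .f 128]
    (by decide +kernel)

theorem rT0 {N t x y L : ℤ} (hD : D N t)
    (c0 : x + 1 ≤ y)
    (c1 : (3 : ℤ) ≤ L)
    (c2 : (0 : ℤ) ≤ x)
    (c3 : y + L ≤ N + 2)
    (c4 : x ≠ t)
    (c5 : y + L ≠ t + 3)
    (c6 : t + x ≠ N)
    (c7 : t + y + L ≠ N + 3) :
    P (A N t) N x y L := by
  exact qr0 hD ⟨c0, c1, c2, c3, c4, c5, c6, c7, trivial⟩

/-- hypotheses -/
noncomputable def kr1 : List Fk.C :=
  [.le .N (.add (.add .t .x) (.k 1)), .le (.add .x (.k 1)) .y, .le (.add .y .L) (.add (.add .t .x)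
  (.k 3)), .le (.add (.add .t .x) (.k 4)) (.add .N .L), .ne (.add .y .L) (.add .x (.k 4)), .ne
  (.add (.add (.mul 2 .t) .x) (.k 4)) (.add (.add .N .y) .L)]

theorem qr1 {N t x y L : ℤ} (hD : D N t) : Fk.All ⟨N, t, x, y, L⟩ kr1 → P (A N t) N x y L :=
  Fk.route (fam hD x y L) kr1 .y (.dn .x (.sub (.sub .N .t) (.k 1)))
    [(0, .pt .N), (1, .dn (.sub (.sub (.sub (.add (.add .N .y) .L) .t) .x) (.k 4)) .y)]
    [.f 164416272687704782886142085, .f 8519808, .f 37155246690205829, .f 128, .f 128, .f 9044096,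
    .f 128, .f 164416272687704782886142085, .f 8978560, .f 8913024, .f 192, .f 128, .f 128, .f
    37155246690205829, .f 154744958400536940833276036, .f 8716416, .f 8650880, .f
    154747264243546154518970629, .f 8650880, .f 2361220678165079457928, .s 6 (.f 12648576) (.f
    8454272), .f 128, .f 128, .f 8650881, .f 8585344, .f 128, .f 128, .f 128, .f 128]
    (by decide +kernel)

theorem rT1 {N t x y L : ℤ} (hD : D N t)
    (c0 : N ≤ t + x + 1)
    (c1 : x + 1 ≤ y)
    (c2 : y + L ≤ t + x + 3)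
    (c3 : t + x + 4 ≤ N + L)
    (c4 : y + L ≠ x + 4)
    (c5 : 2 * t + x + 4 ≠ N + y + L) :
    P (A N t) N x y L := by
  exact qr1 hD ⟨c0, c1, c2, c3, c4, c5, trivial⟩

/-- hypotheses -/
noncomputable def kr2 : List Fk.C :=
  [.le (.add .t (.k 2)) .y, .le (.add .t (.k 4)) (.add .x .L), .le (.k 0) .x, .le .x (.add .t (.k
  1)), .le (.add (.add .x .y) .L) (.add (.add .N .t) (.k 3)), .ne (.add (.add .x .y) .L) (.add
  (.mul 2 .t) (.k 4)), .ne (.add (.add .x .y) .L) (.add .N (.k 4))]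

theorem qr2 {N t x y L : ℤ} (hD : D N t) : Fk.All ⟨N, t, x, y, L⟩ kr2 → P (A N t) N x y L :=
  Fk.route (fam hD x y L) kr2 .y (.up .x (.add .t (.k 1)))
    [(0, .pt .N), (1, .dn (.sub (.sub (.add (.add .x .y) .L) .t) (.k 4)) .y)]
    [.f 8650880, .f 8716416, .f 36029355373297798, .f 128, .f 128, .f 9109632, .f 128, .f 9044096,
    .f 36029355373297798, .f 128, .f 8978624, .f 128, .f 128, .f 37718196643561603, .f
    36029368258134148, .f 8585344, .f 8781952, .f 2361220678165079457924, .f 8781952, .f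
    549764333699, .s 8 (.f 12648576) (.f 8454272), .f 128, .f 128, .f 8781953, .f 8519808, .f 128,
    .f 128, .f 128, .f 128]
    (by decide +kernel)

theorem rT2 {N t x y L : ℤ} (hD : D N t)
    (c0 : t + 2 ≤ y)
    (c1 : t + 4 ≤ x + L)
    (c2 : (0 : ℤ) ≤ x)
    (c3 : x ≤ t + 1)
    (c4 : x + y + L ≤ N + t + 3)
    (c5 : x + y + L ≠ 2 * t + 4)
    (c6 : x + y + L ≠ N + 4) :
    P (A N t) N x y L := by
  exact qr2 hD ⟨c0, c1, c2, c3, c4, c5, c6, trivial⟩

/-- hypotheses -/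
noncomputable def kr3 : List Fk.C :=
  [.le (.add .N (.k 2)) (.add (.add .t .y) .L), .le (.add .x (.k 1)) .y, .le (.add (.add .t .y) (.k
  1)) .N, .le (.add (.add .t .y) .L) (.add (.add .N .x) (.k 2)), .ne (.add .y .L) (.add .x (.k 2)),
  .ne (.add (.add (.mul 2 .t) .y) .L) (.add (.add .N .x) (.k 2))]

theorem qr3 {N t x y L : ℤ} (hD : D N t) : Fk.All ⟨N, t, x, y, L⟩ kr3 → P (A N t) N x y L :=
  Fk.route (fam hD x y L) kr3 .y (.dn .x (.add (.sub (.sub (.sub (.add .N .x) .t) .y) .L) (.k 2)))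
    [(0, .pt .N), (1, .dn (.sub (.sub .N .t) (.k 1)) .y)]
    [.f 8716416, .f 8519808, .f 36029363963232393, .f 128, .f 128, .f 9044096, .f 128, .f 8716416,
    .f 2361220396694397649033, .s 7 (.f 8454272) (.f 12648576), .f 36873788893298880, .f 128, .f
    128, .f 38562621573759108, .f 36029359668396162, .f 8650880, .f 8978560, .f
    2361220396694397845634, .f 8978560, .f 8913024, .f 192, .f 128, .f 128, .f 8978561, .f 8585344,
    .f 128, .f 128, .f 128, .f 128]
    (by decide +kernel)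

theorem rT3 {N t x y L : ℤ} (hD : D N t)
    (c0 : N + 2 ≤ t + y + L)
    (c1 : x + 1 ≤ y)
    (c2 : t + y + 1 ≤ N)
    (c3 : t + y + L ≤ N + x + 2)
    (c4 : y + L ≠ x + 2)
    (c5 : 2 * t + y + L ≠ N + x + 2) :
    P (A N t) N x y L := by
  exact qr3 hD ⟨c0, c1, c2, c3, c4, c5, trivial⟩

/-- hypotheses -/
noncomputable def kr4 : List Fk.C :=
  [.le .N (.add (.add .t .y) (.k 1)), .le (.add (.add .N .x) .L) (.add (.add (.mul 2 .t) .y) (.k
  4)), .le (.k 0) .x, .le .x (.add .t (.k 1)), .le (.add (.add (.mul 2 .t) .y) (.k 4)) (.add (.add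
  .N .x) .L), .le (.add .y (.k 1)) .N]

theorem qr4 {N t x y L : ℤ} (hD : D N t) : Fk.All ⟨N, t, x, y, L⟩ kr4 → P (A N t) N x y L :=
  Fk.route (fam hD x y L) kr4 .y (.up .x (.add .t (.k 1)))
    [(6, .up (.sub (.sub .N .t) (.k 1)) .y)]
    [.f 8650880, .f 8716416, .f 36029355373625479, .f 128, .f 128, .f 38281146596982919, .f
    8519808, .f 8847488, .f 128, .f 128, .f 128, .f 128, .f 8913024, .f 128, .f 128, .f 8781952, .f
    8585344]
    (by decide +kernel)

theorem rT4 {N t x y L : ℤ} (hD : D N t)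
    (c0 : N ≤ t + y + 1)
    (c1 : N + x + L ≤ 2 * t + y + 4)
    (c2 : (0 : ℤ) ≤ x)
    (c3 : x ≤ t + 1)
    (c4 : 2 * t + y + 4 ≤ N + x + L)
    (c5 : y + 1 ≤ N) :
    P (A N t) N x y L := by
  exact qr4 hD ⟨c0, c1, c2, c3, c4, c5, trivial⟩

/-- hypotheses -/
noncomputable def kr5 : List Fk.C :=
  [.le (.add .x (.k 1)) .y, .le (.k 4) .L, .le (.k 1) .x, .le (.add .y .L) (.add .N (.k 3)), .ne .x
  (.add .t (.k 1)), .ne (.add .y .L) (.add .t (.k 4)), .ne (.add .t .x) (.add .N (.k 1)), .ne (.add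
  (.add .t .y) .L) (.add .N (.k 4))]

theorem qr5 {N t x y L : ℤ} (hD : D N t) : Fk.All ⟨N, t, x, y, L⟩ kr5 → P (A N t) N x y L :=
  Fk.route (fam hD x y L) kr5 .y (.dn .x (.sub .x (.k 1)))
    [(0, .pt .N), (1, .dn (.sub (.add .y .L) (.k 4)) .y)]
    [.f 8650880, .f 128, .f 36029359668199557, .f 128, .f 128, .f 9175168, .f 128, .f 8650880, .f
    36029359668199557, .s 6 (.f 12648576) (.f 8454272), .s 8 (.f 12648576) (.f 8454272), .f 128, .f
    128, .f 36029359668199557, .f 549764333700, .f 8585344, .f 8716416, .f 36029359668199556, .f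
    8716416, .s 7 (.f 12648576) (.f 8454272), .s 9 (.f 12648576) (.f 8454272), .f 128, .f 128, .f
    8716417, .f 8519808, .f 128, .f 128, .f 128, .f 128]
    (by decide +kernel)

theorem rT5 {N t x y L : ℤ} (hD : D N t)
    (c0 : x + 1 ≤ y)
    (c1 : (4 : ℤ) ≤ L)
    (c2 : (1 : ℤ) ≤ x)
    (c3 : y + L ≤ N + 3)
    (c4 : x ≠ t + 1)
    (c5 : y + L ≠ t + 4)
    (c6 : t + x ≠ N + 1)
    (c7 : t + y + L ≠ N + 4) :
    P (A N t) N x y L := by
  exact qr5 hD ⟨c0, c1, c2, c3, c4, c5, c6, c7, trivial⟩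

/-- hypotheses -/
noncomputable def kr6 : List Fk.C :=
  [.le (.add .t (.k 3)) .y, .le (.add .t (.k 5)) (.add .x .L), .le (.k 0) .x, .le .x (.add .t (.k
  2)), .le (.add (.add .x .y) .L) (.add (.add .N .t) (.k 4)), .ne (.add (.add .x .y) .L) (.add
  (.mul 2 .t) (.k 5)), .ne (.add (.add .x .y) .L) (.add .N (.k 5))]

theorem qr6 {N t x y L : ℤ} (hD : D N t) : Fk.All ⟨N, t, x, y, L⟩ kr6 → P (A N t) N x y L :=
  Fk.route (fam hD x y L) kr6 .y (.up .x (.add .t (.k 2)))
    [(0, .pt .N), (1, .dn (.sub (.sub (.add (.add .x .y) .L) .t) (.k 5)) .y)]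
    [.f 8650880, .f 8716416, .f 36029355373297798, .f 128, .f 128, .f 9109632, .f 128, .f 9044096,
    .f 36029355373297798, .f 128, .f 8978624, .f 128, .f 128, .f 37718196643561603, .f
    36029368258134148, .f 8585344, .f 8781952, .f 2361220678165079457924, .f 8781952, .f
    549764333699, .s 8 (.f 12648576) (.f 8454272), .f 128, .f 128, .f 8781953, .f 8519808, .f 128,
    .f 128, .f 128, .f 128]
    (by decide +kernel)

theorem rT6 {N t x y L : ℤ} (hD : D N t)
    (c0 : t + 3 ≤ y)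
    (c1 : t + 5 ≤ x + L)
    (c2 : (0 : ℤ) ≤ x)
    (c3 : x ≤ t + 2)
    (c4 : x + y + L ≤ N + t + 4)
    (c5 : x + y + L ≠ 2 * t + 5)
    (c6 : x + y + L ≠ N + 5) :
    P (A N t) N x y L := by
  exact qr6 hD ⟨c0, c1, c2, c3, c4, c5, c6, trivial⟩

/-- hypotheses -/
noncomputable def kr7 : List Fk.C :=
  [.le .t (.add .x (.k 1)), .le (.add .x (.k 1)) .y, .le (.add .x (.k 4)) (.add .t .L), .le (.add
  (.add .t .y) .L) (.add (.add .N .x) (.k 3)), .ne (.add .y .L) (.add .x (.k 4)), .ne (.add (.add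
  (.mul 2 .t) .y) .L) (.add (.add .N .x) (.k 4))]

theorem qr7 {N t x y L : ℤ} (hD : D N t) : Fk.All ⟨N, t, x, y, L⟩ kr7 → P (A N t) N x y L :=
  Fk.route (fam hD x y L) kr7 .y (.dn .x (.sub .t (.k 1)))
    [(0, .pt .N), (1, .dn (.sub (.sub (.add (.add .t .y) .L) .x) (.k 4)) .y)]
    [.f 8978560, .f 8519808, .f 36029359668330629, .f 128, .f 128, .f 9044096, .f 128, .f 8978560,
    .f 2361219833744444358789, .f 192, .f 8913088, .f 128, .f 128, .f 37436721666916484, .f
    36029359668199561, .f 8650880, .f 8716416, .f 2361220115215126102153, .f 8716416, .s 6 (.f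
    12648576) (.f 8454272), .s 7 (.f 12648576) (.f 8454272), .f 128, .f 128, .f 8716417, .f
    8585344, .f 128, .f 128, .f 128, .f 128]
    (by decide +kernel)

theorem rT7 {N t x y L : ℤ} (hD : D N t)
    (c0 : t ≤ x + 1)
    (c1 : x + 1 ≤ y)
    (c2 : x + 4 ≤ t + L)
    (c3 : t + y + L ≤ N + x + 3)
    (c4 : y + L ≠ x + 4)
    (c5 : 2 * t + y + L ≠ N + x + 4) :
    P (A N t) N x y L := by
  exact qr7 hD ⟨c0, c1, c2, c3, c4, c5, trivial⟩

/-- hypotheses -/
noncomputable def kr8 : List Fk.C :=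
  [.le (.add (.add .N .x) (.k 2)) (.add (.add (.mul 2 .t) .y) .L), .le .t .x, .le (.add .x (.k 1))
  .y, .le (.add (.add (.mul 2 .t) .y) .L) (.add (.add .N .x) (.k 2)), .le (.add .t .y) .N]

theorem qr8 {N t x y L : ℤ} (hD : D N t) : Fk.All ⟨N, t, x, y, L⟩ kr8 → P (A N t) N x y L :=
  Fk.route (fam hD x y L) kr8 .y (.dn .x .t)
    [(4, .dn (.sub .N .t) .y)]
    [.f 8913024, .f 8585344, .f 36029372553232520, .f 128, .f 128, .f 38281146597113987, .f
    8781952, .f 8913024, .f 128, .f 128, .f 128, .f 128, .f 8650880, .f 128, .f 128, .f 8519808, .f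
    8716416]
    (by decide +kernel)

theorem rT8 {N t x y L : ℤ} (hD : D N t)
    (c0 : N + x + 2 ≤ 2 * t + y + L)
    (c1 : t ≤ x)
    (c2 : x + 1 ≤ y)
    (c3 : 2 * t + y + L ≤ N + x + 2)
    (c4 : t + y ≤ N) :
    P (A N t) N x y L := by
  exact qr8 hD ⟨c0, c1, c2, c3, c4, trivial⟩

/-- hypotheses -/
noncomputable def kr9 : List Fk.C :=
  [.le (.add .x (.k 4)) .L, .le (.add .x (.k 1)) .y, .le (.k 0) .x, .le (.add .y .L) (.add (.add .N
  .x) (.k 2)), .ne (.k 1) .t, .ne (.add .y .L) (.add (.add .t .x) (.k 4)), .ne (.add (.add .t .y)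
  .L) (.add (.add .N .x) (.k 4))]

theorem qr9 {N t x y L : ℤ} (hD : D N t) : Fk.All ⟨N, t, x, y, L⟩ kr9 → P (A N t) N x y L :=
  Fk.route (fam hD x y L) kr9 .y (.dn .x (.k 0))
    [(3, .pt (.sub .N (.k 1))), (0, .pt .N), (1, .dn (.sub (.sub (.add .y .L) .x) (.k 4)) .y)]
    [.f 128, .f 8650880, .f 36029355373297797, .f 128, .f 128, .f 9109632, .f 128, .f 128, .f 128,
    .f 128, .f 128, .f 37436730256851072, .f 9109632, .f 128, .f 9109632, .f 128, .f
    165625235400807568078012549, .s 6 (.f 8454272) (.f 12648576), .f 128, .f 128, .f 128, .f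
    37436730256851072, .f 549764399236, .f 8519808, .f 8716416, .f 36029355373297796, .f 8716416,
    .s 7 (.f 12648576) (.f 8454272), .s 8 (.f 12648576) (.f 8454272), .f 128, .f 128, .f 8716417,
    .f 8716417, .f 8585344, .f 128, .f 128, .f 128, .f 128]
    (by decide +kernel)

theorem rT9 {N t x y L : ℤ} (hD : D N t)
    (c0 : x + 4 ≤ L)
    (c1 : x + 1 ≤ y)
    (c2 : (0 : ℤ) ≤ x)
    (c3 : y + L ≤ N + x + 2)
    (c4 : (1 : ℤ) ≠ t)
    (c5 : y + L ≠ t + x + 4)
    (c6 : t + y + L ≠ N + x + 4) :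
    P (A N t) N x y L := by
  exact qr9 hD ⟨c0, c1, c2, c3, c4, c5, c6, trivial⟩

/-- hypotheses -/
noncomputable def kr10 : List Fk.C :=
  [.le (.add .N (.k 2)) (.add (.add .x .y) .L), .le (.add .t (.k 1)) .y, .le (.k 0) .x, .le .x .t,
  .le (.add .t .y) .N, .le (.add (.add .x .y) .L) (.add .N (.k 2))]

theorem qr10 {N t x y L : ℤ} (hD : D N t) : Fk.All ⟨N, t, x, y, L⟩ kr10 → P (A N t) N x y L :=
  Fk.route (fam hD x y L) kr10 .y (.up .x .t)
    [(4, .dn (.sub .N .t) .y)]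
    [.f 8650880, .f 8716416, .f 2361220959652941136003, .f 128, .f 128, .f 36029368258199684, .f
    8781952, .f 8978560, .f 128, .f 128, .f 128, .f 128, .f 8585344, .f 128, .f 128, .f 8519808, .f
    8847488]
    (by decide +kernel)

theorem rT10 {N t x y L : ℤ} (hD : D N t)
    (c0 : N + 2 ≤ x + y + L)
    (c1 : t + 1 ≤ y)
    (c2 : (0 : ℤ) ≤ x)
    (c3 : x ≤ t)
    (c4 : t + y ≤ N)
    (c5 : x + y + L ≤ N + 2) :
    P (A N t) N x y L := by
  exact qr10 hD ⟨c0, c1, c2, c3, c4, c5, trivial⟩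

/-- hypotheses -/
noncomputable def kr11 : List Fk.C :=
  [.le (.add .N (.k 3)) (.add (.add .t .y) .L), .le (.k 0) .x, .le .y .t, .le (.add (.add .t .x)
  .L) (.add .N (.k 2)), .ne (.add (.add .x .y) .L) (.add .N (.k 3)), .ne (.add (.add (.add (.mul 2
  .t) .x) .y) .L) (.add (.mul 2 .N) (.k 3))]

theorem qr11 {N t x y L : ℤ} (hD : D N t) : Fk.All ⟨N, t, x, y, L⟩ kr11 → P (A N t) N x y L :=
  Fk.route (fam hD x y L) kr11 .y (.up .x (.sub (.sub (.add (.add (.add .t .x) .y) .L) .N) (.k 3)))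
    [(0, .pt .N), (1, .up (.add .t (.k 1)) (.sub .N .t)), (5, .dn .t .y)]
    [.f 8585344, .f 8519808, .f 154747301137597251891363971, .f 128, .f 128, .f 9044096, .f 128, .f
    549764399234, .f 154747301137597251891363971, .f 566944399552, .f 54043779652714628, .f 128, .f
    128, .f 158374078596441139423740033, .f 8978560, .f 8913024, .f 8978560, .f 8978560, .f
    154744939918327020049793155, .f 128, .f 8913088, .f 128, .f 128, .f 8978561, .f 571239301248,
    .f 36029368258199682, .f 8650880, .f 154744939918327020049793155, .f 128, .f 128, .f 128, .f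
    128, .f 129, .f 158374023220180121267863680, .f 8716416, .f 128, .f 128, .f 128, .f 128]
    (by decide +kernel)

theorem rT11 {N t x y L : ℤ} (hD : D N t)
    (c0 : N + 3 ≤ t + y + L)
    (c1 : (0 : ℤ) ≤ x)
    (c2 : y ≤ t)
    (c3 : t + x + L ≤ N + 2)
    (c4 : x + y + L ≠ N + 3)
    (c5 : 2 * t + x + y + L ≠ 2 * N + 3) :
    P (A N t) N x y L := by
  exact qr11 hD ⟨c0, c1, c2, c3, c4, c5, trivial⟩

/-- hypotheses -/
noncomputable def kr12 : List Fk.C :=
  [.le (.add .x (.k 4)) .L, .le (.add .x (.k 1)) .y, .le (.k 0) .x, .le (.add .y .L) (.add (.add .N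
  .x) (.k 2)), .ne .y .t, .ne .L (.add (.add .t .x) (.k 3)), .ne (.add .t .y) .N, .ne (.add .t .L)
  (.add (.add .N .x) (.k 3))]

theorem qr12 {N t x y L : ℤ} (hD : D N t) : Fk.All ⟨N, t, x, y, L⟩ kr12 → P (A N t) N x y L :=
  Fk.route (fam hD x y L) kr12 .y (.dn .x (.k 0))
    [(3, .dn (.sub .N (.k 1)) (.add (.sub (.add .N .x) .L) (.k 3))), (0, .pt .N), (1, .pt .y)]
    [.f 128, .f 8650880, .f 36029355373297797, .f 128, .f 128, .f 36029359668330629, .f 8519808, .f
    128, .f 128, .f 128, .f 128, .f 128, .f 571239039107, .f 9175168, .f 128, .f 36029359668330629,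
    .f 8519808, .s 9 (.f 8454272) (.f 12648576), .s 7 (.f 8454272) (.f 12648576), .f 128, .f 128,
    .f 128, .f 37436730256851072, .f 549764399236, .f 549764333701, .f 549764399236, .f
    549764333701, .s 6 (.f 12648576) (.f 8454272), .s 8 (.f 12648576) (.f 8454272), .f 128, .f 128,
    .f 554059300997, .f 8716417, .f 8585344, .f 128, .f 128, .f 128, .f 128]
    (by decide +kernel)

theorem rT12 {N t x y L : ℤ} (hD : D N t)
    (c0 : x + 4 ≤ L)
    (c1 : x + 1 ≤ y)
    (c2 : (0 : ℤ) ≤ x)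
    (c3 : y + L ≤ N + x + 2)
    (c4 : y ≠ t)
    (c5 : L ≠ t + x + 3)
    (c6 : t + y ≠ N)
    (c7 : t + L ≠ N + x + 3) :
    P (A N t) N x y L := by
  exact qr12 hD ⟨c0, c1, c2, c3, c4, c5, c6, c7, trivial⟩

/-- hypotheses -/
noncomputable def kr13 : List Fk.C :=
  [.le (.add (.add .N .x) (.k 2)) (.add .y .L), .le (.k 0) .x, .le (.add .y (.k 2)) .N, .le .L
  (.add .N (.k 1)), .ne (.add .y (.k 1)) .t, .ne .L (.add (.add .t .x) (.k 2)), .ne (.add (.add .t
  .y) (.k 1)) .N, .ne (.add .t .L) (.add (.add .N .x) (.k 2))]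

theorem qr13 {N t x y L : ℤ} (hD : D N t) : Fk.All ⟨N, t, x, y, L⟩ kr13 → P (A N t) N x y L :=
  Fk.route (fam hD x y L) kr13 .y (.dn .x (.k 0))
    [(3, .dn (.sub .N (.k 1)) (.add .y (.k 1))), (0, .pt .N), (1, .up (.add (.sub (.add .N .x) .L)
    (.k 2)) .y)]
    [.f 128, .f 8585344, .f 36029363963166853, .f 128, .f 128, .f 36029355373428867, .f 8650880, .f
    128, .f 128, .f 128, .f 128, .f 128, .f 571239170176, .f 9175168, .f 128, .f 36029355373428867,
    .f 8650880, .s 6 (.f 12648576) (.f 8454272), .s 8 (.f 12648576) (.f 8454272), .f 128, .f 128,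
    .f 128, .f 37436738846720128, .f 571239039107, .f 8519808, .f 8650880, .f 571239039107, .f
    549764464770, .s 9 (.f 8454272) (.f 12648576), .s 7 (.f 8454272) (.f 12648576), .f 128, .f 128,
    .f 8650881, .f 129, .f 8716416, .f 128, .f 128, .f 128, .f 128]
    (by decide +kernel)

theorem rT13 {N t x y L : ℤ} (hD : D N t)
    (c0 : N + x + 2 ≤ y + L)
    (c1 : (0 : ℤ) ≤ x)
    (c2 : y + 2 ≤ N)
    (c3 : L ≤ N + 1)
    (c4 : y + 1 ≠ t)
    (c5 : L ≠ t + x + 2)
    (c6 : t + y + 1 ≠ N)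
    (c7 : t + L ≠ N + x + 2) :
    P (A N t) N x y L := by
  exact qr13 hD ⟨c0, c1, c2, c3, c4, c5, c6, c7, trivial⟩

/-- hypotheses -/
noncomputable def kr14 : List Fk.C :=
  [.le .N (.add .t .y), .le (.k 0) .x, .le (.add (.add .x .y) (.k 4)) (.add .t .L), .le (.add .x
  (.k 1)) .t, .le (.add .t .L) (.add (.add .N .x) (.k 2)), .ne .L (.add (.add .x .y) (.k 3)), .ne
  (.add (.mul 2 .t) .L) (.add (.add (.add .N .x) .y) (.k 3))]

theorem qr14 {N t x y L : ℤ} (hD : D N t) : Fk.All ⟨N, t, x, y, L⟩ kr14 → P (A N t) N x y L :=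
  Fk.route (fam hD x y L) kr14 .y (.dn .x (.k 0))
    [(3, .dn (.sub .N (.k 1)) (.add (.sub (.sub (.add (.add .N .x) .y) .t) .L) (.k 3))), (0, .pt
    .N), (1, .dn (.sub (.sub .N .t) (.k 1)) .t), (4, .up (.sub .N .t) .y)]
    [.f 128, .f 8585344, .f 160789661249276075181342854, .f 128, .f 128, .f 2361221804614742180102,
    .f 8650880, .f 128, .f 128, .f 128, .f 128, .f 128, .f 2453455524433534255232, .f 9109632, .f
    128, .f 2361221804614742180102, .f 8650880, .f 37718235298267264, .f 549764333702, .f 128, .f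
    128, .f 128, .f 73465557348778123, .f 9044096, .f 8978560, .f 9044096, .f 36029368258199689, .f
    9044096, .f 8978560, .f 192, .f 128, .f 128, .f 9044097, .f 575534071938, .f 8716416, .f
    37436721666916489, .f 8519808, .f 549764464774, .f 128, .f 128, .f 128, .f 128, .f 128, .f
    554059432070, .f 8781953, .f 571239039113, .f 128, .f 128, .f 128, .f 128]
    (by decide +kernel)

theorem rT14 {N t x y L : ℤ} (hD : D N t)
    (c0 : N ≤ t + y)
    (c1 : (0 : ℤ) ≤ x)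
    (c2 : x + y + 4 ≤ t + L)
    (c3 : x + 1 ≤ t)
    (c4 : t + L ≤ N + x + 2)
    (c5 : L ≠ x + y + 3)
    (c6 : 2 * t + L ≠ N + x + y + 3) :
    P (A N t) N x y L := by
  exact qr14 hD ⟨c0, c1, c2, c3, c4, c5, c6, trivial⟩

/-- hypotheses -/
noncomputable def kr15 : List Fk.C :=
  [.le .N (.add (.add .t .y) (.k 1)), .le (.k 0) .x, .le .L (.add (.add .t .x) (.k 3)), .le (.add
  (.add (.add .t .x) .y) (.k 5)) (.add .N .L), .le (.add (.add .t .x) (.k 2)) .N, .ne .L (.add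
  (.add .x .y) (.k 4)), .ne (.add (.add (.add (.mul 2 .t) .x) .y) (.k 4)) (.add .N .L)]

theorem qr15 {N t x y L : ℤ} (hD : D N t) : Fk.All ⟨N, t, x, y, L⟩ kr15 → P (A N t) N x y L :=
  Fk.route (fam hD x y L) kr15 .y (.dn .x (.k 0))
    [(3, .dn (.sub .N (.k 1)) (.add (.sub (.add (.add .t .x) .y) .L) (.k 4))), (0, .pt .N), (1, .up
    (.sub (.sub .N .t) (.k 1)) .y)]
    [.f 128, .f 8585344, .f 2471900298173816766597, .f 128, .f 128, .f 2435006247102213980290, .f
    8716416, .f 128, .f 128, .f 128, .f 128, .f 128, .f 37155246690402434, .f 9109632, .f 128, .f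
    2435006247102213980290, .f 8716416, .f 38562630163759232, .s 8 (.f 12648576) (.f 8454272), .f
    128, .f 128, .f 128, .f 2435007654477097336962, .f 575534006403, .f 8519808, .f 566944071813,
    .f 575534006403, .f 9044096, .f 8978560, .f 192, .f 128, .f 128, .f 566944137349, .f 8650881,
    .f 8781952, .f 128, .f 128, .f 128, .f 128]
    (by decide +kernel)

theorem rT15 {N t x y L : ℤ} (hD : D N t)
    (c0 : N ≤ t + y + 1)
    (c1 : (0 : ℤ) ≤ x)
    (c2 : L ≤ t + x + 3)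
    (c3 : t + x + y + 5 ≤ N + L)
    (c4 : t + x + 2 ≤ N)
    (c5 : L ≠ x + y + 4)
    (c6 : 2 * t + x + y + 4 ≠ N + L) :
    P (A N t) N x y L := by
  exact qr15 hD ⟨c0, c1, c2, c3, c4, c5, c6, trivial⟩

/-- hypotheses -/
noncomputable def kr16 : List Fk.C :=
  [.le (.add .x (.k 3)) .L, .le .L (.add .y (.k 2)), .le (.k 0) .x, .le (.add .y (.k 1)) .N, .ne
  (.add (.add .x .y) (.k 3)) (.add .t .L), .ne (.add (.add (.add .t .x) .y) (.k 3)) (.add .N .L)]

theorem qr16 {N t x y L : ℤ} (hD : D N t) : Fk.All ⟨N, t, x, y, L⟩ kr16 → P (A N t) N x y L :=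
  Fk.route (fam hD x y L) kr16 .y (.dn .x (.k 0))
    [(0, .pt .N), (1, .up (.add (.sub (.add .x .y) .L) (.k 3)) .y)]
    [.f 128, .f 8650880, .f 36029355373297797, .f 128, .f 128, .f 9044096, .f 128, .f 128, .f
    9044096, .f 8978624, .f 164416309581192938907500677, .f 128, .f 128, .f 37436730256851072, .f
    562649104516, .f 8519808, .f 8716416, .f 562649104516, .f 549764333701, .s 6 (.f 12648576) (.f
    8454272), .s 7 (.f 12648576) (.f 8454272), .f 128, .f 128, .f 8716417, .f 8585344, .f 128, .f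
    128, .f 128, .f 128]
    (by decide +kernel)

theorem rT16 {N t x y L : ℤ} (hD : D N t)
    (c0 : x + 3 ≤ L)
    (c1 : L ≤ y + 2)
    (c2 : (0 : ℤ) ≤ x)
    (c3 : y + 1 ≤ N)
    (c4 : x + y + 3 ≠ t + L)
    (c5 : t + x + y + 3 ≠ N + L) :
    P (A N t) N x y L := by
  exact qr16 hD ⟨c0, c1, c2, c3, c4, c5, trivial⟩

/-- hypotheses -/
noncomputable def kr17 : List Fk.C :=
  [.le .N (.add .t .y), .le (.add .t (.k 1)) .x, .le .L (.add (.add .t .x) (.k 2)), .le (.add (.add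
  (.add .t .x) .y) (.k 4)) (.add .N .L), .le (.add (.add .t .x) (.k 1)) .N, .ne .L (.add (.add .x
  .y) (.k 3)), .ne (.add (.add (.add (.mul 2 .t) .x) .y) (.k 3)) (.add .N .L)]

theorem qr17 {N t x y L : ℤ} (hD : D N t) : Fk.All ⟨N, t, x, y, L⟩ kr17 → P (A N t) N x y L :=
  Fk.route (fam hD x y L) kr17 .y (.dn .x (.add .t (.k 1)))
    [(0, .pt .N), (1, .up (.add (.sub (.add (.add .t .x) .y) .L) (.k 3)) (.sub .N (.k 1))), (2, .up
    (.k 0) .t), (4, .up (.sub .N .t) .y)]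
    [.f 9044096, .f 8585344, .f 2361220396702987583622, .f 128, .f 128, .f 9109632, .f 128, .f
    9044096, .f 154744939918326998574956678, .f 128, .f 8978624, .f 128, .f 128, .f
    2471901142607336571012, .f 314323074320763229783064709, .f 8716416, .f 128, .f
    314323074320763229783064709, .f 8716416, .f 2361220959644351070340, .f 566944202880, .f 128, .f
    128, .f 129, .f 37718196643561604, .f 128, .f 9044096, .f 154744939918326998574956678, .f 128,
    .f 128, .f 128, .f 128, .f 2435006528577190690946, .f 37718750694408331, .f 129, .f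
    161998513281914422402482308, .f 8519808, .f 549764464773, .f 128, .f 128, .f 128, .f 128, .f
    8978560, .f 8650881, .f 566944137349, .f 8781952, .f 128, .f 128, .f 128, .f 128]
    (by decide +kernel)

theorem rT17 {N t x y L : ℤ} (hD : D N t)
    (c0 : N ≤ t + y)
    (c1 : t + 1 ≤ x)
    (c2 : L ≤ t + x + 2)
    (c3 : t + x + y + 4 ≤ N + L)
    (c4 : t + x + 1 ≤ N)
    (c5 : L ≠ x + y + 3)
    (c6 : 2 * t + x + y + 3 ≠ N + L) :
    P (A N t) N x y L := by
  exact qr17 hD ⟨c0, c1, c2, c3, c4, c5, c6, trivial⟩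

/-- hypotheses -/
noncomputable def kr18 : List Fk.C :=
  [.le (.add .N (.k 2)) (.add .y .L), .le (.k 0) .x, .le (.add .x .L) (.add .N (.k 1)), .le (.add
  .y (.k 1)) .N, .ne (.k 1) .t, .ne (.add (.add .x .y) .L) (.add (.add .N .t) (.k 2)), .ne (.add
  (.add (.add .t .x) .y) .L) (.add (.mul 2 .N) (.k 2))]

theorem qr18 {N t x y L : ℤ} (hD : D N t) : Fk.All ⟨N, t, x, y, L⟩ kr18 → P (A N t) N x y L :=
  Fk.route (fam hD x y L) kr18 .y (.up .x (.sub (.sub (.add (.add .x .y) .L) .N) (.k 2)))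
    [(0, .pt .N), (1, .dn (.sub .N (.k 1)) .y)]
    [.f 8585344, .f 8519808, .f 549764530308, .f 128, .f 128, .f 9109632, .f 128, .f 549764333699,
    .f 549764530308, .s 7 (.f 12648576) (.f 8454272), .s 8 (.f 12648576) (.f 8454272), .f 128, .f
    128, .f 566944399488, .f 37155246690140291, .f 8716416, .f 128, .f 9109632, .f 128, .f
    165625290740758309934989444, .s 6 (.f 8454272) (.f 12648576), .f 128, .f 128, .f 129, .f
    8650880, .f 128, .f 128, .f 128, .f 128]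
    (by decide +kernel)

theorem rT18 {N t x y L : ℤ} (hD : D N t)
    (c0 : N + 2 ≤ y + L)
    (c1 : (0 : ℤ) ≤ x)
    (c2 : x + L ≤ N + 1)
    (c3 : y + 1 ≤ N)
    (c4 : (1 : ℤ) ≠ t)
    (c5 : x + y + L ≠ N + t + 2)
    (c6 : t + x + y + L ≠ 2 * N + 2) :
    P (A N t) N x y L := by
  exact qr18 hD ⟨c0, c1, c2, c3, c4, c5, c6, trivial⟩

/-- hypotheses -/
noncomputable def kr19 : List Fk.C :=
  [.le (.add (.add .N .x) (.k 2)) (.add .y .L), .le (.k 1) .x, .le (.add .y (.k 1)) .N, .le .L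
  (.add .N (.k 1)), .ne .x (.add .t (.k 1)), .ne (.add .t .x) (.add .N (.k 1)), .ne (.add .y .L)
  (.add (.add .N .t) (.k 2)), .ne (.add (.add .t .y) .L) (.add (.mul 2 .N) (.k 2))]

theorem qr19 {N t x y L : ℤ} (hD : D N t) : Fk.All ⟨N, t, x, y, L⟩ kr19 → P (A N t) N x y L :=
  Fk.route (fam hD x y L) kr19 .y (.up .x (.sub (.sub (.add .y .L) .N) (.k 2)))
    [(0, .pt .N), (1, .dn (.sub .x (.k 1)) (.k 0)), (3, .dn (.sub .N (.k 1)) .y)]
    [.f 8585344, .f 8519808, .f 549764464773, .f 128, .f 128, .f 9175168, .f 128, .f 549764333699,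
    .f 549764464773, .s 8 (.f 12648576) (.f 8454272), .s 9 (.f 12648576) (.f 8454272), .f 128, .f
    128, .f 571239301248, .f 128, .f 8585344, .f 36029363963166853, .f 8585344, .f
    36029363963166853, .s 6 (.f 12648576) (.f 8454272), .s 7 (.f 12648576) (.f 8454272), .f 128, .f
    128, .f 37436738846720129, .f 129, .f 36029355373297797, .f 8650880, .f 128, .f 128, .f 128, .f
    128, .f 128, .f 549764333701, .f 129, .f 8716416, .f 128, .f 128, .f 128, .f 128]
    (by decide +kernel)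

theorem rT19 {N t x y L : ℤ} (hD : D N t)
    (c0 : N + x + 2 ≤ y + L)
    (c1 : (1 : ℤ) ≤ x)
    (c2 : y + 1 ≤ N)
    (c3 : L ≤ N + 1)
    (c4 : x ≠ t + 1)
    (c5 : t + x ≠ N + 1)
    (c6 : y + L ≠ N + t + 2)
    (c7 : t + y + L ≠ 2 * N + 2) :
    P (A N t) N x y L := by
  exact qr19 hD ⟨c0, c1, c2, c3, c4, c5, c6, c7, trivial⟩

/-- hypotheses -/
noncomputable def kr20 : List Fk.C :=
  [.le (.add (.add .t .x) (.k 3)) .L, .le .t .x, .le .L (.add (.add .t .y) (.k 2)), .le (.add (.add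
  .t .y) (.k 1)) .N, .ne .L (.add (.add .x .y) (.k 3)), .ne (.add (.add (.add (.mul 2 .t) .x) .y)
  (.k 3)) (.add .N .L)]

theorem qr20 {N t x y L : ℤ} (hD : D N t) : Fk.All ⟨N, t, x, y, L⟩ kr20 → P (A N t) N x y L :=
  Fk.route (fam hD x y L) kr20 .y (.dn .x .t)
    [(4, .up (.sub .N .t) (.sub .N (.k 1))), (2, .up (.k 0) (.sub .t (.k 1))), (0, .pt .N), (1, .up
    (.add (.sub (.add (.add .t .x) .y) .L) (.k 3)) .y)]
    [.f 8978560, .f 8585344, .f 2361219833748739653765, .f 128, .f 128, .f 584123941001, .f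
    8978560, .f 128, .f 128, .f 128, .f 128, .f 128, .f 37436730256916608, .f 128, .f 8978560, .f
    584123941001, .f 128, .f 128, .f 128, .f 128, .f 8913025, .f 129, .f 9044096, .f 128, .f
    8978560, .f 584123941001, .f 192, .f 8913088, .f 128, .f 128, .f 160789532122630522060931210,
    .f 128, .f 2361219833748739653765, .f 37155246690205833, .f 8519808, .f 549764792453, .f
    37155246690205833, .f 36592296737177733, .f 562649104516, .f 824642240645, .f 128, .f 128, .f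
    571239104649, .f 562649104516, .f 8716417, .f 8650880, .f 128, .f 128, .f 128, .f 128]
    (by decide +kernel)

theorem rT20 {N t x y L : ℤ} (hD : D N t)
    (c0 : t + x + 3 ≤ L)
    (c1 : t ≤ x)
    (c2 : L ≤ t + y + 2)
    (c3 : t + y + 1 ≤ N)
    (c4 : L ≠ x + y + 3)
    (c5 : 2 * t + x + y + 3 ≠ N + L) :
    P (A N t) N x y L := by
  exact qr20 hD ⟨c0, c1, c2, c3, c4, c5, trivial⟩

/-- hypotheses -/
noncomputable def kr21 : List Fk.C :=
  [.le (.add (.add .N .t) (.k 3)) (.add (.add .x .y) .L), .le (.add .t (.k 1)) .y, .le .x .t, .le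
  (.add (.add .t .y) (.k 1)) .N, .le (.add .y .L) (.add (.add .N .t) (.k 2)), .ne (.add (.add .x
  .y) .L) (.add (.add .N (.mul 2 .t)) (.k 3)), .ne (.add (.add .x .y) .L) (.add (.mul 2 .N) (.k
  3))]

theorem qr21 {N t x y L : ℤ} (hD : D N t) : Fk.All ⟨N, t, x, y, L⟩ kr21 → P (A N t) N x y L :=
  Fk.route (fam hD x y L) kr21 .y (.up .x .t)
    [(4, .up (.sub .N .t) (.sub .N (.k 1))), (2, .up (.k 0) (.sub (.sub (.sub (.add (.add .x .y)
    .L) .N) .t) (.k 3))), (0, .pt .N), (1, .dn (.sub (.sub .N .t) (.k 1)) .y)]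
    [.f 575534006402, .f 8650880, .f 154744958364789593013092483, .f 128, .f 128, .f
    158371643590194586966032518, .f 9044096, .f 128, .f 128, .f 128, .f 128, .f 128, .f 8978560, .f
    128, .f 8519808, .f 154744958400818390040445059, .f 128, .f 128, .f 128, .f 128, .f
    2416560910394797916294, .f 8781953, .f 9109632, .f 128, .f 8519808, .f
    154744958400818390040445059, .f 824642502788, .f 2471901142615930699907, .f 128, .f 128, .f
    158371735859662818730442891, .f 128, .f 158374004772310121881927813, .f 2361220396694397649030,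
    .f 8716416, .f 9044096, .f 154744958364789593013092483, .f 9044096, .f 8978560, .f 192, .f 128,
    .f 128, .f 9044097, .f 36873771713560710, .f 129, .f 8585344, .f 128, .f 128, .f 128, .f 128]
    (by decide +kernel)

theorem rT21 {N t x y L : ℤ} (hD : D N t)
    (c0 : N + t + 3 ≤ x + y + L)
    (c1 : t + 1 ≤ y)
    (c2 : x ≤ t)
    (c3 : t + y + 1 ≤ N)
    (c4 : y + L ≤ N + t + 2)
    (c5 : x + y + L ≠ N + 2 * t + 3)
    (c6 : x + y + L ≠ 2 * N + 3) :
    P (A N t) N x y L := by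
  exact qr21 hD ⟨c0, c1, c2, c3, c4, c5, c6, trivial⟩

/-- hypotheses -/
noncomputable def kr22 : List Fk.C :=
  [.le (.add .N (.k 3)) (.add (.add .x .y) .L), .le (.k 0) .x, .le .x .t, .le (.add (.add .t .x)
  .L) (.add .N (.k 2)), .le (.add (.add .t .y) (.k 1)) .N, .ne (.add .x .L) (.add .t (.k 3)), .ne
  (.add .y (.k 1)) .t, .ne (.add (.add .t .x) .L) (.add .N (.k 3)), .ne (.add (.add .t .y) (.k 1))
  .N]

theorem qr22 {N t x y L : ℤ} (hD : D N t) : Fk.All ⟨N, t, x, y, L⟩ kr22 → P (A N t) N x y L :=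
  Fk.route (fam hD x y L) kr22 .y (.up .x .t)
    [(4, .dn (.sub .N .t) (.add .y (.k 1))), (0, .pt .N), (1, .up (.add (.sub (.sub .N .x) .L) (.k
    3)) .y)]
    [.f 8585344, .f 8650880, .f 154744976811815141699223683, .f 128, .f 128, .f
    2361220678169374359684, .f 8781952, .f 9175168, .f 128, .f 128, .f 128, .f 128, .f
    571239170176, .f 9240704, .f 128, .f 2361220678169374359684, .f 549764595852, .f 549764530306,
    .s 10 (.f 12648576) (.f 8454272), .f 128, .f 128, .f 9175168, .f 160789605908762387674038403,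
    .f 36873793188135044, .f 8519808, .f 36029372553232515, .f 36873793188135044, .f
    2361220959640056234115, .f 8716416, .f 824642240646, .f 128, .f 128, .f 36873797483167876, .f
    129, .f 8716416, .f 128, .f 128, .f 128, .f 128]
    (by decide +kernel)

theorem rT22 {N t x y L : ℤ} (hD : D N t)
    (c0 : N + 3 ≤ x + y + L)
    (c1 : (0 : ℤ) ≤ x)
    (c2 : x ≤ t)
    (c3 : t + x + L ≤ N + 2)
    (c4 : t + y + 1 ≤ N)
    (c5 : x + L ≠ t + 3)
    (c6 : y + 1 ≠ t)
    (c7 : t + x + L ≠ N + 3)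
    (c8 : t + y + 1 ≠ N) :
    P (A N t) N x y L := by
  exact qr22 hD ⟨c0, c1, c2, c3, c4, c5, c6, c7, c8, trivial⟩

/-- hypotheses -/
noncomputable def kr23 : List Fk.C :=
  [.le (.add (.mul 2 .t) (.k 3)) (.add .x .L), .le (.k 0) .x, .le .x .t, .le (.add .x .L) (.add
  (.add .t .y) (.k 2)), .le (.add (.add .t .y) (.k 1)) .N, .ne (.add .x .L) (.add (.add .t .y) (.k
  3)), .ne (.k 1) .t, .ne (.add (.add (.mul 3 .t) .y) (.k 3)) (.add (.add .N .x) .L)]

theorem qr23 {N t x y L : ℤ} (hD : D N t) : Fk.All ⟨N, t, x, y, L⟩ kr23 → P (A N t) N x y L :=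
  Fk.route (fam hD x y L) kr23 .y (.up .x .t)
    [(4, .up (.sub .N .t) (.sub .N (.k 1))), (0, .pt .N), (1, .up (.add (.sub (.sub (.add (.mul 2
    .t) .y) .x) .L) (.k 3)) .y)]
    [.f 8585344, .f 8650880, .f 154744939918326994280054918, .f 128, .f 128, .f
    161998494836014769328095363, .f 9109632, .f 128, .f 128, .f 128, .f 128, .f 128, .f 9044096, .f
    9175168, .f 128, .f 9175168, .f 128, .f 154744939918326994280054918, .s 8 (.f 8454272) (.f
    12648576), .f 128, .f 128, .f 128, .f 162000782232279909312692353, .f 37436738846589059, .f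
    8519808, .f 36029363963232390, .f 37436738846589059, .f 2361220396690102747270, .f 8716416, .f
    824642240646, .f 128, .f 128, .f 37718213823365251, .f 8781953, .f 8716416, .f 128, .f 128, .f
    128, .f 128]
    (by decide +kernel)

theorem rT23 {N t x y L : ℤ} (hD : D N t)
    (c0 : 2 * t + 3 ≤ x + L)
    (c1 : (0 : ℤ) ≤ x)
    (c2 : x ≤ t)
    (c3 : x + L ≤ t + y + 2)
    (c4 : t + y + 1 ≤ N)
    (c5 : x + L ≠ t + y + 3)
    (c6 : (1 : ℤ) ≠ t)
    (c7 : 3 * t + y + 3 ≠ N + x + L) :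
    P (A N t) N x y L := by
  exact qr23 hD ⟨c0, c1, c2, c3, c4, c5, c6, c7, trivial⟩

/-- hypotheses -/
noncomputable def kr24 : List Fk.C :=
  [.le (.add .N (.k 2)) (.add (.add .t .y) .L), .le (.k 0) .x, .le (.add (.add .t .x) .L) (.add .N
  (.k 1)), .le (.add (.add .t .y) (.k 1)) .N, .ne (.add (.add .x .y) .L) (.add .N (.k 2)), .ne
  (.add (.add (.add (.mul 2 .t) .x) .y) .L) (.add (.mul 2 .N) (.k 2))]

theorem qr24 {N t x y L : ℤ} (hD : D N t) : Fk.All ⟨N, t, x, y, L⟩ kr24 → P (A N t) N x y L :=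
  Fk.route (fam hD x y L) kr24 .y (.up .x (.sub (.sub (.add (.add (.add .t .x) .y) .L) .N) (.k 2)))
    [(0, .pt .N), (1, .dn (.sub (.sub .N .t) (.k 1)) .y)]
    [.f 8585344, .f 8519808, .f 36029368258265225, .f 128, .f 128, .f 9044096, .f 128, .f
    549764399234, .f 36029368258265225, .s 6 (.f 12648576) (.f 8454272), .f 824642437252, .f 128,
    .f 128, .f 38562643048661120, .f 36029363963232386, .f 8716416, .f 8978560, .f
    2361220678173669392514, .f 8978560, .f 8913024, .f 192, .f 128, .f 128, .f 8978561, .f 8650880,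
    .f 128, .f 128, .f 128, .f 128]
    (by decide +kernel)

theorem rT24 {N t x y L : ℤ} (hD : D N t)
    (c0 : N + 2 ≤ t + y + L)
    (c1 : (0 : ℤ) ≤ x)
    (c2 : t + x + L ≤ N + 1)
    (c3 : t + y + 1 ≤ N)
    (c4 : x + y + L ≠ N + 2)
    (c5 : 2 * t + x + y + L ≠ 2 * N + 2) :
    P (A N t) N x y L := by
  exact qr24 hD ⟨c0, c1, c2, c3, c4, c5, trivial⟩

/-- hypotheses -/
noncomputable def kr25 : List Fk.C :=
  [.le (.add .N (.k 4)) (.add (.add (.add .t .x) .y) .L), .le .x (.k 0), .le (.k 0) .x, .le (.add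
  (.add (.mul 2 .t) .x) .L) (.add .N (.k 3)), .le (.add .t .y) .N, .ne (.add (.add (.add .t .x) .y)
  .L) (.add .N (.k 4)), .ne (.add (.add (.add (.mul 3 .t) .x) .y) .L) (.add (.mul 2 .N) (.k 4))]

theorem qr25 {N t x y L : ℤ} (hD : D N t) : Fk.All ⟨N, t, x, y, L⟩ kr25 → P (A N t) N x y L :=
  Fk.route (fam hD x y L) kr25 .y (.up .x (.k 0))
    [(0, .pt .N), (1, .dn (.sub (.sub (.add (.add (.add (.mul 2 .t) .x) .y) .L) .N) (.k 4)) .t),
    (4, .dn (.sub .N .t) .y)]
    [.f 8650880, .f 8585344, .f 9109632, .f 128, .f 128, .f 9109632, .f 128, .f 128, .f 9109632, .f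
    9044160, .f 824642699402, .f 128, .f 128, .f 9109632, .f 9044096, .f 8519808, .f
    36029372553298058, .f 549764333706, .f 36029372553298058, .s 7 (.f 12648576) (.f 8454272), .f
    824642502789, .f 128, .f 128, .f 37436747436589194, .f 9044096, .f 38844096550600834, .f
    8781952, .f 9044096, .f 128, .f 128, .f 128, .f 128, .f 8716416, .f 9044097, .f
    37436721666850954, .f 128, .f 128, .f 128, .f 128]
    (by decide +kernel)

theorem rT25 {N t x y L : ℤ} (hD : D N t)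
    (c0 : N + 4 ≤ t + x + y + L)
    (c1 : x ≤ 0)
    (c2 : (0 : ℤ) ≤ x)
    (c3 : 2 * t + x + L ≤ N + 3)
    (c4 : t + y ≤ N)
    (c5 : t + x + y + L ≠ N + 4)
    (c6 : 3 * t + x + y + L ≠ 2 * N + 4) :
    P (A N t) N x y L := by
  exact qr25 hD ⟨c0, c1, c2, c3, c4, c5, c6, trivial⟩

/-- hypotheses -/
noncomputable def kr26 : List Fk.C :=
  [.le (.add .x (.k 1)) .y, .le .L (.add .y (.k 2)), .le (.add .y (.k 2)) (.add .x .L), .le (.add
  .y (.k 1)) .N, .ne (.add .x (.k 1)) .t, .ne (.add .y (.k 2)) (.add .t .L), .ne (.add (.add .t .x)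
  (.k 1)) .N, .ne (.add (.add .t .y) (.k 2)) (.add .N .L)]

theorem qr26 {N t x y L : ℤ} (hD : D N t) : Fk.All ⟨N, t, x, y, L⟩ kr26 → P (A N t) N x y L :=
  Fk.route (fam hD x y L) kr26 .y (.dn .x (.add (.sub .y .L) (.k 2)))
    [(0, .pt .N), (1, .up (.add .x (.k 1)) .y)]
    [.f 8585344, .f 8650880, .f 549764333701, .f 128, .f 128, .f 9175168, .f 128, .f 8585344, .f
    36029363963166853, .s 7 (.f 12648576) (.f 8454272), .s 9 (.f 12648576) (.f 8454272), .f 128, .f
    128, .f 571239170176, .f 549764464771, .f 8519808, .f 8716416, .f 549764464771, .f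
    549764333701, .s 6 (.f 12648576) (.f 8454272), .s 8 (.f 12648576) (.f 8454272), .f 128, .f 128,
    .f 8716417, .f 128, .f 128, .f 128, .f 128, .f 128]
    (by decide +kernel)

theorem rT26 {N t x y L : ℤ} (hD : D N t)
    (c0 : x + 1 ≤ y)
    (c1 : L ≤ y + 2)
    (c2 : y + 2 ≤ x + L)
    (c3 : y + 1 ≤ N)
    (c4 : x + 1 ≠ t)
    (c5 : y + 2 ≠ t + L)
    (c6 : t + x + 1 ≠ N)
    (c7 : t + y + 2 ≠ N + L) :
    P (A N t) N x y L := by
  exact qr26 hD ⟨c0, c1, c2, c3, c4, c5, c6, c7, trivial⟩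

/-- hypotheses -/
noncomputable def kr27 : List Fk.C :=
  [.le (.add .x (.k 2)) .L, .le .L (.add .y (.k 1)), .le (.k 1) .x, .le (.add .y (.k 1)) .N, .ne
  (.add (.add .x .y) (.k 2)) (.add .t .L), .ne (.k 1) .t, .ne (.add (.add (.add .t .x) .y) (.k 2))
  (.add .N .L)]

theorem qr27 {N t x y L : ℤ} (hD : D N t) : Fk.All ⟨N, t, x, y, L⟩ kr27 → P (A N t) N x y L :=
  Fk.route (fam hD x y L) kr27 .y (.dn .x (.k 1))
    [(0, .pt .N), (1, .up (.add (.sub (.add .x .y) .L) (.k 2)) .y)]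
    [.f 128, .f 8650880, .f 36029355373297797, .f 128, .f 128, .f 9109632, .f 128, .f 128, .f
    9109632, .s 7 (.f 12648576) (.f 8454272), .f 165625235400807568082206853, .f 128, .f 128, .f
    37436730256851072, .f 562649104516, .f 8519808, .f 8716416, .f 562649104516, .f 549764333701,
    .s 6 (.f 12648576) (.f 8454272), .s 8 (.f 12648576) (.f 8454272), .f 128, .f 128, .f 8716417,
    .f 8585344, .f 128, .f 128, .f 128, .f 128]
    (by decide +kernel)

theorem rT27 {N t x y L : ℤ} (hD : D N t)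
    (c0 : x + 2 ≤ L)
    (c1 : L ≤ y + 1)
    (c2 : (1 : ℤ) ≤ x)
    (c3 : y + 1 ≤ N)
    (c4 : x + y + 2 ≠ t + L)
    (c5 : (1 : ℤ) ≠ t)
    (c6 : t + x + y + 2 ≠ N + L) :
    P (A N t) N x y L := by
  exact qr27 hD ⟨c0, c1, c2, c3, c4, c5, c6, trivial⟩

/-- hypotheses -/
noncomputable def kr28 : List Fk.C :=
  [.le .N (.add .t .y), .le (.add .t .L) (.add (.add .x .y) (.k 3)), .le (.add .x (.k 1)) .t, .le
  (.add .y (.k 3)) (.add .t .L), .le (.add .y (.k 1)) .N, .ne (.add (.add .x .y) (.k 3)) (.add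
  (.mul 2 .t) .L), .ne (.add (.add .x .y) (.k 3)) (.add .N .L)]

theorem qr28 {N t x y L : ℤ} (hD : D N t) : Fk.All ⟨N, t, x, y, L⟩ kr28 → P (A N t) N x y L :=
  Fk.route (fam hD x y L) kr28 .y (.dn .x (.add (.sub (.sub (.add .x .y) .t) .L) (.k 3)))
    [(0, .pt .N), (1, .dn (.sub (.sub .N .t) (.k 1)) .t), (4, .up (.sub .N .t) .y)]
    [.f 8585344, .f 8716416, .f 2361256425491416809609, .f 128, .f 128, .f 9109632, .f 128, .f
    8585344, .f 2361256425491425198217, .f 566948266117, .f 54043783947681924, .f 128, .f 128, .f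
    4796190332974859812993, .f 9044096, .f 8978560, .f 9044096, .f 2361220396694397845641, .f
    9044096, .f 8978560, .f 192, .f 128, .f 128, .f 9044097, .f 8650880, .f 2435006247089329209481,
    .f 8519808, .f 8781952, .f 128, .f 128, .f 128, .f 128, .f 128, .f 8781953, .f 566944071817, .f
    128, .f 128, .f 128, .f 128]
    (by decide +kernel)

theorem rT28 {N t x y L : ℤ} (hD : D N t)
    (c0 : N ≤ t + y)
    (c1 : t + L ≤ x + y + 3)
    (c2 : x + 1 ≤ t)
    (c3 : y + 3 ≤ t + L)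
    (c4 : y + 1 ≤ N)
    (c5 : x + y + 3 ≠ 2 * t + L)
    (c6 : x + y + 3 ≠ N + L) :
    P (A N t) N x y L := by
  exact qr28 hD ⟨c0, c1, c2, c3, c4, c5, c6, trivial⟩

/-- hypotheses -/
noncomputable def kr29 : List Fk.C :=
  [.le (.add .N (.k 3)) (.add .y .L), .le (.k 1) .x, .le (.add .x .L) (.add .N (.k 2)), .le (.add
  .y (.k 1)) .N, .ne (.add (.add .x .y) .L) (.add (.add .N .t) (.k 3)), .ne (.add (.add (.add .t
  .x) .y) .L) (.add (.mul 2 .N) (.k 3))]

theorem qr29 {N t x y L : ℤ} (hD : D N t) : Fk.All ⟨N, t, x, y, L⟩ kr29 → P (A N t) N x y L :=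
  Fk.route (fam hD x y L) kr29 .y (.up .x (.sub (.sub (.add (.add .x .y) .L) .N) (.k 3)))
    [(0, .pt .N), (1, .pt (.k 0)), (3, .dn (.sub .N (.k 1)) .y)]
    [.f 8585344, .f 8519808, .f 549764530308, .f 128, .f 128, .f 9044096, .f 128, .f 549764333699,
    .f 549764530308, .s 6 (.f 12648576) (.f 8454272), .s 7 (.f 12648576) (.f 8454272), .f 128, .f
    128, .f 566944399488, .f 128, .f 9044096, .f 128, .f 9044096, .f 8978624, .f
    164416364921143680764477572, .f 128, .f 128, .f 9044097, .f 8585345, .f 37155246690140291, .f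
    8716416, .f 128, .f 128, .f 128, .f 128, .f 128, .f 37155246690140291, .f 129, .f 8650880, .f
    128, .f 128, .f 128, .f 128]
    (by decide +kernel)

theorem rT29 {N t x y L : ℤ} (hD : D N t)
    (c0 : N + 3 ≤ y + L)
    (c1 : (1 : ℤ) ≤ x)
    (c2 : x + L ≤ N + 2)
    (c3 : y + 1 ≤ N)
    (c4 : x + y + L ≠ N + t + 3)
    (c5 : t + x + y + L ≠ 2 * N + 3) :
    P (A N t) N x y L := by
  exact qr29 hD ⟨c0, c1, c2, c3, c4, c5, trivial⟩

/-- hypotheses -/
noncomputable def kr30 : List Fk.C :=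
  [.le .N (.add .t .y), .le (.add .N .L) (.add (.add (.add .t .x) .y) (.k 3)), .le (.add (.add
  (.mul 2 .t) .y) (.k 4)) (.add .N .L), .le (.add (.add .t .x) (.k 1)) .N, .le (.add .y (.k 1)) .N,
  .ne (.add (.add (.add .t .x) .y) (.k 4)) (.add .N .L), .ne (.add (.add (.add (.mul 3 .t) .x) .y)
  (.k 4)) (.add (.mul 2 .N) .L)]

theorem qr30 {N t x y L : ℤ} (hD : D N t) : Fk.All ⟨N, t, x, y, L⟩ kr30 → P (A N t) N x y L :=
  Fk.route (fam hD x y L) kr30 .y (.dn .x (.add (.sub (.sub (.add (.add (.mul 2 .t) .x) .y) .N) .L) (.k 4)))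
    [(0, .pt .N), (1, .up (.k 0) .t), (4, .up (.sub .N .t) .y)]
    [.f 36873780303626368, .f 8650880, .f 36029372553101445, .f 128, .f 128, .f 9109632, .f 128, .f
    36873780303626368, .f 2361220959648646037637, .f 8585344, .f 824642371717, .f 128, .f 128, .f
    37436730256654470, .f 128, .f 9044096, .f 160789495229142374633570438, .f 128, .f 9109632, .f
    9044160, .f 160790675820763092044873862, .f 128, .f 128, .f 2453489301439329271947, .f 8585345,
    .f 160789569015555719518224518, .f 8519808, .f 8781952, .f 128, .f 128, .f 128, .f 128, .f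
    8978560, .f 8781953, .f 8716416, .f 128, .f 128, .f 128, .f 128]
    (by decide +kernel)

theorem rT30 {N t x y L : ℤ} (hD : D N t)
    (c0 : N ≤ t + y)
    (c1 : N + L ≤ t + x + y + 3)
    (c2 : 2 * t + y + 4 ≤ N + L)
    (c3 : t + x + 1 ≤ N)
    (c4 : y + 1 ≤ N)
    (c5 : t + x + y + 4 ≠ N + L)
    (c6 : 3 * t + x + y + 4 ≠ 2 * N + L) :
    P (A N t) N x y L := by
  exact qr30 hD ⟨c0, c1, c2, c3, c4, c5, c6, trivial⟩

/-- hypotheses -/
noncomputable def kr31 : List Fk.C :=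
  [.le (.add .t (.k 2)) (.add .x .L), .le (.add .x .L) (.add .y (.k 2)), .le (.k 0) .x, .le (.add
  .x (.k 1)) .t, .le (.add .y (.k 1)) .N, .ne (.add .y (.k 2)) (.add .x .L), .ne (.add (.add (.mul
  2 .t) .y) (.k 2)) (.add (.add .N .x) .L)]

theorem qr31 {N t x y L : ℤ} (hD : D N t) : Fk.All ⟨N, t, x, y, L⟩ kr31 → P (A N t) N x y L :=
  Fk.route (fam hD x y L) kr31 .y (.up .x (.sub .t (.k 1)))
    [(0, .pt .N), (1, .up (.add (.sub (.sub (.add .t .y) .x) .L) (.k 2)) .y)]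
    [.f 8650880, .f 8716416, .f 36029359668199558, .f 128, .f 128, .f 9109632, .f 128, .f 9044096,
    .f 36029359668199558, .f 192, .f 8978624, .f 128, .f 128, .f 37718209528463488, .f
    36873793188135044, .f 8519808, .f 8781952, .f 36873793188135044, .f 549764333702, .s 7 (.f
    12648576) (.f 8454272), .s 8 (.f 12648576) (.f 8454272), .f 128, .f 128, .f 8781953, .f
    8585344, .f 128, .f 128, .f 128, .f 128]
    (by decide +kernel)

theorem rT31 {N t x y L : ℤ} (hD : D N t)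
    (c0 : t + 2 ≤ x + L)
    (c1 : x + L ≤ y + 2)
    (c2 : (0 : ℤ) ≤ x)
    (c3 : x + 1 ≤ t)
    (c4 : y + 1 ≤ N)
    (c5 : y + 2 ≠ x + L)
    (c6 : 2 * t + y + 2 ≠ N + x + L) :
    P (A N t) N x y L := by
  exact qr31 hD ⟨c0, c1, c2, c3, c4, c5, c6, trivial⟩

/-- hypotheses -/
noncomputable def kr32 : List Fk.C :=
  [.le .N (.add .t .y), .le (.add (.add .N .x) .L) (.add (.add (.mul 2 .t) .y) (.k 2)), .le (.k 0)
  .x, .le .x .t, .le (.add (.add (.mul 2 .t) .y) (.k 2)) (.add (.add .N .x) .L), .le (.add .y (.k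
  1)) .N]

theorem qr32 {N t x y L : ℤ} (hD : D N t) : Fk.All ⟨N, t, x, y, L⟩ kr32 → P (A N t) N x y L :=
  Fk.route (fam hD x y L) kr32 .y (.up .x .t)
    [(4, .up (.sub .N .t) .y)]
    [.f 8650880, .f 8716416, .f 36029381143036039, .f 128, .f 128, .f 38281155186786439, .f
    8519808, .f 8847488, .f 128, .f 128, .f 128, .f 128, .f 8913024, .f 128, .f 128, .f 8781952, .f
    8585344]
    (by decide +kernel)

theorem rT32 {N t x y L : ℤ} (hD : D N t)
    (c0 : N ≤ t + y)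
    (c1 : N + x + L ≤ 2 * t + y + 2)
    (c2 : (0 : ℤ) ≤ x)
    (c3 : x ≤ t)
    (c4 : 2 * t + y + 2 ≤ N + x + L)
    (c5 : y + 1 ≤ N) :
    P (A N t) N x y L := by
  exact qr32 hD ⟨c0, c1, c2, c3, c4, c5, trivial⟩

/-- hypotheses -/
noncomputable def kr33 : List Fk.C :=
  [.le (.add .t (.k 4)) (.add .x .L), .le (.add .x .L) (.add .y (.k 2)), .le (.k 0) .x, .le .x
  (.add .t (.k 1)), .le (.add .y (.k 1)) .N, .ne (.add .y (.k 4)) (.add .x .L), .ne (.add (.add
  (.mul 2 .t) .y) (.k 4)) (.add (.add .N .x) .L)]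

theorem qr33 {N t x y L : ℤ} (hD : D N t) : Fk.All ⟨N, t, x, y, L⟩ kr33 → P (A N t) N x y L :=
  Fk.route (fam hD x y L) kr33 .y (.up .x (.add .t (.k 1)))
    [(0, .pt .N), (1, .up (.add (.sub (.sub (.add .t .y) .x) .L) (.k 4)) .y)]
    [.f 8650880, .f 8716416, .f 36029359668199558, .f 128, .f 128, .f 9109632, .f 128, .f 9044096,
    .f 36029359668199558, .f 128, .f 8978624, .f 128, .f 128, .f 37718196643627138, .f
    36873793188135044, .f 8519808, .f 8781952, .f 36873793188135044, .f 549764333702, .f 8585344,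
    .s 8 (.f 12648576) (.f 8454272), .f 128, .f 128, .f 8781953, .f 8585344, .f 128, .f 128, .f
    128, .f 128]
    (by decide +kernel)

theorem rT33 {N t x y L : ℤ} (hD : D N t)
    (c0 : t + 4 ≤ x + L)
    (c1 : x + L ≤ y + 2)
    (c2 : (0 : ℤ) ≤ x)
    (c3 : x ≤ t + 1)
    (c4 : y + 1 ≤ N)
    (c5 : y + 4 ≠ x + L)
    (c6 : 2 * t + y + 4 ≠ N + x + L) :
    P (A N t) N x y L := by
  exact qr33 hD ⟨c0, c1, c2, c3, c4, c5, c6, trivial⟩

/-- hypotheses -/
noncomputable def kr34 : List Fk.C :=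
  [.le (.add .N (.k 2)) (.add .y .L), .le (.add .x (.k 1)) .y, .le (.add .y (.k 1)) .N, .le (.add
  .y .L) (.add (.add .N .x) (.k 2)), .ne (.k 1) .t, .ne (.add .y .L) (.add (.add .t .x) (.k 2)),
  .ne (.add (.add .t .y) .L) (.add (.add .N .x) (.k 2))]

theorem qr34 {N t x y L : ℤ} (hD : D N t) : Fk.All ⟨N, t, x, y, L⟩ kr34 → P (A N t) N x y L :=
  Fk.route (fam hD x y L) kr34 .y (.dn .x (.add (.sub (.sub (.add .N .x) .y) .L) (.k 2)))
    [(0, .pt .N), (1, .dn (.sub .N (.k 1)) .y)]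
    [.f 8716416, .f 8519808, .f 549764464771, .f 128, .f 128, .f 9109632, .f 128, .f 8716416, .f
    36029363963166851, .s 8 (.f 8454272) (.f 12648576), .s 7 (.f 8454272) (.f 12648576), .f 128, .f
    128, .f 562649104516, .f 36873771713429637, .f 8650880, .f 128, .f 9109632, .f 128, .f
    165625272294014244815372419, .s 6 (.f 8454272) (.f 12648576), .f 128, .f 128, .f 129, .f
    8585344, .f 128, .f 128, .f 128, .f 128]
    (by decide +kernel)

theorem rT34 {N t x y L : ℤ} (hD : D N t)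
    (c0 : N + 2 ≤ y + L)
    (c1 : x + 1 ≤ y)
    (c2 : y + 1 ≤ N)
    (c3 : y + L ≤ N + x + 2)
    (c4 : (1 : ℤ) ≠ t)
    (c5 : y + L ≠ t + x + 2)
    (c6 : t + y + L ≠ N + x + 2) :
    P (A N t) N x y L := by
  exact qr34 hD ⟨c0, c1, c2, c3, c4, c5, c6, trivial⟩

/-- hypotheses -/
noncomputable def kr35 : List Fk.C :=
  [.le (.add .N (.k 3)) (.add .y .L), .le (.add .x (.k 1)) .y, .le (.add .y (.k 1)) .N, .le (.add
  .y .L) (.add (.add .N .x) (.k 2)), .ne .x .t, .ne (.add .t .x) .N, .ne (.add .y .L) (.add (.add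
  .N .t) (.k 3)), .ne (.add (.add .t .y) .L) (.add (.mul 2 .N) (.k 3))]

theorem qr35 {N t x y L : ℤ} (hD : D N t) : Fk.All ⟨N, t, x, y, L⟩ kr35 → P (A N t) N x y L :=
  Fk.route (fam hD x y L) kr35 .y (.pt .x)
    [(0, .pt .N), (1, .dn (.sub (.sub (.add .y .L) .N) (.k 3)) (.k 0)), (3, .dn (.sub .N (.k 1))
    .y)]
    [.f 549764333701, .f 562649366656, .f 128, .f 128, .f 9175168, .f 128, .f 549764333701, .f
    549764464771, .s 6 (.f 12648576) (.f 8454272), .s 7 (.f 12648576) (.f 8454272), .f 128, .f 128,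
    .f 549764464771, .f 128, .f 8519808, .f 37436738846589059, .f 8519808, .f 37436738846589059, .s
    8 (.f 12648576) (.f 8454272), .s 9 (.f 12648576) (.f 8454272), .f 128, .f 128, .f
    36873788893233285, .f 8716417, .f 36873771713429637, .f 8650880, .f 128, .f 128, .f 128, .f
    128, .f 128, .f 549764399237, .f 129, .f 8585344, .f 128, .f 128, .f 128, .f 128]
    (by decide +kernel)

theorem rT35 {N t x y L : ℤ} (hD : D N t)
    (c0 : N + 3 ≤ y + L)
    (c1 : x + 1 ≤ y)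
    (c2 : y + 1 ≤ N)
    (c3 : y + L ≤ N + x + 2)
    (c4 : x ≠ t)
    (c5 : t + x ≠ N)
    (c6 : y + L ≠ N + t + 3)
    (c7 : t + y + L ≠ 2 * N + 3) :
    P (A N t) N x y L := by
  exact qr35 hD ⟨c0, c1, c2, c3, c4, c5, c6, c7, trivial⟩

/-- hypotheses -/
noncomputable def kr36 : List Fk.C :=
  [.le (.add (.add .N .t) (.k 2)) (.add .y .L), .le (.add .x (.k 1)) .y, .le (.add .y (.k 1)) .N,
  .le (.add .y .L) (.add (.add .N .x) (.k 2)), .ne (.add .y .L) (.add (.add (.mul 2 .t) .x) (.k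
  2)), .ne (.add .y .L) (.add (.add .N .x) (.k 2))]

theorem qr36 {N t x y L : ℤ} (hD : D N t) : Fk.All ⟨N, t, x, y, L⟩ kr36 → P (A N t) N x y L :=
  Fk.route (fam hD x y L) kr36 .y (.dn .x (.add (.sub (.sub (.add (.add .N .t) .x) .y) .L) (.k 2)))
    [(0, .pt .N), (1, .dn (.sub .t (.k 1)) (.k 0)), (3, .dn (.sub .N (.k 1)) .y)]
    [.f 571239039113, .f 8519808, .f 549764464771, .f 128, .f 128, .f 9044096, .f 128, .f
    571239039113, .f 36029363963166851, .s 7 (.f 8454272) (.f 12648576), .s 6 (.f 8454272) (.f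
    12648576), .f 128, .f 128, .f 562649104516, .f 128, .f 8978560, .f 2453454117058650308739, .f
    8978560, .f 2453454117058650308739, .f 192, .f 8913088, .f 128, .f 128, .f
    2416560628911231533185, .f 8716417, .f 2416559503011324690569, .f 8650880, .f 128, .f 128, .f
    128, .f 128, .f 128, .f 37436730256851072, .f 129, .f 8585344, .f 128, .f 128, .f 128, .f 128]
    (by decide +kernel)

theorem rT36 {N t x y L : ℤ} (hD : D N t)
    (c0 : N + t + 2 ≤ y + L)
    (c1 : x + 1 ≤ y)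
    (c2 : y + 1 ≤ N)
    (c3 : y + L ≤ N + x + 2)
    (c4 : y + L ≠ 2 * t + x + 2)
    (c5 : y + L ≠ N + x + 2) :
    P (A N t) N x y L := by
  exact qr36 hD ⟨c0, c1, c2, c3, c4, c5, trivial⟩

/-- hypotheses -/
noncomputable def kr37 : List Fk.C :=
  [.le (.add (.add .N .x) (.k 1)) (.add (.add .t .y) .L), .le (.add .t (.k 2)) .x, .le (.add .x (.k
  1)) .y, .le (.add .y (.k 1)) .N, .le (.add .y .L) (.add (.add .N .x) (.k 2)), .ne (.add .y .L)
  (.add (.add .N .x) (.k 1)), .ne (.add (.add (.mul 2 .t) .y) .L) (.add (.add (.mul 2 .N) .x) (.k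
  1))]

theorem qr37 {N t x y L : ℤ} (hD : D N t) : Fk.All ⟨N, t, x, y, L⟩ kr37 → P (A N t) N x y L :=
  Fk.route (fam hD x y L) kr37 .y (.dn .x (.add .t (.k 2)))
    [(0, .pt .N), (1, .dn (.sub (.sub (.sub (.add (.add .t .y) .L) .N) .x) (.k 1)) (.k 0)), (3, .dn
    (.sub .N (.k 1)) .y)]
    [.f 9044096, .f 8585344, .f 549764530308, .f 128, .f 128, .f 9109632, .f 128, .f 9044096, .f
    36029368258199684, .f 128, .f 8978624, .f 128, .f 128, .f 566944399488, .f 128, .f 8519808, .f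
    2471901142611631538308, .f 8519808, .f 2471901142611631538308, .s 7 (.f 12648576) (.f 8454272),
    .f 588423102598, .f 128, .f 128, .f 2435007654464212828289, .f 8781953, .f
    2435006247089329275010, .f 8716416, .f 128, .f 128, .f 128, .f 128, .f 128, .f
    37155246690205830, .f 129, .f 8650880, .f 128, .f 128, .f 128, .f 128]
    (by decide +kernel)

theorem rT37 {N t x y L : ℤ} (hD : D N t)
    (c0 : N + x + 1 ≤ t + y + L)
    (c1 : t + 2 ≤ x)
    (c2 : x + 1 ≤ y)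
    (c3 : y + 1 ≤ N)
    (c4 : y + L ≤ N + x + 2)
    (c5 : y + L ≠ N + x + 1)
    (c6 : 2 * t + y + L ≠ 2 * N + x + 1) :
    P (A N t) N x y L := by
  exact qr37 hD ⟨c0, c1, c2, c3, c4, c5, c6, trivial⟩


/-- table of hypotheses -/
noncomputable def tabr : List (List Fk.C) :=
  [kr0, kr1, kr2, kr3, kr4, kr5, kr6, kr7, kr8, kr9, kr10, kr11, kr12, kr13, kr14, kr15, kr16,
  kr17, kr18, kr19, kr20, kr21, kr22, kr23, kr24, kr25, kr26, kr27, kr28, kr29, kr30, kr31, kr32,
  kr33, kr34, kr35, kr36, kr37]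

theorem tbr {N t x y L : ℤ} (hD : D N t) : Fk.Tab ⟨N, t, x, y, L⟩ (P (A N t) N x y L) tabr :=
  ⟨qr0 hD, qr1 hD, qr2 hD, qr3 hD, qr4 hD, qr5 hD, qr6 hD, qr7 hD, qr8 hD, qr9 hD, qr10 hD, qr11
  hD, qr12 hD, qr13 hD, qr14 hD, qr15 hD, qr16 hD, qr17 hD, qr18 hD, qr19 hD, qr20 hD, qr21 hD,
  qr22 hD, qr23 hD, qr24 hD, qr25 hD, qr26 hD, qr27 hD, qr28 hD, qr29 hD, qr30 hD, qr31 hD, qr32
  hD, qr33 hD, qr34 hD, qr35 hD, qr36 hD, qr37 hD, trivial⟩

theorem rn1 {N t x y L : ℤ} (hD : D N t)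
    (h0 : (0 : ℤ) ≤ x)
    (h1 : x + 1 ≤ y)
    (h2 : y + 1 ≤ N)
    (h3 : (4 : ℤ) ≤ L)
    (h4 : L ≤ N + 1)
    (h5 : y + L ≤ N + 2) :
    P (A N t) N x y L := by
  exact Fk.tree (fam hD x y L) (tbr hD)
    [.le (.k 0) .x, .le (.add .x (.k 1)) .y, .le (.add .y (.k 1)) .N, .le (.k 4) .L, .le .L (.add
    .N (.k 1)), .le (.add .y .L) (.add .N (.k 2))]
    (.nd (.add .N (.k 4)) (.add (.add .t .y) .L) (.nd (.add .x (.k 1)) .t (.lf 0 [.f 8716416, .f
    8847488, .f 8650880, .f 8978560, .f 8519872, .f 562649104522, .f 558354792640, .f 8585344])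
    (.nd (.add .t (.k 2)) .x (.nd (.add (.add .t .x) (.k 1)) .N (.lf 0 [.f 8847488, .f 8978560, .f
    8781952, .f 9109632, .f 8585344, .f 36029368258199682, .f 8519872, .f 8716416]) (.nd (.add
    (.add .t .x) (.k 4)) (.add .N .L) (.lf 1 [.f 8585344, .f 8913024, .f 601304006784, .f 8519808,
    .f 36029359668592770, .f 38281155190980740]) (.lf 0 [.f 8913024, .f 9044096, .f 8847488, .f
    9175168, .f 8650880, .f 36029389733101704, .f 558354792576, .f 8781952]))) (.nd (.add .t (.k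
    2)) .y (.nd (.add .N (.k 5)) (.add (.add .x .y) .L) (.lf 2 [.f 8585344, .f 571239694464, .f
    8847488, .f 8650880, .f 549764464780, .f 37436764616589440, .f 8519808]) (.nd (.add (.add .t
    .y) (.k 1)) .N (.lf 3 [.f 8847488, .f 8978560, .f 8519808, .f 549764595853, .f
    2416597502141770236034, .f 562649104647]) (.lf 4 [.f 8519808, .f 562657624192, .f 8913024, .f
    8716416, .f 36874368722534528, .f 9044096]))) (.lf 3 [.f 8716416, .f 8847488, .f 549764333708,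
    .f 549764464779, .f 588418908295, .f 562649104517])))) (.nd (.k 1) .x (.nd .x .t (.nd (.add .t
    (.k 5)) (.add .y .L) (.lf 5 [.f 8847488, .f 8978560, .f 8650880, .f 9109632, .f 8585408, .f
    8519808, .f 54043758177681541, .f 8716480]) (.nd (.add .y .L) (.add .t (.k 3)) (.lf 5 [.f
    8913024, .f 9044096, .f 8716416, .f 9175168, .f 8650944, .f 8519872, .f 37718239593627840, .f
    8782016]) (.lf 0 [.f 8913024, .f 9044096, .f 8716416, .f 9175168, .f 36873814667165832, .f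
    8519808, .f 54043762472648838, .f 824642306189]))) (.nd (.add .t (.k 2)) .x (.lf 5 [.f 8847488,
    .f 8978560, .f 8650880, .f 9109632, .f 8519808, .f 36029385438331010, .f 37436760321884352, .f
    8716480]) (.nd (.add .t (.k 3)) .y (.lf 6 [.f 8519808, .f 566944727168, .f 8716416, .f 8585344,
    .f 37718759284146309, .f 36029389732970628, .f 575534203072]) (.nd (.add .x (.k 4)) (.add .t
    .L) (.lf 7 [.f 8716416, .f 8978560, .f 8519808, .f 579829366912, .f 37436760321556608, .f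
    824642437255]) (.nd (.add (.add .x .y) .L) (.add .N (.k 3)) (.lf 2 [.f 575534661760, .f
    562658279552, .f 8847488, .f 8716416, .f 37999680210403456, .f 72903719784153216, .f 8519872])
    (.lf 8 [.f 549764333829, .f 8781952, .f 9044096, .f 584124334208, .f 584124727424])))))) (.nd
    (.add (.add .t .x) (.k 5)) (.add .y .L) (.nd (.k 2) .t (.lf 9 [.f 566944661632, .f 8847488, .f
    8781952, .f 36029372553101445, .f 8519872, .f 8585344, .f 824642502789]) (.nd (.add (.add (.mul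
    2 .t) .y) .L) (.add (.add .N .x) (.k 3)) (.lf 7 [.f 562649563264, .f 8913024, .f
    36029389733167246, .f 575534465152, .f 549764857992, .f 8519872]) (.nd (.add .t (.k 1)) .y (.lf
    10 [.f 73184056602787968, .f 8519808, .f 8913024, .f 579829170304, .f 549764857988, .f
    1129584984192]) (.lf 11 [.f 37155246690533507, .f 8913024, .f 8519808, .f 588419367040, .f
    562657951936, .f 2416560911507198574728])))) (.nd (.add .y (.k 1)) .t (.nd .L (.add (.add .t
    .x) (.k 2)) (.lf 12 [.f 571239694464, .f 8913024, .f 8847488, .f 2508794912221151297667, .f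
    8585408, .f 8519872, .f 824642764934, .f 37718231012016320]) (.lf 0 [.f 8913024, .f 9044096, .f
    8847488, .f 9175168, .f 584128135299, .f 36029355381948552, .f 232116155517048907221893254, .f
    2398130773894470566029])) (.lf 0 [.f 8847488, .f 8978560, .f 8781952, .f 9109632, .f
    2435008780626112479367, .f 549764792450, .f 37155255284138120, .f 37155298233811075])))))
    (by decide +kernel) ⟨h0, h1, h2, h3, h4, h5, trivial⟩

theorem rn3 {N t x y L : ℤ} (hD : D N t)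
    (h0 : (0 : ℤ) ≤ x)
    (h1 : x + 1 ≤ y)
    (h2 : y + 1 ≤ N)
    (h3 : (4 : ℤ) ≤ L)
    (h4 : L ≤ N + 1)
    (h5 : ¬ (y + L ≤ N + 2))
    (h6 : N + x + 2 ≤ y + L) :
    P (A N t) N x y L := by
  exact Fk.tree (fam hD x y L) (tbr hD)
    [.le (.k 0) .x, .le (.add .x (.k 1)) .y, .le (.add .y (.k 1)) .N, .le (.k 4) .L, .le .L (.add
    .N (.k 1)), .nle (.add .y .L) (.add .N (.k 2)), .le (.add (.add .N .x) (.k 2)) (.add .y .L)]
    (.nd (.add .y (.k 2)) .N (.nd .N (.add .t .y) (.nd (.add (.add .t .x) (.k 3)) .L (.nd (.add .t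
    .L) (.add (.add .N .x) (.k 1)) (.lf 13 [.f 9175168, .f 8781952, .f 8716416, .f 9044096, .f
    37155259574911106, .f 8585344, .f 8650880, .f 8519872]) (.nd (.add (.add .N .x) (.k 3)) (.add
    .t .L) (.lf 13 [.f 9240704, .f 8847488, .f 8781952, .f 9109632, .f 609894072448, .f 8650880, .f
    8716416, .f 8519808]) (.lf 14 [.f 8716416, .f 8847488, .f 562649104518, .f 562649104523, .f
    8519808, .f 558358331525, .f 72621110935748800]))) (.nd .L (.add (.add .t .x) (.k 1)) (.lf 13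
    [.f 9175168, .f 8781952, .f 8716416, .f 9044096, .f 566944923776, .f 8519872, .f 8650880, .f
    824642961538]) (.nd (.k 1) .x (.nd .x .t (.nd (.add (.add (.add .t .x) .y) (.k 5)) (.add .N .L)
    (.lf 15 [.f 8847488, .f 8650880, .f 8781952, .f 8519808, .f 549764399248, .f 40533221288902790,
    .f 575534006407]) (.lf 16 [.f 36029368258265219, .f 36592296736784528, .f 8650880, .f 8913024,
    .f 558354137232, .f 824642437256])) (.lf 17 [.f 8781952, .f 8519808, .f 8716416, .f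
    549764464775, .f 601303810180, .f 37436996544757897, .f 571239432320])) (.lf 18 [.f 9175168, .f
    8847488, .f 558354858112, .f 8781952, .f 824642437254, .f 37155272468332736, .f
    2435007936201183068418])))) (.nd (.k 1) .x (.nd (.add (.add .N .t) (.k 3)) (.add .y .L) (.nd .x
    .t (.lf 19 [.f 9240704, .f 8650880, .f 8781952, .f 9109632, .f 8519872, .f 824642437256, .f
    8585344, .f 597009170624]) (.nd (.add (.add .t .y) (.k 2)) .N (.lf 13 [.f 9306240, .f 8716416,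
    .f 8847488, .f 9175168, .f 588419104896, .f 558354137230, .f 8519872, .f 562653298828]) (.lf 20
    [.f 575534006414, .f 8585344, .f 601303810178, .f 8781952, .f 39407321381798018, .f
    609897939206]))) (.nd (.add .y .L) (.add (.add .N .t) (.k 1)) (.lf 19 [.f 9240704, .f 8650880,
    .f 8781952, .f 9109632, .f 605598908608, .f 571239563456, .f 8519872, .f 597009170624]) (.lf 21
    [.f 549764333700, .f 597008973952, .f 605598974080, .f 8716416, .f 8585344, .f 605602971907, .f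
    37436756030652547]))) (.nd (.add (.add .x .y) .L) (.add (.add .N .t) (.k 1)) (.lf 18 [.f
    9109632, .f 8781952, .f 562649759872, .f 8716416, .f 54043792537682050, .f 8519872, .f
    36873814663233728]) (.nd (.add (.add .t .y) (.k 2)) .N (.nd (.add (.add .N .x) (.k 3)) (.add .t
    .L) (.lf 13 [.f 9306240, .f 8913024, .f 8847488, .f 9175168, .f 37436738847375488, .f
    73465548750717056, .f 8585408, .f 8519808]) (.lf 22 [.f 549764726925, .f 8913024, .f
    549764530320, .f 558362853504, .f 8585344, .f 549764464775, .f 2398114166342563397888, .f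
    558362853568, .f 8585408])) (.nd (.k 2) .t (.lf 23 [.f 549764595844, .f 8913024, .f
    549764530306, .f 36873793188921472, .f 8781952, .f 36873793188921536, .f 8519872, .f
    824650891396]) (.nd (.add (.add .t .x) .L) (.add .N (.k 1)) (.lf 24 [.f 2361257551404208554244,
    .f 8978560, .f 8519808, .f 8847488, .f 36029381143232644, .f 558358331527]) (.lf 25 [.f
    73184043717886085, .f 8781952, .f 8978560, .f 37718252486590592, .f 8847488, .f
    159582967488790615376789632, .f 2601028633702087262400]))))))) (.nd (.add .N .L) (.add (.add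
    (.add .t .x) .y) (.k 2)) (.lf 16 [.f 549764857990, .f 562649104520, .f 8650880, .f 8781952, .f
    549764923522, .f 8519808]) (.nd (.k 1) .x (.nd (.add (.mul 2 .N) (.k 3)) (.add (.add .t .y) .L)
    (.nd .x .t (.lf 19 [.f 9240704, .f 8650880, .f 8978560, .f 9109632, .f 8519872, .f
    39125593002213568, .f 549765120131, .f 8585344]) (.nd (.add (.add .t .x) (.k 2)) .N (.lf 26 [.f
    8978560, .f 579829760128, .f 36873788902211712, .f 9044096, .f 8585344, .f 1142469951680, .f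
    8519872, .f 575538200709]) (.lf 19 [.f 9306240, .f 8716416, .f 9044096, .f 9175168, .f
    558354137231, .f 37999697394139276, .f 163207457548836625004363913, .f 8650880]))) (.nd .L
    (.add .y (.k 1)) (.nd (.k 2) .t (.nd (.add .t .L) (.add (.add .x .y) (.k 1)) (.lf 27 [.f
    36029381143101575, .f 8650880, .f 8781952, .f 9109632, .f 8519808, .f 8585408, .f 8847552])
    (.lf 28 [.f 549764726915, .f 37437305782665344, .f 566944071810, .f 549764595842, .f 9109632,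
    .f 558358331523, .f 562653298823])) (.nd (.add .t (.k 2)) .x (.lf 19 [.f 9371776, .f 8781952,
    .f 9109632, .f 9240704, .f 8519808, .f 566944530624, .f 2398114729305418760448, .f
    37155521568112907]) (.nd (.add (.add .N .t) (.k 4)) (.add (.add .x .y) .L) (.lf 29 [.f 9371776,
    .f 8847488, .f 2361220396694398304389, .f 9175168, .f 8519808, .f 2416596657721144246464]) (.lf
    4 [.f 36029385438331011, .f 2361293861680507388045, .f 8847488, .f 8585344, .f
    37155826510594184, .f 9175168])))) (.nd (.add (.add (.add .t .x) .y) (.k 4)) (.add .N .L) (.nd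
    (.add .t .L) (.add (.add .x .y) (.k 2)) (.lf 16 [.f 549764857988, .f 584124792960, .f 8781952,
    .f 9109632, .f 8519808, .f 8585408]) (.lf 28 [.f 2601065224362432528512, .f 37437305782665344,
    .f 38281155187638400, .f 549764595842, .f 9109632, .f 4759314014796717097101, .f
    160797759408206155805229315])) (.lf 30 [.f 36592309622079616, .f 8519808, .f 562649104527, .f
    2490348168186095992964, .f 9044096, .f 8519808, .f 824643092614])))) (.nd (.add .x .L) (.add .y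
    (.k 1)) (.nd (.add (.add (.mul 2 .t) .y) (.k 3)) (.add (.add .N .x) .L) (.lf 31 [.f
    74028468639498373, .f 8585344, .f 8847488, .f 566944071823, .f 8978560, .f 8585344, .f
    8519872]) (.nd (.add (.add .N .x) .L) (.add (.add (.mul 2 .t) .y) (.k 1)) (.lf 31 [.f
    36029376856850566, .f 8650880, .f 8913024, .f 36029381143036038, .f 9044096, .f 8650880, .f
    8519808]) (.lf 32 [.f 2361220959661531005192, .f 8585344, .f 8913024, .f 36029372553494659, .f
    8519808, .f 9044096]))) (.lf 33 [.f 315534361324745219457024141, .f 37436764616392835, .f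
    8781952, .f 549764399246, .f 8913024, .f 37436764616392835, .f 558354989248])))))
    (by decide +kernel) ⟨h0, h1, h2, h3, h4, h5, h6, trivial⟩

theorem rn4 {N t x y L : ℤ} (hD : D N t)
    (h0 : (0 : ℤ) ≤ x)
    (h1 : x + 1 ≤ y)
    (h2 : y + 1 ≤ N)
    (h3 : (4 : ℤ) ≤ L)
    (h4 : L ≤ N + 1)
    (h5 : ¬ (y + L ≤ N + 2))
    (h6 : ¬ (N + x + 2 ≤ y + L)) :
    P (A N t) N x y L := by
  exact Fk.tree (fam hD x y L) (tbr hD)
    [.le (.k 0) .x, .le (.add .x (.k 1)) .y, .le (.add .y (.k 1)) .N, .le (.k 4) .L, .le .L (.add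
    .N (.k 1)), .nle (.add .y .L) (.add .N (.k 2)), .nle (.add (.add .N .x) (.k 2)) (.add .y .L)]
    (.nd (.add (.add .N .x) (.k 4)) (.add (.add .t .y) .L) (.lf 34 [.f 8913024, .f 8650880, .f
    8716416, .f 8978560, .f 588423102594, .f 558354137226, .f 8519808]) (.nd (.add (.add .t .x) (.k
    1)) .N (.nd (.add .y .L) (.add (.add .N .t) (.k 2)) (.nd (.add .t (.k 1)) .x (.lf 35 [.f
    9109632, .f 8847488, .f 8913024, .f 9175168, .f 8519808, .f 8650944, .f 8585408, .f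
    36873788893298880]) (.lf 7 [.f 597008842885, .f 8847488, .f 558354727040, .f 8716416, .f
    579829563520, .f 72621690756792448])) (.lf 36 [.f 8519808, .f 8781952, .f 8847488, .f 9109632,
    .f 562649235584, .f 9109696])) (.nd (.add (.add .t .y) .L) (.add (.add .N .x) (.k 1)) (.nd
    (.add (.add .t .x) (.k 3)) (.add .y .L) (.lf 34 [.f 9109632, .f 8847488, .f 8913024, .f
    9175168, .f 54043779652649095, .f 8519808, .f 8585408]) (.lf 35 [.f 9109632, .f 8847488, .f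
    8913024, .f 9175168, .f 597009039488, .f 549764923522, .f 37999705984073858, .f
    38281176661819584])) (.nd (.add .y .L) (.add .N .x) (.lf 37 [.f 8585344, .f 549764464781, .f
    8847488, .f 8913024, .f 8519808, .f 8519872, .f 605598908608]) (.lf 7 [.f
    157165171188667669658206343, .f 8847488, .f 2361219833748747976839, .f 8716416, .f
    579828973705, .f 2361257551387037008135])))))
    (by decide +kernel) ⟨h0, h1, h2, h3, h4, h5, h6, trivial⟩


theorem rn2 {N t x y L : ℤ} (hD : D N t)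
    (h0 : (0 : ℤ) ≤ x)
    (h1 : x + 1 ≤ y)
    (h2 : y + 1 ≤ N)
    (h3 : (4 : ℤ) ≤ L)
    (h4 : L ≤ N + 1)
    (h5 : ¬ (y + L ≤ N + 2)) :
    P (A N t) N x y L := by
  obtain ⟨d0, d1, d2⟩ := id hD
  by_cases h6 : N + x + 2 ≤ y + L
  · exact rn3 hD h0 h1 h2 h3 h4 h5 h6
  · exact rn4 hD h0 h1 h2 h3 h4 h5 h6

theorem rn0 {N t x y L : ℤ} (hD : D N t)
    (h0 : (0 : ℤ) ≤ x)
    (h1 : x + 1 ≤ y)
    (h2 : y + 1 ≤ N)
    (h3 : (4 : ℤ) ≤ L)
    (h4 : L ≤ N + 1) :
    P (A N t) N x y L := by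
  obtain ⟨d0, d1, d2⟩ := id hD
  by_cases h5 : y + L ≤ N + 2
  · exact rn1 hD h0 h1 h2 h3 h4 h5
  · exact rn2 hD h0 h1 h2 h3 h4 h5

end Pool.Agent.Work.MP_193ce1_co.Rim.Fq
end

-- merged part: Pool.Agent.Work.MP_193ce1_co.Rim.FqH
section
set_option linter.unusedVariables false

namespace Pool.Agent.Work.MP_193ce1_co.Rim.Fq

/-- hypotheses -/
noncomputable def kh0 : List Fk.C :=
  [.le (.add .x (.k 3)) .L, .le (.k 0) .x, .le .L (.add .N (.k 1)), .ne .L (.add (.add .t .x) (.k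
  2)), .ne (.add .t .L) (.add (.add .N .x) (.k 2))]

theorem qh0 {N t x L : ℤ} (hD : D N t) : Fk.All ⟨N, t, x, 0, L⟩ kh0 → P (A N t) N x N L :=
  Fk.route (fam hD x 0 L) kh0 .N (.dn .x (.k 0))
    [(3, .dn (.sub .N (.k 1)) (.add (.sub (.add .N .x) .L) (.k 2))), (0, .pt .N)]
    [.f 128, .f 8585344, .f 549764333700, .f 128, .f 128, .f 549764399236, .f 8519808, .f 128, .f
    128, .f 128, .f 128, .f 128, .f 8650880, .f 8978560, .f 128, .f 549764399236, .f 8519808, .s 6
    (.f 8454272) (.f 12648576), .s 5 (.f 8454272) (.f 12648576), .f 128, .f 128, .f 128, .f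
    566944202880, .f 128, .f 128, .f 128, .f 128]
    (by decide +kernel)

theorem hT0 {N t x L : ℤ} (hD : D N t)
    (c0 : x + 3 ≤ L)
    (c1 : (0 : ℤ) ≤ x)
    (c2 : L ≤ N + 1)
    (c3 : L ≠ t + x + 2)
    (c4 : t + L ≠ N + x + 2) :
    P (A N t) N x N L := by
  exact qh0 hD ⟨c0, c1, c2, c3, c4, trivial⟩

/-- hypotheses -/
noncomputable def kh1 : List Fk.C :=
  [.le (.add (.add .t .x) (.k 3)) .L, .le (.k 0) .x, .le (.add .x (.k 1)) .t, .le (.add .t .L)
  (.add (.add .N .x) (.k 2)), .ne .L (.add (.add .t .x) (.k 3)), .ne (.add .t .L) (.add (.add .N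
  .x) (.k 3))]

theorem qh1 {N t x L : ℤ} (hD : D N t) : Fk.All ⟨N, t, x, 0, L⟩ kh1 → P (A N t) N x N L :=
  Fk.route (fam hD x 0 L) kh1 .N (.dn .x (.k 0))
    [(3, .dn (.sub .N (.k 1)) (.sub .N .t)), (5, .up .t (.sub (.sub .L .x) (.k 3))), (0, .pt .N)]
    [.f 128, .f 8585344, .f 2361219833744452747397, .f 128, .f 128, .f 2361219833744444358789, .f
    8978560, .f 128, .f 128, .f 128, .f 128, .f 128, .f 37155255280271488, .f 8978560, .f 8519808,
    .f 36029359668330629, .f 128, .f 128, .f 128, .f 128, .f 8716417, .f 8650880, .f 9044096, .f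
    128, .f 36029355373297796, .f 36029359668330629, .s 6 (.f 12648576) (.f 8454272), .f 8716480,
    .f 128, .f 128, .f 37436721666916484, .f 128, .f 2453453554649871417482, .f 128, .f 128, .f
    128, .f 128]
    (by decide +kernel)

theorem hT1 {N t x L : ℤ} (hD : D N t)
    (c0 : t + x + 3 ≤ L)
    (c1 : (0 : ℤ) ≤ x)
    (c2 : x + 1 ≤ t)
    (c3 : t + L ≤ N + x + 2)
    (c4 : L ≠ t + x + 3)
    (c5 : t + L ≠ N + x + 3) :
    P (A N t) N x N L := by
  exact qh1 hD ⟨c0, c1, c2, c3, c4, c5, trivial⟩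

/-- hypotheses -/
noncomputable def kh2 : List Fk.C :=
  [.le .t .x, .le (.add .x (.k 3)) .L, .le .L (.add (.add .t .x) (.k 2)), .le (.add (.add .t .x)
  (.k 1)) .N, .ne .L (.add (.add .t .x) (.k 3)), .ne (.add .t .L) (.add (.add .N .x) (.k 3))]

theorem qh2 {N t x L : ℤ} (hD : D N t) : Fk.All ⟨N, t, x, 0, L⟩ kh2 → P (A N t) N x N L :=
  Fk.route (fam hD x 0 L) kh2 .N (.dn .x .t)
    [(4, .up (.sub .N .t) (.sub .N (.k 1))), (2, .up (.k 0) (.sub (.sub .L .x) (.k 3))), (0, .pt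
    .N)]
    [.f 8978560, .f 8519808, .f 36029359668330629, .f 128, .f 128, .f 2361220115215126102149, .f
    8978560, .f 128, .f 128, .f 128, .f 128, .f 128, .f 8716416, .f 128, .f 8585344, .f
    2361220115215134490757, .f 128, .f 128, .f 128, .f 128, .f 37436730256916609, .f 8650881, .f
    9044096, .f 128, .f 8585344, .f 2361220115215134490757, .f 8650944, .f 54043753882845317, .f
    128, .f 128, .f 2453489019955771080842, .f 128, .f 37436734551621764, .f 128, .f 128, .f 128,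
    .f 128]
    (by decide +kernel)

theorem hT2 {N t x L : ℤ} (hD : D N t)
    (c0 : t ≤ x)
    (c1 : x + 3 ≤ L)
    (c2 : L ≤ t + x + 2)
    (c3 : t + x + 1 ≤ N)
    (c4 : L ≠ t + x + 3)
    (c5 : t + L ≠ N + x + 3) :
    P (A N t) N x N L := by
  exact qh2 hD ⟨c0, c1, c2, c3, c4, c5, trivial⟩

/-- hypotheses -/
noncomputable def kh3 : List Fk.C :=
  [.le (.k 2) .L, .le (.k 0) .x, .le (.add .x .L) (.add .N (.k 1)), .ne (.add .x .L) (.add .t (.k
  2)), .ne (.add (.add .t .x) .L) (.add .N (.k 2))]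

theorem qh3 {N t x L : ℤ} (hD : D N t) : Fk.All ⟨N, t, x, 0, L⟩ kh3 → P (A N t) N x N L :=
  Fk.route (fam hD x 0 L) kh3 .N (.up .x (.sub (.add .x .L) (.k 2)))
    [(0, .pt .N)]
    [.f 8585344, .f 8519808, .f 8650880, .f 128, .f 128, .f 8978560, .f 128, .f 549764333699, .f
    8650880, .s 5 (.f 12648576) (.f 8454272), .s 6 (.f 12648576) (.f 8454272), .f 128, .f 128, .f
    8650880, .f 128, .f 128, .f 128, .f 128]
    (by decide +kernel)

theorem hT3 {N t x L : ℤ} (hD : D N t)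
    (c0 : (2 : ℤ) ≤ L)
    (c1 : (0 : ℤ) ≤ x)
    (c2 : x + L ≤ N + 1)
    (c3 : x + L ≠ t + 2)
    (c4 : t + x + L ≠ N + 2) :
    P (A N t) N x N L := by
  exact qh3 hD ⟨c0, c1, c2, c3, c4, trivial⟩

/-- hypotheses -/
noncomputable def kh4 : List Fk.C :=
  [.le (.add .t (.k 3)) (.add .x .L), .le (.k 0) .x, .le .x .t, .le (.add (.add .t .x) .L) (.add .N
  (.k 2)), .ne (.add .x .L) (.add .t (.k 3)), .ne (.add (.add .t .x) .L) (.add .N (.k 3))]

theorem qh4 {N t x L : ℤ} (hD : D N t) : Fk.All ⟨N, t, x, 0, L⟩ kh4 → P (A N t) N x N L :=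
  Fk.route (fam hD x 0 L) kh4 .N (.up .x .t)
    [(4, .dn (.sub .N .t) (.add (.sub (.sub .N .x) .L) (.k 3))), (0, .pt .N)]
    [.f 8585344, .f 8650880, .f 2361220396690102747269, .f 128, .f 128, .f 36873793188135044, .f
    8519808, .f 8978560, .f 128, .f 128, .f 128, .f 128, .f 8716416, .f 9044096, .f 128, .f
    36873793188135044, .f 558354727040, .f 8716416, .s 6 (.f 8454272) (.f 12648576), .f 128, .f
    128, .f 8978560, .f 2453489019955762626689, .f 128, .f 128, .f 128, .f 128]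
    (by decide +kernel)

theorem hT4 {N t x L : ℤ} (hD : D N t)
    (c0 : t + 3 ≤ x + L)
    (c1 : (0 : ℤ) ≤ x)
    (c2 : x ≤ t)
    (c3 : t + x + L ≤ N + 2)
    (c4 : x + L ≠ t + 3)
    (c5 : t + x + L ≠ N + 3) :
    P (A N t) N x N L := by
  exact qh4 hD ⟨c0, c1, c2, c3, c4, c5, trivial⟩

/-- hypotheses -/
noncomputable def kh5 : List Fk.C :=
  [.le (.add .N (.k 2)) (.add .x .L), .le (.add .x (.k 1)) .N, .le .L (.add .N (.k 1)), .ne (.add
  .x .L) (.add (.add .N .t) (.k 2)), .ne (.add (.add .t .x) .L) (.add (.mul 2 .N) (.k 2))]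

theorem qh5 {N t x L : ℤ} (hD : D N t) : Fk.All ⟨N, t, x, 0, L⟩ kh5 → P (A N t) N x N L :=
  Fk.route (fam hD x 0 L) kh5 .N (.up .x (.sub .N (.k 1)))
    [(2, .up (.k 0) (.sub (.sub (.add .x .L) .N) (.k 2))), (0, .pt .N)]
    [.f 549764333700, .f 8585344, .f 128, .f 128, .f 128, .f 128, .f 8519808, .f 549764399236, .f
    128, .f 128, .f 128, .f 128, .f 8650881, .f 8978560, .f 128, .f 8519808, .f 549764399236, .s 5
    (.f 12648576) (.f 8454272), .s 6 (.f 12648576) (.f 8454272), .f 128, .f 128, .f 566944268416,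
    .f 128, .f 128, .f 128, .f 128, .f 128]
    (by decide +kernel)

theorem hT5 {N t x L : ℤ} (hD : D N t)
    (c0 : N + 2 ≤ x + L)
    (c1 : x + 1 ≤ N)
    (c2 : L ≤ N + 1)
    (c3 : x + L ≠ N + t + 2)
    (c4 : t + x + L ≠ 2 * N + 2) :
    P (A N t) N x N L := by
  exact qh5 hD ⟨c0, c1, c2, c3, c4, trivial⟩

/-- hypotheses -/
noncomputable def kh6 : List Fk.C :=
  [.le (.k 2) .L, .le .L (.add .x (.k 2)), .le (.add .x (.k 1)) .N, .ne (.add .x (.k 2)) (.add .t
  .L), .ne (.add (.add .t .x) (.k 2)) (.add .N .L)]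

theorem qh6 {N t x L : ℤ} (hD : D N t) : Fk.All ⟨N, t, x, 0, L⟩ kh6 → P (A N t) N x N L :=
  Fk.route (fam hD x 0 L) kh6 .N (.dn .x (.add (.sub .x .L) (.k 2)))
    [(0, .pt .N)]
    [.f 8585344, .f 8519808, .f 8650880, .f 128, .f 128, .f 8978560, .f 128, .f 8585344, .f
    549764333700, .s 5 (.f 12648576) (.f 8454272), .s 6 (.f 12648576) (.f 8454272), .f 128, .f 128,
    .f 8650880, .f 128, .f 128, .f 128, .f 128]
    (by decide +kernel)

theorem hT6 {N t x L : ℤ} (hD : D N t)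
    (c0 : (2 : ℤ) ≤ L)
    (c1 : L ≤ x + 2)
    (c2 : x + 1 ≤ N)
    (c3 : x + 2 ≠ t + L)
    (c4 : t + x + 2 ≠ N + L) :
    P (A N t) N x N L := by
  exact qh6 hD ⟨c0, c1, c2, c3, c4, trivial⟩

/-- hypotheses -/
noncomputable def kh7 : List Fk.C :=
  [.le .N (.add .t .x), .le (.add .t .L) (.add .x (.k 2)), .le (.add (.add .t .x) (.k 3)) (.add .N
  .L), .le (.add .x (.k 1)) .N, .ne (.add .x (.k 3)) (.add .t .L), .ne (.add (.add .t .x) (.k 3))
  (.add .N .L)]

theorem qh7 {N t x L : ℤ} (hD : D N t) : Fk.All ⟨N, t, x, 0, L⟩ kh7 → P (A N t) N x N L :=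
  Fk.route (fam hD x 0 L) kh7 .N (.dn .x (.sub .N .t))
    [(5, .up .t (.sub (.sub (.add .N .L) .x) (.k 3))), (0, .pt .N)]
    [.f 2416560628911231205509, .f 8519808, .f 8716416, .f 128, .f 128, .f 8978560, .f 8650880, .f
    37436721666916482, .f 128, .f 128, .f 128, .f 128, .f 8585345, .f 9044096, .f 128, .f
    37436738846589058, .f 37436721666916482, .s 7 (.f 8454272) (.f 12648576), .f 8585408, .f 128,
    .f 128, .f 36873771713429637, .f 8716416, .f 128, .f 128, .f 128, .f 128]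
    (by decide +kernel)

theorem hT7 {N t x L : ℤ} (hD : D N t)
    (c0 : N ≤ t + x)
    (c1 : t + L ≤ x + 2)
    (c2 : t + x + 3 ≤ N + L)
    (c3 : x + 1 ≤ N)
    (c4 : x + 3 ≠ t + L)
    (c5 : t + x + 3 ≠ N + L) :
    P (A N t) N x N L := by
  exact qh7 hD ⟨c0, c1, c2, c3, c4, c5, trivial⟩

/-- hypotheses -/
noncomputable def kh8 : List Fk.C :=
  [.le (.add .t (.k 1)) .x, .le (.add .x (.k 2)) (.add .t .L), .le (.add (.mul 2 .t) .L) .N, .ne
  (.add .x (.k 1)) (.add .t .L), .ne (.add (.mul 3 .t) .L) (.add (.add .N .x) (.k 1))]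

theorem qh8 {N t x L : ℤ} (hD : D N t) : Fk.All ⟨N, t, x, 0, L⟩ kh8 → P (A N t) N x N L :=
  Fk.route (fam hD x 0 L) kh8 .N (.dn .x (.add .t (.k 1)))
    [(6, .dn (.sub (.sub .N .t) (.k 1)) (.add (.sub (.sub (.add .N .x) (.mul 2 .t)) .L) (.k 1))),
    (0, .pt .N)]
    [.f 8913024, .f 8519808, .f 36029359668592772, .f 128, .f 128, .f 38281163776852096, .f
    8585344, .f 8913024, .f 128, .f 128, .f 128, .f 128, .f 8650880, .f 8978560, .f 128, .f
    38281163776852096, .f 549764399240, .f 566944202880, .f 8585408, .f 128, .f 128, .f 8913024, .f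
    37155259574911112, .f 128, .f 128, .f 128, .f 128]
    (by decide +kernel)

theorem hT8 {N t x L : ℤ} (hD : D N t)
    (c0 : t + 1 ≤ x)
    (c1 : x + 2 ≤ t + L)
    (c2 : 2 * t + L ≤ N)
    (c3 : x + 1 ≠ t + L)
    (c4 : 3 * t + L ≠ N + x + 1) :
    P (A N t) N x N L := by
  exact qh8 hD ⟨c0, c1, c2, c3, c4, trivial⟩

/-- hypotheses -/
noncomputable def kh9 : List Fk.C :=
  [.le (.add .N (.k 3)) (.add (.add .t .x) .L), .le (.add (.mul 2 .t) .L) (.add .N (.k 2)), .le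
  (.add .t .x) .N, .ne (.add (.add .t .x) .L) (.add .N (.k 3)), .ne (.add (.add (.mul 3 .t) .x) .L)
  (.add (.mul 2 .N) (.k 3))]

theorem qh9 {N t x L : ℤ} (hD : D N t) : Fk.All ⟨N, t, x, 0, L⟩ kh9 → P (A N t) N x N L :=
  Fk.route (fam hD x 0 L) kh9 .N (.up .x (.sub .N .t))
    [(5, .up .t (.sub (.sub (.add (.add (.mul 2 .t) .x) .L) .N) (.k 3))), (0, .pt .N)]
    [.f 38281146597048450, .f 8650880, .f 8913024, .f 128, .f 128, .f 8913024, .f 8519808, .f
    36029363963232392, .f 128, .f 128, .f 128, .f 128, .f 8585345, .f 8978560, .f 128, .f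
    549764333704, .f 36029363963232392, .s 5 (.f 12648576) (.f 8454272), .f 824642371715, .f 128,
    .f 128, .f 36873788893167752, .f 8913024, .f 128, .f 128, .f 128, .f 128]
    (by decide +kernel)

theorem hT9 {N t x L : ℤ} (hD : D N t)
    (c0 : N + 3 ≤ t + x + L)
    (c1 : 2 * t + L ≤ N + 2)
    (c2 : t + x ≤ N)
    (c3 : t + x + L ≠ N + 3)
    (c4 : 3 * t + x + L ≠ 2 * N + 3) :
    P (A N t) N x N L := by
  exact qh9 hD ⟨c0, c1, c2, c3, c4, trivial⟩


/-- table of hypotheses -/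
noncomputable def tabh : List (List Fk.C) :=
  [kh0, kh1, kh2, kh3, kh4, kh5, kh6, kh7, kh8, kh9]

theorem tbh {N t x L : ℤ} (hD : D N t) : Fk.Tab ⟨N, t, x, 0, L⟩ (P (A N t) N x N L) tabh :=
  ⟨qh0 hD, qh1 hD, qh2 hD, qh3 hD, qh4 hD, qh5 hD, qh6 hD, qh7 hD, qh8 hD, qh9 hD, trivial⟩

theorem hn0 {N t x L : ℤ} (hD : D N t)
    (h0 : (0 : ℤ) ≤ x)
    (h1 : x + 1 ≤ N)
    (h2 : (4 : ℤ) ≤ L)
    (h3 : L ≤ N + 1)
    (h4 : L ≠ t + 2) :
    P (A N t) N x N L := by
  exact Fk.tree (fam hD x 0 L) (tbh hD)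
    [.le (.k 0) .x, .le (.add .x (.k 1)) .N, .le (.k 4) .L, .le .L (.add .N (.k 1)), .ne .L (.add
    .t (.k 2))]
    (.nd (.add .x (.k 3)) .L (.nd .L (.add (.add .t .x) (.k 1)) (.lf 0 [.f 8585344, .f 8650880, .f
    8847488, .f 8519872, .f 824642240649]) (.nd (.add (.add .t .x) (.k 3)) .L (.nd (.add .t .L)
    (.add (.add .N .x) (.k 1)) (.lf 0 [.f 8716416, .f 8781952, .f 8978560, .f 8585344, .f 8519872])
    (.nd (.add (.add .N .x) (.k 3)) (.add .t .L) (.lf 0 [.f 8781952, .f 8847488, .f 9044096, .f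
    8650880, .f 8519808]) (.lf 1 [.f 8650880, .f 8847488, .f 549764857987, .f 8519808, .f
    562649104524, .f 8519872]))) (.nd .t .x (.lf 2 [.f 8519808, .f 8716416, .f 8585344, .f
    566944661632, .f 8585408, .f 588419039424]) (.nd (.add .x .L) (.add .N (.k 1)) (.nd (.add (.add
    .t .x) .L) (.add .N (.k 1)) (.lf 3 [.f 9044096, .f 8913024, .f 8585344, .s 12 (.f 579833233664)
    (.f 554067558534), .f 8519872]) (.nd (.add .N (.k 3)) (.add (.add .t .x) .L) (.lf 3 [.f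
    9109632, .f 8978560, .f 8650880, .f 609893744770, .f 8519808]) (.lf 4 [.f 549764399246, .f
    8978560, .f 8716416, .f 8519808, .f 562650022016, .f 8519872]))) (.lf 5 [.f 8519808, .f
    8913024, .f 9044096, .f 592714072256, .f 571243233546]))))) (.nd (.add .x (.k 3)) (.add .t .L)
    (.lf 6 [.f 8781952, .f 8585344, .f 8716416, .f 8519872, .f 558354727104]) (.nd (.add .t .L)
    (.add .x (.k 1)) (.nd (.add (.add .t .x) (.k 3)) (.add .N .L) (.lf 6 [.f 8913024, .f 8716416,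
    .f 8847488, .f 8585344, .f 8519872]) (.nd (.add .N .L) (.add (.add .t .x) (.k 1)) (.lf 6 [.f
    8978560, .f 8781952, .f 8913024, .f 8650880, .f 8519808]) (.nd (.add .N (.k 2)) (.add .x .L)
    (.lf 5 [.f 8519808, .f 8978560, .f 9109632, .f 566948266249, .f 824642437385]) (.lf 3 [.f
    9044096, .f 8913024, .f 8519808, .f 549773246597, .f 566944071946])))) (.nd .N (.add .t .x)
    (.lf 7 [.f 8519808, .f 8650880, .f 562649825408, .f 8847488, .f 8650880, .f 562653298827]) (.nd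
    (.add (.mul 2 .t) .L) .N (.lf 8 [.f 571239628928, .f 8650880, .f 8519808, .f 8650944, .f
    37436760325619842]) (.nd (.add .N (.k 4)) (.add (.add .t .x) .L) (.lf 9 [.f 8519808, .f
    549764464774, .f 8650880, .f 8519808, .f 575538200836]) (.lf 3 [.f 9044096, .f 8913024, .f
    4722406734903736664198, .f 575534006538, .f 37718196644085891])))))))
    (by decide +kernel) ⟨h0, h1, h2, h3, h4, trivial⟩



variable {N t : ℤ} {f : ℤ → ℤ}

theorem thread (c d : ℤ) (h : A N t c d) (hN : c ≠ N)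
    (l0 : c ≠ (0 : ℤ))
    (l1 : c ≠ N - 1)
    (l2 : c ≠ t)
    (l3 : c ≠ N - t)
    (l4 : c ≠ t + 1)
    (l5 : c ≠ N - t - 1)
    : d = c + 1 ∨ d = c - 1 ∨ d = N ∨ d = 0 := by
  rcases h.2 with (⟨a1, a2, a3⟩ | ⟨a1, a2⟩ | ⟨a1, a2⟩ | ⟨a1, a2⟩ | ⟨a1, a2⟩) | (⟨a1, a2, a3⟩ | ⟨a1, a2⟩ | ⟨a1, a2⟩ | ⟨a1, a2⟩ | ⟨a1, a2⟩) <;> omega

theorem nb (h : W (A N t) 0 N (t + 1) f) (hD : D N t) (i : ℤ) (h0 : 0 ≤ i) (h1 : i < t) :
    (f (i + 1) = f i + 1 ∧ f i + 1 < N) ∨
    (f (i + 1) = f i - 1 ∧ 1 ≤ f i) ∨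
    (f i = N - 1 ∧ f (i + 1) = (0 : ℤ)) ∨
    (f i = (0 : ℤ) ∧ f (i + 1) = N - 1) ∨
    (f i = t ∧ f (i + 1) = N - t) ∨
    (f i = N - t ∧ f (i + 1) = t) ∨
    (f i = t + 1 ∧ f (i + 1) = N - t - 1) ∨
    (f i = N - t - 1 ∧ f (i + 1) = t + 1) := by
  have e1 : f i ≠ N := fun e => by
    have := h.inj i (t + 1) (by omega) (by omega) (by omega) (by omega) (by rw [h.hT]; exact e)
    omega
  have e2 : f (i + 1) ≠ N := fun e => by
    have := h.inj (i + 1) (t + 1) (by omega) (by omega) (by omega) (by omega) (by rw [h.hT]; exact e)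
    omega
  rcases (h.adj i h0 (by omega)).2 with (⟨a1, a2, a3⟩ | ⟨a1, a2⟩ | ⟨a1, a2⟩ | ⟨a1, a2⟩ | ⟨a1, a2⟩) | (⟨a1, a2, a3⟩ | ⟨a1, a2⟩ | ⟨a1, a2⟩ | ⟨a1, a2⟩ | ⟨a1, a2⟩)
  · exact (Or.inl ⟨by omega, by omega⟩)
  · exact absurd a1 e1
  · exact (Or.inr (Or.inr (Or.inl ⟨a1, a2⟩)))
  · exact (Or.inr (Or.inr (Or.inr (Or.inr (Or.inl ⟨a1, a2⟩)))))
  · exact (Or.inr (Or.inr (Or.inr (Or.inr (Or.inr (Or.inr (Or.inl ⟨a1, a2⟩)))))))
  · exact (Or.inr (Or.inl ⟨by omega, by omega⟩))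
  · exact absurd a1 e2
  · exact (Or.inr (Or.inr (Or.inr (Or.inl ⟨a2, a1⟩))))
  · exact (Or.inr (Or.inr (Or.inr (Or.inr (Or.inr (Or.inl ⟨a2, a1⟩))))))
  · exact (Or.inr (Or.inr (Or.inr (Or.inr (Or.inr (Or.inr (Or.inr ⟨a2, a1⟩)))))))

theorem fin (h : W (A N t) 0 N (t + 1) f) (hD : D N t) {c : ℤ} (hv : V f t c)
    (e : c = t ∨ c = N - t) : False := by
  have h1 := h.adj t (by unfold D at hD; omega) (by omega)
  rw [h.hT, show f t = c from hv] at h1
  unfold D at hD
  rcases h1.2 with (⟨a1, a2, a3⟩ | ⟨a1, a2⟩ | ⟨a1, a2⟩ | ⟨a1, a2⟩ | ⟨a1, a2⟩) | (⟨a1, a2, a3⟩ | ⟨a1, a2⟩ | ⟨a1, a2⟩ | ⟨a1, a2⟩ | ⟨a1, a2⟩) <;> omega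

theorem nb0 (h : W (A N t) 0 N (t + 1) f) (hD : D N t) {i : ℤ} (hv : V f i (0 : ℤ))
    (e : 0 ≤ i ∧ i < t) :
    V f (i + 1) (1 : ℤ) ∨ V f (i + 1) (N - 1) := by
  have := nb h hD i e.1 e.2
  unfold V at *
  unfold D at hD
  omega

theorem th1 (hD : D N t) : Th (A N t) N 0 (0 : ℤ) t := by
  intro c d h1 h2 h3
  unfold D at hD
  exact thread c d h3 (by omega) (by omega) (by omega) (by omega) (by omega) (by omega) (by omega)

theorem nb2 (h : W (A N t) 0 N (t + 1) f) (hD : D N t) {i : ℤ} (hv : V f i (N - 1))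
    (e : 0 ≤ i ∧ i < t ∧ N - 1 ≠ N - t) :
    V f (i + 1) (N - 2) ∨ V f (i + 1) (0 : ℤ) := by
  have := nb h hD i e.1 e.2.1
  unfold V at *
  unfold D at hD
  omega

theorem th3 (hD : D N t) : Th (A N t) N 0 (N - t) (N - 1) := by
  intro c d h1 h2 h3
  unfold D at hD
  exact thread c d h3 (by omega) (by omega) (by omega) (by omega) (by omega) (by omega) (by omega)

theorem no (hD : D N t) (h : W (A N t) 0 N (t + 1) f) : False := by
  obtain ⟨d0, d1, d2⟩ := id hD
  have v0 : V f (0 : ℤ) (0 : ℤ) := h.h0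
  rcases nb0 h hD v0 (by omega) with n1 | n1
  · have r2 := h.ru v0 n1 (th1 hD) (by omega)
    have v3 := r2.at t t (by omega)
    exact fin h hD (v3.cast t (by omega)) (by omega)
  · have v4 := n1.cast (1 : ℤ) (by omega)
    by_cases s5 : (0 : ℤ) ≤ -t + 1
    · exact fin h hD (v4.cast t (by omega)) (by omega)
    · rcases nb2 h hD v4 (by omega) with n6 | n6
      · have r7 := h.rd v4 n6 (th3 hD) (by omega)
        have v8 := r7.at t (N - t) (by omega)
        exact fin h hD (v8.cast t (by omega)) (by omega)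
      · exact h.clash n6 v0 (by omega)

end Pool.Agent.Work.MP_193ce1_co.Rim.Fq
end
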