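import Mathlib

-- merged part: Pool.Agent.Work.MP_193ce1_co.Rim.Base
section
/-! Paths in graphs on an integer interval, built from monotone runs. -/

namespace Pool.Agent.Work.MP_193ce1_co.Rim

/-- A path from `a` to `b` with `L` vertices, all of which satisfy `S`. -/
def R (A : ℤ → ℤ → Prop) (S : ℤ → Prop) (a b L : ℤ) : Prop :=
  ∃ l : List ℤ, l.head? = some a ∧ l.getLast? = some b ∧ l.Nodup ∧ l.IsChain A ∧
    (∀ z ∈ l, S z) ∧ (l.length : ℤ) = L

/-- A path inside `[0, N]`. -/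
def P (A : ℤ → ℤ → Prop) (N a b L : ℤ) : Prop := R A (fun z => 0 ≤ z ∧ z ≤ N) a b L

/-- The basic facts on the adjacency relation. -/
structure Rel (A : ℤ → ℤ → Prop) (N : ℤ) : Prop where
  sym : ∀ a b, A a b → A b a
  irr : ∀ a, ¬ A a a
  up : ∀ a, 0 ≤ a → a + 1 < N → A a (a + 1)

variable {A : ℤ → ℤ → Prop} {N : ℤ}

theorem R.one (a : ℤ) : R A (fun z => z = a) a a 1 :=
  ⟨[a], rfl, rfl, by simp, by simp, by simp, by simp⟩

theorem R.join {S T : ℤ → Prop} {a b c d L M : ℤ} (h1 : R A S a b L) (h2 : R A T c d M)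
    (hadj : A b c) (hdis : ∀ z, S z → T z → False) :
    R A (fun z => S z ∨ T z) a d (L + M) := by
  obtain ⟨l1, a1, b1, n1, c1, s1, e1⟩ := h1
  obtain ⟨l2, a2, b2, n2, c2, s2, e2⟩ := h2
  have hne1 : l1 ≠ [] := by rintro rfl; simp at a1
  have hne2 : l2 ≠ [] := by rintro rfl; simp at a2
  refine ⟨l1 ++ l2, ?_, ?_, ?_, ?_, ?_, ?_⟩
  · rw [List.head?_append, a1]; rfl
  · rw [List.getLast?_append, b2]; rfl
  · rw [List.nodup_append]
    refine ⟨n1, n2, fun x hx y hy hxy => hdis x (s1 x hx) (hxy ▸ s2 y hy)⟩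
  · rw [List.isChain_append]
    refine ⟨c1, c2, fun x hx y hy => ?_⟩
    rw [b1] at hx; rw [a2] at hy
    simp only [Option.mem_def, Option.some.injEq] at hx hy
    rw [← hx, ← hy]; exact hadj
  · intro z hz
    rcases List.mem_append.1 hz with h | h
    · exact Or.inl (s1 z h)
    · exact Or.inr (s2 z h)
  · rw [List.length_append]; push_cast; omega

theorem R.mono {S T : ℤ → Prop} {a b L M : ℤ} (h : R A S a b L) (hS : ∀ z, S z → T z)
    (hL : L = M) : R A T a b M := by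
  obtain ⟨l1, a1, b1, n1, c1, s1, e1⟩ := h
  exact ⟨l1, a1, b1, n1, c1, fun z hz => hS z (s1 z hz), hL ▸ e1⟩

theorem R.rev (hA : Rel A N) {S : ℤ → Prop} {a b L : ℤ} (h : R A S a b L) : R A S b a L := by
  obtain ⟨l1, a1, b1, n1, c1, s1, e1⟩ := h
  refine ⟨l1.reverse, by simpa using b1, by simpa using a1, by simpa using n1, ?_,
    fun z hz => s1 z (by simpa using hz), by simpa using e1⟩
  rw [List.isChain_reverse]
  exact c1.imp fun _ _ h => hA.sym _ _ h

theorem R.up (hA : Rel A N) (a b : ℤ) (h0 : 0 ≤ a) (hab : a ≤ b) (hb : b < N) :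
    R A (fun z => a ≤ z ∧ z ≤ b) a b (b - a + 1) := by
  obtain ⟨k, rfl⟩ : ∃ k : ℕ, b = a + k := ⟨(b - a).toNat, by omega⟩
  clear hab
  induction k with
  | zero =>
    have := (R.one (A := A) a).mono (T := fun z => a ≤ z ∧ z ≤ a + (0 : ℕ)) (M := a + (0 : ℕ) - a + 1)
      (fun z hz => by omega) (by omega)
    simpa using this
  | succ k ih =>
    have h1 := ih (by push_cast at hb; omega)
    have h2 := h1.join (R.one (a + k + 1)) (hA.up _ (by omega) (by push_cast at hb; omega))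
      (fun z h1 h2 => by omega)
    have e : a + ((k + 1 : ℕ) : ℤ) = a + k + 1 := by push_cast; omega
    rw [e]
    exact h2.mono (fun z hz => by omega) (by omega)

theorem R.down (hA : Rel A N) (a b : ℤ) (h0 : 0 ≤ b) (hab : b ≤ a) (hb : a < N) :
    R A (fun z => b ≤ z ∧ z ≤ a) a b (a - b + 1) :=
  (R.up hA b a h0 hab hb).rev hA

/-- The graph on `Fin n` given by `A`. -/
def gr (hA : Rel A N) (n : ℕ) : SimpleGraph (Fin n) where
  Adj u v := A (u : ℕ) (v : ℕ)
  symm := ⟨fun _ _ h => hA.sym _ _ h⟩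
  loopless := ⟨fun _ h => hA.irr _ h⟩

theorem walk_of_list {V : Type} {G : SimpleGraph V} {u v : V} {l : List V}
    (h1 : l.head? = some u) (h2 : l.getLast? = some v) (h3 : l.Nodup) (h4 : l.IsChain G.Adj) :
    ∃ p : G.Walk u v, p.IsPath ∧ p.support = l := by
  have hne : l ≠ [] := by rintro rfl; simp at h1
  have e1 : l.head hne = u := by
    rw [List.head?_eq_some_head hne] at h1; exact Option.some.inj h1
  have e2 : l.getLast hne = v := by
    rw [List.getLast?_eq_some_getLast hne] at h2; exact Option.some.inj h2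
  refine ⟨(SimpleGraph.Walk.ofSupport l hne h4).copy e1 e2, ?_, ?_⟩
  · rw [SimpleGraph.Walk.isPath_def]; simpa [SimpleGraph.Walk.support_ofSupport] using h3
  · simp [SimpleGraph.Walk.support_ofSupport]

theorem walk_of_P (hA : Rel A N) {n : ℕ} (hn : (n : ℤ) = N + 1) (u v : Fin n) (i : ℕ)
    (h : P A N (u : ℕ) (v : ℕ) i) :
    ∃ p : (gr hA n).Walk u v, p.IsPath ∧ p.support.length = i := by
  obtain ⟨l, a1, b1, n1, c1, s1, e1⟩ := h
  have hpos : 0 < n := u.pos
  let g : ℤ → Fin n := fun z => if h : z.toNat < n then ⟨z.toNat, h⟩ else u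
  have hg : ∀ z, 0 ≤ z ∧ z ≤ N → (((g z : Fin n) : ℕ) : ℤ) = z := by
    intro z hz
    have : z.toNat < n := by omega
    simp only [g, this, dif_pos]
    omega
  have hgu : ∀ w : Fin n, g (w : ℕ) = w := by
    intro w
    apply Fin.ext
    have := hg (w : ℕ) ⟨by omega, by have := w.2; omega⟩
    omega
  obtain ⟨p, hp, hs⟩ := walk_of_list (G := gr hA n) (u := u) (v := v) (l := l.map g)
    (by rw [List.head?_map, a1]; simp [hgu]) (by rw [List.getLast?_map, b1]; simp [hgu])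
    (by
      refine List.Nodup.map_on ?_ n1
      intro x hx y hy hxy
      rw [← hg x (s1 x hx), ← hg y (s1 y hy), hxy])
    (by
      rw [List.isChain_map]
      refine List.IsChain.imp_of_mem_imp ?_ c1
      intro x y hx hy hxy
      change A _ _
      rw [hg x (s1 x hx), hg y (s1 y hy)]; exact hxy)
  exact ⟨p, hp, by rw [hs, List.length_map]; omega⟩

theorem has_of_P (hA : Rel A N) {n : ℕ} (hn : (n : ℤ) = N + 1) (i : ℕ)
    (h : ∀ x y : ℤ, 0 ≤ x → x < y → y ≤ N → P A N x y i) (u v : Fin n) (huv : u ≠ v) :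
    ∃ p : (gr hA n).Walk u v, p.IsPath ∧ p.support.length = i := by
  have hu := u.2
  have hv := v.2
  have : (u : ℕ) ≠ v := fun h => huv (Fin.ext h)
  rcases lt_or_gt_of_ne this with h1 | h1
  · exact walk_of_P hA hn u v i (h _ _ (by omega) (by omega) (by omega))
  · exact walk_of_P hA hn u v i (R.rev hA (h _ _ (by omega) (by omega) (by omega)))

/-- A path from `a` to `b` with `T` edges, as a function. -/
structure W (A : ℤ → ℤ → Prop) (a b T : ℤ) (f : ℤ → ℤ) : Prop where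
  h0 : f 0 = a
  hT : f T = b
  inj : ∀ i j, 0 ≤ i → i ≤ T → 0 ≤ j → j ≤ T → f i = f j → i = j
  adj : ∀ i, 0 ≤ i → i < T → A (f i) (f (i + 1))

theorem W_of_walk (hA : Rel A N) {n : ℕ} (u v : Fin n) (i : ℕ) (p : (gr hA n).Walk u v)
    (hp : p.IsPath) (hl : p.support.length = i) :
    ∃ f, W A (u : ℕ) (v : ℕ) ((i : ℤ) - 1) f := by
  rw [SimpleGraph.Walk.length_support] at hl
  refine ⟨fun z => ((p.getVert z.toNat : ℕ) : ℤ), by simp, ?_, ?_, ?_⟩
  · have : ((i : ℤ) - 1).toNat = p.length := by omega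
    simp [this]
  · intro a b ha haT hb hbT h
    have h' : p.getVert a.toNat = p.getVert b.toNat := Fin.ext (by omega)
    have := hp.getVert_injOn (x₁ := a.toNat) (by simp; omega) (x₂ := b.toNat) (by simp; omega) h'
    omega
  · intro a ha haT
    have := p.adj_getVert_succ (i := a.toNat) (by omega)
    have e : (a + 1).toNat = a.toNat + 1 := by omega
    simp only [e]
    exact this

theorem W.run_up {a0 T : ℤ} {f : ℤ → ℤ} (h : W A a0 N T f) (i a b : ℤ) (hi : 0 ≤ i)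
    (h1 : f i = a) (h2 : f (i + 1) = a + 1)
    (hd : ∀ c d, a < c → c < b → A c d → d = c + 1 ∨ d = c - 1 ∨ d = N ∨ d = a0) :
    ∀ m, i ≤ m → m ≤ i + (b - a) → m < T → f m = a + (m - i) := by
  have key : ∀ k : ℕ, i + k + 1 ≤ i + (b - a) → i + k + 1 < T →
      f (i + k) = a + k ∧ f (i + k + 1) = a + k + 1 := by
    intro k
    induction k with
    | zero => intro _ _; simpa using ⟨h1, h2⟩
    | succ k ih =>
      intro hk hT
      push_cast at hk hT ⊢
      obtain ⟨e1, e2⟩ := ih (by omega) (by omega)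
      have e3 : i + (k + 1) = i + k + 1 := by ring
      rw [e3]
      refine ⟨by omega, ?_⟩
      have ha := h.adj (i + k + 1) (by omega) (by omega)
      rcases hd _ _ (by omega) (by omega) ha with e | e | e | e
      · omega
      · have := h.inj (i + k + 1 + 1) (i + k) (by omega) (by omega) (by omega) (by omega) (by omega)
        omega
      · have := h.inj (i + k + 1 + 1) T (by omega) (by omega) (by omega) (by omega)
          (by rw [h.hT]; exact e)
        omega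
      · have := h.inj (i + k + 1 + 1) 0 (by omega) (by omega) (by omega) (by omega)
          (by rw [h.h0]; exact e)
        omega
  intro m hm1 hm2 hm3
  rcases eq_or_lt_of_le hm1 with e | e
  · rw [← e]; omega
  · obtain ⟨k, rfl⟩ : ∃ k : ℕ, m = i + k + 1 := ⟨(m - i - 1).toNat, by omega⟩
    have := (key k hm2 hm3).2
    omega

theorem W.run_down {a0 T : ℤ} {f : ℤ → ℤ} (h : W A a0 N T f) (i a b : ℤ) (hi : 0 ≤ i)
    (h1 : f i = a) (h2 : f (i + 1) = a - 1)
    (hd : ∀ c d, b < c → c < a → A c d → d = c + 1 ∨ d = c - 1 ∨ d = N ∨ d = a0) :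
    ∀ m, i ≤ m → m ≤ i + (a - b) → m < T → f m = a - (m - i) := by
  have key : ∀ k : ℕ, i + k + 1 ≤ i + (a - b) → i + k + 1 < T →
      f (i + k) = a - k ∧ f (i + k + 1) = a - k - 1 := by
    intro k
    induction k with
    | zero => intro _ _; simpa using ⟨h1, h2⟩
    | succ k ih =>
      intro hk hT
      push_cast at hk hT ⊢
      obtain ⟨e1, e2⟩ := ih (by omega) (by omega)
      have e3 : i + (k + 1) = i + k + 1 := by ring
      rw [e3]
      refine ⟨by omega, ?_⟩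
      have ha := h.adj (i + k + 1) (by omega) (by omega)
      rcases hd _ _ (by omega) (by omega) ha with e | e | e | e
      · have := h.inj (i + k + 1 + 1) (i + k) (by omega) (by omega) (by omega) (by omega) (by omega)
        omega
      · omega
      · have := h.inj (i + k + 1 + 1) T (by omega) (by omega) (by omega) (by omega)
          (by rw [h.hT]; exact e)
        omega
      · have := h.inj (i + k + 1 + 1) 0 (by omega) (by omega) (by omega) (by omega)
          (by rw [h.h0]; exact e)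
        omega
  intro m hm1 hm2 hm3
  rcases eq_or_lt_of_le hm1 with e | e
  · rw [← e]; omega
  · obtain ⟨k, rfl⟩ : ∃ k : ℕ, m = i + k + 1 := ⟨(m - i - 1).toNat, by omega⟩
    have := (key k hm2 hm3).2
    omega

/-- The value of `f` at `i` is `c`. -/
def V (f : ℤ → ℤ) (i c : ℤ) : Prop := f i = c

/-- An upward run. -/
def RU (f : ℤ → ℤ) (T i a b : ℤ) : Prop :=
  ∀ m, i ≤ m → m ≤ i + (b - a) → m < T → f m = a + (m - i)

/-- A downward run. -/
def RD (f : ℤ → ℤ) (T i a b : ℤ) : Prop :=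
  ∀ m, i ≤ m → m ≤ i + (a - b) → m < T → f m = a - (m - i)

/-- No branching strictly between `a` and `b`. -/
def Th (A : ℤ → ℤ → Prop) (N a0 a b : ℤ) : Prop :=
  ∀ c d, a < c → c < b → A c d → d = c + 1 ∨ d = c - 1 ∨ d = N ∨ d = a0

variable {f : ℤ → ℤ} {a0 T : ℤ}

theorem V.cast {i c : ℤ} (h : V f i c) (j : ℤ) (e : j = i) : V f j c := e ▸ h

theorem W.clash (h : W A a0 N T f) {i j c d : ℤ} (hi : V f i c) (hj : V f j d)
    (e : 0 ≤ i ∧ i ≤ T ∧ 0 ≤ j ∧ j ≤ T ∧ c = d ∧ i ≠ j) : False :=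
  e.2.2.2.2.2 (h.inj i j e.1 e.2.1 e.2.2.1 e.2.2.2.1
    ((show f i = c from hi).trans (e.2.2.2.2.1.trans (show f j = d from hj).symm)))

theorem W.ru (h : W A a0 N T f) {i a a' b : ℤ} (h1 : V f i a) (h2 : V f (i + 1) a')
    (hd : Th A N a0 a b) (e : 0 ≤ i ∧ a' = a + 1) : RU f T i a b :=
  h.run_up i a b e.1 h1 (e.2 ▸ h2) hd

theorem W.rd (h : W A a0 N T f) {i a a' b : ℤ} (h1 : V f i a) (h2 : V f (i + 1) a')
    (hd : Th A N a0 b a) (e : 0 ≤ i ∧ a' = a - 1) : RD f T i a b :=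
  h.run_down i a b e.1 h1 (e.2 ▸ h2) hd

theorem RU.at {i a b : ℤ} (h : RU f T i a b) (m c : ℤ)
    (e : i ≤ m ∧ m ≤ i + (b - a) ∧ m < T ∧ c = a + (m - i)) : V f m c :=
  e.2.2.2 ▸ h m e.1 e.2.1 e.2.2.1

theorem RD.at {i a b : ℤ} (h : RD f T i a b) (m c : ℤ)
    (e : i ≤ m ∧ m ≤ i + (a - b) ∧ m < T ∧ c = a - (m - i)) : V f m c :=
  e.2.2.2 ▸ h m e.1 e.2.1 e.2.2.1

end Pool.Agent.Work.MP_193ce1_co.Rim
end

-- reflective checker for the route and case-tree lemmas
section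
namespace Pool.Agent.Work.MP_193ce1_co.Rim.Fk

/-- Values of the five parameters. -/
structure Env where
  N : ℤ
  t : ℤ
  x : ℤ
  y : ℤ
  L : ℤ

/-- Linear expressions in the five parameters. -/
inductive E where
  | N | t | x | y | L
  | k (n : ℕ)
  | add (a b : E)
  | sub (a b : E)
  | mul (n : ℕ) (a : E)

/-- Value of an expression. -/
noncomputable def E.ev (v : Env) (e : E) : ℤ :=
  E.rec v.N v.t v.x v.y v.L (fun n => Int.ofNat n) (fun _ _ a b => a + b) (fun _ _ a b => a - b)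
    (fun n _ a => Int.ofNat n * a) e

/-- Packed coefficients: six positive digits, six negative digits, and the total mass. -/
noncomputable def E.w (e : E) : Bool → ℕ :=
  E.rec
    (fun s => cond s 6277101735386680763835789423207666416102355444464034578432 6277101735386680763835794615504524950929983974960363732992)
    (fun s => cond s 6277101735386680763835789423207666416102355444468329480192 6277101735386680764176071790128604879565730051895802724352)
    (fun s => cond s 6277101735386680763835789423207666416102355725939011223552 6277101735386703064580987953830807951820628092825540493312)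
    (fun s => cond s 6277101735386680763835789423207666416120802188537744064512 6277101736848182401166692341411351248818638464119967055872)
    (fun s => cond s 6277101735386680763835789423207667625028175059093209219072 6277197516357984881889436819896863310426331615659170988032)
    (fun n s => Nat.mul n (cond s 6277101735386680763835789423207666416102355444464034512897 6277101735386680763835789423286894578616619782057578463232))
    (fun _ _ a b s => Nat.add (a s) (b s)) (fun _ _ a b s => Nat.add (a s) (b (!s)))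
    (fun n _ a s => Nat.mul n (a s)) e

/-- The number `n` packs a linear form with value `z`. -/
def Rep (v : Env) (n : ℕ) (z : ℤ) : Prop :=
  ∃ a0 a1 a2 a3 a4 a5 b0 b1 b2 b3 b4 b5 : ℕ,
    n = a0 + 65536 * a1 + 4294967296 * a2 + 281474976710656 * a3 + 18446744073709551616 * a4 + 1208925819614629174706176 * a5 + 79228162514264337593543950336 * b0 +
      5192296858534827628530496329220096 * b1 + 340282366920938463463374607431768211456 * b2 + 22300745198530623141535718272648361505980416 * b3 + 1461501637330902918203684832716283019655932542976 * b4 + 95780971304118053647396689196894323976171195136475136 * b5 +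
      6277101735386680763835789423207666416102355444464034512896 * (a0 + a1 + a2 + a3 + a4 + a5 + b0 + b1 + b2 + b3 + b4 + b5) ∧
    z = a0 + a1 * v.N + a2 * v.t + a3 * v.x + a4 * v.y + a5 * v.L -
      (b0 + b1 * v.N + b2 * v.t + b3 * v.x + b4 * v.y + b5 * v.L)

variable {v : Env}

theorem Rep.zero : Rep v 0 0 := ⟨0, 0, 0, 0, 0, 0, 0, 0, 0, 0, 0, 0, rfl, by simp⟩

theorem Rep.add {n m : ℕ} {z w : ℤ} (h : Rep v n z) (g : Rep v m w) :
    Rep v (Nat.add n m) (z + w) := by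
  obtain ⟨a0, a1, a2, a3, a4, a5, b0, b1, b2, b3, b4, b5, rfl, rfl⟩ := h
  obtain ⟨c0, c1, c2, c3, c4, c5, d0, d1, d2, d3, d4, d5, rfl, rfl⟩ := g
  refine ⟨a0 + c0, a1 + c1, a2 + c2, a3 + c3, a4 + c4, a5 + c5, b0 + d0, b1 + d1, b2 + d2, b3 + d3,
    b4 + d4, b5 + d5, ?_, ?_⟩
  · rw [Nat.add_eq]; ring
  · push_cast; ring

theorem Rep.mul {n : ℕ} {z : ℤ} (h : Rep v n z) (c : ℕ) : Rep v (Nat.mul c n) (c * z) := by
  obtain ⟨a0, a1, a2, a3, a4, a5, b0, b1, b2, b3, b4, b5, rfl, rfl⟩ := h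
  refine ⟨c * a0, c * a1, c * a2, c * a3, c * a4, c * a5, c * b0, c * b1, c * b2, c * b3,
    c * b4, c * b5, ?_, ?_⟩
  · rw [Nat.mul_eq]; ring
  · push_cast; ring

theorem Rep.cast {n : ℕ} {z w : ℤ} (h : Rep v n z) (e : z = w) : Rep v n w := e ▸ h

theorem Rep.one : Rep v 6277101735386680763835789423207666416102355444464034512897 1 := ⟨1, 0, 0, 0, 0, 0, 0, 0, 0, 0, 0, 0, by decide, by simp⟩

theorem Rep.mone : Rep v 6277101735386680763835789423286894578616619782057578463232 (-1) :=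
  ⟨0, 0, 0, 0, 0, 0, 1, 0, 0, 0, 0, 0, by decide, by simp⟩

theorem E.rep (e : E) : Rep v (e.w true) (e.ev v) ∧ Rep v (e.w false) (-e.ev v) := by
  induction e with
  | N => exact ⟨⟨0, 1, 0, 0, 0, 0, 0, 0, 0, 0, 0, 0, by decide, by simp [E.ev]⟩,
      ⟨0, 0, 0, 0, 0, 0, 0, 1, 0, 0, 0, 0, by decide, by simp [E.ev]⟩⟩
  | t => exact ⟨⟨0, 0, 1, 0, 0, 0, 0, 0, 0, 0, 0, 0, by decide, by simp [E.ev]⟩,
      ⟨0, 0, 0, 0, 0, 0, 0, 0, 1, 0, 0, 0, by decide, by simp [E.ev]⟩⟩
  | x => exact ⟨⟨0, 0, 0, 1, 0, 0, 0, 0, 0, 0, 0, 0, by decide, by simp [E.ev]⟩,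
      ⟨0, 0, 0, 0, 0, 0, 0, 0, 0, 1, 0, 0, by decide, by simp [E.ev]⟩⟩
  | y => exact ⟨⟨0, 0, 0, 0, 1, 0, 0, 0, 0, 0, 0, 0, by decide, by simp [E.ev]⟩,
      ⟨0, 0, 0, 0, 0, 0, 0, 0, 0, 0, 1, 0, by decide, by simp [E.ev]⟩⟩
  | L => exact ⟨⟨0, 0, 0, 0, 0, 1, 0, 0, 0, 0, 0, 0, by decide, by simp [E.ev]⟩,
      ⟨0, 0, 0, 0, 0, 0, 0, 0, 0, 0, 0, 1, by decide, by simp [E.ev]⟩⟩
  | k n => exact ⟨(Rep.one.mul n).cast (mul_one _), (Rep.mone.mul n).cast (mul_neg_one _)⟩
  | add a b ha hb => exact ⟨ha.1.add hb.1, (ha.2.add hb.2).cast (neg_add _ _).symm⟩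
  | sub a b ha hb =>
    exact ⟨(ha.1.add hb.2).cast (sub_eq_add_neg _ _).symm,
      (ha.2.add hb.1).cast ((neg_add_eq_sub _ _).trans (neg_sub _ _).symm)⟩
  | mul n a ha => exact ⟨ha.1.mul n, (ha.2.mul n).cast (mul_neg _ _)⟩

/-- The packed form is a negative constant. -/
def ngc (n : ℕ) : Bool :=
  Nat.blt n 411376139330301510538742295639337626245683966408394965837152256 &&
    Nat.beq (Nat.mod (Nat.div n 65536) 1208925819614629174706176) (Nat.mod (Nat.div n 5192296858534827628530496329220096) 1208925819614629174706176) &&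
    Nat.blt (Nat.mod n 65536) (Nat.mod (Nat.div n 79228162514264337593543950336) 65536)

theorem dig {a b u w : ℕ} (ha : a < 65536) (hb : b < 65536)
    (h : a + 65536 * u = b + 65536 * w) : a = b ∧ u = w := by omega

theorem dvm {a u M : ℕ} (ha : a < M) : (a + M * u) / M = u ∧ (a + M * u) % M = a :=
  ⟨by rw [Nat.add_mul_div_left _ _ (by omega), Nat.div_eq_of_lt ha, Nat.zero_add],
    by rw [Nat.add_mul_mod_self_left, Nat.mod_eq_of_lt ha]⟩

theorem pk_lt {a u M : ℕ} (ha : a < 65536) (hu : u < M) : a + 65536 * u < 65536 * M := by omega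

theorem ngc_dig {n a b p q m : ℕ} (ha : a < 65536) (hb : b < 65536) (hp : p < 1208925819614629174706176)
    (hq : q < 1208925819614629174706176) (e1 : n = a + 65536 * (p + 1208925819614629174706176 * (b + 65536 * (q + 1208925819614629174706176 * m))))
    (g : ngc n = true) : p = q ∧ a < b := by
  have g1 := Bool.and_eq_true_iff.1 g
  have g2 : n / 65536 % 1208925819614629174706176 = n / 5192296858534827628530496329220096 % 1208925819614629174706176 :=
    Nat.eq_of_beq_eq_true (Bool.and_eq_true_iff.1 g1.1).2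
  have g3 : n % 65536 < n / 79228162514264337593543950336 % 65536 := Nat.blt_eq.mp g1.2
  have e2 : n = (a + 65536 * p) + 79228162514264337593543950336 * (b + 65536 * (q + 1208925819614629174706176 * m)) := by rw [e1]; ring
  have e3 : n = (a + 65536 * p + 79228162514264337593543950336 * b) + 5192296858534827628530496329220096 * (q + 1208925819614629174706176 * m) := by rw [e1]; ring
  have l2 : a + 65536 * p < 79228162514264337593543950336 := pk_lt ha hp
  have l3 : a + 65536 * p + 79228162514264337593543950336 * b < 5192296858534827628530496329220096 := by clear * - l2 hb; omega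
  have f1 : n / 65536 % 1208925819614629174706176 = p := by rw [e1, (dvm ha).1, (dvm hp).2]
  have f2 : n / 5192296858534827628530496329220096 % 1208925819614629174706176 = q := by rw [e3, (dvm l3).1, (dvm hq).2]
  have f3 : n % 65536 = a := by rw [e1, (dvm ha).2]
  have f4 : n / 79228162514264337593543950336 % 65536 = b := by rw [e2, (dvm l2).1, (dvm hb).2]
  exact ⟨f1 ▸ f2 ▸ g2, f3 ▸ f4 ▸ g3⟩

theorem ngc_spec {n : ℕ} {z : ℤ} (h : Rep v n z) (g : ngc n = true) : z < 0 := by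
  obtain ⟨a0, a1, a2, a3, a4, a5, b0, b1, b2, b3, b4, b5, hn, rfl⟩ := h
  have g1 : n < 411376139330301510538742295639337626245683966408394965837152256 :=
    Nat.blt_eq.mp (Bool.and_eq_true_iff.1 (Bool.and_eq_true_iff.1 g).1).1
  have hm : a0 + a1 + a2 + a3 + a4 + a5 + b0 + b1 + b2 + b3 + b4 + b5 < 65536 :=
    Nat.lt_of_mul_lt_mul_left (a := 6277101735386680763835789423207666416102355444464034512896) ((Nat.le_add_left _ _).trans_lt (hn ▸ g1))
  have l : (a0 < 65536 ∧ a1 < 65536 ∧ a2 < 65536 ∧ a3 < 65536 ∧ a4 < 65536 ∧ a5 < 65536) ∧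
      b0 < 65536 ∧ b1 < 65536 ∧ b2 < 65536 ∧ b3 < 65536 ∧ b4 < 65536 ∧ b5 < 65536 := by
    clear * - hm; omega
  obtain ⟨⟨p0, p1, p2, p3, p4, p5⟩, q0, q1, q2, q3, q4, q5⟩ := l
  obtain ⟨g2, g3⟩ := ngc_dig (n := n)
    (m := a0 + a1 + a2 + a3 + a4 + a5 + b0 + b1 + b2 + b3 + b4 + b5) p0 q0
    (pk_lt p1 (pk_lt p2 (pk_lt p3 (pk_lt p4 p5)))) (pk_lt q1 (pk_lt q2 (pk_lt q3 (pk_lt q4 q5))))
    (by rw [hn]; ring) g
  have k1 := dig p1 q1 g2
  have k2 := dig p2 q2 k1.2
  have k3 := dig p3 q3 k2.2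
  have k4 := dig p4 q4 k3.2
  rw [k1.1, k2.1, k3.1, k4.1, k4.2]
  have : (a0 : ℤ) < b0 := Int.ofNat_lt.2 g3
  clear * - this
  linarith

/-- Linear constraints. -/
inductive C where
  | le (a b : E)
  | lt (a b : E)
  | nle (a b : E)
  | eq (a b : E)
  | ne (a b : E)

/-- Meaning of a constraint. -/
noncomputable def C.ev (v : Env) (c : C) : Prop :=
  C.rec (fun a b => a.ev v ≤ b.ev v) (fun a b => a.ev v < b.ev v)
    (fun a b => ¬ (a.ev v ≤ b.ev v)) (fun a b => a.ev v = b.ev v) (fun a b => a.ev v ≠ b.ev v) c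

/-- A packed form that the constraint makes nonnegative. -/
noncomputable def C.w (c : C) (d : Bool) : ℕ :=
  C.rec (fun a b => Nat.add (b.w true) (a.w false))
    (fun a b => Nat.add (Nat.add (b.w true) (a.w false)) 6277101735386680763835789423286894578616619782057578463232)
    (fun a b => Nat.add (Nat.add (a.w true) (b.w false)) 6277101735386680763835789423286894578616619782057578463232)
    (fun a b => cond d (Nat.add (b.w true) (a.w false)) (Nat.add (a.w true) (b.w false)))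
    (fun _ _ => 0) c

theorem C.rep (c : C) (d : Bool) (h : c.ev v) : ∃ z, 0 ≤ z ∧ Rep v (c.w d) z := by
  cases c with
  | le a b => exact ⟨_, by change a.ev v ≤ b.ev v at h; omega, b.rep.1.add a.rep.2⟩
  | lt a b =>
    exact ⟨_, by change a.ev v < b.ev v at h; omega, (b.rep.1.add a.rep.2).add Rep.mone⟩
  | nle a b =>
    exact ⟨_, by change ¬ (a.ev v ≤ b.ev v) at h; omega, (a.rep.1.add b.rep.2).add Rep.mone⟩
  | eq a b =>
    change a.ev v = b.ev v at h
    cases d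
    · exact ⟨_, by omega, a.rep.1.add b.rep.2⟩
    · exact ⟨_, by omega, b.rep.1.add a.rep.2⟩
  | ne a b => exact ⟨0, le_rfl, Rep.zero⟩

/-- The negation of a constraint. -/
noncomputable def C.neg (c : C) : C :=
  C.rec (fun a b => C.nle a b) (fun a b => C.le b a) (fun a b => C.le a b) (fun a b => C.ne a b)
    (fun a b => C.eq a b) c

theorem C.of_neg (c : C) (h : ¬ c.neg.ev v) : c.ev v := by
  cases c with
  | le a b => exact not_not.1 h
  | lt a b => exact not_le.1 h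
  | nle a b => exact h
  | eq a b => exact not_not.1 h
  | ne a b => exact h

/-- All constraints of a list hold. -/
noncomputable def All (v : Env) (l : List C) : Prop :=
  List.rec True (fun c _ ih => c.ev v ∧ ih) l

/-- An entry of a list. -/
noncomputable def nth {α : Type} (d : α) (l : List α) : ℕ → α :=
  List.rec (fun _ => d) (fun c _ ih n => Nat.rec c (fun m _ => ih m) n) l

theorem nth_ind {α : Type} {d : α} {p : α → Prop} {q : List α → Prop} (hd : p d)
    (hq : ∀ c l, q (c :: l) → p c ∧ q l) (l : List α) : ∀ n, q l → p (nth d l n) := by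
  induction l with
  | nil => exact fun _ _ => hd
  | cons c l ih =>
    intro n h
    cases n with
    | zero => exact (hq _ _ h).1
    | succ n => exact ih n (hq _ _ h).2

theorem All.nth {l : List C} (h : All v l) (n : ℕ) : (nth (C.le E.N E.N) l n).ev v :=
  nth_ind (p := C.ev v) (q := All v) (le_refl _) (fun _ _ h => h) l n h

/-- Concatenation. -/
noncomputable def cat (l m : List C) : List C := List.rec m (fun c _ ih => c :: ih) l

theorem All.cat {l m : List C} (h : All v l) (g : All v m) : All v (cat l m) := by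
  induction l with
  | nil => exact g
  | cons c l ih => exact ⟨h.1, ih h.2⟩

/-- The combination of the constraints that a certificate describes. -/
noncomputable def comb (l : List C) (f : ℕ) : ℕ → ℕ :=
  Nat.rec (fun _ => 0) (fun _ ih n => cond (Nat.beq n 0) 0
    (Nat.add (Nat.mul (Nat.div (Nat.mod n 65536) 128)
      ((nth (C.le E.N E.N) l (Nat.mod n 64)).w (Nat.beq (Nat.mod (Nat.div n 64) 2) 0)))
      (ih (Nat.div n 65536)))) f

theorem comb_rep {l : List C} (h : All v l) (f : ℕ) : ∀ n, ∃ z, 0 ≤ z ∧ Rep v (comb l f n) z := by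
  induction f with
  | zero => exact fun _ => ⟨0, le_rfl, Rep.zero⟩
  | succ f ih =>
    intro n
    obtain ⟨z, h1, h2⟩ := ih (Nat.div n 65536)
    obtain ⟨w, h3, h4⟩ := C.rep _ (Nat.beq (Nat.mod (Nat.div n 64) 2) 0) (h.nth (Nat.mod n 64))
    change ∃ z, 0 ≤ z ∧ Rep v (cond (Nat.beq n 0) 0 _) z
    cases Nat.beq n 0
    · exact ⟨_, add_nonneg (mul_nonneg (Int.natCast_nonneg _) h3) h1, (h4.mul _).add h2⟩
    · exact ⟨0, le_rfl, Rep.zero⟩

/-- Refutations of a list of constraints. -/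
inductive Pf where
  | f (n : ℕ)
  | s (j : ℕ) (p q : Pf)
  | c (a b : E) (p q : Pf)

/-- Check of a refutation. -/
noncomputable def Pf.ok (p : Pf) : List C → Bool :=
  Pf.rec (fun n l => ngc (comb l 8 n))
    (fun j _ _ p q l => C.rec (fun _ _ => false) (fun _ _ => false) (fun _ _ => false)
      (fun _ _ => false) (fun a b => p (C.lt a b :: l) && q (C.lt b a :: l))
      (nth (C.le E.N E.N) l j))
    (fun a b _ _ p q l => p (C.le a b :: l) && q (C.nle a b :: l)) p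

theorem Pf.spec (p : Pf) : ∀ l, p.ok l = true → ¬ All v l := by
  induction p with
  | f n =>
    intro l h g
    obtain ⟨z, h1, h2⟩ := comb_rep g 8 n
    exact absurd (ngc_spec h2 h) (not_lt.2 h1)
  | s j p q hp hq =>
    intro l h g
    have e := g.nth j
    change (C.rec (fun _ _ => false) (fun _ _ => false) (fun _ _ => false) (fun _ _ => false)
      (fun a b => p.ok (C.lt a b :: l) && q.ok (C.lt b a :: l)) (nth (C.le E.N E.N) l j) : Bool) =
        true at h
    generalize nth (C.le E.N E.N) l j = c at e h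
    cases c with
    | ne a b =>
      have h' := Bool.and_eq_true_iff.1 h
      rcases lt_or_gt_of_ne e with e | e
      · exact hp _ h'.1 ⟨e, g⟩
      · exact hq _ h'.2 ⟨e, g⟩
    | _ => exact absurd h Bool.false_ne_true
  | c a b p q hp hq =>
    intro l h g
    have h' := Bool.and_eq_true_iff.1 h
    by_cases e : a.ev v ≤ b.ev v
    · exact hp _ h'.1 ⟨e, g⟩
    · exact hq _ h'.2 ⟨e, g⟩

/-- No pair of the list holds jointly. -/
noncomputable def Hold (v : Env) (g : List (C × C)) : Prop :=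
  List.rec True (fun c _ ih => ¬ (c.1.ev v ∧ c.2.ev v) ∧ ih) g

/-- Check of a list of refutations. -/
noncomputable def oks (l : List C) (g : List (C × C)) : List Pf → Bool :=
  List.rec (fun _ => true) (fun c _ ih ps =>
    List.rec false (fun p r _ => p.ok (c.1 :: c.2 :: l) && ih r) ps) g

theorem oks_spec {l : List C} (h : All v l) (g : List (C × C)) :
    ∀ ps, oks l g ps = true → Hold v g := by
  induction g with
  | nil => exact fun _ _ => trivial
  | cons c g ih =>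
    intro ps e
    cases ps with
    | nil => exact absurd e Bool.false_ne_true
    | cons p r =>
      have e' := Bool.and_eq_true_iff.1 e
      exact ⟨fun k => p.spec _ e'.1 ⟨k.1, k.2, h⟩, ih r e'.2⟩

/-- The goal that proves one constraint. -/
noncomputable def gl (c : C) (r : List (C × C)) : List (C × C) := (c.neg, c.neg) :: r

theorem Hold.gl {c : C} {r : List (C × C)} (h : Hold v (gl c r)) : c.ev v ∧ Hold v r :=
  ⟨c.of_neg fun k => h.1 ⟨k, k⟩, h.2⟩

/-- The two goals that prove an equation. -/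
noncomputable def ge (a b : E) (r : List (C × C)) : List (C × C) := gl (C.le a b) (gl (C.le b a) r)

theorem Hold.ge {a b : E} {r : List (C × C)} (h : Hold v (ge a b r)) :
    a.ev v = b.ev v ∧ Hold v r := ⟨le_antisymm h.gl.1 h.gl.2.gl.1, h.gl.2.gl.2⟩

/-- The goals for a list of constraints. -/
noncomputable def gls (l : List C) : List (C × C) := List.rec [] (fun c _ ih => gl c ih) l

theorem Hold.gls {l : List C} (h : Hold v (gls l)) : All v l := by
  induction l with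
  | nil => trivial
  | cons c l ih => exact ⟨h.gl.1, ih h.gl.2⟩

/-- Case trees. -/
inductive Tr where
  | nd (a b : E) (l r : Tr)
  | lf (i : ℕ) (ps : List Pf)
  | no (p : Pf)

/-- Every list of the table implies `Q`. -/
noncomputable def Tab (v : Env) (Q : Prop) (tab : List (List C)) : Prop :=
  List.rec True (fun l _ ih => (All v l → Q) ∧ ih) tab

/-- Check of a case tree. -/
noncomputable def Tr.ok (tab : List (List C)) (r : Tr) : List C → Bool :=
  Tr.rec (fun a b _ _ p q l => p (C.le a b :: l) && q (C.nle a b :: l))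
    (fun i ps l => oks l (gls (nth [C.lt E.N E.N] tab i)) ps) (fun p l => p.ok l) r

theorem Tr.spec {Q : Prop} {tab : List (List C)} (T : Tab v Q tab) (r : Tr) :
    ∀ l, r.ok tab l = true → All v l → Q := by
  induction r with
  | nd a b p q hp hq =>
    intro l h g
    have h' := Bool.and_eq_true_iff.1 h
    by_cases e : a.ev v ≤ b.ev v
    · exact hp _ h'.1 ⟨e, g⟩
    · exact hq _ h'.2 ⟨e, g⟩
  | lf i ps =>
    intro l h g
    exact nth_ind (d := [C.lt E.N E.N]) (p := fun l => All v l → Q) (q := Tab v Q)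
      (fun k => absurd k.1 (lt_irrefl _)) (fun _ _ h => h) tab i T (oks_spec g _ _ h).gls
  | no p => exact fun l h g => absurd g (p.spec l h)

/-- Monotone runs and single vertices. -/
inductive S where
  | up (a b : E)
  | dn (a b : E)
  | pt (a : E)

/-- First vertex. -/
noncomputable def S.st (s : S) : E := S.rec (fun a _ => a) (fun a _ => a) (fun a => a) s

/-- Last vertex. -/
noncomputable def S.en (s : S) : E := S.rec (fun _ b => b) (fun _ b => b) (fun a => a) s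

/-- Smallest vertex. -/
noncomputable def S.lo (s : S) : E := S.rec (fun a _ => a) (fun _ b => b) (fun a => a) s

/-- Largest vertex. -/
noncomputable def S.hi (s : S) : E := S.rec (fun _ b => b) (fun a _ => a) (fun a => a) s

/-- Number of vertices. -/
noncomputable def S.len (s : S) : E := E.add (E.sub s.hi s.lo) (E.k 1)

/-- The range conditions of a run. -/
noncomputable def S.rg (s : S) (r : List (C × C)) : List (C × C) :=
  S.rec (fun a b => gl (C.le (E.k 0) a) (gl (C.le a b) (gl (C.lt b E.N) r)))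
    (fun a b => gl (C.le (E.k 0) b) (gl (C.le b a) (gl (C.lt a E.N) r)))
    (fun a => gl (C.le (E.k 0) a) (gl (C.le a E.N) r)) s

variable {A : ℤ → ℤ → Prop}

theorem S.run (hA : Rel A v.N) (s : S) {r : List (C × C)} (h : Hold v (s.rg r)) :
    R A (fun z => s.lo.ev v ≤ z ∧ z ≤ s.hi.ev v) (s.st.ev v) (s.en.ev v) (s.len.ev v) ∧
      0 ≤ s.lo.ev v ∧ s.hi.ev v ≤ v.N ∧ Hold v r := by
  cases s with
  | up a b =>
    exact ⟨R.up hA _ _ h.gl.1 h.gl.2.gl.1 h.gl.2.gl.2.gl.1, h.gl.1, le_of_lt h.gl.2.gl.2.gl.1,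
      h.gl.2.gl.2.gl.2⟩
  | dn a b =>
    exact ⟨R.down hA _ _ h.gl.1 h.gl.2.gl.1 h.gl.2.gl.2.gl.1, h.gl.1, le_of_lt h.gl.2.gl.2.gl.1,
      h.gl.2.gl.2.gl.2⟩
  | pt a =>
    exact ⟨(R.one (a.ev v)).mono (fun z e => ⟨e.ge, e.le⟩)
      ((zero_add 1).symm.trans (congrArg (· + 1) (sub_self (a.ev v)).symm)), h.gl.1,
      h.gl.2.gl.1, h.gl.2.gl.2⟩

/-- Membership in one of the runs. -/
noncomputable def In (v : Env) (ps : List S) (z : ℤ) : Prop :=
  List.rec False (fun s _ ih => ih ∨ (s.lo.ev v ≤ z ∧ z ≤ s.hi.ev v)) ps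

/-- The goals saying that a run misses the earlier runs. -/
noncomputable def dj (ps : List S) (s : S) (r : List (C × C)) : List (C × C) :=
  List.rec r (fun p _ ih => (C.le s.lo p.hi, C.le p.lo s.hi) :: ih) ps

theorem Hold.dj {ps : List S} {s : S} {r : List (C × C)} (h : Hold v (dj ps s r)) :
    (∀ z, In v ps z → s.lo.ev v ≤ z ∧ z ≤ s.hi.ev v → False) ∧ Hold v r := by
  induction ps with
  | nil => exact ⟨fun _ k _ => k, h⟩
  | cons p ps ih =>
    refine ⟨fun z k e => k.elim (fun k => (ih h.2).1 z k e) fun k => ?_, (ih h.2).2⟩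
    exact h.1 ⟨e.1.trans k.2, k.1.trans e.2⟩

/-- The number `e` differs from all values of a list. -/
noncomputable def Av (v : Env) (e : ℤ) (V : List E) : Prop :=
  List.rec True (fun u _ ih => e ≠ u.ev v ∧ ih) V

/-- The goals saying that `e` is a neighbour of the hub. -/
noncomputable def hb (V : List E) (e : E) (r : List (C × C)) : List (C × C) :=
  gl (C.le (E.k 0) e) (gl (C.lt e E.N) (List.rec r (fun u _ ih => gl (C.ne e u) ih) V))

theorem Hold.hb {V : List E} {e : E} {r : List (C × C)} (h : Hold v (hb V e r)) :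
    0 ≤ e.ev v ∧ e.ev v < v.N ∧ Av v (e.ev v) V ∧ Hold v r := by
  refine ⟨h.gl.1, h.gl.2.gl.1, ?_⟩
  have g := h.gl.2.gl.2
  clear h
  induction V with
  | nil => exact ⟨trivial, g⟩
  | cons u V ih => exact ⟨⟨g.gl.1, (ih g.gl.2).1⟩, (ih g.gl.2).2⟩

/-- All pairs of a list are adjacent. -/
noncomputable def Ch (A : ℤ → ℤ → Prop) (v : Env) (H : List (E × E)) : Prop :=
  List.rec True (fun c _ ih => A (c.1.ev v) (c.2.ev v) ∧ ih) H

/-- The data of a family: vertices missed by the hub, chords, parameter range. -/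
structure Fam (A : ℤ → ℤ → Prop) (v : Env) (V : List E) (H : List (E × E)) (D : List C) :
    Prop where
  rel : Rel A v.N
  hub : ∀ e, 0 ≤ e → e < v.N → Av v e V → A e v.N ∧ A v.N e
  ch : Ch A v H
  dom : All v D

/-- The goals for the step from `e` to `f`: to the hub (0), from the hub (1), along a chord. -/
noncomputable def jn (V : List E) (H : List (E × E)) (j : ℕ) (e f : E) (r : List (C × C)) :
    List (C × C) :=
  Nat.rec (hb V e (ge f E.N r)) (fun j _ => Nat.rec (hb V f (ge e E.N r))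
    (fun j _ => List.rec [(C.le E.N E.N, C.le E.N E.N)] (fun c _ _ => ge e c.1 (ge f c.2 r))
      (nth [] (List.rec [] (fun c l ih => (c :: l) :: ih) H) j)) j) j

theorem Ch.nth {H : List (E × E)} (h : Ch A v H) (j : ℕ) :
    Ch A v (nth [] (List.rec [] (fun c l ih => (c :: l) :: ih) H) j) := by
  induction H generalizing j with
  | nil => trivial
  | cons c H ih =>
    cases j with
    | zero => exact h
    | succ j => exact ih h.2 j

theorem Hold.jn {V : List E} {H : List (E × E)} {D : List C} (F : Fam A v V H D) {j : ℕ}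
    {e f : E} {r : List (C × C)} (h : Hold v (jn V H j e f r)) :
    A (e.ev v) (f.ev v) ∧ Hold v r := by
  rcases j with _ | _ | j
  · obtain ⟨h0, h1, h2, h3⟩ := Hold.hb h
    exact ⟨h3.ge.1 ▸ (F.hub _ h0 h1 h2).1, h3.ge.2⟩
  · obtain ⟨h0, h1, h2, h3⟩ := Hold.hb h
    exact ⟨h3.ge.1 ▸ (F.hub _ h0 h1 h2).2, h3.ge.2⟩
  · have g := F.ch.nth j
    change Hold v (List.rec [(C.le E.N E.N, C.le E.N E.N)]
      (fun c _ _ => Fk.ge e c.1 (Fk.ge f c.2 r))
      (nth [] (List.rec [] (fun c l ih => (c :: l) :: ih) H) j)) at h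
    generalize nth [] (List.rec [] (fun c l ih => (c :: l) :: ih) H) j = l at g h
    cases l with
    | nil => exact absurd ⟨le_refl _, le_refl _⟩ h.1
    | cons c l =>
      have k := Hold.ge h
      exact ⟨by rw [k.1, k.2.ge.1]; exact g.1, k.2.ge.2⟩

/-- All goals of a route. -/
noncomputable def rt (V : List E) (H : List (E × E)) (w : E) (r : List (ℕ × S)) :
    List S → E → E → List (C × C) :=
  List.rec (fun _ e n => ge e w (ge n E.L []))
    (fun c _ ih ps e n => c.2.rg (jn V H c.1 e c.2.st (dj ps c.2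
      (ih (c.2 :: ps) c.2.en (E.add n c.2.len))))) r

theorem rt_spec {V : List E} {H : List (E × E)} {D : List C} (F : Fam A v V H D) (w : E)
    (r : List (ℕ × S)) : ∀ (ps : List S) (e n : E) (a : ℤ), Hold v (rt V H w r ps e n) →
      R A (In v ps) a (e.ev v) (n.ev v) → (∀ z, In v ps z → 0 ≤ z ∧ z ≤ v.N) →
      P A v.N a (w.ev v) v.L := by
  induction r with
  | nil =>
    intro ps e n a h p b
    have k := Hold.ge h
    exact k.1 ▸ p.mono b k.2.ge.1
  | cons c r ih =>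
    intro ps e n a h p b
    obtain ⟨q, h0, h1, h⟩ := c.2.run F.rel h
    obtain ⟨j, h⟩ := h.jn F
    obtain ⟨d, h⟩ := h.dj
    exact ih (c.2 :: ps) _ _ a h (p.join q j d)
      fun z k => k.elim (b z) fun k => ⟨h0.trans k.1, k.2.trans h1⟩

/-- Check of a route. -/
noncomputable def rok (V : List E) (H : List (E × E)) (D l : List C) (w : E) (s : S)
    (r : List (ℕ × S)) (ps : List Pf) : Bool :=
  oks (cat l D) (s.rg (ge s.st E.x (rt V H w r [s] s.en s.len))) ps

theorem route {V : List E} {H : List (E × E)} {D : List C} (F : Fam A v V H D) (l : List C)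
    (w : E) (s : S) (r : List (ℕ × S)) (ps : List Pf) (h : rok V H D l w s r ps = true)
    (g : All v l) : P A v.N v.x (w.ev v) v.L := by
  obtain ⟨q, h0, h1, h⟩ := s.run F.rel (oks_spec (g.cat F.dom) _ _ h)
  have k := Hold.ge h
  have e : s.st.ev v = v.x := k.1
  exact rt_spec F w r [s] _ _ _ k.2 (e ▸ q.mono (fun _ => Or.inr) rfl)
    fun z k => k.elim False.elim fun k => ⟨h0.trans k.1, k.2.trans h1⟩

theorem tree {V : List E} {H : List (E × E)} {D : List C} (F : Fam A v V H D) {Q : Prop}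
    {tab : List (List C)} (T : Tab v Q tab) (l : List C) (r : Tr)
    (h : r.ok tab (cat l D) = true) (g : All v l) : Q := r.spec T _ h (g.cat F.dom)

end Pool.Agent.Work.MP_193ce1_co.Rim.Fk
end

-- merged part: Pool.Agent.Work.MP_193ce1_co.Rim.WpD
section
set_option linter.unusedVariables false

namespace Pool.Agent.Work.MP_193ce1_co.Rim.Wp

def D (N t : ℤ) : Prop :=
  N + 2 ≤ 2 * t ∧ t + 1 ≤ N ∧ (9 : ℤ) ≤ N

def B (N t a b : ℤ) : Prop :=
  (0 ≤ a ∧ b = a + 1 ∧ b < N) ∨ (a = N ∧ 0 ≤ b ∧ b < N ∧ b ≠ N - t ∧ b ≠ t) ∨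
    (a = N - 1 ∧ b = 0) ∨
    (a = 0 ∧ b = N - t + 1)

def A (N t a b : ℤ) : Prop := a ≠ b ∧ (B N t a b ∨ B N t b a)

variable {N t : ℤ}

theorem rel (hD : D N t) : Rel (A N t) N :=
  ⟨fun _ _ h => ⟨h.1.symm, h.2.symm⟩, fun _ h => h.1 rfl,
    fun a h0 h1 => ⟨by omega, Or.inl (Or.inl ⟨h0, rfl, h1⟩)⟩⟩

theorem hubB (hD : D N t) (e : ℤ) (h0 : 0 ≤ e) (h1 : e < N) (x0 : e ≠ N - t) (x1 : e ≠ t) : A N t N e :=
  ⟨by omega, Or.inl (Or.inr (Or.inl ⟨rfl, h0, h1, x0, x1⟩))⟩

theorem hubA (hD : D N t) (e : ℤ) (h0 : 0 ≤ e) (h1 : e < N) (x0 : e ≠ N - t) (x1 : e ≠ t) : A N t e N :=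
  ⟨by omega, Or.inr (Or.inr (Or.inl ⟨rfl, h0, h1, x0, x1⟩))⟩

theorem ch0 (hD : D N t) : A N t (N - 1) 0 :=
  ⟨by unfold D at hD; omega, Or.inl (Or.inr (Or.inr (Or.inl ⟨rfl, rfl⟩)))⟩

theorem ch1 (hD : D N t) : A N t 0 (N - 1) :=
  ⟨by unfold D at hD; omega, Or.inr (Or.inr (Or.inr (Or.inl ⟨rfl, rfl⟩)))⟩

theorem ch2 (hD : D N t) : A N t 0 (N - t + 1) :=
  ⟨by unfold D at hD; omega, Or.inl (Or.inr (Or.inr (Or.inr ⟨rfl, rfl⟩)))⟩

theorem ch3 (hD : D N t) : A N t (N - t + 1) 0 :=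
  ⟨by unfold D at hD; omega, Or.inr (Or.inr (Or.inr (Or.inr ⟨rfl, rfl⟩)))⟩

/-- vertices missed by the hub -/
noncomputable def fV : List Fk.E :=
  [.sub .N .t, .t]

/-- chords -/
noncomputable def fH : List (Fk.E × Fk.E) :=
  [(.sub .N (.k 1), .k 0), (.k 0, .sub .N (.k 1)), (.k 0, .add (.sub .N .t) (.k 1)), (.add (.sub .N
  .t) (.k 1), .k 0)]

/-- parameter range -/
noncomputable def fD : List Fk.C :=
  [.le (.add .N (.k 2)) (.mul 2 .t), .le (.add .t (.k 1)) .N, .le (.k 9) .N]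

theorem fam (hD : D N t) (x y L : ℤ) : Fk.Fam (A N t) ⟨N, t, x, y, L⟩ fV fH fD :=
  ⟨rel hD, fun e h0 h1 h => ⟨hubA hD e h0 h1 h.1 h.2.1,
    hubB hD e h0 h1 h.1 h.2.1⟩,
    ⟨ch0 hD, ch1 hD, ch2 hD, ch3 hD, trivial⟩, hD.1, hD.2.1, hD.2.2, trivial⟩

end Pool.Agent.Work.MP_193ce1_co.Rim.Wp
end

-- merged part: Pool.Agent.Work.MP_193ce1_co.Rim.SgD
section
set_option linter.unusedVariables false

namespace Pool.Agent.Work.MP_193ce1_co.Rim.Sg

def D (N t : ℤ) : Prop :=
  2 * t ≤ N ∧ N ≤ 2 * t ∧ (8 : ℤ) ≤ N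

def B (N t a b : ℤ) : Prop :=
  (0 ≤ a ∧ b = a + 1 ∧ b < N) ∨ (a = N ∧ 0 ≤ b ∧ b < N ∧ b ≠ t) ∨
    (a = N - 1 ∧ b = 0)

def A (N t a b : ℤ) : Prop := a ≠ b ∧ (B N t a b ∨ B N t b a)

variable {N t : ℤ}

theorem rel (hD : D N t) : Rel (A N t) N :=
  ⟨fun _ _ h => ⟨h.1.symm, h.2.symm⟩, fun _ h => h.1 rfl,
    fun a h0 h1 => ⟨by omega, Or.inl (Or.inl ⟨h0, rfl, h1⟩)⟩⟩

theorem hubB (hD : D N t) (e : ℤ) (h0 : 0 ≤ e) (h1 : e < N) (x0 : e ≠ t) : A N t N e :=
  ⟨by omega, Or.inl (Or.inr (Or.inl ⟨rfl, h0, h1, x0⟩))⟩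

theorem hubA (hD : D N t) (e : ℤ) (h0 : 0 ≤ e) (h1 : e < N) (x0 : e ≠ t) : A N t e N :=
  ⟨by omega, Or.inr (Or.inr (Or.inl ⟨rfl, h0, h1, x0⟩))⟩

theorem ch0 (hD : D N t) : A N t (N - 1) 0 :=
  ⟨by unfold D at hD; omega, Or.inl (Or.inr (Or.inr ⟨rfl, rfl⟩))⟩

theorem ch1 (hD : D N t) : A N t 0 (N - 1) :=
  ⟨by unfold D at hD; omega, Or.inr (Or.inr (Or.inr ⟨rfl, rfl⟩))⟩

/-- vertices missed by the hub -/
noncomputable def fV : List Fk.E :=
  [.t]

/-- chords -/
noncomputable def fH : List (Fk.E × Fk.E) :=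
  [(.sub .N (.k 1), .k 0), (.k 0, .sub .N (.k 1))]

/-- parameter range -/
noncomputable def fD : List Fk.C :=
  [.le (.mul 2 .t) .N, .le .N (.mul 2 .t), .le (.k 8) .N]

theorem fam (hD : D N t) (x y L : ℤ) : Fk.Fam (A N t) ⟨N, t, x, y, L⟩ fV fH fD :=
  ⟨rel hD, fun e h0 h1 h => ⟨hubA hD e h0 h1 h.1,
    hubB hD e h0 h1 h.1⟩,
    ⟨ch0 hD, ch1 hD, trivial⟩, hD.1, hD.2.1, hD.2.2, trivial⟩

end Pool.Agent.Work.MP_193ce1_co.Rim.Sg
end

-- merged part: Pool.Agent.Work.MP_193ce1_co.Rim.SgR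
section
set_option linter.unusedVariables false

namespace Pool.Agent.Work.MP_193ce1_co.Rim.Sg

/-- hypotheses -/
noncomputable def kr0 : List Fk.C :=
  [.le (.add .x .L) (.add .y (.k 2)), .le (.k 3) .L, .le (.k 0) .x, .le (.add .y (.k 1)) .N, .ne .x
  .t, .ne (.add .y (.k 3)) (.add .t .L)]

theorem qr0 {N t x y L : ℤ} (hD : D N t) : Fk.All ⟨N, t, x, y, L⟩ kr0 → P (A N t) N x y L :=
  Fk.route (fam hD x y L) kr0 .y (.pt .x)
    [(0, .pt .N), (1, .up (.add (.sub .y .L) (.k 3)) .y)]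
    [.f 8650880, .f 37436734551752832, .f 128, .f 128, .f 9044096, .f 128, .f 8650880, .f
    36029359668199557, .s 6 (.f 12648576) (.f 8454272), .f 128, .f 128, .f 36029359668199557, .f
    558354137220, .f 8585344, .f 8716416, .f 558354137220, .f 549764399237, .s 7 (.f 12648576) (.f
    8454272), .f 128, .f 128, .f 8716417, .f 8519808, .f 128, .f 128, .f 128, .f 128]
    (by decide +kernel)

theorem rT0 {N t x y L : ℤ} (hD : D N t)
    (c0 : x + L ≤ y + 2)
    (c1 : (3 : ℤ) ≤ L)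
    (c2 : (0 : ℤ) ≤ x)
    (c3 : y + 1 ≤ N)
    (c4 : x ≠ t)
    (c5 : y + 3 ≠ t + L) :
    P (A N t) N x y L := by
  exact qr0 hD ⟨c0, c1, c2, c3, c4, c5, trivial⟩

/-- hypotheses -/
noncomputable def kr1 : List Fk.C :=
  [.le (.add .x .L) (.add .y (.k 2)), .le (.k 3) .L, .le (.k 0) .x, .le (.add .y (.k 1)) .N, .ne
  (.add .x .L) (.add .t (.k 3)), .ne .y .t]

theorem qr1 {N t x y L : ℤ} (hD : D N t) : Fk.All ⟨N, t, x, y, L⟩ kr1 → P (A N t) N x y L :=
  Fk.route (fam hD x y L) kr1 .y (.up .x (.sub (.add .x .L) (.k 3)))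
    [(0, .pt .N), (1, .pt .y)]
    [.f 8650880, .f 8585344, .f 549764333701, .f 128, .f 128, .f 9044096, .f 128, .f 549764399236,
    .f 549764333701, .s 6 (.f 12648576) (.f 8454272), .f 128, .f 128, .f 571239170176, .f
    36029359668199556, .f 8716416, .f 36029359668199556, .f 8716416, .s 7 (.f 12648576) (.f
    8454272), .f 128, .f 128, .f 8716417, .f 8519808, .f 128, .f 128, .f 128, .f 128]
    (by decide +kernel)

theorem rT1 {N t x y L : ℤ} (hD : D N t)
    (c0 : x + L ≤ y + 2)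
    (c1 : (3 : ℤ) ≤ L)
    (c2 : (0 : ℤ) ≤ x)
    (c3 : y + 1 ≤ N)
    (c4 : x + L ≠ t + 3)
    (c5 : y ≠ t) :
    P (A N t) N x y L := by
  exact qr1 hD ⟨c0, c1, c2, c3, c4, c5, trivial⟩

/-- hypotheses -/
noncomputable def kr2 : List Fk.C :=
  [.le (.add .x .L) (.add .y (.k 3)), .le (.k 4) .L, .le (.k 1) .x, .le (.add .y (.k 1)) .N, .ne .x
  (.add .t (.k 1)), .ne (.add .y (.k 4)) (.add .t .L)]

theorem qr2 {N t x y L : ℤ} (hD : D N t) : Fk.All ⟨N, t, x, y, L⟩ kr2 → P (A N t) N x y L :=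
  Fk.route (fam hD x y L) kr2 .y (.dn .x (.sub .x (.k 1)))
    [(0, .pt .N), (1, .up (.add (.sub .y .L) (.k 4)) .y)]
    [.f 8650880, .f 128, .f 36029359668199557, .f 128, .f 128, .f 9044096, .f 128, .f 8650880, .f
    36029359668199557, .s 6 (.f 12648576) (.f 8454272), .f 128, .f 128, .f 36029359668199557, .f
    558354137220, .f 8585344, .f 8716416, .f 558354137220, .f 549764399237, .s 7 (.f 12648576) (.f
    8454272), .f 128, .f 128, .f 8716417, .f 8519808, .f 128, .f 128, .f 128, .f 128]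
    (by decide +kernel)

theorem rT2 {N t x y L : ℤ} (hD : D N t)
    (c0 : x + L ≤ y + 3)
    (c1 : (4 : ℤ) ≤ L)
    (c2 : (1 : ℤ) ≤ x)
    (c3 : y + 1 ≤ N)
    (c4 : x ≠ t + 1)
    (c5 : y + 4 ≠ t + L) :
    P (A N t) N x y L := by
  exact qr2 hD ⟨c0, c1, c2, c3, c4, c5, trivial⟩

/-- hypotheses -/
noncomputable def kr3 : List Fk.C :=
  [.le (.add .x (.k 1)) .y, .le (.k 3) .L, .le .L (.add .x (.k 3)), .le (.add .y (.k 1)) .N, .ne
  (.add .x (.k 3)) (.add .t .L), .ne .y .t]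

theorem qr3 {N t x y L : ℤ} (hD : D N t) : Fk.All ⟨N, t, x, y, L⟩ kr3 → P (A N t) N x y L :=
  Fk.route (fam hD x y L) kr3 .y (.dn .x (.add (.sub .x .L) (.k 3)))
    [(0, .pt .N), (1, .pt .y)]
    [.f 8650880, .f 8585344, .f 549764333701, .f 128, .f 128, .f 9044096, .f 128, .f 8650880, .f
    36029359668199557, .s 6 (.f 12648576) (.f 8454272), .f 128, .f 128, .f 571239039106, .f
    36029359668199556, .f 8716416, .f 36029359668199556, .f 8716416, .s 7 (.f 12648576) (.f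
    8454272), .f 128, .f 128, .f 8716417, .f 8519808, .f 128, .f 128, .f 128, .f 128]
    (by decide +kernel)

theorem rT3 {N t x y L : ℤ} (hD : D N t)
    (c0 : x + 1 ≤ y)
    (c1 : (3 : ℤ) ≤ L)
    (c2 : L ≤ x + 3)
    (c3 : y + 1 ≤ N)
    (c4 : x + 3 ≠ t + L)
    (c5 : y ≠ t) :
    P (A N t) N x y L := by
  exact qr3 hD ⟨c0, c1, c2, c3, c4, c5, trivial⟩

/-- hypotheses -/
noncomputable def kr4 : List Fk.C :=
  [.le (.add .t (.k 4)) (.add .y .L), .le (.k 0) .x, .le (.add .x .L) (.add .t (.k 3)), .le .y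
  (.add .t (.k 1)), .ne (.add (.add .x .y) .L) (.add (.mul 2 .t) (.k 4))]

theorem qr4 {N t x y L : ℤ} (hD : D N t) : Fk.All ⟨N, t, x, y, L⟩ kr4 → P (A N t) N x y L :=
  Fk.route (fam hD x y L) kr4 .y (.up .x (.sub (.sub (.add (.add .x .y) .L) .t) (.k 4)))
    [(0, .pt .N), (1, .dn (.add .t (.k 1)) .y)]
    [.f 8585344, .f 8519808, .f 4722439948426994253959, .f 128, .f 128, .f 8978560, .f 128, .f
    549764333699, .f 4722439948426994253959, .s 6 (.f 12648576) (.f 8454272), .f 128, .f 128, .f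
    2490383915508138246404, .f 37155246690140291, .f 8716416, .f 1099520606343, .f
    2361220678165079457924, .f 1099520606343, .f 128, .f 128, .f 128, .f 579837427849, .f 8650880,
    .f 128, .f 128, .f 128, .f 128]
    (by decide +kernel)

theorem rT4 {N t x y L : ℤ} (hD : D N t)
    (c0 : t + 4 ≤ y + L)
    (c1 : (0 : ℤ) ≤ x)
    (c2 : x + L ≤ t + 3)
    (c3 : y ≤ t + 1)
    (c4 : x + y + L ≠ 2 * t + 4) :
    P (A N t) N x y L := by
  exact qr4 hD ⟨c0, c1, c2, c3, c4, trivial⟩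

/-- hypotheses -/
noncomputable def kr5 : List Fk.C :=
  [.le (.add .t (.k 6)) (.add .y .L), .le (.k 0) .x, .le (.add .x .L) (.add .t (.k 5)), .le .y
  (.add .t (.k 3)), .ne (.add (.add .x .y) .L) (.add (.mul 2 .t) (.k 6))]

theorem qr5 {N t x y L : ℤ} (hD : D N t) : Fk.All ⟨N, t, x, y, L⟩ kr5 → P (A N t) N x y L :=
  Fk.route (fam hD x y L) kr5 .y (.up .x (.sub (.sub (.add (.add .x .y) .L) .t) (.k 6)))
    [(0, .pt .N), (1, .dn (.add .t (.k 3)) .y)]
    [.f 8585344, .f 8519808, .f 2490383916019239616649, .f 128, .f 128, .f 8978560, .f 128, .f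
    549764333699, .f 2490383916019239616649, .s 6 (.f 12648576) (.f 8454272), .f 128, .f 128, .f
    2490383915508138246404, .f 37155246690140291, .f 8716416, .f 579837362313, .f
    2361220678165079457924, .f 579837362313, .f 128, .f 128, .f 128, .f 579837427849, .f 8650880,
    .f 128, .f 128, .f 128, .f 128]
    (by decide +kernel)

theorem rT5 {N t x y L : ℤ} (hD : D N t)
    (c0 : t + 6 ≤ y + L)
    (c1 : (0 : ℤ) ≤ x)
    (c2 : x + L ≤ t + 5)
    (c3 : y ≤ t + 3)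
    (c4 : x + y + L ≠ 2 * t + 6) :
    P (A N t) N x y L := by
  exact qr5 hD ⟨c0, c1, c2, c3, c4, trivial⟩

/-- hypotheses -/
noncomputable def kr6 : List Fk.C :=
  [.le (.add .t .L) (.add .y (.k 5)), .le .t (.add .x (.k 3)), .le (.add .x (.k 6)) (.add .t .L),
  .le (.add .y (.k 1)) .N, .ne (.add (.add .x .y) (.k 6)) (.add (.mul 2 .t) .L)]

theorem qr6 {N t x y L : ℤ} (hD : D N t) : Fk.All ⟨N, t, x, y, L⟩ kr6 → P (A N t) N x y L :=
  Fk.route (fam hD x y L) kr6 .y (.dn .x (.sub .t (.k 3)))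
    [(0, .pt .N), (1, .up (.add (.sub (.sub (.add .x .y) .t) .L) (.k 6)) .y)]
    [.f 584132329609, .f 8585344, .f 36029355373363333, .f 128, .f 128, .f 8978560, .f 128, .f
    584132329609, .f 2361220115215126102149, .f 192, .f 128, .f 128, .f 37436721666850948, .f
    4759332873624451809536, .f 8650880, .f 8716416, .f 4759332873624451809536, .f 549764464773, .s
    6 (.f 12648576) (.f 8454272), .f 128, .f 128, .f 8716417, .f 8519808, .f 128, .f 128, .f 128,
    .f 128]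
    (by decide +kernel)

theorem rT6 {N t x y L : ℤ} (hD : D N t)
    (c0 : t + L ≤ y + 5)
    (c1 : t ≤ x + 3)
    (c2 : x + 6 ≤ t + L)
    (c3 : y + 1 ≤ N)
    (c4 : x + y + 6 ≠ 2 * t + L) :
    P (A N t) N x y L := by
  exact qr6 hD ⟨c0, c1, c2, c3, c4, trivial⟩

/-- hypotheses -/
noncomputable def kr7 : List Fk.C :=
  [.le (.add .x (.k 4)) .L, .le .L (.add .y (.k 3)), .le (.k 0) .x, .le (.add .y (.k 2)) .N, .ne
  (.add (.add .x .y) (.k 4)) (.add .t .L)]

theorem qr7 {N t x y L : ℤ} (hD : D N t) : Fk.All ⟨N, t, x, y, L⟩ kr7 → P (A N t) N x y L :=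
  Fk.route (fam hD x y L) kr7 .y (.dn .x (.k 0))
    [(3, .pt (.sub .N (.k 1))), (0, .pt .N), (1, .up (.add (.sub (.add .x .y) .L) (.k 4)) .y)]
    [.f 128, .f 8650880, .f 36029355373297797, .f 128, .f 128, .f 8978560, .f 128, .f 128, .f 128,
    .f 128, .f 128, .f 37436730256851072, .f 8978560, .f 128, .f 8978560, .f 128, .f
    163207383761578309728600197, .f 128, .f 128, .f 128, .f 37436730256851072, .f 562649104516, .f
    8519808, .f 8716416, .f 562649104516, .f 549764333701, .s 6 (.f 12648576) (.f 8454272), .f 128,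
    .f 128, .f 8716417, .f 8716417, .f 8585344, .f 128, .f 128, .f 128, .f 128]
    (by decide +kernel)

theorem rT7 {N t x y L : ℤ} (hD : D N t)
    (c0 : x + 4 ≤ L)
    (c1 : L ≤ y + 3)
    (c2 : (0 : ℤ) ≤ x)
    (c3 : y + 2 ≤ N)
    (c4 : x + y + 4 ≠ t + L) :
    P (A N t) N x y L := by
  exact qr7 hD ⟨c0, c1, c2, c3, c4, trivial⟩

/-- hypotheses -/
noncomputable def kr8 : List Fk.C :=
  [.le (.add .x (.k 1)) .y, .le (.add .y (.k 3)) .L, .le (.k 0) .x, .le .L (.add .N (.k 1)), .ne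
  (.add .x (.k 1)) .t, .ne (.add .t .L) (.add (.add .N .y) (.k 2))]

theorem qr8 {N t x y L : ℤ} (hD : D N t) : Fk.All ⟨N, t, x, y, L⟩ kr8 → P (A N t) N x y L :=
  Fk.route (fam hD x y L) kr8 .y (.dn .x (.k 0))
    [(3, .dn (.sub .N (.k 1)) (.add (.sub (.add .N .y) .L) (.k 2))), (0, .pt .N), (1, .up (.add .x
    (.k 1)) .y)]
    [.f 128, .f 8650880, .f 36029359668199557, .f 128, .f 128, .f 36029355373363333, .f 8585344, .f
    128, .f 128, .f 128, .f 128, .f 128, .f 571239170176, .f 9044096, .f 128, .f 36029355373363333,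
    .f 8585344, .s 7 (.f 8454272) (.f 12648576), .f 128, .f 128, .f 128, .f 37436734551752832, .f
    8650880, .f 8519808, .f 549764399237, .f 8650880, .f 36029359668199557, .s 6 (.f 12648576) (.f
    8454272), .f 128, .f 128, .f 571239235713, .f 8716417, .f 128, .f 128, .f 128, .f 128, .f 128]
    (by decide +kernel)

theorem rT8 {N t x y L : ℤ} (hD : D N t)
    (c0 : x + 1 ≤ y)
    (c1 : y + 3 ≤ L)
    (c2 : (0 : ℤ) ≤ x)
    (c3 : L ≤ N + 1)
    (c4 : x + 1 ≠ t)
    (c5 : t + L ≠ N + y + 2) :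
    P (A N t) N x y L := by
  exact qr8 hD ⟨c0, c1, c2, c3, c4, c5, trivial⟩

/-- hypotheses -/
noncomputable def kr9 : List Fk.C :=
  [.le (.add (.add .N .x) (.k 4)) (.add .t .L), .le (.k 0) .x, .le (.add .y (.k 2)) .t, .le (.add
  .t .L) (.add (.add .N .y) (.k 3)), .ne (.add (.mul 2 .t) .L) (.add (.add (.add .N .x) .y) (.k
  4))]

theorem qr9 {N t x y L : ℤ} (hD : D N t) : Fk.All ⟨N, t, x, y, L⟩ kr9 → P (A N t) N x y L :=
  Fk.route (fam hD x y L) kr9 .y (.dn .x (.k 0))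
    [(3, .dn (.sub .N (.k 1)) (.sub .t (.k 1))), (0, .pt .N), (1, .up (.add (.sub (.sub (.add (.add
    .N .x) .y) .t) .L) (.k 4)) .y)]
    [.f 128, .f 8585344, .f 154744995294588016730964228, .f 128, .f 128, .f 2435006247097919012994,
    .f 154744995258559219703611524, .f 128, .f 128, .f 128, .f 128, .f 128, .f 37155246690336898,
    .f 8978560, .f 128, .f 2435006247097919012994, .f 154744995258559219703611524, .f 192, .f 128,
    .f 128, .f 128, .f 314323203483719604663091337, .f 571239235712, .f 8519808, .f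
    154744995258559219703611652, .f 571239235712, .f 154744995258559219712000260, .f 566948266114,
    .f 128, .f 128, .f 314323203482593167876817029, .f 8650881, .f 8716416, .f 128, .f 128, .f 128,
    .f 128]
    (by decide +kernel)

theorem rT9 {N t x y L : ℤ} (hD : D N t)
    (c0 : N + x + 4 ≤ t + L)
    (c1 : (0 : ℤ) ≤ x)
    (c2 : y + 2 ≤ t)
    (c3 : t + L ≤ N + y + 3)
    (c4 : 2 * t + L ≠ N + x + y + 4) :
    P (A N t) N x y L := by
  exact qr9 hD ⟨c0, c1, c2, c3, c4, trivial⟩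

/-- hypotheses -/
noncomputable def kr10 : List Fk.C :=
  [.le (.add .x (.k 3)) .L, .le (.add .x (.k 1)) .y, .le (.k 0) .x, .le (.add .y .L) (.add (.add .N
  .x) (.k 2)), .ne (.add .y .L) (.add (.add .t .x) (.k 3))]

theorem qr10 {N t x y L : ℤ} (hD : D N t) : Fk.All ⟨N, t, x, y, L⟩ kr10 → P (A N t) N x y L :=
  Fk.route (fam hD x y L) kr10 .y (.dn .x (.k 0))
    [(0, .pt .N), (1, .dn (.sub (.sub (.add .y .L) .x) (.k 3)) .y)]
    [.f 128, .f 8650880, .f 36029355373297797, .f 128, .f 128, .f 8978560, .f 128, .f 128, .f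
    8978560, .f 386858660390284707041378437, .f 128, .f 128, .f 37436730256851072, .f 549764399236,
    .f 8519808, .f 8716416, .f 36029355373297796, .f 8716416, .s 6 (.f 12648576) (.f 8454272), .f
    128, .f 128, .f 8716417, .f 8585344, .f 128, .f 128, .f 128, .f 128]
    (by decide +kernel)

theorem rT10 {N t x y L : ℤ} (hD : D N t)
    (c0 : x + 3 ≤ L)
    (c1 : x + 1 ≤ y)
    (c2 : (0 : ℤ) ≤ x)
    (c3 : y + L ≤ N + x + 2)
    (c4 : y + L ≠ t + x + 3) :
    P (A N t) N x y L := by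
  exact qr10 hD ⟨c0, c1, c2, c3, c4, trivial⟩

/-- hypotheses -/
noncomputable def kr11 : List Fk.C :=
  [.le (.add .N (.k 2)) (.add .x .L), .le (.add .x (.k 1)) .y, .le (.add .y (.k 1)) .N, .le .L
  (.add .N (.k 1)), .ne .y (.add .t (.k 1)), .ne (.add .x .L) (.add (.add .N .t) (.k 2))]

theorem qr11 {N t x y L : ℤ} (hD : D N t) : Fk.All ⟨N, t, x, y, L⟩ kr11 → P (A N t) N x y L :=
  Fk.route (fam hD x y L) kr11 .y (.up .x (.sub .y (.k 1)))
    [(0, .pt .N), (1, .dn (.sub (.sub (.add .x .L) .N) (.k 2)) (.k 0)), (3, .dn (.sub .N (.k 1))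
    .y)]
    [.f 549764530306, .f 8585344, .f 8650880, .f 128, .f 128, .f 9044096, .f 128, .f
    36029359668199557, .f 8650880, .s 6 (.f 12648576) (.f 8454272), .f 128, .f 128, .f 8650880, .f
    128, .f 8519808, .f 36029363963232389, .f 8519808, .f 36029363963232389, .s 7 (.f 12648576) (.f
    8454272), .f 128, .f 128, .f 37436738846785665, .f 8716417, .f 36029359668199557, .f 8650880,
    .f 128, .f 128, .f 128, .f 128, .f 128, .f 571239039107, .f 129, .f 128, .f 128, .f 128, .f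
    128, .f 128]
    (by decide +kernel)

theorem rT11 {N t x y L : ℤ} (hD : D N t)
    (c0 : N + 2 ≤ x + L)
    (c1 : x + 1 ≤ y)
    (c2 : y + 1 ≤ N)
    (c3 : L ≤ N + 1)
    (c4 : y ≠ t + 1)
    (c5 : x + L ≠ N + t + 2) :
    P (A N t) N x y L := by
  exact qr11 hD ⟨c0, c1, c2, c3, c4, c5, trivial⟩

/-- hypotheses -/
noncomputable def kr12 : List Fk.C :=
  [.le (.add .x (.k 3)) .L, .le .L (.add .y (.k 2)), .le (.k 0) .x, .le (.add .y (.k 1)) .N, .ne
  (.add (.add .x .y) (.k 3)) (.add .t .L)]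

theorem qr12 {N t x y L : ℤ} (hD : D N t) : Fk.All ⟨N, t, x, y, L⟩ kr12 → P (A N t) N x y L :=
  Fk.route (fam hD x y L) kr12 .y (.dn .x (.k 0))
    [(0, .pt .N), (1, .up (.add (.sub (.add .x .y) .L) (.k 3)) .y)]
    [.f 128, .f 8650880, .f 36029355373297797, .f 128, .f 128, .f 8978560, .f 128, .f 128, .f
    8978560, .f 386858660390284707041378437, .f 128, .f 128, .f 37436730256851072, .f 562649104516,
    .f 8519808, .f 8716416, .f 562649104516, .f 549764333701, .s 6 (.f 12648576) (.f 8454272), .f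
    128, .f 128, .f 8716417, .f 8585344, .f 128, .f 128, .f 128, .f 128]
    (by decide +kernel)

theorem rT12 {N t x y L : ℤ} (hD : D N t)
    (c0 : x + 3 ≤ L)
    (c1 : L ≤ y + 2)
    (c2 : (0 : ℤ) ≤ x)
    (c3 : y + 1 ≤ N)
    (c4 : x + y + 3 ≠ t + L) :
    P (A N t) N x y L := by
  exact qr12 hD ⟨c0, c1, c2, c3, c4, trivial⟩

/-- hypotheses -/
noncomputable def kr13 : List Fk.C :=
  [.le (.add .N (.k 2)) (.add .y .L), .le (.k 0) .x, .le (.add .x .L) (.add .N (.k 1)), .le (.add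
  .y (.k 1)) .N, .ne (.add (.add .x .y) .L) (.add (.add .N .t) (.k 2))]

theorem qr13 {N t x y L : ℤ} (hD : D N t) : Fk.All ⟨N, t, x, y, L⟩ kr13 → P (A N t) N x y L :=
  Fk.route (fam hD x y L) kr13 .y (.up .x (.sub (.sub (.add (.add .x .y) .L) .N) (.k 2)))
    [(0, .pt .N), (1, .dn (.sub .N (.k 1)) .y)]
    [.f 8585344, .f 8519808, .f 549764530308, .f 128, .f 128, .f 8978560, .f 128, .f 549764333699,
    .f 549764530308, .s 6 (.f 12648576) (.f 8454272), .f 128, .f 128, .f 566944399488, .f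
    37155246690140291, .f 8716416, .f 128, .f 8978560, .f 128, .f 579829563648, .f 128, .f 128, .f
    129, .f 8650880, .f 128, .f 128, .f 128, .f 128]
    (by decide +kernel)

theorem rT13 {N t x y L : ℤ} (hD : D N t)
    (c0 : N + 2 ≤ y + L)
    (c1 : (0 : ℤ) ≤ x)
    (c2 : x + L ≤ N + 1)
    (c3 : y + 1 ≤ N)
    (c4 : x + y + L ≠ N + t + 2) :
    P (A N t) N x y L := by
  exact qr13 hD ⟨c0, c1, c2, c3, c4, trivial⟩

/-- hypotheses -/
noncomputable def kr14 : List Fk.C :=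
  [.le (.add .x (.k 1)) .y, .le .L (.add .y (.k 2)), .le (.add .y (.k 2)) (.add .x .L), .le (.add
  .y (.k 1)) .N, .ne (.add .x (.k 1)) .t, .ne (.add .y (.k 2)) (.add .t .L)]

theorem qr14 {N t x y L : ℤ} (hD : D N t) : Fk.All ⟨N, t, x, y, L⟩ kr14 → P (A N t) N x y L :=
  Fk.route (fam hD x y L) kr14 .y (.dn .x (.add (.sub .y .L) (.k 2)))
    [(0, .pt .N), (1, .up (.add .x (.k 1)) .y)]
    [.f 8585344, .f 8650880, .f 549764333701, .f 128, .f 128, .f 9044096, .f 128, .f 8585344, .f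
    36029363963166853, .s 7 (.f 12648576) (.f 8454272), .f 128, .f 128, .f 571239170176, .f
    549764464771, .f 8519808, .f 8716416, .f 549764464771, .f 549764333701, .s 6 (.f 12648576) (.f
    8454272), .f 128, .f 128, .f 8716417, .f 128, .f 128, .f 128, .f 128, .f 128]
    (by decide +kernel)

theorem rT14 {N t x y L : ℤ} (hD : D N t)
    (c0 : x + 1 ≤ y)
    (c1 : L ≤ y + 2)
    (c2 : y + 2 ≤ x + L)
    (c3 : y + 1 ≤ N)
    (c4 : x + 1 ≠ t)
    (c5 : y + 2 ≠ t + L) :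
    P (A N t) N x y L := by
  exact qr14 hD ⟨c0, c1, c2, c3, c4, c5, trivial⟩

/-- hypotheses -/
noncomputable def kr15 : List Fk.C :=
  [.le (.add .t (.k 1)) .x, .le (.add .x (.k 1)) .y, .le (.add .x (.k 2)) (.add .t .L), .le (.add
  (.add .t .y) .L) (.add (.add .N .x) (.k 1)), .ne (.add .y .L) (.add .x (.k 2))]

theorem qr15 {N t x y L : ℤ} (hD : D N t) : Fk.All ⟨N, t, x, y, L⟩ kr15 → P (A N t) N x y L :=
  Fk.route (fam hD x y L) kr15 .y (.dn .x (.add .t (.k 1)))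
    [(0, .pt .N), (1, .dn (.sub (.sub (.add (.add .t .y) .L) .x) (.k 2)) .y)]
    [.f 154744939917764044326961285, .f 8519808, .f 36029363963232389, .f 128, .f 128, .f 8978560,
    .f 128, .f 154744939917764044326961285, .f 2361220396694397649029, .f 128, .f 128, .f 128, .f
    37436738846785664, .f 154744939953793391101739141, .f 8650880, .f 8716416, .f
    154747301137034825924345989, .f 8716416, .f 36029363963232386, .f 128, .f 128, .f 8716417, .f
    8585344, .f 128, .f 128, .f 128, .f 128]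
    (by decide +kernel)

theorem rT15 {N t x y L : ℤ} (hD : D N t)
    (c0 : t + 1 ≤ x)
    (c1 : x + 1 ≤ y)
    (c2 : x + 2 ≤ t + L)
    (c3 : t + y + L ≤ N + x + 1)
    (c4 : y + L ≠ x + 2) :
    P (A N t) N x y L := by
  exact qr15 hD ⟨c0, c1, c2, c3, c4, trivial⟩

/-- hypotheses -/
noncomputable def kr16 : List Fk.C :=
  [.le (.add .t (.k 1)) .y, .le (.add .t .L) (.add (.add .x .y) (.k 2)), .le .x .t, .le (.add .y
  (.k 2)) (.add .t .L), .le (.add .y (.k 1)) .N, .ne (.add (.add .x .y) (.k 2)) (.add (.mul 2 .t)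
  .L)]

theorem qr16 {N t x y L : ℤ} (hD : D N t) : Fk.All ⟨N, t, x, y, L⟩ kr16 → P (A N t) N x y L :=
  Fk.route (fam hD x y L) kr16 .y (.dn .x (.add (.sub (.sub (.add .x .y) .t) .L) (.k 2)))
    [(0, .pt .N), (1, .up (.add .t (.k 1)) .y)]
    [.f 8585344, .f 8716416, .f 36029355373363334, .f 128, .f 128, .f 9044096, .f 128, .f 8585344,
    .f 2361220678165079523462, .s 7 (.f 12648576) (.f 8454272), .f 128, .f 128, .f
    37718205233627264, .f 36029368258199684, .f 8519808, .f 8781952, .f 36029368258199684, .f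
    549764333702, .f 128, .f 128, .f 128, .f 8781953, .f 8650880, .f 128, .f 128, .f 128, .f 128]
    (by decide +kernel)

theorem rT16 {N t x y L : ℤ} (hD : D N t)
    (c0 : t + 1 ≤ y)
    (c1 : t + L ≤ x + y + 2)
    (c2 : x ≤ t)
    (c3 : y + 2 ≤ t + L)
    (c4 : y + 1 ≤ N)
    (c5 : x + y + 2 ≠ 2 * t + L) :
    P (A N t) N x y L := by
  exact qr16 hD ⟨c0, c1, c2, c3, c4, c5, trivial⟩

/-- hypotheses -/
noncomputable def kr17 : List Fk.C :=
  [.le .t (.add .x (.k 1)), .le (.add .x (.k 1)) .y, .le (.add .x (.k 4)) (.add .t .L), .le (.add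
  (.add .t .y) .L) (.add (.add .N .x) (.k 3)), .ne (.add .y .L) (.add .x (.k 4))]

theorem qr17 {N t x y L : ℤ} (hD : D N t) : Fk.All ⟨N, t, x, y, L⟩ kr17 → P (A N t) N x y L :=
  Fk.route (fam hD x y L) kr17 .y (.dn .x (.sub .t (.k 1)))
    [(0, .pt .N), (1, .dn (.sub (.sub (.add (.add .t .y) .L) .x) (.k 4)) .y)]
    [.f 164416272687704782886142085, .f 8519808, .f 36029359668330629, .f 128, .f 128, .f 8978560,
    .f 128, .f 164416272687704782886142085, .f 2361219833744444358789, .f 192, .f 128, .f 128, .f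
    37436721666916484, .f 154747264243546154518970501, .f 8650880, .f 8716416, .f
    154747264243546154527359109, .f 8716416, .s 6 (.f 12648576) (.f 8454272), .f 128, .f 128, .f
    8716417, .f 8585344, .f 128, .f 128, .f 128, .f 128]
    (by decide +kernel)

theorem rT17 {N t x y L : ℤ} (hD : D N t)
    (c0 : t ≤ x + 1)
    (c1 : x + 1 ≤ y)
    (c2 : x + 4 ≤ t + L)
    (c3 : t + y + L ≤ N + x + 3)
    (c4 : y + L ≠ x + 4) :
    P (A N t) N x y L := by
  exact qr17 hD ⟨c0, c1, c2, c3, c4, trivial⟩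


/-- table of hypotheses -/
noncomputable def tabr : List (List Fk.C) :=
  [kr0, kr1, kr2, kr3, kr4, kr5, kr6, kr7, kr8, kr9, kr10, kr11, kr12, kr13, kr14, kr15, kr16,
  kr17]

theorem tbr {N t x y L : ℤ} (hD : D N t) : Fk.Tab ⟨N, t, x, y, L⟩ (P (A N t) N x y L) tabr :=
  ⟨qr0 hD, qr1 hD, qr2 hD, qr3 hD, qr4 hD, qr5 hD, qr6 hD, qr7 hD, qr8 hD, qr9 hD, qr10 hD, qr11
  hD, qr12 hD, qr13 hD, qr14 hD, qr15 hD, qr16 hD, qr17 hD, trivial⟩

theorem rn0 {N t x y L : ℤ} (hD : D N t)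
    (h0 : (0 : ℤ) ≤ x)
    (h1 : x + 1 ≤ y)
    (h2 : y + 1 ≤ N)
    (h3 : (4 : ℤ) ≤ L)
    (h4 : L ≤ N) :
    P (A N t) N x y L := by
  exact Fk.tree (fam hD x y L) (tbr hD)
    [.le (.k 0) .x, .le (.add .x (.k 1)) .y, .le (.add .y (.k 1)) .N, .le (.k 4) .L, .le .L .N]
    (.nd (.add .x .L) (.add .y (.k 3)) (.nd (.add .x .L) (.add .y (.k 2)) (.nd (.add .x .L) (.add
    .t (.k 2)) (.nd (.add .y (.k 4)) (.add .t .L) (.lf 0 [.f 8650880, .f 8978560, .f 8781952, .f
    8913024, .f 566948266114, .f 8519872]) (.lf 1 [.f 8650880, .f 8978560, .f 8781952, .f 8913024,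
    .f 8585408, .f 558354727040])) (.nd (.add .y (.k 4)) (.add .t .L) (.lf 0 [.f 8650880, .f
    8978560, .f 8781952, .f 8913024, .f 824642371714, .f 8519872]) (.nd (.add .t (.k 5)) (.add .x
    .L) (.lf 1 [.f 8716416, .f 9044096, .f 8847488, .f 8978560, .f 8519808, .f 549764530306]) (.lf
    2 [.f 8716416, .f 9044096, .f 2416559503019915149449, .f 8978560, .f 558354792640, .f
    8585344])))) (.nd (.k 1) .x (.nd (.add .y (.k 5)) (.add .t .L) (.lf 2 [.f 8716416, .f 8978560,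
    .f 8585344, .f 8913024, .f 571243233410, .f 8519872]) (.nd .L (.add .x (.k 3)) (.nd (.add .x
    (.k 4)) (.add .t .L) (.nd (.add .t (.k 1)) .y (.lf 3 [.f 9044096, .f 9175168, .f 8650880, .f
    9109632, .f 8585408, .f 8519808]) (.lf 4 [.f 36029926604079370, .f 8781952, .f 558354661504, .f
    8519808, .f 584132460736])) (.nd (.add .t (.k 2)) .x (.lf 2 [.f 8913024, .f 9175168, .f
    8781952, .f 9109632, .f 8519808, .f 584124072064]) (.lf 5 [.f 36874914183446656, .f 8781952, .f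
    562657624192, .f 36873801778069762, .f 72903698308661770]))) (.lf 6 [.f 8585344, .f
    571239235712, .f 4722475132816255025284, .f 8978560, .f 571247624320]))) (.lf 7 [.f
    36592322506391683, .f 566944071813, .f 8716416, .f 36029385438068866, .f
    386858734178950946956706306]))) (.nd (.add .y (.k 2)) .L (.nd (.add .y (.k 3)) .L (.nd (.add .x
    (.k 2)) .t (.nd (.add .t .L) (.add (.add .N .y) (.k 1)) (.lf 8 [.f 8913024, .f 8650880, .f
    8847488, .f 9109632, .f 8585408, .f 8519872]) (.nd (.add (.add .N .y) (.k 3)) (.add .t .L) (.lf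
    8 [.f 8978560, .f 8716416, .f 8913024, .f 9175168, .f 8650944, .f 8519808]) (.nd (.add (.add .N
    .x) (.k 4)) (.add .t .L) (.lf 9 [.f 8519808, .f 8978560, .f 566944923776, .f 8585344, .f
    37155302524715136]) (.lf 10 [.f 575534661760, .f 9044096, .f 8978560, .f 37437280012468356, .f
    2619474813752110088320])))) (.nd (.add .x .L) (.add (.add .N .t) (.k 1)) (.nd (.add .t (.k 2))
    .y (.lf 11 [.f 2453453554117287739520, .f 8978560, .f 9044096, .f 9175168, .f 8519808, .f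
    8585408]) (.lf 10 [.f 571239628928, .f 8978560, .f 8913024, .f 36592313917243520, .f
    37436721666982153])) (.lf 8 [.f 8913024, .f 8650880, .f 8847488, .f 9109632, .f 549764333707,
    .f 54043779661496450]))) (.nd (.add (.add .x .y) (.k 4)) (.add .t .L) (.lf 12 [.f 566944530560,
    .f 8585344, .f 8781952, .f 8913024, .f 8519872]) (.nd (.add .N (.k 2)) (.add .x .L) (.nd (.add
    .x .L) (.add (.add .N .t) (.k 1)) (.nd (.add .t (.k 2)) .y (.lf 11 [.f 8650880, .f 9044096, .f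
    9109632, .f 9240704, .f 8519808, .f 8585408]) (.lf 10 [.f 549764857991, .f 9044096, .f 8978560,
    .f 2601028914073257181312, .f 7268089223215431155844])) (.lf 12 [.f 575534596224, .f 8716416,
    .f 8913024, .f 9044096, .f 36029355381817482])) (.lf 13 [.f 7175857755179272962176, .f 8847488,
    .f 8519808, .f 8978560, .f 2416563162735786131648])))) (.nd .t .x (.nd (.add .y (.k 3)) (.add
    .t .L) (.lf 14 [.f 8847488, .f 8650880, .f 8716416, .f 8913024, .f 8585344, .f 8519872]) (.nd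
    (.add .x (.k 4)) (.add .t .L) (.lf 3 [.f 8913024, .f 9044096, .f 4777742744463327690889, .f
    8978560, .f 8519872, .f 36029363963232386]) (.nd (.add .t .L) (.add .y (.k 1)) (.lf 14 [.f
    8978560, .f 8781952, .f 8847488, .f 9044096, .f 8716416, .f 8519808]) (.nd (.add (.add .t .y)
    .L) (.add (.add .N .x) (.k 1)) (.lf 15 [.f 549764530312, .f 9044096, .f 562649759872, .f
    8519808, .f 1142470213760]) (.lf 11 [.f 37155246690533506, .f 9044096, .f 9109632, .f 9240704,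
    .f 38844130910339200, .f 3541849735110227919115]))))) (.nd (.add .x (.k 2)) .t (.lf 14 [.f
    8847488, .f 8650880, .f 8716416, .f 8913024, .f 8519872, .f 824642437250]) (.nd (.add .t (.k
    1)) .y (.lf 16 [.f 8519808, .f 562649432192, .f 8650880, .f 549764595844, .f 8978560, .f
    1116704080006]) (.lf 17 [.f 8585344, .f 8913024, .f 36029381143298180, .f
    2416596094801246421125, .f 1133880148096]))))))
    (by decide +kernel) ⟨h0, h1, h2, h3, h4, trivial⟩


end Pool.Agent.Work.MP_193ce1_co.Rim.Sg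
end

-- merged part: Pool.Agent.Work.MP_193ce1_co.Rim.SgH
section
set_option linter.unusedVariables false

namespace Pool.Agent.Work.MP_193ce1_co.Rim.Sg

/-- hypotheses -/
noncomputable def kh0 : List Fk.C :=
  [.le (.k 2) .L, .le (.k 0) .x, .le (.add .x .L) (.add .N (.k 1)), .ne (.add .x .L) (.add .t (.k
  2))]

theorem qh0 {N t x L : ℤ} (hD : D N t) : Fk.All ⟨N, t, x, 0, L⟩ kh0 → P (A N t) N x N L :=
  Fk.route (fam hD x 0 L) kh0 .N (.up .x (.sub (.add .x .L) (.k 2)))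
    [(0, .pt .N)]
    [.f 8585344, .f 8519808, .f 8650880, .f 128, .f 128, .f 8913024, .f 128, .f 549764333699, .f
    8650880, .s 5 (.f 12648576) (.f 8454272), .f 128, .f 128, .f 8650880, .f 128, .f 128, .f 128,
    .f 128]
    (by decide +kernel)

theorem hT0 {N t x L : ℤ} (hD : D N t)
    (c0 : (2 : ℤ) ≤ L)
    (c1 : (0 : ℤ) ≤ x)
    (c2 : x + L ≤ N + 1)
    (c3 : x + L ≠ t + 2) :
    P (A N t) N x N L := by
  exact qh0 hD ⟨c0, c1, c2, c3, trivial⟩

/-- hypotheses -/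
noncomputable def kh1 : List Fk.C :=
  [.le (.add .x (.k 3)) .L, .le (.k 0) .x, .le .L (.add .N (.k 1)), .ne (.add .t .L) (.add (.add .N
  .x) (.k 2))]

theorem qh1 {N t x L : ℤ} (hD : D N t) : Fk.All ⟨N, t, x, 0, L⟩ kh1 → P (A N t) N x N L :=
  Fk.route (fam hD x 0 L) kh1 .N (.dn .x (.k 0))
    [(3, .dn (.sub .N (.k 1)) (.add (.sub (.add .N .x) .L) (.k 2))), (0, .pt .N)]
    [.f 128, .f 8585344, .f 549764333700, .f 128, .f 128, .f 549764399236, .f 8519808, .f 128, .f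
    128, .f 128, .f 128, .f 128, .f 8650880, .f 8913024, .f 128, .f 549764399236, .f 8519808, .s 5
    (.f 8454272) (.f 12648576), .f 128, .f 128, .f 128, .f 566944202880, .f 128, .f 128, .f 128, .f
    128]
    (by decide +kernel)

theorem hT1 {N t x L : ℤ} (hD : D N t)
    (c0 : x + 3 ≤ L)
    (c1 : (0 : ℤ) ≤ x)
    (c2 : L ≤ N + 1)
    (c3 : t + L ≠ N + x + 2) :
    P (A N t) N x N L := by
  exact qh1 hD ⟨c0, c1, c2, c3, trivial⟩

/-- hypotheses -/
noncomputable def kh2 : List Fk.C :=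
  [.le (.k 2) .L, .le .L (.add .x (.k 2)), .le (.add .x (.k 1)) .N, .ne (.add .x (.k 2)) (.add .t
  .L)]

theorem qh2 {N t x L : ℤ} (hD : D N t) : Fk.All ⟨N, t, x, 0, L⟩ kh2 → P (A N t) N x N L :=
  Fk.route (fam hD x 0 L) kh2 .N (.dn .x (.add (.sub .x .L) (.k 2)))
    [(0, .pt .N)]
    [.f 8585344, .f 8519808, .f 8650880, .f 128, .f 128, .f 8913024, .f 128, .f 8585344, .f
    549764333700, .s 5 (.f 12648576) (.f 8454272), .f 128, .f 128, .f 8650880, .f 128, .f 128, .f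
    128, .f 128]
    (by decide +kernel)

theorem hT2 {N t x L : ℤ} (hD : D N t)
    (c0 : (2 : ℤ) ≤ L)
    (c1 : L ≤ x + 2)
    (c2 : x + 1 ≤ N)
    (c3 : x + 2 ≠ t + L) :
    P (A N t) N x N L := by
  exact qh2 hD ⟨c0, c1, c2, c3, trivial⟩

/-- hypotheses -/
noncomputable def kh3 : List Fk.C :=
  [.le (.add .N (.k 2)) (.add .x .L), .le (.add .x (.k 1)) .N, .le .L (.add .N (.k 1)), .ne (.add
  .x .L) (.add (.add .N .t) (.k 2))]

theorem qh3 {N t x L : ℤ} (hD : D N t) : Fk.All ⟨N, t, x, 0, L⟩ kh3 → P (A N t) N x N L :=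
  Fk.route (fam hD x 0 L) kh3 .N (.up .x (.sub .N (.k 1)))
    [(2, .up (.k 0) (.sub (.sub (.add .x .L) .N) (.k 2))), (0, .pt .N)]
    [.f 549764333700, .f 8585344, .f 128, .f 128, .f 128, .f 128, .f 8519808, .f 549764399236, .f
    128, .f 128, .f 128, .f 128, .f 8650881, .f 8913024, .f 128, .f 8519808, .f 549764399236, .s 5
    (.f 12648576) (.f 8454272), .f 128, .f 128, .f 566944268416, .f 128, .f 128, .f 128, .f 128, .f
    128]
    (by decide +kernel)

theorem hT3 {N t x L : ℤ} (hD : D N t)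
    (c0 : N + 2 ≤ x + L)
    (c1 : x + 1 ≤ N)
    (c2 : L ≤ N + 1)
    (c3 : x + L ≠ N + t + 2) :
    P (A N t) N x N L := by
  exact qh3 hD ⟨c0, c1, c2, c3, trivial⟩


/-- table of hypotheses -/
noncomputable def tabh : List (List Fk.C) :=
  [kh0, kh1, kh2, kh3]

theorem tbh {N t x L : ℤ} (hD : D N t) : Fk.Tab ⟨N, t, x, 0, L⟩ (P (A N t) N x N L) tabh :=
  ⟨qh0 hD, qh1 hD, qh2 hD, qh3 hD, trivial⟩

theorem hn0 {N t x L : ℤ} (hD : D N t)
    (h0 : (0 : ℤ) ≤ x)
    (h1 : x + 1 ≤ N)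
    (h2 : (4 : ℤ) ≤ L)
    (h3 : L ≤ N)
    (h4 : L ≠ t + 2) :
    P (A N t) N x N L := by
  exact Fk.tree (fam hD x 0 L) (tbh hD)
    [.le (.k 0) .x, .le (.add .x (.k 1)) .N, .le (.k 4) .L, .le .L .N, .ne .L (.add .t (.k 2))]
    (.nd (.add .x .L) (.add .N (.k 1)) (.nd (.add .t (.k 3)) (.add .x .L) (.lf 0 [.f 8781952, .f
    8650880, .f 8585344, .f 8519808]) (.nd (.add .x .L) (.add .t (.k 1)) (.lf 0 [.f 8847488, .f
    8716416, .f 8650880, .f 8519872]) (.nd (.add .x (.k 3)) .L (.lf 1 [.f 8519808, .f 8781952, .f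
    8978560, .s 10 (.f 54325237457617036) (.f 549764661381)]) (.lf 2 [.f 8913024, .f 8519808, .f
    8847488, .f 566948266248])))) (.nd (.add .x .L) (.add (.add .N .t) (.k 1)) (.lf 3 [.f 8585344,
    .f 8716416, .f 8847488, .f 8519872]) (.nd (.add (.add .N .t) (.k 3)) (.add .x .L) (.lf 3 [.f
    8650880, .f 8781952, .f 8913024, .f 8519808]) (.nd .L (.add .x (.k 2)) (.lf 2 [.f 8913024, .f
    8519808, .f 8847488, .f 39407063687758087]) (.lf 1 [.f 8519808, .f 8781952, .f 8978560, .f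
    566948266249])))))
    (by decide +kernel) ⟨h0, h1, h2, h3, h4, trivial⟩



variable {N t : ℤ} {f : ℤ → ℤ}

theorem thread (c d : ℤ) (h : A N t c d) (hN : c ≠ N)
    (l0 : c ≠ (0 : ℤ))
    (l1 : c ≠ N - 1)
    : d = c + 1 ∨ d = c - 1 ∨ d = N ∨ d = 0 := by
  rcases h.2 with (⟨a1, a2, a3⟩ | ⟨a1, a2⟩ | ⟨a1, a2⟩) | (⟨a1, a2, a3⟩ | ⟨a1, a2⟩ | ⟨a1, a2⟩) <;> omega

theorem nb (h : W (A N t) 0 N (t + 1) f) (hD : D N t) (i : ℤ) (h0 : 0 ≤ i) (h1 : i < t) :
    (f (i + 1) = f i + 1 ∧ f i + 1 < N) ∨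
    (f (i + 1) = f i - 1 ∧ 1 ≤ f i) ∨
    (f i = N - 1 ∧ f (i + 1) = (0 : ℤ)) ∨
    (f i = (0 : ℤ) ∧ f (i + 1) = N - 1) := by
  have e1 : f i ≠ N := fun e => by
    have := h.inj i (t + 1) (by omega) (by omega) (by omega) (by omega) (by rw [h.hT]; exact e)
    omega
  have e2 : f (i + 1) ≠ N := fun e => by
    have := h.inj (i + 1) (t + 1) (by omega) (by omega) (by omega) (by omega) (by rw [h.hT]; exact e)
    omega
  rcases (h.adj i h0 (by omega)).2 with (⟨a1, a2, a3⟩ | ⟨a1, a2⟩ | ⟨a1, a2⟩) | (⟨a1, a2, a3⟩ | ⟨a1, a2⟩ | ⟨a1, a2⟩)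
  · exact (Or.inl ⟨by omega, by omega⟩)
  · exact absurd a1 e1
  · exact (Or.inr (Or.inr (Or.inl ⟨a1, a2⟩)))
  · exact (Or.inr (Or.inl ⟨by omega, by omega⟩))
  · exact absurd a1 e2
  · exact (Or.inr (Or.inr (Or.inr ⟨a2, a1⟩)))

theorem fin (h : W (A N t) 0 N (t + 1) f) (hD : D N t) {c : ℤ} (hv : V f t c)
    (e : c = t) : False := by
  have h1 := h.adj t (by unfold D at hD; omega) (by omega)
  rw [h.hT, show f t = c from hv] at h1
  unfold D at hD
  rcases h1.2 with (⟨a1, a2, a3⟩ | ⟨a1, a2⟩ | ⟨a1, a2⟩) | (⟨a1, a2, a3⟩ | ⟨a1, a2⟩ | ⟨a1, a2⟩) <;> omega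

theorem nb0 (h : W (A N t) 0 N (t + 1) f) (hD : D N t) {i : ℤ} (hv : V f i (0 : ℤ))
    (e : 0 ≤ i ∧ i < t) :
    V f (i + 1) (1 : ℤ) ∨ V f (i + 1) (N - 1) := by
  have := nb h hD i e.1 e.2
  unfold V at *
  unfold D at hD
  omega

theorem th1 (hD : D N t) : Th (A N t) N 0 (0 : ℤ) (N - 1) := by
  intro c d h1 h2 h3
  unfold D at hD
  exact thread c d h3 (by omega) (by omega) (by omega)

theorem nb2 (h : W (A N t) 0 N (t + 1) f) (hD : D N t) {i : ℤ} (hv : V f i (N - 1))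
    (e : 0 ≤ i ∧ i < t) :
    V f (i + 1) (N - 2) ∨ V f (i + 1) (0 : ℤ) := by
  have := nb h hD i e.1 e.2
  unfold V at *
  unfold D at hD
  omega

theorem no (hD : D N t) (h : W (A N t) 0 N (t + 1) f) : False := by
  obtain ⟨d0, d1, d2⟩ := id hD
  have v0 : V f (0 : ℤ) (0 : ℤ) := h.h0
  rcases nb0 h hD v0 (by omega) with n1 | n1
  · have r2 := h.ru v0 n1 (th1 hD) (by omega)
    exact fin h hD (r2.at t t (by omega)) (by omega)
  · have v3 := n1.cast (1 : ℤ) (by omega)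
    rcases nb2 h hD v3 (by omega) with n4 | n4
    · have r5 := h.rd v3 n4 (th1 hD) (by omega)
      exact fin h hD (r5.at t (N - t) (by omega)) (by omega)
    · exact h.clash n4 v0 (by omega)

end Pool.Agent.Work.MP_193ce1_co.Rim.Sg
end

-- merged part: Pool.Agent.Work.MP_193ce1_co.Rim.ErD
section
set_option linter.unusedVariables false

namespace Pool.Agent.Work.MP_193ce1_co.Rim.Er

def D (N t : ℤ) : Prop :=
  2 * t + 1 ≤ N ∧ N ≤ 2 * t + 1 ∧ (9 : ℤ) ≤ N

def B (N t a b : ℤ) : Prop :=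
  (0 ≤ a ∧ b = a + 1 ∧ b < N) ∨ (a = N ∧ 0 ≤ b ∧ b < N ∧ b ≠ t) ∨
    (a = N - 2 ∧ b = 0)

def A (N t a b : ℤ) : Prop := a ≠ b ∧ (B N t a b ∨ B N t b a)

variable {N t : ℤ}

theorem rel (hD : D N t) : Rel (A N t) N :=
  ⟨fun _ _ h => ⟨h.1.symm, h.2.symm⟩, fun _ h => h.1 rfl,
    fun a h0 h1 => ⟨by omega, Or.inl (Or.inl ⟨h0, rfl, h1⟩)⟩⟩

theorem hubB (hD : D N t) (e : ℤ) (h0 : 0 ≤ e) (h1 : e < N) (x0 : e ≠ t) : A N t N e :=
  ⟨by omega, Or.inl (Or.inr (Or.inl ⟨rfl, h0, h1, x0⟩))⟩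

theorem hubA (hD : D N t) (e : ℤ) (h0 : 0 ≤ e) (h1 : e < N) (x0 : e ≠ t) : A N t e N :=
  ⟨by omega, Or.inr (Or.inr (Or.inl ⟨rfl, h0, h1, x0⟩))⟩

theorem ch0 (hD : D N t) : A N t (N - 2) 0 :=
  ⟨by unfold D at hD; omega, Or.inl (Or.inr (Or.inr ⟨rfl, rfl⟩))⟩

theorem ch1 (hD : D N t) : A N t 0 (N - 2) :=
  ⟨by unfold D at hD; omega, Or.inr (Or.inr (Or.inr ⟨rfl, rfl⟩))⟩

/-- vertices missed by the hub -/
noncomputable def fV : List Fk.E :=
  [.t]

/-- chords -/
noncomputable def fH : List (Fk.E × Fk.E) :=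
  [(.sub .N (.k 2), .k 0), (.k 0, .sub .N (.k 2))]

/-- parameter range -/
noncomputable def fD : List Fk.C :=
  [.le (.add (.mul 2 .t) (.k 1)) .N, .le .N (.add (.mul 2 .t) (.k 1)), .le (.k 9) .N]

theorem fam (hD : D N t) (x y L : ℤ) : Fk.Fam (A N t) ⟨N, t, x, y, L⟩ fV fH fD :=
  ⟨rel hD, fun e h0 h1 h => ⟨hubA hD e h0 h1 h.1,
    hubB hD e h0 h1 h.1⟩,
    ⟨ch0 hD, ch1 hD, trivial⟩, hD.1, hD.2.1, hD.2.2, trivial⟩

end Pool.Agent.Work.MP_193ce1_co.Rim.Er
end

-- merged part: Pool.Agent.Work.MP_193ce1_co.Rim.ErR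
section
set_option linter.unusedVariables false

namespace Pool.Agent.Work.MP_193ce1_co.Rim.Er

/-- hypotheses -/
noncomputable def kr0 : List Fk.C :=
  [.le (.add .x (.k 1)) .y, .le (.k 3) .L, .le .L (.add .x (.k 3)), .le (.add .y (.k 1)) .N, .ne
  (.add .x (.k 3)) (.add .t .L), .ne .y .t]

theorem qr0 {N t x y L : ℤ} (hD : D N t) : Fk.All ⟨N, t, x, y, L⟩ kr0 → P (A N t) N x y L :=
  Fk.route (fam hD x y L) kr0 .y (.dn .x (.add (.sub .x .L) (.k 3)))
    [(0, .pt .N), (1, .pt .y)]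
    [.f 8650880, .f 8585344, .f 549764333701, .f 128, .f 128, .f 9044096, .f 128, .f 8650880, .f
    36029359668199557, .s 6 (.f 12648576) (.f 8454272), .f 128, .f 128, .f 571239039106, .f
    36029359668199556, .f 8716416, .f 36029359668199556, .f 8716416, .s 7 (.f 12648576) (.f
    8454272), .f 128, .f 128, .f 8716417, .f 8519808, .f 128, .f 128, .f 128, .f 128]
    (by decide +kernel)

theorem rT0 {N t x y L : ℤ} (hD : D N t)
    (c0 : x + 1 ≤ y)
    (c1 : (3 : ℤ) ≤ L)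
    (c2 : L ≤ x + 3)
    (c3 : y + 1 ≤ N)
    (c4 : x + 3 ≠ t + L)
    (c5 : y ≠ t) :
    P (A N t) N x y L := by
  exact qr0 hD ⟨c0, c1, c2, c3, c4, c5, trivial⟩

/-- hypotheses -/
noncomputable def kr1 : List Fk.C :=
  [.le (.add .t (.k 4)) (.add .y .L), .le (.add .x (.k 1)) .y, .le .y (.add .t (.k 1)), .le (.add
  .y .L) (.add (.add .t .x) (.k 4)), .ne (.add .y .L) (.add .x (.k 4))]

theorem qr1 {N t x y L : ℤ} (hD : D N t) : Fk.All ⟨N, t, x, y, L⟩ kr1 → P (A N t) N x y L :=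
  Fk.route (fam hD x y L) kr1 .y (.dn .x (.add (.sub (.sub (.add .t .x) .y) .L) (.k 4)))
    [(0, .pt .N), (1, .dn (.add .t (.k 1)) .y)]
    [.f 8716416, .f 8519808, .f 154747301100724017065820295, .f 128, .f 128, .f 8978560, .f 128, .f
    8716416, .f 154747301136752814084784263, .s 6 (.f 8454272) (.f 12648576), .f 128, .f 128, .f
    163209781873492268354306177, .f 36873771713429637, .f 8650880, .f 1099520606343, .f
    2361220396690102878339, .f 1099520606343, .f 128, .f 128, .f 128, .f 579837427849, .f 8585344,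
    .f 128, .f 128, .f 128, .f 128]
    (by decide +kernel)

theorem rT1 {N t x y L : ℤ} (hD : D N t)
    (c0 : t + 4 ≤ y + L)
    (c1 : x + 1 ≤ y)
    (c2 : y ≤ t + 1)
    (c3 : y + L ≤ t + x + 4)
    (c4 : y + L ≠ x + 4) :
    P (A N t) N x y L := by
  exact qr1 hD ⟨c0, c1, c2, c3, c4, trivial⟩

/-- hypotheses -/
noncomputable def kr2 : List Fk.C :=
  [.le (.add .t .L) (.add .y (.k 1)), .le (.add .t (.k 1)) .x, .le (.add .x (.k 2)) (.add .t .L),
  .le (.add .y (.k 1)) .N, .ne (.add (.add .x .y) (.k 2)) (.add (.mul 2 .t) .L)]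

theorem qr2 {N t x y L : ℤ} (hD : D N t) : Fk.All ⟨N, t, x, y, L⟩ kr2 → P (A N t) N x y L :=
  Fk.route (fam hD x y L) kr2 .y (.dn .x (.add .t (.k 1)))
    [(0, .pt .N), (1, .up (.add (.sub (.sub (.add .x .y) .t) .L) (.k 2)) .y)]
    [.f 154744939917482573645217925, .f 8585344, .f 36029363963166853, .f 128, .f 128, .f 8978560,
    .f 128, .f 154744939917482573645217925, .f 2361220396690102747269, .f 128, .f 128, .f 128, .f
    37436738846720128, .f 311907639204444698897809541, .f 8650880, .f 8716416, .f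
    311907639204444698897809541, .f 549764464773, .f 558354333824, .f 128, .f 128, .f 8716417, .f
    8519808, .f 128, .f 128, .f 128, .f 128]
    (by decide +kernel)

theorem rT2 {N t x y L : ℤ} (hD : D N t)
    (c0 : t + L ≤ y + 1)
    (c1 : t + 1 ≤ x)
    (c2 : x + 2 ≤ t + L)
    (c3 : y + 1 ≤ N)
    (c4 : x + y + 2 ≠ 2 * t + L) :
    P (A N t) N x y L := by
  exact qr2 hD ⟨c0, c1, c2, c3, c4, trivial⟩

/-- hypotheses -/
noncomputable def kr3 : List Fk.C :=
  [.le (.add .t (.k 1)) .x, .le (.add .x (.k 1)) .y, .le (.add .x (.k 2)) (.add .t .L), .le (.add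
  (.add .t .y) .L) (.add (.add .N .x) (.k 1)), .ne (.add .y .L) (.add .x (.k 2))]

theorem qr3 {N t x y L : ℤ} (hD : D N t) : Fk.All ⟨N, t, x, y, L⟩ kr3 → P (A N t) N x y L :=
  Fk.route (fam hD x y L) kr3 .y (.dn .x (.add .t (.k 1)))
    [(0, .pt .N), (1, .dn (.sub (.sub (.add (.add .t .y) .L) .x) (.k 2)) .y)]
    [.f 154744939917764044326961285, .f 8519808, .f 36029363963232389, .f 128, .f 128, .f 8978560,
    .f 128, .f 154744939917764044326961285, .f 2361220396694397649029, .f 128, .f 128, .f 128, .f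
    37436738846785664, .f 154744939953793391101739141, .f 8650880, .f 8716416, .f
    154747301137034825924345989, .f 8716416, .f 36029363963232386, .f 128, .f 128, .f 8716417, .f
    8585344, .f 128, .f 128, .f 128, .f 128]
    (by decide +kernel)

theorem rT3 {N t x y L : ℤ} (hD : D N t)
    (c0 : t + 1 ≤ x)
    (c1 : x + 1 ≤ y)
    (c2 : x + 2 ≤ t + L)
    (c3 : t + y + L ≤ N + x + 1)
    (c4 : y + L ≠ x + 2) :
    P (A N t) N x y L := by
  exact qr3 hD ⟨c0, c1, c2, c3, c4, trivial⟩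

/-- hypotheses -/
noncomputable def kr4 : List Fk.C :=
  [.le .N (.add .x (.k 2)), .le (.add .x (.k 1)) .y, .le (.add .y .L) (.add (.add .t .x) (.k 3)),
  .le (.add (.add .t .x) (.k 4)) (.add .N .L), .ne (.add (.add (.mul 2 .t) .x) (.k 4)) (.add (.add
  .N .y) .L)]

theorem qr4 {N t x y L : ℤ} (hD : D N t) : Fk.All ⟨N, t, x, y, L⟩ kr4 → P (A N t) N x y L :=
  Fk.route (fam hD x y L) kr4 .y (.dn .x (.sub .N (.k 2)))
    [(2, .up (.k 0) (.sub .t (.k 2))), (0, .pt .N), (1, .dn (.sub (.sub (.sub (.add (.add .N .y)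
    .L) .t) .x) (.k 4)) .y)]
    [.f 8978560, .f 8519808, .f 37155246690205829, .f 128, .f 128, .f 128, .f 1099520540809, .f
    579829563648, .f 128, .f 128, .f 128, .f 128, .f 163209726498075653653659781, .f 8978560, .f
    128, .f 1099520540809, .f 579829563648, .f 192, .f 128, .f 128, .f 579837362313, .f
    37155246690205829, .f 36029359668199561, .f 8716416, .f 8650880, .f 2361220115215126429829, .f
    8650880, .f 163209800320799309196951811, .f 128, .f 128, .f 8650881, .f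
    163209744980848541570171009, .f 8585344, .f 128, .f 128, .f 128, .f 128]
    (by decide +kernel)

theorem rT4 {N t x y L : ℤ} (hD : D N t)
    (c0 : N ≤ x + 2)
    (c1 : x + 1 ≤ y)
    (c2 : y + L ≤ t + x + 3)
    (c3 : t + x + 4 ≤ N + L)
    (c4 : 2 * t + x + 4 ≠ N + y + L) :
    P (A N t) N x y L := by
  exact qr4 hD ⟨c0, c1, c2, c3, c4, trivial⟩

/-- hypotheses -/
noncomputable def kr5 : List Fk.C :=
  [.le (.add .x (.k 3)) .L, .le (.add .x (.k 1)) .y, .le (.k 0) .x, .le (.add .y .L) (.add (.add .N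
  .x) (.k 2)), .ne (.add .y .L) (.add (.add .t .x) (.k 3))]

theorem qr5 {N t x y L : ℤ} (hD : D N t) : Fk.All ⟨N, t, x, y, L⟩ kr5 → P (A N t) N x y L :=
  Fk.route (fam hD x y L) kr5 .y (.dn .x (.k 0))
    [(0, .pt .N), (1, .dn (.sub (.sub (.add .y .L) .x) (.k 3)) .y)]
    [.f 128, .f 8650880, .f 36029355373297797, .f 128, .f 128, .f 8978560, .f 128, .f 128, .f
    8978560, .f 386858660390284707041378437, .f 128, .f 128, .f 37436730256851072, .f 549764399236,
    .f 8519808, .f 8716416, .f 36029355373297796, .f 8716416, .s 6 (.f 12648576) (.f 8454272), .f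
    128, .f 128, .f 8716417, .f 8585344, .f 128, .f 128, .f 128, .f 128]
    (by decide +kernel)

theorem rT5 {N t x y L : ℤ} (hD : D N t)
    (c0 : x + 3 ≤ L)
    (c1 : x + 1 ≤ y)
    (c2 : (0 : ℤ) ≤ x)
    (c3 : y + L ≤ N + x + 2)
    (c4 : y + L ≠ t + x + 3) :
    P (A N t) N x y L := by
  exact qr5 hD ⟨c0, c1, c2, c3, c4, trivial⟩

/-- hypotheses -/
noncomputable def kr6 : List Fk.C :=
  [.le (.add .x (.k 4)) .L, .le (.add .x (.k 1)) .y, .le (.k 0) .x, .le (.add .y .L) (.add (.add .N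
  .x) (.k 1)), .ne .y .t, .ne (.add .t .L) (.add (.add .N .x) (.k 2))]

theorem qr6 {N t x y L : ℤ} (hD : D N t) : Fk.All ⟨N, t, x, y, L⟩ kr6 → P (A N t) N x y L :=
  Fk.route (fam hD x y L) kr6 .y (.dn .x (.k 0))
    [(3, .dn (.sub .N (.k 2)) (.add (.sub (.add .N .x) .L) (.k 2))), (0, .pt .N), (1, .pt .y)]
    [.f 128, .f 8650880, .f 36029355373297797, .f 128, .f 128, .f 36029359668330629, .f 8519808, .f
    128, .f 128, .f 128, .f 128, .f 128, .f 571239039107, .f 9044096, .f 128, .f 36029359668330629,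
    .f 8519808, .s 7 (.f 8454272) (.f 12648576), .f 128, .f 128, .f 128, .f 37436730256851072, .f
    549764399236, .f 549764333701, .f 549764399236, .f 549764333701, .s 6 (.f 12648576) (.f
    8454272), .f 128, .f 128, .f 554059300997, .f 8716417, .f 8585344, .f 128, .f 128, .f 128, .f
    128]
    (by decide +kernel)

theorem rT6 {N t x y L : ℤ} (hD : D N t)
    (c0 : x + 4 ≤ L)
    (c1 : x + 1 ≤ y)
    (c2 : (0 : ℤ) ≤ x)
    (c3 : y + L ≤ N + x + 1)
    (c4 : y ≠ t)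
    (c5 : t + L ≠ N + x + 2) :
    P (A N t) N x y L := by
  exact qr6 hD ⟨c0, c1, c2, c3, c4, c5, trivial⟩

/-- hypotheses -/
noncomputable def kr7 : List Fk.C :=
  [.le (.add (.add .N .x) (.k 1)) (.add .y .L), .le (.k 1) .x, .le (.add .y (.k 2)) .N, .le .L .N,
  .ne .x (.add .t (.k 1)), .ne (.add .y .L) (.add (.add .N .t) (.k 1))]

theorem qr7 {N t x y L : ℤ} (hD : D N t) : Fk.All ⟨N, t, x, y, L⟩ kr7 → P (A N t) N x y L :=
  Fk.route (fam hD x y L) kr7 .y (.up .x (.sub (.sub (.add .y .L) .N) (.k 1)))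
    [(0, .pt .N), (1, .dn (.sub .x (.k 1)) (.k 0)), (3, .dn (.sub .N (.k 2)) .y)]
    [.f 8585344, .f 8519808, .f 549764464773, .f 128, .f 128, .f 9044096, .f 128, .f 549764333699,
    .f 549764464773, .s 7 (.f 12648576) (.f 8454272), .f 128, .f 128, .f 571239301248, .f 128, .f
    8585344, .f 36029363963166853, .f 8585344, .f 36029363963166853, .s 6 (.f 12648576) (.f
    8454272), .f 128, .f 128, .f 37436738846720129, .f 129, .f 36029355373297797, .f 8650880, .f
    128, .f 128, .f 128, .f 128, .f 128, .f 549764333701, .f 129, .f 8716416, .f 128, .f 128, .f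
    128, .f 128]
    (by decide +kernel)

theorem rT7 {N t x y L : ℤ} (hD : D N t)
    (c0 : N + x + 1 ≤ y + L)
    (c1 : (1 : ℤ) ≤ x)
    (c2 : y + 2 ≤ N)
    (c3 : L ≤ N)
    (c4 : x ≠ t + 1)
    (c5 : y + L ≠ N + t + 1) :
    P (A N t) N x y L := by
  exact qr7 hD ⟨c0, c1, c2, c3, c4, c5, trivial⟩

/-- hypotheses -/
noncomputable def kr8 : List Fk.C :=
  [.le (.add (.add .N .t) (.k 1)) (.add .y .L), .le .t .x, .le (.add .y (.k 2)) .N, .le (.add .x
  .L) (.add .N .t), .ne (.add (.add .x .y) .L) (.add (.add .N (.mul 2 .t)) (.k 1))]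

theorem qr8 {N t x y L : ℤ} (hD : D N t) : Fk.All ⟨N, t, x, y, L⟩ kr8 → P (A N t) N x y L :=
  Fk.route (fam hD x y L) kr8 .y (.up .x (.sub (.sub (.sub (.add (.add .x .y) .L) .N) .t) (.k 1)))
    [(0, .pt .N), (1, .dn (.sub .t (.k 1)) (.k 0)), (3, .dn (.sub .N (.k 2)) .y)]
    [.f 154744939917483123401031813, .f 8519808, .f 571239301248, .f 128, .f 128, .f 8978560, .f
    128, .f 154744939953511920419995781, .f 571239301248, .s 6 (.f 12648576) (.f 8454272), .f 128,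
    .f 128, .f 571239301248, .f 128, .f 154744939917482573645217925, .f 2453454117058650505344, .f
    154744939917482573645217925, .f 2453454117058650505344, .f 192, .f 128, .f 128, .f
    2453454117058650505345, .f 8585345, .f 154744939953511920419995909, .f 8650880, .f 128, .f 128,
    .f 128, .f 128, .f 128, .f 37436730256851072, .f 129, .f 8716416, .f 128, .f 128, .f 128, .f
    128]
    (by decide +kernel)

theorem rT8 {N t x y L : ℤ} (hD : D N t)
    (c0 : N + t + 1 ≤ y + L)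
    (c1 : t ≤ x)
    (c2 : y + 2 ≤ N)
    (c3 : x + L ≤ N + t)
    (c4 : x + y + L ≠ N + 2 * t + 1) :
    P (A N t) N x y L := by
  exact qr8 hD ⟨c0, c1, c2, c3, c4, trivial⟩

/-- hypotheses -/
noncomputable def kr9 : List Fk.C :=
  [.le (.add (.add .N .x) (.k 1)) (.add .y .L), .le (.k 0) .x, .le (.add .y (.k 3)) .N, .le .L .N,
  .ne (.add .y (.k 1)) .t, .ne (.add .t .L) (.add (.add .N .x) (.k 1))]

theorem qr9 {N t x y L : ℤ} (hD : D N t) : Fk.All ⟨N, t, x, y, L⟩ kr9 → P (A N t) N x y L :=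
  Fk.route (fam hD x y L) kr9 .y (.dn .x (.k 0))
    [(3, .dn (.sub .N (.k 2)) (.add .y (.k 1))), (0, .pt .N), (1, .up (.add (.sub (.add .N .x) .L)
    (.k 1)) .y)]
    [.f 128, .f 8585344, .f 36029363963166853, .f 128, .f 128, .f 36029355373428867, .f 8650880, .f
    128, .f 128, .f 128, .f 128, .f 128, .f 571239170176, .f 9044096, .f 128, .f 36029355373428867,
    .f 8650880, .s 6 (.f 12648576) (.f 8454272), .f 128, .f 128, .f 128, .f 37436738846720128, .f
    571239039107, .f 8519808, .f 8650880, .f 571239039107, .f 549764464770, .s 7 (.f 8454272) (.f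
    12648576), .f 128, .f 128, .f 8650881, .f 129, .f 8716416, .f 128, .f 128, .f 128, .f 128]
    (by decide +kernel)

theorem rT9 {N t x y L : ℤ} (hD : D N t)
    (c0 : N + x + 1 ≤ y + L)
    (c1 : (0 : ℤ) ≤ x)
    (c2 : y + 3 ≤ N)
    (c3 : L ≤ N)
    (c4 : y + 1 ≠ t)
    (c5 : t + L ≠ N + x + 1) :
    P (A N t) N x y L := by
  exact qr9 hD ⟨c0, c1, c2, c3, c4, c5, trivial⟩

/-- hypotheses -/
noncomputable def kr10 : List Fk.C :=
  [.le (.add .x (.k 3)) .L, .le .L (.add .y (.k 2)), .le (.k 0) .x, .le (.add .y (.k 1)) .N, .ne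
  (.add (.add .x .y) (.k 3)) (.add .t .L)]

theorem qr10 {N t x y L : ℤ} (hD : D N t) : Fk.All ⟨N, t, x, y, L⟩ kr10 → P (A N t) N x y L :=
  Fk.route (fam hD x y L) kr10 .y (.dn .x (.k 0))
    [(0, .pt .N), (1, .up (.add (.sub (.add .x .y) .L) (.k 3)) .y)]
    [.f 128, .f 8650880, .f 36029355373297797, .f 128, .f 128, .f 8978560, .f 128, .f 128, .f
    8978560, .f 386858660390284707041378437, .f 128, .f 128, .f 37436730256851072, .f 562649104516,
    .f 8519808, .f 8716416, .f 562649104516, .f 549764333701, .s 6 (.f 12648576) (.f 8454272), .f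
    128, .f 128, .f 8716417, .f 8585344, .f 128, .f 128, .f 128, .f 128]
    (by decide +kernel)

theorem rT10 {N t x y L : ℤ} (hD : D N t)
    (c0 : x + 3 ≤ L)
    (c1 : L ≤ y + 2)
    (c2 : (0 : ℤ) ≤ x)
    (c3 : y + 1 ≤ N)
    (c4 : x + y + 3 ≠ t + L) :
    P (A N t) N x y L := by
  exact qr10 hD ⟨c0, c1, c2, c3, c4, trivial⟩

/-- hypotheses -/
noncomputable def kr11 : List Fk.C :=
  [.le (.add (.add .N .t) (.k 3)) (.add (.add .x .y) .L), .le (.add .t (.k 2)) .y, .le .x (.add .t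
  (.k 1)), .le (.add .y (.k 2)) .N, .le (.add .y .L) (.add (.add .N .t) (.k 2)), .ne (.add (.add .x
  .y) .L) (.add (.add .N (.mul 2 .t)) (.k 3))]

theorem qr11 {N t x y L : ℤ} (hD : D N t) : Fk.All ⟨N, t, x, y, L⟩ kr11 → P (A N t) N x y L :=
  Fk.route (fam hD x y L) kr11 .y (.up .x (.add .t (.k 1)))
    [(0, .pt .N), (1, .dn (.sub (.sub (.sub (.add (.add .x .y) .L) .N) .t) (.k 3)) (.k 0)), (3, .dn
    (.sub .N (.k 2)) .y)]
    [.f 575534006402, .f 8650880, .f 549764530307, .f 128, .f 128, .f 9044096, .f 128, .f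
    36029363963166854, .f 549764530307, .f 128, .f 128, .f 128, .f 562649104517, .f 128, .f
    8519808, .f 2471901142615926505603, .f 8519808, .f 2471901142615926505603, .s 7 (.f 12648576)
    (.f 8454272), .f 128, .f 128, .f 2416560910394797916294, .f 8781953, .f 2361220396694397649030,
    .f 8716416, .f 128, .f 128, .f 128, .f 128, .f 128, .f 37718213823496320, .f 129, .f 8585344,
    .f 128, .f 128, .f 128, .f 128]
    (by decide +kernel)

theorem rT11 {N t x y L : ℤ} (hD : D N t)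
    (c0 : N + t + 3 ≤ x + y + L)
    (c1 : t + 2 ≤ y)
    (c2 : x ≤ t + 1)
    (c3 : y + 2 ≤ N)
    (c4 : y + L ≤ N + t + 2)
    (c5 : x + y + L ≠ N + 2 * t + 3) :
    P (A N t) N x y L := by
  exact qr11 hD ⟨c0, c1, c2, c3, c4, c5, trivial⟩

/-- hypotheses -/
noncomputable def kr12 : List Fk.C :=
  [.le (.add .N (.k 1)) (.add .y .L), .le (.k 0) .x, .le (.add .x .L) .N, .le (.add .y (.k 2)) .N,
  .ne (.add (.add .x .y) .L) (.add (.add .N .t) (.k 1))]

theorem qr12 {N t x y L : ℤ} (hD : D N t) : Fk.All ⟨N, t, x, y, L⟩ kr12 → P (A N t) N x y L :=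
  Fk.route (fam hD x y L) kr12 .y (.up .x (.sub (.sub (.add (.add .x .y) .L) .N) (.k 1)))
    [(0, .pt .N), (1, .dn (.sub .N (.k 2)) .y)]
    [.f 8585344, .f 8519808, .f 549764530308, .f 128, .f 128, .f 8978560, .f 128, .f 549764333699,
    .f 549764530308, .s 6 (.f 12648576) (.f 8454272), .f 128, .f 128, .f 566944399488, .f
    37155246690140291, .f 8716416, .f 128, .f 8978560, .f 128, .f 579829563648, .f 128, .f 128, .f
    129, .f 8650880, .f 128, .f 128, .f 128, .f 128]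
    (by decide +kernel)

theorem rT12 {N t x y L : ℤ} (hD : D N t)
    (c0 : N + 1 ≤ y + L)
    (c1 : (0 : ℤ) ≤ x)
    (c2 : x + L ≤ N)
    (c3 : y + 2 ≤ N)
    (c4 : x + y + L ≠ N + t + 1) :
    P (A N t) N x y L := by
  exact qr12 hD ⟨c0, c1, c2, c3, c4, trivial⟩

/-- hypotheses -/
noncomputable def kr13 : List Fk.C :=
  [.le (.add .x (.k 2)) .L, .le .L (.add .y (.k 1)), .le (.k 1) .x, .le (.add .y (.k 1)) .N, .ne
  (.add (.add .x .y) (.k 2)) (.add .t .L)]

theorem qr13 {N t x y L : ℤ} (hD : D N t) : Fk.All ⟨N, t, x, y, L⟩ kr13 → P (A N t) N x y L :=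
  Fk.route (fam hD x y L) kr13 .y (.dn .x (.k 1))
    [(0, .pt .N), (1, .up (.add (.sub (.add .x .y) .L) (.k 2)) .y)]
    [.f 128, .f 8650880, .f 36029355373297797, .f 128, .f 128, .f 8978560, .f 128, .f 128, .f
    8978560, .f 1374398513288, .f 128, .f 128, .f 37436730256851072, .f 562649104516, .f 8519808,
    .f 8716416, .f 562649104516, .f 549764333701, .s 6 (.f 12648576) (.f 8454272), .f 128, .f 128,
    .f 8716417, .f 8585344, .f 128, .f 128, .f 128, .f 128]
    (by decide +kernel)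

theorem rT13 {N t x y L : ℤ} (hD : D N t)
    (c0 : x + 2 ≤ L)
    (c1 : L ≤ y + 1)
    (c2 : (1 : ℤ) ≤ x)
    (c3 : y + 1 ≤ N)
    (c4 : x + y + 2 ≠ t + L) :
    P (A N t) N x y L := by
  exact qr13 hD ⟨c0, c1, c2, c3, c4, trivial⟩

/-- hypotheses -/
noncomputable def kr14 : List Fk.C :=
  [.le .N (.add .y (.k 2)), .le .L (.add .y (.k 2)), .le (.k 1) .x, .le (.add (.add .x .y) (.k 5))
  (.add .N .L), .le (.add .y (.k 1)) .N, .ne .x (.add .t (.k 1)), .ne (.add (.add .t .y) (.k 5))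
  (.add .N .L)]

theorem qr14 {N t x y L : ℤ} (hD : D N t) : Fk.All ⟨N, t, x, y, L⟩ kr14 → P (A N t) N x y L :=
  Fk.route (fam hD x y L) kr14 .y (.up .x (.sub (.sub (.add .N .L) .y) (.k 5)))
    [(0, .pt .N), (1, .dn (.sub .x (.k 1)) (.k 0)), (3, .up (.sub .N (.k 2)) .y)]
    [.f 8650880, .f 8716416, .f 8585344, .f 128, .f 128, .f 9109632, .f 128, .f 549764464773, .f
    8585344, .s 8 (.f 8454272) (.f 12648576), .f 128, .f 128, .f 8585344, .f 128, .f 8650880, .f
    562649104517, .f 8650880, .f 562649104517, .s 7 (.f 12648576) (.f 8454272), .f 128, .f 128, .f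
    562649432193, .f 129, .f 9109632, .f 8519808, .f 8781952, .f 128, .f 128, .f 128, .f 128, .f
    562649104517, .f 8781953, .f 8585344, .f 128, .f 128, .f 128, .f 128]
    (by decide +kernel)

theorem rT14 {N t x y L : ℤ} (hD : D N t)
    (c0 : N ≤ y + 2)
    (c1 : L ≤ y + 2)
    (c2 : (1 : ℤ) ≤ x)
    (c3 : x + y + 5 ≤ N + L)
    (c4 : y + 1 ≤ N)
    (c5 : x ≠ t + 1)
    (c6 : t + y + 5 ≠ N + L) :
    P (A N t) N x y L := by
  exact qr14 hD ⟨c0, c1, c2, c3, c4, c5, c6, trivial⟩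

/-- hypotheses -/
noncomputable def kr15 : List Fk.C :=
  [.le (.add .N (.k 2)) (.add .y .L), .le (.k 0) .x, .le (.add .x .L) (.add .N (.k 1)), .le (.add
  .y (.k 1)) .N, .ne (.add (.add .x .y) .L) (.add (.add .N .t) (.k 2))]

theorem qr15 {N t x y L : ℤ} (hD : D N t) : Fk.All ⟨N, t, x, y, L⟩ kr15 → P (A N t) N x y L :=
  Fk.route (fam hD x y L) kr15 .y (.up .x (.sub (.sub (.add (.add .x .y) .L) .N) (.k 2)))
    [(0, .pt .N), (1, .dn (.sub .N (.k 1)) .y)]
    [.f 8585344, .f 8519808, .f 549764530308, .f 128, .f 128, .f 8978560, .f 128, .f 549764333699,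
    .f 549764530308, .s 6 (.f 12648576) (.f 8454272), .f 128, .f 128, .f 566944399488, .f
    37155246690140291, .f 8716416, .f 128, .f 8978560, .f 128, .f 163207439101529051585577092, .f
    128, .f 128, .f 129, .f 8650880, .f 128, .f 128, .f 128, .f 128]
    (by decide +kernel)

theorem rT15 {N t x y L : ℤ} (hD : D N t)
    (c0 : N + 2 ≤ y + L)
    (c1 : (0 : ℤ) ≤ x)
    (c2 : x + L ≤ N + 1)
    (c3 : y + 1 ≤ N)
    (c4 : x + y + L ≠ N + t + 2) :
    P (A N t) N x y L := by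
  exact qr15 hD ⟨c0, c1, c2, c3, c4, trivial⟩

/-- hypotheses -/
noncomputable def kr16 : List Fk.C :=
  [.le .x (.k 1), .le (.add .x .L) (.add .y (.k 2)), .le (.k 0) .x, .le (.k 4) (.add .x .L), .le
  (.add .y (.k 1)) .N, .ne (.add .y (.k 4)) (.add (.add .t .x) .L)]

theorem qr16 {N t x y L : ℤ} (hD : D N t) : Fk.All ⟨N, t, x, y, L⟩ kr16 → P (A N t) N x y L :=
  Fk.route (fam hD x y L) kr16 .y (.up .x (.k 1))
    [(0, .pt .N), (1, .up (.add (.sub (.sub .y .x) .L) (.k 4)) .y)]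
    [.f 8650880, .f 8519808, .f 9044096, .f 128, .f 128, .f 9044096, .f 128, .f 128, .f 9044096, .f
    1374398578825, .f 128, .f 128, .f 9044096, .f 8585344, .f 8716416, .f 8781952, .f 8585344, .f
    549764530310, .s 7 (.f 12648576) (.f 8454272), .f 128, .f 128, .f 8781953, .f 8585344, .f 128,
    .f 128, .f 128, .f 128]
    (by decide +kernel)

theorem rT16 {N t x y L : ℤ} (hD : D N t)
    (c0 : x ≤ 1)
    (c1 : x + L ≤ y + 2)
    (c2 : (0 : ℤ) ≤ x)
    (c3 : (4 : ℤ) ≤ x + L)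
    (c4 : y + 1 ≤ N)
    (c5 : y + 4 ≠ t + x + L) :
    P (A N t) N x y L := by
  exact qr16 hD ⟨c0, c1, c2, c3, c4, c5, trivial⟩


/-- table of hypotheses -/
noncomputable def tabr : List (List Fk.C) :=
  [kr0, kr1, kr2, kr3, kr4, kr5, kr6, kr7, kr8, kr9, kr10, kr11, kr12, kr13, kr14, kr15, kr16]

theorem tbr {N t x y L : ℤ} (hD : D N t) : Fk.Tab ⟨N, t, x, y, L⟩ (P (A N t) N x y L) tabr :=
  ⟨qr0 hD, qr1 hD, qr2 hD, qr3 hD, qr4 hD, qr5 hD, qr6 hD, qr7 hD, qr8 hD, qr9 hD, qr10 hD, qr11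
  hD, qr12 hD, qr13 hD, qr14 hD, qr15 hD, qr16 hD, trivial⟩

theorem rn0 {N t x y L : ℤ} (hD : D N t)
    (h0 : (0 : ℤ) ≤ x)
    (h1 : x + 1 ≤ y)
    (h2 : y + 1 ≤ N)
    (h3 : (4 : ℤ) ≤ L)
    (h4 : L ≤ N) :
    P (A N t) N x y L := by
  exact Fk.tree (fam hD x y L) (tbr hD)
    [.le (.k 0) .x, .le (.add .x (.k 1)) .y, .le (.add .y (.k 1)) .N, .le (.k 4) .L, .le .L .N]
    (.nd (.add .y .L) (.add .N .x) (.nd .L (.add .x (.k 3)) (.nd (.add .x (.k 4)) (.add .t .L) (.nd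
    (.add .t (.k 1)) .y (.lf 0 [.f 8847488, .f 8978560, .f 8650880, .f 8913024, .f 8585408, .f
    8519808]) (.nd (.add .y .L) (.add .t (.k 3)) (.lf 0 [.f 8913024, .f 9044096, .f 8716416, .f
    8978560, .f 8650944, .f 558354792640]) (.lf 1 [.f 8519808, .f 8913024, .f 8585344, .f
    571239235712, .f 36029355373625475]))) (.nd (.add .t .L) (.add .x (.k 2)) (.lf 0 [.f 8847488,
    .f 8978560, .f 8650880, .f 8913024, .f 8519808, .f 36592335391752320]) (.nd (.add .t .L) (.add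
    .y (.k 1)) (.lf 2 [.f 8519808, .f 566944727168, .f 8585344, .f 8978560, .f 37155289639813248])
    (.nd (.add (.add .t .y) .L) (.add (.add .N .x) (.k 1)) (.lf 3 [.f 571239760000, .f 8978560, .f
    8650880, .f 8519808, .f 588419629184]) (.lf 4 [.f 36874342944080000, .f 8978560, .f
    38844156679815301, .f 36592352571162762, .f 39688796358901899]))))) (.nd (.add (.add .t .x) (.k
    5)) (.add .y .L) (.lf 5 [.f 8585344, .f 8781952, .f 8716416, .f 8650880, .f 8519808]) (.nd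
    (.add .y (.k 1)) .t (.nd (.add .t .L) (.add (.add .N .x) (.k 1)) (.lf 6 [.f 8716416, .f
    8913024, .f 8847488, .f 8781952, .f 8585408, .f 8519872]) (.lf 1 [.f 2361222648515694887042, .f
    8913024, .f 8585344, .f 8650880, .f 36029368258527367])) (.lf 1 [.f 36592313916850304, .f
    8847488, .f 562649366656, .f 8585344, .f 36029363963494534])))) (.nd (.k 1) .x (.nd (.add .y
    (.k 2)) .N (.nd (.add .y .L) (.add .N .t) (.lf 7 [.f 8716416, .f 8650880, .f 8585344, .f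
    9044096, .f 824642437250, .f 8519872]) (.nd (.add (.add .N .t) (.k 2)) (.add .y .L) (.nd .x .t
    (.lf 7 [.f 8847488, .f 8781952, .f 8716416, .f 9175168, .f 8519872, .f 8585344]) (.nd (.add .x
    .L) (.add .N .t) (.lf 8 [.f 8650880, .f 8585344, .f 8781952, .f 8519808, .f 549764464771]) (.nd
    (.add .t (.k 2)) .x (.lf 7 [.f 8978560, .f 8913024, .f 8847488, .f 9306240, .f 8519808, .f
    8716416]) (.nd (.add .y (.k 3)) .N (.lf 9 [.f 9044096, .f 8978560, .f 8519808, .f 9371776, .f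
    601304137856, .f 614192906373]) (.lf 10 [.f 36873806073430144, .f 558354137231, .f 8978560, .f
    8913024, .f 36592296736915599]))))) (.nd (.add .t (.k 2)) .y (.nd (.add (.add .N .t) (.k 3))
    (.add (.add .x .y) .L) (.lf 11 [.f 8519808, .f 8585344, .f 566944596096, .f 8781952, .f
    8650880, .f 1116704080008]) (.lf 12 [.f 549764726919, .f 8847488, .f 558354333824, .f 8781952,
    .f 549764530311])) (.nd (.add (.add .N .x) (.k 2)) (.add .t .L) (.lf 9 [.f 8913024, .f 8847488,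
    .f 154744921474116216835670157, .f 9240704, .f 571239039117, .f 8519808]) (.lf 5 [.f
    549764595848, .f 9044096, .f 8847488, .f 558354137219, .f 37436721667113098]))))) (.nd (.add .t
    .L) (.add (.add .x .y) (.k 1)) (.lf 13 [.f 549764726917, .f 562649759872, .f 8650880, .f
    8913024, .f 8519808]) (.nd (.add (.add .t .y) (.k 6)) (.add .N .L) (.lf 14 [.f 8650880, .f
    549764464779, .f 8716416, .f 2527242219794561433730, .f 8978560, .f 54043758178271364, .f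
    8519872]) (.lf 15 [.f 549764595845, .f 8716416, .f 309489898319989302435709442, .f 8978560, .f
    2361222649052565602435])))) (.nd (.add .y (.k 2)) .N (.nd (.add (.add .x .y) .L) (.add .N .t)
    (.lf 12 [.f 549764530310, .f 8781952, .f 566944727168, .f 8585344, .f 8519872]) (.nd (.add .y
    (.k 3)) .N (.lf 9 [.f 8781952, .f 8847488, .f 8519808, .f 9109632, .f 37436768911556736, .f
    2361220115777767407746]) (.lf 10 [.f 549764595844, .f 597008973952, .f 8847488, .f 8650880, .f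
    2416577517972483211405]))) (.nd (.add (.add .t .x) .L) (.add .y (.k 3)) (.lf 16 [.f 8650880, .f
    36873814662971524, .f 8781952, .f 549764792454, .f 8913024, .f 8519808]) (.lf 10 [.f
    566944661632, .f 562649759872, .f 8781952, .f 8913024, .f 1116704080002])))))
    (by decide +kernel) ⟨h0, h1, h2, h3, h4, trivial⟩


end Pool.Agent.Work.MP_193ce1_co.Rim.Er
end

-- merged part: Pool.Agent.Work.MP_193ce1_co.Rim.ErH
section
set_option linter.unusedVariables false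

namespace Pool.Agent.Work.MP_193ce1_co.Rim.Er

/-- hypotheses -/
noncomputable def kh0 : List Fk.C :=
  [.le (.k 2) .L, .le (.k 0) .x, .le (.add .x .L) (.add .N (.k 1)), .ne (.add .x .L) (.add .t (.k
  2))]

theorem qh0 {N t x L : ℤ} (hD : D N t) : Fk.All ⟨N, t, x, 0, L⟩ kh0 → P (A N t) N x N L :=
  Fk.route (fam hD x 0 L) kh0 .N (.up .x (.sub (.add .x .L) (.k 2)))
    [(0, .pt .N)]
    [.f 8585344, .f 8519808, .f 8650880, .f 128, .f 128, .f 8913024, .f 128, .f 549764333699, .f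
    8650880, .s 5 (.f 12648576) (.f 8454272), .f 128, .f 128, .f 8650880, .f 128, .f 128, .f 128,
    .f 128]
    (by decide +kernel)

theorem hT0 {N t x L : ℤ} (hD : D N t)
    (c0 : (2 : ℤ) ≤ L)
    (c1 : (0 : ℤ) ≤ x)
    (c2 : x + L ≤ N + 1)
    (c3 : x + L ≠ t + 2) :
    P (A N t) N x N L := by
  exact qh0 hD ⟨c0, c1, c2, c3, trivial⟩

/-- hypotheses -/
noncomputable def kh1 : List Fk.C :=
  [.le (.add .x (.k 3)) .L, .le (.k 0) .x, .le .L .N, .ne (.add .t .L) (.add (.add .N .x) (.k 1))]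

theorem qh1 {N t x L : ℤ} (hD : D N t) : Fk.All ⟨N, t, x, 0, L⟩ kh1 → P (A N t) N x N L :=
  Fk.route (fam hD x 0 L) kh1 .N (.dn .x (.k 0))
    [(3, .dn (.sub .N (.k 2)) (.add (.sub (.add .N .x) .L) (.k 1))), (0, .pt .N)]
    [.f 128, .f 8585344, .f 549764333700, .f 128, .f 128, .f 549764399236, .f 8519808, .f 128, .f
    128, .f 128, .f 128, .f 128, .f 8650880, .f 8913024, .f 128, .f 549764399236, .f 8519808, .s 5
    (.f 8454272) (.f 12648576), .f 128, .f 128, .f 128, .f 566944202880, .f 128, .f 128, .f 128, .f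
    128]
    (by decide +kernel)

theorem hT1 {N t x L : ℤ} (hD : D N t)
    (c0 : x + 3 ≤ L)
    (c1 : (0 : ℤ) ≤ x)
    (c2 : L ≤ N)
    (c3 : t + L ≠ N + x + 1) :
    P (A N t) N x N L := by
  exact qh1 hD ⟨c0, c1, c2, c3, trivial⟩

/-- hypotheses -/
noncomputable def kh2 : List Fk.C :=
  [.le (.k 2) .L, .le .L (.add .x (.k 2)), .le (.add .x (.k 1)) .N, .ne (.add .x (.k 2)) (.add .t
  .L)]

theorem qh2 {N t x L : ℤ} (hD : D N t) : Fk.All ⟨N, t, x, 0, L⟩ kh2 → P (A N t) N x N L :=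
  Fk.route (fam hD x 0 L) kh2 .N (.dn .x (.add (.sub .x .L) (.k 2)))
    [(0, .pt .N)]
    [.f 8585344, .f 8519808, .f 8650880, .f 128, .f 128, .f 8913024, .f 128, .f 8585344, .f
    549764333700, .s 5 (.f 12648576) (.f 8454272), .f 128, .f 128, .f 8650880, .f 128, .f 128, .f
    128, .f 128]
    (by decide +kernel)

theorem hT2 {N t x L : ℤ} (hD : D N t)
    (c0 : (2 : ℤ) ≤ L)
    (c1 : L ≤ x + 2)
    (c2 : x + 1 ≤ N)
    (c3 : x + 2 ≠ t + L) :
    P (A N t) N x N L := by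
  exact qh2 hD ⟨c0, c1, c2, c3, trivial⟩

/-- hypotheses -/
noncomputable def kh3 : List Fk.C :=
  [.le (.add .N (.k 1)) (.add .x .L), .le (.add .x (.k 2)) .N, .le .L .N, .ne (.add .x .L) (.add
  (.add .N .t) (.k 1))]

theorem qh3 {N t x L : ℤ} (hD : D N t) : Fk.All ⟨N, t, x, 0, L⟩ kh3 → P (A N t) N x N L :=
  Fk.route (fam hD x 0 L) kh3 .N (.up .x (.sub .N (.k 2)))
    [(2, .up (.k 0) (.sub (.sub (.add .x .L) .N) (.k 1))), (0, .pt .N)]
    [.f 549764333700, .f 8585344, .f 128, .f 128, .f 128, .f 128, .f 8519808, .f 549764399236, .f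
    128, .f 128, .f 128, .f 128, .f 8650881, .f 8913024, .f 128, .f 8519808, .f 549764399236, .s 5
    (.f 12648576) (.f 8454272), .f 128, .f 128, .f 566944268416, .f 128, .f 128, .f 128, .f 128, .f
    128]
    (by decide +kernel)

theorem hT3 {N t x L : ℤ} (hD : D N t)
    (c0 : N + 1 ≤ x + L)
    (c1 : x + 2 ≤ N)
    (c2 : L ≤ N)
    (c3 : x + L ≠ N + t + 1) :
    P (A N t) N x N L := by
  exact qh3 hD ⟨c0, c1, c2, c3, trivial⟩


/-- table of hypotheses -/
noncomputable def tabh : List (List Fk.C) :=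
  [kh0, kh1, kh2, kh3]

theorem tbh {N t x L : ℤ} (hD : D N t) : Fk.Tab ⟨N, t, x, 0, L⟩ (P (A N t) N x N L) tabh :=
  ⟨qh0 hD, qh1 hD, qh2 hD, qh3 hD, trivial⟩

theorem hn0 {N t x L : ℤ} (hD : D N t)
    (h0 : (0 : ℤ) ≤ x)
    (h1 : x + 1 ≤ N)
    (h2 : (4 : ℤ) ≤ L)
    (h3 : L ≤ N)
    (h4 : L ≠ t + 2) :
    P (A N t) N x N L := by
  exact Fk.tree (fam hD x 0 L) (tbh hD)
    [.le (.k 0) .x, .le (.add .x (.k 1)) .N, .le (.k 4) .L, .le .L .N, .ne .L (.add .t (.k 2))]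
    (.nd (.add .x .L) (.add .N (.k 1)) (.nd (.add .t (.k 3)) (.add .x .L) (.lf 0 [.f 8781952, .f
    8650880, .f 8585344, .f 8519808]) (.nd (.add .x .L) (.add .t (.k 1)) (.lf 0 [.f 8847488, .f
    8716416, .f 8650880, .f 8519872]) (.nd (.add .x (.k 3)) .L (.lf 1 [.f 8519808, .f 8781952, .f
    8978560, .s 10 (.f 54325237457617036) (.f 549764661381)]) (.lf 2 [.f 8913024, .f 8519808, .f
    8847488, .f 566948266248])))) (.nd (.add .x (.k 2)) .N (.nd (.add .x .L) (.add .N .t) (.lf 3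
    [.f 8650880, .f 8585344, .f 8913024, .f 8519872]) (.nd (.add (.add .N .t) (.k 2)) (.add .x .L)
    (.lf 3 [.f 8716416, .f 8650880, .f 8978560, .f 8519808]) (.nd .L (.add .x (.k 2)) (.lf 2 [.f
    8978560, .f 8519808, .f 8716416, .f 39688538664468741]) (.lf 1 [.f 8519808, .f 8847488, .f
    9044096, .f 566948266250])))) (.lf 2 [.f 8781952, .f 558354595968, .f 8716416, .s 8 (.f
    36873776008265866) (.f 37718196647690379)])))
    (by decide +kernel) ⟨h0, h1, h2, h3, h4, trivial⟩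



variable {N t : ℤ} {f : ℤ → ℤ}

theorem thread (c d : ℤ) (h : A N t c d) (hN : c ≠ N)
    (l0 : c ≠ (0 : ℤ))
    (l1 : c ≠ N - 1)
    : d = c + 1 ∨ d = c - 1 ∨ d = N ∨ d = 0 := by
  rcases h.2 with (⟨a1, a2, a3⟩ | ⟨a1, a2⟩ | ⟨a1, a2⟩) | (⟨a1, a2, a3⟩ | ⟨a1, a2⟩ | ⟨a1, a2⟩) <;> omega

theorem nb (h : W (A N t) 0 N (t + 1) f) (hD : D N t) (i : ℤ) (h0 : 0 ≤ i) (h1 : i < t) :
    (f (i + 1) = f i + 1 ∧ f i + 1 < N) ∨
    (f (i + 1) = f i - 1 ∧ 1 ≤ f i) ∨
    (f i = N - 2 ∧ f (i + 1) = (0 : ℤ)) ∨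
    (f i = (0 : ℤ) ∧ f (i + 1) = N - 2) := by
  have e1 : f i ≠ N := fun e => by
    have := h.inj i (t + 1) (by omega) (by omega) (by omega) (by omega) (by rw [h.hT]; exact e)
    omega
  have e2 : f (i + 1) ≠ N := fun e => by
    have := h.inj (i + 1) (t + 1) (by omega) (by omega) (by omega) (by omega) (by rw [h.hT]; exact e)
    omega
  rcases (h.adj i h0 (by omega)).2 with (⟨a1, a2, a3⟩ | ⟨a1, a2⟩ | ⟨a1, a2⟩) | (⟨a1, a2, a3⟩ | ⟨a1, a2⟩ | ⟨a1, a2⟩)
  · exact (Or.inl ⟨by omega, by omega⟩)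
  · exact absurd a1 e1
  · exact (Or.inr (Or.inr (Or.inl ⟨a1, a2⟩)))
  · exact (Or.inr (Or.inl ⟨by omega, by omega⟩))
  · exact absurd a1 e2
  · exact (Or.inr (Or.inr (Or.inr ⟨a2, a1⟩)))

theorem fin (h : W (A N t) 0 N (t + 1) f) (hD : D N t) {c : ℤ} (hv : V f t c)
    (e : c = t) : False := by
  have h1 := h.adj t (by unfold D at hD; omega) (by omega)
  rw [h.hT, show f t = c from hv] at h1
  unfold D at hD
  rcases h1.2 with (⟨a1, a2, a3⟩ | ⟨a1, a2⟩ | ⟨a1, a2⟩) | (⟨a1, a2, a3⟩ | ⟨a1, a2⟩ | ⟨a1, a2⟩) <;> omega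

theorem nb0 (h : W (A N t) 0 N (t + 1) f) (hD : D N t) {i : ℤ} (hv : V f i (0 : ℤ))
    (e : 0 ≤ i ∧ i < t) :
    V f (i + 1) (1 : ℤ) ∨ V f (i + 1) (N - 2) := by
  have := nb h hD i e.1 e.2
  unfold V at *
  unfold D at hD
  omega

theorem th1 (hD : D N t) : Th (A N t) N 0 (0 : ℤ) (N - 1) := by
  intro c d h1 h2 h3
  unfold D at hD
  exact thread c d h3 (by omega) (by omega) (by omega)

theorem nb2 (h : W (A N t) 0 N (t + 1) f) (hD : D N t) {i : ℤ} (hv : V f i (N - 2))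
    (e : 0 ≤ i ∧ i < t) :
    V f (i + 1) (N - 1) ∨ V f (i + 1) (N - 3) ∨ V f (i + 1) (0 : ℤ) := by
  have := nb h hD i e.1 e.2
  unfold V at *
  unfold D at hD
  omega

theorem th3 (hD : D N t) : Th (A N t) N 0 (N - 2) (N - 1) := by
  intro c d h1 h2 h3
  unfold D at hD
  exact thread c d h3 (by omega) (by omega) (by omega)

theorem nb4 (h : W (A N t) 0 N (t + 1) f) (hD : D N t) {i : ℤ} (hv : V f i (N - 1))
    (e : 0 ≤ i ∧ i < t) :
    V f (i + 1) (N - 2) := by
  have := nb h hD i e.1 e.2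
  unfold V at *
  unfold D at hD
  omega

theorem th5 (hD : D N t) : Th (A N t) N 0 (0 : ℤ) (N - 2) := by
  intro c d h1 h2 h3
  unfold D at hD
  exact thread c d h3 (by omega) (by omega) (by omega)

theorem no (hD : D N t) (h : W (A N t) 0 N (t + 1) f) : False := by
  obtain ⟨d0, d1, d2⟩ := id hD
  have v0 : V f (0 : ℤ) (0 : ℤ) := h.h0
  rcases nb0 h hD v0 (by omega) with n1 | n1
  · have r2 := h.ru v0 n1 (th1 hD) (by omega)
    exact fin h hD (r2.at t t (by omega)) (by omega)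
  · have v3 := n1.cast (1 : ℤ) (by omega)
    rcases nb2 h hD v3 (by omega) with n4 | n4 | n4
    · have r5 := h.ru v3 n4 (th3 hD) (by omega)
      have v6 := r5.at (2 : ℤ) (N - 1) (by omega)
      rcases nb4 h hD v6 (by omega) with n7
      exact h.clash n7 v3 (by omega)
    · have r8 := h.rd v3 n4 (th5 hD) (by omega)
      exact fin h hD (r8.at t (N - t - 1) (by omega)) (by omega)
    · exact h.clash n4 v0 (by omega)

end Pool.Agent.Work.MP_193ce1_co.Rim.Er
end

-- merged part: Pool.Agent.Work.MP_193ce1_co.Rim.KkD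
section
set_option linter.unusedVariables false

namespace Pool.Agent.Work.MP_193ce1_co.Rim.Kk

def D (N t : ℤ) : Prop :=
  t + 2 ≤ N ∧ 3 * N + 5 ≤ 4 * t ∧ (14 : ℤ) ≤ N

def B (N t a b : ℤ) : Prop :=
  (0 ≤ a ∧ b = a + 1 ∧ b < N) ∨ (a = N ∧ 0 ≤ b ∧ b < N ∧ b ≠ N - t ∧ b ≠ N - t + 1 ∧ b ≠ 2 * N - 2 * t + 2 ∧ b ≠ 2 * N - 2 * t + 3 ∧ b ≠ t - 1 ∧ b ≠ t) ∨
    (a = N - 1 ∧ b = 0) ∨
    (a = N - t ∧ b = 2 * N - 2 * t + 3) ∨
    (a = N - t + 1 ∧ b = t - 1) ∨
    (a = 2 * N - 2 * t + 2 ∧ b = t) ∨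
    (a = 0 ∧ b = N - t + 2) ∨
    (a = 0 ∧ b = 2 * N - 2 * t + 4)

def A (N t a b : ℤ) : Prop := a ≠ b ∧ (B N t a b ∨ B N t b a)

variable {N t : ℤ}

theorem rel (hD : D N t) : Rel (A N t) N :=
  ⟨fun _ _ h => ⟨h.1.symm, h.2.symm⟩, fun _ h => h.1 rfl,
    fun a h0 h1 => ⟨by omega, Or.inl (Or.inl ⟨h0, rfl, h1⟩)⟩⟩

theorem hubB (hD : D N t) (e : ℤ) (h0 : 0 ≤ e) (h1 : e < N) (x0 : e ≠ N - t) (x1 : e ≠ N - t + 1) (x2 : e ≠ 2 * N - 2 * t + 2) (x3 : e ≠ 2 * N - 2 * t + 3) (x4 : e ≠ t - 1) (x5 : e ≠ t) : A N t N e :=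
  ⟨by omega, Or.inl (Or.inr (Or.inl ⟨rfl, h0, h1, x0, x1, x2, x3, x4, x5⟩))⟩

theorem hubA (hD : D N t) (e : ℤ) (h0 : 0 ≤ e) (h1 : e < N) (x0 : e ≠ N - t) (x1 : e ≠ N - t + 1) (x2 : e ≠ 2 * N - 2 * t + 2) (x3 : e ≠ 2 * N - 2 * t + 3) (x4 : e ≠ t - 1) (x5 : e ≠ t) : A N t e N :=
  ⟨by omega, Or.inr (Or.inr (Or.inl ⟨rfl, h0, h1, x0, x1, x2, x3, x4, x5⟩))⟩

theorem ch0 (hD : D N t) : A N t (N - 1) 0 :=
  ⟨by unfold D at hD; omega, Or.inl (Or.inr (Or.inr (Or.inl ⟨rfl, rfl⟩)))⟩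

theorem ch1 (hD : D N t) : A N t 0 (N - 1) :=
  ⟨by unfold D at hD; omega, Or.inr (Or.inr (Or.inr (Or.inl ⟨rfl, rfl⟩)))⟩

theorem ch2 (hD : D N t) : A N t (N - t) (2 * N - 2 * t + 3) :=
  ⟨by unfold D at hD; omega, Or.inl (Or.inr (Or.inr (Or.inr (Or.inl ⟨rfl, rfl⟩))))⟩

theorem ch3 (hD : D N t) : A N t (2 * N - 2 * t + 3) (N - t) :=
  ⟨by unfold D at hD; omega, Or.inr (Or.inr (Or.inr (Or.inr (Or.inl ⟨rfl, rfl⟩))))⟩

theorem ch4 (hD : D N t) : A N t (N - t + 1) (t - 1) :=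
  ⟨by unfold D at hD; omega, Or.inl (Or.inr (Or.inr (Or.inr (Or.inr (Or.inl ⟨rfl, rfl⟩)))))⟩

theorem ch5 (hD : D N t) : A N t (t - 1) (N - t + 1) :=
  ⟨by unfold D at hD; omega, Or.inr (Or.inr (Or.inr (Or.inr (Or.inr (Or.inl ⟨rfl, rfl⟩)))))⟩

theorem ch6 (hD : D N t) : A N t (2 * N - 2 * t + 2) t :=
  ⟨by unfold D at hD; omega, Or.inl (Or.inr (Or.inr (Or.inr (Or.inr (Or.inr (Or.inl ⟨rfl, rfl⟩))))))⟩

theorem ch7 (hD : D N t) : A N t t (2 * N - 2 * t + 2) :=
  ⟨by unfold D at hD; omega, Or.inr (Or.inr (Or.inr (Or.inr (Or.inr (Or.inr (Or.inl ⟨rfl, rfl⟩))))))⟩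

theorem ch8 (hD : D N t) : A N t 0 (N - t + 2) :=
  ⟨by unfold D at hD; omega, Or.inl (Or.inr (Or.inr (Or.inr (Or.inr (Or.inr (Or.inr (Or.inl ⟨rfl, rfl⟩)))))))⟩

theorem ch9 (hD : D N t) : A N t (N - t + 2) 0 :=
  ⟨by unfold D at hD; omega, Or.inr (Or.inr (Or.inr (Or.inr (Or.inr (Or.inr (Or.inr (Or.inl ⟨rfl, rfl⟩)))))))⟩

theorem ch10 (hD : D N t) : A N t 0 (2 * N - 2 * t + 4) :=
  ⟨by unfold D at hD; omega, Or.inl (Or.inr (Or.inr (Or.inr (Or.inr (Or.inr (Or.inr (Or.inr ⟨rfl, rfl⟩)))))))⟩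

theorem ch11 (hD : D N t) : A N t (2 * N - 2 * t + 4) 0 :=
  ⟨by unfold D at hD; omega, Or.inr (Or.inr (Or.inr (Or.inr (Or.inr (Or.inr (Or.inr (Or.inr ⟨rfl, rfl⟩)))))))⟩

/-- vertices missed by the hub -/
noncomputable def fV : List Fk.E :=
  [.sub .N .t, .add (.sub .N .t) (.k 1), .add (.sub (.mul 2 .N) (.mul 2 .t)) (.k 2), .add (.sub
  (.mul 2 .N) (.mul 2 .t)) (.k 3), .sub .t (.k 1), .t]

/-- chords -/
noncomputable def fH : List (Fk.E × Fk.E) :=
  [(.sub .N (.k 1), .k 0), (.k 0, .sub .N (.k 1)), (.sub .N .t, .add (.sub (.mul 2 .N) (.mul 2 .t))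
  (.k 3)), (.add (.sub (.mul 2 .N) (.mul 2 .t)) (.k 3), .sub .N .t), (.add (.sub .N .t) (.k 1),
  .sub .t (.k 1)), (.sub .t (.k 1), .add (.sub .N .t) (.k 1)), (.add (.sub (.mul 2 .N) (.mul 2 .t))
  (.k 2), .t), (.t, .add (.sub (.mul 2 .N) (.mul 2 .t)) (.k 2)), (.k 0, .add (.sub .N .t) (.k 2)),
  (.add (.sub .N .t) (.k 2), .k 0), (.k 0, .add (.sub (.mul 2 .N) (.mul 2 .t)) (.k 4)), (.add (.sub
  (.mul 2 .N) (.mul 2 .t)) (.k 4), .k 0)]

/-- parameter range -/
noncomputable def fD : List Fk.C :=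
  [.le (.add .t (.k 2)) .N, .le (.add (.mul 3 .N) (.k 5)) (.mul 4 .t), .le (.k 14) .N]

theorem fam (hD : D N t) (x y L : ℤ) : Fk.Fam (A N t) ⟨N, t, x, y, L⟩ fV fH fD :=
  ⟨rel hD, fun e h0 h1 h => ⟨hubA hD e h0 h1 h.1 h.2.1 h.2.2.1 h.2.2.2.1 h.2.2.2.2.1 h.2.2.2.2.2.1,
    hubB hD e h0 h1 h.1 h.2.1 h.2.2.1 h.2.2.2.1 h.2.2.2.2.1 h.2.2.2.2.2.1⟩,
    ⟨ch0 hD, ch1 hD, ch2 hD, ch3 hD, ch4 hD, ch5 hD, ch6 hD, ch7 hD, ch8 hD, ch9 hD, ch10 hD, ch11
    hD, trivial⟩, hD.1, hD.2.1, hD.2.2, trivial⟩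

end Pool.Agent.Work.MP_193ce1_co.Rim.Kk
end
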