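import Pool.Agent.Work.MP_193ce1_co.Rim.KkD

set_option linter.unusedVariables false

namespace Pool.Agent.Work.MP_193ce1_co.Rim.Kk

/-- hypotheses -/
noncomputable def kh0 : List Fk.C :=
  [.le (.add .x (.k 3)) .L, .le (.k 0) .x, .le .L (.add .N (.k 1)), .ne .L (.add (.add .t .x) (.k
  1)), .ne .L (.add (.add .t .x) (.k 2)), .ne (.add (.mul 2 .t) .x) (.add .N .L), .ne (.add (.mul 2
  .t) .x) (.add (.add .N .L) (.k 1)), .ne (.add .t .L) (.add (.add .N .x) (.k 2)), .ne (.add .t .L)
  (.add (.add .N .x) (.k 3))]

theorem qh0 {N t x L : ℤ} (hD : D N t) : Fk.All ⟨N, t, x, 0, L⟩ kh0 → P (A N t) N x N L :=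
  Fk.route (fam hD x 0 L) kh0 .N (.dn .x (.k 0))
    [(3, .dn (.sub .N (.k 1)) (.add (.sub (.add .N .x) .L) (.k 2))), (0, .pt .N)]
    [.f 128, .f 8585344, .f 549764333700, .f 128, .f 128, .f 549764399236, .f 8519808, .f 128, .f
    128, .f 128, .f 128, .f 128, .f 8650880, .f 9240704, .f 128, .f 549764399236, .f 8519808, .s 6
    (.f 8454272) (.f 12648576), .s 5 (.f 8454272) (.f 12648576), .s 7 (.f 12648576) (.f 8454272),
    .s 8 (.f 12648576) (.f 8454272), .s 10 (.f 8454272) (.f 12648576), .s 9 (.f 8454272) (.f
    12648576), .f 128, .f 128, .f 128, .f 566944202880, .f 128, .f 128, .f 128, .f 128]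
    (by decide +kernel)

theorem hT0 {N t x L : ℤ} (hD : D N t)
    (c0 : x + 3 ≤ L)
    (c1 : (0 : ℤ) ≤ x)
    (c2 : L ≤ N + 1)
    (c3 : L ≠ t + x + 1)
    (c4 : L ≠ t + x + 2)
    (c5 : 2 * t + x ≠ N + L)
    (c6 : 2 * t + x ≠ N + L + 1)
    (c7 : t + L ≠ N + x + 2)
    (c8 : t + L ≠ N + x + 3) :
    P (A N t) N x N L := by
  exact qh0 hD ⟨c0, c1, c2, c3, c4, c5, c6, c7, c8, trivial⟩

/-- hypotheses -/
noncomputable def kh1 : List Fk.C :=
  [.le (.add .N (.k 6)) (.add (.add .t .x) .L), .le (.k 1) .x, .le (.add .t .x) (.add .N (.k 2)),
  .le (.add .x .L) (.add .N (.k 2)), .ne (.add .x .L) (.add .t (.k 2)), .ne (.add .x .L) (.add .t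
  (.k 3)), .ne (.add .x .L) (.add .N (.k 4)), .ne (.add .x .L) (.add .N (.k 5)), .ne (.add (.add
  (.mul 2 .t) .x) .L) (.add (.mul 2 .N) (.k 5)), .ne (.add (.add (.mul 2 .t) .x) .L) (.add (.mul 2
  .N) (.k 6))]

theorem qh1 {N t x L : ℤ} (hD : D N t) : Fk.All ⟨N, t, x, 0, L⟩ kh1 → P (A N t) N x N L :=
  Fk.route (fam hD x 0 L) kh1 .N (.up .x (.add (.sub .N .t) (.k 2)))
    [(11, .pt (.k 0)), (3, .dn (.sub .N (.k 1)) (.add (.sub (.sub (.sub (.mul 2 .N) .t) .x) .L) (.k
    5))), (0, .pt .N)]
    [.f 8585344, .f 8650880, .f 549764333701, .f 128, .f 128, .f 128, .f 9306240, .f 128, .f 128,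
    .f 128, .f 128, .f 8585345, .f 36029363963232389, .f 8519808, .f 128, .f 128, .f 128, .f 128,
    .f 128, .f 37436738846785664, .f 8716416, .f 9306240, .f 128, .f 36029363963232389, .f 8519808,
    .f 8716416, .f 8716416, .s 7 (.f 8454272) (.f 12648576), .s 6 (.f 8454272) (.f 12648576), .s 11
    (.f 8454272) (.f 12648576), .s 10 (.f 8454272) (.f 12648576), .f 128, .f 128, .f 128, .f
    9306240, .f 571239039106, .f 128, .f 128, .f 128, .f 128]
    (by decide +kernel)

theorem hT1 {N t x L : ℤ} (hD : D N t)
    (c0 : N + 6 ≤ t + x + L)
    (c1 : (1 : ℤ) ≤ x)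
    (c2 : t + x ≤ N + 2)
    (c3 : x + L ≤ N + 2)
    (c4 : x + L ≠ t + 2)
    (c5 : x + L ≠ t + 3)
    (c6 : x + L ≠ N + 4)
    (c7 : x + L ≠ N + 5)
    (c8 : 2 * t + x + L ≠ 2 * N + 5)
    (c9 : 2 * t + x + L ≠ 2 * N + 6) :
    P (A N t) N x N L := by
  exact qh1 hD ⟨c0, c1, c2, c3, c4, c5, c6, c7, c8, c9, trivial⟩

/-- hypotheses -/
noncomputable def kh2 : List Fk.C :=
  [.le (.add .N (.k 2)) (.add .x .L), .le (.add .x (.k 1)) .N, .le .L (.add .N (.k 1)), .ne (.add
  .x .L) (.add (.add .N .t) (.k 1)), .ne (.add .x .L) (.add (.add .N .t) (.k 2)), .ne (.add (.add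
  .t .x) .L) (.add (.mul 2 .N) (.k 2)), .ne (.add (.add .t .x) .L) (.add (.mul 2 .N) (.k 3)), .ne
  (.add (.add (.mul 2 .t) .x) .L) (.add (.mul 3 .N) (.k 4)), .ne (.add (.add (.mul 2 .t) .x) .L)
  (.add (.mul 3 .N) (.k 5))]

theorem qh2 {N t x L : ℤ} (hD : D N t) : Fk.All ⟨N, t, x, 0, L⟩ kh2 → P (A N t) N x N L :=
  Fk.route (fam hD x 0 L) kh2 .N (.up .x (.sub .N (.k 1)))
    [(2, .up (.k 0) (.sub (.sub (.add .x .L) .N) (.k 2))), (0, .pt .N)]
    [.f 549764333700, .f 8585344, .f 128, .f 128, .f 128, .f 128, .f 8519808, .f 549764399236, .f
    128, .f 128, .f 128, .f 128, .f 8650881, .f 9240704, .f 128, .f 8519808, .f 549764399236, .s 7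
    (.f 12648576) (.f 8454272), .s 8 (.f 12648576) (.f 8454272), .s 9 (.f 12648576) (.f 8454272),
    .s 10 (.f 12648576) (.f 8454272), .s 5 (.f 12648576) (.f 8454272), .s 6 (.f 12648576) (.f
    8454272), .f 128, .f 128, .f 566944268416, .f 128, .f 128, .f 128, .f 128, .f 128]
    (by decide +kernel)

theorem hT2 {N t x L : ℤ} (hD : D N t)
    (c0 : N + 2 ≤ x + L)
    (c1 : x + 1 ≤ N)
    (c2 : L ≤ N + 1)
    (c3 : x + L ≠ N + t + 1)
    (c4 : x + L ≠ N + t + 2)
    (c5 : t + x + L ≠ 2 * N + 2)
    (c6 : t + x + L ≠ 2 * N + 3)
    (c7 : 2 * t + x + L ≠ 3 * N + 4)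
    (c8 : 2 * t + x + L ≠ 3 * N + 5) :
    P (A N t) N x N L := by
  exact qh2 hD ⟨c0, c1, c2, c3, c4, c5, c6, c7, c8, trivial⟩

/-- hypotheses -/
noncomputable def kh3 : List Fk.C :=
  [.le (.add (.add .N .x) (.k 4)) (.add .t .L), .le (.k 0) .x, .le .L (.add (.add .t .x) (.k 1)),
  .le (.add .t .x) .N, .ne .L (.add (.add .t .x) (.k 2)), .ne .L (.add (.add .t .x) (.k 3)), .ne
  (.add .t .L) (.add (.add .N .x) (.k 3)), .ne (.add .t .L) (.add (.add .N .x) (.k 4)), .ne (.add
  (.mul 2 .t) .L) (.add (.add (.mul 2 .N) .x) (.k 5)), .ne (.add (.mul 2 .t) .L) (.add (.add (.mul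
  2 .N) .x) (.k 6))]

theorem qh3 {N t x L : ℤ} (hD : D N t) : Fk.All ⟨N, t, x, 0, L⟩ kh3 → P (A N t) N x N L :=
  Fk.route (fam hD x 0 L) kh3 .N (.dn .x (.k 0))
    [(3, .dn (.sub .N (.k 1)) (.sub .t (.k 1))), (7, .up (.add (.sub .N .t) (.k 1)) (.sub (.sub .L
    .x) (.k 3))), (0, .pt .N)]
    [.f 128, .f 8585344, .f 2361256706966393323652, .f 128, .f 128, .f 2435006247089329012869, .f
    9175168, .f 128, .f 128, .f 128, .f 128, .f 128, .f 37436721666982018, .f 9175168, .f 8519808,
    .f 36029359668330629, .f 128, .f 128, .f 128, .f 128, .f 8650881, .f 8716416, .f 9306240, .f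
    128, .f 36029368258199682, .f 36029359668330629, .f 8519808, .s 9 (.f 12648576) (.f 8454272),
    .s 10 (.f 12648576) (.f 8454272), .s 11 (.f 12648576) (.f 8454272), .f 8650944, .f 8650944, .f
    128, .f 128, .f 37155246690205829, .f 128, .f 2435043683798102442126, .f 128, .f 128, .f 128,
    .f 128]
    (by decide +kernel)

theorem hT3 {N t x L : ℤ} (hD : D N t)
    (c0 : N + x + 4 ≤ t + L)
    (c1 : (0 : ℤ) ≤ x)
    (c2 : L ≤ t + x + 1)
    (c3 : t + x ≤ N)
    (c4 : L ≠ t + x + 2)
    (c5 : L ≠ t + x + 3)
    (c6 : t + L ≠ N + x + 3)
    (c7 : t + L ≠ N + x + 4)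
    (c8 : 2 * t + L ≠ 2 * N + x + 5)
    (c9 : 2 * t + L ≠ 2 * N + x + 6) :
    P (A N t) N x N L := by
  exact qh3 hD ⟨c0, c1, c2, c3, c4, c5, c6, c7, c8, c9, trivial⟩

/-- hypotheses -/
noncomputable def kh4 : List Fk.C :=
  [.le (.k 0) .x, .le .L (.add .t (.k 1)), .le (.add (.mul 3 .t) .x) (.add (.mul 2 .N) .L), .ne .L
  (.add .x (.k 2)), .ne .L (.add .x (.k 3)), .ne (.add (.add (.mul 2 .t) .x) (.k 2)) (.add .N .L),
  .ne (.add (.add (.mul 2 .t) .x) (.k 1)) (.add .N .L), .ne (.add (.mul 3 .t) .x) (.add (.mul 2 .N)
  .L), .ne (.add (.mul 3 .t) .x) (.add (.add (.mul 2 .N) .L) (.k 1))]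

theorem qh4 {N t x L : ℤ} (hD : D N t) : Fk.All ⟨N, t, x, 0, L⟩ kh4 → P (A N t) N x N L :=
  Fk.route (fam hD x 0 L) kh4 .N (.dn .x (.k 0))
    [(12, .up (.add (.sub (.mul 2 .N) (.mul 2 .t)) (.k 4)) .t), (9, .dn (.add (.sub (.mul 2 .N)
    (.mul 2 .t)) (.k 2)) (.add (.sub (.add .t .x) .L) (.k 2))), (0, .pt .N)]
    [.f 128, .f 8519808, .f 2416560628902642057483, .f 128, .f 128, .f 36873788893298816, .f
    549764989067, .f 9109632, .f 128, .f 128, .f 128, .f 128, .f 562649366656, .f 562649104514, .f
    8650880, .f 549764989195, .f 128, .f 128, .f 128, .f 128, .f 129, .f 8585344, .f 9240704, .f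
    128, .f 562649104514, .f 36029363963822347, .s 7 (.f 12648576) (.f 8454272), .s 8 (.f 12648576)
    (.f 8454272), .s 9 (.f 12648576) (.f 8454272), .f 8650944, .f 54043796832977028, .f
    54043796832977028, .f 128, .f 128, .f 2416595531808344113281, .f 9109632, .f
    4777779899684239442061, .f 128, .f 128, .f 128, .f 128]
    (by decide +kernel)

theorem hT4 {N t x L : ℤ} (hD : D N t)
    (c0 : (0 : ℤ) ≤ x)
    (c1 : L ≤ t + 1)
    (c2 : 3 * t + x ≤ 2 * N + L)
    (c3 : L ≠ x + 2)
    (c4 : L ≠ x + 3)
    (c5 : 2 * t + x + 2 ≠ N + L)
    (c6 : 2 * t + x + 1 ≠ N + L)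
    (c7 : 3 * t + x ≠ 2 * N + L)
    (c8 : 3 * t + x ≠ 2 * N + L + 1) :
    P (A N t) N x N L := by
  exact qh4 hD ⟨c0, c1, c2, c3, c4, c5, c6, c7, c8, trivial⟩

/-- hypotheses -/
noncomputable def kh5 : List Fk.C :=
  [.le (.add .N (.k 2)) (.add .t .x), .le (.add .N .L) (.add (.mul 2 .t) .x), .le (.add (.add (.mul
  3 .t) .x) (.k 1)) (.add (.mul 2 .N) .L), .le (.add (.mul 2 .t) .x) (.add (.mul 2 .N) (.k 1)), .ne
  .L (.add .x (.k 3)), .ne .L (.add .x (.k 4)), .ne (.add (.add .t .x) (.k 2)) (.add .N .L), .ne
  (.add (.add .t .x) (.k 1)) (.add .N .L), .ne (.add (.add (.mul 3 .t) .x) (.k 1)) (.add (.mul 2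
  .N) .L), .ne (.add (.mul 3 .t) .x) (.add (.mul 2 .N) .L)]

theorem qh5 {N t x L : ℤ} (hD : D N t) : Fk.All ⟨N, t, x, 0, L⟩ kh5 → P (A N t) N x N L :=
  Fk.route (fam hD x 0 L) kh5 .N (.dn .x (.add (.sub .N .t) (.k 2)))
    [(11, .up (.k 0) (.add (.sub .N .t) (.k 1))), (6, .dn (.sub .t (.k 1)) (.add (.sub (.mul 2 .N)
    (.mul 2 .t)) (.k 2))), (8, .up .t (.sub (.sub (.sub (.add (.mul 2 .N) .L) (.mul 2 .t)) .x) (.k
    1))), (0, .pt .N)]
    [.f 9175168, .f 8519808, .f 37436721675894925, .f 128, .f 128, .f 128, .f 9175168, .f
    549781766285, .f 128, .f 128, .f 128, .f 128, .f 129, .f 1112404918532, .f 549764989069, .f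
    9175168, .f 128, .f 128, .f 128, .f 128, .f 9175168, .f 8716416, .f 549781766285, .f 8650880,
    .f 8585344, .f 128, .f 128, .f 128, .f 128, .f 128, .f 36874321469964417, .f 37436721667506317,
    .f 9306240, .f 128, .f 36029363980599437, .f 8585344, .f 36029363972210829, .f
    36029363972210829, .f 36029363963822221, .f 36029363963822221, .f 8650880, .s 10 (.f 8454272)
    (.f 12648576), .f 128, .f 128, .f 8585344, .f 9175168, .f 605623943566, .f
    2453456650324859355396, .f 128, .f 128, .f 128, .f 128]
    (by decide +kernel)

theorem hT5 {N t x L : ℤ} (hD : D N t)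
    (c0 : N + 2 ≤ t + x)
    (c1 : N + L ≤ 2 * t + x)
    (c2 : 3 * t + x + 1 ≤ 2 * N + L)
    (c3 : 2 * t + x ≤ 2 * N + 1)
    (c4 : L ≠ x + 3)
    (c5 : L ≠ x + 4)
    (c6 : t + x + 2 ≠ N + L)
    (c7 : t + x + 1 ≠ N + L)
    (c8 : 3 * t + x + 1 ≠ 2 * N + L)
    (c9 : 3 * t + x ≠ 2 * N + L) :
    P (A N t) N x N L := by
  exact qh5 hD ⟨c0, c1, c2, c3, c4, c5, c6, c7, c8, c9, trivial⟩

/-- hypotheses -/
noncomputable def kh6 : List Fk.C :=
  [.le (.add (.add .N .x) (.k 3)) (.add .t .L), .le (.add .N .L) (.add (.mul 2 .t) .x), .le (.k 0)
  .x, .le (.add (.mul 2 .t) .x) (.add (.mul 2 .N) (.k 1)), .ne .L (.add .x (.k 1)), .ne .L (.add .x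
  (.k 2)), .ne (.add (.add (.mul 2 .t) .x) (.k 1)) (.add .N .L), .ne (.add (.mul 2 .t) .x) (.add .N
  .L), .ne (.add .t .L) (.add (.add .N .x) (.k 3)), .ne (.add .t .L) (.add (.add .N .x) (.k 4))]

theorem qh6 {N t x L : ℤ} (hD : D N t) : Fk.All ⟨N, t, x, 0, L⟩ kh6 → P (A N t) N x N L :=
  Fk.route (fam hD x 0 L) kh6 .N (.dn .x (.k 0))
    [(3, .dn (.sub .N (.k 1)) .t), (9, .up (.add (.sub (.mul 2 .N) (.mul 2 .t)) (.k 2)) (.sub (.sub
    (.sub (.add .N .L) .t) .x) (.k 1))), (0, .pt .N)]
    [.f 128, .f 8650880, .f 4722475977202538250499, .f 128, .f 128, .f 2416559503019914428549, .f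
    9175168, .f 128, .f 128, .f 128, .f 128, .f 128, .f 37436721666916482, .f 549764530308, .f
    8519808, .f 72058165277229315, .f 128, .f 128, .f 128, .f 128, .f 8585345, .f 8716416, .f
    9306240, .f 128, .f 36029368258265218, .f 72058165277229315, .f 37437280012730624, .f
    72058702148141189, .s 10 (.f 12648576) (.f 8454272), .s 11 (.f 12648576) (.f 8454272), .s 9 (.f
    8454272) (.f 12648576), .f 8585408, .f 128, .f 128, .f 72903118488338565, .f 128, .f
    4777816210505998663822, .f 128, .f 128, .f 128, .f 128]
    (by decide +kernel)

theorem hT6 {N t x L : ℤ} (hD : D N t)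
    (c0 : N + x + 3 ≤ t + L)
    (c1 : N + L ≤ 2 * t + x)
    (c2 : (0 : ℤ) ≤ x)
    (c3 : 2 * t + x ≤ 2 * N + 1)
    (c4 : L ≠ x + 1)
    (c5 : L ≠ x + 2)
    (c6 : 2 * t + x + 1 ≠ N + L)
    (c7 : 2 * t + x ≠ N + L)
    (c8 : t + L ≠ N + x + 3)
    (c9 : t + L ≠ N + x + 4) :
    P (A N t) N x N L := by
  exact qh6 hD ⟨c0, c1, c2, c3, c4, c5, c6, c7, c8, c9, trivial⟩

/-- hypotheses -/
noncomputable def kh7 : List Fk.C :=
  [.le (.add .N (.k 2)) (.add .t .x), .le (.add .x (.k 3)) .L, .le (.add .x (.k 2)) .t, .le (.add
  .t .L) (.add (.add .N .x) (.k 3)), .ne .L (.add .x (.k 3)), .ne .L (.add .x (.k 4)), .ne (.add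
  (.mul 2 .t) .L) (.add (.add .N .x) (.k 4)), .ne (.add (.mul 2 .t) .L) (.add (.add .N .x) (.k 5)),
  .ne (.add (.mul 3 .t) .L) (.add (.add (.mul 2 .N) .x) (.k 6)), .ne (.add (.mul 3 .t) .L) (.add
  (.add (.mul 2 .N) .x) (.k 7))]

theorem qh7 {N t x L : ℤ} (hD : D N t) : Fk.All ⟨N, t, x, 0, L⟩ kh7 → P (A N t) N x N L :=
  Fk.route (fam hD x 0 L) kh7 .N (.dn .x (.add (.sub .N .t) (.k 2)))
    [(11, .up (.k 0) (.add (.sub .N .t) (.k 1))), (6, .up (.sub .t (.k 1)) (.sub (.sub (.add .t .L)
    .x) (.k 4))), (0, .pt .N)]
    [.f 9175168, .f 8519808, .f 36029359668396164, .f 128, .f 128, .f 128, .f 9175168, .f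
    2435007091501374242949, .f 128, .f 128, .f 128, .f 128, .f 129, .f 2435007091501374242949, .f
    8585344, .f 8716416, .f 128, .f 128, .f 128, .f 128, .f 566944202880, .f 8650880, .f 9306240,
    .f 128, .f 2435043120298393206917, .f 8716416, .f 37155259574911106, .f 37155259574911106, .f
    36029359668854925, .f 36029359668854925, .s 6 (.f 12648576) (.f 8454272), .s 7 (.f 12648576)
    (.f 8454272), .f 128, .f 128, .f 8716416, .f 37155796445954190, .f 37155259574911109, .f 128,
    .f 128, .f 128, .f 128]
    (by decide +kernel)

theorem hT7 {N t x L : ℤ} (hD : D N t)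
    (c0 : N + 2 ≤ t + x)
    (c1 : x + 3 ≤ L)
    (c2 : x + 2 ≤ t)
    (c3 : t + L ≤ N + x + 3)
    (c4 : L ≠ x + 3)
    (c5 : L ≠ x + 4)
    (c6 : 2 * t + L ≠ N + x + 4)
    (c7 : 2 * t + L ≠ N + x + 5)
    (c8 : 3 * t + L ≠ 2 * N + x + 6)
    (c9 : 3 * t + L ≠ 2 * N + x + 7) :
    P (A N t) N x N L := by
  exact qh7 hD ⟨c0, c1, c2, c3, c4, c5, c6, c7, c8, c9, trivial⟩

/-- hypotheses -/
noncomputable def kh8 : List Fk.C :=
  [.le (.add .x (.k 3)) .L, .le (.k 0) .x, .le (.add (.mul 2 .t) .L) (.add (.mul 2 .N) (.k 6)), .ne
  .L (.add .x (.k 4)), .ne .L (.add .x (.k 5)), .ne (.add .t .L) (.add (.add .N .x) (.k 6)), .ne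
  (.add .t .L) (.add (.add .N .x) (.k 7)), .ne (.add (.mul 3 .t) .L) (.add (.add (.mul 2 .N) .x)
  (.k 7)), .ne (.add (.mul 3 .t) .L) (.add (.add (.mul 2 .N) .x) (.k 8))]

theorem qh8 {N t x L : ℤ} (hD : D N t) : Fk.All ⟨N, t, x, 0, L⟩ kh8 → P (A N t) N x N L :=
  Fk.route (fam hD x 0 L) kh8 .N (.dn .x (.k 0))
    [(12, .dn (.add (.sub (.mul 2 .N) (.mul 2 .t)) (.k 4)) (.add (.sub (.sub (.add (.mul 2 .N) .x)
    (.mul 2 .t)) .L) (.k 7))), (0, .pt .N)]
    [.f 128, .f 8585344, .f 2435006810026398187787, .f 128, .f 128, .f 566944268416, .f 8519808, .f
    549764989195, .f 128, .f 128, .f 128, .f 128, .f 8650880, .f 9240704, .f 128, .f 566944268416,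
    .f 36029355373887755, .s 8 (.f 8454272) (.f 12648576), .s 7 (.f 8454272) (.f 12648576), .s 6
    (.f 8454272) (.f 12648576), .s 5 (.f 8454272) (.f 12648576), .f 36592343985422476, .f
    36592343985422476, .f 128, .f 128, .f 549773312140, .f 4796226080807995572365, .f 128, .f 128,
    .f 128, .f 128]
    (by decide +kernel)

theorem hT8 {N t x L : ℤ} (hD : D N t)
    (c0 : x + 3 ≤ L)
    (c1 : (0 : ℤ) ≤ x)
    (c2 : 2 * t + L ≤ 2 * N + 6)
    (c3 : L ≠ x + 4)
    (c4 : L ≠ x + 5)
    (c5 : t + L ≠ N + x + 6)
    (c6 : t + L ≠ N + x + 7)
    (c7 : 3 * t + L ≠ 2 * N + x + 7)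
    (c8 : 3 * t + L ≠ 2 * N + x + 8) :
    P (A N t) N x N L := by
  exact qh8 hD ⟨c0, c1, c2, c3, c4, c5, c6, c7, c8, trivial⟩

/-- hypotheses -/
noncomputable def kh9 : List Fk.C :=
  [.le (.add (.add .N .L) (.k 2)) (.add (.mul 2 .t) .x), .le (.add .x (.k 3)) .L, .le (.k 0) .x,
  .le (.add (.mul 2 .t) .x) (.add (.mul 2 .N) (.k 3)), .ne .L (.add .x (.k 1)), .ne .L (.add .x (.k
  2)), .ne (.add .t .x) (.add .N .L), .ne (.add .t .x) (.add (.add .N .L) (.k 1)), .ne (.add (.mul
  3 .t) .x) (.add (.add (.mul 2 .N) .L) (.k 1)), .ne (.add (.mul 3 .t) .x) (.add (.add (.mul 2 .N)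
  .L) (.k 2))]

theorem qh9 {N t x L : ℤ} (hD : D N t) : Fk.All ⟨N, t, x, 0, L⟩ kh9 → P (A N t) N x N L :=
  Fk.route (fam hD x 0 L) kh9 .N (.dn .x (.k 0))
    [(12, .up (.add (.sub (.mul 2 .N) (.mul 2 .t)) (.k 4)) (.add (.sub (.sub (.add (.mul 2 .N) .L)
    (.mul 2 .t)) .x) (.k 1))), (0, .pt .N)]
    [.f 128, .f 8650880, .f 36029359668199557, .f 128, .f 128, .f 549764464773, .f 8585344, .f
    8519808, .f 128, .f 128, .f 128, .f 128, .f 8716416, .f 9306240, .f 128, .f 36029359668330629,
    .f 8519808, .f 72058706443108485, .f 72058706443108485, .f 8585344, .f 8585344, .s 11 (.f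
    8454272) (.f 12648576), .s 10 (.f 8454272) (.f 12648576), .f 128, .f 128, .f 8519808, .f
    37436721666850947, .f 128, .f 128, .f 128, .f 128]
    (by decide +kernel)

theorem hT9 {N t x L : ℤ} (hD : D N t)
    (c0 : N + L + 2 ≤ 2 * t + x)
    (c1 : x + 3 ≤ L)
    (c2 : (0 : ℤ) ≤ x)
    (c3 : 2 * t + x ≤ 2 * N + 3)
    (c4 : L ≠ x + 1)
    (c5 : L ≠ x + 2)
    (c6 : t + x ≠ N + L)
    (c7 : t + x ≠ N + L + 1)
    (c8 : 3 * t + x ≠ 2 * N + L + 1)
    (c9 : 3 * t + x ≠ 2 * N + L + 2) :
    P (A N t) N x N L := by
  exact qh9 hD ⟨c0, c1, c2, c3, c4, c5, c6, c7, c8, c9, trivial⟩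

/-- hypotheses -/
noncomputable def kh10 : List Fk.C :=
  [.le (.add .N (.k 1)) (.add .t .x), .le (.add .x (.k 3)) .L, .le (.add .x (.k 2)) .t, .le (.add
  .t .L) (.add (.add .N .x) (.k 3)), .ne .L (.add (.add .t .x) (.k 2)), .ne .L (.add (.add .t .x)
  (.k 3)), .ne (.add .t .L) (.add (.add .N .x) (.k 3)), .ne (.add .t .L) (.add (.add .N .x) (.k
  4)), .ne (.add (.mul 2 .t) .L) (.add (.add (.mul 2 .N) .x) (.k 5)), .ne (.add (.mul 2 .t) .L)
  (.add (.add (.mul 2 .N) .x) (.k 6))]

theorem qh10 {N t x L : ℤ} (hD : D N t) : Fk.All ⟨N, t, x, 0, L⟩ kh10 → P (A N t) N x N L :=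
  Fk.route (fam hD x 0 L) kh10 .N (.dn .x (.add (.sub .N .t) (.k 1)))
    [(6, .up (.sub .t (.k 1)) (.sub .N (.k 1))), (2, .up (.k 0) (.sub (.sub .L .x) (.k 3))), (0,
    .pt .N)]
    [.f 9175168, .f 8519808, .f 36029359668396164, .f 128, .f 128, .f 2435007091501374242949, .f
    9175168, .f 128, .f 128, .f 128, .f 128, .f 128, .f 8650880, .f 128, .f 8585344, .f
    2361220115777766686852, .f 128, .f 128, .f 128, .f 128, .f 37155250985304194, .f 8716417, .f
    9306240, .f 128, .f 8585344, .f 2361220115777766686852, .s 8 (.f 12648576) (.f 8454272), .f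
    8716480, .f 824642306309, .f 824642306309, .f 54043766767616132, .f 54043766767616132, .f 128,
    .f 128, .f 2435042276444693725326, .f 128, .f 37155259574911109, .f 128, .f 128, .f 128, .f
    128]
    (by decide +kernel)

theorem hT10 {N t x L : ℤ} (hD : D N t)
    (c0 : N + 1 ≤ t + x)
    (c1 : x + 3 ≤ L)
    (c2 : x + 2 ≤ t)
    (c3 : t + L ≤ N + x + 3)
    (c4 : L ≠ t + x + 2)
    (c5 : L ≠ t + x + 3)
    (c6 : t + L ≠ N + x + 3)
    (c7 : t + L ≠ N + x + 4)
    (c8 : 2 * t + L ≠ 2 * N + x + 5)
    (c9 : 2 * t + L ≠ 2 * N + x + 6) :
    P (A N t) N x N L := by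
  exact qh10 hD ⟨c0, c1, c2, c3, c4, c5, c6, c7, c8, c9, trivial⟩

/-- hypotheses -/
noncomputable def kh11 : List Fk.C :=
  [.le (.k 2) .L, .le .L (.add .x (.k 2)), .le (.add .x (.k 1)) .N, .ne (.add .x (.k 3)) (.add .t
  .L), .ne (.add .x (.k 2)) (.add .t .L), .ne (.add (.add .t .x) (.k 2)) (.add .N .L), .ne (.add
  (.add .t .x) (.k 1)) (.add .N .L), .ne (.add (.mul 2 .t) .x) (.add (.mul 2 .N) .L), .ne (.add
  (.mul 2 .t) .x) (.add (.add (.mul 2 .N) .L) (.k 1))]

theorem qh11 {N t x L : ℤ} (hD : D N t) : Fk.All ⟨N, t, x, 0, L⟩ kh11 → P (A N t) N x N L :=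
  Fk.route (fam hD x 0 L) kh11 .N (.dn .x (.add (.sub .x .L) (.k 2)))
    [(0, .pt .N)]
    [.f 8585344, .f 8519808, .f 8650880, .f 128, .f 128, .f 9240704, .f 128, .f 8585344, .f
    549764333700, .s 7 (.f 12648576) (.f 8454272), .s 8 (.f 12648576) (.f 8454272), .s 9 (.f
    12648576) (.f 8454272), .s 10 (.f 12648576) (.f 8454272), .s 5 (.f 12648576) (.f 8454272), .s 6
    (.f 12648576) (.f 8454272), .f 128, .f 128, .f 8650880, .f 128, .f 128, .f 128, .f 128]
    (by decide +kernel)

theorem hT11 {N t x L : ℤ} (hD : D N t)
    (c0 : (2 : ℤ) ≤ L)
    (c1 : L ≤ x + 2)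
    (c2 : x + 1 ≤ N)
    (c3 : x + 3 ≠ t + L)
    (c4 : x + 2 ≠ t + L)
    (c5 : t + x + 2 ≠ N + L)
    (c6 : t + x + 1 ≠ N + L)
    (c7 : 2 * t + x ≠ 2 * N + L)
    (c8 : 2 * t + x ≠ 2 * N + L + 1) :
    P (A N t) N x N L := by
  exact qh11 hD ⟨c0, c1, c2, c3, c4, c5, c6, c7, c8, trivial⟩

/-- hypotheses -/
noncomputable def kh12 : List Fk.C :=
  [.le (.k 2) .L, .le (.k 0) .x, .le (.add .x .L) (.add .N (.k 1)), .ne (.add .x .L) (.add .t (.k
  1)), .ne (.add .x .L) (.add .t (.k 2)), .ne (.add (.add .t .x) .L) (.add .N (.k 2)), .ne (.add
  (.add .t .x) .L) (.add .N (.k 3)), .ne (.add (.add (.mul 2 .t) .x) .L) (.add (.mul 2 .N) (.k 4)),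
  .ne (.add (.add (.mul 2 .t) .x) .L) (.add (.mul 2 .N) (.k 5))]

theorem qh12 {N t x L : ℤ} (hD : D N t) : Fk.All ⟨N, t, x, 0, L⟩ kh12 → P (A N t) N x N L :=
  Fk.route (fam hD x 0 L) kh12 .N (.up .x (.sub (.add .x .L) (.k 2)))
    [(0, .pt .N)]
    [.f 8585344, .f 8519808, .f 8650880, .f 128, .f 128, .f 9240704, .f 128, .f 549764333699, .f
    8650880, .s 7 (.f 12648576) (.f 8454272), .s 8 (.f 12648576) (.f 8454272), .s 9 (.f 12648576)
    (.f 8454272), .s 10 (.f 12648576) (.f 8454272), .s 5 (.f 12648576) (.f 8454272), .s 6 (.f
    12648576) (.f 8454272), .f 128, .f 128, .f 8650880, .f 128, .f 128, .f 128, .f 128]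
    (by decide +kernel)

theorem hT12 {N t x L : ℤ} (hD : D N t)
    (c0 : (2 : ℤ) ≤ L)
    (c1 : (0 : ℤ) ≤ x)
    (c2 : x + L ≤ N + 1)
    (c3 : x + L ≠ t + 1)
    (c4 : x + L ≠ t + 2)
    (c5 : t + x + L ≠ N + 2)
    (c6 : t + x + L ≠ N + 3)
    (c7 : 2 * t + x + L ≠ 2 * N + 4)
    (c8 : 2 * t + x + L ≠ 2 * N + 5) :
    P (A N t) N x N L := by
  exact qh12 hD ⟨c0, c1, c2, c3, c4, c5, c6, c7, c8, trivial⟩

/-- hypotheses -/
noncomputable def kh13 : List Fk.C :=
  [.le (.add (.mul 2 .N) (.k 4)) (.add (.mul 2 .t) .x), .le .L (.add .x (.k 2)), .le (.add .x (.k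
  1)) .N, .le (.add (.mul 2 .t) .x) (.add (.add (.mul 2 .N) .L) (.k 1)), .ne .L (.add .x (.k 1)),
  .ne .L (.add .x (.k 2)), .ne (.add .t .x) (.add .N .L), .ne (.add .t .x) (.add (.add .N .L) (.k
  1)), .ne (.add (.mul 3 .t) .x) (.add (.add (.mul 2 .N) .L) (.k 1)), .ne (.add (.mul 3 .t) .x)
  (.add (.add (.mul 2 .N) .L) (.k 2))]

theorem qh13 {N t x L : ℤ} (hD : D N t) : Fk.All ⟨N, t, x, 0, L⟩ kh13 → P (A N t) N x N L :=
  Fk.route (fam hD x 0 L) kh13 .N (.dn .x (.add (.sub (.mul 2 .N) (.mul 2 .t)) (.k 4)))
    [(13, .up (.k 0) (.add (.sub (.sub (.add (.mul 2 .N) .L) (.mul 2 .t)) .x) (.k 1))), (0, .pt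
    .N)]
    [.f 562649432192, .f 8519808, .f 8650880, .f 128, .f 128, .f 128, .f 8716416, .f
    37155246690205826, .f 128, .f 128, .f 128, .f 128, .f 8585345, .f 9306240, .f 128, .f 8716416,
    .f 37155246690205826, .s 9 (.f 8454272) (.f 12648576), .s 8 (.f 8454272) (.f 12648576), .s 6
    (.f 12648576) (.f 8454272), .s 7 (.f 12648576) (.f 8454272), .f 54043796833108099, .f
    2601028070464370639107, .f 128, .f 128, .f 37155246690205826, .f 8650880, .f 128, .f 128, .f
    128, .f 128]
    (by decide +kernel)

theorem hT13 {N t x L : ℤ} (hD : D N t)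
    (c0 : 2 * N + 4 ≤ 2 * t + x)
    (c1 : L ≤ x + 2)
    (c2 : x + 1 ≤ N)
    (c3 : 2 * t + x ≤ 2 * N + L + 1)
    (c4 : L ≠ x + 1)
    (c5 : L ≠ x + 2)
    (c6 : t + x ≠ N + L)
    (c7 : t + x ≠ N + L + 1)
    (c8 : 3 * t + x ≠ 2 * N + L + 1)
    (c9 : 3 * t + x ≠ 2 * N + L + 2) :
    P (A N t) N x N L := by
  exact qh13 hD ⟨c0, c1, c2, c3, c4, c5, c6, c7, c8, c9, trivial⟩

/-- hypotheses -/
noncomputable def kh14 : List Fk.C :=
  [.le (.add .N (.k 2)) (.add .t .x), .le .L (.add .x (.k 2)), .le (.add (.add .t .x) (.k 1)) (.add
  .N .L), .le (.add .x (.k 1)) .N, .ne .L (.add .x (.k 1)), .ne .L (.add .x (.k 2)), .ne (.add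
  (.add (.mul 2 .t) .x) (.k 1)) (.add .N .L), .ne (.add (.mul 2 .t) .x) (.add .N .L), .ne (.add .t
  .L) (.add (.add .N .x) (.k 3)), .ne (.add .t .L) (.add (.add .N .x) (.k 4))]

theorem qh14 {N t x L : ℤ} (hD : D N t) : Fk.All ⟨N, t, x, 0, L⟩ kh14 → P (A N t) N x N L :=
  Fk.route (fam hD x 0 L) kh14 .N (.dn .x (.add (.sub .N .t) (.k 2)))
    [(11, .up (.k 0) (.sub (.sub (.sub (.add .N .L) .t) .x) (.k 1))), (0, .pt .N)]
    [.f 9175168, .f 8519808, .f 8716416, .f 128, .f 128, .f 128, .f 8650880, .f 36029359668199557,
    .f 128, .f 128, .f 128, .f 128, .f 8585345, .f 9306240, .f 128, .f 8650880, .f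
    36029359668199557, .s 6 (.f 12648576) (.f 8454272), .s 7 (.f 12648576) (.f 8454272), .f
    562653298828, .f 824642371843, .f 54044346588266637, .f 2601064381286130516355, .f 128, .f 128,
    .f 37436721666916482, .f 8716416, .f 128, .f 128, .f 128, .f 128]
    (by decide +kernel)

theorem hT14 {N t x L : ℤ} (hD : D N t)
    (c0 : N + 2 ≤ t + x)
    (c1 : L ≤ x + 2)
    (c2 : t + x + 1 ≤ N + L)
    (c3 : x + 1 ≤ N)
    (c4 : L ≠ x + 1)
    (c5 : L ≠ x + 2)
    (c6 : 2 * t + x + 1 ≠ N + L)
    (c7 : 2 * t + x ≠ N + L)
    (c8 : t + L ≠ N + x + 3)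
    (c9 : t + L ≠ N + x + 4) :
    P (A N t) N x N L := by
  exact qh14 hD ⟨c0, c1, c2, c3, c4, c5, c6, c7, c8, c9, trivial⟩


/-- table of hypotheses -/
noncomputable def tabh : List (List Fk.C) :=
  [kh0, kh1, kh2, kh3, kh4, kh5, kh6, kh7, kh8, kh9, kh10, kh11, kh12, kh13, kh14]

theorem tbh {N t x L : ℤ} (hD : D N t) : Fk.Tab ⟨N, t, x, 0, L⟩ (P (A N t) N x N L) tabh :=
  ⟨qh0 hD, qh1 hD, qh2 hD, qh3 hD, qh4 hD, qh5 hD, qh6 hD, qh7 hD, qh8 hD, qh9 hD, qh10 hD, qh11
  hD, qh12 hD, qh13 hD, qh14 hD, trivial⟩

theorem hn0 {N t x L : ℤ} (hD : D N t)
    (h0 : (0 : ℤ) ≤ x)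
    (h1 : x + 1 ≤ N)
    (h2 : (5 : ℤ) ≤ L)
    (h3 : L ≤ N + 1)
    (h4 : L ≠ t + 2) :
    P (A N t) N x N L := by
  exact Fk.tree (fam hD x 0 L) (tbh hD)
    [.le (.k 0) .x, .le (.add .x (.k 1)) .N, .le (.k 5) .L, .le .L (.add .N (.k 1)), .ne .L (.add
    .t (.k 2))]
    (.nd (.add .x (.k 3)) .L (.nd (.add (.add .N .x) (.k 3)) (.add .t .L) (.nd (.add (.add .N .x)
    (.k 4)) (.add .t .L) (.nd (.add (.add .N .L) (.k 2)) (.add (.mul 2 .t) .x) (.lf 0 [.f 8716416,
    .f 8781952, .f 8978560, .f 38563446207676546, .f 38563446207676546, .f 8519808, .f 8519808, .f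
    8585344, .f 8585344]) (.nd (.add (.mul 2 .t) .x) (.add .N .L) (.nd (.add (.add (.mul 2 .t) .x)
    (.k 1)) (.add .N .L) (.nd .L (.add .t .x) (.lf 0 [.f 8913024, .f 8978560, .f 9175168, .f
    8519872, .f 8519872, .f 8585408, .f 8585408, .f 8781952, .f 8781952]) (.nd (.add (.add .t .x)
    (.k 2)) .L (.nd (.add (.add .t .x) (.k 3)) .L (.lf 0 [.f 9044096, .f 9109632, .f 9306240, .f
    8519808, .f 8519808, .f 8716480, .f 8716480, .f 8913024, .f 8913024]) (.nd (.add .x .L) (.add
    .N (.k 2)) (.lf 1 [.f 2361224337932491489412, .s 16 (.f 571239891072) (.f 554059169924), .f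
    558354530560, .f 8519808, .s 16 (.f 1099520344257) (.f 554067558532), .s 16 (.f 1099520344257)
    (.f 554067558532), .f 8519872, .f 8519872, .f 2435011032752344662144, .f
    2435011032752344662144]) (.lf 2 [.f 8519808, .f 9240704, .f 9371776, .f 824642699535, .f
    824642699535, .f 566953443520, .f 824642371855, .f 54044312228463119, .f 54044312228463119])))
    (.lf 3 [.f 8847488, .f 9044096, .f 8519808, .f 562649956480, .f 8519872, .f 8519872, .f
    8847488, .f 36029359669117199, .f 36029359669117071, .f 36029359669117071]))) (.nd .L (.add .t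
    (.k 1)) (.lf 4 [.f 8978560, .f 8519808, .f 72058182457622916, .f 8913024, .f
    2471902831998362845316, .f 8585344, .f 8585344, .f 609894006976, .f 39407085175439680]) (.lf 5
    [.f 549764333699, .f 8585344, .f 37155255279943820, .f 566944071820, .f 37718205241753738, .f
    36029355373887622, .f 824642240650, .f 824642240650, .f 566944989376, .f 37155298229747904])))
    (.nd (.add (.mul 2 .t) .x) (.add (.mul 2 .N) (.k 1)) (.lf 6 [.f 8716416, .f 8585344, .f
    8913024, .f 8519808, .f 8847488, .f 8847488, .f 8585344, .f 8585344, .f 8716416, .f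
    37155302525501568]) (.lf 2 [.f 37155852288917632, .f 8978560, .f 9109632, .f 571248148672, .f
    571248148672, .f 37155246698528909, .f 37155302524584194, .f 566953181376, .f 566953181376]))))
    (.nd (.add .N (.k 2)) (.add .t .x) (.lf 7 [.f 8519808, .f 8716416, .f 566944661632, .f 8585344,
    .f 566944792704, .f 566944792704, .f 37155276754911360, .f 37155246690140295, .f
    73184082363809920, .f 36029398323036427]) (.nd (.add .x (.k 6)) .L (.lf 8 [.f 8519808, .f
    8847488, .f 562649366656, .f 8519808, .f 8519808, .f 8650944, .f 8650944, .f 36029905129767044,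
    .f 36029905129767044]) (.lf 9 [.f 36592352571162892, .f 8781952, .f 8847488, .f
    36873797483364480, .f 8781952, .f 8781952, .f 566952853696, .f 566952853696, .f 549765054596,
    .f 144679808780861568])))) (.nd (.add .t .L) (.add (.add .N .x) (.k 1)) (.lf 0 [.f 8650880, .f
    8716416, .f 8913024, .f 73184318587601282, .f 73184318587601282, .f 37155246690730242, .f
    37155246690730242, .f 8519872, .f 8519872]) (.nd (.add .N (.k 1)) (.add .t .x) (.nd (.add .x
    (.k 2)) .t (.lf 10 [.f 8585344, .f 8781952, .f 8519808, .f 8716416, .f 36874046591336581, .f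
    36874046591336581, .f 8716480, .f 8716480, .f 575542722752, .f 575542722752]) (.lf 2 [.f
    36592296736981123, .f 8913024, .f 9044096, .f 566953115840, .f 566953115840, .f
    2361258677295525986562, .f 2435045653573191991437, .f 2435006247127984439554, .f
    2435006247127984439554])) (.lf 9 [.f 36029398323036299, .f 8716416, .f 8781952, .f
    36592318211686528, .f 8716416, .f 8716416, .f 566952788160, .f 824642371845, .f 549764989060,
    .f 566944071820])))) (.nd (.add .N .L) (.add (.add .t .x) (.k 1)) (.nd (.add .N .L) (.add .t
    .x) (.nd (.add (.add (.mul 2 .N) .L) (.k 1)) (.add (.mul 2 .t) .x) (.nd (.add (.add (.mul 2 .N)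
    .L) (.k 2)) (.add (.mul 2 .t) .x) (.nd (.add .x (.k 4)) (.add .t .L) (.lf 11 [.f 9044096, .f
    8847488, .f 8978560, .f 8519872, .f 8519872, .f 8716416, .f 8716416, .f 8585344, .f 8585344])
    (.nd (.add .N (.k 2)) (.add .x .L) (.lf 2 [.f 8519808, .f 9044096, .f 9175168, .f
    3541921792648431272067, .f 3541921792648431272067, .f 562658148544, .f 562658148544, .f
    72904260949508288, .f 72904260949508288]) (.lf 12 [.f 9109632, .f 8978560, .f 8519808, .f
    549773312131, .f 549773312131, .f 2361330453410291646594, .f 2361330453410291646594, .f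
    549773312132, .f 549773312132]))) (.lf 13 [.f 549764792451, .f 8781952, .f 8913024, .f 8519808,
    .f 824651284611, .f 558358331652, .f 562649104524, .f 562649104524, .f 7138928519177243721984,
    .f 2416562036294705217664])) (.nd (.add (.add (.mul 2 .t) .x) (.k 1)) (.add (.mul 2 .N) .L)
    (.lf 11 [.f 8978560, .f 8781952, .f 8913024, .f 2398115292259650371904, .f
    2398115292259650371904, .f 8650880, .f 8650880, .f 8519872, .f 8519872]) (.lf 13 [.f
    549764792450, .f 8781952, .f 8913024, .f 8585344, .f 562653298948, .f 562653298948, .f
    558354923648, .f 558354137228, .f 2398115292220995666048, .f 2398115292220995666048]))) (.lf 14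
    [.f 562649563264, .f 8650880, .f 8519808, .f 8781952, .f 824642764931, .f 824642764931, .f
    72902598797426816, .f 72902598797426816, .f 824651153539, .f 1116700016832])) (.nd (.add (.add
    .t .x) (.k 3)) (.add .N .L) (.lf 11 [.f 8847488, .f 8650880, .f 8781952, .f
    2398150758098134237632, .f 2398150758098134237632, .f 8519872, .f 8519872, .f 566948266242, .f
    566952591552]) (.lf 14 [.f 558354595968, .f 8650880, .f 8585344, .f 8781952, .f 824642764930,
    .f 824642764930, .f 72621123820716160, .f 72621123820716160, .f 1116700082368, .f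
    1116700082368]))))
    (by decide +kernel) ⟨h0, h1, h2, h3, h4, trivial⟩



variable {N t : ℤ} {f : ℤ → ℤ}

theorem thread (c d : ℤ) (h : A N t c d) (hN : c ≠ N)
    (l0 : c ≠ (0 : ℤ))
    (l1 : c ≠ N - 1)
    (l2 : c ≠ N - t)
    (l3 : c ≠ 2 * N - 2 * t + 3)
    (l4 : c ≠ N - t + 1)
    (l5 : c ≠ t - 1)
    (l6 : c ≠ 2 * N - 2 * t + 2)
    (l7 : c ≠ t)
    : d = c + 1 ∨ d = c - 1 ∨ d = N ∨ d = 0 := by
  rcases h.2 with (⟨a1, a2, a3⟩ | ⟨a1, a2⟩ | ⟨a1, a2⟩ | ⟨a1, a2⟩ | ⟨a1, a2⟩ | ⟨a1, a2⟩ | ⟨a1, a2⟩ | ⟨a1, a2⟩) | (⟨a1, a2, a3⟩ | ⟨a1, a2⟩ | ⟨a1, a2⟩ | ⟨a1, a2⟩ | ⟨a1, a2⟩ | ⟨a1, a2⟩ | ⟨a1, a2⟩ | ⟨a1, a2⟩) <;> omega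

theorem nb (h : W (A N t) 0 N (t + 1) f) (hD : D N t) (i : ℤ) (h0 : 0 ≤ i) (h1 : i < t) :
    (f (i + 1) = f i + 1 ∧ f i + 1 < N) ∨
    (f (i + 1) = f i - 1 ∧ 1 ≤ f i) ∨
    (f i = N - 1 ∧ f (i + 1) = (0 : ℤ)) ∨
    (f i = (0 : ℤ) ∧ f (i + 1) = N - 1) ∨
    (f i = N - t ∧ f (i + 1) = 2 * N - 2 * t + 3) ∨
    (f i = 2 * N - 2 * t + 3 ∧ f (i + 1) = N - t) ∨
    (f i = N - t + 1 ∧ f (i + 1) = t - 1) ∨
    (f i = t - 1 ∧ f (i + 1) = N - t + 1) ∨
    (f i = 2 * N - 2 * t + 2 ∧ f (i + 1) = t) ∨
    (f i = t ∧ f (i + 1) = 2 * N - 2 * t + 2) ∨
    (f i = (0 : ℤ) ∧ f (i + 1) = N - t + 2) ∨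
    (f i = N - t + 2 ∧ f (i + 1) = (0 : ℤ)) ∨
    (f i = (0 : ℤ) ∧ f (i + 1) = 2 * N - 2 * t + 4) ∨
    (f i = 2 * N - 2 * t + 4 ∧ f (i + 1) = (0 : ℤ)) := by
  have e1 : f i ≠ N := fun e => by
    have := h.inj i (t + 1) (by omega) (by omega) (by omega) (by omega) (by rw [h.hT]; exact e)
    omega
  have e2 : f (i + 1) ≠ N := fun e => by
    have := h.inj (i + 1) (t + 1) (by omega) (by omega) (by omega) (by omega) (by rw [h.hT]; exact e)
    omega
  rcases (h.adj i h0 (by omega)).2 with (⟨a1, a2, a3⟩ | ⟨a1, a2⟩ | ⟨a1, a2⟩ | ⟨a1, a2⟩ | ⟨a1, a2⟩ | ⟨a1, a2⟩ | ⟨a1, a2⟩ | ⟨a1, a2⟩) | (⟨a1, a2, a3⟩ | ⟨a1, a2⟩ | ⟨a1, a2⟩ | ⟨a1, a2⟩ | ⟨a1, a2⟩ | ⟨a1, a2⟩ | ⟨a1, a2⟩ | ⟨a1, a2⟩)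
  · exact (Or.inl ⟨by omega, by omega⟩)
  · exact absurd a1 e1
  · exact (Or.inr (Or.inr (Or.inl ⟨a1, a2⟩)))
  · exact (Or.inr (Or.inr (Or.inr (Or.inr (Or.inl ⟨a1, a2⟩)))))
  · exact (Or.inr (Or.inr (Or.inr (Or.inr (Or.inr (Or.inr (Or.inl ⟨a1, a2⟩)))))))
  · exact (Or.inr (Or.inr (Or.inr (Or.inr (Or.inr (Or.inr (Or.inr (Or.inr (Or.inl ⟨a1, a2⟩)))))))))
  · exact (Or.inr (Or.inr (Or.inr (Or.inr (Or.inr (Or.inr (Or.inr (Or.inr (Or.inr (Or.inr (Or.inl ⟨a1, a2⟩)))))))))))
  · exact (Or.inr (Or.inr (Or.inr (Or.inr (Or.inr (Or.inr (Or.inr (Or.inr (Or.inr (Or.inr (Or.inr (Or.inr (Or.inl ⟨a1, a2⟩)))))))))))))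
  · exact (Or.inr (Or.inl ⟨by omega, by omega⟩))
  · exact absurd a1 e2
  · exact (Or.inr (Or.inr (Or.inr (Or.inl ⟨a2, a1⟩))))
  · exact (Or.inr (Or.inr (Or.inr (Or.inr (Or.inr (Or.inl ⟨a2, a1⟩))))))
  · exact (Or.inr (Or.inr (Or.inr (Or.inr (Or.inr (Or.inr (Or.inr (Or.inl ⟨a2, a1⟩))))))))
  · exact (Or.inr (Or.inr (Or.inr (Or.inr (Or.inr (Or.inr (Or.inr (Or.inr (Or.inr (Or.inl ⟨a2, a1⟩))))))))))
  · exact (Or.inr (Or.inr (Or.inr (Or.inr (Or.inr (Or.inr (Or.inr (Or.inr (Or.inr (Or.inr (Or.inr (Or.inl ⟨a2, a1⟩))))))))))))
  · exact (Or.inr (Or.inr (Or.inr (Or.inr (Or.inr (Or.inr (Or.inr (Or.inr (Or.inr (Or.inr (Or.inr (Or.inr (Or.inr ⟨a2, a1⟩)))))))))))))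

theorem fin (h : W (A N t) 0 N (t + 1) f) (hD : D N t) {c : ℤ} (hv : V f t c)
    (e : c = N - t ∨ c = N - t + 1 ∨ c = 2 * N - 2 * t + 2 ∨ c = 2 * N - 2 * t + 3 ∨ c = t - 1 ∨ c = t) : False := by
  have h1 := h.adj t (by unfold D at hD; omega) (by omega)
  rw [h.hT, show f t = c from hv] at h1
  unfold D at hD
  rcases h1.2 with (⟨a1, a2, a3⟩ | ⟨a1, a2⟩ | ⟨a1, a2⟩ | ⟨a1, a2⟩ | ⟨a1, a2⟩ | ⟨a1, a2⟩ | ⟨a1, a2⟩ | ⟨a1, a2⟩) | (⟨a1, a2, a3⟩ | ⟨a1, a2⟩ | ⟨a1, a2⟩ | ⟨a1, a2⟩ | ⟨a1, a2⟩ | ⟨a1, a2⟩ | ⟨a1, a2⟩ | ⟨a1, a2⟩) <;> omega

theorem nb0 (h : W (A N t) 0 N (t + 1) f) (hD : D N t) {i : ℤ} (hv : V f i (0 : ℤ))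
    (e : 0 ≤ i ∧ i < t) :
    V f (i + 1) (1 : ℤ) ∨ V f (i + 1) (N - 1) ∨ V f (i + 1) (N - t + 2) ∨ V f (i + 1) (2 * N - 2 * t + 4) := by
  have := nb h hD i e.1 e.2
  unfold V at *
  unfold D at hD
  omega

theorem th1 (hD : D N t) : Th (A N t) N 0 (0 : ℤ) (N - t) := by
  intro c d h1 h2 h3
  unfold D at hD
  exact thread c d h3 (by omega) (by omega) (by omega) (by omega) (by omega) (by omega) (by omega) (by omega) (by omega)

theorem nb2 (h : W (A N t) 0 N (t + 1) f) (hD : D N t) {i : ℤ} (hv : V f i (N - t))
    (e : 0 ≤ i ∧ i < t) :
    V f (i + 1) (N - t + 1) ∨ V f (i + 1) (N - t - 1) ∨ V f (i + 1) (2 * N - 2 * t + 3) := by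
  have := nb h hD i e.1 e.2
  unfold V at *
  unfold D at hD
  omega

theorem th3 (hD : D N t) : Th (A N t) N 0 (N - t) (N - t + 1) := by
  intro c d h1 h2 h3
  unfold D at hD
  exact thread c d h3 (by omega) (by omega) (by omega) (by omega) (by omega) (by omega) (by omega) (by omega) (by omega)

theorem nb4 (h : W (A N t) 0 N (t + 1) f) (hD : D N t) {i : ℤ} (hv : V f i (N - t + 1))
    (e : 0 ≤ i ∧ i < t) :
    V f (i + 1) (N - t + 2) ∨ V f (i + 1) (N - t) ∨ V f (i + 1) (t - 1) := by
  have := nb h hD i e.1 e.2
  unfold V at *
  unfold D at hD
  omega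

theorem th5 (hD : D N t) : Th (A N t) N 0 (N - t + 1) (2 * N - 2 * t + 2) := by
  intro c d h1 h2 h3
  unfold D at hD
  exact thread c d h3 (by omega) (by omega) (by omega) (by omega) (by omega) (by omega) (by omega) (by omega) (by omega)

theorem nb6 (h : W (A N t) 0 N (t + 1) f) (hD : D N t) {i : ℤ} (hv : V f i (2 * N - 2 * t + 2))
    (e : 0 ≤ i ∧ i < t) :
    V f (i + 1) (2 * N - 2 * t + 3) ∨ V f (i + 1) (2 * N - 2 * t + 1) ∨ V f (i + 1) t := by
  have := nb h hD i e.1 e.2
  unfold V at *
  unfold D at hD
  omega

theorem th7 (hD : D N t) : Th (A N t) N 0 (2 * N - 2 * t + 2) (2 * N - 2 * t + 3) := by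
  intro c d h1 h2 h3
  unfold D at hD
  exact thread c d h3 (by omega) (by omega) (by omega) (by omega) (by omega) (by omega) (by omega) (by omega) (by omega)

theorem nb8 (h : W (A N t) 0 N (t + 1) f) (hD : D N t) {i : ℤ} (hv : V f i (2 * N - 2 * t + 3))
    (e : 0 ≤ i ∧ i < t) :
    V f (i + 1) (2 * N - 2 * t + 4) ∨ V f (i + 1) (2 * N - 2 * t + 2) ∨ V f (i + 1) (N - t) := by
  have := nb h hD i e.1 e.2
  unfold V at *
  unfold D at hD
  omega

theorem th9 (hD : D N t) : Th (A N t) N 0 (2 * N - 2 * t + 3) (t - 1) := by
  intro c d h1 h2 h3
  unfold D at hD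
  exact thread c d h3 (by omega) (by omega) (by omega) (by omega) (by omega) (by omega) (by omega) (by omega) (by omega)

theorem nb10 (h : W (A N t) 0 N (t + 1) f) (hD : D N t) {i : ℤ} (hv : V f i (t - 1))
    (e : 0 ≤ i ∧ i < t) :
    V f (i + 1) t ∨ V f (i + 1) (t - 2) ∨ V f (i + 1) (N - t + 1) := by
  have := nb h hD i e.1 e.2
  unfold V at *
  unfold D at hD
  omega

theorem th11 (hD : D N t) : Th (A N t) N 0 (t - 1) t := by
  intro c d h1 h2 h3
  unfold D at hD
  exact thread c d h3 (by omega) (by omega) (by omega) (by omega) (by omega) (by omega) (by omega) (by omega) (by omega)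

theorem nb12 (h : W (A N t) 0 N (t + 1) f) (hD : D N t) {i : ℤ} (hv : V f i t)
    (e : 0 ≤ i ∧ i < t) :
    V f (i + 1) (t + 1) ∨ V f (i + 1) (t - 1) ∨ V f (i + 1) (2 * N - 2 * t + 2) := by
  have := nb h hD i e.1 e.2
  unfold V at *
  unfold D at hD
  omega

theorem th13 (hD : D N t) : Th (A N t) N 0 t (N - 1) := by
  intro c d h1 h2 h3
  unfold D at hD
  exact thread c d h3 (by omega) (by omega) (by omega) (by omega) (by omega) (by omega) (by omega) (by omega) (by omega)

theorem nb14 (h : W (A N t) 0 N (t + 1) f) (hD : D N t) {i : ℤ} (hv : V f i (N - 1))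
    (e : 0 ≤ i ∧ i < t) :
    V f (i + 1) (N - 2) ∨ V f (i + 1) (0 : ℤ) := by
  have := nb h hD i e.1 e.2
  unfold V at *
  unfold D at hD
  omega

theorem nb15 (h : W (A N t) 0 N (t + 1) f) (hD : D N t) {i : ℤ} (hv : V f i (N - t + 2))
    (e : 0 ≤ i ∧ i < t) :
    V f (i + 1) (N - t + 3) ∨ V f (i + 1) (N - t + 1) ∨ V f (i + 1) (0 : ℤ) := by
  have := nb h hD i e.1 e.2
  unfold V at *
  unfold D at hD
  omega

theorem th16 (hD : D N t) : Th (A N t) N 0 (N - t + 2) (2 * N - 2 * t + 2) := by
  intro c d h1 h2 h3
  unfold D at hD
  exact thread c d h3 (by omega) (by omega) (by omega) (by omega) (by omega) (by omega) (by omega) (by omega) (by omega)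

theorem th17 (hD : D N t) : Th (A N t) N 0 (N - t + 1) (N - t + 2) := by
  intro c d h1 h2 h3
  unfold D at hD
  exact thread c d h3 (by omega) (by omega) (by omega) (by omega) (by omega) (by omega) (by omega) (by omega) (by omega)

theorem nb18 (h : W (A N t) 0 N (t + 1) f) (hD : D N t) {i : ℤ} (hv : V f i (2 * N - 2 * t + 4))
    (e : 0 ≤ i ∧ i < t) :
    V f (i + 1) (2 * N - 2 * t + 5) ∨ V f (i + 1) (2 * N - 2 * t + 3) ∨ V f (i + 1) (0 : ℤ) := by
  have := nb h hD i e.1 e.2
  unfold V at *
  unfold D at hD
  omega

theorem th19 (hD : D N t) : Th (A N t) N 0 (2 * N - 2 * t + 4) (t - 1) := by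
  intro c d h1 h2 h3
  unfold D at hD
  exact thread c d h3 (by omega) (by omega) (by omega) (by omega) (by omega) (by omega) (by omega) (by omega) (by omega)

theorem th20 (hD : D N t) : Th (A N t) N 0 (2 * N - 2 * t + 3) (2 * N - 2 * t + 4) := by
  intro c d h1 h2 h3
  unfold D at hD
  exact thread c d h3 (by omega) (by omega) (by omega) (by omega) (by omega) (by omega) (by omega) (by omega) (by omega)

theorem no (hD : D N t) (h : W (A N t) 0 N (t + 1) f) : False := by
  obtain ⟨d0, d1, d2⟩ := id hD
  have v0 : V f (0 : ℤ) (0 : ℤ) := h.h0
  rcases nb0 h hD v0 (by omega) with n1 | n1 | n1 | n1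
  · have r2 := h.ru v0 n1 (th1 hD) (by omega)
    have v3 := r2.at (N - t) (N - t) (by omega)
    rcases nb2 h hD v3 (by omega) with n4 | n4 | n4
    · have r5 := h.ru v3 n4 (th3 hD) (by omega)
      have v6 := r5.at (N - t + 1) (N - t + 1) (by omega)
      rcases nb4 h hD v6 (by omega) with n7 | n7 | n7
      · have r8 := h.ru v6 n7 (th5 hD) (by omega)
        have v9 := r8.at (2 * N - 2 * t + 2) (2 * N - 2 * t + 2) (by omega)
        rcases nb6 h hD v9 (by omega) with n10 | n10 | n10
        · have r11 := h.ru v9 n10 (th7 hD) (by omega)
          have v12 := r11.at (2 * N - 2 * t + 3) (2 * N - 2 * t + 3) (by omega)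
          rcases nb8 h hD v12 (by omega) with n13 | n13 | n13
          · have r14 := h.ru v12 n13 (th9 hD) (by omega)
            have v15 := r14.at (t - 1) (t - 1) (by omega)
            rcases nb10 h hD v15 (by omega) with n16 | n16 | n16
            · have r17 := h.ru v15 n16 (th11 hD) (by omega)
              have v18 := r17.at t t (by omega)
              exact fin h hD (v18.cast t (by omega)) (by omega)
            · exact h.clash n16 (r14.at (t - 2) (t - 2) (by omega)) (by omega)
            · exact h.clash n16 v6 (by omega)
          · exact h.clash n13 v9 (by omega)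
          · exact h.clash n13 v3 (by omega)
        · exact h.clash n10 (r8.at (2 * N - 2 * t + 1) (2 * N - 2 * t + 1) (by omega)) (by omega)
        · have v19 := n10.cast (2 * N - 2 * t + 3) (by omega)
          rcases nb12 h hD v19 (by omega) with n20 | n20 | n20
          · have r21 := h.ru v19 n20 (th13 hD) (by omega)
            have v22 := r21.at (3 * N - 3 * t + 2) (N - 1) (by omega)
            by_cases s23 : (0 : ℤ) ≤ t - N + 2
            · rcases nb14 h hD v22 (by omega) with n24 | n24
              · exact h.clash n24 v19 (by omega)
              · exact h.clash n24 v0 (by omega)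
            · rcases nb14 h hD v22 (by omega) with n25 | n25
              · exact h.clash n25 (r21.at (3 * N - 3 * t + 1) (N - 2) (by omega)) (by omega)
              · exact h.clash n25 v0 (by omega)
          · have r26 := h.rd v19 n20 (th11 hD) (by omega)
            have v27 := r26.at (2 * N - 2 * t + 4) (t - 1) (by omega)
            rcases nb10 h hD v27 (by omega) with n28 | n28 | n28
            · exact h.clash n28 v19 (by omega)
            · have r29 := h.rd v27 n28 (th9 hD) (by omega)
              have v30 := r29.at t (2 * N - 2 * t + 3) (by omega)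
              exact fin h hD (v30.cast t (by omega)) (by omega)
            · exact h.clash n28 v6 (by omega)
          · exact h.clash n20 v9 (by omega)
      · exact h.clash n7 v3 (by omega)
      · have v31 := n7.cast (N - t + 2) (by omega)
        rcases nb10 h hD v31 (by omega) with n32 | n32 | n32
        · have r33 := h.ru v31 n32 (th11 hD) (by omega)
          have v34 := r33.at (N - t + 3) t (by omega)
          rcases nb12 h hD v34 (by omega) with n35 | n35 | n35
          · have r36 := h.ru v34 n35 (th13 hD) (by omega)
            have v37 := r36.at (2 * N - 2 * t + 2) (N - 1) (by omega)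
            by_cases s38 : (0 : ℤ) ≤ t - N + 2
            · rcases nb14 h hD v37 (by omega) with n39 | n39
              · exact h.clash n39 v34 (by omega)
              · exact h.clash n39 v0 (by omega)
            · rcases nb14 h hD v37 (by omega) with n40 | n40
              · exact h.clash n40 (r36.at (2 * N - 2 * t + 1) (N - 2) (by omega)) (by omega)
              · exact h.clash n40 v0 (by omega)
          · exact h.clash n35 v31 (by omega)
          · have v41 := n35.cast (N - t + 4) (by omega)
            rcases nb6 h hD v41 (by omega) with n42 | n42 | n42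
            · have r43 := h.ru v41 n42 (th7 hD) (by omega)
              have v44 := r43.at (N - t + 5) (2 * N - 2 * t + 3) (by omega)
              rcases nb8 h hD v44 (by omega) with n45 | n45 | n45
              · have r46 := h.ru v44 n45 (th9 hD) (by omega)
                exact h.clash (r46.at (2 * t - N + 1) (t - 1) (by omega)) v31 (by omega)
              · exact h.clash n45 v41 (by omega)
              · exact h.clash n45 v3 (by omega)
            · have r47 := h.rd v41 n42 (th5 hD) (by omega)
              exact h.clash (r47.at (2 * N - 2 * t + 5) (N - t + 1) (by omega)) v6 (by omega)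
            · exact h.clash n42 v34 (by omega)
        · have r48 := h.rd v31 n32 (th9 hD) (by omega)
          have v49 := r48.at (2 * t - N - 2) (2 * N - 2 * t + 3) (by omega)
          rcases nb8 h hD v49 (by omega) with n50 | n50 | n50
          · exact h.clash n50 (r48.at (2 * t - N - 3) (2 * N - 2 * t + 4) (by omega)) (by omega)
          · have r51 := h.rd v49 n50 (th7 hD) (by omega)
            have v52 := r51.at (2 * t - N - 1) (2 * N - 2 * t + 2) (by omega)
            rcases nb6 h hD v52 (by omega) with n53 | n53 | n53
            · exact h.clash n53 v49 (by omega)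
            · have r54 := h.rd v52 n53 (th5 hD) (by omega)
              exact h.clash (r54.at t (N - t + 1) (by omega)) v6 (by omega)
            · have v55 := n53.cast (2 * t - N) (by omega)
              rcases nb12 h hD v55 (by omega) with n56 | n56 | n56
              · have r57 := h.ru v55 n56 (th13 hD) (by omega)
                have v58 := r57.at (t - 1) (N - 1) (by omega)
                by_cases s59 : (0 : ℤ) ≤ t - N + 2
                · rcases nb14 h hD v58 (by omega) with n60 | n60
                  · exact h.clash n60 v55 (by omega)
                  · exact h.clash n60 v0 (by omega)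
                · rcases nb14 h hD v58 (by omega) with n61 | n61
                  · exact h.clash n61 (r57.at (t - 2) (N - 2) (by omega)) (by omega)
                  · exact h.clash n61 v0 (by omega)
              · exact h.clash n56 v31 (by omega)
              · exact h.clash n56 v52 (by omega)
          · exact h.clash n50 v3 (by omega)
        · exact h.clash n32 v6 (by omega)
    · exact h.clash n4 (r2.at (N - t - 1) (N - t - 1) (by omega)) (by omega)
    · have v62 := n4.cast (N - t + 1) (by omega)
      rcases nb8 h hD v62 (by omega) with n63 | n63 | n63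
      · have r64 := h.ru v62 n63 (th9 hD) (by omega)
        have v65 := r64.at (2 * t - N - 3) (t - 1) (by omega)
        rcases nb10 h hD v65 (by omega) with n66 | n66 | n66
        · have r67 := h.ru v65 n66 (th11 hD) (by omega)
          have v68 := r67.at (2 * t - N - 2) t (by omega)
          rcases nb12 h hD v68 (by omega) with n69 | n69 | n69
          · have r70 := h.ru v68 n69 (th13 hD) (by omega)
            have v71 := r70.at (t - 3) (N - 1) (by omega)
            by_cases s72 : (0 : ℤ) ≤ t - N + 2
            · rcases nb14 h hD v71 (by omega) with n73 | n73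
              · exact h.clash n73 v68 (by omega)
              · exact h.clash n73 v0 (by omega)
            · rcases nb14 h hD v71 (by omega) with n74 | n74
              · exact h.clash n74 (r70.at (t - 4) (N - 2) (by omega)) (by omega)
              · exact h.clash n74 v0 (by omega)
          · exact h.clash n69 v65 (by omega)
          · have v75 := n69.cast (2 * t - N - 1) (by omega)
            rcases nb6 h hD v75 (by omega) with n76 | n76 | n76
            · exact h.clash n76 v62 (by omega)
            · have r77 := h.rd v75 n76 (th5 hD) (by omega)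
              have v78 := r77.at t (N - t + 1) (by omega)
              exact fin h hD (v78.cast t (by omega)) (by omega)
            · exact h.clash n76 v68 (by omega)
        · exact h.clash n66 (r64.at (2 * t - N - 4) (t - 2) (by omega)) (by omega)
        · have v79 := n66.cast (2 * t - N - 2) (by omega)
          rcases nb4 h hD v79 (by omega) with n80 | n80 | n80
          · have r81 := h.ru v79 n80 (th5 hD) (by omega)
            have v82 := r81.at (t - 1) (2 * N - 2 * t + 2) (by omega)
            rcases nb6 h hD v82 (by omega) with n83 | n83 | n83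
            · exact h.clash n83 v62 (by omega)
            · exact h.clash n83 (r81.at (t - 2) (2 * N - 2 * t + 1) (by omega)) (by omega)
            · have v84 := n83.cast t (by omega)
              exact fin h hD (v84.cast t (by omega)) (by omega)
          · exact h.clash n80 v3 (by omega)
          · exact h.clash n80 v65 (by omega)
      · have r85 := h.rd v62 n63 (th7 hD) (by omega)
        have v86 := r85.at (N - t + 2) (2 * N - 2 * t + 2) (by omega)
        rcases nb6 h hD v86 (by omega) with n87 | n87 | n87
        · exact h.clash n87 v62 (by omega)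
        · have r88 := h.rd v86 n87 (th5 hD) (by omega)
          have v89 := r88.at (2 * N - 2 * t + 3) (N - t + 1) (by omega)
          rcases nb4 h hD v89 (by omega) with n90 | n90 | n90
          · exact h.clash n90 (r88.at (2 * N - 2 * t + 2) (N - t + 2) (by omega)) (by omega)
          · exact h.clash n90 v3 (by omega)
          · have v91 := n90.cast (2 * N - 2 * t + 4) (by omega)
            rcases nb10 h hD v91 (by omega) with n92 | n92 | n92
            · have r93 := h.ru v91 n92 (th11 hD) (by omega)
              have v94 := r93.at (2 * N - 2 * t + 5) t (by omega)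
              rcases nb12 h hD v94 (by omega) with n95 | n95 | n95
              · have r96 := h.ru v94 n95 (th13 hD) (by omega)
                have v97 := r96.at (3 * N - 3 * t + 4) (N - 1) (by omega)
                by_cases s98 : (0 : ℤ) ≤ t - N + 2
                · rcases nb14 h hD v97 (by omega) with n99 | n99
                  · exact h.clash n99 v94 (by omega)
                  · exact h.clash n99 v0 (by omega)
                · rcases nb14 h hD v97 (by omega) with n100 | n100
                  · exact h.clash n100 (r96.at (3 * N - 3 * t + 3) (N - 2) (by omega)) (by omega)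
                  · exact h.clash n100 v0 (by omega)
              · exact h.clash n95 v91 (by omega)
              · exact h.clash n95 v86 (by omega)
            · have r101 := h.rd v91 n92 (th9 hD) (by omega)
              exact h.clash (r101.at t (2 * N - 2 * t + 3) (by omega)) v62 (by omega)
            · exact h.clash n92 v89 (by omega)
        · have v102 := n87.cast (N - t + 3) (by omega)
          rcases nb12 h hD v102 (by omega) with n103 | n103 | n103
          · have r104 := h.ru v102 n103 (th13 hD) (by omega)
            have v105 := r104.at (2 * N - 2 * t + 2) (N - 1) (by omega)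
            by_cases s106 : (0 : ℤ) ≤ t - N + 2
            · rcases nb14 h hD v105 (by omega) with n107 | n107
              · exact h.clash n107 v102 (by omega)
              · exact h.clash n107 v0 (by omega)
            · rcases nb14 h hD v105 (by omega) with n108 | n108
              · exact h.clash n108 (r104.at (2 * N - 2 * t + 1) (N - 2) (by omega)) (by omega)
              · exact h.clash n108 v0 (by omega)
          · have r109 := h.rd v102 n103 (th11 hD) (by omega)
            have v110 := r109.at (N - t + 4) (t - 1) (by omega)
            rcases nb10 h hD v110 (by omega) with n111 | n111 | n111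
            · exact h.clash n111 v102 (by omega)
            · have r112 := h.rd v110 n111 (th9 hD) (by omega)
              exact h.clash (r112.at (2 * t - N) (2 * N - 2 * t + 3) (by omega)) v62 (by omega)
            · have v113 := n111.cast (N - t + 5) (by omega)
              rcases nb4 h hD v113 (by omega) with n114 | n114 | n114
              · have r115 := h.ru v113 n114 (th5 hD) (by omega)
                exact h.clash (r115.at (2 * N - 2 * t + 6) (2 * N - 2 * t + 2) (by omega)) v86 (by omega)
              · exact h.clash n114 v3 (by omega)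
              · exact h.clash n114 v110 (by omega)
          · exact h.clash n103 v86 (by omega)
      · exact h.clash n63 v3 (by omega)
  · have v116 := n1.cast (1 : ℤ) (by omega)
    rcases nb14 h hD v116 (by omega) with n117 | n117
    · have r118 := h.rd v116 n117 (th13 hD) (by omega)
      have v119 := r118.at (N - t) t (by omega)
      by_cases s120 : (0 : ℤ) ≤ t - N + 2
      · rcases nb12 h hD v119 (by omega) with n121 | n121 | n121
        · exact h.clash n121 v116 (by omega)
        · have r122 := h.rd v119 n121 (th11 hD) (by omega)
          have v123 := r122.at (N - t + 1) (t - 1) (by omega)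
          rcases nb10 h hD v123 (by omega) with n124 | n124 | n124
          · exact h.clash n124 v119 (by omega)
          · have r125 := h.rd v123 n124 (th9 hD) (by omega)
            have v126 := r125.at (2 * t - N - 3) (2 * N - 2 * t + 3) (by omega)
            rcases nb8 h hD v126 (by omega) with n127 | n127 | n127
            · exact h.clash n127 (r125.at (2 * t - N - 4) (2 * N - 2 * t + 4) (by omega)) (by omega)
            · have r128 := h.rd v126 n127 (th7 hD) (by omega)
              have v129 := r128.at (2 * t - N - 2) (2 * N - 2 * t + 2) (by omega)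
              rcases nb6 h hD v129 (by omega) with n130 | n130 | n130
              · exact h.clash n130 v126 (by omega)
              · have r131 := h.rd v129 n130 (th5 hD) (by omega)
                have v132 := r131.at (t - 1) (N - t + 1) (by omega)
                rcases nb4 h hD v132 (by omega) with n133 | n133 | n133
                · exact h.clash n133 (r131.at (t - 2) (N - t + 2) (by omega)) (by omega)
                · have r134 := h.rd v132 n133 (th3 hD) (by omega)
                  have v135 := r134.at t (N - t) (by omega)
                  exact fin h hD (v135.cast t (by omega)) (by omega)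
                · exact h.clash n133 v123 (by omega)
              · exact h.clash n130 v119 (by omega)
            · have v136 := n127.cast (2 * t - N - 2) (by omega)
              rcases nb2 h hD v136 (by omega) with n137 | n137 | n137
              · have r138 := h.ru v136 n137 (th3 hD) (by omega)
                have v139 := r138.at (2 * t - N - 1) (N - t + 1) (by omega)
                rcases nb4 h hD v139 (by omega) with n140 | n140 | n140
                · have r141 := h.ru v139 n140 (th5 hD) (by omega)
                  have v142 := r141.at t (2 * N - 2 * t + 2) (by omega)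
                  exact fin h hD (v142.cast t (by omega)) (by omega)
                · exact h.clash n140 v136 (by omega)
                · exact h.clash n140 v123 (by omega)
              · have r143 := h.rd v136 n137 (th1 hD) (by omega)
                exact h.clash (r143.at (t - 2) (0 : ℤ) (by omega)) v0 (by omega)
              · exact h.clash n137 v126 (by omega)
          · have v144 := n124.cast (N - t + 2) (by omega)
            rcases nb4 h hD v144 (by omega) with n145 | n145 | n145
            · have r146 := h.ru v144 n145 (th5 hD) (by omega)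
              have v147 := r146.at (2 * N - 2 * t + 3) (2 * N - 2 * t + 2) (by omega)
              rcases nb6 h hD v147 (by omega) with n148 | n148 | n148
              · have r149 := h.ru v147 n148 (th7 hD) (by omega)
                have v150 := r149.at (2 * N - 2 * t + 4) (2 * N - 2 * t + 3) (by omega)
                rcases nb8 h hD v150 (by omega) with n151 | n151 | n151
                · have r152 := h.ru v150 n151 (th9 hD) (by omega)
                  exact h.clash (r152.at t (t - 1) (by omega)) v123 (by omega)
                · exact h.clash n151 v147 (by omega)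
                · have v153 := n151.cast (2 * N - 2 * t + 5) (by omega)
                  rcases nb2 h hD v153 (by omega) with n154 | n154 | n154
                  · exact h.clash n154 v144 (by omega)
                  · have r155 := h.rd v153 n154 (th1 hD) (by omega)
                    exact h.clash (r155.at (3 * N - 3 * t + 5) (0 : ℤ) (by omega)) v0 (by omega)
                  · exact h.clash n154 v150 (by omega)
              · exact h.clash n148 (r146.at (2 * N - 2 * t + 2) (2 * N - 2 * t + 1) (by omega)) (by omega)
              · exact h.clash n148 v119 (by omega)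
            · have r156 := h.rd v144 n145 (th3 hD) (by omega)
              have v157 := r156.at (N - t + 3) (N - t) (by omega)
              rcases nb2 h hD v157 (by omega) with n158 | n158 | n158
              · exact h.clash n158 v144 (by omega)
              · have r159 := h.rd v157 n158 (th1 hD) (by omega)
                exact h.clash (r159.at (2 * N - 2 * t + 3) (0 : ℤ) (by omega)) v0 (by omega)
              · have v160 := n158.cast (N - t + 4) (by omega)
                rcases nb8 h hD v160 (by omega) with n161 | n161 | n161
                · have r162 := h.ru v160 n161 (th9 hD) (by omega)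
                  exact h.clash (r162.at (2 * t - N) (t - 1) (by omega)) v123 (by omega)
                · have r163 := h.rd v160 n161 (th7 hD) (by omega)
                  have v164 := r163.at (N - t + 5) (2 * N - 2 * t + 2) (by omega)
                  rcases nb6 h hD v164 (by omega) with n165 | n165 | n165
                  · exact h.clash n165 v160 (by omega)
                  · have r166 := h.rd v164 n165 (th5 hD) (by omega)
                    exact h.clash (r166.at (2 * N - 2 * t + 6) (N - t + 1) (by omega)) v144 (by omega)
                  · exact h.clash n165 v119 (by omega)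
                · exact h.clash n161 v157 (by omega)
            · exact h.clash n145 v123 (by omega)
        · have v167 := n121.cast (N - t + 1) (by omega)
          rcases nb6 h hD v167 (by omega) with n168 | n168 | n168
          · have r169 := h.ru v167 n168 (th7 hD) (by omega)
            have v170 := r169.at (N - t + 2) (2 * N - 2 * t + 3) (by omega)
            rcases nb8 h hD v170 (by omega) with n171 | n171 | n171
            · have r172 := h.ru v170 n171 (th9 hD) (by omega)
              have v173 := r172.at (2 * t - N - 2) (t - 1) (by omega)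
              rcases nb10 h hD v173 (by omega) with n174 | n174 | n174
              · exact h.clash n174 v119 (by omega)
              · exact h.clash n174 (r172.at (2 * t - N - 3) (t - 2) (by omega)) (by omega)
              · have v175 := n174.cast (2 * t - N - 1) (by omega)
                rcases nb4 h hD v175 (by omega) with n176 | n176 | n176
                · have r177 := h.ru v175 n176 (th5 hD) (by omega)
                  exact h.clash (r177.at t (2 * N - 2 * t + 2) (by omega)) v167 (by omega)
                · have r178 := h.rd v175 n176 (th3 hD) (by omega)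
                  have v179 := r178.at (2 * t - N) (N - t) (by omega)
                  rcases nb2 h hD v179 (by omega) with n180 | n180 | n180
                  · exact h.clash n180 v175 (by omega)
                  · have r181 := h.rd v179 n180 (th1 hD) (by omega)
                    exact h.clash (r181.at t (0 : ℤ) (by omega)) v0 (by omega)
                  · exact h.clash n180 v170 (by omega)
                · exact h.clash n176 v173 (by omega)
            · exact h.clash n171 v167 (by omega)
            · have v182 := n171.cast (N - t + 3) (by omega)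
              rcases nb2 h hD v182 (by omega) with n183 | n183 | n183
              · have r184 := h.ru v182 n183 (th3 hD) (by omega)
                have v185 := r184.at (N - t + 4) (N - t + 1) (by omega)
                rcases nb4 h hD v185 (by omega) with n186 | n186 | n186
                · have r187 := h.ru v185 n186 (th5 hD) (by omega)
                  exact h.clash (r187.at (2 * N - 2 * t + 5) (2 * N - 2 * t + 2) (by omega)) v167 (by omega)
                · exact h.clash n186 v182 (by omega)
                · have v188 := n186.cast (N - t + 5) (by omega)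
                  rcases nb10 h hD v188 (by omega) with n189 | n189 | n189
                  · exact h.clash n189 v119 (by omega)
                  · have r190 := h.rd v188 n189 (th9 hD) (by omega)
                    exact h.clash (r190.at (2 * t - N + 1) (2 * N - 2 * t + 3) (by omega)) v170 (by omega)
                  · exact h.clash n189 v185 (by omega)
              · have r191 := h.rd v182 n183 (th1 hD) (by omega)
                exact h.clash (r191.at (2 * N - 2 * t + 3) (0 : ℤ) (by omega)) v0 (by omega)
              · exact h.clash n183 v170 (by omega)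
          · have r192 := h.rd v167 n168 (th5 hD) (by omega)
            have v193 := r192.at (2 * N - 2 * t + 2) (N - t + 1) (by omega)
            rcases nb4 h hD v193 (by omega) with n194 | n194 | n194
            · exact h.clash n194 (r192.at (2 * N - 2 * t + 1) (N - t + 2) (by omega)) (by omega)
            · have r195 := h.rd v193 n194 (th3 hD) (by omega)
              have v196 := r195.at (2 * N - 2 * t + 3) (N - t) (by omega)
              rcases nb2 h hD v196 (by omega) with n197 | n197 | n197
              · exact h.clash n197 v193 (by omega)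
              · have r198 := h.rd v196 n197 (th1 hD) (by omega)
                exact h.clash (r198.at (3 * N - 3 * t + 3) (0 : ℤ) (by omega)) v0 (by omega)
              · have v199 := n197.cast (2 * N - 2 * t + 4) (by omega)
                rcases nb8 h hD v199 (by omega) with n200 | n200 | n200
                · have r201 := h.ru v199 n200 (th9 hD) (by omega)
                  have v202 := r201.at t (t - 1) (by omega)
                  exact fin h hD (v202.cast t (by omega)) (by omega)
                · exact h.clash n200 v167 (by omega)
                · exact h.clash n200 v196 (by omega)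
            · have v203 := n194.cast (2 * N - 2 * t + 3) (by omega)
              rcases nb10 h hD v203 (by omega) with n204 | n204 | n204
              · exact h.clash n204 v119 (by omega)
              · have r205 := h.rd v203 n204 (th9 hD) (by omega)
                have v206 := r205.at (t - 1) (2 * N - 2 * t + 3) (by omega)
                rcases nb8 h hD v206 (by omega) with n207 | n207 | n207
                · exact h.clash n207 (r205.at (t - 2) (2 * N - 2 * t + 4) (by omega)) (by omega)
                · exact h.clash n207 v167 (by omega)
                · have v208 := n207.cast t (by omega)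
                  exact fin h hD (v208.cast t (by omega)) (by omega)
              · exact h.clash n204 v193 (by omega)
          · exact h.clash n168 v119 (by omega)
      · rcases nb12 h hD v119 (by omega) with n209 | n209 | n209
        · exact h.clash n209 (r118.at (N - t - 1) (t + 1) (by omega)) (by omega)
        · have r210 := h.rd v119 n209 (th11 hD) (by omega)
          have v211 := r210.at (N - t + 1) (t - 1) (by omega)
          rcases nb10 h hD v211 (by omega) with n212 | n212 | n212
          · exact h.clash n212 v119 (by omega)
          · have r213 := h.rd v211 n212 (th9 hD) (by omega)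
            have v214 := r213.at (2 * t - N - 3) (2 * N - 2 * t + 3) (by omega)
            rcases nb8 h hD v214 (by omega) with n215 | n215 | n215
            · exact h.clash n215 (r213.at (2 * t - N - 4) (2 * N - 2 * t + 4) (by omega)) (by omega)
            · have r216 := h.rd v214 n215 (th7 hD) (by omega)
              have v217 := r216.at (2 * t - N - 2) (2 * N - 2 * t + 2) (by omega)
              rcases nb6 h hD v217 (by omega) with n218 | n218 | n218
              · exact h.clash n218 v214 (by omega)
              · have r219 := h.rd v217 n218 (th5 hD) (by omega)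
                have v220 := r219.at (t - 1) (N - t + 1) (by omega)
                rcases nb4 h hD v220 (by omega) with n221 | n221 | n221
                · exact h.clash n221 (r219.at (t - 2) (N - t + 2) (by omega)) (by omega)
                · have r222 := h.rd v220 n221 (th3 hD) (by omega)
                  have v223 := r222.at t (N - t) (by omega)
                  exact fin h hD (v223.cast t (by omega)) (by omega)
                · exact h.clash n221 v211 (by omega)
              · exact h.clash n218 v119 (by omega)
            · have v224 := n215.cast (2 * t - N - 2) (by omega)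
              rcases nb2 h hD v224 (by omega) with n225 | n225 | n225
              · have r226 := h.ru v224 n225 (th3 hD) (by omega)
                have v227 := r226.at (2 * t - N - 1) (N - t + 1) (by omega)
                rcases nb4 h hD v227 (by omega) with n228 | n228 | n228
                · have r229 := h.ru v227 n228 (th5 hD) (by omega)
                  have v230 := r229.at t (2 * N - 2 * t + 2) (by omega)
                  exact fin h hD (v230.cast t (by omega)) (by omega)
                · exact h.clash n228 v224 (by omega)
                · exact h.clash n228 v211 (by omega)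
              · have r231 := h.rd v224 n225 (th1 hD) (by omega)
                exact h.clash (r231.at (t - 2) (0 : ℤ) (by omega)) v0 (by omega)
              · exact h.clash n225 v214 (by omega)
          · have v232 := n212.cast (N - t + 2) (by omega)
            rcases nb4 h hD v232 (by omega) with n233 | n233 | n233
            · have r234 := h.ru v232 n233 (th5 hD) (by omega)
              have v235 := r234.at (2 * N - 2 * t + 3) (2 * N - 2 * t + 2) (by omega)
              rcases nb6 h hD v235 (by omega) with n236 | n236 | n236
              · have r237 := h.ru v235 n236 (th7 hD) (by omega)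
                have v238 := r237.at (2 * N - 2 * t + 4) (2 * N - 2 * t + 3) (by omega)
                rcases nb8 h hD v238 (by omega) with n239 | n239 | n239
                · have r240 := h.ru v238 n239 (th9 hD) (by omega)
                  exact h.clash (r240.at t (t - 1) (by omega)) v211 (by omega)
                · exact h.clash n239 v235 (by omega)
                · have v241 := n239.cast (2 * N - 2 * t + 5) (by omega)
                  rcases nb2 h hD v241 (by omega) with n242 | n242 | n242
                  · exact h.clash n242 v232 (by omega)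
                  · have r243 := h.rd v241 n242 (th1 hD) (by omega)
                    exact h.clash (r243.at (3 * N - 3 * t + 5) (0 : ℤ) (by omega)) v0 (by omega)
                  · exact h.clash n242 v238 (by omega)
              · exact h.clash n236 (r234.at (2 * N - 2 * t + 2) (2 * N - 2 * t + 1) (by omega)) (by omega)
              · exact h.clash n236 v119 (by omega)
            · have r244 := h.rd v232 n233 (th3 hD) (by omega)
              have v245 := r244.at (N - t + 3) (N - t) (by omega)
              rcases nb2 h hD v245 (by omega) with n246 | n246 | n246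
              · exact h.clash n246 v232 (by omega)
              · have r247 := h.rd v245 n246 (th1 hD) (by omega)
                exact h.clash (r247.at (2 * N - 2 * t + 3) (0 : ℤ) (by omega)) v0 (by omega)
              · have v248 := n246.cast (N - t + 4) (by omega)
                rcases nb8 h hD v248 (by omega) with n249 | n249 | n249
                · have r250 := h.ru v248 n249 (th9 hD) (by omega)
                  exact h.clash (r250.at (2 * t - N) (t - 1) (by omega)) v211 (by omega)
                · have r251 := h.rd v248 n249 (th7 hD) (by omega)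
                  have v252 := r251.at (N - t + 5) (2 * N - 2 * t + 2) (by omega)
                  rcases nb6 h hD v252 (by omega) with n253 | n253 | n253
                  · exact h.clash n253 v248 (by omega)
                  · have r254 := h.rd v252 n253 (th5 hD) (by omega)
                    exact h.clash (r254.at (2 * N - 2 * t + 6) (N - t + 1) (by omega)) v232 (by omega)
                  · exact h.clash n253 v119 (by omega)
                · exact h.clash n249 v245 (by omega)
            · exact h.clash n233 v211 (by omega)
        · have v255 := n209.cast (N - t + 1) (by omega)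
          rcases nb6 h hD v255 (by omega) with n256 | n256 | n256
          · have r257 := h.ru v255 n256 (th7 hD) (by omega)
            have v258 := r257.at (N - t + 2) (2 * N - 2 * t + 3) (by omega)
            rcases nb8 h hD v258 (by omega) with n259 | n259 | n259
            · have r260 := h.ru v258 n259 (th9 hD) (by omega)
              have v261 := r260.at (2 * t - N - 2) (t - 1) (by omega)
              rcases nb10 h hD v261 (by omega) with n262 | n262 | n262
              · exact h.clash n262 v119 (by omega)
              · exact h.clash n262 (r260.at (2 * t - N - 3) (t - 2) (by omega)) (by omega)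
              · have v263 := n262.cast (2 * t - N - 1) (by omega)
                rcases nb4 h hD v263 (by omega) with n264 | n264 | n264
                · have r265 := h.ru v263 n264 (th5 hD) (by omega)
                  exact h.clash (r265.at t (2 * N - 2 * t + 2) (by omega)) v255 (by omega)
                · have r266 := h.rd v263 n264 (th3 hD) (by omega)
                  have v267 := r266.at (2 * t - N) (N - t) (by omega)
                  rcases nb2 h hD v267 (by omega) with n268 | n268 | n268
                  · exact h.clash n268 v263 (by omega)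
                  · have r269 := h.rd v267 n268 (th1 hD) (by omega)
                    exact h.clash (r269.at t (0 : ℤ) (by omega)) v0 (by omega)
                  · exact h.clash n268 v258 (by omega)
                · exact h.clash n264 v261 (by omega)
            · exact h.clash n259 v255 (by omega)
            · have v270 := n259.cast (N - t + 3) (by omega)
              rcases nb2 h hD v270 (by omega) with n271 | n271 | n271
              · have r272 := h.ru v270 n271 (th3 hD) (by omega)
                have v273 := r272.at (N - t + 4) (N - t + 1) (by omega)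
                rcases nb4 h hD v273 (by omega) with n274 | n274 | n274
                · have r275 := h.ru v273 n274 (th5 hD) (by omega)
                  exact h.clash (r275.at (2 * N - 2 * t + 5) (2 * N - 2 * t + 2) (by omega)) v255 (by omega)
                · exact h.clash n274 v270 (by omega)
                · have v276 := n274.cast (N - t + 5) (by omega)
                  rcases nb10 h hD v276 (by omega) with n277 | n277 | n277
                  · exact h.clash n277 v119 (by omega)
                  · have r278 := h.rd v276 n277 (th9 hD) (by omega)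
                    exact h.clash (r278.at (2 * t - N + 1) (2 * N - 2 * t + 3) (by omega)) v258 (by omega)
                  · exact h.clash n277 v273 (by omega)
              · have r279 := h.rd v270 n271 (th1 hD) (by omega)
                exact h.clash (r279.at (2 * N - 2 * t + 3) (0 : ℤ) (by omega)) v0 (by omega)
              · exact h.clash n271 v258 (by omega)
          · have r280 := h.rd v255 n256 (th5 hD) (by omega)
            have v281 := r280.at (2 * N - 2 * t + 2) (N - t + 1) (by omega)
            rcases nb4 h hD v281 (by omega) with n282 | n282 | n282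
            · exact h.clash n282 (r280.at (2 * N - 2 * t + 1) (N - t + 2) (by omega)) (by omega)
            · have r283 := h.rd v281 n282 (th3 hD) (by omega)
              have v284 := r283.at (2 * N - 2 * t + 3) (N - t) (by omega)
              rcases nb2 h hD v284 (by omega) with n285 | n285 | n285
              · exact h.clash n285 v281 (by omega)
              · have r286 := h.rd v284 n285 (th1 hD) (by omega)
                exact h.clash (r286.at (3 * N - 3 * t + 3) (0 : ℤ) (by omega)) v0 (by omega)
              · have v287 := n285.cast (2 * N - 2 * t + 4) (by omega)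
                rcases nb8 h hD v287 (by omega) with n288 | n288 | n288
                · have r289 := h.ru v287 n288 (th9 hD) (by omega)
                  have v290 := r289.at t (t - 1) (by omega)
                  exact fin h hD (v290.cast t (by omega)) (by omega)
                · exact h.clash n288 v255 (by omega)
                · exact h.clash n288 v284 (by omega)
            · have v291 := n282.cast (2 * N - 2 * t + 3) (by omega)
              rcases nb10 h hD v291 (by omega) with n292 | n292 | n292
              · exact h.clash n292 v119 (by omega)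
              · have r293 := h.rd v291 n292 (th9 hD) (by omega)
                have v294 := r293.at (t - 1) (2 * N - 2 * t + 3) (by omega)
                rcases nb8 h hD v294 (by omega) with n295 | n295 | n295
                · exact h.clash n295 (r293.at (t - 2) (2 * N - 2 * t + 4) (by omega)) (by omega)
                · exact h.clash n295 v255 (by omega)
                · have v296 := n295.cast t (by omega)
                  exact fin h hD (v296.cast t (by omega)) (by omega)
              · exact h.clash n292 v281 (by omega)
          · exact h.clash n256 v119 (by omega)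
    · exact h.clash n117 v0 (by omega)
  · have v297 := n1.cast (1 : ℤ) (by omega)
    rcases nb15 h hD v297 (by omega) with n298 | n298 | n298
    · have r299 := h.ru v297 n298 (th16 hD) (by omega)
      have v300 := r299.at (N - t + 1) (2 * N - 2 * t + 2) (by omega)
      rcases nb6 h hD v300 (by omega) with n301 | n301 | n301
      · have r302 := h.ru v300 n301 (th7 hD) (by omega)
        have v303 := r302.at (N - t + 2) (2 * N - 2 * t + 3) (by omega)
        rcases nb8 h hD v303 (by omega) with n304 | n304 | n304
        · have r305 := h.ru v303 n304 (th9 hD) (by omega)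
          have v306 := r305.at (2 * t - N - 2) (t - 1) (by omega)
          rcases nb10 h hD v306 (by omega) with n307 | n307 | n307
          · have r308 := h.ru v306 n307 (th11 hD) (by omega)
            have v309 := r308.at (2 * t - N - 1) t (by omega)
            rcases nb12 h hD v309 (by omega) with n310 | n310 | n310
            · have r311 := h.ru v309 n310 (th13 hD) (by omega)
              have v312 := r311.at (t - 2) (N - 1) (by omega)
              by_cases s313 : (0 : ℤ) ≤ t - N + 2
              · rcases nb14 h hD v312 (by omega) with n314 | n314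
                · exact h.clash n314 v309 (by omega)
                · exact h.clash n314 v0 (by omega)
              · rcases nb14 h hD v312 (by omega) with n315 | n315
                · exact h.clash n315 (r311.at (t - 3) (N - 2) (by omega)) (by omega)
                · exact h.clash n315 v0 (by omega)
            · exact h.clash n310 v306 (by omega)
            · exact h.clash n310 v300 (by omega)
          · exact h.clash n307 (r305.at (2 * t - N - 3) (t - 2) (by omega)) (by omega)
          · have v316 := n307.cast (2 * t - N - 1) (by omega)
            rcases nb4 h hD v316 (by omega) with n317 | n317 | n317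
            · exact h.clash n317 v297 (by omega)
            · have r318 := h.rd v316 n317 (th3 hD) (by omega)
              have v319 := r318.at (2 * t - N) (N - t) (by omega)
              rcases nb2 h hD v319 (by omega) with n320 | n320 | n320
              · exact h.clash n320 v316 (by omega)
              · have r321 := h.rd v319 n320 (th1 hD) (by omega)
                exact h.clash (r321.at t (0 : ℤ) (by omega)) v0 (by omega)
              · exact h.clash n320 v303 (by omega)
            · exact h.clash n317 v306 (by omega)
        · exact h.clash n304 v300 (by omega)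
        · have v322 := n304.cast (N - t + 3) (by omega)
          rcases nb2 h hD v322 (by omega) with n323 | n323 | n323
          · have r324 := h.ru v322 n323 (th3 hD) (by omega)
            have v325 := r324.at (N - t + 4) (N - t + 1) (by omega)
            rcases nb4 h hD v325 (by omega) with n326 | n326 | n326
            · exact h.clash n326 v297 (by omega)
            · exact h.clash n326 v322 (by omega)
            · have v327 := n326.cast (N - t + 5) (by omega)
              rcases nb10 h hD v327 (by omega) with n328 | n328 | n328
              · have r329 := h.ru v327 n328 (th11 hD) (by omega)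
                have v330 := r329.at (N - t + 6) t (by omega)
                rcases nb12 h hD v330 (by omega) with n331 | n331 | n331
                · have r332 := h.ru v330 n331 (th13 hD) (by omega)
                  have v333 := r332.at (2 * N - 2 * t + 5) (N - 1) (by omega)
                  by_cases s334 : (0 : ℤ) ≤ t - N + 2
                  · rcases nb14 h hD v333 (by omega) with n335 | n335
                    · exact h.clash n335 v330 (by omega)
                    · exact h.clash n335 v0 (by omega)
                  · rcases nb14 h hD v333 (by omega) with n336 | n336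
                    · exact h.clash n336 (r332.at (2 * N - 2 * t + 4) (N - 2) (by omega)) (by omega)
                    · exact h.clash n336 v0 (by omega)
                · exact h.clash n331 v327 (by omega)
                · exact h.clash n331 v300 (by omega)
              · have r337 := h.rd v327 n328 (th9 hD) (by omega)
                exact h.clash (r337.at (2 * t - N + 1) (2 * N - 2 * t + 3) (by omega)) v303 (by omega)
              · exact h.clash n328 v325 (by omega)
          · have r338 := h.rd v322 n323 (th1 hD) (by omega)
            exact h.clash (r338.at (2 * N - 2 * t + 3) (0 : ℤ) (by omega)) v0 (by omega)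
          · exact h.clash n323 v303 (by omega)
      · exact h.clash n301 (r299.at (N - t) (2 * N - 2 * t + 1) (by omega)) (by omega)
      · have v339 := n301.cast (N - t + 2) (by omega)
        rcases nb12 h hD v339 (by omega) with n340 | n340 | n340
        · have r341 := h.ru v339 n340 (th13 hD) (by omega)
          have v342 := r341.at (2 * N - 2 * t + 1) (N - 1) (by omega)
          by_cases s343 : (0 : ℤ) ≤ t - N + 2
          · rcases nb14 h hD v342 (by omega) with n344 | n344
            · exact h.clash n344 v339 (by omega)
            · exact h.clash n344 v0 (by omega)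
          · rcases nb14 h hD v342 (by omega) with n345 | n345
            · exact h.clash n345 (r341.at (2 * N - 2 * t) (N - 2) (by omega)) (by omega)
            · exact h.clash n345 v0 (by omega)
        · have r346 := h.rd v339 n340 (th11 hD) (by omega)
          have v347 := r346.at (N - t + 3) (t - 1) (by omega)
          rcases nb10 h hD v347 (by omega) with n348 | n348 | n348
          · exact h.clash n348 v339 (by omega)
          · have r349 := h.rd v347 n348 (th9 hD) (by omega)
            have v350 := r349.at (2 * t - N - 1) (2 * N - 2 * t + 3) (by omega)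
            rcases nb8 h hD v350 (by omega) with n351 | n351 | n351
            · exact h.clash n351 (r349.at (2 * t - N - 2) (2 * N - 2 * t + 4) (by omega)) (by omega)
            · exact h.clash n351 v300 (by omega)
            · have v352 := n351.cast (2 * t - N) (by omega)
              rcases nb2 h hD v352 (by omega) with n353 | n353 | n353
              · have r354 := h.ru v352 n353 (th3 hD) (by omega)
                have v355 := r354.at (2 * t - N + 1) (N - t + 1) (by omega)
                rcases nb4 h hD v355 (by omega) with n356 | n356 | n356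
                · exact h.clash n356 v297 (by omega)
                · exact h.clash n356 v352 (by omega)
                · exact h.clash n356 v347 (by omega)
              · have r357 := h.rd v352 n353 (th1 hD) (by omega)
                exact h.clash (r357.at t (0 : ℤ) (by omega)) v0 (by omega)
              · exact h.clash n353 v350 (by omega)
          · have v358 := n348.cast (N - t + 4) (by omega)
            rcases nb4 h hD v358 (by omega) with n359 | n359 | n359
            · exact h.clash n359 v297 (by omega)
            · have r360 := h.rd v358 n359 (th3 hD) (by omega)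
              have v361 := r360.at (N - t + 5) (N - t) (by omega)
              rcases nb2 h hD v361 (by omega) with n362 | n362 | n362
              · exact h.clash n362 v358 (by omega)
              · have r363 := h.rd v361 n362 (th1 hD) (by omega)
                exact h.clash (r363.at (2 * N - 2 * t + 5) (0 : ℤ) (by omega)) v0 (by omega)
              · have v364 := n362.cast (N - t + 6) (by omega)
                rcases nb8 h hD v364 (by omega) with n365 | n365 | n365
                · have r366 := h.ru v364 n365 (th9 hD) (by omega)
                  exact h.clash (r366.at (2 * t - N + 2) (t - 1) (by omega)) v347 (by omega)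
                · exact h.clash n365 v300 (by omega)
                · exact h.clash n365 v361 (by omega)
            · exact h.clash n359 v347 (by omega)
        · exact h.clash n340 v300 (by omega)
    · have r367 := h.rd v297 n298 (th17 hD) (by omega)
      have v368 := r367.at (2 : ℤ) (N - t + 1) (by omega)
      rcases nb4 h hD v368 (by omega) with n369 | n369 | n369
      · exact h.clash n369 v297 (by omega)
      · have r370 := h.rd v368 n369 (th3 hD) (by omega)
        have v371 := r370.at (3 : ℤ) (N - t) (by omega)
        rcases nb2 h hD v371 (by omega) with n372 | n372 | n372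
        · exact h.clash n372 v368 (by omega)
        · have r373 := h.rd v371 n372 (th1 hD) (by omega)
          exact h.clash (r373.at (N - t + 3) (0 : ℤ) (by omega)) v0 (by omega)
        · have v374 := n372.cast (4 : ℤ) (by omega)
          rcases nb8 h hD v374 (by omega) with n375 | n375 | n375
          · have r376 := h.ru v374 n375 (th9 hD) (by omega)
            have v377 := r376.at (3 * t - 2 * N) (t - 1) (by omega)
            rcases nb10 h hD v377 (by omega) with n378 | n378 | n378
            · have r379 := h.ru v377 n378 (th11 hD) (by omega)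
              have v380 := r379.at (3 * t - 2 * N + 1) t (by omega)
              rcases nb12 h hD v380 (by omega) with n381 | n381 | n381
              · have r382 := h.ru v380 n381 (th13 hD) (by omega)
                have v383 := r382.at (2 * t - N) (N - 1) (by omega)
                by_cases s384 : (0 : ℤ) ≤ t - N + 2
                · rcases nb14 h hD v383 (by omega) with n385 | n385
                  · exact h.clash n385 v380 (by omega)
                  · exact h.clash n385 v0 (by omega)
                · rcases nb14 h hD v383 (by omega) with n386 | n386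
                  · exact h.clash n386 (r382.at (2 * t - N - 1) (N - 2) (by omega)) (by omega)
                  · exact h.clash n386 v0 (by omega)
              · exact h.clash n381 v377 (by omega)
              · have v387 := n381.cast (3 * t - 2 * N + 2) (by omega)
                rcases nb6 h hD v387 (by omega) with n388 | n388 | n388
                · exact h.clash n388 v374 (by omega)
                · have r389 := h.rd v387 n388 (th16 hD) (by omega)
                  exact h.clash (r389.at (2 * t - N + 2) (N - t + 2) (by omega)) v297 (by omega)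
                · exact h.clash n388 v380 (by omega)
            · exact h.clash n378 (r376.at (3 * t - 2 * N - 1) (t - 2) (by omega)) (by omega)
            · exact h.clash n378 v368 (by omega)
          · have r390 := h.rd v374 n375 (th7 hD) (by omega)
            have v391 := r390.at (5 : ℤ) (2 * N - 2 * t + 2) (by omega)
            rcases nb6 h hD v391 (by omega) with n392 | n392 | n392
            · exact h.clash n392 v374 (by omega)
            · have r393 := h.rd v391 n392 (th16 hD) (by omega)
              exact h.clash (r393.at (N - t + 5) (N - t + 2) (by omega)) v297 (by omega)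
            · have v394 := n392.cast (6 : ℤ) (by omega)
              rcases nb12 h hD v394 (by omega) with n395 | n395 | n395
              · have r396 := h.ru v394 n395 (th13 hD) (by omega)
                have v397 := r396.at (N - t + 5) (N - 1) (by omega)
                by_cases s398 : (0 : ℤ) ≤ t - N + 2
                · rcases nb14 h hD v397 (by omega) with n399 | n399
                  · exact h.clash n399 v394 (by omega)
                  · exact h.clash n399 v0 (by omega)
                · rcases nb14 h hD v397 (by omega) with n400 | n400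
                  · exact h.clash n400 (r396.at (N - t + 4) (N - 2) (by omega)) (by omega)
                  · exact h.clash n400 v0 (by omega)
              · have r401 := h.rd v394 n395 (th11 hD) (by omega)
                have v402 := r401.at (7 : ℤ) (t - 1) (by omega)
                rcases nb10 h hD v402 (by omega) with n403 | n403 | n403
                · exact h.clash n403 v394 (by omega)
                · have r404 := h.rd v402 n403 (th9 hD) (by omega)
                  exact h.clash (r404.at (3 * t - 2 * N + 3) (2 * N - 2 * t + 3) (by omega)) v374 (by omega)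
                · exact h.clash n403 v368 (by omega)
              · exact h.clash n395 v391 (by omega)
          · exact h.clash n375 v371 (by omega)
      · have v405 := n369.cast (3 : ℤ) (by omega)
        rcases nb10 h hD v405 (by omega) with n406 | n406 | n406
        · have r407 := h.ru v405 n406 (th11 hD) (by omega)
          have v408 := r407.at (4 : ℤ) t (by omega)
          rcases nb12 h hD v408 (by omega) with n409 | n409 | n409
          · have r410 := h.ru v408 n409 (th13 hD) (by omega)
            have v411 := r410.at (N - t + 3) (N - 1) (by omega)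
            by_cases s412 : (0 : ℤ) ≤ t - N + 2
            · rcases nb14 h hD v411 (by omega) with n413 | n413
              · exact h.clash n413 v408 (by omega)
              · exact h.clash n413 v0 (by omega)
            · rcases nb14 h hD v411 (by omega) with n414 | n414
              · exact h.clash n414 (r410.at (N - t + 2) (N - 2) (by omega)) (by omega)
              · exact h.clash n414 v0 (by omega)
          · exact h.clash n409 v405 (by omega)
          · have v415 := n409.cast (5 : ℤ) (by omega)
            rcases nb6 h hD v415 (by omega) with n416 | n416 | n416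
            · have r417 := h.ru v415 n416 (th7 hD) (by omega)
              have v418 := r417.at (6 : ℤ) (2 * N - 2 * t + 3) (by omega)
              rcases nb8 h hD v418 (by omega) with n419 | n419 | n419
              · have r420 := h.ru v418 n419 (th9 hD) (by omega)
                exact h.clash (r420.at (3 * t - 2 * N + 2) (t - 1) (by omega)) v405 (by omega)
              · exact h.clash n419 v415 (by omega)
              · have v421 := n419.cast (7 : ℤ) (by omega)
                rcases nb2 h hD v421 (by omega) with n422 | n422 | n422
                · exact h.clash n422 v368 (by omega)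
                · have r423 := h.rd v421 n422 (th1 hD) (by omega)
                  exact h.clash (r423.at (N - t + 7) (0 : ℤ) (by omega)) v0 (by omega)
                · exact h.clash n422 v418 (by omega)
            · have r424 := h.rd v415 n416 (th16 hD) (by omega)
              exact h.clash (r424.at (N - t + 5) (N - t + 2) (by omega)) v297 (by omega)
            · exact h.clash n416 v408 (by omega)
        · have r425 := h.rd v405 n406 (th9 hD) (by omega)
          have v426 := r425.at (3 * t - 2 * N - 1) (2 * N - 2 * t + 3) (by omega)
          rcases nb8 h hD v426 (by omega) with n427 | n427 | n427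
          · exact h.clash n427 (r425.at (3 * t - 2 * N - 2) (2 * N - 2 * t + 4) (by omega)) (by omega)
          · have r428 := h.rd v426 n427 (th7 hD) (by omega)
            have v429 := r428.at (3 * t - 2 * N) (2 * N - 2 * t + 2) (by omega)
            rcases nb6 h hD v429 (by omega) with n430 | n430 | n430
            · exact h.clash n430 v426 (by omega)
            · have r431 := h.rd v429 n430 (th16 hD) (by omega)
              exact h.clash (r431.at (2 * t - N) (N - t + 2) (by omega)) v297 (by omega)
            · have v432 := n430.cast (3 * t - 2 * N + 1) (by omega)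
              rcases nb12 h hD v432 (by omega) with n433 | n433 | n433
              · have r434 := h.ru v432 n433 (th13 hD) (by omega)
                have v435 := r434.at (2 * t - N) (N - 1) (by omega)
                by_cases s436 : (0 : ℤ) ≤ t - N + 2
                · rcases nb14 h hD v435 (by omega) with n437 | n437
                  · exact h.clash n437 v432 (by omega)
                  · exact h.clash n437 v0 (by omega)
                · rcases nb14 h hD v435 (by omega) with n438 | n438
                  · exact h.clash n438 (r434.at (2 * t - N - 1) (N - 2) (by omega)) (by omega)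
                  · exact h.clash n438 v0 (by omega)
              · exact h.clash n433 v405 (by omega)
              · exact h.clash n433 v429 (by omega)
          · have v439 := n427.cast (3 * t - 2 * N) (by omega)
            rcases nb2 h hD v439 (by omega) with n440 | n440 | n440
            · exact h.clash n440 v368 (by omega)
            · have r441 := h.rd v439 n440 (th1 hD) (by omega)
              exact h.clash (r441.at (2 * t - N) (0 : ℤ) (by omega)) v0 (by omega)
            · exact h.clash n440 v426 (by omega)
        · exact h.clash n406 v368 (by omega)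
    · exact h.clash n298 v0 (by omega)
  · have v442 := n1.cast (1 : ℤ) (by omega)
    rcases nb18 h hD v442 (by omega) with n443 | n443 | n443
    · have r444 := h.ru v442 n443 (th19 hD) (by omega)
      have v445 := r444.at (3 * t - 2 * N - 4) (t - 1) (by omega)
      rcases nb10 h hD v445 (by omega) with n446 | n446 | n446
      · have r447 := h.ru v445 n446 (th11 hD) (by omega)
        have v448 := r447.at (3 * t - 2 * N - 3) t (by omega)
        rcases nb12 h hD v448 (by omega) with n449 | n449 | n449
        · have r450 := h.ru v448 n449 (th13 hD) (by omega)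
          have v451 := r450.at (2 * t - N - 4) (N - 1) (by omega)
          by_cases s452 : (0 : ℤ) ≤ t - N + 2
          · rcases nb14 h hD v451 (by omega) with n453 | n453
            · exact h.clash n453 v448 (by omega)
            · exact h.clash n453 v0 (by omega)
          · rcases nb14 h hD v451 (by omega) with n454 | n454
            · exact h.clash n454 (r450.at (2 * t - N - 5) (N - 2) (by omega)) (by omega)
            · exact h.clash n454 v0 (by omega)
        · exact h.clash n449 v445 (by omega)
        · have v455 := n449.cast (3 * t - 2 * N - 2) (by omega)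
          rcases nb6 h hD v455 (by omega) with n456 | n456 | n456
          · have r457 := h.ru v455 n456 (th7 hD) (by omega)
            have v458 := r457.at (3 * t - 2 * N - 1) (2 * N - 2 * t + 3) (by omega)
            rcases nb8 h hD v458 (by omega) with n459 | n459 | n459
            · exact h.clash n459 v442 (by omega)
            · exact h.clash n459 v455 (by omega)
            · have v460 := n459.cast (3 * t - 2 * N) (by omega)
              rcases nb2 h hD v460 (by omega) with n461 | n461 | n461
              · have r462 := h.ru v460 n461 (th3 hD) (by omega)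
                have v463 := r462.at (3 * t - 2 * N + 1) (N - t + 1) (by omega)
                rcases nb4 h hD v463 (by omega) with n464 | n464 | n464
                · have r465 := h.ru v463 n464 (th5 hD) (by omega)
                  exact h.clash (r465.at (2 * t - N + 2) (2 * N - 2 * t + 2) (by omega)) v455 (by omega)
                · exact h.clash n464 v460 (by omega)
                · exact h.clash n464 v445 (by omega)
              · have r466 := h.rd v460 n461 (th1 hD) (by omega)
                exact h.clash (r466.at (2 * t - N) (0 : ℤ) (by omega)) v0 (by omega)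
              · exact h.clash n461 v458 (by omega)
          · have r467 := h.rd v455 n456 (th5 hD) (by omega)
            have v468 := r467.at (2 * t - N - 1) (N - t + 1) (by omega)
            rcases nb4 h hD v468 (by omega) with n469 | n469 | n469
            · exact h.clash n469 (r467.at (2 * t - N - 2) (N - t + 2) (by omega)) (by omega)
            · have r470 := h.rd v468 n469 (th3 hD) (by omega)
              have v471 := r470.at (2 * t - N) (N - t) (by omega)
              rcases nb2 h hD v471 (by omega) with n472 | n472 | n472
              · exact h.clash n472 v468 (by omega)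
              · have r473 := h.rd v471 n472 (th1 hD) (by omega)
                exact h.clash (r473.at t (0 : ℤ) (by omega)) v0 (by omega)
              · have v474 := n472.cast (2 * t - N + 1) (by omega)
                rcases nb8 h hD v474 (by omega) with n475 | n475 | n475
                · exact h.clash n475 v442 (by omega)
                · exact h.clash n475 v455 (by omega)
                · exact h.clash n475 v471 (by omega)
            · exact h.clash n469 v445 (by omega)
          · exact h.clash n456 v448 (by omega)
      · exact h.clash n446 (r444.at (3 * t - 2 * N - 5) (t - 2) (by omega)) (by omega)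
      · have v476 := n446.cast (3 * t - 2 * N - 3) (by omega)
        rcases nb4 h hD v476 (by omega) with n477 | n477 | n477
        · have r478 := h.ru v476 n477 (th5 hD) (by omega)
          have v479 := r478.at (2 * t - N - 2) (2 * N - 2 * t + 2) (by omega)
          rcases nb6 h hD v479 (by omega) with n480 | n480 | n480
          · have r481 := h.ru v479 n480 (th7 hD) (by omega)
            have v482 := r481.at (2 * t - N - 1) (2 * N - 2 * t + 3) (by omega)
            rcases nb8 h hD v482 (by omega) with n483 | n483 | n483
            · exact h.clash n483 v442 (by omega)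
            · exact h.clash n483 v479 (by omega)
            · have v484 := n483.cast (2 * t - N) (by omega)
              rcases nb2 h hD v484 (by omega) with n485 | n485 | n485
              · exact h.clash n485 v476 (by omega)
              · have r486 := h.rd v484 n485 (th1 hD) (by omega)
                exact h.clash (r486.at t (0 : ℤ) (by omega)) v0 (by omega)
              · exact h.clash n485 v482 (by omega)
          · exact h.clash n480 (r478.at (2 * t - N - 3) (2 * N - 2 * t + 1) (by omega)) (by omega)
          · have v487 := n480.cast (2 * t - N - 1) (by omega)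
            rcases nb12 h hD v487 (by omega) with n488 | n488 | n488
            · have r489 := h.ru v487 n488 (th13 hD) (by omega)
              have v490 := r489.at (t - 2) (N - 1) (by omega)
              by_cases s491 : (0 : ℤ) ≤ t - N + 2
              · rcases nb14 h hD v490 (by omega) with n492 | n492
                · exact h.clash n492 v487 (by omega)
                · exact h.clash n492 v0 (by omega)
              · rcases nb14 h hD v490 (by omega) with n493 | n493
                · exact h.clash n493 (r489.at (t - 3) (N - 2) (by omega)) (by omega)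
                · exact h.clash n493 v0 (by omega)
            · exact h.clash n488 v445 (by omega)
            · exact h.clash n488 v479 (by omega)
        · have r494 := h.rd v476 n477 (th3 hD) (by omega)
          have v495 := r494.at (3 * t - 2 * N - 2) (N - t) (by omega)
          rcases nb2 h hD v495 (by omega) with n496 | n496 | n496
          · exact h.clash n496 v476 (by omega)
          · have r497 := h.rd v495 n496 (th1 hD) (by omega)
            exact h.clash (r497.at (2 * t - N - 2) (0 : ℤ) (by omega)) v0 (by omega)
          · have v498 := n496.cast (3 * t - 2 * N - 1) (by omega)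
            rcases nb8 h hD v498 (by omega) with n499 | n499 | n499
            · exact h.clash n499 v442 (by omega)
            · have r500 := h.rd v498 n499 (th7 hD) (by omega)
              have v501 := r500.at (3 * t - 2 * N) (2 * N - 2 * t + 2) (by omega)
              rcases nb6 h hD v501 (by omega) with n502 | n502 | n502
              · exact h.clash n502 v498 (by omega)
              · have r503 := h.rd v501 n502 (th5 hD) (by omega)
                exact h.clash (r503.at (2 * t - N + 1) (N - t + 1) (by omega)) v476 (by omega)
              · have v504 := n502.cast (3 * t - 2 * N + 1) (by omega)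
                rcases nb12 h hD v504 (by omega) with n505 | n505 | n505
                · have r506 := h.ru v504 n505 (th13 hD) (by omega)
                  have v507 := r506.at (2 * t - N) (N - 1) (by omega)
                  by_cases s508 : (0 : ℤ) ≤ t - N + 2
                  · rcases nb14 h hD v507 (by omega) with n509 | n509
                    · exact h.clash n509 v504 (by omega)
                    · exact h.clash n509 v0 (by omega)
                  · rcases nb14 h hD v507 (by omega) with n510 | n510
                    · exact h.clash n510 (r506.at (2 * t - N - 1) (N - 2) (by omega)) (by omega)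
                    · exact h.clash n510 v0 (by omega)
                · exact h.clash n505 v445 (by omega)
                · exact h.clash n505 v501 (by omega)
            · exact h.clash n499 v495 (by omega)
        · exact h.clash n477 v445 (by omega)
    · have r511 := h.rd v442 n443 (th20 hD) (by omega)
      have v512 := r511.at (2 : ℤ) (2 * N - 2 * t + 3) (by omega)
      rcases nb8 h hD v512 (by omega) with n513 | n513 | n513
      · exact h.clash n513 v442 (by omega)
      · have r514 := h.rd v512 n513 (th7 hD) (by omega)
        have v515 := r514.at (3 : ℤ) (2 * N - 2 * t + 2) (by omega)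
        rcases nb6 h hD v515 (by omega) with n516 | n516 | n516
        · exact h.clash n516 v512 (by omega)
        · have r517 := h.rd v515 n516 (th5 hD) (by omega)
          have v518 := r517.at (N - t + 4) (N - t + 1) (by omega)
          rcases nb4 h hD v518 (by omega) with n519 | n519 | n519
          · exact h.clash n519 (r517.at (N - t + 3) (N - t + 2) (by omega)) (by omega)
          · have r520 := h.rd v518 n519 (th3 hD) (by omega)
            have v521 := r520.at (N - t + 5) (N - t) (by omega)
            rcases nb2 h hD v521 (by omega) with n522 | n522 | n522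
            · exact h.clash n522 v518 (by omega)
            · have r523 := h.rd v521 n522 (th1 hD) (by omega)
              exact h.clash (r523.at (2 * N - 2 * t + 5) (0 : ℤ) (by omega)) v0 (by omega)
            · exact h.clash n522 v512 (by omega)
          · have v524 := n519.cast (N - t + 5) (by omega)
            rcases nb10 h hD v524 (by omega) with n525 | n525 | n525
            · have r526 := h.ru v524 n525 (th11 hD) (by omega)
              have v527 := r526.at (N - t + 6) t (by omega)
              rcases nb12 h hD v527 (by omega) with n528 | n528 | n528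
              · have r529 := h.ru v527 n528 (th13 hD) (by omega)
                have v530 := r529.at (2 * N - 2 * t + 5) (N - 1) (by omega)
                by_cases s531 : (0 : ℤ) ≤ t - N + 2
                · rcases nb14 h hD v530 (by omega) with n532 | n532
                  · exact h.clash n532 v527 (by omega)
                  · exact h.clash n532 v0 (by omega)
                · rcases nb14 h hD v530 (by omega) with n533 | n533
                  · exact h.clash n533 (r529.at (2 * N - 2 * t + 4) (N - 2) (by omega)) (by omega)
                  · exact h.clash n533 v0 (by omega)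
              · exact h.clash n528 v524 (by omega)
              · exact h.clash n528 v515 (by omega)
            · have r534 := h.rd v524 n525 (th19 hD) (by omega)
              exact h.clash (r534.at (2 * t - N) (2 * N - 2 * t + 4) (by omega)) v442 (by omega)
            · exact h.clash n525 v518 (by omega)
        · have v535 := n516.cast (4 : ℤ) (by omega)
          rcases nb12 h hD v535 (by omega) with n536 | n536 | n536
          · have r537 := h.ru v535 n536 (th13 hD) (by omega)
            have v538 := r537.at (N - t + 3) (N - 1) (by omega)
            by_cases s539 : (0 : ℤ) ≤ t - N + 2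
            · rcases nb14 h hD v538 (by omega) with n540 | n540
              · exact h.clash n540 v535 (by omega)
              · exact h.clash n540 v0 (by omega)
            · rcases nb14 h hD v538 (by omega) with n541 | n541
              · exact h.clash n541 (r537.at (N - t + 2) (N - 2) (by omega)) (by omega)
              · exact h.clash n541 v0 (by omega)
          · have r542 := h.rd v535 n536 (th11 hD) (by omega)
            have v543 := r542.at (5 : ℤ) (t - 1) (by omega)
            rcases nb10 h hD v543 (by omega) with n544 | n544 | n544
            · exact h.clash n544 v535 (by omega)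
            · have r545 := h.rd v543 n544 (th19 hD) (by omega)
              exact h.clash (r545.at (3 * t - 2 * N) (2 * N - 2 * t + 4) (by omega)) v442 (by omega)
            · have v546 := n544.cast (6 : ℤ) (by omega)
              rcases nb4 h hD v546 (by omega) with n547 | n547 | n547
              · have r548 := h.ru v546 n547 (th5 hD) (by omega)
                exact h.clash (r548.at (N - t + 7) (2 * N - 2 * t + 2) (by omega)) v515 (by omega)
              · have r549 := h.rd v546 n547 (th3 hD) (by omega)
                have v550 := r549.at (7 : ℤ) (N - t) (by omega)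
                rcases nb2 h hD v550 (by omega) with n551 | n551 | n551
                · exact h.clash n551 v546 (by omega)
                · have r552 := h.rd v550 n551 (th1 hD) (by omega)
                  exact h.clash (r552.at (N - t + 7) (0 : ℤ) (by omega)) v0 (by omega)
                · exact h.clash n551 v512 (by omega)
              · exact h.clash n547 v543 (by omega)
          · exact h.clash n536 v515 (by omega)
      · have v553 := n513.cast (3 : ℤ) (by omega)
        rcases nb2 h hD v553 (by omega) with n554 | n554 | n554
        · have r555 := h.ru v553 n554 (th3 hD) (by omega)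
          have v556 := r555.at (4 : ℤ) (N - t + 1) (by omega)
          rcases nb4 h hD v556 (by omega) with n557 | n557 | n557
          · have r558 := h.ru v556 n557 (th5 hD) (by omega)
            have v559 := r558.at (N - t + 5) (2 * N - 2 * t + 2) (by omega)
            rcases nb6 h hD v559 (by omega) with n560 | n560 | n560
            · exact h.clash n560 v512 (by omega)
            · exact h.clash n560 (r558.at (N - t + 4) (2 * N - 2 * t + 1) (by omega)) (by omega)
            · have v561 := n560.cast (N - t + 6) (by omega)
              rcases nb12 h hD v561 (by omega) with n562 | n562 | n562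
              · have r563 := h.ru v561 n562 (th13 hD) (by omega)
                have v564 := r563.at (2 * N - 2 * t + 5) (N - 1) (by omega)
                by_cases s565 : (0 : ℤ) ≤ t - N + 2
                · rcases nb14 h hD v564 (by omega) with n566 | n566
                  · exact h.clash n566 v561 (by omega)
                  · exact h.clash n566 v0 (by omega)
                · rcases nb14 h hD v564 (by omega) with n567 | n567
                  · exact h.clash n567 (r563.at (2 * N - 2 * t + 4) (N - 2) (by omega)) (by omega)
                  · exact h.clash n567 v0 (by omega)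
              · have r568 := h.rd v561 n562 (th11 hD) (by omega)
                have v569 := r568.at (N - t + 7) (t - 1) (by omega)
                rcases nb10 h hD v569 (by omega) with n570 | n570 | n570
                · exact h.clash n570 v561 (by omega)
                · have r571 := h.rd v569 n570 (th19 hD) (by omega)
                  exact h.clash (r571.at (2 * t - N + 2) (2 * N - 2 * t + 4) (by omega)) v442 (by omega)
                · exact h.clash n570 v556 (by omega)
              · exact h.clash n562 v559 (by omega)
          · exact h.clash n557 v553 (by omega)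
          · have v572 := n557.cast (5 : ℤ) (by omega)
            rcases nb10 h hD v572 (by omega) with n573 | n573 | n573
            · have r574 := h.ru v572 n573 (th11 hD) (by omega)
              have v575 := r574.at (6 : ℤ) t (by omega)
              rcases nb12 h hD v575 (by omega) with n576 | n576 | n576
              · have r577 := h.ru v575 n576 (th13 hD) (by omega)
                have v578 := r577.at (N - t + 5) (N - 1) (by omega)
                by_cases s579 : (0 : ℤ) ≤ t - N + 2
                · rcases nb14 h hD v578 (by omega) with n580 | n580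
                  · exact h.clash n580 v575 (by omega)
                  · exact h.clash n580 v0 (by omega)
                · rcases nb14 h hD v578 (by omega) with n581 | n581
                  · exact h.clash n581 (r577.at (N - t + 4) (N - 2) (by omega)) (by omega)
                  · exact h.clash n581 v0 (by omega)
              · exact h.clash n576 v572 (by omega)
              · have v582 := n576.cast (7 : ℤ) (by omega)
                rcases nb6 h hD v582 (by omega) with n583 | n583 | n583
                · exact h.clash n583 v512 (by omega)
                · have r584 := h.rd v582 n583 (th5 hD) (by omega)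
                  exact h.clash (r584.at (N - t + 8) (N - t + 1) (by omega)) v556 (by omega)
                · exact h.clash n583 v575 (by omega)
            · have r585 := h.rd v572 n573 (th19 hD) (by omega)
              exact h.clash (r585.at (3 * t - 2 * N) (2 * N - 2 * t + 4) (by omega)) v442 (by omega)
            · exact h.clash n573 v556 (by omega)
        · have r586 := h.rd v553 n554 (th1 hD) (by omega)
          exact h.clash (r586.at (N - t + 3) (0 : ℤ) (by omega)) v0 (by omega)
        · exact h.clash n554 v512 (by omega)
    · exact h.clash n443 v0 (by omega)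

end Pool.Agent.Work.MP_193ce1_co.Rim.Kk
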