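import Pool.Agent.Work.MP_193ce1_co.Rim.KkD

set_option linter.unusedVariables false

namespace Pool.Agent.Work.MP_193ce1_co.Rim.Kk

/-- hypotheses -/
noncomputable def kr0 : List Fk.C :=
  [.le (.add .x (.k 3)) .L, .le .L (.add .y (.k 2)), .le (.k 0) .x, .le (.add .y (.k 1)) .N, .ne
  (.add (.add .x .y) (.k 4)) (.add .t .L), .ne (.add (.add .x .y) (.k 3)) (.add .t .L), .ne (.add
  (.add (.add .t .x) .y) (.k 3)) (.add .N .L), .ne (.add (.add (.add .t .x) .y) (.k 2)) (.add .N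
  .L), .ne (.add (.add (.add (.mul 2 .t) .x) .y) (.k 1)) (.add (.mul 2 .N) .L), .ne (.add (.add
  (.mul 2 .t) .x) .y) (.add (.mul 2 .N) .L)]

theorem qr0 {N t x y L : ℤ} (hD : D N t) : Fk.All ⟨N, t, x, y, L⟩ kr0 → P (A N t) N x y L :=
  Fk.route (fam hD x y L) kr0 .y (.dn .x (.k 0))
    [(0, .pt .N), (1, .up (.add (.sub (.add .x .y) .L) (.k 3)) .y)]
    [.f 128, .f 8650880, .f 36029355373297797, .f 128, .f 128, .f 9306240, .f 128, .f 128, .f
    9306240, .f 9175232, .f 9175232, .f 17563840, .f 17563840, .f 824659673229, .f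
    696348392650171338961256837, .f 128, .f 128, .f 37436730256851072, .f 562649104516, .f 8519808,
    .f 8716416, .f 562649104516, .f 549764333701, .s 8 (.f 12648576) (.f 8454272), .s 9 (.f
    12648576) (.f 8454272), .s 10 (.f 12648576) (.f 8454272), .s 11 (.f 12648576) (.f 8454272), .s
    6 (.f 12648576) (.f 8454272), .s 7 (.f 12648576) (.f 8454272), .f 128, .f 128, .f 8716417, .f
    8585344, .f 128, .f 128, .f 128, .f 128]
    (by decide +kernel)

theorem rT0 {N t x y L : ℤ} (hD : D N t)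
    (c0 : x + 3 ≤ L)
    (c1 : L ≤ y + 2)
    (c2 : (0 : ℤ) ≤ x)
    (c3 : y + 1 ≤ N)
    (c4 : x + y + 4 ≠ t + L)
    (c5 : x + y + 3 ≠ t + L)
    (c6 : t + x + y + 3 ≠ N + L)
    (c7 : t + x + y + 2 ≠ N + L)
    (c8 : 2 * t + x + y + 1 ≠ 2 * N + L)
    (c9 : 2 * t + x + y ≠ 2 * N + L) :
    P (A N t) N x y L := by
  exact qr0 hD ⟨c0, c1, c2, c3, c4, c5, c6, c7, c8, c9, trivial⟩

/-- hypotheses -/
noncomputable def kr2 : List Fk.C :=
  [.le (.add .N .L) (.add (.add .t .y) (.k 2)), .le (.add .N (.k 2)) (.add .t .x), .le (.add (.add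
  .t .x) (.k 3)) (.add .N .L), .le (.add .y (.k 1)) .N, .ne (.add (.add .x .y) (.k 4)) (.add .N
  .L), .ne (.add (.add .x .y) (.k 3)) (.add .N .L), .ne (.add (.add (.add (.mul 2 .t) .x) .y) (.k
  3)) (.add (.mul 2 .N) .L), .ne (.add (.add (.add (.mul 2 .t) .x) .y) (.k 2)) (.add (.mul 2 .N)
  .L), .ne (.add (.add (.add (.mul 3 .t) .x) .y) (.k 1)) (.add (.mul 3 .N) .L), .ne (.add (.add
  (.mul 3 .t) .x) .y) (.add (.mul 3 .N) .L)]

theorem qr2 {N t x y L : ℤ} (hD : D N t) : Fk.All ⟨N, t, x, y, L⟩ kr2 → P (A N t) N x y L :=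
  Fk.route (fam hD x y L) kr2 .y (.dn .x (.add (.sub .N .t) (.k 2)))
    [(11, .up (.k 0) (.k 1)), (0, .pt .N), (1, .up (.add (.sub (.sub (.add (.add .t .x) .y) .N) .L)
    (.k 3)) .y)]
    [.f 9175168, .f 8585344, .f 36029363963166853, .f 128, .f 128, .f 128, .f 128, .f 9306240, .f
    128, .f 128, .f 128, .f 128, .f 9175169, .f 9306240, .f 128, .f 128, .f 9306240, .f 9175232, .f
    9175232, .f 12583180, .f 12583180, .f 3541811735932537471108, .f 2453454117058654503043, .f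
    128, .f 128, .f 9306240, .f 37436721666850948, .f 36592309622276224, .f 8650880, .f 8716416, .f
    36592309622276224, .f 549764464773, .f 558354333824, .f 558354333824, .s 10 (.f 12648576) (.f
    8454272), .s 11 (.f 12648576) (.f 8454272), .s 6 (.f 12648576) (.f 8454272), .s 7 (.f 12648576)
    (.f 8454272), .f 128, .f 128, .f 8716417, .f 36029359668199564, .f 8519808, .f 128, .f 128, .f
    128, .f 128]
    (by decide +kernel)

theorem rT2 {N t x y L : ℤ} (hD : D N t)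
    (c0 : N + L ≤ t + y + 2)
    (c1 : N + 2 ≤ t + x)
    (c2 : t + x + 3 ≤ N + L)
    (c3 : y + 1 ≤ N)
    (c4 : x + y + 4 ≠ N + L)
    (c5 : x + y + 3 ≠ N + L)
    (c6 : 2 * t + x + y + 3 ≠ 2 * N + L)
    (c7 : 2 * t + x + y + 2 ≠ 2 * N + L)
    (c8 : 3 * t + x + y + 1 ≠ 3 * N + L)
    (c9 : 3 * t + x + y ≠ 3 * N + L) :
    P (A N t) N x y L := by
  exact qr2 hD ⟨c0, c1, c2, c3, c4, c5, c6, c7, c8, c9, trivial⟩

/-- hypotheses -/
noncomputable def kr4 : List Fk.C :=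
  [.le (.add (.add .N .x) (.k 1)) (.add .y .L), .le (.add .x (.k 1)) .y, .le (.k 0) .x, .le (.add
  .y (.k 1)) .N, .le (.add .y .L) (.add (.add .N .x) (.k 1))]

theorem qr4 {N t x y L : ℤ} (hD : D N t) : Fk.All ⟨N, t, x, y, L⟩ kr4 → P (A N t) N x y L :=
  Fk.route (fam hD x y L) kr4 .y (.dn .x (.k 0))
    [(3, .dn (.sub .N (.k 1)) .y)]
    [.f 128, .f 8650880, .f 549764530307, .f 128, .f 128, .f 562649104516, .f 8716416, .f 128, .f
    128, .f 128, .f 128, .f 128, .f 8585344, .f 128, .f 128, .f 8519808, .f 8781952]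
    (by decide +kernel)

theorem rT4 {N t x y L : ℤ} (hD : D N t)
    (c0 : N + x + 1 ≤ y + L)
    (c1 : x + 1 ≤ y)
    (c2 : (0 : ℤ) ≤ x)
    (c3 : y + 1 ≤ N)
    (c4 : y + L ≤ N + x + 1) :
    P (A N t) N x y L := by
  exact qr4 hD ⟨c0, c1, c2, c3, c4, trivial⟩

/-- hypotheses -/
noncomputable def kr6 : List Fk.C :=
  [.le (.add (.add (.mul 2 .N) .y) (.k 8)) (.add (.mul 3 .t) .L), .le .t .y, .le (.add .t .L) (.add
  (.add .x .y) (.k 3)), .le (.add .x (.k 1)) .t, .le (.add .y (.k 1)) .N, .ne (.add (.add .x .y)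
  (.k 6)) (.add .t .L), .ne (.add (.add .x .y) (.k 5)) (.add .t .L), .ne (.add (.mul 2 .t) .L)
  (.add (.add (.add .N .x) .y) (.k 7)), .ne (.add (.mul 2 .t) .L) (.add (.add (.add .N .x) .y) (.k
  8)), .ne (.add (.mul 4 .t) .L) (.add (.add (.add (.mul 2 .N) .x) .y) (.k 8)), .ne (.add (.mul 4
  .t) .L) (.add (.add (.add (.mul 2 .N) .x) .y) (.k 9))]

theorem qr6 {N t x y L : ℤ} (hD : D N t) : Fk.All ⟨N, t, x, y, L⟩ kr6 → P (A N t) N x y L :=
  Fk.route (fam hD x y L) kr6 .y (.dn .x (.add (.sub (.sub (.add (.add (.mul 2 .N) .x) .y) (.mul 3 .t)) .L) (.k 8)))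
    [(0, .pt .N), (1, .dn (.add (.sub (.mul 2 .N) (.mul 2 .t)) (.k 1)) (.k 0)), (12, .dn (.add
    (.sub (.mul 2 .N) (.mul 2 .t)) (.k 4)) (.add (.sub (.mul 2 .N) (.mul 2 .t)) (.k 2))), (8, .up
    .t .y)]
    [.f 37155822224212096, .f 8519808, .f 36029372553166981, .f 128, .f 128, .f 9371776, .f 128, .f
    37155822224212096, .f 2361220959644351070341, .f 36029372553166980, .f 36029372553166980, .f
    8650880, .f 8650880, .s 12 (.f 8454272) (.f 12648576), .f 571243233410, .f 128, .f 128, .f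
    37436721666916486, .f 128, .f 549772984579, .f 154744921471582929160372358, .f 549772984579, .f
    154744921471582929160372358, .f 9240704, .f 9240704, .f 192, .f 192, .f 37436738850783362, .f
    37436738850783362, .f 128, .f 128, .f 7102069934463807258767, .f 8650881, .f 549772984579, .f
    128, .f 154744921471582929160372358, .f 128, .f 128, .f 128, .f 128, .f 128, .f
    155953847290916091948302469, .f 8650881, .f 160789495264889700970791174, .f 8585344, .f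
    8781952, .f 128, .f 128, .f 128, .f 128, .f 37436738846589058, .f 37436721666982018, .f
    8781953, .f 8716416, .f 128, .f 128, .f 128, .f 128]
    (by decide +kernel)

theorem rT6 {N t x y L : ℤ} (hD : D N t)
    (c0 : 2 * N + y + 8 ≤ 3 * t + L)
    (c1 : t ≤ y)
    (c2 : t + L ≤ x + y + 3)
    (c3 : x + 1 ≤ t)
    (c4 : y + 1 ≤ N)
    (c5 : x + y + 6 ≠ t + L)
    (c6 : x + y + 5 ≠ t + L)
    (c7 : 2 * t + L ≠ N + x + y + 7)
    (c8 : 2 * t + L ≠ N + x + y + 8)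
    (c9 : 4 * t + L ≠ 2 * N + x + y + 8)
    (c10 : 4 * t + L ≠ 2 * N + x + y + 9) :
    P (A N t) N x y L := by
  exact qr6 hD ⟨c0, c1, c2, c3, c4, c5, c6, c7, c8, c9, c10, trivial⟩

/-- hypotheses -/
noncomputable def kr8 : List Fk.C :=
  [.le (.add (.add .N .x) .L) (.add (.add .t .y) (.k 1)), .le .x (.k 0), .le (.k 0) .x, .le (.k 5)
  (.add .x .L), .le (.add .y (.k 1)) .N, .ne (.add .y (.k 6)) (.add (.add .t .x) .L), .ne (.add .y
  (.k 5)) (.add (.add .t .x) .L), .ne (.add (.add .t .y) (.k 5)) (.add (.add .N .x) .L), .ne (.add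
  (.add .t .y) (.k 4)) (.add (.add .N .x) .L), .ne (.add (.add (.mul 2 .t) .y) (.k 3)) (.add (.add
  (.mul 2 .N) .x) .L), .ne (.add (.add (.mul 2 .t) .y) (.k 2)) (.add (.add (.mul 2 .N) .x) .L)]

theorem qr8 {N t x y L : ℤ} (hD : D N t) : Fk.All ⟨N, t, x, y, L⟩ kr8 → P (A N t) N x y L :=
  Fk.route (fam hD x y L) kr8 .y (.up .x (.k 0))
    [(10, .up (.add (.sub .N .t) (.k 2)) (.add (.sub .N .t) (.k 3))), (0, .pt .N), (1, .up (.add
    (.sub (.sub .y .x) .L) (.k 5)) .y)]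
    [.f 8650880, .f 8585344, .f 9371776, .f 128, .f 128, .f 9240704, .f 128, .f 37718196643758210,
    .f 128, .f 128, .f 128, .f 128, .f 9240704, .f 9371776, .f 128, .f 9240704, .f
    37718196643758210, .f 128, .f 128, .f 9240768, .f 9240768, .f 824651350158, .f
    2619563760377326076166, .f 128, .f 128, .f 37718196643758210, .f 9371776, .f 605598777474, .f
    8716416, .f 8781952, .f 605598777474, .f 549764530310, .f 8519808, .f 8519808, .s 11 (.f
    12648576) (.f 8454272), .s 12 (.f 12648576) (.f 8454272), .s 7 (.f 12648576) (.f 8454272), .s 8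
    (.f 12648576) (.f 8454272), .f 128, .f 128, .f 8781953, .f 8519808, .f 605598777474, .f 128, .f
    128, .f 128, .f 128]
    (by decide +kernel)

theorem rT8 {N t x y L : ℤ} (hD : D N t)
    (c0 : N + x + L ≤ t + y + 1)
    (c1 : x ≤ 0)
    (c2 : (0 : ℤ) ≤ x)
    (c3 : (5 : ℤ) ≤ x + L)
    (c4 : y + 1 ≤ N)
    (c5 : y + 6 ≠ t + x + L)
    (c6 : y + 5 ≠ t + x + L)
    (c7 : t + y + 5 ≠ N + x + L)
    (c8 : t + y + 4 ≠ N + x + L)
    (c9 : 2 * t + y + 3 ≠ 2 * N + x + L)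
    (c10 : 2 * t + y + 2 ≠ 2 * N + x + L) :
    P (A N t) N x y L := by
  exact qr8 hD ⟨c0, c1, c2, c3, c4, c5, c6, c7, c8, c9, c10, trivial⟩

/-- hypotheses -/
noncomputable def kr10 : List Fk.C :=
  [.le (.add .N (.k 2)) (.add .t .y), .le (.k 0) .x, .le .L (.add .t .x), .le (.add (.add (.add .t
  .x) .y) (.k 2)) (.add .N .L), .le (.add .t .x) (.add .N (.k 1)), .ne .L (.add (.add .x .y) (.k
  1)), .ne .L (.add (.add .x .y) (.k 2)), .ne (.add (.add (.add (.mul 2 .t) .x) .y) (.k 1)) (.add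
  .N .L), .ne (.add (.add (.mul 2 .t) .x) .y) (.add .N .L), .ne (.add (.add (.mul 3 .t) .x) .y)
  (.add (.add (.mul 2 .N) .L) (.k 1)), .ne (.add (.add (.mul 3 .t) .x) .y) (.add (.add (.mul 2 .N)
  .L) (.k 2))]

theorem qr10 {N t x y L : ℤ} (hD : D N t) : Fk.All ⟨N, t, x, y, L⟩ kr10 → P (A N t) N x y L :=
  Fk.route (fam hD x y L) kr10 .y (.dn .x (.k 0))
    [(3, .dn (.sub .N (.k 1)) (.add (.sub (.add (.add .t .x) .y) .L) (.k 1))), (0, .pt .N), (1, .up
    (.add (.sub .N .t) (.k 2)) .y)]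
    [.f 128, .f 8585344, .f 2471901142598746767492, .f 128, .f 128, .f 2435006247102213980290, .f
    8716416, .f 128, .f 128, .f 128, .f 128, .f 128, .f 37155246690402434, .f 9371776, .f 128, .f
    2435006247102213980290, .f 8716416, .f 566944071810, .f 566944071810, .s 11 (.f 12648576) (.f
    8454272), .s 12 (.f 12648576) (.f 8454272), .s 8 (.f 8454272) (.f 12648576), .s 7 (.f 8454272)
    (.f 12648576), .f 128, .f 128, .f 128, .f 2435007654477097336962, .f 9240704, .f 8519808, .f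
    549764530308, .f 9240704, .f 36029368258134148, .f 128, .f 128, .f 9240768, .f 9240768, .f
    824651350158, .f 2619511125359840067844, .f 128, .f 128, .f 566944137349, .f 8650881, .f
    8781952, .f 128, .f 128, .f 128, .f 128]
    (by decide +kernel)

theorem rT10 {N t x y L : ℤ} (hD : D N t)
    (c0 : N + 2 ≤ t + y)
    (c1 : (0 : ℤ) ≤ x)
    (c2 : L ≤ t + x)
    (c3 : t + x + y + 2 ≤ N + L)
    (c4 : t + x ≤ N + 1)
    (c5 : L ≠ x + y + 1)
    (c6 : L ≠ x + y + 2)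
    (c7 : 2 * t + x + y + 1 ≠ N + L)
    (c8 : 2 * t + x + y ≠ N + L)
    (c9 : 3 * t + x + y ≠ 2 * N + L + 1)
    (c10 : 3 * t + x + y ≠ 2 * N + L + 2) :
    P (A N t) N x y L := by
  exact qr10 hD ⟨c0, c1, c2, c3, c4, c5, c6, c7, c8, c9, c10, trivial⟩

/-- hypotheses -/
noncomputable def kr12 : List Fk.C :=
  [.le (.add .x (.k 5)) .L, .le .L (.add .y (.k 4)), .le (.k 0) .x, .le (.add (.mul 2 .t) .y) (.add
  (.mul 2 .N) (.k 3)), .ne (.add (.add .x .y) (.k 6)) (.add .t .L), .ne (.add (.add .x .y) (.k 5))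
  (.add .t .L), .ne (.add (.add (.add .t .x) .y) (.k 5)) (.add .N .L), .ne (.add (.add (.add .t .x)
  .y) (.k 4)) (.add .N .L), .ne (.add (.add (.add (.mul 2 .t) .x) .y) (.k 3)) (.add (.mul 2 .N)
  .L), .ne (.add (.add (.add (.mul 2 .t) .x) .y) (.k 2)) (.add (.mul 2 .N) .L)]

theorem qr12 {N t x y L : ℤ} (hD : D N t) : Fk.All ⟨N, t, x, y, L⟩ kr12 → P (A N t) N x y L :=
  Fk.route (fam hD x y L) kr12 .y (.dn .x (.k 0))
    [(12, .up (.add (.sub (.mul 2 .N) (.mul 2 .t)) (.k 4)) (.add (.sub (.mul 2 .N) (.mul 2 .t)) (.k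
    5))), (0, .pt .N), (1, .up (.add (.sub (.add .x .y) .L) (.k 5)) .y)]
    [.f 128, .f 8650880, .f 160789532122349034191782156, .f 128, .f 128, .f 2453453554112992116864,
    .f 128, .f 549765054732, .f 128, .f 128, .f 128, .f 128, .f 37436730256851072, .f 9306240, .f
    128, .f 2453453554112992116864, .f 549765054732, .f 9175168, .f 9175168, .f 128, .f 128, .f
    824642896013, .f 824642896013, .f 128, .f 128, .f 549773377677, .f 315534398252292350151557262,
    .f 562649104516, .f 8519808, .f 37436721667571980, .f 562649104516, .f 2453453554100107804940,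
    .s 8 (.f 12648576) (.f 8454272), .s 9 (.f 12648576) (.f 8454272), .s 10 (.f 12648576) (.f
    8454272), .s 11 (.f 12648576) (.f 8454272), .f 2398116136903624163461, .f
    2398116136903624163461, .f 128, .f 128, .f 37436725962539276, .f 8716417, .f 8585344, .f 128,
    .f 128, .f 128, .f 128]
    (by decide +kernel)

theorem rT12 {N t x y L : ℤ} (hD : D N t)
    (c0 : x + 5 ≤ L)
    (c1 : L ≤ y + 4)
    (c2 : (0 : ℤ) ≤ x)
    (c3 : 2 * t + y ≤ 2 * N + 3)
    (c4 : x + y + 6 ≠ t + L)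
    (c5 : x + y + 5 ≠ t + L)
    (c6 : t + x + y + 5 ≠ N + L)
    (c7 : t + x + y + 4 ≠ N + L)
    (c8 : 2 * t + x + y + 3 ≠ 2 * N + L)
    (c9 : 2 * t + x + y + 2 ≠ 2 * N + L) :
    P (A N t) N x y L := by
  exact qr12 hD ⟨c0, c1, c2, c3, c4, c5, c6, c7, c8, c9, trivial⟩

/-- hypotheses -/
noncomputable def kr14 : List Fk.C :=
  [.le (.add .x (.k 1)) .y, .le (.k 3) .L, .le (.k 0) .x, .le (.add .y .L) (.add .N (.k 2)), .ne
  (.add .x (.k 1)) .t, .ne .x .t, .ne (.add .y .L) (.add .t (.k 2)), .ne (.add .y .L) (.add .t (.k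
  3)), .ne (.add .t .x) .N, .ne (.add .t .x) (.add .N (.k 1)), .ne (.add (.add .t .y) .L) (.add .N
  (.k 3)), .ne (.add (.add .t .y) .L) (.add .N (.k 4)), .ne (.add (.mul 2 .t) .x) (.add (.mul 2 .N)
  (.k 2)), .ne (.add (.mul 2 .t) .x) (.add (.mul 2 .N) (.k 3)), .ne (.add (.add (.mul 2 .t) .y) .L)
  (.add (.mul 2 .N) (.k 5)), .ne (.add (.add (.mul 2 .t) .y) .L) (.add (.mul 2 .N) (.k 6))]

theorem qr14 {N t x y L : ℤ} (hD : D N t) : Fk.All ⟨N, t, x, y, L⟩ kr14 → P (A N t) N x y L :=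
  Fk.route (fam hD x y L) kr14 .y (.pt .x)
    [(0, .pt .N), (1, .dn (.sub (.add .y .L) (.k 3)) .y)]
    [.f 8650880, .f 37436734551752832, .f 128, .f 128, .f 9699456, .f 128, .f 8650880, .f
    36029359668199557, .s 10 (.f 12648576) (.f 8454272), .s 11 (.f 12648576) (.f 8454272), .s 14
    (.f 12648576) (.f 8454272), .s 15 (.f 12648576) (.f 8454272), .s 6 (.f 12648576) (.f 8454272),
    .s 7 (.f 12648576) (.f 8454272), .f 128, .f 128, .f 36029359668199557, .f 549764333700, .f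
    8585344, .f 8716416, .f 36029359668199556, .f 8716416, .s 12 (.f 12648576) (.f 8454272), .s 13
    (.f 12648576) (.f 8454272), .s 16 (.f 12648576) (.f 8454272), .s 17 (.f 12648576) (.f 8454272),
    .s 8 (.f 12648576) (.f 8454272), .s 9 (.f 12648576) (.f 8454272), .f 128, .f 128, .f 8716417,
    .f 8519808, .f 128, .f 128, .f 128, .f 128]
    (by decide +kernel)

theorem rT14 {N t x y L : ℤ} (hD : D N t)
    (c0 : x + 1 ≤ y)
    (c1 : (3 : ℤ) ≤ L)
    (c2 : (0 : ℤ) ≤ x)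
    (c3 : y + L ≤ N + 2)
    (c4 : x + 1 ≠ t)
    (c5 : x ≠ t)
    (c6 : y + L ≠ t + 2)
    (c7 : y + L ≠ t + 3)
    (c8 : t + x ≠ N)
    (c9 : t + x ≠ N + 1)
    (c10 : t + y + L ≠ N + 3)
    (c11 : t + y + L ≠ N + 4)
    (c12 : 2 * t + x ≠ 2 * N + 2)
    (c13 : 2 * t + x ≠ 2 * N + 3)
    (c14 : 2 * t + y + L ≠ 2 * N + 5)
    (c15 : 2 * t + y + L ≠ 2 * N + 6) :
    P (A N t) N x y L := by
  exact qr14 hD ⟨c0, c1, c2, c3, c4, c5, c6, c7, c8, c9, c10, c11, c12, c13, c14, c15, trivial⟩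

/-- hypotheses -/
noncomputable def kr16 : List Fk.C :=
  [.le (.add (.mul 2 .N) (.k 7)) (.add (.mul 2 .t) .L), .le .L (.add .y (.k 2)), .le (.k 0) .x, .le
  (.add .y (.k 1)) .N, .le (.add (.mul 2 .t) .x) (.add (.mul 2 .N) (.k 3)), .ne .L (.add .y (.k
  4)), .ne .L (.add .y (.k 5)), .ne (.add .x (.k 2)) .t, .ne (.add .x (.k 1)) .t, .ne (.add (.add
  .t .x) (.k 1)) .N, .ne (.add .t .x) .N, .ne (.add .t .L) (.add (.add .N .y) (.k 6)), .ne (.add .t
  .L) (.add (.add .N .y) (.k 7)), .ne (.add (.mul 3 .t) .L) (.add (.add (.mul 2 .N) .y) (.k 7)),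
  .ne (.add (.mul 3 .t) .L) (.add (.add (.mul 2 .N) .y) (.k 8)), .ne (.add (.mul 2 .t) .x) (.add
  (.mul 2 .N) (.k 1)), .ne (.add (.mul 2 .t) .x) (.add (.mul 2 .N) (.k 2))]

theorem qr16 {N t x y L : ℤ} (hD : D N t) : Fk.All ⟨N, t, x, y, L⟩ kr16 → P (A N t) N x y L :=
  Fk.route (fam hD x y L) kr16 .y (.dn .x (.k 0))
    [(12, .dn (.add (.sub (.mul 2 .N) (.mul 2 .t)) (.k 4)) (.add .x (.k 1))), (0, .pt .N), (1, .up
    (.add (.sub (.sub (.add (.mul 2 .N) .y) (.mul 2 .t)) .L) (.k 7)) .y)]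
    [.f 128, .f 8650880, .f 2361220959644351070341, .f 128, .f 128, .f 8650880, .f 8781952, .f
    37436721666916482, .f 128, .f 128, .f 128, .f 128, .f 128, .f 9764992, .f 128, .f 8650880, .f
    2361220959644351070341, .s 11 (.f 12648576) (.f 8454272), .s 12 (.f 12648576) (.f 8454272), .s
    17 (.f 12648576) (.f 8454272), .s 18 (.f 12648576) (.f 8454272), .f 54043771063697556, .f
    178925854386787026106187909, .f 128, .f 128, .f 37436721666916482, .f 2453454680012898697346,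
    .f 36873797483364480, .f 8519808, .f 8716416, .f 36873797483364480, .f 549764333701, .f
    72902594502328576, .f 72058169580519556, .f 8585344, .f 8585344, .s 16 (.f 8454272) (.f
    12648576), .s 15 (.f 8454272) (.f 12648576), .f 128, .f 128, .f 8716417, .f 8585344, .f
    562649497728, .f 128, .f 128, .f 128, .f 128]
    (by decide +kernel)

theorem rT16 {N t x y L : ℤ} (hD : D N t)
    (c0 : 2 * N + 7 ≤ 2 * t + L)
    (c1 : L ≤ y + 2)
    (c2 : (0 : ℤ) ≤ x)
    (c3 : y + 1 ≤ N)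
    (c4 : 2 * t + x ≤ 2 * N + 3)
    (c5 : L ≠ y + 4)
    (c6 : L ≠ y + 5)
    (c7 : x + 2 ≠ t)
    (c8 : x + 1 ≠ t)
    (c9 : t + x + 1 ≠ N)
    (c10 : t + x ≠ N)
    (c11 : t + L ≠ N + y + 6)
    (c12 : t + L ≠ N + y + 7)
    (c13 : 3 * t + L ≠ 2 * N + y + 7)
    (c14 : 3 * t + L ≠ 2 * N + y + 8)
    (c15 : 2 * t + x ≠ 2 * N + 1)
    (c16 : 2 * t + x ≠ 2 * N + 2) :
    P (A N t) N x y L := by
  exact qr16 hD ⟨c0, c1, c2, c3, c4, c5, c6, c7, c8, c9, c10, c11, c12, c13, c14, c15, c16, trivial⟩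

/-- hypotheses -/
noncomputable def kr18 : List Fk.C :=
  [.le (.add (.mul 2 .N) (.k 7)) (.add (.mul 2 .t) .L), .le .L (.add .y (.k 2)), .le (.k 1) .x, .le
  (.add .y (.k 1)) .N, .le (.add (.mul 2 .t) .x) (.add (.mul 2 .N) (.k 4)), .ne .L (.add .y (.k
  4)), .ne .L (.add .y (.k 5)), .ne .x .t, .ne .x (.add .t (.k 1)), .ne (.add .t .x) (.add .N (.k
  1)), .ne (.add .t .x) (.add .N (.k 2)), .ne (.add .t .L) (.add (.add .N .y) (.k 6)), .ne (.add .t
  .L) (.add (.add .N .y) (.k 7)), .ne (.add (.mul 3 .t) .L) (.add (.add (.mul 2 .N) .y) (.k 7)),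
  .ne (.add (.mul 3 .t) .L) (.add (.add (.mul 2 .N) .y) (.k 8)), .ne (.add (.mul 2 .t) .x) (.add
  (.mul 2 .N) (.k 3)), .ne (.add (.mul 2 .t) .x) (.add (.mul 2 .N) (.k 4))]

theorem qr18 {N t x y L : ℤ} (hD : D N t) : Fk.All ⟨N, t, x, y, L⟩ kr18 → P (A N t) N x y L :=
  Fk.route (fam hD x y L) kr18 .y (.up .x (.add (.sub (.mul 2 .N) (.mul 2 .t)) (.k 4)))
    [(13, .up (.k 0) (.sub .x (.k 1))), (0, .pt .N), (1, .up (.add (.sub (.sub (.add (.mul 2 .N)
    .y) (.mul 2 .t)) .L) (.k 7)) .y)]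
    [.f 8650880, .f 8781952, .f 37436721666916482, .f 128, .f 128, .f 128, .f 8650880, .f
    2361220959644351070341, .f 128, .f 128, .f 128, .f 128, .f 129, .f 9764992, .f 128, .f 8650880,
    .f 2361220959644351070341, .s 11 (.f 12648576) (.f 8454272), .s 12 (.f 12648576) (.f 8454272),
    .s 17 (.f 12648576) (.f 8454272), .s 18 (.f 12648576) (.f 8454272), .f
    178925854386787026106187909, .f 178925854386787026106187909, .f 128, .f 128, .f
    2453454680012898697346, .f 37436721666916482, .f 36873797483364480, .f 8519808, .f 8716416, .f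
    36873797483364480, .f 549764333701, .f 72902594502328576, .f 72058169580519556, .f 8585344, .f
    8585344, .s 16 (.f 8454272) (.f 12648576), .s 15 (.f 8454272) (.f 12648576), .f 128, .f 128, .f
    8716417, .f 562649497728, .f 8585344, .f 128, .f 128, .f 128, .f 128]
    (by decide +kernel)

theorem rT18 {N t x y L : ℤ} (hD : D N t)
    (c0 : 2 * N + 7 ≤ 2 * t + L)
    (c1 : L ≤ y + 2)
    (c2 : (1 : ℤ) ≤ x)
    (c3 : y + 1 ≤ N)
    (c4 : 2 * t + x ≤ 2 * N + 4)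
    (c5 : L ≠ y + 4)
    (c6 : L ≠ y + 5)
    (c7 : x ≠ t)
    (c8 : x ≠ t + 1)
    (c9 : t + x ≠ N + 1)
    (c10 : t + x ≠ N + 2)
    (c11 : t + L ≠ N + y + 6)
    (c12 : t + L ≠ N + y + 7)
    (c13 : 3 * t + L ≠ 2 * N + y + 7)
    (c14 : 3 * t + L ≠ 2 * N + y + 8)
    (c15 : 2 * t + x ≠ 2 * N + 3)
    (c16 : 2 * t + x ≠ 2 * N + 4) :
    P (A N t) N x y L := by
  exact qr18 hD ⟨c0, c1, c2, c3, c4, c5, c6, c7, c8, c9, c10, c11, c12, c13, c14, c15, c16, trivial⟩

/-- hypotheses -/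
noncomputable def kr20 : List Fk.C :=
  [.le (.add .N (.k 2)) (.add .t .x), .le (.add .x (.k 1)) .L, .le (.add .x (.k 1)) .y, .le (.add
  .y .L) (.add .N .x), .ne (.add .y .L) (.add .t .x), .ne (.add .y .L) (.add (.add .t .x) (.k 1)),
  .ne (.add (.add .t .y) .L) (.add (.add .N .x) (.k 1)), .ne (.add (.add .t .y) .L) (.add (.add .N
  .x) (.k 2)), .ne (.add (.add (.mul 2 .t) .y) .L) (.add (.add (.mul 2 .N) .x) (.k 3)), .ne (.add
  (.add (.mul 2 .t) .y) .L) (.add (.add (.mul 2 .N) .x) (.k 4))]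

theorem qr20 {N t x y L : ℤ} (hD : D N t) : Fk.All ⟨N, t, x, y, L⟩ kr20 → P (A N t) N x y L :=
  Fk.route (fam hD x y L) kr20 .y (.dn .x (.add (.sub .N .t) (.k 2)))
    [(11, .up (.k 0) (.sub (.sub .N .t) (.k 1))), (0, .pt .N), (1, .dn (.sub (.sub (.add .y .L) .x)
    (.k 1)) .y)]
    [.f 9175168, .f 8519808, .f 36029359668330629, .f 128, .f 128, .f 128, .f 9175168, .f
    2453453835592263532674, .f 128, .f 128, .f 128, .f 128, .f 129, .f 9306240, .f 128, .f 9175168,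
    .f 2453453835592263532674, .f 192, .f 192, .f 9175232, .f 9175232, .f
    170463318345563222514467077, .f 170463318345563222514467077, .f 128, .f 128, .f
    2453453835592263532674, .f 36029359668330629, .f 36029363963822210, .f 8585344, .f 8716416, .f
    2361220115223716561026, .f 8716416, .f 37155259574911106, .f 37155259574911106, .s 10 (.f
    12648576) (.f 8454272), .s 11 (.f 12648576) (.f 8454272), .s 6 (.f 12648576) (.f 8454272), .s 7
    (.f 12648576) (.f 8454272), .f 128, .f 128, .f 8716417, .f 566944202880, .f 8650880, .f 128, .f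
    128, .f 128, .f 128]
    (by decide +kernel)

theorem rT20 {N t x y L : ℤ} (hD : D N t)
    (c0 : N + 2 ≤ t + x)
    (c1 : x + 1 ≤ L)
    (c2 : x + 1 ≤ y)
    (c3 : y + L ≤ N + x)
    (c4 : y + L ≠ t + x)
    (c5 : y + L ≠ t + x + 1)
    (c6 : t + y + L ≠ N + x + 1)
    (c7 : t + y + L ≠ N + x + 2)
    (c8 : 2 * t + y + L ≠ 2 * N + x + 3)
    (c9 : 2 * t + y + L ≠ 2 * N + x + 4) :
    P (A N t) N x y L := by
  exact qr20 hD ⟨c0, c1, c2, c3, c4, c5, c6, c7, c8, c9, trivial⟩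

/-- hypotheses -/
noncomputable def kr22 : List Fk.C :=
  [.le (.add (.add (.mul 2 .N) .x) (.k 6)) (.add (.add (.mul 2 .t) .y) .L), .le (.add .x (.k 1))
  .y, .le (.k 0) .x, .le (.add (.mul 2 .t) .y) (.add (.mul 2 .N) (.k 4)), .le (.add (.add (.mul 2
  .t) .y) .L) (.add (.add (.mul 2 .N) .x) (.k 6))]

theorem qr22 {N t x y L : ℤ} (hD : D N t) : Fk.All ⟨N, t, x, y, L⟩ kr22 → P (A N t) N x y L :=
  Fk.route (fam hD x y L) kr22 .y (.dn .x (.k 0))
    [(12, .dn (.add (.sub (.mul 2 .N) (.mul 2 .t)) (.k 4)) .y)]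
    [.f 128, .f 8650880, .f 2416560910957438566536, .f 128, .f 128, .f 549764399236, .f 8716416, .f
    549773049992, .f 128, .f 128, .f 128, .f 128, .f 8585344, .f 128, .f 128, .f 8519808, .f
    8781952]
    (by decide +kernel)

theorem rT22 {N t x y L : ℤ} (hD : D N t)
    (c0 : 2 * N + x + 6 ≤ 2 * t + y + L)
    (c1 : x + 1 ≤ y)
    (c2 : (0 : ℤ) ≤ x)
    (c3 : 2 * t + y ≤ 2 * N + 4)
    (c4 : 2 * t + y + L ≤ 2 * N + x + 6) :
    P (A N t) N x y L := by
  exact qr22 hD ⟨c0, c1, c2, c3, c4, trivial⟩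

/-- hypotheses -/
noncomputable def kr24 : List Fk.C :=
  [.le (.add .x (.k 1)) .y, .le (.k 3) .L, .le .L (.add .x (.k 3)), .le (.add .y (.k 1)) .N, .ne
  (.add .x (.k 4)) (.add .t .L), .ne (.add .x (.k 3)) (.add .t .L), .ne (.add .y (.k 1)) .t, .ne .y
  .t, .ne (.add (.add .t .x) (.k 3)) (.add .N .L), .ne (.add (.add .t .x) (.k 2)) (.add .N .L), .ne
  (.add .t .y) .N, .ne (.add .t .y) (.add .N (.k 1)), .ne (.add (.add (.mul 2 .t) .x) (.k 1)) (.add
  (.mul 2 .N) .L), .ne (.add (.mul 2 .t) .x) (.add (.mul 2 .N) .L), .ne (.add (.mul 2 .t) .y) (.add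
  (.mul 2 .N) (.k 2)), .ne (.add (.mul 2 .t) .y) (.add (.mul 2 .N) (.k 3))]

theorem qr24 {N t x y L : ℤ} (hD : D N t) : Fk.All ⟨N, t, x, y, L⟩ kr24 → P (A N t) N x y L :=
  Fk.route (fam hD x y L) kr24 .y (.dn .x (.add (.sub .x .L) (.k 3)))
    [(0, .pt .N), (1, .pt .y)]
    [.f 8650880, .f 8585344, .f 549764333701, .f 128, .f 128, .f 9699456, .f 128, .f 8650880, .f
    36029359668199557, .s 10 (.f 12648576) (.f 8454272), .s 11 (.f 12648576) (.f 8454272), .s 14
    (.f 12648576) (.f 8454272), .s 15 (.f 12648576) (.f 8454272), .s 6 (.f 12648576) (.f 8454272),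
    .s 7 (.f 12648576) (.f 8454272), .f 128, .f 128, .f 571239039106, .f 36029359668199556, .f
    8716416, .f 36029359668199556, .f 8716416, .s 12 (.f 12648576) (.f 8454272), .s 13 (.f
    12648576) (.f 8454272), .s 16 (.f 12648576) (.f 8454272), .s 17 (.f 12648576) (.f 8454272), .s
    8 (.f 12648576) (.f 8454272), .s 9 (.f 12648576) (.f 8454272), .f 128, .f 128, .f 8716417, .f
    8519808, .f 128, .f 128, .f 128, .f 128]
    (by decide +kernel)

theorem rT24 {N t x y L : ℤ} (hD : D N t)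
    (c0 : x + 1 ≤ y)
    (c1 : (3 : ℤ) ≤ L)
    (c2 : L ≤ x + 3)
    (c3 : y + 1 ≤ N)
    (c4 : x + 4 ≠ t + L)
    (c5 : x + 3 ≠ t + L)
    (c6 : y + 1 ≠ t)
    (c7 : y ≠ t)
    (c8 : t + x + 3 ≠ N + L)
    (c9 : t + x + 2 ≠ N + L)
    (c10 : t + y ≠ N)
    (c11 : t + y ≠ N + 1)
    (c12 : 2 * t + x + 1 ≠ 2 * N + L)
    (c13 : 2 * t + x ≠ 2 * N + L)
    (c14 : 2 * t + y ≠ 2 * N + 2)
    (c15 : 2 * t + y ≠ 2 * N + 3) :
    P (A N t) N x y L := by
  exact qr24 hD ⟨c0, c1, c2, c3, c4, c5, c6, c7, c8, c9, c10, c11, c12, c13, c14, c15, trivial⟩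

/-- hypotheses -/
noncomputable def kr26 : List Fk.C :=
  [.le (.add (.mul 2 .N) (.k 7)) (.add (.add (.mul 2 .t) .y) .L), .le (.add .x (.k 1)) .y, .le
  (.add (.mul 2 .t) .y) (.add (.mul 2 .N) (.k 4)), .le (.add (.add (.mul 2 .t) .y) .L) (.add (.add
  (.mul 2 .N) .x) (.k 7)), .ne (.add .y .L) (.add .x (.k 4)), .ne (.add .y .L) (.add .x (.k 5)),
  .ne (.add (.add .t .y) .L) (.add (.add .N .x) (.k 6)), .ne (.add (.add .t .y) .L) (.add (.add .N
  .x) (.k 7)), .ne (.add (.add (.mul 3 .t) .y) .L) (.add (.add (.mul 2 .N) .x) (.k 7)), .ne (.add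
  (.add (.mul 3 .t) .y) .L) (.add (.add (.mul 2 .N) .x) (.k 8))]

theorem qr26 {N t x y L : ℤ} (hD : D N t) : Fk.All ⟨N, t, x, y, L⟩ kr26 → P (A N t) N x y L :=
  Fk.route (fam hD x y L) kr26 .y (.dn .x (.add (.sub (.sub (.sub (.add (.mul 2 .N) .x) (.mul 2 .t)) .y) .L) (.k 7)))
    [(0, .pt .N), (1, .dn (.add (.sub (.mul 2 .N) (.mul 2 .t)) (.k 4)) .y)]
    [.f 8716416, .f 8519808, .f 2361220396694406693005, .f 128, .f 128, .f 9306240, .f 128, .f
    8716416, .f 157162791556993294095089805, .s 9 (.f 8454272) (.f 12648576), .s 8 (.f 8454272) (.f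
    12648576), .s 7 (.f 8454272) (.f 12648576), .s 6 (.f 8454272) (.f 12648576), .f
    157162791556993568964608141, .f 157162791556993345626374336, .f 128, .f 128, .f
    2361258677291231019140, .f 36029359668396162, .f 8650880, .f 549773377677, .f
    2361220396694397845634, .f 549773377677, .f 9175168, .f 9175168, .f 128, .f 128, .f
    824642896013, .f 824642896013, .f 128, .f 128, .f 605607952513, .f 8585344, .f 128, .f 128, .f
    128, .f 128]
    (by decide +kernel)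

theorem rT26 {N t x y L : ℤ} (hD : D N t)
    (c0 : 2 * N + 7 ≤ 2 * t + y + L)
    (c1 : x + 1 ≤ y)
    (c2 : 2 * t + y ≤ 2 * N + 4)
    (c3 : 2 * t + y + L ≤ 2 * N + x + 7)
    (c4 : y + L ≠ x + 4)
    (c5 : y + L ≠ x + 5)
    (c6 : t + y + L ≠ N + x + 6)
    (c7 : t + y + L ≠ N + x + 7)
    (c8 : 3 * t + y + L ≠ 2 * N + x + 7)
    (c9 : 3 * t + y + L ≠ 2 * N + x + 8) :
    P (A N t) N x y L := by
  exact qr26 hD ⟨c0, c1, c2, c3, c4, c5, c6, c7, c8, c9, trivial⟩

/-- hypotheses -/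
noncomputable def kr28 : List Fk.C :=
  [.le (.add .N (.k 5)) (.add (.add .t .x) .L), .le (.add .x .L) (.add .y (.k 2)), .le (.k 0) .x,
  .le (.add .t .x) (.add .N (.k 2)), .le (.add .y (.k 1)) .N, .ne (.add .y (.k 5)) (.add .x .L),
  .ne (.add .y (.k 4)) (.add .x .L), .ne (.add (.add (.mul 2 .t) .x) .L) (.add (.add .N .y) (.k
  5)), .ne (.add (.add (.mul 2 .t) .x) .L) (.add (.add .N .y) (.k 6)), .ne (.add (.add .t .y) (.k
  3)) (.add (.add .N .x) .L), .ne (.add (.add .t .y) (.k 2)) (.add (.add .N .x) .L)]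

theorem qr28 {N t x y L : ℤ} (hD : D N t) : Fk.All ⟨N, t, x, y, L⟩ kr28 → P (A N t) N x y L :=
  Fk.route (fam hD x y L) kr28 .y (.up .x (.add (.sub .N .t) (.k 2)))
    [(0, .pt .N), (1, .up (.add (.sub (.sub (.sub (.add .N .y) .t) .x) .L) (.k 5)) .y)]
    [.f 8650880, .f 8716416, .f 36029359668199558, .f 128, .f 128, .f 9371776, .f 128, .f 9240704,
    .f 36029359668199558, .f 128, .f 128, .f 9240768, .f 9240768, .f 824651350158, .f
    2619510562409886646534, .f 128, .f 128, .f 37718209528332418, .f 36873793188397184, .f 8519808,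
    .f 8781952, .f 36873793188397184, .f 549764333702, .f 8585344, .f 8585344, .s 11 (.f 12648576)
    (.f 8454272), .s 12 (.f 12648576) (.f 8454272), .s 10 (.f 8454272) (.f 12648576), .s 9 (.f
    8454272) (.f 12648576), .f 128, .f 128, .f 8781953, .f 8585344, .f 128, .f 128, .f 128, .f 128]
    (by decide +kernel)

theorem rT28 {N t x y L : ℤ} (hD : D N t)
    (c0 : N + 5 ≤ t + x + L)
    (c1 : x + L ≤ y + 2)
    (c2 : (0 : ℤ) ≤ x)
    (c3 : t + x ≤ N + 2)
    (c4 : y + 1 ≤ N)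
    (c5 : y + 5 ≠ x + L)
    (c6 : y + 4 ≠ x + L)
    (c7 : 2 * t + x + L ≠ N + y + 5)
    (c8 : 2 * t + x + L ≠ N + y + 6)
    (c9 : t + y + 3 ≠ N + x + L)
    (c10 : t + y + 2 ≠ N + x + L) :
    P (A N t) N x y L := by
  exact qr28 hD ⟨c0, c1, c2, c3, c4, c5, c6, c7, c8, c9, c10, trivial⟩

/-- hypotheses -/
noncomputable def kr30 : List Fk.C :=
  [.le (.add .x (.k 2)) .y, .le (.k 4) .L, .le .L (.add .x (.k 4)), .le (.add .y (.k 1)) .N, .ne
  (.add .x (.k 5)) (.add .t .L), .ne (.add .x (.k 4)) (.add .t .L), .ne .y .t, .ne .y (.add .t (.k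
  1)), .ne (.add (.add .t .x) (.k 4)) (.add .N .L), .ne (.add (.add .t .x) (.k 3)) (.add .N .L),
  .ne (.add .t .y) (.add .N (.k 1)), .ne (.add .t .y) (.add .N (.k 2)), .ne (.add (.add (.mul 2 .t)
  .x) (.k 2)) (.add (.mul 2 .N) .L), .ne (.add (.add (.mul 2 .t) .x) (.k 1)) (.add (.mul 2 .N) .L),
  .ne (.add (.mul 2 .t) .y) (.add (.mul 2 .N) (.k 3)), .ne (.add (.mul 2 .t) .y) (.add (.mul 2 .N)
  (.k 4))]

theorem qr30 {N t x y L : ℤ} (hD : D N t) : Fk.All ⟨N, t, x, y, L⟩ kr30 → P (A N t) N x y L :=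
  Fk.route (fam hD x y L) kr30 .y (.dn .x (.add (.sub .x .L) (.k 4)))
    [(0, .pt .N), (1, .up (.sub .y (.k 1)) .y)]
    [.f 8650880, .f 8585344, .f 549764333701, .f 128, .f 128, .f 9699456, .f 128, .f 8650880, .f
    36029359668199557, .s 10 (.f 12648576) (.f 8454272), .s 11 (.f 12648576) (.f 8454272), .s 14
    (.f 12648576) (.f 8454272), .s 15 (.f 12648576) (.f 8454272), .s 6 (.f 12648576) (.f 8454272),
    .s 7 (.f 12648576) (.f 8454272), .f 128, .f 128, .f 571239039106, .f 36029359668199556, .f 128,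
    .f 8716416, .f 36029359668199556, .f 8716416, .s 12 (.f 12648576) (.f 8454272), .s 13 (.f
    12648576) (.f 8454272), .s 16 (.f 12648576) (.f 8454272), .s 17 (.f 12648576) (.f 8454272), .s
    8 (.f 12648576) (.f 8454272), .s 9 (.f 12648576) (.f 8454272), .f 128, .f 128, .f 8716417, .f
    8519808, .f 128, .f 128, .f 128, .f 128]
    (by decide +kernel)

theorem rT30 {N t x y L : ℤ} (hD : D N t)
    (c0 : x + 2 ≤ y)
    (c1 : (4 : ℤ) ≤ L)
    (c2 : L ≤ x + 4)
    (c3 : y + 1 ≤ N)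
    (c4 : x + 5 ≠ t + L)
    (c5 : x + 4 ≠ t + L)
    (c6 : y ≠ t)
    (c7 : y ≠ t + 1)
    (c8 : t + x + 4 ≠ N + L)
    (c9 : t + x + 3 ≠ N + L)
    (c10 : t + y ≠ N + 1)
    (c11 : t + y ≠ N + 2)
    (c12 : 2 * t + x + 2 ≠ 2 * N + L)
    (c13 : 2 * t + x + 1 ≠ 2 * N + L)
    (c14 : 2 * t + y ≠ 2 * N + 3)
    (c15 : 2 * t + y ≠ 2 * N + 4) :
    P (A N t) N x y L := by
  exact qr30 hD ⟨c0, c1, c2, c3, c4, c5, c6, c7, c8, c9, c10, c11, c12, c13, c14, c15, trivial⟩

/-- hypotheses -/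
noncomputable def kr32 : List Fk.C :=
  [.le (.add (.mul 2 .N) .L) (.add (.mul 2 .t) .y), .le (.add (.mul 2 .N) (.k 4)) (.add (.mul 2 .t)
  .x), .le (.add .y (.k 1)) .N, .le (.add (.add (.mul 2 .t) .x) (.k 1)) (.add (.mul 2 .N) .L), .ne
  (.add (.add (.add .t .x) .y) (.k 2)) (.add (.mul 2 .N) .L), .ne (.add (.add (.add .t .x) .y) (.k
  1)) (.add (.mul 2 .N) .L), .ne (.add (.add (.add (.mul 3 .t) .x) .y) (.k 1)) (.add (.mul 3 .N)
  .L), .ne (.add (.add (.mul 3 .t) .x) .y) (.add (.mul 3 .N) .L), .ne (.add (.add (.mul 4 .t) .x)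
  .y) (.add (.add (.mul 4 .N) .L) (.k 1)), .ne (.add (.add (.mul 4 .t) .x) .y) (.add (.add (.mul 4
  .N) .L) (.k 2))]

theorem qr32 {N t x y L : ℤ} (hD : D N t) : Fk.All ⟨N, t, x, y, L⟩ kr32 → P (A N t) N x y L :=
  Fk.route (fam hD x y L) kr32 .y (.dn .x (.add (.sub (.mul 2 .N) (.mul 2 .t)) (.k 4)))
    [(13, .up (.k 0) (.k 1)), (0, .pt .N), (1, .up (.add (.sub (.sub (.add (.add (.mul 2 .t) .x)
    .y) (.mul 2 .N)) .L) (.k 1)) .y)]
    [.f 17563776, .f 8585344, .f 36592318211424388, .f 128, .f 128, .f 128, .f 128, .f 9306240, .f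
    128, .f 128, .f 128, .f 128, .f 8454412, .f 9306240, .f 128, .f 128, .f 9306240, .f 9175232, .f
    9175232, .f 12583180, .f 12583180, .f 157162810006270917463965828, .f
    157162810006270917463965828, .f 128, .f 128, .f 9306240, .f 36592318211424388, .f
    36592309630664832, .f 8716416, .f 8650880, .f 36592309630664832, .f 549764530308, .f
    39407055093629059, .f 39407055093629059, .f 558354137219, .f 558354137219, .s 6 (.f 12648576)
    (.f 8454272), .s 7 (.f 12648576) (.f 8454272), .f 128, .f 128, .f 8650881, .f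
    36029355382276227, .f 8519808, .f 128, .f 128, .f 128, .f 128]
    (by decide +kernel)

theorem rT32 {N t x y L : ℤ} (hD : D N t)
    (c0 : 2 * N + L ≤ 2 * t + y)
    (c1 : 2 * N + 4 ≤ 2 * t + x)
    (c2 : y + 1 ≤ N)
    (c3 : 2 * t + x + 1 ≤ 2 * N + L)
    (c4 : t + x + y + 2 ≠ 2 * N + L)
    (c5 : t + x + y + 1 ≠ 2 * N + L)
    (c6 : 3 * t + x + y + 1 ≠ 3 * N + L)
    (c7 : 3 * t + x + y ≠ 3 * N + L)
    (c8 : 4 * t + x + y ≠ 4 * N + L + 1)
    (c9 : 4 * t + x + y ≠ 4 * N + L + 2) :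
    P (A N t) N x y L := by
  exact qr32 hD ⟨c0, c1, c2, c3, c4, c5, c6, c7, c8, c9, trivial⟩

/-- hypotheses -/
noncomputable def kr34 : List Fk.C :=
  [.le (.add .N (.k 2)) (.add .t .x), .le (.add .x (.k 1)) .y, .le (.add .y .L) (.add (.add .t .x)
  (.k 1)), .le (.add (.add .t .x) (.k 2)) (.add .N .L), .ne (.add .y .L) (.add .x (.k 2)), .ne
  (.add .y .L) (.add .x (.k 3)), .ne (.add (.add (.mul 2 .t) .x) (.k 2)) (.add (.add .N .y) .L),
  .ne (.add (.add (.mul 2 .t) .x) (.k 1)) (.add (.add .N .y) .L), .ne (.add (.add .t .y) .L) (.add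
  (.add .N .x) (.k 4)), .ne (.add (.add .t .y) .L) (.add (.add .N .x) (.k 5))]

theorem qr34 {N t x y L : ℤ} (hD : D N t) : Fk.All ⟨N, t, x, y, L⟩ kr34 → P (A N t) N x y L :=
  Fk.route (fam hD x y L) kr34 .y (.dn .x (.add (.sub .N .t) (.k 2)))
    [(11, .pt (.k 0)), (0, .pt .N), (1, .dn (.sub (.sub (.sub (.add (.add .N .y) .L) .t) .x) (.k
    2)) .y)]
    [.f 9175168, .f 8519808, .f 36029368258199684, .f 128, .f 128, .f 128, .f 9306240, .f 128, .f
    128, .f 128, .f 128, .f 9175169, .f 9306240, .f 128, .f 128, .f 9306240, .f 9175232, .f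
    9175232, .f 12583180, .f 12583180, .f 2435007654464216629378, .f 2435007654464216629378, .f
    128, .f 128, .f 9306240, .f 37155246690205829, .f 36029359668854914, .f 8716416, .f 8650880, .f
    2361220678169375015042, .f 8650880, .f 36029368258199682, .f 36029368258199682, .s 10 (.f
    12648576) (.f 8454272), .s 11 (.f 12648576) (.f 8454272), .s 9 (.f 8454272) (.f 12648576), .s 8
    (.f 8454272) (.f 12648576), .f 128, .f 128, .f 8650881, .f 36873771713429644, .f 8585344, .f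
    128, .f 128, .f 128, .f 128]
    (by decide +kernel)

theorem rT34 {N t x y L : ℤ} (hD : D N t)
    (c0 : N + 2 ≤ t + x)
    (c1 : x + 1 ≤ y)
    (c2 : y + L ≤ t + x + 1)
    (c3 : t + x + 2 ≤ N + L)
    (c4 : y + L ≠ x + 2)
    (c5 : y + L ≠ x + 3)
    (c6 : 2 * t + x + 2 ≠ N + y + L)
    (c7 : 2 * t + x + 1 ≠ N + y + L)
    (c8 : t + y + L ≠ N + x + 4)
    (c9 : t + y + L ≠ N + x + 5) :
    P (A N t) N x y L := by
  exact qr34 hD ⟨c0, c1, c2, c3, c4, c5, c6, c7, c8, c9, trivial⟩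

/-- hypotheses -/
noncomputable def kr36 : List Fk.C :=
  [.le (.add (.mul 2 .N) (.k 4)) (.add (.mul 2 .t) .x), .le (.add (.add (.add .N .y) .L) (.k 1))
  (.add (.mul 2 .t) .x), .le (.add .x (.k 1)) .y, .le (.add (.mul 2 .t) .x) (.add (.mul 2 .N) .L),
  .ne (.add .y .L) (.add .x (.k 2)), .ne (.add .y .L) (.add .x (.k 3)), .ne (.add (.add .t .x) (.k
  1)) (.add (.add .N .y) .L), .ne (.add .t .x) (.add (.add .N .y) .L), .ne (.add (.mul 3 .t) .x)
  (.add (.add (.mul 2 .N) .y) .L), .ne (.add (.mul 3 .t) .x) (.add (.add (.add (.mul 2 .N) .y) .L)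
  (.k 1))]

theorem qr36 {N t x y L : ℤ} (hD : D N t) : Fk.All ⟨N, t, x, y, L⟩ kr36 → P (A N t) N x y L :=
  Fk.route (fam hD x y L) kr36 .y (.dn .x (.add (.sub (.mul 2 .N) (.mul 2 .t)) (.k 4)))
    [(13, .pt (.k 0)), (0, .pt .N), (1, .dn (.sub (.sub (.add (.add (.mul 2 .N) .y) .L) (.mul 2
    .t)) .x) .y)]
    [.f 17563776, .f 8519808, .f 36029368258265219, .f 128, .f 128, .f 128, .f 9306240, .f 128, .f
    128, .f 128, .f 128, .f 17563777, .f 9306240, .f 128, .f 128, .f 9306240, .f 9175232, .f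
    9175232, .f 12583180, .f 12583180, .f 158371735823633746824921228, .f
    158371735823633746824921228, .f 128, .f 128, .f 9306240, .f 36873771713560709, .f
    36029363972210818, .f 8716416, .f 8585344, .f 2361220678173678370946, .f 8585344, .f
    2361220678165080047748, .f 2361220678165080047748, .f 36029368258265218, .f 36029368258265218,
    .s 11 (.f 8454272) (.f 12648576), .s 10 (.f 8454272) (.f 12648576), .f 128, .f 128, .f 8585345,
    .f 37155246690140428, .f 8650880, .f 128, .f 128, .f 128, .f 128]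
    (by decide +kernel)

theorem rT36 {N t x y L : ℤ} (hD : D N t)
    (c0 : 2 * N + 4 ≤ 2 * t + x)
    (c1 : N + y + L + 1 ≤ 2 * t + x)
    (c2 : x + 1 ≤ y)
    (c3 : 2 * t + x ≤ 2 * N + L)
    (c4 : y + L ≠ x + 2)
    (c5 : y + L ≠ x + 3)
    (c6 : t + x + 1 ≠ N + y + L)
    (c7 : t + x ≠ N + y + L)
    (c8 : 3 * t + x ≠ 2 * N + y + L)
    (c9 : 3 * t + x ≠ 2 * N + y + L + 1) :
    P (A N t) N x y L := by
  exact qr36 hD ⟨c0, c1, c2, c3, c4, c5, c6, c7, c8, c9, trivial⟩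

/-- hypotheses -/
noncomputable def kr38 : List Fk.C :=
  [.le (.add .N (.k 3)) (.add .y .L), .le (.add .x (.k 1)) .y, .le (.add .y (.k 1)) .N, .le (.add
  .y .L) (.add (.add .N .x) (.k 2)), .ne (.add .y .L) (.add (.add .t .x) (.k 2)), .ne (.add .y .L)
  (.add (.add .t .x) (.k 3)), .ne (.add (.add (.mul 2 .t) .x) (.k 1)) (.add (.add .N .y) .L), .ne
  (.add (.mul 2 .t) .x) (.add (.add .N .y) .L), .ne (.add (.add .t .y) .L) (.add (.add .N .x) (.k
  3)), .ne (.add (.add .t .y) .L) (.add (.add .N .x) (.k 4))]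

theorem qr38 {N t x y L : ℤ} (hD : D N t) : Fk.All ⟨N, t, x, y, L⟩ kr38 → P (A N t) N x y L :=
  Fk.route (fam hD x y L) kr38 .y (.dn .x (.add (.sub (.sub (.add .N .x) .y) .L) (.k 3)))
    [(0, .pt .N), (1, .pt (.k 0)), (3, .dn (.sub .N (.k 1)) .y)]
    [.f 8716416, .f 8519808, .f 549764464771, .f 128, .f 128, .f 9306240, .f 128, .f 8716416, .f
    36029363963166851, .s 7 (.f 8454272) (.f 12648576), .s 6 (.f 8454272) (.f 12648576), .s 8 (.f
    12648576) (.f 8454272), .s 9 (.f 12648576) (.f 8454272), .s 11 (.f 8454272) (.f 12648576), .s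
    10 (.f 8454272) (.f 12648576), .f 128, .f 128, .f 562649104516, .f 128, .f 9306240, .f 128, .f
    9306240, .f 9175232, .f 9175232, .f 17563840, .f 17563840, .f 696348429543378015698616707, .f
    696348429543378015698616707, .f 128, .f 128, .f 9306241, .f 8716417, .f 36873771713429637, .f
    8650880, .f 128, .f 128, .f 128, .f 128, .f 128, .f 36873771713429637, .f 129, .f 8585344, .f
    128, .f 128, .f 128, .f 128]
    (by decide +kernel)

theorem rT38 {N t x y L : ℤ} (hD : D N t)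
    (c0 : N + 3 ≤ y + L)
    (c1 : x + 1 ≤ y)
    (c2 : y + 1 ≤ N)
    (c3 : y + L ≤ N + x + 2)
    (c4 : y + L ≠ t + x + 2)
    (c5 : y + L ≠ t + x + 3)
    (c6 : 2 * t + x + 1 ≠ N + y + L)
    (c7 : 2 * t + x ≠ N + y + L)
    (c8 : t + y + L ≠ N + x + 3)
    (c9 : t + y + L ≠ N + x + 4) :
    P (A N t) N x y L := by
  exact qr38 hD ⟨c0, c1, c2, c3, c4, c5, c6, c7, c8, c9, trivial⟩

/-- hypotheses -/
noncomputable def kr40 : List Fk.C :=
  [.le (.add (.mul 2 .N) (.k 7)) (.add (.add (.mul 2 .t) .x) .L), .le (.add .x .L) (.add .y (.k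
  2)), .le (.k 0) .x, .le (.add .y (.k 1)) .N, .le (.add (.mul 2 .t) .x) (.add (.mul 2 .N) (.k 4)),
  .ne (.add .y (.k 5)) (.add .x .L), .ne (.add .y (.k 4)) (.add .x .L), .ne (.add (.add .t .x) .L)
  (.add (.add .N .y) (.k 6)), .ne (.add (.add .t .x) .L) (.add (.add .N .y) (.k 7)), .ne (.add
  (.add (.mul 3 .t) .x) .L) (.add (.add (.mul 2 .N) .y) (.k 7)), .ne (.add (.add (.mul 3 .t) .x)
  .L) (.add (.add (.mul 2 .N) .y) (.k 8))]

theorem qr40 {N t x y L : ℤ} (hD : D N t) : Fk.All ⟨N, t, x, y, L⟩ kr40 → P (A N t) N x y L :=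
  Fk.route (fam hD x y L) kr40 .y (.up .x (.add (.sub (.mul 2 .N) (.mul 2 .t)) (.k 4)))
    [(0, .pt .N), (1, .up (.add (.sub (.sub (.sub (.add (.mul 2 .N) .y) (.mul 2 .t)) .x) .L) (.k
    7)) .y)]
    [.f 8650880, .f 8781952, .f 37436734551621762, .f 128, .f 128, .f 9371776, .f 128, .f
    549764595844, .f 37436734551621762, .f 9240704, .f 9240704, .f 128, .f 128, .f 824642961550, .f
    2619474533063103479941, .f 128, .f 128, .f 37436734551621762, .f 36873797483364480, .f 8519808,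
    .f 8716416, .f 36873797483364480, .f 549764333701, .f 37155809331118336, .f 37155809331118336,
    .f 8585344, .f 8585344, .s 12 (.f 8454272) (.f 12648576), .s 11 (.f 8454272) (.f 12648576), .f
    128, .f 128, .f 8716417, .f 8585344, .f 128, .f 128, .f 128, .f 128]
    (by decide +kernel)

theorem rT40 {N t x y L : ℤ} (hD : D N t)
    (c0 : 2 * N + 7 ≤ 2 * t + x + L)
    (c1 : x + L ≤ y + 2)
    (c2 : (0 : ℤ) ≤ x)
    (c3 : y + 1 ≤ N)
    (c4 : 2 * t + x ≤ 2 * N + 4)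
    (c5 : y + 5 ≠ x + L)
    (c6 : y + 4 ≠ x + L)
    (c7 : t + x + L ≠ N + y + 6)
    (c8 : t + x + L ≠ N + y + 7)
    (c9 : 3 * t + x + L ≠ 2 * N + y + 7)
    (c10 : 3 * t + x + L ≠ 2 * N + y + 8) :
    P (A N t) N x y L := by
  exact qr40 hD ⟨c0, c1, c2, c3, c4, c5, c6, c7, c8, c9, c10, trivial⟩

/-- hypotheses -/
noncomputable def kr42 : List Fk.C :=
  [.le (.add .N (.k 3)) (.add .y .L), .le (.add .x (.k 1)) .y, .le (.add .y (.k 1)) .N, .le (.add
  .y .L) (.add (.add .N .x) (.k 2)), .ne (.add .x (.k 1)) .t, .ne .x .t, .ne (.add .t .x) .N, .ne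
  (.add .t .x) (.add .N (.k 1)), .ne (.add .y .L) (.add (.add .N .t) (.k 2)), .ne (.add .y .L)
  (.add (.add .N .t) (.k 3)), .ne (.add (.mul 2 .t) .x) (.add (.mul 2 .N) (.k 2)), .ne (.add (.mul
  2 .t) .x) (.add (.mul 2 .N) (.k 3)), .ne (.add (.add .t .y) .L) (.add (.mul 2 .N) (.k 3)), .ne
  (.add (.add .t .y) .L) (.add (.mul 2 .N) (.k 4)), .ne (.add (.add (.mul 2 .t) .y) .L) (.add (.mul
  3 .N) (.k 5)), .ne (.add (.add (.mul 2 .t) .y) .L) (.add (.mul 3 .N) (.k 6))]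

theorem qr42 {N t x y L : ℤ} (hD : D N t) : Fk.All ⟨N, t, x, y, L⟩ kr42 → P (A N t) N x y L :=
  Fk.route (fam hD x y L) kr42 .y (.pt .x)
    [(0, .pt .N), (1, .dn (.sub (.sub (.add .y .L) .N) (.k 3)) (.k 0)), (3, .dn (.sub .N (.k 1))
    .y)]
    [.f 549764333701, .f 562649366656, .f 128, .f 128, .f 9699456, .f 128, .f 549764333701, .f
    549764464771, .s 8 (.f 12648576) (.f 8454272), .s 9 (.f 12648576) (.f 8454272), .s 12 (.f
    12648576) (.f 8454272), .s 13 (.f 12648576) (.f 8454272), .s 6 (.f 12648576) (.f 8454272), .s 7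
    (.f 12648576) (.f 8454272), .f 128, .f 128, .f 549764464771, .f 128, .f 8519808, .f
    37436738846589059, .f 8519808, .f 37436738846589059, .s 14 (.f 12648576) (.f 8454272), .s 15
    (.f 12648576) (.f 8454272), .s 16 (.f 12648576) (.f 8454272), .s 17 (.f 12648576) (.f 8454272),
    .s 10 (.f 12648576) (.f 8454272), .s 11 (.f 12648576) (.f 8454272), .f 128, .f 128, .f
    36873788893233285, .f 8716417, .f 36873771713429637, .f 8650880, .f 128, .f 128, .f 128, .f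
    128, .f 128, .f 549764399237, .f 129, .f 8585344, .f 128, .f 128, .f 128, .f 128]
    (by decide +kernel)

theorem rT42 {N t x y L : ℤ} (hD : D N t)
    (c0 : N + 3 ≤ y + L)
    (c1 : x + 1 ≤ y)
    (c2 : y + 1 ≤ N)
    (c3 : y + L ≤ N + x + 2)
    (c4 : x + 1 ≠ t)
    (c5 : x ≠ t)
    (c6 : t + x ≠ N)
    (c7 : t + x ≠ N + 1)
    (c8 : y + L ≠ N + t + 2)
    (c9 : y + L ≠ N + t + 3)
    (c10 : 2 * t + x ≠ 2 * N + 2)
    (c11 : 2 * t + x ≠ 2 * N + 3)
    (c12 : t + y + L ≠ 2 * N + 3)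
    (c13 : t + y + L ≠ 2 * N + 4)
    (c14 : 2 * t + y + L ≠ 3 * N + 5)
    (c15 : 2 * t + y + L ≠ 3 * N + 6) :
    P (A N t) N x y L := by
  exact qr42 hD ⟨c0, c1, c2, c3, c4, c5, c6, c7, c8, c9, c10, c11, c12, c13, c14, c15, trivial⟩

/-- hypotheses -/
noncomputable def kr44 : List Fk.C :=
  [.le (.add .t (.k 5)) (.add .y .L), .le (.add .x (.k 1)) .y, .le .y (.add .t (.k 2)), .le (.add
  .y .L) (.add (.add .t .x) (.k 5)), .le (.add .t (.k 3)) .N, .ne (.add .y .L) (.add .x (.k 5)),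
  .ne (.add .y .L) (.add .x (.k 6)), .ne (.add (.add (.mul 2 .t) .x) (.k 5)) (.add (.add .N .y)
  .L), .ne (.add (.add (.mul 2 .t) .x) (.k 4)) (.add (.add .N .y) .L), .ne (.add (.add (.mul 3 .t)
  .x) (.k 3)) (.add (.add (.mul 2 .N) .y) .L), .ne (.add (.add (.mul 3 .t) .x) (.k 2)) (.add (.add
  (.mul 2 .N) .y) .L)]

theorem qr44 {N t x y L : ℤ} (hD : D N t) : Fk.All ⟨N, t, x, y, L⟩ kr44 → P (A N t) N x y L :=
  Fk.route (fam hD x y L) kr44 .y (.dn .x (.add (.sub (.sub (.add .t .x) .y) .L) (.k 5)))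
    [(0, .pt .N), (1, .dn (.add .t (.k 2)) .y)]
    [.f 8716416, .f 8519808, .f 36873788893167750, .f 128, .f 128, .f 9371776, .f 128, .f 8716416,
    .f 2416560628911231205510, .s 9 (.f 12648576) (.f 8454272), .s 10 (.f 12648576) (.f 8454272),
    .s 11 (.f 12648576) (.f 8454272), .s 12 (.f 12648576) (.f 8454272), .s 8 (.f 8454272) (.f
    12648576), .s 7 (.f 8454272) (.f 12648576), .f 128, .f 128, .f 36873788893167750, .f
    36873771713429637, .f 8650880, .f 8781952, .f 2361220396690102878339, .f 8781952, .f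
    549765120262, .f 549765120262, .f 549765120134, .f 549765120134, .f 128, .f 128, .f 128, .f
    128, .f 8781953, .f 8585344, .f 128, .f 128, .f 128, .f 128]
    (by decide +kernel)

theorem rT44 {N t x y L : ℤ} (hD : D N t)
    (c0 : t + 5 ≤ y + L)
    (c1 : x + 1 ≤ y)
    (c2 : y ≤ t + 2)
    (c3 : y + L ≤ t + x + 5)
    (c4 : t + 3 ≤ N)
    (c5 : y + L ≠ x + 5)
    (c6 : y + L ≠ x + 6)
    (c7 : 2 * t + x + 5 ≠ N + y + L)
    (c8 : 2 * t + x + 4 ≠ N + y + L)
    (c9 : 3 * t + x + 3 ≠ 2 * N + y + L)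
    (c10 : 3 * t + x + 2 ≠ 2 * N + y + L) :
    P (A N t) N x y L := by
  exact qr44 hD ⟨c0, c1, c2, c3, c4, c5, c6, c7, c8, c9, c10, trivial⟩

/-- hypotheses -/
noncomputable def kr46 : List Fk.C :=
  [.le (.add (.mul 2 .N) (.k 3)) (.add (.mul 2 .t) .x), .le (.add .t (.k 4)) (.add .y .L), .le
  (.add .x (.k 1)) .y, .le .y .t, .le (.add (.add .t .y) .L) (.add (.mul 2 .N) (.k 6)), .ne (.add
  .x (.k 1)) .t, .ne .x .t, .ne (.add .y .L) (.add .t (.k 3)), .ne (.add .y .L) (.add .t (.k 4)),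
  .ne (.add .t .x) .N, .ne (.add .t .x) (.add .N (.k 1)), .ne (.add .y .L) (.add .N (.k 5)), .ne
  (.add .y .L) (.add .N (.k 6)), .ne (.add (.mul 2 .t) .x) (.add (.mul 2 .N) (.k 2)), .ne (.add
  (.mul 2 .t) .x) (.add (.mul 2 .N) (.k 3)), .ne (.add (.add (.mul 2 .t) .y) .L) (.add (.mul 2 .N)
  (.k 6)), .ne (.add (.add (.mul 2 .t) .y) .L) (.add (.mul 2 .N) (.k 7))]

theorem qr46 {N t x y L : ℤ} (hD : D N t) : Fk.All ⟨N, t, x, y, L⟩ kr46 → P (A N t) N x y L :=
  Fk.route (fam hD x y L) kr46 .y (.pt .x)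
    [(0, .pt .N), (1, .up (.add (.sub (.sub (.sub (.mul 2 .N) .t) .y) .L) (.k 6)) (.add (.sub (.mul
    2 .N) (.mul 2 .t)) (.k 2))), (8, .dn .t .y)]
    [.f 37718196643627138, .f 2471937171408658891012, .f 128, .f 128, .f 9764992, .f 128, .f
    37718196643627138, .f 36029368258265235, .f 72058156687425794, .f 37718746399441154, .f
    8519808, .s 16 (.f 12648576) (.f 8454272), .s 7 (.f 12648576) (.f 8454272), .f 824642437252, .f
    128, .f 128, .f 36029368258265235, .f 8781952, .f 8585344, .f 309489824494732363520147590, .f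
    8781952, .f 309489824494733463031775366, .s 14 (.f 8454272) (.f 12648576), .s 13 (.f 8454272)
    (.f 12648576), .s 10 (.f 8454272) (.f 12648576), .f 8585408, .f 2435007654464216629378, .f
    2435007654464216629378, .f 128, .f 128, .f 314325527808375797760131206, .f 8519809, .f
    2471899735241043148930, .f 8716416, .f 9633920, .f 128, .f 128, .f 128, .f 128, .f
    549764333700, .f 9633921, .f 8650880, .f 128, .f 128, .f 128, .f 128]
    (by decide +kernel)

theorem rT46 {N t x y L : ℤ} (hD : D N t)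
    (c0 : 2 * N + 3 ≤ 2 * t + x)
    (c1 : t + 4 ≤ y + L)
    (c2 : x + 1 ≤ y)
    (c3 : y ≤ t)
    (c4 : t + y + L ≤ 2 * N + 6)
    (c5 : x + 1 ≠ t)
    (c6 : x ≠ t)
    (c7 : y + L ≠ t + 3)
    (c8 : y + L ≠ t + 4)
    (c9 : t + x ≠ N)
    (c10 : t + x ≠ N + 1)
    (c11 : y + L ≠ N + 5)
    (c12 : y + L ≠ N + 6)
    (c13 : 2 * t + x ≠ 2 * N + 2)
    (c14 : 2 * t + x ≠ 2 * N + 3)
    (c15 : 2 * t + y + L ≠ 2 * N + 6)
    (c16 : 2 * t + y + L ≠ 2 * N + 7) :
    P (A N t) N x y L := by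
  exact qr46 hD ⟨c0, c1, c2, c3, c4, c5, c6, c7, c8, c9, c10, c11, c12, c13, c14, c15, c16, trivial⟩

/-- hypotheses -/
noncomputable def kr48 : List Fk.C :=
  [.le (.add .N (.k 4)) (.add .y .L), .le (.add .x (.k 1)) .y, .le (.add .y (.k 1)) .N, .le (.add
  .y .L) (.add (.add .N .x) (.k 2)), .ne (.add .y .L) (.add (.add .t .x) (.k 3)), .ne (.add .y .L)
  (.add (.add .t .x) (.k 4)), .ne (.add (.add (.mul 2 .t) .x) (.k 2)) (.add (.add .N .y) .L), .ne
  (.add (.add (.mul 2 .t) .x) (.k 1)) (.add (.add .N .y) .L), .ne (.add (.add .t .y) .L) (.add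
  (.add .N .x) (.k 4)), .ne (.add (.add .t .y) .L) (.add (.add .N .x) (.k 5))]

theorem qr48 {N t x y L : ℤ} (hD : D N t) : Fk.All ⟨N, t, x, y, L⟩ kr48 → P (A N t) N x y L :=
  Fk.route (fam hD x y L) kr48 .y (.dn .x (.add (.sub (.sub (.add .N .x) .y) .L) (.k 4)))
    [(0, .pt .N), (1, .dn (.k 1) (.k 0)), (3, .dn (.sub .N (.k 1)) .y)]
    [.f 8716416, .f 8519808, .f 549764464771, .f 128, .f 128, .f 9306240, .f 128, .f 8716416, .f
    36029363963166851, .s 7 (.f 8454272) (.f 12648576), .s 6 (.f 8454272) (.f 12648576), .s 8 (.f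
    12648576) (.f 8454272), .s 9 (.f 12648576) (.f 8454272), .s 11 (.f 8454272) (.f 12648576), .s
    10 (.f 8454272) (.f 12648576), .f 128, .f 128, .f 562649104516, .f 128, .f 128, .f 9306240, .f
    128, .f 9306240, .f 9175232, .f 9175232, .f 17563840, .f 17563840, .f
    696348429543378015698616707, .f 696348429543378015698616707, .f 128, .f 128, .f 9306241, .f
    8716417, .f 36873771713429637, .f 8650880, .f 128, .f 128, .f 128, .f 128, .f 128, .f
    36873771713429637, .f 129, .f 8585344, .f 128, .f 128, .f 128, .f 128]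
    (by decide +kernel)

theorem rT48 {N t x y L : ℤ} (hD : D N t)
    (c0 : N + 4 ≤ y + L)
    (c1 : x + 1 ≤ y)
    (c2 : y + 1 ≤ N)
    (c3 : y + L ≤ N + x + 2)
    (c4 : y + L ≠ t + x + 3)
    (c5 : y + L ≠ t + x + 4)
    (c6 : 2 * t + x + 2 ≠ N + y + L)
    (c7 : 2 * t + x + 1 ≠ N + y + L)
    (c8 : t + y + L ≠ N + x + 4)
    (c9 : t + y + L ≠ N + x + 5) :
    P (A N t) N x y L := by
  exact qr48 hD ⟨c0, c1, c2, c3, c4, c5, c6, c7, c8, c9, trivial⟩

/-- hypotheses -/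
noncomputable def kr50 : List Fk.C :=
  [.le (.add .t (.k 4)) (.add .y .L), .le (.k 0) .x, .le (.add .x .L) (.add .t (.k 3)), .le .y
  (.add .t (.k 1)), .ne (.add (.add .x .y) .L) (.add (.mul 2 .t) (.k 3)), .ne (.add (.add .x .y)
  .L) (.add (.mul 2 .t) (.k 4)), .ne (.add (.add .x .y) .L) (.add .N (.k 4)), .ne (.add (.add .x
  .y) .L) (.add .N (.k 5)), .ne (.add (.add (.add .t .x) .y) .L) (.add (.mul 2 .N) (.k 6)), .ne
  (.add (.add (.add .t .x) .y) .L) (.add (.mul 2 .N) (.k 7))]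

theorem qr50 {N t x y L : ℤ} (hD : D N t) : Fk.All ⟨N, t, x, y, L⟩ kr50 → P (A N t) N x y L :=
  Fk.route (fam hD x y L) kr50 .y (.up .x (.sub (.sub (.add (.add .x .y) .L) .t) (.k 4)))
    [(0, .pt .N), (1, .dn (.add .t (.k 1)) .y)]
    [.f 8585344, .f 8519808, .f 36029368258265228, .f 128, .f 128, .f 9306240, .f 128, .f
    549764333699, .f 36029368258265228, .s 8 (.f 12648576) (.f 8454272), .s 9 (.f 12648576) (.f
    8454272), .s 10 (.f 12648576) (.f 8454272), .s 11 (.f 12648576) (.f 8454272), .s 6 (.f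
    12648576) (.f 8454272), .s 7 (.f 12648576) (.f 8454272), .f 128, .f 128, .f 39407067978530948,
    .f 37155246690140291, .f 8716416, .f 9175168, .f 2361220678165079457924, .f 9175168, .f
    549765054732, .f 549765054732, .f 549765054604, .f 549765054604, .f 128, .f 128, .f 128, .f
    128, .f 9175169, .f 8650880, .f 128, .f 128, .f 128, .f 128]
    (by decide +kernel)

theorem rT50 {N t x y L : ℤ} (hD : D N t)
    (c0 : t + 4 ≤ y + L)
    (c1 : (0 : ℤ) ≤ x)
    (c2 : x + L ≤ t + 3)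
    (c3 : y ≤ t + 1)
    (c4 : x + y + L ≠ 2 * t + 3)
    (c5 : x + y + L ≠ 2 * t + 4)
    (c6 : x + y + L ≠ N + 4)
    (c7 : x + y + L ≠ N + 5)
    (c8 : t + x + y + L ≠ 2 * N + 6)
    (c9 : t + x + y + L ≠ 2 * N + 7) :
    P (A N t) N x y L := by
  exact qr50 hD ⟨c0, c1, c2, c3, c4, c5, c6, c7, c8, c9, trivial⟩

/-- hypotheses -/
noncomputable def kr52 : List Fk.C :=
  [.le (.add .N (.k 2)) (.add .t .x), .le (.add .x (.k 1)) .y, .le (.add .y .L) (.add (.add .t .x)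
  (.k 2)), .le (.add (.add .t .x) (.k 3)) (.add .N .L), .ne (.add .y .L) (.add .x (.k 3)), .ne
  (.add .y .L) (.add .x (.k 4)), .ne (.add (.add (.mul 2 .t) .x) (.k 3)) (.add (.add .N .y) .L),
  .ne (.add (.add (.mul 2 .t) .x) (.k 2)) (.add (.add .N .y) .L), .ne (.add (.add .t .y) .L) (.add
  (.add .N .x) (.k 5)), .ne (.add (.add .t .y) .L) (.add (.add .N .x) (.k 6))]

theorem qr52 {N t x y L : ℤ} (hD : D N t) : Fk.All ⟨N, t, x, y, L⟩ kr52 → P (A N t) N x y L :=
  Fk.route (fam hD x y L) kr52 .y (.dn .x (.add (.sub .N .t) (.k 2)))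
    [(11, .up (.k 0) (.k 1)), (0, .pt .N), (1, .dn (.sub (.sub (.sub (.add (.add .N .y) .L) .t) .x)
    (.k 3)) .y)]
    [.f 9175168, .f 8519808, .f 36029368258199684, .f 128, .f 128, .f 128, .f 128, .f 9306240, .f
    128, .f 128, .f 128, .f 128, .f 9175169, .f 9306240, .f 128, .f 128, .f 9306240, .f 9175232, .f
    9175232, .f 12583180, .f 12583180, .f 3541811454461855662213, .f 2435007654464216629378, .f
    128, .f 128, .f 9306240, .f 37155246690205829, .f 36029359668854914, .f 8716416, .f 8650880, .f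
    2361220678169375015042, .f 8650880, .f 36029368258199682, .f 36029368258199682, .s 10 (.f
    12648576) (.f 8454272), .s 11 (.f 12648576) (.f 8454272), .s 9 (.f 8454272) (.f 12648576), .s 8
    (.f 8454272) (.f 12648576), .f 128, .f 128, .f 8650881, .f 36029355373887619, .f 8585344, .f
    128, .f 128, .f 128, .f 128]
    (by decide +kernel)

theorem rT52 {N t x y L : ℤ} (hD : D N t)
    (c0 : N + 2 ≤ t + x)
    (c1 : x + 1 ≤ y)
    (c2 : y + L ≤ t + x + 2)
    (c3 : t + x + 3 ≤ N + L)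
    (c4 : y + L ≠ x + 3)
    (c5 : y + L ≠ x + 4)
    (c6 : 2 * t + x + 3 ≠ N + y + L)
    (c7 : 2 * t + x + 2 ≠ N + y + L)
    (c8 : t + y + L ≠ N + x + 5)
    (c9 : t + y + L ≠ N + x + 6) :
    P (A N t) N x y L := by
  exact qr52 hD ⟨c0, c1, c2, c3, c4, c5, c6, c7, c8, c9, trivial⟩

/-- hypotheses -/
noncomputable def kr54 : List Fk.C :=
  [.le (.add .N (.k 2)) (.add .x .L), .le (.add .x (.k 1)) .y, .le (.add .y (.k 1)) .N, .le .L
  (.add .N (.k 1)), .ne .y .t, .ne .y (.add .t (.k 1)), .ne (.add .t .y) (.add .N (.k 1)), .ne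
  (.add .t .y) (.add .N (.k 2)), .ne (.add .x .L) (.add (.add .N .t) (.k 1)), .ne (.add .x .L)
  (.add (.add .N .t) (.k 2)), .ne (.add (.mul 2 .t) .y) (.add (.mul 2 .N) (.k 3)), .ne (.add (.mul
  2 .t) .y) (.add (.mul 2 .N) (.k 4)), .ne (.add (.add .t .x) .L) (.add (.mul 2 .N) (.k 2)), .ne
  (.add (.add .t .x) .L) (.add (.mul 2 .N) (.k 3)), .ne (.add (.add (.mul 2 .t) .x) .L) (.add (.mul
  3 .N) (.k 4)), .ne (.add (.add (.mul 2 .t) .x) .L) (.add (.mul 3 .N) (.k 5))]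

theorem qr54 {N t x y L : ℤ} (hD : D N t) : Fk.All ⟨N, t, x, y, L⟩ kr54 → P (A N t) N x y L :=
  Fk.route (fam hD x y L) kr54 .y (.up .x (.sub .y (.k 1)))
    [(0, .pt .N), (1, .dn (.sub (.sub (.add .x .L) .N) (.k 2)) (.k 0)), (3, .dn (.sub .N (.k 1))
    .y)]
    [.f 549764530306, .f 8585344, .f 8650880, .f 128, .f 128, .f 9699456, .f 128, .f
    36029359668199557, .f 8650880, .s 8 (.f 12648576) (.f 8454272), .s 9 (.f 12648576) (.f
    8454272), .s 12 (.f 12648576) (.f 8454272), .s 13 (.f 12648576) (.f 8454272), .s 6 (.f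
    12648576) (.f 8454272), .s 7 (.f 12648576) (.f 8454272), .f 128, .f 128, .f 8650880, .f 128, .f
    8519808, .f 36029363963232389, .f 8519808, .f 36029363963232389, .s 14 (.f 12648576) (.f
    8454272), .s 15 (.f 12648576) (.f 8454272), .s 16 (.f 12648576) (.f 8454272), .s 17 (.f
    12648576) (.f 8454272), .s 10 (.f 12648576) (.f 8454272), .s 11 (.f 12648576) (.f 8454272), .f
    128, .f 128, .f 37436738846785665, .f 8716417, .f 36029359668199557, .f 8650880, .f 128, .f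
    128, .f 128, .f 128, .f 128, .f 571239039107, .f 129, .f 128, .f 128, .f 128, .f 128, .f 128]
    (by decide +kernel)

theorem rT54 {N t x y L : ℤ} (hD : D N t)
    (c0 : N + 2 ≤ x + L)
    (c1 : x + 1 ≤ y)
    (c2 : y + 1 ≤ N)
    (c3 : L ≤ N + 1)
    (c4 : y ≠ t)
    (c5 : y ≠ t + 1)
    (c6 : t + y ≠ N + 1)
    (c7 : t + y ≠ N + 2)
    (c8 : x + L ≠ N + t + 1)
    (c9 : x + L ≠ N + t + 2)
    (c10 : 2 * t + y ≠ 2 * N + 3)
    (c11 : 2 * t + y ≠ 2 * N + 4)
    (c12 : t + x + L ≠ 2 * N + 2)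
    (c13 : t + x + L ≠ 2 * N + 3)
    (c14 : 2 * t + x + L ≠ 3 * N + 4)
    (c15 : 2 * t + x + L ≠ 3 * N + 5) :
    P (A N t) N x y L := by
  exact qr54 hD ⟨c0, c1, c2, c3, c4, c5, c6, c7, c8, c9, c10, c11, c12, c13, c14, c15, trivial⟩

/-- hypotheses -/
noncomputable def kr56 : List Fk.C :=
  [.le (.add (.mul 3 .N) (.k 5)) (.add (.add (.add .t .x) .y) .L), .le (.add .t (.k 1)) .y, .le .x
  .t, .le (.add .y (.k 1)) .N, .le (.add .y .L) (.add (.add .N .t) (.k 2)), .ne (.add (.add .x .y)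
  .L) (.add (.add .N (.mul 2 .t)) (.k 2)), .ne (.add (.add .x .y) .L) (.add (.add .N (.mul 2 .t))
  (.k 3)), .ne (.add (.add .x .y) .L) (.add (.mul 2 .N) (.k 3)), .ne (.add (.add .x .y) .L) (.add
  (.mul 2 .N) (.k 4)), .ne (.add (.add (.add .t .x) .y) .L) (.add (.mul 3 .N) (.k 5)), .ne (.add
  (.add (.add .t .x) .y) .L) (.add (.mul 3 .N) (.k 6))]

theorem qr56 {N t x y L : ℤ} (hD : D N t) : Fk.All ⟨N, t, x, y, L⟩ kr56 → P (A N t) N x y L :=
  Fk.route (fam hD x y L) kr56 .y (.up .x .t)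
    [(9, .up (.add (.sub (.mul 2 .N) (.mul 2 .t)) (.k 2)) (.sub (.sub (.sub (.add (.add .x .y) .L)
    .N) .t) (.k 3))), (0, .pt .N), (1, .dn (.add (.sub (.mul 2 .N) (.mul 2 .t)) (.k 1)) (.k 0)),
    (3, .dn (.sub .N (.k 1)) .y)]
    [.f 2361256707516149137542, .f 8650880, .f 9240704, .f 128, .f 128, .f 549772919043, .f
    8519808, .f 2361220115223716102278, .f 128, .f 128, .f 128, .f 128, .f 8781953, .f 9371776, .f
    128, .f 36029918022402178, .f 2361220115223716102278, .f 37436734551752832, .f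
    36029368258199682, .s 11 (.f 12648576) (.f 8454272), .s 12 (.f 12648576) (.f 8454272), .s 7 (.f
    12648576) (.f 8454272), .f 824642371718, .f 128, .f 128, .f 2471901142611631538308, .f 9240704,
    .f 128, .f 549772919043, .f 154744958364789597307797638, .f 549772919043, .f
    154744958364789597307797638, .f 9240704, .f 9240704, .f 192, .f 192, .f 54043762472648838, .f
    54043762472648838, .f 128, .f 128, .f 4833120132459426611343, .f 129, .f 575534071938, .f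
    154747319548032131642032262, .f 8716416, .f 128, .f 128, .f 128, .f 128, .f 128, .f
    2471899735241043148930, .f 129, .f 37718213823496320, .f 8585344, .f 128, .f 128, .f 128, .f
    128]
    (by decide +kernel)

theorem rT56 {N t x y L : ℤ} (hD : D N t)
    (c0 : 3 * N + 5 ≤ t + x + y + L)
    (c1 : t + 1 ≤ y)
    (c2 : x ≤ t)
    (c3 : y + 1 ≤ N)
    (c4 : y + L ≤ N + t + 2)
    (c5 : x + y + L ≠ N + 2 * t + 2)
    (c6 : x + y + L ≠ N + 2 * t + 3)
    (c7 : x + y + L ≠ 2 * N + 3)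
    (c8 : x + y + L ≠ 2 * N + 4)
    (c9 : t + x + y + L ≠ 3 * N + 5)
    (c10 : t + x + y + L ≠ 3 * N + 6) :
    P (A N t) N x y L := by
  exact qr56 hD ⟨c0, c1, c2, c3, c4, c5, c6, c7, c8, c9, c10, trivial⟩

/-- hypotheses -/
noncomputable def kr58 : List Fk.C :=
  [.le (.add (.mul 2 .N) (.k 2)) (.add (.mul 2 .t) .x), .le (.add (.add .N .x) (.k 3)) (.add .t
  .L), .le (.add .y (.k 1)) .t, .le (.add .t .L) (.add (.add .N .y) (.k 2)), .ne .L (.add (.add .x
  .y) (.k 2)), .ne .L (.add (.add .x .y) (.k 3)), .ne (.add (.mul 2 .t) .L) (.add (.add (.add .N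
  .x) .y) (.k 3)), .ne (.add (.mul 2 .t) .L) (.add (.add (.add .N .x) .y) (.k 4)), .ne (.add (.add
  (.add .t .x) .y) (.k 1)) (.add .N .L), .ne (.add (.add .t .x) .y) (.add .N .L)]

theorem qr58 {N t x y L : ℤ} (hD : D N t) : Fk.All ⟨N, t, x, y, L⟩ kr58 → P (A N t) N x y L :=
  Fk.route (fam hD x y L) kr58 .y (.dn .x (.add (.sub (.mul 2 .N) (.mul 2 .t)) (.k 2)))
    [(8, .up .t (.sub .N (.k 1))), (2, .up (.k 0) (.add (.sub (.mul 2 .N) (.mul 2 .t)) (.k 1))),
    (0, .pt .N), (1, .up (.add (.sub (.sub (.add (.add .N .x) .y) .t) .L) (.k 3)) .y)]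
    [.f 8388876, .f 8519808, .f 2361222648502801334404, .f 128, .f 128, .f
    159580624750041428679328012, .f 9175168, .f 128, .f 128, .f 128, .f 128, .f 128, .f
    37155259575238784, .f 128, .f 8388876, .f 159580624750041428679327884, .f 128, .f 128, .f 128,
    .f 128, .f 2435007091522849013890, .f 129, .f 9306240, .f 128, .f 8388876, .f
    159580624750041428679327884, .f 9175168, .f 9175168, .f 192, .f 192, .f 2435007091522853142658,
    .f 2453453835849961701508, .f 128, .f 128, .f 314325490879985294403305614, .f 128, .f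
    2435009624797639344259, .f 37437322962272384, .f 8585344, .f 549764989060, .f
    37437322962272384, .f 36029398322970756, .f 37436721667506306, .f 36029368258789506, .f
    571239039106, .s 11 (.f 12648576) (.f 8454272), .s 9 (.f 8454272) (.f 12648576), .f
    566948266115, .f 128, .f 128, .f 566944858241, .f 571239170176, .f 8650881, .f 8716416, .f 128,
    .f 128, .f 128, .f 128]
    (by decide +kernel)

theorem rT58 {N t x y L : ℤ} (hD : D N t)
    (c0 : 2 * N + 2 ≤ 2 * t + x)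
    (c1 : N + x + 3 ≤ t + L)
    (c2 : y + 1 ≤ t)
    (c3 : t + L ≤ N + y + 2)
    (c4 : L ≠ x + y + 2)
    (c5 : L ≠ x + y + 3)
    (c6 : 2 * t + L ≠ N + x + y + 3)
    (c7 : 2 * t + L ≠ N + x + y + 4)
    (c8 : t + x + y + 1 ≠ N + L)
    (c9 : t + x + y ≠ N + L) :
    P (A N t) N x y L := by
  exact qr58 hD ⟨c0, c1, c2, c3, c4, c5, c6, c7, c8, c9, trivial⟩

/-- hypotheses -/
noncomputable def kr60 : List Fk.C :=
  [.le (.add (.mul 2 .N) (.k 3)) (.add (.add .x .y) .L), .le (.add .t (.k 1)) .y, .le (.add .y (.k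
  1)) .N, .le (.add .y .L) (.add (.add .N .t) (.k 2)), .le (.add (.mul 2 .t) .x) (.add (.mul 2 .N)
  (.k 2)), .ne (.add (.add .x .y) .L) (.add (.add .N (.mul 2 .t)) (.k 2)), .ne (.add (.add .x .y)
  .L) (.add (.add .N (.mul 2 .t)) (.k 3)), .ne (.add (.add .x .y) .L) (.add (.mul 2 .N) (.k 3)),
  .ne (.add (.add .x .y) .L) (.add (.mul 2 .N) (.k 4)), .ne (.add (.add (.add .t .x) .y) .L) (.add
  (.mul 3 .N) (.k 5)), .ne (.add (.add (.add .t .x) .y) .L) (.add (.mul 3 .N) (.k 6))]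

theorem qr60 {N t x y L : ℤ} (hD : D N t) : Fk.All ⟨N, t, x, y, L⟩ kr60 → P (A N t) N x y L :=
  Fk.route (fam hD x y L) kr60 .y (.up .x (.add (.sub (.mul 2 .N) (.mul 2 .t)) (.k 2)))
    [(8, .dn .t (.add (.sub (.mul 2 .N) (.mul 2 .t)) (.k 3))), (5, .up (.sub .N .t) (.sub (.sub
    (.sub (.add (.add .x .y) .L) .N) .t) (.k 3))), (0, .pt .N), (1, .dn (.sub (.sub .N .t) (.k 1))
    (.k 0)), (3, .dn (.sub .N (.k 1)) .y)]
    [.f 2453454117050060505219, .f 8781952, .f 36029909424800004, .f 128, .f 128, .f 1116708470912,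
    .f 36029359668985988, .f 9240704, .f 128, .f 128, .f 128, .f 128, .f 128, .f 9240704, .f
    8519808, .f 160789605945354126049018116, .f 128, .f 128, .f 128, .f 128, .f 571239432321, .f
    8716417, .f 9371776, .f 128, .f 37155259575042176, .f 160789605945354126049018116, .s 9 (.f
    12648576) (.f 8454272), .s 10 (.f 12648576) (.f 8454272), .f 571239432384, .f 571239432384, .f
    160789605909325603907960964, .f 160789605909325603907960964, .f 128, .f 128, .f
    160789753484122343644266756, .f 9240704, .f 36029913719767299, .f 128, .f 9240704, .f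
    36030459180614020, .f 9240704, .f 36030459180614020, .f 192, .f 192, .f 9240768, .f 9240768, .f
    54044307934281988, .f 54044307934281988, .f 128, .f 128, .f 2203327529359, .f 129, .f 9240705,
    .f 571239104642, .f 36031008936427908, .f 8650880, .f 128, .f 128, .f 128, .f 128, .f 128, .f
    72058706443763855, .f 129, .f 160789753484122343644266628, .f 8585344, .f 36029363971621006, .f
    128, .f 128, .f 128, .f 128]
    (by decide +kernel)

theorem rT60 {N t x y L : ℤ} (hD : D N t)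
    (c0 : 2 * N + 3 ≤ x + y + L)
    (c1 : t + 1 ≤ y)
    (c2 : y + 1 ≤ N)
    (c3 : y + L ≤ N + t + 2)
    (c4 : 2 * t + x ≤ 2 * N + 2)
    (c5 : x + y + L ≠ N + 2 * t + 2)
    (c6 : x + y + L ≠ N + 2 * t + 3)
    (c7 : x + y + L ≠ 2 * N + 3)
    (c8 : x + y + L ≠ 2 * N + 4)
    (c9 : t + x + y + L ≠ 3 * N + 5)
    (c10 : t + x + y + L ≠ 3 * N + 6) :
    P (A N t) N x y L := by
  exact qr60 hD ⟨c0, c1, c2, c3, c4, c5, c6, c7, c8, c9, c10, trivial⟩

/-- hypotheses -/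
noncomputable def kr62 : List Fk.C :=
  [.le (.add (.mul 2 .N) (.k 2)) (.add (.mul 2 .t) .y), .le (.add .N .L) (.add (.add (.add .t .x)
  .y) (.k 1)), .le (.add .y (.k 1)) .t, .le (.add (.add .t .y) (.k 1)) (.add .N .L), .le (.add
  (.mul 2 .t) .x) (.add (.mul 2 .N) (.k 1)), .ne (.add (.add .x .y) (.k 2)) (.add .N .L), .ne (.add
  (.add .x .y) (.k 1)) (.add .N .L), .ne (.add (.add (.add (.mul 2 .t) .x) .y) (.k 1)) (.add (.mul
  2 .N) .L), .ne (.add (.add (.mul 2 .t) .x) .y) (.add (.mul 2 .N) .L), .ne (.add (.add (.mul 3 .t)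
  .x) .y) (.add (.add (.mul 3 .N) .L) (.k 1)), .ne (.add (.add (.mul 3 .t) .x) .y) (.add (.add
  (.mul 3 .N) .L) (.k 2))]

theorem qr62 {N t x y L : ℤ} (hD : D N t) : Fk.All ⟨N, t, x, y, L⟩ kr62 → P (A N t) N x y L :=
  Fk.route (fam hD x y L) kr62 .y (.dn .x (.add (.sub (.sub (.add (.add .t .x) .y) .N) .L) (.k 1)))
    [(0, .pt .N), (1, .dn (.sub .N (.k 1)) .t), (9, .up (.add (.sub (.mul 2 .N) (.mul 2 .t)) (.k
    2)) .y)]
    [.f 8585344, .f 8716416, .f 309487463348082675669926148, .f 128, .f 128, .f 9371776, .f 128, .f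
    8585344, .f 309492185714565545315139844, .s 9 (.f 12648576) (.f 8454272), .s 10 (.f 12648576)
    (.f 8454272), .f 824642437254, .f 824642437254, .f 3541812298899670564996, .f
    3541812298899670564996, .f 128, .f 128, .f 314325472469551492681105537, .f
    159580661642122214099779718, .f 9240704, .f 128, .f 9371776, .f 128, .f
    154744903025120326132695173, .f 36029355382341764, .f 36029355373953156, .f 36029355373953156,
    .f 9240704, .f 9240704, .f 128, .f 128, .f 129, .f 37155246690402434, .f 37718218118463616, .f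
    8519808, .f 4722403919617081934084, .f 128, .f 128, .f 128, .f 128, .f 8650881, .f
    4796225798809032261765, .f 8781952, .f 128, .f 128, .f 128, .f 128]
    (by decide +kernel)

theorem rT62 {N t x y L : ℤ} (hD : D N t)
    (c0 : 2 * N + 2 ≤ 2 * t + y)
    (c1 : N + L ≤ t + x + y + 1)
    (c2 : y + 1 ≤ t)
    (c3 : t + y + 1 ≤ N + L)
    (c4 : 2 * t + x ≤ 2 * N + 1)
    (c5 : x + y + 2 ≠ N + L)
    (c6 : x + y + 1 ≠ N + L)
    (c7 : 2 * t + x + y + 1 ≠ 2 * N + L)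
    (c8 : 2 * t + x + y ≠ 2 * N + L)
    (c9 : 3 * t + x + y ≠ 3 * N + L + 1)
    (c10 : 3 * t + x + y ≠ 3 * N + L + 2) :
    P (A N t) N x y L := by
  exact qr62 hD ⟨c0, c1, c2, c3, c4, c5, c6, c7, c8, c9, c10, trivial⟩

/-- hypotheses -/
noncomputable def kr64 : List Fk.C :=
  [.le (.add .N (.k 1)) (.add .y .L), .le (.add .x (.k 1)) .y, .le (.add .y (.k 2)) .N, .le (.add
  .y .L) (.add (.add .N .x) (.k 1)), .ne (.add .y .L) (.add .t .x), .ne (.add .y .L) (.add (.add .t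
  .x) (.k 1)), .ne (.add (.mul 2 .t) .x) (.add (.add (.add .N .y) .L) (.k 1)), .ne (.add (.mul 2
  .t) .x) (.add (.add (.add .N .y) .L) (.k 2)), .ne (.add .t (.k 2)) .N, .ne (.add (.add .t .y) .L)
  (.add (.add .N .x) (.k 1)), .ne (.add (.add .t .y) .L) (.add (.add .N .x) (.k 2))]

theorem qr64 {N t x y L : ℤ} (hD : D N t) : Fk.All ⟨N, t, x, y, L⟩ kr64 → P (A N t) N x y L :=
  Fk.route (fam hD x y L) kr64 .y (.dn .x (.add (.sub (.sub (.add .N .x) .y) .L) (.k 1)))
    [(0, .pt .N), (1, .dn (.sub .N (.k 2)) .y)]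
    [.f 8716416, .f 8519808, .f 549764464771, .f 128, .f 128, .f 9371776, .f 128, .f 8716416, .f
    36029363963166851, .s 7 (.f 8454272) (.f 12648576), .s 6 (.f 8454272) (.f 12648576), .s 8 (.f
    12648576) (.f 8454272), .s 9 (.f 12648576) (.f 8454272), .s 12 (.f 8454272) (.f 12648576), .s
    11 (.f 8454272) (.f 12648576), .f 128, .f 128, .f 562649104516, .f 36873771713429637, .f
    8650880, .f 128, .f 9371776, .f 128, .f 549781831822, .f 549781831822, .f 549773443214, .f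
    549773443214, .f 9240704, .s 10 (.f 8454272) (.f 12648576), .f 128, .f 128, .f 129, .f 8585344,
    .f 128, .f 128, .f 128, .f 128]
    (by decide +kernel)

theorem rT64 {N t x y L : ℤ} (hD : D N t)
    (c0 : N + 1 ≤ y + L)
    (c1 : x + 1 ≤ y)
    (c2 : y + 2 ≤ N)
    (c3 : y + L ≤ N + x + 1)
    (c4 : y + L ≠ t + x)
    (c5 : y + L ≠ t + x + 1)
    (c6 : 2 * t + x ≠ N + y + L + 1)
    (c7 : 2 * t + x ≠ N + y + L + 2)
    (c8 : t + 2 ≠ N)
    (c9 : t + y + L ≠ N + x + 1)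
    (c10 : t + y + L ≠ N + x + 2) :
    P (A N t) N x y L := by
  exact qr64 hD ⟨c0, c1, c2, c3, c4, c5, c6, c7, c8, c9, c10, trivial⟩

/-- hypotheses -/
noncomputable def kr66 : List Fk.C :=
  [.le (.add (.mul 2 .N) (.k 4)) (.add (.add .t .y) .L), .le (.add .N (.k 3)) (.add .t .x), .le
  (.add .y (.k 1)) .N, .le (.add (.add .t .x) .L) (.add (.mul 2 .N) (.k 3)), .ne (.add .t (.k 2))
  .N, .ne (.add (.add .x .y) .L) (.add (.mul 2 .N) (.k 3)), .ne (.add (.add .x .y) .L) (.add (.mul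
  2 .N) (.k 4)), .ne (.add (.add (.add (.mul 2 .t) .x) .y) .L) (.add (.mul 3 .N) (.k 4)), .ne (.add
  (.add (.add (.mul 2 .t) .x) .y) .L) (.add (.mul 3 .N) (.k 5)), .ne (.add (.add (.add (.mul 3 .t)
  .x) .y) .L) (.add (.mul 4 .N) (.k 6)), .ne (.add (.add (.add (.mul 3 .t) .x) .y) .L) (.add (.mul
  4 .N) (.k 7))]

theorem qr66 {N t x y L : ℤ} (hD : D N t) : Fk.All ⟨N, t, x, y, L⟩ kr66 → P (A N t) N x y L :=
  Fk.route (fam hD x y L) kr66 .y (.up .x (.sub (.sub (.add (.add (.add .t .x) .y) .L) (.mul 2 .N)) (.k 4)))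
    [(0, .pt .N), (1, .up (.k 2) (.add (.sub .N .t) (.k 2))), (11, .pt (.k 0)), (3, .dn (.sub .N
    (.k 1)) .y)]
    [.f 549765054595, .f 8519808, .f 571239039108, .f 128, .f 128, .f 9371776, .f 128, .f
    36029402617938050, .f 571239039108, .f 562649104514, .f 562649104514, .s 11 (.f 12648576) (.f
    8454272), .s 12 (.f 12648576) (.f 8454272), .s 7 (.f 12648576) (.f 8454272), .s 8 (.f 12648576)
    (.f 8454272), .f 128, .f 128, .f 571239039108, .f 128, .f 9240704, .f 2453454117050060570754,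
    .f 128, .f 9371776, .s 6 (.f 12648576) (.f 8454272), .f 9240768, .f 12583181, .f 12583181, .f
    2416560629177519308933, .f 2453454117324938477698, .f 128, .f 128, .f 2453454117054355538050,
    .f 8585345, .f 128, .f 9371776, .f 128, .f 128, .f 128, .f 128, .f 129, .f 9371777, .f
    562649170061, .f 2361222929977778045058, .f 8650880, .f 128, .f 128, .f 128, .f 128, .f 128, .f
    2453452991205988302978, .f 37436721666916482, .f 129, .f 8716416, .f 128, .f 128, .f 128, .f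
    128]
    (by decide +kernel)

theorem rT66 {N t x y L : ℤ} (hD : D N t)
    (c0 : 2 * N + 4 ≤ t + y + L)
    (c1 : N + 3 ≤ t + x)
    (c2 : y + 1 ≤ N)
    (c3 : t + x + L ≤ 2 * N + 3)
    (c4 : t + 2 ≠ N)
    (c5 : x + y + L ≠ 2 * N + 3)
    (c6 : x + y + L ≠ 2 * N + 4)
    (c7 : 2 * t + x + y + L ≠ 3 * N + 4)
    (c8 : 2 * t + x + y + L ≠ 3 * N + 5)
    (c9 : 3 * t + x + y + L ≠ 4 * N + 6)
    (c10 : 3 * t + x + y + L ≠ 4 * N + 7) :
    P (A N t) N x y L := by
  exact qr66 hD ⟨c0, c1, c2, c3, c4, c5, c6, c7, c8, c9, c10, trivial⟩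

/-- hypotheses -/
noncomputable def kr68 : List Fk.C :=
  [.le (.add .N (.k 2)) (.add .t .x), .le (.add .N .L) (.add (.mul 2 .t) .y), .le (.add (.add (.mul
  2 .t) .x) (.k 1)) (.add .N .L), .le (.add (.mul 2 .t) .y) (.add (.mul 2 .N) (.k 1)), .ne (.add
  (.add (.add .t .x) .y) (.k 2)) (.add .N .L), .ne (.add (.add (.add .t .x) .y) (.k 1)) (.add .N
  .L), .ne (.add (.add (.add (.mul 3 .t) .x) .y) (.k 1)) (.add (.mul 2 .N) .L), .ne (.add (.add
  (.mul 3 .t) .x) .y) (.add (.mul 2 .N) .L), .ne (.add (.add (.mul 4 .t) .x) .y) (.add (.add (.mul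
  3 .N) .L) (.k 1)), .ne (.add (.add (.mul 4 .t) .x) .y) (.add (.add (.mul 3 .N) .L) (.k 2))]

theorem qr68 {N t x y L : ℤ} (hD : D N t) : Fk.All ⟨N, t, x, y, L⟩ kr68 → P (A N t) N x y L :=
  Fk.route (fam hD x y L) kr68 .y (.dn .x (.add (.sub .N .t) (.k 2)))
    [(11, .up (.k 0) (.add (.sub .N .t) (.k 1))), (6, .dn (.sub .t (.k 1)) (.add (.sub (.mul 2 .N)
    (.mul 2 .t)) (.k 2))), (8, .up .t (.sub .N (.k 1))), (0, .pt .N), (1, .up (.add (.sub (.sub
    (.add (.add (.mul 2 .t) .x) .y) .N) .L) (.k 1)) .y)]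
    [.f 9175168, .f 8519808, .f 154745106010519409860411781, .f 128, .f 128, .f 128, .f 9175168, .f
    154745106010519409868800389, .f 128, .f 128, .f 128, .f 128, .f 129, .f 2361256144574794170626,
    .f 154745105938460716302467205, .f 9175168, .f 128, .f 128, .f 128, .f 128, .f 9175168, .f
    36029359668396164, .f 154745106010519409868800389, .f 9175168, .f 128, .f 128, .f 128, .f 128,
    .f 128, .f 128, .f 1099520868494, .f 154744903060305256567865604, .f 9306240, .f 128, .f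
    9306240, .f 128, .f 154749643910124492371918989, .f 154749625462817472987857284, .f
    154747282690853710766145677, .f 154747282690853710766145677, .f 9175168, .f 9175168, .f 128, .f
    128, .f 128, .f 9175168, .f 2199032496526, .f 170465624224319504847536516, .f
    2453489864389282496770, .f 8650880, .f 154745105974490063085633925, .f 2453489864389282496770,
    .f 154745105974490612841447813, .f 562649104514, .f 562649104514, .f 824642371717, .f
    824642371717, .f 232116155515922998725116045, .f 232118553556342308971085965, .f 128, .f 128,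
    .f 170465642671625957279924483, .f 170460975572191273644392709, .f 8716417, .f 562649104514, .f
    8585344, .f 128, .f 128, .f 128, .f 128]
    (by decide +kernel)

theorem rT68 {N t x y L : ℤ} (hD : D N t)
    (c0 : N + 2 ≤ t + x)
    (c1 : N + L ≤ 2 * t + y)
    (c2 : 2 * t + x + 1 ≤ N + L)
    (c3 : 2 * t + y ≤ 2 * N + 1)
    (c4 : t + x + y + 2 ≠ N + L)
    (c5 : t + x + y + 1 ≠ N + L)
    (c6 : 3 * t + x + y + 1 ≠ 2 * N + L)
    (c7 : 3 * t + x + y ≠ 2 * N + L)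
    (c8 : 4 * t + x + y ≠ 3 * N + L + 1)
    (c9 : 4 * t + x + y ≠ 3 * N + L + 2) :
    P (A N t) N x y L := by
  exact qr68 hD ⟨c0, c1, c2, c3, c4, c5, c6, c7, c8, c9, trivial⟩

/-- hypotheses -/
noncomputable def kr70 : List Fk.C :=
  [.le (.add (.mul 4 .N) (.k 6)) (.add (.add (.add (.mul 3 .t) .x) .y) .L), .le (.add (.mul 2 .N)
  (.k 4)) (.add (.mul 2 .t) .y), .le (.add .y (.k 1)) .N, .le (.add (.mul 2 .t) .x) (.add (.mul 2
  .N) (.k 3)), .le (.add (.add (.mul 2 .t) .y) .L) (.add (.mul 3 .N) (.k 5)), .ne (.add (.add (.add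
  .t .x) .y) .L) (.add (.mul 3 .N) (.k 5)), .ne (.add (.add (.add .t .x) .y) .L) (.add (.mul 3 .N)
  (.k 6)), .ne (.add (.add (.add (.mul 3 .t) .x) .y) .L) (.add (.mul 4 .N) (.k 6)), .ne (.add (.add
  (.add (.mul 3 .t) .x) .y) .L) (.add (.mul 4 .N) (.k 7)), .ne (.add (.add (.add (.mul 4 .t) .x)
  .y) .L) (.add (.mul 5 .N) (.k 8)), .ne (.add (.add (.add (.mul 4 .t) .x) .y) .L) (.add (.mul 5
  .N) (.k 9))]

theorem qr70 {N t x y L : ℤ} (hD : D N t) : Fk.All ⟨N, t, x, y, L⟩ kr70 → P (A N t) N x y L :=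
  Fk.route (fam hD x y L) kr70 .y (.up .x (.add (.sub (.mul 2 .N) (.mul 2 .t)) (.k 3)))
    [(5, .up (.sub .N .t) (.sub (.sub (.add (.add (.add (.mul 2 .t) .x) .y) .L) (.mul 3 .N)) (.k
    6))), (0, .pt .N), (1, .dn (.sub (.sub .N .t) (.k 1)) (.k 0)), (3, .dn (.sub .N (.k 1)) .y)]
    [.f 36029402618134658, .f 8716416, .f 566944268416, .f 128, .f 128, .f 9240704, .f 8519808, .f
    2471901142611631538308, .f 128, .f 128, .f 128, .f 128, .f 8781953, .f 9371776, .f 128, .f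
    549765054594, .f 2471901142611631538308, .s 9 (.f 12648576) (.f 8454272), .s 10 (.f 12648576)
    (.f 8454272), .s 11 (.f 12648576) (.f 8454272), .f 575534334144, .f
    171669882982498563665166468, .f 171669882982498563665166468, .f 128, .f 128, .f
    2471901142611631538308, .f 562649366656, .f 128, .f 9240704, .f 159580661642966626145009798, .f
    9240704, .f 159580661642966626145009798, .f 192, .f 192, .f 9240768, .f 9240768, .f
    566944268480, .f 566944268480, .f 128, .f 128, .f 37155259583365263, .f 129, .f 575534071938,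
    .f 2361256706966401974530, .f 8650880, .f 128, .f 128, .f 128, .f 128, .f 128, .f
    2416560910403387785346, .f 129, .f 37718218118463616, .f 8585344, .f 128, .f 128, .f 128, .f
    128]
    (by decide +kernel)

theorem rT70 {N t x y L : ℤ} (hD : D N t)
    (c0 : 4 * N + 6 ≤ 3 * t + x + y + L)
    (c1 : 2 * N + 4 ≤ 2 * t + y)
    (c2 : y + 1 ≤ N)
    (c3 : 2 * t + x ≤ 2 * N + 3)
    (c4 : 2 * t + y + L ≤ 3 * N + 5)
    (c5 : t + x + y + L ≠ 3 * N + 5)
    (c6 : t + x + y + L ≠ 3 * N + 6)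
    (c7 : 3 * t + x + y + L ≠ 4 * N + 6)
    (c8 : 3 * t + x + y + L ≠ 4 * N + 7)
    (c9 : 4 * t + x + y + L ≠ 5 * N + 8)
    (c10 : 4 * t + x + y + L ≠ 5 * N + 9) :
    P (A N t) N x y L := by
  exact qr70 hD ⟨c0, c1, c2, c3, c4, c5, c6, c7, c8, c9, c10, trivial⟩

/-- hypotheses -/
noncomputable def kr72 : List Fk.C :=
  [.le (.add (.add .N .x) (.k 5)) (.add .t .L), .le (.k 0) .x, .le (.add .y (.k 3)) .t, .le (.add
  .t .L) (.add (.add .N .y) (.k 4)), .ne .L (.add (.add .x .y) (.k 4)), .ne .L (.add (.add .x .y)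
  (.k 5)), .ne (.add (.mul 2 .t) .L) (.add (.add (.add .N .x) .y) (.k 5)), .ne (.add (.mul 2 .t)
  .L) (.add (.add (.add .N .x) .y) (.k 6)), .ne (.add (.add (.add .t .x) .y) (.k 3)) (.add .N .L),
  .ne (.add (.add (.add .t .x) .y) (.k 2)) (.add .N .L)]

theorem qr72 {N t x y L : ℤ} (hD : D N t) : Fk.All ⟨N, t, x, y, L⟩ kr72 → P (A N t) N x y L :=
  Fk.route (fam hD x y L) kr72 .y (.dn .x (.k 0))
    [(3, .dn (.sub .N (.k 1)) (.sub .t (.k 2))), (0, .pt .N), (1, .up (.add (.sub (.sub (.add (.add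
    .N .x) .y) .t) .L) (.k 5)) .y)]
    [.f 128, .f 8585344, .f 2361222648502801268868, .f 128, .f 128, .f 2435006247097919012994, .f
    9175168, .f 128, .f 128, .f 128, .f 128, .f 128, .f 37155246690336898, .f 9306240, .f 128, .f
    2435006247097919012994, .f 9175168, .f 170465624188853099436310788, .f 549773377677, .f
    549764989069, .f 549764989069, .f 192, .f 192, .f 128, .f 128, .f 128, .f
    2435009624797639344258, .f 571239235712, .f 8519808, .f 549764989060, .f 571239235712, .f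
    36029398322905220, .s 7 (.f 8454272) (.f 12648576), .s 6 (.f 8454272) (.f 12648576), .s 10 (.f
    12648576) (.f 8454272), .s 11 (.f 12648576) (.f 8454272), .f 566948266114, .f 566948266114, .f
    128, .f 128, .f 566944858241, .f 8650881, .f 8716416, .f 128, .f 128, .f 128, .f 128]
    (by decide +kernel)

theorem rT72 {N t x y L : ℤ} (hD : D N t)
    (c0 : N + x + 5 ≤ t + L)
    (c1 : (0 : ℤ) ≤ x)
    (c2 : y + 3 ≤ t)
    (c3 : t + L ≤ N + y + 4)
    (c4 : L ≠ x + y + 4)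
    (c5 : L ≠ x + y + 5)
    (c6 : 2 * t + L ≠ N + x + y + 5)
    (c7 : 2 * t + L ≠ N + x + y + 6)
    (c8 : t + x + y + 3 ≠ N + L)
    (c9 : t + x + y + 2 ≠ N + L) :
    P (A N t) N x y L := by
  exact qr72 hD ⟨c0, c1, c2, c3, c4, c5, c6, c7, c8, c9, trivial⟩

/-- hypotheses -/
noncomputable def kr74 : List Fk.C :=
  [.le (.add (.mul 2 .N) (.k 2)) (.add (.mul 2 .t) .y), .le (.add (.mul 2 .N) .L) (.add (.add (.mul
  3 .t) .x) (.k 1)), .le (.k 0) .x, .le (.add (.add (.add (.mul 2 .t) .x) .y) (.k 2)) (.add (.mul 2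
  .N) .L), .le (.add (.mul 2 .t) .x) (.add (.mul 2 .N) (.k 1)), .ne (.add (.add (.add (.mul 2 .t)
  .x) .y) (.k 3)) (.add (.mul 2 .N) .L), .ne (.add (.add (.add (.mul 2 .t) .x) .y) (.k 2)) (.add
  (.mul 2 .N) .L), .ne (.add (.add (.add (.mul 4 .t) .x) .y) (.k 2)) (.add (.mul 3 .N) .L), .ne
  (.add (.add (.add (.mul 4 .t) .x) .y) (.k 1)) (.add (.mul 3 .N) .L), .ne (.add (.add (.mul 5 .t)
  .x) .y) (.add (.mul 4 .N) .L), .ne (.add (.add (.mul 5 .t) .x) .y) (.add (.add (.mul 4 .N) .L)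
  (.k 1))]

theorem qr74 {N t x y L : ℤ} (hD : D N t) : Fk.All ⟨N, t, x, y, L⟩ kr74 → P (A N t) N x y L :=
  Fk.route (fam hD x y L) kr74 .y (.dn .x (.k 0))
    [(0, .pt .N), (1, .up (.add (.sub (.sub (.add (.add (.mul 3 .t) .x) .y) (.mul 2 .N)) .L) (.k
    2)) .t), (9, .up (.add (.sub (.mul 2 .N) (.mul 2 .t)) (.k 2)) .y)]
    [.f 128, .f 8650880, .f 309489824531324114787500291, .f 128, .f 128, .f 9371776, .f 128, .f
    128, .f 9371776, .f 9240768, .f 9240768, .f 824642502788, .f 575534268608, .f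
    232116155480456597608792197, .f 158371735840521987729522822, .f 128, .f 128, .f
    313116601990169084643377295, .f 2416560065978457915520, .f 8716416, .f 9240704, .f
    2416560065978457915520, .f 549764530317, .f 2471936608995568255234, .f 2471936608995568255234,
    .f 562649104514, .s 12 (.f 12648576) (.f 8454272), .s 7 (.f 12648576) (.f 8454272), .s 8 (.f
    12648576) (.f 8454272), .f 128, .f 128, .f 9240705, .f 37718205233561728, .f 575534268544, .f
    8519808, .f 4722439948414100963587, .f 128, .f 128, .f 128, .f 128, .f 8585345, .f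
    4777779054735322775813, .f 8781952, .f 128, .f 128, .f 128, .f 128]
    (by decide +kernel)

theorem rT74 {N t x y L : ℤ} (hD : D N t)
    (c0 : 2 * N + 2 ≤ 2 * t + y)
    (c1 : 2 * N + L ≤ 3 * t + x + 1)
    (c2 : (0 : ℤ) ≤ x)
    (c3 : 2 * t + x + y + 2 ≤ 2 * N + L)
    (c4 : 2 * t + x ≤ 2 * N + 1)
    (c5 : 2 * t + x + y + 3 ≠ 2 * N + L)
    (c6 : 2 * t + x + y + 2 ≠ 2 * N + L)
    (c7 : 4 * t + x + y + 2 ≠ 3 * N + L)
    (c8 : 4 * t + x + y + 1 ≠ 3 * N + L)
    (c9 : 5 * t + x + y ≠ 4 * N + L)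
    (c10 : 5 * t + x + y ≠ 4 * N + L + 1) :
    P (A N t) N x y L := by
  exact qr74 hD ⟨c0, c1, c2, c3, c4, c5, c6, c7, c8, c9, c10, trivial⟩

/-- hypotheses -/
noncomputable def kr76 : List Fk.C :=
  [.le .t (.add .y (.k 2)), .le (.k 0) .x, .le (.add (.add .y .L) (.k 2)) (.add (.mul 2 .t) .x),
  .le (.add (.mul 2 .t) .x) (.add (.add .N .L) (.k 1)), .le (.add .t .x) (.add .N (.k 1)), .ne
  (.add (.add .y .L) (.k 1)) (.add .t .x), .ne (.add .y .L) (.add .t .x), .ne (.add (.mul 3 .t) .x)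
  (.add (.add (.add .N .y) .L) (.k 1)), .ne (.add (.mul 3 .t) .x) (.add (.add (.add .N .y) .L) (.k
  2)), .ne (.add .y .L) (.add (.add .N .x) (.k 1)), .ne (.add .y .L) (.add (.add .N .x) (.k 2))]

theorem qr76 {N t x y L : ℤ} (hD : D N t) : Fk.All ⟨N, t, x, y, L⟩ kr76 → P (A N t) N x y L :=
  Fk.route (fam hD x y L) kr76 .y (.dn .x (.k 0))
    [(10, .up (.add (.sub .N .t) (.k 2)) (.sub .t (.k 3))), (0, .pt .N), (1, .dn (.add (.sub (.sub
    (.add (.add .N .y) .L) (.mul 2 .t)) .x) (.k 1)) .y)]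
    [.f 128, .f 8585344, .f 37718196661059726, .f 128, .f 128, .f 9240704, .f 549773443214, .f
    9240704, .f 128, .f 128, .f 128, .f 128, .f 8781952, .f 9371776, .f 128, .f 549781831822, .f
    9240704, .f 549773443214, .f 549773443214, .f 549765054606, .f 549765054606, .f 192, .f 192, .f
    128, .f 128, .f 9240704, .f 145806236968681871, .f 36029355390730382, .f 8716416, .f 8650880,
    .f 2361219834886906314885, .f 8650880, .f 2398152446900741996677, .f 2398116700184289214597, .f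
    2398114166364037972109, .f 2398114166364037972109, .s 10 (.f 8454272) (.f 12648576), .s 9 (.f
    8454272) (.f 12648576), .f 128, .f 128, .f 8650881, .f 8519808, .f 2471899735232453935373, .f
    128, .f 128, .f 128, .f 128]
    (by decide +kernel)

theorem rT76 {N t x y L : ℤ} (hD : D N t)
    (c0 : t ≤ y + 2)
    (c1 : (0 : ℤ) ≤ x)
    (c2 : y + L + 2 ≤ 2 * t + x)
    (c3 : 2 * t + x ≤ N + L + 1)
    (c4 : t + x ≤ N + 1)
    (c5 : y + L + 1 ≠ t + x)
    (c6 : y + L ≠ t + x)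
    (c7 : 3 * t + x ≠ N + y + L + 1)
    (c8 : 3 * t + x ≠ N + y + L + 2)
    (c9 : y + L ≠ N + x + 1)
    (c10 : y + L ≠ N + x + 2) :
    P (A N t) N x y L := by
  exact qr76 hD ⟨c0, c1, c2, c3, c4, c5, c6, c7, c8, c9, c10, trivial⟩

/-- hypotheses -/
noncomputable def kr78 : List Fk.C :=
  [.le (.add (.add .N .x) (.k 2)) (.add .t .L), .le (.add .x (.k 1)) .y, .le (.k 0) .x, .le (.add
  .y .L) (.add (.add .N .x) (.k 2)), .ne (.add .y .L) (.add (.add .N .x) (.k 1)), .ne (.add .y .L)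
  (.add (.add .N .x) (.k 2)), .ne (.add (.add (.mul 2 .t) .y) .L) (.add (.add (.mul 2 .N) .x) (.k
  2)), .ne (.add (.add (.mul 2 .t) .y) .L) (.add (.add (.mul 2 .N) .x) (.k 3)), .ne (.add (.add
  (.mul 3 .t) .y) .L) (.add (.add (.mul 3 .N) .x) (.k 4)), .ne (.add (.add (.mul 3 .t) .y) .L)
  (.add (.add (.mul 3 .N) .x) (.k 5))]

theorem qr78 {N t x y L : ℤ} (hD : D N t) : Fk.All ⟨N, t, x, y, L⟩ kr78 → P (A N t) N x y L :=
  Fk.route (fam hD x y L) kr78 .y (.dn .x (.k 0))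
    [(3, .dn (.sub .N (.k 1)) (.add .t (.k 1))), (0, .pt .N), (1, .dn (.sub (.sub (.sub (.add (.add
    .t .y) .L) .N) .x) (.k 2)) .y)]
    [.f 128, .f 8650880, .f 2361222648494211334277, .f 128, .f 128, .f 2361219833744444358789, .f
    9175168, .f 128, .f 128, .f 128, .f 128, .f 128, .f 37436730256851072, .f 9306240, .f 128, .f
    2361219833744444358789, .f 9175168, .f 170465624188290153777856773, .f 549773377677, .f
    549764989069, .f 549764989069, .f 128, .f 128, .f 128, .f 128, .f 128, .f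
    2453456368862758961282, .f 549764399236, .f 8519808, .f 549764989061, .f 36029359668330626, .f
    549764989061, .s 8 (.f 12648576) (.f 8454272), .s 9 (.f 12648576) (.f 8454272), .s 10 (.f
    12648576) (.f 8454272), .s 11 (.f 12648576) (.f 8454272), .s 6 (.f 12648576) (.f 8454272), .s 7
    (.f 12648576) (.f 8454272), .f 128, .f 128, .f 571239825537, .f 8716417, .f 8585344, .f 128, .f
    128, .f 128, .f 128]
    (by decide +kernel)

theorem rT78 {N t x y L : ℤ} (hD : D N t)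
    (c0 : N + x + 2 ≤ t + L)
    (c1 : x + 1 ≤ y)
    (c2 : (0 : ℤ) ≤ x)
    (c3 : y + L ≤ N + x + 2)
    (c4 : y + L ≠ N + x + 1)
    (c5 : y + L ≠ N + x + 2)
    (c6 : 2 * t + y + L ≠ 2 * N + x + 2)
    (c7 : 2 * t + y + L ≠ 2 * N + x + 3)
    (c8 : 3 * t + y + L ≠ 3 * N + x + 4)
    (c9 : 3 * t + y + L ≠ 3 * N + x + 5) :
    P (A N t) N x y L := by
  exact qr78 hD ⟨c0, c1, c2, c3, c4, c5, c6, c7, c8, c9, trivial⟩

/-- hypotheses -/
noncomputable def kr80 : List Fk.C :=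
  [.le .t (.add .y (.k 1)), .le (.k 0) .x, .le (.add (.add .y .L) (.k 1)) (.add (.mul 2 .t) .x),
  .le (.add (.mul 2 .t) .x) (.add .N .L), .le (.add .t .x) (.add .N (.k 1)), .ne (.add .y .L) (.add
  .t .x), .ne (.add .y .L) (.add (.add .t .x) (.k 1)), .ne (.add (.mul 3 .t) .x) (.add (.add .N .y)
  .L), .ne (.add (.mul 3 .t) .x) (.add (.add (.add .N .y) .L) (.k 1)), .ne (.add .y .L) (.add (.add
  .N .x) (.k 2)), .ne (.add .y .L) (.add (.add .N .x) (.k 3))]

theorem qr80 {N t x y L : ℤ} (hD : D N t) : Fk.All ⟨N, t, x, y, L⟩ kr80 → P (A N t) N x y L :=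
  Fk.route (fam hD x y L) kr80 .y (.dn .x (.k 0))
    [(10, .up (.add (.sub .N .t) (.k 2)) (.sub .t (.k 2))), (0, .pt .N), (1, .dn (.sub (.sub (.add
    (.add .N .y) .L) (.mul 2 .t)) .x) .y)]
    [.f 128, .f 8585344, .f 37718196661059726, .f 128, .f 128, .f 9240704, .f 549773443214, .f
    9240704, .f 128, .f 128, .f 128, .f 128, .f 8781952, .f 9371776, .f 128, .f 549781831822, .f
    9240704, .f 549773443214, .f 549773443214, .f 549765054606, .f 549765054606, .f 192, .f 192, .f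
    128, .f 128, .f 9240704, .f 145806236968681871, .f 36029355390730382, .f 8716416, .f 8650880,
    .f 2361219834886906314885, .f 8650880, .f 2361223212539389936005, .f 2361223212539389936005, .f
    2398114166364037972109, .f 2398114166364037972109, .s 10 (.f 8454272) (.f 12648576), .s 9 (.f
    8454272) (.f 12648576), .f 128, .f 128, .f 8650881, .f 8519808, .f 161998421120252201944350981,
    .f 128, .f 128, .f 128, .f 128]
    (by decide +kernel)

theorem rT80 {N t x y L : ℤ} (hD : D N t)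
    (c0 : t ≤ y + 1)
    (c1 : (0 : ℤ) ≤ x)
    (c2 : y + L + 1 ≤ 2 * t + x)
    (c3 : 2 * t + x ≤ N + L)
    (c4 : t + x ≤ N + 1)
    (c5 : y + L ≠ t + x)
    (c6 : y + L ≠ t + x + 1)
    (c7 : 3 * t + x ≠ N + y + L)
    (c8 : 3 * t + x ≠ N + y + L + 1)
    (c9 : y + L ≠ N + x + 2)
    (c10 : y + L ≠ N + x + 3) :
    P (A N t) N x y L := by
  exact qr80 hD ⟨c0, c1, c2, c3, c4, c5, c6, c7, c8, c9, c10, trivial⟩

/-- hypotheses -/
noncomputable def kr82 : List Fk.C :=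
  [.le (.add (.add .N .x) (.k 5)) (.add .t .L), .le (.add .x (.k 1)) .y, .le (.k 0) .x, .le (.add
  .y .L) (.add (.add .N .x) (.k 2)), .ne (.add .y .L) (.add (.add .N .x) (.k 4)), .ne (.add .y .L)
  (.add (.add .N .x) (.k 5)), .ne (.add (.add (.mul 2 .t) .y) .L) (.add (.add (.mul 2 .N) .x) (.k
  5)), .ne (.add (.add (.mul 2 .t) .y) .L) (.add (.add (.mul 2 .N) .x) (.k 6)), .ne (.add (.add
  (.mul 3 .t) .y) .L) (.add (.add (.mul 3 .N) .x) (.k 7)), .ne (.add (.add (.mul 3 .t) .y) .L)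
  (.add (.add (.mul 3 .N) .x) (.k 8))]

theorem qr82 {N t x y L : ℤ} (hD : D N t) : Fk.All ⟨N, t, x, y, L⟩ kr82 → P (A N t) N x y L :=
  Fk.route (fam hD x y L) kr82 .y (.dn .x (.k 0))
    [(3, .dn (.sub .N (.k 1)) (.sub .t (.k 2))), (0, .pt .N), (1, .dn (.sub (.sub (.sub (.add (.add
    .t .y) .L) .N) .x) (.k 5)) .y)]
    [.f 128, .f 8650880, .f 2361222648494211334277, .f 128, .f 128, .f 2453452991163038695554, .f
    9175168, .f 128, .f 128, .f 128, .f 128, .f 128, .f 37436721666916482, .f 9306240, .f 128, .f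
    2453452991163038695554, .f 9175168, .f 170465624188290153777856773, .f 549773377677, .f
    549764989069, .f 549764989069, .f 192, .f 192, .f 128, .f 128, .f 128, .f
    2453456368862758961282, .f 549764399236, .f 8519808, .f 549764989061, .f 36029359668330626, .f
    549764989061, .s 8 (.f 12648576) (.f 8454272), .s 9 (.f 12648576) (.f 8454272), .s 10 (.f
    12648576) (.f 8454272), .s 11 (.f 12648576) (.f 8454272), .f 8716480, .f 8716480, .f 128, .f
    128, .f 571239825537, .f 8716417, .f 8585344, .f 128, .f 128, .f 128, .f 128]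
    (by decide +kernel)

theorem rT82 {N t x y L : ℤ} (hD : D N t)
    (c0 : N + x + 5 ≤ t + L)
    (c1 : x + 1 ≤ y)
    (c2 : (0 : ℤ) ≤ x)
    (c3 : y + L ≤ N + x + 2)
    (c4 : y + L ≠ N + x + 4)
    (c5 : y + L ≠ N + x + 5)
    (c6 : 2 * t + y + L ≠ 2 * N + x + 5)
    (c7 : 2 * t + y + L ≠ 2 * N + x + 6)
    (c8 : 3 * t + y + L ≠ 3 * N + x + 7)
    (c9 : 3 * t + y + L ≠ 3 * N + x + 8) :
    P (A N t) N x y L := by
  exact qr82 hD ⟨c0, c1, c2, c3, c4, c5, c6, c7, c8, c9, trivial⟩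

/-- hypotheses -/
noncomputable def kr84 : List Fk.C :=
  [.le (.add (.mul 3 .N) (.k 4)) (.add (.add (.mul 3 .t) .x) .L), .le .N (.add (.add .t .x) (.k
  1)), .le (.add .y (.k 2)) .t, .le (.add .t .x) (.add .N (.k 1)), .le (.add (.add (.mul 2 .t) .x)
  .L) (.add (.add (.mul 2 .N) .y) (.k 2)), .ne (.add (.add .t .x) .L) (.add (.add .N .y) (.k 1)),
  .ne (.add (.add .t .x) .L) (.add (.add .N .y) (.k 2)), .ne (.add (.add (.mul 2 .t) .x) .L) (.add
  (.add (.mul 2 .N) .y) (.k 3)), .ne (.add (.add (.mul 2 .t) .x) .L) (.add (.add (.mul 2 .N) .y)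
  (.k 4)), .ne (.add (.add (.mul 4 .t) .x) .L) (.add (.add (.mul 3 .N) .y) (.k 4)), .ne (.add (.add
  (.mul 4 .t) .x) .L) (.add (.add (.mul 3 .N) .y) (.k 5))]

theorem qr84 {N t x y L : ℤ} (hD : D N t) : Fk.All ⟨N, t, x, y, L⟩ kr84 → P (A N t) N x y L :=
  Fk.route (fam hD x y L) kr84 .y (.up .x (.add (.sub .N .t) (.k 1)))
    [(6, .up (.sub .t (.k 1)) (.sub .N (.k 1))), (2, .up (.k 0) (.sub (.sub .N .t) (.k 2))), (0,
    .pt .N), (1, .up (.add (.sub (.sub (.sub (.add (.mul 3 .N) .y) (.mul 3 .t)) .x) .L) (.k 4))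
    .y)]
    [.f 562649104525, .f 8716416, .f 2361220959687300743300, .f 128, .f 128, .f
    2435007935926304374925, .f 9240704, .f 128, .f 128, .f 128, .f 128, .f 128, .f
    37155246690402434, .f 128, .f 9240704, .f 2361220959640056234125, .f 128, .f 128, .f 128, .f
    128, .f 37155272459878530, .f 8585345, .f 9371776, .f 128, .f 9240704, .f
    2361220959640056234125, .f 192, .f 192, .f 9240768, .f 9240768, .f 37718471521468548, .f
    37718205233627328, .f 128, .f 128, .f 4722404201074878840975, .f 128, .f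
    2361220959687300743300, .f 605599170688, .f 8519808, .f 549765054596, .f 605599170688, .f
    36029402617872516, .f 8781952, .f 8781952, .s 8 (.f 8454272) (.f 12648576), .s 7 (.f 8454272)
    (.f 12648576), .f 566948266114, .f 566948266114, .f 128, .f 128, .f 566944137357, .f 8781952,
    .f 8650881, .f 8781952, .f 128, .f 128, .f 128, .f 128]
    (by decide +kernel)

theorem rT84 {N t x y L : ℤ} (hD : D N t)
    (c0 : 3 * N + 4 ≤ 3 * t + x + L)
    (c1 : N ≤ t + x + 1)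
    (c2 : y + 2 ≤ t)
    (c3 : t + x ≤ N + 1)
    (c4 : 2 * t + x + L ≤ 2 * N + y + 2)
    (c5 : t + x + L ≠ N + y + 1)
    (c6 : t + x + L ≠ N + y + 2)
    (c7 : 2 * t + x + L ≠ 2 * N + y + 3)
    (c8 : 2 * t + x + L ≠ 2 * N + y + 4)
    (c9 : 4 * t + x + L ≠ 3 * N + y + 4)
    (c10 : 4 * t + x + L ≠ 3 * N + y + 5) :
    P (A N t) N x y L := by
  exact qr84 hD ⟨c0, c1, c2, c3, c4, c5, c6, c7, c8, c9, c10, trivial⟩

/-- hypotheses -/
noncomputable def kr86 : List Fk.C :=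
  [.le (.add (.mul 2 .N) (.k 4)) (.add (.add .t .y) .L), .le (.add (.mul 2 .N) (.k 3)) (.add (.mul
  2 .t) .y), .le (.add .y (.k 1)) .t, .le (.add .t .x) .N, .le (.add (.add .t .y) .L) (.add (.add
  (.mul 2 .N) .x) (.k 4)), .ne (.add .y .L) (.add (.add .t .x) (.k 1)), .ne (.add .y .L) (.add
  (.add .t .x) (.k 2)), .ne (.add .y .L) (.add (.add .N .x) (.k 3)), .ne (.add .y .L) (.add (.add
  .N .x) (.k 4)), .ne (.add (.add (.mul 2 .t) .y) .L) (.add (.add (.mul 2 .N) .x) (.k 4)), .ne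
  (.add (.add (.mul 2 .t) .y) .L) (.add (.add (.mul 2 .N) .x) (.k 5))]

theorem qr86 {N t x y L : ℤ} (hD : D N t) : Fk.All ⟨N, t, x, y, L⟩ kr86 → P (A N t) N x y L :=
  Fk.route (fam hD x y L) kr86 .y (.dn .x (.add (.sub (.sub (.sub (.add (.mul 2 .N) .x) .t) .y) .L) (.k 4)))
    [(0, .pt .N), (1, .dn (.sub .N (.k 1)) .t), (9, .dn (.add (.sub (.mul 2 .N) (.mul 2 .t)) (.k
    2)) (.add (.sub .N .t) (.k 1))), (6, .dn (.sub .t (.k 1)) .y)]
    [.f 8781952, .f 8519808, .f 154744939990385155261988995, .f 128, .f 128, .f 9371776, .f 128, .f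
    8781952, .f 154744939990385155270377603, .s 10 (.f 8454272) (.f 12648576), .f 824642437250, .f
    54044303638790405, .f 54044316531818630, .f 158371717413199945119432838, .f
    158371717413199945119432838, .f 128, .f 128, .f 158376366028735617593049220, .f
    158371717375764073864626437, .f 9240704, .f 128, .f 9371776, .f 128, .f
    154744939954356358243025027, .f 154744939954356358243025027, .f 154744939918327011459858563, .f
    36029363963887747, .f 9240704, .f 9240704, .f 128, .f 128, .f 129, .f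
    313118963171721137021321350, .f 9240704, .f 9240704, .f 158371717375763524100423813, .f 128, .f
    128, .f 128, .f 128, .f 562649366657, .f 36873788893167873, .f 8716416, .f
    2416559503573973860610, .f 8650880, .f 9240704, .f 128, .f 128, .f 128, .f 128, .f 8585344, .f
    129, .f 9240705, .f 2416559503573965471874, .f 128, .f 128, .f 128, .f 128]
    (by decide +kernel)

theorem rT86 {N t x y L : ℤ} (hD : D N t)
    (c0 : 2 * N + 4 ≤ t + y + L)
    (c1 : 2 * N + 3 ≤ 2 * t + y)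
    (c2 : y + 1 ≤ t)
    (c3 : t + x ≤ N)
    (c4 : t + y + L ≤ 2 * N + x + 4)
    (c5 : y + L ≠ t + x + 1)
    (c6 : y + L ≠ t + x + 2)
    (c7 : y + L ≠ N + x + 3)
    (c8 : y + L ≠ N + x + 4)
    (c9 : 2 * t + y + L ≠ 2 * N + x + 4)
    (c10 : 2 * t + y + L ≠ 2 * N + x + 5) :
    P (A N t) N x y L := by
  exact qr86 hD ⟨c0, c1, c2, c3, c4, c5, c6, c7, c8, c9, c10, trivial⟩

/-- hypotheses -/
noncomputable def kr88 : List Fk.C :=
  [.le .t (.add .y (.k 1)), .le (.k 0) .x, .le .L (.add (.add .t .x) (.k 1)), .le (.add (.add (.add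
  .t .x) .y) (.k 3)) (.add .N .L), .le (.add .t .x) .N, .ne .L (.add (.add .x .y) (.k 2)), .ne .L
  (.add (.add .x .y) (.k 3)), .ne (.add (.add (.add (.mul 2 .t) .x) .y) (.k 2)) (.add .N .L), .ne
  (.add (.add (.add (.mul 2 .t) .x) .y) (.k 1)) (.add .N .L), .ne (.add (.add (.mul 3 .t) .x) .y)
  (.add (.mul 2 .N) .L), .ne (.add (.add (.mul 3 .t) .x) .y) (.add (.add (.mul 2 .N) .L) (.k 1))]

theorem qr88 {N t x y L : ℤ} (hD : D N t) : Fk.All ⟨N, t, x, y, L⟩ kr88 → P (A N t) N x y L :=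
  Fk.route (fam hD x y L) kr88 .y (.dn .x (.k 0))
    [(3, .dn (.sub .N (.k 1)) (.add (.sub (.add (.add .t .x) .y) .L) (.k 2))), (0, .pt .N), (1, .dn
    (.sub .t (.k 2)) (.add (.sub .N .t) (.k 1))), (6, .up (.sub .t (.k 1)) .y)]
    [.f 128, .f 8585344, .f 161998421120252751700164997, .f 128, .f 128, .f 9518555973038770094469,
    .f 8716416, .f 128, .f 128, .f 128, .f 128, .f 128, .f 316743287178137374110384271, .f 9371776,
    .f 128, .f 9518555973038770094469, .f 8716416, .f 2361223212539398324485, .f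
    2361223212539398324485, .f 2398116418120902901888, .f 2398116418120902901888, .f 558354137220,
    .s 7 (.f 8454272) (.f 12648576), .f 128, .f 128, .f 128, .f 145806236968681871, .f 9240704, .f
    2361255863095514759429, .f 9240704, .f 2361291892442289537413, .f 9240704, .f 549773443214, .f
    549773443214, .f 549765054606, .f 549765054606, .f 192, .f 192, .f 128, .f 128, .f 9240705, .f
    566944137346, .f 8781952, .f 7157372731054191673733, .f 8519808, .f 566944071813, .f 128, .f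
    128, .f 128, .f 128, .f 128, .f 566944399489, .f 8650881, .f 161998421084223404925387013, .f
    128, .f 128, .f 128, .f 128]
    (by decide +kernel)

theorem rT88 {N t x y L : ℤ} (hD : D N t)
    (c0 : t ≤ y + 1)
    (c1 : (0 : ℤ) ≤ x)
    (c2 : L ≤ t + x + 1)
    (c3 : t + x + y + 3 ≤ N + L)
    (c4 : t + x ≤ N)
    (c5 : L ≠ x + y + 2)
    (c6 : L ≠ x + y + 3)
    (c7 : 2 * t + x + y + 2 ≠ N + L)
    (c8 : 2 * t + x + y + 1 ≠ N + L)
    (c9 : 3 * t + x + y ≠ 2 * N + L)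
    (c10 : 3 * t + x + y ≠ 2 * N + L + 1) :
    P (A N t) N x y L := by
  exact qr88 hD ⟨c0, c1, c2, c3, c4, c5, c6, c7, c8, c9, c10, trivial⟩

/-- hypotheses -/
noncomputable def kr90 : List Fk.C :=
  [.le (.add .x (.k 1)) .y, .le (.add .y (.k 2)) (.add .x .L), .le (.k 0) .x, .le (.add .x .L)
  (.add .N (.k 1)), .ne (.add .x .L) (.add .t (.k 1)), .ne (.add .x .L) (.add .t (.k 2)), .ne .y
  .t, .ne .y (.add .t (.k 1)), .ne (.add (.add .t .x) .L) (.add .N (.k 2)), .ne (.add (.add .t .x)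
  .L) (.add .N (.k 3)), .ne (.add .t .y) (.add .N (.k 1)), .ne (.add .t .y) (.add .N (.k 2)), .ne
  (.add (.add (.mul 2 .t) .x) .L) (.add (.mul 2 .N) (.k 4)), .ne (.add (.add (.mul 2 .t) .x) .L)
  (.add (.mul 2 .N) (.k 5)), .ne (.add (.mul 2 .t) .y) (.add (.mul 2 .N) (.k 3)), .ne (.add (.mul 2
  .t) .y) (.add (.mul 2 .N) (.k 4))]

theorem qr90 {N t x y L : ℤ} (hD : D N t) : Fk.All ⟨N, t, x, y, L⟩ kr90 → P (A N t) N x y L :=
  Fk.route (fam hD x y L) kr90 .y (.up .x (.sub .y (.k 1)))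
    [(0, .pt .N), (1, .dn (.sub (.add .x .L) (.k 2)) .y)]
    [.f 8650880, .f 8519808, .f 549764399237, .f 128, .f 128, .f 9699456, .f 128, .f 549764333700,
    .f 549764399237, .s 12 (.f 12648576) (.f 8454272), .s 13 (.f 12648576) (.f 8454272), .s 16 (.f
    12648576) (.f 8454272), .s 17 (.f 12648576) (.f 8454272), .s 8 (.f 12648576) (.f 8454272), .s 9
    (.f 12648576) (.f 8454272), .f 128, .f 128, .f 571239039107, .f 549764333700, .f 8585344, .f
    8716416, .f 36029359668199556, .f 8716416, .s 10 (.f 12648576) (.f 8454272), .s 11 (.f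
    12648576) (.f 8454272), .s 14 (.f 12648576) (.f 8454272), .s 15 (.f 12648576) (.f 8454272), .s
    6 (.f 12648576) (.f 8454272), .s 7 (.f 12648576) (.f 8454272), .f 128, .f 128, .f 8716417, .f
    128, .f 128, .f 128, .f 128, .f 128]
    (by decide +kernel)

theorem rT90 {N t x y L : ℤ} (hD : D N t)
    (c0 : x + 1 ≤ y)
    (c1 : y + 2 ≤ x + L)
    (c2 : (0 : ℤ) ≤ x)
    (c3 : x + L ≤ N + 1)
    (c4 : x + L ≠ t + 1)
    (c5 : x + L ≠ t + 2)
    (c6 : y ≠ t)
    (c7 : y ≠ t + 1)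
    (c8 : t + x + L ≠ N + 2)
    (c9 : t + x + L ≠ N + 3)
    (c10 : t + y ≠ N + 1)
    (c11 : t + y ≠ N + 2)
    (c12 : 2 * t + x + L ≠ 2 * N + 4)
    (c13 : 2 * t + x + L ≠ 2 * N + 5)
    (c14 : 2 * t + y ≠ 2 * N + 3)
    (c15 : 2 * t + y ≠ 2 * N + 4) :
    P (A N t) N x y L := by
  exact qr90 hD ⟨c0, c1, c2, c3, c4, c5, c6, c7, c8, c9, c10, c11, c12, c13, c14, c15, trivial⟩

/-- hypotheses -/
noncomputable def kr92 : List Fk.C :=
  [.le .N (.add .t .y), .le (.k 0) .x, .le .L (.add (.add .t .x) (.k 2)), .le (.add (.add .t .x)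
  (.k 1)) .N, .le (.add (.add (.mul 3 .t) .x) .y) (.add (.mul 2 .N) .L), .ne .L (.add (.add .x .y)
  (.k 3)), .ne .L (.add (.add .x .y) (.k 4)), .ne (.add (.add (.add (.mul 2 .t) .x) .y) (.k 3))
  (.add .N .L), .ne (.add (.add (.add (.mul 2 .t) .x) .y) (.k 2)) (.add .N .L), .ne (.add (.add
  (.add (.mul 3 .t) .x) .y) (.k 1)) (.add (.mul 2 .N) .L), .ne (.add (.add (.mul 3 .t) .x) .y)
  (.add (.mul 2 .N) .L)]

theorem qr92 {N t x y L : ℤ} (hD : D N t) : Fk.All ⟨N, t, x, y, L⟩ kr92 → P (A N t) N x y L :=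
  Fk.route (fam hD x y L) kr92 .y (.dn .x (.k 0))
    [(3, .dn (.sub .N (.k 1)) (.add (.sub (.mul 2 .N) (.mul 2 .t)) (.k 4))), (0, .pt .N), (1, .up
    (.add (.sub (.add (.add .t .x) .y) .L) (.k 3)) (.add (.sub (.mul 2 .N) (.mul 2 .t)) (.k 3))),
    (5, .up (.sub .N .t) .y)]
    [.f 128, .f 8585344, .f 36029368275632270, .f 128, .f 128, .f 1121003438208, .f 549773443214,
    .f 128, .f 128, .f 128, .f 128, .f 128, .f 1120995049600, .f 9371776, .f 128, .f 1121003438208,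
    .f 549773443214, .f 9240704, .f 9240704, .f 128, .f 128, .f 824642961550, .f 824642961550, .f
    128, .f 128, .f 128, .f 39971667224560015, .f 2435006247097919012994, .f 8781952, .f
    549773443214, .f 2435006247097919012994, .f 36029372562210958, .f 566944202880, .s 10 (.f
    12648576) (.f 8454272), .s 11 (.f 12648576) (.f 8454272), .s 12 (.f 12648576) (.f 8454272), .f
    37718256777166989, .f 37718256773824704, .f 128, .f 128, .f 554068410510, .f 129, .f
    37155246690336898, .f 9240704, .f 8519808, .f 2435007936531894632590, .f 128, .f 128, .f 128,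
    .f 128, .f 8650881, .f 2435006529157011996806, .f 566944465025, .f 8716416, .f 128, .f 128, .f
    128, .f 128]
    (by decide +kernel)

theorem rT92 {N t x y L : ℤ} (hD : D N t)
    (c0 : N ≤ t + y)
    (c1 : (0 : ℤ) ≤ x)
    (c2 : L ≤ t + x + 2)
    (c3 : t + x + 1 ≤ N)
    (c4 : 3 * t + x + y ≤ 2 * N + L)
    (c5 : L ≠ x + y + 3)
    (c6 : L ≠ x + y + 4)
    (c7 : 2 * t + x + y + 3 ≠ N + L)
    (c8 : 2 * t + x + y + 2 ≠ N + L)
    (c9 : 3 * t + x + y + 1 ≠ 2 * N + L)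
    (c10 : 3 * t + x + y ≠ 2 * N + L) :
    P (A N t) N x y L := by
  exact qr92 hD ⟨c0, c1, c2, c3, c4, c5, c6, c7, c8, c9, c10, trivial⟩

/-- hypotheses -/
noncomputable def kr94 : List Fk.C :=
  [.le (.add (.mul 2 .N) (.k 5)) (.add (.add (.mul 2 .t) .x) .L), .le (.add .N (.k 2)) (.add .t
  .y), .le (.k 0) .x, .le (.add .t .x) (.add .N (.k 1)), .le (.add (.add (.add .t .x) .y) .L) (.add
  (.mul 2 .N) (.k 3)), .ne (.add (.add (.add .t .x) .y) .L) (.add (.mul 2 .N) (.k 4)), .ne (.add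
  (.add (.add .t .x) .y) .L) (.add (.mul 2 .N) (.k 5)), .ne (.add (.add (.add (.mul 3 .t) .x) .y)
  .L) (.add (.mul 3 .N) (.k 5)), .ne (.add (.add (.add (.mul 3 .t) .x) .y) .L) (.add (.mul 3 .N)
  (.k 6)), .ne (.add (.add (.add (.mul 4 .t) .x) .y) .L) (.add (.mul 4 .N) (.k 7)), .ne (.add (.add
  (.add (.mul 4 .t) .x) .y) .L) (.add (.mul 4 .N) (.k 8))]

theorem qr94 {N t x y L : ℤ} (hD : D N t) : Fk.All ⟨N, t, x, y, L⟩ kr94 → P (A N t) N x y L :=
  Fk.route (fam hD x y L) kr94 .y (.up .x (.add (.sub .N .t) (.k 1)))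
    [(6, .up (.sub .t (.k 1)) (.sub .N (.k 1))), (0, .pt .N), (1, .dn (.sub (.sub (.add (.add (.add
    (.mul 2 .t) .x) .y) .L) (.mul 2 .N)) (.k 5)) .y)]
    [.f 8650880, .f 8716416, .f 154744958364508126626054278, .f 128, .f 128, .f
    161998513282195884494422148, .f 9240704, .f 128, .f 128, .f 128, .f 128, .f 128, .f
    37718196643627138, .f 9371776, .f 128, .f 9371776, .f 128, .f 154744958364508126626054278, .f
    154744958364508126626054278, .f 36029359668199558, .f 549773443214, .f 9240704, .f 9240704, .f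
    128, .f 128, .f 128, .f 161998439495220139412029572, .f 36029368258199684, .f 8519808, .f
    36029368258265222, .f 2361220678169374490754, .f 36029368258265222, .f 562649104514, .f
    562649104514, .s 11 (.f 12648576) (.f 8454272), .s 12 (.f 12648576) (.f 8454272), .f 8782016,
    .f 8782016, .f 128, .f 128, .f 37718218118529153, .f 8781953, .f 8585344, .f 128, .f 128, .f
    128, .f 128]
    (by decide +kernel)

theorem rT94 {N t x y L : ℤ} (hD : D N t)
    (c0 : 2 * N + 5 ≤ 2 * t + x + L)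
    (c1 : N + 2 ≤ t + y)
    (c2 : (0 : ℤ) ≤ x)
    (c3 : t + x ≤ N + 1)
    (c4 : t + x + y + L ≤ 2 * N + 3)
    (c5 : t + x + y + L ≠ 2 * N + 4)
    (c6 : t + x + y + L ≠ 2 * N + 5)
    (c7 : 3 * t + x + y + L ≠ 3 * N + 5)
    (c8 : 3 * t + x + y + L ≠ 3 * N + 6)
    (c9 : 4 * t + x + y + L ≠ 4 * N + 7)
    (c10 : 4 * t + x + y + L ≠ 4 * N + 8) :
    P (A N t) N x y L := by
  exact qr94 hD ⟨c0, c1, c2, c3, c4, c5, c6, c7, c8, c9, c10, trivial⟩

/-- hypotheses -/
noncomputable def kr96 : List Fk.C :=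
  [.le (.add (.add .N .x) (.k 7)) (.add .t .L), .le (.k 0) .x, .le .L (.add (.add .x .y) (.k 5)),
  .le (.add .y (.k 2)) .t, .le (.add (.add .t .x) (.k 2)) .N, .ne .L (.add (.add .x .y) (.k 6)),
  .ne .L (.add (.add .x .y) (.k 7)), .ne (.add (.mul 2 .t) .L) (.add (.add (.add .N .x) .y) (.k
  7)), .ne (.add (.mul 2 .t) .L) (.add (.add (.add .N .x) .y) (.k 8)), .ne (.add (.add (.add .t .x)
  .y) (.k 5)) (.add .N .L), .ne (.add (.add (.add .t .x) .y) (.k 4)) (.add .N .L)]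

theorem qr96 {N t x y L : ℤ} (hD : D N t) : Fk.All ⟨N, t, x, y, L⟩ kr96 → P (A N t) N x y L :=
  Fk.route (fam hD x y L) kr96 .y (.dn .x (.k 0))
    [(3, .dn (.sub .N (.k 1)) (.sub .t (.k 1))), (7, .dn (.add (.sub .N .t) (.k 1)) (.sub (.sub .N
    .t) (.k 1))), (0, .pt .N), (1, .up (.add (.sub (.sub (.add (.add .N .x) .y) .t) .L) (.k 7))
    .y)]
    [.f 128, .f 8585344, .f 154747337994775105839956101, .f 128, .f 128, .f
    160789495229142374633570438, .f 9240704, .f 128, .f 128, .f 128, .f 128, .f 128, .f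
    2453452991175923597442, .f 9240704, .f 128, .f 160789495229142374633570438, .f 128, .f 128, .f
    128, .f 128, .f 37436725961949314, .f 8781952, .f 9371776, .f 128, .f 9240704, .f
    160789495229142374633570438, .f 192, .f 192, .f 9240768, .f 9240768, .f 37436996544888962, .f
    37436996544888962, .f 128, .f 128, .f 160789495229142374633570438, .f 128, .f
    160791967092848788584398991, .f 37155272460009600, .f 8519808, .f 36029372553166981, .f
    37155272460009600, .f 2361220959644351070341, .f 8650880, .f 8650880, .s 11 (.f 12648576) (.f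
    8454272), .s 12 (.f 12648576) (.f 8454272), .f 571243233410, .f 571243233410, .f 128, .f 128,
    .f 37436725961883782, .f 8650880, .f 8716417, .f 566944465024, .f 128, .f 128, .f 128, .f 128]
    (by decide +kernel)

theorem rT96 {N t x y L : ℤ} (hD : D N t)
    (c0 : N + x + 7 ≤ t + L)
    (c1 : (0 : ℤ) ≤ x)
    (c2 : L ≤ x + y + 5)
    (c3 : y + 2 ≤ t)
    (c4 : t + x + 2 ≤ N)
    (c5 : L ≠ x + y + 6)
    (c6 : L ≠ x + y + 7)
    (c7 : 2 * t + L ≠ N + x + y + 7)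
    (c8 : 2 * t + L ≠ N + x + y + 8)
    (c9 : t + x + y + 5 ≠ N + L)
    (c10 : t + x + y + 4 ≠ N + L) :
    P (A N t) N x y L := by
  exact qr96 hD ⟨c0, c1, c2, c3, c4, c5, c6, c7, c8, c9, c10, trivial⟩

/-- hypotheses -/
noncomputable def kr98 : List Fk.C :=
  [.le (.add .N (.k 2)) (.add .t .y), .le (.add (.add .x .y) (.k 3)) .L, .le (.k 0) .x, .le (.add
  .y (.k 2)) .t, .le (.add .t .L) (.add (.add .N .y) (.k 3)), .ne .L (.add (.add .x .y) (.k 3)),
  .ne .L (.add (.add .x .y) (.k 4)), .ne (.add (.mul 2 .t) .L) (.add (.add (.add .N .x) .y) (.k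
  4)), .ne (.add (.mul 2 .t) .L) (.add (.add (.add .N .x) .y) (.k 5)), .ne (.add (.add (.add .t .x)
  .y) (.k 2)) (.add .N .L), .ne (.add (.add (.add .t .x) .y) (.k 1)) (.add .N .L)]

theorem qr98 {N t x y L : ℤ} (hD : D N t) : Fk.All ⟨N, t, x, y, L⟩ kr98 → P (A N t) N x y L :=
  Fk.route (fam hD x y L) kr98 .y (.dn .x (.k 0))
    [(3, .dn (.sub .N (.k 1)) (.sub .t (.k 1))), (7, .dn (.add (.sub .N .t) (.k 1)) (.add (.sub
    (.sub (.add (.add .N .x) .y) .t) .L) (.k 4))), (0, .pt .N), (1, .up (.add (.sub .N .t) (.k 2))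
    .y)]
    [.f 128, .f 8650880, .f 154747282691134635978653829, .f 128, .f 128, .f
    160789550568248700150349958, .f 9240704, .f 128, .f 128, .f 128, .f 128, .f 128, .f
    2453453835600853467266, .f 549764595844, .f 8585344, .f 160789550568248700150349958, .f 128, .f
    128, .f 128, .f 128, .f 571239170177, .f 8781952, .f 9371776, .f 128, .f 549764595844, .f
    160791911751490134972956806, .s 8 (.f 8454272) (.f 12648576), .s 7 (.f 8454272) (.f 12648576),
    .f 54043771062714627, .f 54044307933757572, .f 37436734555816066, .f 37436734555816066, .f 128,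
    .f 128, .f 160791856411820863797657734, .f 128, .f 160791911789208314428129423, .f 9240704, .f
    8519808, .f 2361220115232305971333, .f 9240704, .f 154744921471864404137083013, .f 128, .f 128,
    .f 9240768, .f 9240768, .f 571243233410, .f 571243233410, .f 128, .f 128, .f
    2453453835579378892934, .f 128, .f 8716417, .f 549764399238, .f 128, .f 128, .f 128, .f 128]
    (by decide +kernel)

theorem rT98 {N t x y L : ℤ} (hD : D N t)
    (c0 : N + 2 ≤ t + y)
    (c1 : x + y + 3 ≤ L)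
    (c2 : (0 : ℤ) ≤ x)
    (c3 : y + 2 ≤ t)
    (c4 : t + L ≤ N + y + 3)
    (c5 : L ≠ x + y + 3)
    (c6 : L ≠ x + y + 4)
    (c7 : 2 * t + L ≠ N + x + y + 4)
    (c8 : 2 * t + L ≠ N + x + y + 5)
    (c9 : t + x + y + 2 ≠ N + L)
    (c10 : t + x + y + 1 ≠ N + L) :
    P (A N t) N x y L := by
  exact qr98 hD ⟨c0, c1, c2, c3, c4, c5, c6, c7, c8, c9, c10, trivial⟩

/-- hypotheses -/
noncomputable def kr100 : List Fk.C :=
  [.le (.add (.add .N .x) (.k 7)) (.add .t .L), .le .N (.add .t .y), .le (.k 0) .x, .le .L (.add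
  (.add .t .x) (.k 2)), .le (.add (.add .t .x) (.k 1)) .N, .le (.add (.mul 2 .t) .y) (.add (.mul 2
  .N) (.k 2)), .ne (.add .y (.k 2)) .t, .ne (.add .y (.k 1)) .t, .ne .L (.add (.add .t .x) (.k 3)),
  .ne .L (.add (.add .t .x) (.k 4)), .ne (.add (.add .t .y) (.k 1)) .N, .ne (.add .t .y) .N, .ne .L
  (.add (.add .N .x) (.k 5)), .ne .L (.add (.add .N .x) (.k 6)), .ne (.add (.mul 2 .t) .y) (.add
  (.mul 2 .N) (.k 1)), .ne (.add (.mul 2 .t) .y) (.add (.mul 2 .N) (.k 2)), .ne (.add (.mul 2 .t)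
  .L) (.add (.add (.mul 2 .N) .x) (.k 6)), .ne (.add (.mul 2 .t) .L) (.add (.add (.mul 2 .N) .x)
  (.k 7))]

theorem qr100 {N t x y L : ℤ} (hD : D N t) : Fk.All ⟨N, t, x, y, L⟩ kr100 → P (A N t) N x y L :=
  Fk.route (fam hD x y L) kr100 .y (.dn .x (.k 0))
    [(3, .dn (.sub .N (.k 1)) (.add (.sub (.sub (.add (.mul 2 .N) .x) .t) .L) (.k 6))), (0, .pt
    .N), (1, .up (.add .y (.k 1)) (.add (.sub (.mul 2 .N) (.mul 2 .t)) (.k 3))), (5, .up (.sub .N
    .t) .y)]
    [.f 128, .f 8650880, .f 2361256988445665001605, .f 128, .f 128, .f 36029922317435013, .f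
    8519808, .f 128, .f 128, .f 128, .f 128, .f 128, .f 37437297192599680, .f 9830528, .f 128, .f
    36029922317435013, .f 8519808, .f 37718196643692677, .f 36029363963363462, .f 8716416, .f
    8716416, .s 19 (.f 8454272) (.f 12648576), .s 18 (.f 8454272) (.f 12648576), .f 128, .f 128, .f
    128, .f 2453490709346788704406, .f 36029372553166980, .f 8847488, .f 571239039106, .f
    36029372553166980, .f 37999671620272261, .f 8585344, .s 13 (.f 12648576) (.f 8454272), .s 16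
    (.f 12648576) (.f 8454272), .s 17 (.f 12648576) (.f 8454272), .f 37999946499358869, .f
    2748654940104855519365, .f 128, .f 128, .f 571239104642, .f 8716417, .f 562649497728, .f
    9699456, .f 8585344, .f 37999671620272261, .f 128, .f 128, .f 128, .f 128, .f 129, .f
    37999675915239557, .f 579829301377, .f 8781952, .f 128, .f 128, .f 128, .f 128]
    (by decide +kernel)

theorem rT100 {N t x y L : ℤ} (hD : D N t)
    (c0 : N + x + 7 ≤ t + L)
    (c1 : N ≤ t + y)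
    (c2 : (0 : ℤ) ≤ x)
    (c3 : L ≤ t + x + 2)
    (c4 : t + x + 1 ≤ N)
    (c5 : 2 * t + y ≤ 2 * N + 2)
    (c6 : y + 2 ≠ t)
    (c7 : y + 1 ≠ t)
    (c8 : L ≠ t + x + 3)
    (c9 : L ≠ t + x + 4)
    (c10 : t + y + 1 ≠ N)
    (c11 : t + y ≠ N)
    (c12 : L ≠ N + x + 5)
    (c13 : L ≠ N + x + 6)
    (c14 : 2 * t + y ≠ 2 * N + 1)
    (c15 : 2 * t + y ≠ 2 * N + 2)
    (c16 : 2 * t + L ≠ 2 * N + x + 6)
    (c17 : 2 * t + L ≠ 2 * N + x + 7) :
    P (A N t) N x y L := by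
  exact qr100 hD ⟨c0, c1, c2, c3, c4, c5, c6, c7, c8, c9, c10, c11, c12, c13, c14, c15, c16, c17, trivial⟩

/-- hypotheses -/
noncomputable def kr102 : List Fk.C :=
  [.le (.add .N (.k 1)) (.add .t .y), .le (.add .y (.k 3)) .L, .le .L (.add (.add .x .y) (.k 3)),
  .le (.add .y (.k 2)) .t, .le (.add .t .x) .N, .ne (.add (.add .x .y) (.k 4)) (.add .t .L), .ne
  (.add (.add .x .y) (.k 3)) (.add .t .L), .ne (.add (.add (.add .t .x) .y) (.k 3)) (.add .N .L),
  .ne (.add (.add (.add .t .x) .y) (.k 2)) (.add .N .L), .ne (.add (.add (.add (.mul 2 .t) .x) .y)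
  (.k 1)) (.add (.mul 2 .N) .L), .ne (.add (.add (.mul 2 .t) .x) .y) (.add (.mul 2 .N) .L)]

theorem qr102 {N t x y L : ℤ} (hD : D N t) : Fk.All ⟨N, t, x, y, L⟩ kr102 → P (A N t) N x y L :=
  Fk.route (fam hD x y L) kr102 .y (.dn .x (.add (.sub (.add .x .y) .L) (.k 3)))
    [(0, .pt .N), (1, .dn (.sub .N (.k 1)) (.sub .t (.k 1))), (7, .up (.add (.sub .N .t) (.k 1))
    .y)]
    [.f 8650880, .f 8585344, .f 154744921507893201156046981, .f 128, .f 128, .f 9371776, .f 128, .f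
    8650880, .f 154747282691134635978653829, .s 9 (.f 12648576) (.f 8454272), .f 824642306182, .f
    54044307942146180, .f 54044307942146180, .f 3541811735949717143685, .f 3541811735949717143685,
    .f 128, .f 128, .f 160789532159222805896102017, .f 160789550568248700150349958, .f 9240704, .f
    128, .f 9371776, .f 128, .f 154744921470738504230436998, .f 154744921470738504230436998, .f
    549773443214, .f 549773443214, .f 9240704, .f 9240704, .f 128, .f 128, .f 129, .f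
    37436721667113090, .f 9240704, .f 8519808, .f 2361220115232305971333, .f 128, .f 128, .f 128,
    .f 128, .f 8716417, .f 2453453835579378892934, .f 8781952, .f 128, .f 128, .f 128, .f 128]
    (by decide +kernel)

theorem rT102 {N t x y L : ℤ} (hD : D N t)
    (c0 : N + 1 ≤ t + y)
    (c1 : y + 3 ≤ L)
    (c2 : L ≤ x + y + 3)
    (c3 : y + 2 ≤ t)
    (c4 : t + x ≤ N)
    (c5 : x + y + 4 ≠ t + L)
    (c6 : x + y + 3 ≠ t + L)
    (c7 : t + x + y + 3 ≠ N + L)
    (c8 : t + x + y + 2 ≠ N + L)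
    (c9 : 2 * t + x + y + 1 ≠ 2 * N + L)
    (c10 : 2 * t + x + y ≠ 2 * N + L) :
    P (A N t) N x y L := by
  exact qr102 hD ⟨c0, c1, c2, c3, c4, c5, c6, c7, c8, c9, c10, trivial⟩

/-- hypotheses -/
noncomputable def kr104 : List Fk.C :=
  [.le (.add (.mul 2 .N) (.k 1)) (.add (.add .t .y) .L), .le .N (.add (.add .t .x) (.k 1)), .le
  (.add .y (.k 1)) .N, .le (.add (.add .t .x) .L) (.mul 2 .N), .ne (.add (.add .x .y) .L) (.mul 2
  .N), .ne (.add (.add .x .y) .L) (.add (.mul 2 .N) (.k 1)), .ne (.add (.add (.add (.mul 2 .t) .x)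
  .y) .L) (.add (.mul 3 .N) (.k 1)), .ne (.add (.add (.add (.mul 2 .t) .x) .y) .L) (.add (.mul 3
  .N) (.k 2)), .ne (.add (.add (.add (.mul 3 .t) .x) .y) .L) (.add (.mul 4 .N) (.k 3)), .ne (.add
  (.add (.add (.mul 3 .t) .x) .y) .L) (.add (.mul 4 .N) (.k 4))]

theorem qr104 {N t x y L : ℤ} (hD : D N t) : Fk.All ⟨N, t, x, y, L⟩ kr104 → P (A N t) N x y L :=
  Fk.route (fam hD x y L) kr104 .y (.up .x (.sub (.sub (.add (.add (.add .t .x) .y) .L) (.mul 2 .N)) (.k 1)))
    [(0, .pt .N), (1, .dn (.sub (.sub .N .t) (.k 2)) (.k 0)), (3, .dn (.sub .N (.k 1)) .y)]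
    [.f 549764989059, .f 8519808, .f 571239039108, .f 128, .f 128, .f 9306240, .f 128, .f
    36029398322970754, .f 571239039108, .s 8 (.f 12648576) (.f 8454272), .s 9 (.f 12648576) (.f
    8454272), .s 10 (.f 12648576) (.f 8454272), .s 11 (.f 12648576) (.f 8454272), .s 6 (.f
    12648576) (.f 8454272), .s 7 (.f 12648576) (.f 8454272), .f 128, .f 128, .f 571239039108, .f
    128, .f 9175168, .f 2361220396690102747269, .f 9175168, .f 2361220396690102747269, .f 192, .f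
    192, .f 9175232, .f 9175232, .f 170463336845223780096803077, .f 170463336791743534521975232, .f
    128, .f 128, .f 2379667140763812298885, .f 8585345, .f 2361222648502801334402, .f 8650880, .f
    128, .f 128, .f 128, .f 128, .f 128, .f 37436721666916482, .f 129, .f 8716416, .f 128, .f 128,
    .f 128, .f 128]
    (by decide +kernel)

theorem rT104 {N t x y L : ℤ} (hD : D N t)
    (c0 : 2 * N + 1 ≤ t + y + L)
    (c1 : N ≤ t + x + 1)
    (c2 : y + 1 ≤ N)
    (c3 : t + x + L ≤ 2 * N)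
    (c4 : x + y + L ≠ 2 * N)
    (c5 : x + y + L ≠ 2 * N + 1)
    (c6 : 2 * t + x + y + L ≠ 3 * N + 1)
    (c7 : 2 * t + x + y + L ≠ 3 * N + 2)
    (c8 : 3 * t + x + y + L ≠ 4 * N + 3)
    (c9 : 3 * t + x + y + L ≠ 4 * N + 4) :
    P (A N t) N x y L := by
  exact qr104 hD ⟨c0, c1, c2, c3, c4, c5, c6, c7, c8, c9, trivial⟩

/-- hypotheses -/
noncomputable def kr106 : List Fk.C :=
  [.le (.add .t (.k 1)) .y, .le (.k 0) .x, .le (.add .y .L) (.add (.add (.mul 2 .t) .x) (.k 3)),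
  .le (.add (.add (.mul 2 .t) .x) (.k 4)) (.add .N .L), .le (.add (.add .t .x) (.k 1)) .N, .ne
  (.add .y .L) (.add (.add .t .x) (.k 4)), .ne (.add .y .L) (.add (.add .t .x) (.k 5)), .ne (.add
  (.add (.mul 3 .t) .x) (.k 4)) (.add (.add .N .y) .L), .ne (.add (.add (.mul 3 .t) .x) (.k 3))
  (.add (.add .N .y) .L), .ne (.add .y .L) (.add (.add .N .x) (.k 6)), .ne (.add .y .L) (.add (.add
  .N .x) (.k 7))]

theorem qr106 {N t x y L : ℤ} (hD : D N t) : Fk.All ⟨N, t, x, y, L⟩ kr106 → P (A N t) N x y L :=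
  Fk.route (fam hD x y L) kr106 .y (.dn .x (.k 0))
    [(10, .dn (.add (.sub .N .t) (.k 2)) (.sub .N .t)), (4, .up (.add (.sub (.mul 2 .N) (.mul 2
    .t)) (.k 3)) .t), (9, .dn (.add (.sub (.mul 2 .N) (.mul 2 .t)) (.k 2)) (.add (.sub .N .t) (.k
    3))), (0, .pt .N), (1, .dn (.sub (.sub (.sub (.add (.add .N .y) .L) (.mul 2 .t)) .x) (.k 4))
    .y)]
    [.f 128, .f 8585344, .f 161998421120252751700164997, .f 128, .f 128, .f 9240704, .f 128, .f
    2361223212539398324613, .f 128, .f 128, .f 128, .f 128, .f 8781952, .f 73184614948143232, .f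
    2361223211439869919365, .f 9240704, .f 128, .f 128, .f 128, .f 128, .f 9240704, .f
    2471901142607336571012, .f 9240704, .f 9240704, .f 2361223211989634121989, .f 128, .f 128, .f
    128, .f 128, .f 129, .f 128, .f 8781952, .f 9371776, .f 128, .f 9240704, .f
    2361223212539398324613, .f 128, .f 128, .f 9240768, .f 9240768, .f 3541848328229266260228, .f
    3541848328229266260228, .f 128, .f 128, .f 1649276748033, .f 9240704, .f
    2361223212539398324613, .f 145806236968681871, .f 2361223213089154138501, .f 8716416, .f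
    8650880, .f 2361223213089154138629, .f 8650880, .f 2361223212539389936005, .f
    2361223212539389936005, .f 2361256707013638095106, .f 2361256707013638095106, .f 549764333701,
    .f 549764333701, .f 128, .f 128, .f 8650881, .f 2435046216527448637826, .f 8519808, .f
    2361223212539389935877, .f 161998679374668666950123781, .f 128, .f 128, .f 128, .f 128]
    (by decide +kernel)

theorem rT106 {N t x y L : ℤ} (hD : D N t)
    (c0 : t + 1 ≤ y)
    (c1 : (0 : ℤ) ≤ x)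
    (c2 : y + L ≤ 2 * t + x + 3)
    (c3 : 2 * t + x + 4 ≤ N + L)
    (c4 : t + x + 1 ≤ N)
    (c5 : y + L ≠ t + x + 4)
    (c6 : y + L ≠ t + x + 5)
    (c7 : 3 * t + x + 4 ≠ N + y + L)
    (c8 : 3 * t + x + 3 ≠ N + y + L)
    (c9 : y + L ≠ N + x + 6)
    (c10 : y + L ≠ N + x + 7) :
    P (A N t) N x y L := by
  exact qr106 hD ⟨c0, c1, c2, c3, c4, c5, c6, c7, c8, c9, c10, trivial⟩

/-- hypotheses -/
noncomputable def kr108 : List Fk.C :=
  [.le (.add (.mul 3 .N) (.k 4)) (.add (.add (.mul 3 .t) .x) .L), .le (.add .N (.k 2)) (.add .t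
  .y), .le .N (.add (.add .t .x) (.k 1)), .le (.add .t .x) (.add .N (.k 1)), .le (.add (.add (.add
  (.mul 2 .t) .x) .y) .L) (.add (.mul 3 .N) (.k 2)), .ne (.add (.add (.add (.mul 2 .t) .x) .y) .L)
  (.add (.mul 3 .N) (.k 3)), .ne (.add (.add (.add (.mul 2 .t) .x) .y) .L) (.add (.mul 3 .N) (.k
  4)), .ne (.add (.add (.add (.mul 4 .t) .x) .y) .L) (.add (.mul 4 .N) (.k 4)), .ne (.add (.add
  (.add (.mul 4 .t) .x) .y) .L) (.add (.mul 4 .N) (.k 5)), .ne (.add (.add (.add (.mul 5 .t) .x)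
  .y) .L) (.add (.mul 5 .N) (.k 6)), .ne (.add (.add (.add (.mul 5 .t) .x) .y) .L) (.add (.mul 5
  .N) (.k 7))]

theorem qr108 {N t x y L : ℤ} (hD : D N t) : Fk.All ⟨N, t, x, y, L⟩ kr108 → P (A N t) N x y L :=
  Fk.route (fam hD x y L) kr108 .y (.up .x (.add (.sub .N .t) (.k 1)))
    [(6, .up (.sub .t (.k 1)) (.sub .N (.k 1))), (2, .up (.k 0) (.sub (.sub .N .t) (.k 2))), (0,
    .pt .N), (1, .dn (.sub (.sub (.add (.add (.add (.mul 3 .t) .x) .y) .L) (.mul 3 .N)) (.k 4))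
    .y)]
    [.f 566944071821, .f 8716416, .f 2361220959687300808834, .f 128, .f 128, .f
    2471900579648793346189, .f 9240704, .f 128, .f 128, .f 128, .f 128, .f 128, .f
    37718196643627138, .f 128, .f 9240704, .f 2361220115215126233229, .f 128, .f 128, .f 128, .f
    128, .f 37718209528397954, .f 8650881, .f 9371776, .f 128, .f 9240704, .f
    2361220115215126233229, .f 192, .f 192, .f 9240768, .f 9240768, .f 37718209532526722, .f
    37718209528463552, .f 128, .f 128, .f 4722403356649948840079, .f 128, .f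
    2361220959687300808834, .f 549765054595, .f 8519808, .f 605599170688, .f 36592296737439875, .f
    605599170688, .f 562649104514, .f 558354137219, .s 11 (.f 12648576) (.f 8454272), .s 12 (.f
    12648576) (.f 8454272), .f 8782016, .f 8782016, .f 128, .f 128, .f 575534858369, .f 8585344, .f
    8781953, .f 8585344, .f 128, .f 128, .f 128, .f 128]
    (by decide +kernel)

theorem rT108 {N t x y L : ℤ} (hD : D N t)
    (c0 : 3 * N + 4 ≤ 3 * t + x + L)
    (c1 : N + 2 ≤ t + y)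
    (c2 : N ≤ t + x + 1)
    (c3 : t + x ≤ N + 1)
    (c4 : 2 * t + x + y + L ≤ 3 * N + 2)
    (c5 : 2 * t + x + y + L ≠ 3 * N + 3)
    (c6 : 2 * t + x + y + L ≠ 3 * N + 4)
    (c7 : 4 * t + x + y + L ≠ 4 * N + 4)
    (c8 : 4 * t + x + y + L ≠ 4 * N + 5)
    (c9 : 5 * t + x + y + L ≠ 5 * N + 6)
    (c10 : 5 * t + x + y + L ≠ 5 * N + 7) :
    P (A N t) N x y L := by
  exact qr108 hD ⟨c0, c1, c2, c3, c4, c5, c6, c7, c8, c9, c10, trivial⟩

/-- hypotheses -/
noncomputable def kr110 : List Fk.C :=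
  [.le (.add .x (.k 4)) .L, .le (.add .x (.k 1)) .y, .le (.k 0) .x, .le (.add .y .L) (.add (.add .N
  .x) (.k 2)), .ne (.add .y .L) (.add (.add .t .x) (.k 3)), .ne (.add .y .L) (.add (.add .t .x) (.k
  4)), .ne (.add (.add .t .y) .L) (.add (.add .N .x) (.k 4)), .ne (.add (.add .t .y) .L) (.add
  (.add .N .x) (.k 5)), .ne (.add (.add (.mul 2 .t) .y) .L) (.add (.add (.mul 2 .N) .x) (.k 6)),
  .ne (.add (.add (.mul 2 .t) .y) .L) (.add (.add (.mul 2 .N) .x) (.k 7))]

theorem qr110 {N t x y L : ℤ} (hD : D N t) : Fk.All ⟨N, t, x, y, L⟩ kr110 → P (A N t) N x y L :=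
  Fk.route (fam hD x y L) kr110 .y (.dn .x (.k 0))
    [(3, .pt (.sub .N (.k 1))), (0, .pt .N), (1, .dn (.sub (.sub (.add .y .L) .x) (.k 4)) .y)]
    [.f 128, .f 8650880, .f 36029355373297797, .f 128, .f 128, .f 9306240, .f 128, .f 128, .f 128,
    .f 128, .f 128, .f 37436730256851072, .f 9306240, .f 128, .f 9306240, .f 128, .f
    618977140194835071780061573, .f 549781766285, .f 549773377677, .f 549773377677, .f 9175168, .f
    9175168, .f 128, .f 128, .f 128, .f 37436730256851072, .f 549764399236, .f 8519808, .f 8716416,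
    .f 36029355373297796, .f 8716416, .s 8 (.f 12648576) (.f 8454272), .s 9 (.f 12648576) (.f
    8454272), .s 10 (.f 12648576) (.f 8454272), .s 11 (.f 12648576) (.f 8454272), .s 6 (.f
    12648576) (.f 8454272), .s 7 (.f 12648576) (.f 8454272), .f 128, .f 128, .f 8716417, .f
    8716417, .f 8585344, .f 128, .f 128, .f 128, .f 128]
    (by decide +kernel)

theorem rT110 {N t x y L : ℤ} (hD : D N t)
    (c0 : x + 4 ≤ L)
    (c1 : x + 1 ≤ y)
    (c2 : (0 : ℤ) ≤ x)
    (c3 : y + L ≤ N + x + 2)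
    (c4 : y + L ≠ t + x + 3)
    (c5 : y + L ≠ t + x + 4)
    (c6 : t + y + L ≠ N + x + 4)
    (c7 : t + y + L ≠ N + x + 5)
    (c8 : 2 * t + y + L ≠ 2 * N + x + 6)
    (c9 : 2 * t + y + L ≠ 2 * N + x + 7) :
    P (A N t) N x y L := by
  exact qr110 hD ⟨c0, c1, c2, c3, c4, c5, c6, c7, c8, c9, trivial⟩

end Pool.Agent.Work.MP_193ce1_co.Rim.Kk
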