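import Pool.Agent.Work.MP_193ce1_co.Rim.KkD

set_option linter.unusedVariables false

namespace Pool.Agent.Work.MP_193ce1_co.Rim.Kk

/-- hypotheses -/
noncomputable def kr1 : List Fk.C :=
  [.le (.add .x (.k 1)) .L, .le .L .y, .le (.k 2) .x, .le (.add .y (.k 1)) .N, .ne (.add (.add .x
  .y) (.k 2)) (.add .t .L), .ne (.add (.add .x .y) (.k 1)) (.add .t .L), .ne (.add (.add (.add .t
  .x) .y) (.k 1)) (.add .N .L), .ne (.add (.add .t .x) .y) (.add .N .L), .ne (.add .t (.k 2)) .N,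
  .ne (.add (.add (.mul 2 .t) .x) .y) (.add (.add (.mul 2 .N) .L) (.k 1)), .ne (.add (.add (.mul 2
  .t) .x) .y) (.add (.add (.mul 2 .N) .L) (.k 2))]

theorem qr1 {N t x y L : ℤ} (hD : D N t) : Fk.All ⟨N, t, x, y, L⟩ kr1 → P (A N t) N x y L :=
  Fk.route (fam hD x y L) kr1 .y (.dn .x (.k 2))
    [(0, .pt .N), (1, .up (.add (.sub (.add .x .y) .L) (.k 1)) .y)]
    [.f 128, .f 8650880, .f 36029355373297797, .f 128, .f 128, .f 9371776, .f 128, .f 128, .f
    9371776, .s 10 (.f 12648576) (.f 8454272), .f 9240768, .f 17629376, .f 17629376, .f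
    824659738766, .f 696348392650171338961322373, .f 128, .f 128, .f 37436730256851072, .f
    562649104516, .f 8519808, .f 8716416, .f 562649104516, .f 549764333701, .s 8 (.f 12648576) (.f
    8454272), .s 9 (.f 12648576) (.f 8454272), .s 11 (.f 12648576) (.f 8454272), .s 12 (.f
    12648576) (.f 8454272), .s 6 (.f 12648576) (.f 8454272), .s 7 (.f 12648576) (.f 8454272), .f
    128, .f 128, .f 8716417, .f 8585344, .f 128, .f 128, .f 128, .f 128]
    (by decide +kernel)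

theorem rT1 {N t x y L : ℤ} (hD : D N t)
    (c0 : x + 1 ≤ L)
    (c1 : L ≤ y)
    (c2 : (2 : ℤ) ≤ x)
    (c3 : y + 1 ≤ N)
    (c4 : x + y + 2 ≠ t + L)
    (c5 : x + y + 1 ≠ t + L)
    (c6 : t + x + y + 1 ≠ N + L)
    (c7 : t + x + y ≠ N + L)
    (c8 : t + 2 ≠ N)
    (c9 : 2 * t + x + y ≠ 2 * N + L + 1)
    (c10 : 2 * t + x + y ≠ 2 * N + L + 2) :
    P (A N t) N x y L := by
  exact qr1 hD ⟨c0, c1, c2, c3, c4, c5, c6, c7, c8, c9, c10, trivial⟩

/-- hypotheses -/
noncomputable def kr3 : List Fk.C :=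
  [.le (.add .N (.k 6)) (.add (.add .x .y) .L), .le .t .y, .le (.k 0) .x, .le .y (.add .t (.k 1)),
  .le (.add (.add .x .y) .L) (.add (.mul 2 .t) (.k 3)), .le (.add .t .x) (.add .N (.k 1)), .ne
  (.add (.add .x .y) .L) (.add (.mul 2 .t) (.k 4)), .ne (.add (.add .x .y) .L) (.add (.mul 2 .t)
  (.k 5)), .ne (.add (.mul 3 .t) (.k 3)) (.add (.add (.add .N .x) .y) .L), .ne (.add (.mul 3 .t)
  (.k 2)) (.add (.add (.add .N .x) .y) .L), .ne (.add (.add .x .y) .L) (.add .N (.k 5)), .ne (.add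
  (.add .x .y) .L) (.add .N (.k 6))]

theorem qr3 {N t x y L : ℤ} (hD : D N t) : Fk.All ⟨N, t, x, y, L⟩ kr3 → P (A N t) N x y L :=
  Fk.route (fam hD x y L) kr3 .y (.up .x (.add (.sub .N .t) (.k 1)))
    [(6, .dn (.sub .t (.k 1)) (.add (.sub (.sub (.sub (.add .N .t) .x) .y) .L) (.k 5))), (0, .pt
    .N), (1, .dn (.add .t (.k 1)) .y)]
    [.f 8650880, .f 8847488, .f 2361221241115033075844, .f 128, .f 128, .f 37155276754780294, .f
    8519808, .f 9306240, .f 128, .f 128, .f 128, .f 128, .f 8781952, .f 9437312, .f 128, .f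
    37155276754780294, .f 549764333710, .f 8781952, .f 8781952, .s 10 (.f 12648576) (.f 8454272),
    .s 11 (.f 12648576) (.f 8454272), .s 13 (.f 8454272) (.f 12648576), .f 8519872, .f 128, .f 128,
    .f 9306240, .f 2471935764025177145476, .f 154744995257996265455485060, .f 8716416, .f 9306240,
    .f 2361221241115033075844, .f 9306240, .f 549764333702, .f 549764333702, .f 40251480024154368,
    .f 549765185678, .f 128, .f 128, .f 128, .f 128, .f 9306241, .f 8585344, .f 36029359668461698,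
    .f 128, .f 128, .f 128, .f 128]
    (by decide +kernel)

theorem rT3 {N t x y L : ℤ} (hD : D N t)
    (c0 : N + 6 ≤ x + y + L)
    (c1 : t ≤ y)
    (c2 : (0 : ℤ) ≤ x)
    (c3 : y ≤ t + 1)
    (c4 : x + y + L ≤ 2 * t + 3)
    (c5 : t + x ≤ N + 1)
    (c6 : x + y + L ≠ 2 * t + 4)
    (c7 : x + y + L ≠ 2 * t + 5)
    (c8 : 3 * t + 3 ≠ N + x + y + L)
    (c9 : 3 * t + 2 ≠ N + x + y + L)
    (c10 : x + y + L ≠ N + 5)
    (c11 : x + y + L ≠ N + 6) :
    P (A N t) N x y L := by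
  exact qr3 hD ⟨c0, c1, c2, c3, c4, c5, c6, c7, c8, c9, c10, c11, trivial⟩

/-- hypotheses -/
noncomputable def kr5 : List Fk.C :=
  [.le (.add .N .L) (.add (.add (.add .t .x) .y) (.k 1)), .le (.add .x (.k 4)) .L, .le (.k 0) .x,
  .le (.add .t .x) (.add .N (.k 1)), .le (.add .y (.k 1)) .N, .ne (.add (.add .x .y) (.k 5)) (.add
  .t .L), .ne (.add (.add .x .y) (.k 4)) (.add .t .L), .ne (.add (.add (.add .t .x) .y) (.k 4))
  (.add .N .L), .ne (.add (.add (.add .t .x) .y) (.k 3)) (.add .N .L), .ne (.add (.add (.add (.mul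
  2 .t) .x) .y) (.k 2)) (.add (.mul 2 .N) .L), .ne (.add (.add (.add (.mul 2 .t) .x) .y) (.k 1))
  (.add (.mul 2 .N) .L)]

theorem qr5 {N t x y L : ℤ} (hD : D N t) : Fk.All ⟨N, t, x, y, L⟩ kr5 → P (A N t) N x y L :=
  Fk.route (fam hD x y L) kr5 .y (.dn .x (.k 0))
    [(10, .pt (.add (.sub .N .t) (.k 2))), (0, .pt .N), (1, .up (.add (.sub (.add .x .y) .L) (.k
    4)) .y)]
    [.f 128, .f 8650880, .f 2361220115228010872966, .f 128, .f 128, .f 9240704, .f
    36029359668199558, .f 128, .f 128, .f 128, .f 128, .f 8716416, .f 9371776, .f 128, .f 9240704,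
    .f 36029359668199558, .f 128, .f 128, .f 9240768, .f 9240768, .f 824651350158, .f
    2619510562409886646534, .f 128, .f 128, .f 36029359668199558, .f 2471900579670268051586, .f
    37436721666982018, .f 8585344, .f 8781952, .f 37436721666982018, .f 549764399238, .f 8519808,
    .f 8519808, .s 11 (.f 12648576) (.f 8454272), .s 12 (.f 12648576) (.f 8454272), .s 7 (.f
    12648576) (.f 8454272), .s 8 (.f 12648576) (.f 8454272), .f 128, .f 128, .f 8781953, .f
    8519808, .f 571239039106, .f 128, .f 128, .f 128, .f 128]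
    (by decide +kernel)

theorem rT5 {N t x y L : ℤ} (hD : D N t)
    (c0 : N + L ≤ t + x + y + 1)
    (c1 : x + 4 ≤ L)
    (c2 : (0 : ℤ) ≤ x)
    (c3 : t + x ≤ N + 1)
    (c4 : y + 1 ≤ N)
    (c5 : x + y + 5 ≠ t + L)
    (c6 : x + y + 4 ≠ t + L)
    (c7 : t + x + y + 4 ≠ N + L)
    (c8 : t + x + y + 3 ≠ N + L)
    (c9 : 2 * t + x + y + 2 ≠ 2 * N + L)
    (c10 : 2 * t + x + y + 1 ≠ 2 * N + L) :
    P (A N t) N x y L := by
  exact qr5 hD ⟨c0, c1, c2, c3, c4, c5, c6, c7, c8, c9, c10, trivial⟩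

/-- hypotheses -/
noncomputable def kr7 : List Fk.C :=
  [.le (.add .x (.k 2)) .L, .le .L (.add .y (.k 1)), .le (.k 1) .x, .le (.add .y (.k 1)) .N, .ne
  (.add (.add .x .y) (.k 3)) (.add .t .L), .ne (.add (.add .x .y) (.k 2)) (.add .t .L), .ne (.add
  (.add (.add .t .x) .y) (.k 2)) (.add .N .L), .ne (.add (.add (.add .t .x) .y) (.k 1)) (.add .N
  .L), .ne (.add (.add (.mul 2 .t) .x) .y) (.add (.mul 2 .N) .L), .ne (.add (.add (.mul 2 .t) .x)
  .y) (.add (.add (.mul 2 .N) .L) (.k 1))]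

theorem qr7 {N t x y L : ℤ} (hD : D N t) : Fk.All ⟨N, t, x, y, L⟩ kr7 → P (A N t) N x y L :=
  Fk.route (fam hD x y L) kr7 .y (.dn .x (.k 1))
    [(0, .pt .N), (1, .up (.add (.sub (.add .x .y) .L) (.k 2)) .y)]
    [.f 128, .f 8650880, .f 36029355373297797, .f 128, .f 128, .f 9306240, .f 128, .f 128, .f
    9306240, .f 9175232, .f 9175232, .f 17563840, .f 17563840, .f 824659673229, .f
    696348392650171338961256837, .f 128, .f 128, .f 37436730256851072, .f 562649104516, .f 8519808,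
    .f 8716416, .f 562649104516, .f 549764333701, .s 8 (.f 12648576) (.f 8454272), .s 9 (.f
    12648576) (.f 8454272), .s 10 (.f 12648576) (.f 8454272), .s 11 (.f 12648576) (.f 8454272), .s
    6 (.f 12648576) (.f 8454272), .s 7 (.f 12648576) (.f 8454272), .f 128, .f 128, .f 8716417, .f
    8585344, .f 128, .f 128, .f 128, .f 128]
    (by decide +kernel)

theorem rT7 {N t x y L : ℤ} (hD : D N t)
    (c0 : x + 2 ≤ L)
    (c1 : L ≤ y + 1)
    (c2 : (1 : ℤ) ≤ x)
    (c3 : y + 1 ≤ N)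
    (c4 : x + y + 3 ≠ t + L)
    (c5 : x + y + 2 ≠ t + L)
    (c6 : t + x + y + 2 ≠ N + L)
    (c7 : t + x + y + 1 ≠ N + L)
    (c8 : 2 * t + x + y ≠ 2 * N + L)
    (c9 : 2 * t + x + y ≠ 2 * N + L + 1) :
    P (A N t) N x y L := by
  exact qr7 hD ⟨c0, c1, c2, c3, c4, c5, c6, c7, c8, c9, trivial⟩

/-- hypotheses -/
noncomputable def kr9 : List Fk.C :=
  [.le (.add (.add .N .y) (.k 6)) (.add (.mul 2 .t) .L), .le .t (.add .y (.k 1)), .le (.add .t .L)
  (.add (.add .x .y) (.k 4)), .le (.add .x (.k 2)) .t, .le (.add .y (.k 1)) .N, .ne (.add (.add .x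
  .y) (.k 6)) (.add .t .L), .ne (.add (.add .x .y) (.k 5)) (.add .t .L), .ne (.add (.mul 3 .t) .L)
  (.add (.add (.add .N .x) .y) (.k 6)), .ne (.add (.mul 3 .t) .L) (.add (.add (.add .N .x) .y) (.k
  7)), .ne (.add (.add .x .y) (.k 4)) (.add .N .L), .ne (.add (.add .x .y) (.k 3)) (.add .N .L)]

theorem qr9 {N t x y L : ℤ} (hD : D N t) : Fk.All ⟨N, t, x, y, L⟩ kr9 → P (A N t) N x y L :=
  Fk.route (fam hD x y L) kr9 .y (.dn .x (.add (.sub (.sub (.add (.add .N .x) .y) (.mul 2 .t)) .L) (.k 6)))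
    [(0, .pt .N), (1, .up (.k 0) (.add (.sub .N .t) (.k 1))), (6, .up (.sub .t (.k 1)) .y)]
    [.f 37155272460009600, .f 8519808, .f 36029372553166981, .f 128, .f 128, .f 9371776, .f 128, .f
    37155272460009600, .f 2361220959644351070341, .f 8650880, .f 8650880, .s 11 (.f 12648576) (.f
    8454272), .s 12 (.f 12648576) (.f 8454272), .f 571243233410, .f 571243233410, .f 128, .f 128,
    .f 37436721666916486, .f 128, .f 9240704, .f 154744921471582929160372358, .f 128, .f 9371776,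
    .f 9240768, .f 9240768, .f 824650694918, .f 824650694918, .f 160789550569374857755230342, .f
    160790675820481621363130502, .f 128, .f 128, .f 4740850663682201485455, .f 8650881, .f
    160789495228860903951827078, .f 8585344, .f 8781952, .f 128, .f 128, .f 128, .f 128, .f
    37436721666982018, .f 8781953, .f 8716416, .f 128, .f 128, .f 128, .f 128]
    (by decide +kernel)

theorem rT9 {N t x y L : ℤ} (hD : D N t)
    (c0 : N + y + 6 ≤ 2 * t + L)
    (c1 : t ≤ y + 1)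
    (c2 : t + L ≤ x + y + 4)
    (c3 : x + 2 ≤ t)
    (c4 : y + 1 ≤ N)
    (c5 : x + y + 6 ≠ t + L)
    (c6 : x + y + 5 ≠ t + L)
    (c7 : 3 * t + L ≠ N + x + y + 6)
    (c8 : 3 * t + L ≠ N + x + y + 7)
    (c9 : x + y + 4 ≠ N + L)
    (c10 : x + y + 3 ≠ N + L) :
    P (A N t) N x y L := by
  exact qr9 hD ⟨c0, c1, c2, c3, c4, c5, c6, c7, c8, c9, c10, trivial⟩

/-- hypotheses -/
noncomputable def kr11 : List Fk.C :=
  [.le (.add (.mul 2 .N) (.k 7)) (.add (.add (.mul 2 .t) .x) .L), .le (.add .x .L) (.add .y (.k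
  4)), .le (.k 0) .x, .le (.add .y (.k 1)) .t, .le (.add (.mul 2 .t) .x) (.add (.mul 2 .N) (.k 2)),
  .ne (.add .y (.k 5)) (.add .x .L), .ne (.add .y (.k 4)) (.add .x .L), .ne (.add (.add .t .x) .L)
  (.add (.add .N .y) (.k 6)), .ne (.add (.add .t .x) .L) (.add (.add .N .y) (.k 7)), .ne (.add
  (.add (.mul 3 .t) .x) .L) (.add (.add (.mul 2 .N) .y) (.k 7)), .ne (.add (.add (.mul 3 .t) .x)
  .L) (.add (.add (.mul 2 .N) .y) (.k 8))]

theorem qr11 {N t x y L : ℤ} (hD : D N t) : Fk.All ⟨N, t, x, y, L⟩ kr11 → P (A N t) N x y L :=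
  Fk.route (fam hD x y L) kr11 .y (.up .x (.add (.sub (.mul 2 .N) (.mul 2 .t)) (.k 2)))
    [(8, .up .t (.add .t (.k 1))), (0, .pt .N), (1, .up (.add (.sub (.sub (.sub (.add (.mul 2 .N)
    .y) (.mul 2 .t)) .x) .L) (.k 7)) .y)]
    [.f 8650880, .f 8781952, .f 315532110856027210174824580, .f 128, .f 128, .f
    160789605909325329029267588, .f 128, .f 9240704, .f 128, .f 128, .f 128, .f 128, .f
    37436734551621762, .f 9371776, .f 128, .f 154744976811252191745867908, .f 9240704, .f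
    315532110856027210174824580, .f 315532110856027210174824580, .f 37436734551621762, .f
    37436734551621762, .f 128, .f 128, .f 128, .f 128, .f 9240704, .f 315532018622307391382880388,
    .f 36873797483364480, .f 8519808, .f 549765054597, .f 36873797483364480, .f 36029402617872517,
    .f 37155809331118336, .f 72058706443239556, .f 8585344, .s 8 (.f 12648576) (.f 8454272), .s 12
    (.f 8454272) (.f 12648576), .f 571243233410, .f 128, .f 128, .f 571239104653, .f 8716417, .f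
    8585344, .f 128, .f 128, .f 128, .f 128]
    (by decide +kernel)

theorem rT11 {N t x y L : ℤ} (hD : D N t)
    (c0 : 2 * N + 7 ≤ 2 * t + x + L)
    (c1 : x + L ≤ y + 4)
    (c2 : (0 : ℤ) ≤ x)
    (c3 : y + 1 ≤ t)
    (c4 : 2 * t + x ≤ 2 * N + 2)
    (c5 : y + 5 ≠ x + L)
    (c6 : y + 4 ≠ x + L)
    (c7 : t + x + L ≠ N + y + 6)
    (c8 : t + x + L ≠ N + y + 7)
    (c9 : 3 * t + x + L ≠ 2 * N + y + 7)
    (c10 : 3 * t + x + L ≠ 2 * N + y + 8) :
    P (A N t) N x y L := by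
  exact qr11 hD ⟨c0, c1, c2, c3, c4, c5, c6, c7, c8, c9, c10, trivial⟩

/-- hypotheses -/
noncomputable def kr13 : List Fk.C :=
  [.le (.add .x .L) (.add .y (.k 1)), .le .x .y, .le (.add .y (.k 1)) (.add .x .L), .le (.k 0) .x,
  .le (.add .y (.k 1)) .N]

theorem qr13 {N t x y L : ℤ} (hD : D N t) : Fk.All ⟨N, t, x, y, L⟩ kr13 → P (A N t) N x y L :=
  Fk.route (fam hD x y L) kr13 .y (.up .x .y)
    []
    [.f 8716416, .f 8585344, .f 8781952, .f 128, .f 128, .f 128, .f 128, .f 8650880, .f 8519808]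
    (by decide +kernel)

theorem rT13 {N t x y L : ℤ} (hD : D N t)
    (c0 : x + L ≤ y + 1)
    (c1 : x ≤ y)
    (c2 : y + 1 ≤ x + L)
    (c3 : (0 : ℤ) ≤ x)
    (c4 : y + 1 ≤ N) :
    P (A N t) N x y L := by
  exact qr13 hD ⟨c0, c1, c2, c3, c4, trivial⟩

/-- hypotheses -/
noncomputable def kr15 : List Fk.C :=
  [.le (.add (.add .N .x) (.k 4)) (.add (.add .t .y) .L), .le (.add .x (.k 1)) .y, .le (.k 0) .x,
  .le (.add .t .y) (.add .N (.k 2)), .le (.add (.add .t .y) .L) (.add (.add .N .x) (.k 4))]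

theorem qr15 {N t x y L : ℤ} (hD : D N t) : Fk.All ⟨N, t, x, y, L⟩ kr15 → P (A N t) N x y L :=
  Fk.route (fam hD x y L) kr15 .y (.dn .x (.k 0))
    [(10, .dn (.add (.sub .N .t) (.k 2)) .y)]
    [.f 128, .f 8650880, .f 2416560911507194380424, .f 128, .f 128, .f 549764399236, .f 8716416, .f
    549781438600, .f 128, .f 128, .f 128, .f 128, .f 8585344, .f 128, .f 128, .f 8519808, .f
    8781952]
    (by decide +kernel)

theorem rT15 {N t x y L : ℤ} (hD : D N t)
    (c0 : N + x + 4 ≤ t + y + L)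
    (c1 : x + 1 ≤ y)
    (c2 : (0 : ℤ) ≤ x)
    (c3 : t + y ≤ N + 2)
    (c4 : t + y + L ≤ N + x + 4) :
    P (A N t) N x y L := by
  exact qr15 hD ⟨c0, c1, c2, c3, c4, trivial⟩

/-- hypotheses -/
noncomputable def kr17 : List Fk.C :=
  [.le (.add (.mul 2 .N) (.k 3)) (.add (.mul 2 .t) .y), .le (.add .x .L) (.add .y (.k 1)), .le (.k
  0) .x, .le (.add (.add .t .y) (.k 2)) (.add .N .L), .le (.add .y (.k 1)) .N, .ne (.add .y (.k 3))
  (.add .x .L), .ne (.add .y (.k 2)) (.add .x .L), .ne (.add (.add (.mul 2 .t) .y) (.k 2)) (.add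
  (.add .N .x) .L), .ne (.add (.add (.mul 2 .t) .y) (.k 1)) (.add (.add .N .x) .L), .ne (.add (.add
  .t .x) .L) (.add (.add .N .y) (.k 4)), .ne (.add (.add .t .x) .L) (.add (.add .N .y) (.k 5))]

theorem qr17 {N t x y L : ℤ} (hD : D N t) : Fk.All ⟨N, t, x, y, L⟩ kr17 → P (A N t) N x y L :=
  Fk.route (fam hD x y L) kr17 .y (.up .x (.sub (.sub (.sub (.add (.add .N .x) .L) .t) .y) (.k 2)))
    [(0, .pt .N), (1, .dn (.add (.sub (.mul 2 .N) (.mul 2 .t)) (.k 1)) (.sub .N .t)), (4, .up (.add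
    (.sub (.mul 2 .N) (.mul 2 .t)) (.k 3)) .y)]
    [.f 8650880, .f 8716416, .f 154744958400536923645018246, .f 128, .f 128, .f 9371776, .f 128, .f
    549764530308, .f 154744958400536923645018246, .f 8585408, .f 8585408, .f 37155809331052736, .f
    37155809331052736, .f 54043758177681542, .f 54043758177681542, .f 128, .f 128, .f
    161998457977993010140676225, .f 9240704, .f 9240704, .f 549764333702, .f 36029918022402308, .f
    549764333702, .f 9240704, .f 9240704, .f 192, .f 192, .f 39970821090967686, .f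
    39970821090967686, .f 128, .f 128, .f 554059300998, .f 8585344, .f 72903139971563648, .f
    8519808, .f 8781952, .f 128, .f 128, .f 128, .f 128, .f 128, .f 8781953, .f 72902590207361152,
    .f 128, .f 128, .f 128, .f 128]
    (by decide +kernel)

theorem rT17 {N t x y L : ℤ} (hD : D N t)
    (c0 : 2 * N + 3 ≤ 2 * t + y)
    (c1 : x + L ≤ y + 1)
    (c2 : (0 : ℤ) ≤ x)
    (c3 : t + y + 2 ≤ N + L)
    (c4 : y + 1 ≤ N)
    (c5 : y + 3 ≠ x + L)
    (c6 : y + 2 ≠ x + L)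
    (c7 : 2 * t + y + 2 ≠ N + x + L)
    (c8 : 2 * t + y + 1 ≠ N + x + L)
    (c9 : t + x + L ≠ N + y + 4)
    (c10 : t + x + L ≠ N + y + 5) :
    P (A N t) N x y L := by
  exact qr17 hD ⟨c0, c1, c2, c3, c4, c5, c6, c7, c8, c9, c10, trivial⟩

/-- hypotheses -/
noncomputable def kr19 : List Fk.C :=
  [.le (.add (.mul 2 .N) (.k 4)) (.add (.mul 2 .t) .y), .le (.add (.add .N .y) (.k 3)) (.add (.add
  .t .x) .L), .le .L (.add .y (.k 2)), .le (.add .y (.k 1)) .N, .le (.add (.mul 2 .t) .x) (.add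
  (.mul 2 .N) (.k 3)), .ne (.add .x .L) (.add (.add .t .y) (.k 2)), .ne (.add .x .L) (.add (.add .t
  .y) (.k 3)), .ne (.add (.add .t .x) .L) (.add (.add .N .y) (.k 3)), .ne (.add (.add .t .x) .L)
  (.add (.add .N .y) (.k 4)), .ne (.add (.add (.mul 2 .t) .x) .L) (.add (.add (.mul 2 .N) .y) (.k
  5)), .ne (.add (.add (.mul 2 .t) .x) .L) (.add (.add (.mul 2 .N) .y) (.k 6))]

theorem qr19 {N t x y L : ℤ} (hD : D N t) : Fk.All ⟨N, t, x, y, L⟩ kr19 → P (A N t) N x y L :=
  Fk.route (fam hD x y L) kr19 .y (.up .x (.add (.sub (.mul 2 .N) (.mul 2 .t)) (.k 3)))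
    [(5, .up (.sub .N .t) (.sub (.sub (.add .x .L) .y) (.k 3))), (0, .pt .N), (1, .dn (.sub (.sub
    .N .t) (.k 1)) (.k 0)), (12, .up (.add (.sub (.mul 2 .N) (.mul 2 .t)) (.k 4)) .y)]
    [.f 36873788893167757, .f 8781952, .f 571239039106, .f 128, .f 128, .f 9240704, .f 8585344, .f
    2435007935926304374917, .f 128, .f 128, .f 128, .f 128, .f 8650881, .f 9371776, .f 128, .f
    562649104525, .f 2435007935926304374917, .s 9 (.f 12648576) (.f 8454272), .s 10 (.f 12648576)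
    (.f 8454272), .s 11 (.f 12648576) (.f 8454272), .f 566948266118, .f
    171672299505409523053625477, .f 171672299505409523053625477, .f 128, .f 128, .f
    2435007935926304374917, .f 571239039106, .f 128, .f 9240704, .f 160789605908480916984037508, .f
    9240704, .f 160789605908480916984037508, .f 192, .f 192, .f 9240768, .f 9240768, .f
    571243233410, .f 571243233410, .f 128, .f 128, .f 37437275717632143, .f 129, .f 566944268417,
    .f 73184043717755139, .f 8519808, .f 8716416, .f 128, .f 128, .f 128, .f 128, .f 9240704, .f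
    8716417, .f 566944465024, .f 128, .f 128, .f 128, .f 128, .f 128]
    (by decide +kernel)

theorem rT19 {N t x y L : ℤ} (hD : D N t)
    (c0 : 2 * N + 4 ≤ 2 * t + y)
    (c1 : N + y + 3 ≤ t + x + L)
    (c2 : L ≤ y + 2)
    (c3 : y + 1 ≤ N)
    (c4 : 2 * t + x ≤ 2 * N + 3)
    (c5 : x + L ≠ t + y + 2)
    (c6 : x + L ≠ t + y + 3)
    (c7 : t + x + L ≠ N + y + 3)
    (c8 : t + x + L ≠ N + y + 4)
    (c9 : 2 * t + x + L ≠ 2 * N + y + 5)
    (c10 : 2 * t + x + L ≠ 2 * N + y + 6) :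
    P (A N t) N x y L := by
  exact qr19 hD ⟨c0, c1, c2, c3, c4, c5, c6, c7, c8, c9, c10, trivial⟩

/-- hypotheses -/
noncomputable def kr21 : List Fk.C :=
  [.le (.add .x (.k 4)) .L, .le .L (.add .y (.k 3)), .le (.k 0) .x, .le (.add .y (.k 2)) .N, .ne
  (.add (.add .x .y) (.k 5)) (.add .t .L), .ne (.add (.add .x .y) (.k 4)) (.add .t .L), .ne (.add
  (.add (.add .t .x) .y) (.k 4)) (.add .N .L), .ne (.add (.add (.add .t .x) .y) (.k 3)) (.add .N
  .L), .ne (.add (.add (.add (.mul 2 .t) .x) .y) (.k 2)) (.add (.mul 2 .N) .L), .ne (.add (.add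
  (.add (.mul 2 .t) .x) .y) (.k 1)) (.add (.mul 2 .N) .L)]

theorem qr21 {N t x y L : ℤ} (hD : D N t) : Fk.All ⟨N, t, x, y, L⟩ kr21 → P (A N t) N x y L :=
  Fk.route (fam hD x y L) kr21 .y (.dn .x (.k 0))
    [(3, .pt (.sub .N (.k 1))), (0, .pt .N), (1, .up (.add (.sub (.add .x .y) .L) (.k 4)) .y)]
    [.f 128, .f 8650880, .f 36029355373297797, .f 128, .f 128, .f 9306240, .f 128, .f 128, .f 128,
    .f 128, .f 128, .f 37436730256851072, .f 9306240, .f 128, .f 9306240, .f 128, .f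
    618977140194835071780061573, .f 549781766285, .f 549773377677, .f 549773377677, .f 9175168, .f
    9175168, .f 128, .f 128, .f 128, .f 37436730256851072, .f 562649104516, .f 8519808, .f 8716416,
    .f 562649104516, .f 549764333701, .s 8 (.f 12648576) (.f 8454272), .s 9 (.f 12648576) (.f
    8454272), .s 10 (.f 12648576) (.f 8454272), .s 11 (.f 12648576) (.f 8454272), .s 6 (.f
    12648576) (.f 8454272), .s 7 (.f 12648576) (.f 8454272), .f 128, .f 128, .f 8716417, .f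
    8716417, .f 8585344, .f 128, .f 128, .f 128, .f 128]
    (by decide +kernel)

theorem rT21 {N t x y L : ℤ} (hD : D N t)
    (c0 : x + 4 ≤ L)
    (c1 : L ≤ y + 3)
    (c2 : (0 : ℤ) ≤ x)
    (c3 : y + 2 ≤ N)
    (c4 : x + y + 5 ≠ t + L)
    (c5 : x + y + 4 ≠ t + L)
    (c6 : t + x + y + 4 ≠ N + L)
    (c7 : t + x + y + 3 ≠ N + L)
    (c8 : 2 * t + x + y + 2 ≠ 2 * N + L)
    (c9 : 2 * t + x + y + 1 ≠ 2 * N + L) :
    P (A N t) N x y L := by
  exact qr21 hD ⟨c0, c1, c2, c3, c4, c5, c6, c7, c8, c9, trivial⟩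

/-- hypotheses -/
noncomputable def kr23 : List Fk.C :=
  [.le (.add (.mul 2 .N) .L) (.add (.add (.mul 2 .t) .x) .y), .le .t .y, .le (.add .y (.k 1)) .N,
  .le (.add (.mul 2 .t) .x) (.add (.mul 2 .N) (.k 1)), .le (.add (.mul 2 .t) .y) (.add (.mul 2 .N)
  .L), .ne (.add (.add (.add .t .x) .y) (.k 1)) (.add (.mul 2 .N) .L), .ne (.add (.add .t .x) .y)
  (.add (.mul 2 .N) .L), .ne (.add (.add (.mul 3 .t) .x) .y) (.add (.mul 3 .N) .L), .ne (.add (.add
  (.mul 3 .t) .x) .y) (.add (.add (.mul 3 .N) .L) (.k 1)), .ne (.add (.add (.mul 4 .t) .x) .y)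
  (.add (.add (.mul 4 .N) .L) (.k 2)), .ne (.add (.add (.mul 4 .t) .x) .y) (.add (.add (.mul 4 .N)
  .L) (.k 3))]

theorem qr23 {N t x y L : ℤ} (hD : D N t) : Fk.All ⟨N, t, x, y, L⟩ kr23 → P (A N t) N x y L :=
  Fk.route (fam hD x y L) kr23 .y (.dn .x (.sub (.sub (.add (.add (.mul 2 .t) .x) .y) (.mul 2 .N)) .L))
    [(0, .pt .N), (1, .dn (.sub .t (.k 2)) (.add (.sub (.mul 2 .N) (.mul 2 .t)) (.k 2))), (8, .up
    .t .y)]
    [.f 8519808, .f 8781952, .f 37437327257108622, .f 128, .f 128, .f 9371776, .f 128, .f 8519808,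
    .f 2453454680605604184206, .s 9 (.f 12648576) (.f 8454272), .s 10 (.f 12648576) (.f 8454272),
    .f 575534334144, .f 575534334144, .f 2453456650599729594502, .f 2453456650599729594502, .f 128,
    .f 128, .f 37436781796262157, .f 1116708470912, .f 549765054606, .f 9240704, .f 549781831822,
    .f 9240704, .f 36029406921294084, .f 36029406921294084, .f 549765054606, .f 549765054606, .f
    192, .f 192, .f 128, .f 128, .f 9240705, .f 8716416, .f 549781831822, .f 8585344, .f 8650880,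
    .f 128, .f 128, .f 128, .f 128, .f 128, .f 8650881, .f 37436781797113984, .f 128, .f 128, .f
    128, .f 128]
    (by decide +kernel)

theorem rT23 {N t x y L : ℤ} (hD : D N t)
    (c0 : 2 * N + L ≤ 2 * t + x + y)
    (c1 : t ≤ y)
    (c2 : y + 1 ≤ N)
    (c3 : 2 * t + x ≤ 2 * N + 1)
    (c4 : 2 * t + y ≤ 2 * N + L)
    (c5 : t + x + y + 1 ≠ 2 * N + L)
    (c6 : t + x + y ≠ 2 * N + L)
    (c7 : 3 * t + x + y ≠ 3 * N + L)
    (c8 : 3 * t + x + y ≠ 3 * N + L + 1)
    (c9 : 4 * t + x + y ≠ 4 * N + L + 2)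
    (c10 : 4 * t + x + y ≠ 4 * N + L + 3) :
    P (A N t) N x y L := by
  exact qr23 hD ⟨c0, c1, c2, c3, c4, c5, c6, c7, c8, c9, c10, trivial⟩

/-- hypotheses -/
noncomputable def kr25 : List Fk.C :=
  [.le (.add .N (.k 5)) (.add (.add .t .y) .L), .le (.add .x (.k 1)) .y, .le (.add .t .y) (.add .N
  (.k 2)), .le (.add (.add .t .y) .L) (.add (.add .N .x) (.k 5)), .ne (.add .y .L) (.add .x (.k
  4)), .ne (.add .y .L) (.add .x (.k 5)), .ne (.add (.add (.mul 2 .t) .y) .L) (.add (.add .N .x)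
  (.k 5)), .ne (.add (.add (.mul 2 .t) .y) .L) (.add (.add .N .x) (.k 6)), .ne (.add (.add .t .x)
  (.k 3)) (.add (.add .N .y) .L), .ne (.add (.add .t .x) (.k 2)) (.add (.add .N .y) .L)]

theorem qr25 {N t x y L : ℤ} (hD : D N t) : Fk.All ⟨N, t, x, y, L⟩ kr25 → P (A N t) N x y L :=
  Fk.route (fam hD x y L) kr25 .y (.dn .x (.add (.sub (.sub (.sub (.add .N .x) .t) .y) .L) (.k 5)))
    [(0, .pt .N), (1, .dn (.add (.sub .N .t) (.k 2)) .y)]
    [.f 8716416, .f 8519808, .f 2361220396694415081613, .f 128, .f 128, .f 9306240, .f 128, .f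
    8716416, .f 157162791556993294103478413, .s 7 (.f 8454272) (.f 12648576), .s 6 (.f 8454272) (.f
    12648576), .f 2416560628911235399820, .f 3541848046754288959747, .f
    157162791556993568972996749, .f 157162791556993895382188224, .f 128, .f 128, .f
    2361294706088249983108, .f 36029359668396162, .f 8650880, .f 549781766285, .f 9175168, .f
    549781766285, .f 128, .f 128, .f 9175232, .f 9175232, .f 824651284621, .f 824651284621, .f 128,
    .f 128, .f 605616341121, .f 8585344, .f 128, .f 128, .f 128, .f 128]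
    (by decide +kernel)

theorem rT25 {N t x y L : ℤ} (hD : D N t)
    (c0 : N + 5 ≤ t + y + L)
    (c1 : x + 1 ≤ y)
    (c2 : t + y ≤ N + 2)
    (c3 : t + y + L ≤ N + x + 5)
    (c4 : y + L ≠ x + 4)
    (c5 : y + L ≠ x + 5)
    (c6 : 2 * t + y + L ≠ N + x + 5)
    (c7 : 2 * t + y + L ≠ N + x + 6)
    (c8 : t + x + 3 ≠ N + y + L)
    (c9 : t + x + 2 ≠ N + y + L) :
    P (A N t) N x y L := by
  exact qr25 hD ⟨c0, c1, c2, c3, c4, c5, c6, c7, c8, c9, trivial⟩

/-- hypotheses -/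
noncomputable def kr27 : List Fk.C :=
  [.le (.add .N (.k 2)) (.add .t .x), .le (.add .x (.k 1)) .y, .le (.add .y .L) (.add .t .x), .le
  (.add (.add .t .x) (.k 1)) (.add .N .L), .ne (.add .y .L) (.add .x (.k 1)), .ne (.add .y .L)
  (.add .x (.k 2)), .ne (.add (.add (.mul 2 .t) .x) (.k 1)) (.add (.add .N .y) .L), .ne (.add (.mul
  2 .t) .x) (.add (.add .N .y) .L), .ne (.add (.add .t .y) .L) (.add (.add .N .x) (.k 3)), .ne
  (.add (.add .t .y) .L) (.add (.add .N .x) (.k 4))]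

theorem qr27 {N t x y L : ℤ} (hD : D N t) : Fk.All ⟨N, t, x, y, L⟩ kr27 → P (A N t) N x y L :=
  Fk.route (fam hD x y L) kr27 .y (.dn .x (.add (.sub .N .t) (.k 2)))
    [(0, .pt .N), (1, .dn (.sub (.sub (.sub (.add (.add .N .y) .L) .t) .x) (.k 1)) .y)]
    [.f 9175168, .f 8519808, .f 36029368258199684, .f 128, .f 128, .f 9306240, .f 128, .f 9175168,
    .f 2361220678169374359684, .f 128, .f 128, .f 9175232, .f 9175232, .f 824651284621, .f
    170463355238769894956859652, .f 128, .f 128, .f 37155246690205829, .f 36029359668854914, .f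
    8716416, .f 8650880, .f 2361220678169375015042, .f 8650880, .f 36029368258199682, .f
    36029368258199682, .s 10 (.f 12648576) (.f 8454272), .s 11 (.f 12648576) (.f 8454272), .s 9 (.f
    8454272) (.f 12648576), .s 8 (.f 8454272) (.f 12648576), .f 128, .f 128, .f 8650881, .f
    8585344, .f 128, .f 128, .f 128, .f 128]
    (by decide +kernel)

theorem rT27 {N t x y L : ℤ} (hD : D N t)
    (c0 : N + 2 ≤ t + x)
    (c1 : x + 1 ≤ y)
    (c2 : y + L ≤ t + x)
    (c3 : t + x + 1 ≤ N + L)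
    (c4 : y + L ≠ x + 1)
    (c5 : y + L ≠ x + 2)
    (c6 : 2 * t + x + 1 ≠ N + y + L)
    (c7 : 2 * t + x ≠ N + y + L)
    (c8 : t + y + L ≠ N + x + 3)
    (c9 : t + y + L ≠ N + x + 4) :
    P (A N t) N x y L := by
  exact qr27 hD ⟨c0, c1, c2, c3, c4, c5, c6, c7, c8, c9, trivial⟩

/-- hypotheses -/
noncomputable def kr29 : List Fk.C :=
  [.le (.add (.mul 2 .N) (.k 2)) (.add (.mul 2 .t) .y), .le (.add (.add .N .x) .L) (.add (.add .t
  .y) (.k 3)), .le (.k 0) .x, .le (.add .y (.k 2)) .t, .le (.add .t .x) (.add .N (.k 1)), .le (.add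
  (.add .t .y) (.k 3)) (.add (.add .N .x) .L)]

theorem qr29 {N t x y L : ℤ} (hD : D N t) : Fk.All ⟨N, t, x, y, L⟩ kr29 → P (A N t) N x y L :=
  Fk.route (fam hD x y L) kr29 .y (.up .x (.add (.sub .N .t) (.k 1)))
    [(6, .up (.sub .t (.k 1)) .t), (9, .up (.add (.sub (.mul 2 .N) (.mul 2 .t)) (.k 2)) .y)]
    [.f 8650880, .f 8781952, .f 2361219834298495205638, .f 128, .f 128, .f 2453452991717089345798,
    .f 128, .f 8913024, .f 128, .f 128, .f 128, .f 128, .f 2398114447796065337472, .f 549772853510,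
    .f 8519808, .f 36029363963363462, .f 128, .f 128, .f 128, .f 128, .f 8716417, .f 8913024, .f
    128, .f 128, .f 8847488, .f 8585344]
    (by decide +kernel)

theorem rT29 {N t x y L : ℤ} (hD : D N t)
    (c0 : 2 * N + 2 ≤ 2 * t + y)
    (c1 : N + x + L ≤ t + y + 3)
    (c2 : (0 : ℤ) ≤ x)
    (c3 : y + 2 ≤ t)
    (c4 : t + x ≤ N + 1)
    (c5 : t + y + 3 ≤ N + x + L) :
    P (A N t) N x y L := by
  exact qr29 hD ⟨c0, c1, c2, c3, c4, c5, trivial⟩

/-- hypotheses -/
noncomputable def kr31 : List Fk.C :=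
  [.le (.add (.mul 2 .N) (.k 8)) (.add (.add (.mul 2 .t) .y) .L), .le (.add .x (.k 1)) .y, .le
  (.add (.mul 2 .t) .y) (.add (.mul 2 .N) (.k 5)), .le (.add (.add (.mul 2 .t) .y) .L) (.add (.add
  (.mul 2 .N) .x) (.k 8)), .ne (.add .y .L) (.add .x (.k 5)), .ne (.add .y .L) (.add .x (.k 6)),
  .ne (.add (.add .t .y) .L) (.add (.add .N .x) (.k 7)), .ne (.add (.add .t .y) .L) (.add (.add .N
  .x) (.k 8)), .ne (.add (.add (.mul 3 .t) .y) .L) (.add (.add (.mul 2 .N) .x) (.k 8)), .ne (.add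
  (.add (.mul 3 .t) .y) .L) (.add (.add (.mul 2 .N) .x) (.k 9))]

theorem qr31 {N t x y L : ℤ} (hD : D N t) : Fk.All ⟨N, t, x, y, L⟩ kr31 → P (A N t) N x y L :=
  Fk.route (fam hD x y L) kr31 .y (.dn .x (.add (.sub (.sub (.sub (.add (.mul 2 .N) .x) (.mul 2 .t)) .y) .L) (.k 8)))
    [(0, .pt .N), (1, .dn (.add (.sub (.mul 2 .N) (.mul 2 .t)) (.k 5)) .y)]
    [.f 8716416, .f 8519808, .f 2361220396694406693005, .f 128, .f 128, .f 9306240, .f 128, .f
    8716416, .f 157162791556993294095089805, .s 9 (.f 8454272) (.f 12648576), .s 8 (.f 8454272) (.f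
    12648576), .s 7 (.f 8454272) (.f 12648576), .s 6 (.f 8454272) (.f 12648576), .f
    157162791556993345626374336, .f 157162791556993345626374336, .f 128, .f 128, .f
    2361258677291231019140, .f 36029359668396162, .f 8650880, .f 549773377677, .f
    2361220396694397845634, .f 549773377677, .f 9175168, .f 9175168, .f 128, .f 128, .f
    824642896013, .f 824642896013, .f 128, .f 128, .f 605607952513, .f 8585344, .f 128, .f 128, .f
    128, .f 128]
    (by decide +kernel)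

theorem rT31 {N t x y L : ℤ} (hD : D N t)
    (c0 : 2 * N + 8 ≤ 2 * t + y + L)
    (c1 : x + 1 ≤ y)
    (c2 : 2 * t + y ≤ 2 * N + 5)
    (c3 : 2 * t + y + L ≤ 2 * N + x + 8)
    (c4 : y + L ≠ x + 5)
    (c5 : y + L ≠ x + 6)
    (c6 : t + y + L ≠ N + x + 7)
    (c7 : t + y + L ≠ N + x + 8)
    (c8 : 3 * t + y + L ≠ 2 * N + x + 8)
    (c9 : 3 * t + y + L ≠ 2 * N + x + 9) :
    P (A N t) N x y L := by
  exact qr31 hD ⟨c0, c1, c2, c3, c4, c5, c6, c7, c8, c9, trivial⟩

/-- hypotheses -/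
noncomputable def kr33 : List Fk.C :=
  [.le (.add .x (.k 1)) .y, .le (.k 4) .L, .le .L (.add .x (.k 4)), .le (.add .y (.k 2)) .N, .ne
  (.add .x (.k 5)) (.add .t .L), .ne (.add .x (.k 4)) (.add .t .L), .ne (.add .y (.k 2)) .t, .ne
  (.add .y (.k 1)) .t, .ne (.add (.add .t .x) (.k 4)) (.add .N .L), .ne (.add (.add .t .x) (.k 3))
  (.add .N .L), .ne (.add (.add .t .y) (.k 1)) .N, .ne (.add .t .y) .N, .ne (.add (.add (.mul 2 .t)
  .x) (.k 2)) (.add (.mul 2 .N) .L), .ne (.add (.add (.mul 2 .t) .x) (.k 1)) (.add (.mul 2 .N) .L),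
  .ne (.add (.mul 2 .t) .y) (.add (.mul 2 .N) (.k 1)), .ne (.add (.mul 2 .t) .y) (.add (.mul 2 .N)
  (.k 2))]

theorem qr33 {N t x y L : ℤ} (hD : D N t) : Fk.All ⟨N, t, x, y, L⟩ kr33 → P (A N t) N x y L :=
  Fk.route (fam hD x y L) kr33 .y (.dn .x (.add (.sub .x .L) (.k 4)))
    [(0, .pt .N), (1, .dn (.add .y (.k 1)) .y)]
    [.f 8650880, .f 8585344, .f 549764333701, .f 128, .f 128, .f 9699456, .f 128, .f 8650880, .f
    36029359668199557, .s 10 (.f 12648576) (.f 8454272), .s 11 (.f 12648576) (.f 8454272), .s 14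
    (.f 12648576) (.f 8454272), .s 15 (.f 12648576) (.f 8454272), .s 6 (.f 12648576) (.f 8454272),
    .s 7 (.f 12648576) (.f 8454272), .f 128, .f 128, .f 571239039106, .f 36029359668199556, .f 128,
    .f 8716416, .f 36029359668199556, .f 8716416, .s 12 (.f 12648576) (.f 8454272), .s 13 (.f
    12648576) (.f 8454272), .s 16 (.f 12648576) (.f 8454272), .s 17 (.f 12648576) (.f 8454272), .s
    8 (.f 12648576) (.f 8454272), .s 9 (.f 12648576) (.f 8454272), .f 128, .f 128, .f 8716417, .f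
    8519808, .f 128, .f 128, .f 128, .f 128]
    (by decide +kernel)

theorem rT33 {N t x y L : ℤ} (hD : D N t)
    (c0 : x + 1 ≤ y)
    (c1 : (4 : ℤ) ≤ L)
    (c2 : L ≤ x + 4)
    (c3 : y + 2 ≤ N)
    (c4 : x + 5 ≠ t + L)
    (c5 : x + 4 ≠ t + L)
    (c6 : y + 2 ≠ t)
    (c7 : y + 1 ≠ t)
    (c8 : t + x + 4 ≠ N + L)
    (c9 : t + x + 3 ≠ N + L)
    (c10 : t + y + 1 ≠ N)
    (c11 : t + y ≠ N)
    (c12 : 2 * t + x + 2 ≠ 2 * N + L)
    (c13 : 2 * t + x + 1 ≠ 2 * N + L)
    (c14 : 2 * t + y ≠ 2 * N + 1)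
    (c15 : 2 * t + y ≠ 2 * N + 2) :
    P (A N t) N x y L := by
  exact qr33 hD ⟨c0, c1, c2, c3, c4, c5, c6, c7, c8, c9, c10, c11, c12, c13, c14, c15, trivial⟩

/-- hypotheses -/
noncomputable def kr35 : List Fk.C :=
  [.le (.add .x (.k 1)) .y, .le (.k 5) .L, .le (.k 2) .x, .le (.add .y .L) (.add .N (.k 4)), .ne .x
  (.add .t (.k 1)), .ne .x (.add .t (.k 2)), .ne (.add .y .L) (.add .t (.k 4)), .ne (.add .y .L)
  (.add .t (.k 5)), .ne (.add .t .x) (.add .N (.k 2)), .ne (.add .t .x) (.add .N (.k 3)), .ne (.add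
  (.add .t .y) .L) (.add .N (.k 5)), .ne (.add (.add .t .y) .L) (.add .N (.k 6)), .ne (.add (.mul 2
  .t) .x) (.add (.mul 2 .N) (.k 4)), .ne (.add (.mul 2 .t) .x) (.add (.mul 2 .N) (.k 5)), .ne (.add
  (.add (.mul 2 .t) .y) .L) (.add (.mul 2 .N) (.k 7)), .ne (.add (.add (.mul 2 .t) .y) .L) (.add
  (.mul 2 .N) (.k 8))]

theorem qr35 {N t x y L : ℤ} (hD : D N t) : Fk.All ⟨N, t, x, y, L⟩ kr35 → P (A N t) N x y L :=
  Fk.route (fam hD x y L) kr35 .y (.dn .x (.sub .x (.k 2)))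
    [(0, .pt .N), (1, .dn (.sub (.add .y .L) (.k 5)) .y)]
    [.f 8650880, .f 128, .f 36029359668199557, .f 128, .f 128, .f 9699456, .f 128, .f 8650880, .f
    36029359668199557, .s 10 (.f 12648576) (.f 8454272), .s 11 (.f 12648576) (.f 8454272), .s 14
    (.f 12648576) (.f 8454272), .s 15 (.f 12648576) (.f 8454272), .s 6 (.f 12648576) (.f 8454272),
    .s 7 (.f 12648576) (.f 8454272), .f 128, .f 128, .f 36029359668199557, .f 549764333700, .f
    8585344, .f 8716416, .f 36029359668199556, .f 8716416, .s 12 (.f 12648576) (.f 8454272), .s 13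
    (.f 12648576) (.f 8454272), .s 16 (.f 12648576) (.f 8454272), .s 17 (.f 12648576) (.f 8454272),
    .s 8 (.f 12648576) (.f 8454272), .s 9 (.f 12648576) (.f 8454272), .f 128, .f 128, .f 8716417,
    .f 8519808, .f 128, .f 128, .f 128, .f 128]
    (by decide +kernel)

theorem rT35 {N t x y L : ℤ} (hD : D N t)
    (c0 : x + 1 ≤ y)
    (c1 : (5 : ℤ) ≤ L)
    (c2 : (2 : ℤ) ≤ x)
    (c3 : y + L ≤ N + 4)
    (c4 : x ≠ t + 1)
    (c5 : x ≠ t + 2)
    (c6 : y + L ≠ t + 4)
    (c7 : y + L ≠ t + 5)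
    (c8 : t + x ≠ N + 2)
    (c9 : t + x ≠ N + 3)
    (c10 : t + y + L ≠ N + 5)
    (c11 : t + y + L ≠ N + 6)
    (c12 : 2 * t + x ≠ 2 * N + 4)
    (c13 : 2 * t + x ≠ 2 * N + 5)
    (c14 : 2 * t + y + L ≠ 2 * N + 7)
    (c15 : 2 * t + y + L ≠ 2 * N + 8) :
    P (A N t) N x y L := by
  exact qr35 hD ⟨c0, c1, c2, c3, c4, c5, c6, c7, c8, c9, c10, c11, c12, c13, c14, c15, trivial⟩

/-- hypotheses -/
noncomputable def kr37 : List Fk.C :=
  [.le (.add .t (.k 4)) (.add .y .L), .le (.add .x (.k 1)) .y, .le .y (.add .t (.k 1)), .le (.add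
  .y .L) (.add (.add .t .x) (.k 4)), .ne (.add .y .L) (.add .x (.k 4)), .ne (.add .y .L) (.add .x
  (.k 5)), .ne (.add (.add (.mul 2 .t) .x) (.k 4)) (.add (.add .N .y) .L), .ne (.add (.add (.mul 2
  .t) .x) (.k 3)) (.add (.add .N .y) .L), .ne (.add (.add (.mul 3 .t) .x) (.k 2)) (.add (.add (.mul
  2 .N) .y) .L), .ne (.add (.add (.mul 3 .t) .x) (.k 1)) (.add (.add (.mul 2 .N) .y) .L)]

theorem qr37 {N t x y L : ℤ} (hD : D N t) : Fk.All ⟨N, t, x, y, L⟩ kr37 → P (A N t) N x y L :=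
  Fk.route (fam hD x y L) kr37 .y (.dn .x (.add (.sub (.sub (.add .t .x) .y) .L) (.k 4)))
    [(0, .pt .N), (1, .dn (.add .t (.k 1)) .y)]
    [.f 8716416, .f 8519808, .f 36029363963232396, .f 128, .f 128, .f 9306240, .f 128, .f 8716416,
    .f 2361220396690102747276, .s 8 (.f 12648576) (.f 8454272), .s 9 (.f 12648576) (.f 8454272), .s
    10 (.f 12648576) (.f 8454272), .s 11 (.f 12648576) (.f 8454272), .s 7 (.f 8454272) (.f
    12648576), .s 6 (.f 8454272) (.f 12648576), .f 128, .f 128, .f 39407063683563651, .f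
    36873771713429637, .f 8650880, .f 9175168, .f 2361220396690102878339, .f 9175168, .f
    549765054732, .f 549765054732, .f 549765054604, .f 549765054604, .f 128, .f 128, .f 128, .f
    128, .f 9175169, .f 8585344, .f 128, .f 128, .f 128, .f 128]
    (by decide +kernel)

theorem rT37 {N t x y L : ℤ} (hD : D N t)
    (c0 : t + 4 ≤ y + L)
    (c1 : x + 1 ≤ y)
    (c2 : y ≤ t + 1)
    (c3 : y + L ≤ t + x + 4)
    (c4 : y + L ≠ x + 4)
    (c5 : y + L ≠ x + 5)
    (c6 : 2 * t + x + 4 ≠ N + y + L)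
    (c7 : 2 * t + x + 3 ≠ N + y + L)
    (c8 : 3 * t + x + 2 ≠ 2 * N + y + L)
    (c9 : 3 * t + x + 1 ≠ 2 * N + y + L) :
    P (A N t) N x y L := by
  exact qr37 hD ⟨c0, c1, c2, c3, c4, c5, c6, c7, c8, c9, trivial⟩

/-- hypotheses -/
noncomputable def kr39 : List Fk.C :=
  [.le (.add (.add .N .y) .L) (.add (.add (.mul 2 .t) .x) (.k 1)), .le (.add .t (.k 3)) (.add .y
  .L), .le (.add .x (.k 1)) .y, .le (.add .y (.k 1)) .t, .ne (.add .x (.k 1)) .t, .ne .x .t, .ne
  (.add .y .L) (.add .t (.k 2)), .ne (.add .y .L) (.add .t (.k 3)), .ne (.add (.mul 3 .t) (.k 2))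
  (.add (.add .N .y) .L), .ne (.add (.mul 3 .t) (.k 1)) (.add (.add .N .y) .L), .ne (.add .t .x)
  .N, .ne (.add .t .x) (.add .N (.k 1)), .ne (.add .y .L) (.add .N (.k 4)), .ne (.add .y .L) (.add
  .N (.k 5)), .ne (.add (.mul 2 .t) .x) (.add (.mul 2 .N) (.k 2)), .ne (.add (.mul 2 .t) .x) (.add
  (.mul 2 .N) (.k 3))]

theorem qr39 {N t x y L : ℤ} (hD : D N t) : Fk.All ⟨N, t, x, y, L⟩ kr39 → P (A N t) N x y L :=
  Fk.route (fam hD x y L) kr39 .y (.pt .x)
    [(0, .pt .N), (1, .dn (.sub (.sub (.add (.add .N .y) .L) (.mul 2 .t)) (.k 2)) (.add (.sub .N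
    .t) (.k 1))), (6, .dn (.sub .t (.k 1)) .y)]
    [.f 36029359669248130, .f 41095917838794884, .f 128, .f 128, .f 9699456, .f 128, .f
    36029359669248130, .f 36029368259182724, .f 549764399234, .f 549764399234, .s 16 (.f 12648576)
    (.f 8454272), .s 17 (.f 12648576) (.f 8454272), .f 566944399552, .f 566944399552, .f 128, .f
    128, .f 36029368259182724, .f 9568384, .f 8585344, .f 2693262071483261386884, .f 549764399250,
    .f 2693262071483261386884, .f 8585344, .s 9 (.f 12648576) (.f 8454272), .s 14 (.f 12648576) (.f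
    8454272), .s 15 (.f 12648576) (.f 8454272), .f 36592318211686592, .f 37155268164976832, .f 128,
    .f 128, .f 2693262071487556354180, .f 8519809, .f 2435006247089330061442, .f 8716416, .f
    9568384, .f 128, .f 128, .f 128, .f 128, .f 566944202880, .f 9568385, .f 8650880, .f 128, .f
    128, .f 128, .f 128]
    (by decide +kernel)

theorem rT39 {N t x y L : ℤ} (hD : D N t)
    (c0 : N + y + L ≤ 2 * t + x + 1)
    (c1 : t + 3 ≤ y + L)
    (c2 : x + 1 ≤ y)
    (c3 : y + 1 ≤ t)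
    (c4 : x + 1 ≠ t)
    (c5 : x ≠ t)
    (c6 : y + L ≠ t + 2)
    (c7 : y + L ≠ t + 3)
    (c8 : 3 * t + 2 ≠ N + y + L)
    (c9 : 3 * t + 1 ≠ N + y + L)
    (c10 : t + x ≠ N)
    (c11 : t + x ≠ N + 1)
    (c12 : y + L ≠ N + 4)
    (c13 : y + L ≠ N + 5)
    (c14 : 2 * t + x ≠ 2 * N + 2)
    (c15 : 2 * t + x ≠ 2 * N + 3) :
    P (A N t) N x y L := by
  exact qr39 hD ⟨c0, c1, c2, c3, c4, c5, c6, c7, c8, c9, c10, c11, c12, c13, c14, c15, trivial⟩

/-- hypotheses -/
noncomputable def kr41 : List Fk.C :=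
  [.le (.add .N (.k 2)) (.add .y .L), .le (.add .x (.k 1)) .y, .le (.add .y (.k 1)) .N, .le (.add
  .y .L) (.add (.add .N .x) (.k 2)), .ne (.add .y .L) (.add (.add .t .x) (.k 1)), .ne (.add .y .L)
  (.add (.add .t .x) (.k 2)), .ne (.add (.mul 2 .t) .x) (.add (.add .N .y) .L), .ne (.add (.mul 2
  .t) .x) (.add (.add (.add .N .y) .L) (.k 1)), .ne (.add (.add .t .y) .L) (.add (.add .N .x) (.k
  2)), .ne (.add (.add .t .y) .L) (.add (.add .N .x) (.k 3))]

theorem qr41 {N t x y L : ℤ} (hD : D N t) : Fk.All ⟨N, t, x, y, L⟩ kr41 → P (A N t) N x y L :=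
  Fk.route (fam hD x y L) kr41 .y (.dn .x (.add (.sub (.sub (.add .N .x) .y) .L) (.k 2)))
    [(0, .pt .N), (1, .dn (.sub .N (.k 1)) .y)]
    [.f 8716416, .f 8519808, .f 549764464771, .f 128, .f 128, .f 9306240, .f 128, .f 8716416, .f
    36029363963166851, .s 7 (.f 8454272) (.f 12648576), .s 6 (.f 8454272) (.f 12648576), .s 8 (.f
    12648576) (.f 8454272), .s 9 (.f 12648576) (.f 8454272), .s 11 (.f 8454272) (.f 12648576), .s
    10 (.f 8454272) (.f 12648576), .f 128, .f 128, .f 562649104516, .f 36873771713429637, .f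
    8650880, .f 128, .f 9306240, .f 128, .f 549781766285, .f 549781766285, .f 549773377677, .f
    549773377677, .f 9175168, .f 9175168, .f 128, .f 128, .f 129, .f 8585344, .f 128, .f 128, .f
    128, .f 128]
    (by decide +kernel)

theorem rT41 {N t x y L : ℤ} (hD : D N t)
    (c0 : N + 2 ≤ y + L)
    (c1 : x + 1 ≤ y)
    (c2 : y + 1 ≤ N)
    (c3 : y + L ≤ N + x + 2)
    (c4 : y + L ≠ t + x + 1)
    (c5 : y + L ≠ t + x + 2)
    (c6 : 2 * t + x ≠ N + y + L)
    (c7 : 2 * t + x ≠ N + y + L + 1)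
    (c8 : t + y + L ≠ N + x + 2)
    (c9 : t + y + L ≠ N + x + 3) :
    P (A N t) N x y L := by
  exact qr41 hD ⟨c0, c1, c2, c3, c4, c5, c6, c7, c8, c9, trivial⟩

/-- hypotheses -/
noncomputable def kr43 : List Fk.C :=
  [.le (.add (.mul 2 .N) (.k 4)) (.add (.mul 2 .t) .x), .le (.add .x (.k 1)) .y, .le (.add (.mul 2
  .t) .x) (.add (.add (.add .N .y) .L) (.k 1)), .le (.add .y (.k 1)) .N, .le (.add .y .L) (.add
  (.add .N .x) (.k 2)), .ne (.add (.add .y .L) (.k 1)) (.add .t .x), .ne (.add .y .L) (.add .t .x),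
  .ne (.add (.mul 3 .t) .x) (.add (.add (.add .N .y) .L) (.k 1)), .ne (.add (.mul 3 .t) .x) (.add
  (.add (.add .N .y) .L) (.k 2)), .ne (.add .y .L) (.add (.add .N .x) (.k 1)), .ne (.add .y .L)
  (.add (.add .N .x) (.k 2))]

theorem qr43 {N t x y L : ℤ} (hD : D N t) : Fk.All ⟨N, t, x, y, L⟩ kr43 → P (A N t) N x y L :=
  Fk.route (fam hD x y L) kr43 .y (.dn .x (.add (.sub (.mul 2 .N) (.mul 2 .t)) (.k 4)))
    [(0, .pt .N), (1, .dn (.add (.sub (.sub (.add (.add .N .y) .L) (.mul 2 .t)) .x) (.k 1)) (.k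
    0)), (3, .dn (.sub .N (.k 1)) .y)]
    [.f 575534268544, .f 8519808, .f 549764530307, .f 128, .f 128, .f 9371776, .f 128, .f
    575534268544, .f 36029368258134147, .f 9240704, .f 9240704, .f 128, .f 128, .f 824643027085, .f
    2619475095201308082496, .f 128, .f 128, .f 562649104517, .f 128, .f 8650880, .f
    2471901142598746767491, .f 8650880, .f 2471901142598746767491, .s 7 (.f 12648576) (.f 8454272),
    .s 8 (.f 12648576) (.f 8454272), .s 11 (.f 12648576) (.f 8454272), .s 12 (.f 12648576) (.f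
    8454272), .f 171669919839113742525792518, .f 171669919839113742525792518, .f 128, .f 128, .f
    2416560910381913342082, .f 8781953, .f 2361220396694397911170, .f 8716416, .f 128, .f 128, .f
    128, .f 128, .f 128, .f 37718196643627138, .f 129, .f 8585344, .f 128, .f 128, .f 128, .f 128]
    (by decide +kernel)

theorem rT43 {N t x y L : ℤ} (hD : D N t)
    (c0 : 2 * N + 4 ≤ 2 * t + x)
    (c1 : x + 1 ≤ y)
    (c2 : 2 * t + x ≤ N + y + L + 1)
    (c3 : y + 1 ≤ N)
    (c4 : y + L ≤ N + x + 2)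
    (c5 : y + L + 1 ≠ t + x)
    (c6 : y + L ≠ t + x)
    (c7 : 3 * t + x ≠ N + y + L + 1)
    (c8 : 3 * t + x ≠ N + y + L + 2)
    (c9 : y + L ≠ N + x + 1)
    (c10 : y + L ≠ N + x + 2) :
    P (A N t) N x y L := by
  exact qr43 hD ⟨c0, c1, c2, c3, c4, c5, c6, c7, c8, c9, c10, trivial⟩

/-- hypotheses -/
noncomputable def kr45 : List Fk.C :=
  [.le (.add (.add (.mul 2 .N) .y) .L) (.add (.add (.mul 3 .t) .x) (.k 4)), .le (.add .t (.k 7))
  (.add .y .L), .le (.add .x (.k 1)) .y, .le .y .t, .ne (.add .y .L) (.add .x (.k 7)), .ne (.add .y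
  .L) (.add .x (.k 8)), .ne (.add (.add (.mul 2 .t) .x) (.k 7)) (.add (.add .N .y) .L), .ne (.add
  (.add (.mul 2 .t) .x) (.k 6)) (.add (.add .N .y) .L), .ne (.add .t (.k 2)) .N, .ne (.add (.add
  (.mul 3 .t) .x) (.k 5)) (.add (.add (.mul 2 .N) .y) .L), .ne (.add (.add (.mul 3 .t) .x) (.k 4))
  (.add (.add (.mul 2 .N) .y) .L)]

theorem qr45 {N t x y L : ℤ} (hD : D N t) : Fk.All ⟨N, t, x, y, L⟩ kr45 → P (A N t) N x y L :=
  Fk.route (fam hD x y L) kr45 .y (.dn .x (.add (.sub (.sub (.add .t .x) .y) .L) (.k 7)))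
    [(0, .pt .N), (1, .up (.sub (.sub (.mul 2 .N) (.mul 2 .t)) (.k 1)) (.add (.sub (.mul 2 .N)
    (.mul 2 .t)) (.k 2))), (8, .dn .t .y)]
    [.f 1155354591362, .f 8585344, .f 36029368258855044, .f 128, .f 128, .f 9371776, .f 128, .f
    1155354591362, .f 2361220678169375080580, .f 605598908544, .f 605598908544, .f 8519808, .s 12
    (.f 12648576) (.f 8454272), .s 7 (.f 8454272) (.f 12648576), .f 37155268165042368, .f 128, .f
    128, .f 37155246690861189, .f 8388877, .f 128, .f 159580661642966626145009805, .f 8388877, .f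
    159580661642966626145009805, .f 9240704, .s 10 (.f 8454272) (.f 12648576), .f 192, .f 192, .f
    2435007654464216629378, .f 2435007654464216629378, .f 128, .f 128, .f
    159580661642966630439977101, .f 8519809, .f 2435006247089338122370, .f 8716416, .f 9240704, .f
    128, .f 128, .f 128, .f 128, .f 37155255280140416, .f 9240705, .f 8650880, .f 128, .f 128, .f
    128, .f 128]
    (by decide +kernel)

theorem rT45 {N t x y L : ℤ} (hD : D N t)
    (c0 : 2 * N + y + L ≤ 3 * t + x + 4)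
    (c1 : t + 7 ≤ y + L)
    (c2 : x + 1 ≤ y)
    (c3 : y ≤ t)
    (c4 : y + L ≠ x + 7)
    (c5 : y + L ≠ x + 8)
    (c6 : 2 * t + x + 7 ≠ N + y + L)
    (c7 : 2 * t + x + 6 ≠ N + y + L)
    (c8 : t + 2 ≠ N)
    (c9 : 3 * t + x + 5 ≠ 2 * N + y + L)
    (c10 : 3 * t + x + 4 ≠ 2 * N + y + L) :
    P (A N t) N x y L := by
  exact qr45 hD ⟨c0, c1, c2, c3, c4, c5, c6, c7, c8, c9, c10, trivial⟩

/-- hypotheses -/
noncomputable def kr47 : List Fk.C :=
  [.le (.add (.add (.mul 2 .N) .y) (.k 8)) (.add (.add (.mul 3 .t) .x) .L), .le (.add .N (.k 2))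
  (.add .t .x), .le .t (.add .y (.k 1)), .le (.add .y (.k 1)) .N, .le (.add (.add (.mul 3 .t) .x)
  .L) (.add (.add (.mul 2 .N) .y) (.k 8)), .le (.add (.mul 2 .t) .x) (.add (.mul 2 .N) (.k 3))]

theorem qr47 {N t x y L : ℤ} (hD : D N t) : Fk.All ⟨N, t, x, y, L⟩ kr47 → P (A N t) N x y L :=
  Fk.route (fam hD x y L) kr47 .y (.up .x (.add (.sub (.mul 2 .N) (.mul 2 .t)) (.k 3)))
    [(5, .up (.sub .N .t) (.add (.sub .N .t) (.k 1))), (6, .up (.sub .t (.k 1)) .y)]
    [.f 36873793188135044, .f 8847488, .f 549773115529, .f 128, .f 128, .f 8913024, .f 128, .f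
    549781504137, .f 128, .f 128, .f 128, .f 128, .f 8585345, .f 549781504137, .f 8650880, .f
    8716416, .f 128, .f 128, .f 128, .f 128, .f 549764792584, .f 549764792456, .f 128, .f 128, .f
    8519808, .f 8781952]
    (by decide +kernel)

theorem rT47 {N t x y L : ℤ} (hD : D N t)
    (c0 : 2 * N + y + 8 ≤ 3 * t + x + L)
    (c1 : N + 2 ≤ t + x)
    (c2 : t ≤ y + 1)
    (c3 : y + 1 ≤ N)
    (c4 : 3 * t + x + L ≤ 2 * N + y + 8)
    (c5 : 2 * t + x ≤ 2 * N + 3) :
    P (A N t) N x y L := by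
  exact qr47 hD ⟨c0, c1, c2, c3, c4, c5, trivial⟩

/-- hypotheses -/
noncomputable def kr49 : List Fk.C :=
  [.le (.add (.mul 2 .N) (.k 5)) (.add (.add .t .y) .L), .le (.add .x (.k 1)) .y, .le (.add .y (.k
  1)) .N, .le (.add .y .L) (.add (.add .N .x) (.k 2)), .ne (.add .y .L) (.add (.add .t .x) (.k 2)),
  .ne (.add .y .L) (.add (.add .t .x) (.k 3)), .ne (.add .y .L) (.add (.add .N .x) (.k 4)), .ne
  (.add .y .L) (.add (.add .N .x) (.k 5)), .ne (.add (.add (.mul 2 .t) .y) .L) (.add (.add (.mul 2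
  .N) .x) (.k 5)), .ne (.add (.add (.mul 2 .t) .y) .L) (.add (.add (.mul 2 .N) .x) (.k 6))]

theorem qr49 {N t x y L : ℤ} (hD : D N t) : Fk.All ⟨N, t, x, y, L⟩ kr49 → P (A N t) N x y L :=
  Fk.route (fam hD x y L) kr49 .y (.dn .x (.add (.sub (.sub (.sub (.add (.mul 2 .N) .x) .t) .y) .L) (.k 5)))
    [(0, .pt .N), (1, .dn (.add (.sub .N .t) (.k 2)) (.k 0)), (3, .dn (.sub .N (.k 1)) .y)]
    [.f 571239825536, .f 8519808, .f 549764399236, .f 128, .f 128, .f 9306240, .f 128, .f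
    571239825536, .f 36029359668199556, .f 8716416, .f 8716416, .s 7 (.f 8454272) (.f 12648576), .s
    6 (.f 8454272) (.f 12648576), .s 11 (.f 8454272) (.f 12648576), .s 10 (.f 8454272) (.f
    12648576), .f 128, .f 128, .f 549764399236, .f 128, .f 9175168, .f 2453454117050060505219, .f
    9175168, .f 2453454117050060505219, .f 128, .f 128, .f 9175232, .f 9175232, .f
    170463336845223788686737667, .f 170463336845223788686737667, .f 128, .f 128, .f
    2416560628906936565890, .f 8716417, .f 2361222648494211530882, .f 8650880, .f 128, .f 128, .f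
    128, .f 128, .f 128, .f 37436721666916482, .f 129, .f 8585344, .f 128, .f 128, .f 128, .f 128]
    (by decide +kernel)

theorem rT49 {N t x y L : ℤ} (hD : D N t)
    (c0 : 2 * N + 5 ≤ t + y + L)
    (c1 : x + 1 ≤ y)
    (c2 : y + 1 ≤ N)
    (c3 : y + L ≤ N + x + 2)
    (c4 : y + L ≠ t + x + 2)
    (c5 : y + L ≠ t + x + 3)
    (c6 : y + L ≠ N + x + 4)
    (c7 : y + L ≠ N + x + 5)
    (c8 : 2 * t + y + L ≠ 2 * N + x + 5)
    (c9 : 2 * t + y + L ≠ 2 * N + x + 6) :
    P (A N t) N x y L := by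
  exact qr49 hD ⟨c0, c1, c2, c3, c4, c5, c6, c7, c8, c9, trivial⟩

/-- hypotheses -/
noncomputable def kr51 : List Fk.C :=
  [.le (.add .N (.k 4)) (.add .y .L), .le (.k 2) .x, .le (.add .x .L) (.add .N (.k 3)), .le (.add
  .y (.k 1)) .N, .ne (.add (.add .x .y) .L) (.add (.add .N .t) (.k 3)), .ne (.add (.add .x .y) .L)
  (.add (.add .N .t) (.k 4)), .ne (.add (.add (.add .t .x) .y) .L) (.add (.mul 2 .N) (.k 4)), .ne
  (.add (.add (.add .t .x) .y) .L) (.add (.mul 2 .N) (.k 5)), .ne (.add (.add (.add (.mul 2 .t) .x)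
  .y) .L) (.add (.mul 3 .N) (.k 6)), .ne (.add (.add (.add (.mul 2 .t) .x) .y) .L) (.add (.mul 3
  .N) (.k 7))]

theorem qr51 {N t x y L : ℤ} (hD : D N t) : Fk.All ⟨N, t, x, y, L⟩ kr51 → P (A N t) N x y L :=
  Fk.route (fam hD x y L) kr51 .y (.up .x (.sub (.sub (.add (.add .x .y) .L) .N) (.k 4)))
    [(0, .pt .N), (1, .dn (.k 1) (.k 0)), (3, .dn (.sub .N (.k 1)) .y)]
    [.f 8585344, .f 8519808, .f 549764530308, .f 128, .f 128, .f 9306240, .f 128, .f 549764333699,
    .f 549764530308, .s 8 (.f 12648576) (.f 8454272), .s 9 (.f 12648576) (.f 8454272), .s 10 (.f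
    12648576) (.f 8454272), .s 11 (.f 12648576) (.f 8454272), .s 6 (.f 12648576) (.f 8454272), .s 7
    (.f 12648576) (.f 8454272), .f 128, .f 128, .f 566944399488, .f 128, .f 128, .f 9306240, .f
    128, .f 9306240, .f 9175232, .f 9175232, .f 17563840, .f 17563840, .f
    696348447990122080818233732, .f 696348447990122080818233732, .f 128, .f 128, .f 9306241, .f
    8585345, .f 37155246690140291, .f 8716416, .f 128, .f 128, .f 128, .f 128, .f 128, .f
    37155246690140291, .f 129, .f 8650880, .f 128, .f 128, .f 128, .f 128]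
    (by decide +kernel)

theorem rT51 {N t x y L : ℤ} (hD : D N t)
    (c0 : N + 4 ≤ y + L)
    (c1 : (2 : ℤ) ≤ x)
    (c2 : x + L ≤ N + 3)
    (c3 : y + 1 ≤ N)
    (c4 : x + y + L ≠ N + t + 3)
    (c5 : x + y + L ≠ N + t + 4)
    (c6 : t + x + y + L ≠ 2 * N + 4)
    (c7 : t + x + y + L ≠ 2 * N + 5)
    (c8 : 2 * t + x + y + L ≠ 3 * N + 6)
    (c9 : 2 * t + x + y + L ≠ 3 * N + 7) :
    P (A N t) N x y L := by
  exact qr51 hD ⟨c0, c1, c2, c3, c4, c5, c6, c7, c8, c9, trivial⟩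

/-- hypotheses -/
noncomputable def kr53 : List Fk.C :=
  [.le (.add .x (.k 1)) .y, .le (.add .y (.k 3)) .L, .le (.k 0) .x, .le .L (.add .N (.k 1)), .ne
  (.add .x (.k 2)) .t, .ne (.add .x (.k 1)) .t, .ne .L (.add (.add .t .y) (.k 1)), .ne .L (.add
  (.add .t .y) (.k 2)), .ne (.add (.mul 2 .t) .y) (.add .N .L), .ne (.add (.mul 2 .t) .y) (.add
  (.add .N .L) (.k 1)), .ne (.add (.add .t .x) (.k 1)) .N, .ne (.add .t .x) .N, .ne (.add .t .L)
  (.add (.add .N .y) (.k 2)), .ne (.add .t .L) (.add (.add .N .y) (.k 3)), .ne (.add (.mul 2 .t)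
  .x) (.add (.mul 2 .N) (.k 1)), .ne (.add (.mul 2 .t) .x) (.add (.mul 2 .N) (.k 2))]

theorem qr53 {N t x y L : ℤ} (hD : D N t) : Fk.All ⟨N, t, x, y, L⟩ kr53 → P (A N t) N x y L :=
  Fk.route (fam hD x y L) kr53 .y (.dn .x (.k 0))
    [(3, .dn (.sub .N (.k 1)) (.add (.sub (.add .N .y) .L) (.k 2))), (0, .pt .N), (1, .up (.add .x
    (.k 1)) .y)]
    [.f 128, .f 8650880, .f 36029359668199557, .f 128, .f 128, .f 36029355373363333, .f 8585344, .f
    128, .f 128, .f 128, .f 128, .f 128, .f 571239170176, .f 9699456, .f 128, .f 36029355373363333,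
    .f 8585344, .s 9 (.f 8454272) (.f 12648576), .s 8 (.f 8454272) (.f 12648576), .s 10 (.f
    12648576) (.f 8454272), .s 11 (.f 12648576) (.f 8454272), .s 15 (.f 8454272) (.f 12648576), .s
    14 (.f 8454272) (.f 12648576), .f 128, .f 128, .f 128, .f 37436734551752832, .f 8650880, .f
    8519808, .f 549764399237, .f 8650880, .f 36029359668199557, .s 12 (.f 12648576) (.f 8454272),
    .s 13 (.f 12648576) (.f 8454272), .s 16 (.f 12648576) (.f 8454272), .s 17 (.f 12648576) (.f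
    8454272), .s 6 (.f 12648576) (.f 8454272), .s 7 (.f 12648576) (.f 8454272), .f 128, .f 128, .f
    571239235713, .f 8716417, .f 128, .f 128, .f 128, .f 128, .f 128]
    (by decide +kernel)

theorem rT53 {N t x y L : ℤ} (hD : D N t)
    (c0 : x + 1 ≤ y)
    (c1 : y + 3 ≤ L)
    (c2 : (0 : ℤ) ≤ x)
    (c3 : L ≤ N + 1)
    (c4 : x + 2 ≠ t)
    (c5 : x + 1 ≠ t)
    (c6 : L ≠ t + y + 1)
    (c7 : L ≠ t + y + 2)
    (c8 : 2 * t + y ≠ N + L)
    (c9 : 2 * t + y ≠ N + L + 1)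
    (c10 : t + x + 1 ≠ N)
    (c11 : t + x ≠ N)
    (c12 : t + L ≠ N + y + 2)
    (c13 : t + L ≠ N + y + 3)
    (c14 : 2 * t + x ≠ 2 * N + 1)
    (c15 : 2 * t + x ≠ 2 * N + 2) :
    P (A N t) N x y L := by
  exact qr53 hD ⟨c0, c1, c2, c3, c4, c5, c6, c7, c8, c9, c10, c11, c12, c13, c14, c15, trivial⟩

/-- hypotheses -/
noncomputable def kr55 : List Fk.C :=
  [.le (.add .N (.k 2)) (.add .t .x), .le .t (.add .y (.k 1)), .le (.add (.add .x .y) (.k 5)) (.add
  .t .L), .le (.add .x (.k 2)) .t, .le (.add .t .L) (.add (.add .N .x) (.k 3)), .ne .L (.add (.add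
  .x .y) (.k 3)), .ne .L (.add (.add .x .y) (.k 4)), .ne (.add (.mul 2 .t) .L) (.add (.add (.add .N
  .x) .y) (.k 4)), .ne (.add (.mul 2 .t) .L) (.add (.add (.add .N .x) .y) (.k 5)), .ne (.add (.add
  (.add .t .x) .y) (.k 2)) (.add .N .L), .ne (.add (.add (.add .t .x) .y) (.k 1)) (.add .N .L)]

theorem qr55 {N t x y L : ℤ} (hD : D N t) : Fk.All ⟨N, t, x, y, L⟩ kr55 → P (A N t) N x y L :=
  Fk.route (fam hD x y L) kr55 .y (.dn .x (.add (.sub .N .t) (.k 2)))
    [(0, .pt .N), (1, .up (.add (.sub (.sub (.add (.add .N .x) .y) .t) .L) (.k 4)) (.sub .N (.k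
    1))), (2, .up (.k 0) (.add (.sub .N .t) (.k 1))), (6, .up (.sub .t (.k 1)) .y)]
    [.f 9240704, .f 8519808, .f 2361220959648646103173, .f 128, .f 128, .f 9371776, .f 128, .f
    9240704, .f 154744976811533671017349253, .f 128, .f 128, .f 9240768, .f 9240768, .f
    571243233410, .f 571243233410, .f 128, .f 128, .f 2453454117062945276038, .f
    154747282654824355393175814, .f 8650880, .f 128, .f 154747282654824355393175814, .f 8650880, .f
    2471899735245338116226, .f 2361220678169374359686, .f 171669864534910069308195072, .f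
    2416559503062864822406, .f 549764595843, .s 9 (.f 8454272) (.f 12648576), .f 128, .f 128, .f
    129, .f 37436734551621766, .f 128, .f 9240704, .f 160789495229142374633570438, .f 128, .f 128,
    .f 128, .f 128, .f 2471900016720314826882, .f 37437275717632143, .f 129, .f
    160789569015837181610164358, .f 8585344, .f 549764595844, .f 128, .f 128, .f 128, .f 128, .f
    571239039106, .f 8781953, .f 575534268545, .f 8716416, .f 128, .f 128, .f 128, .f 128]
    (by decide +kernel)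

theorem rT55 {N t x y L : ℤ} (hD : D N t)
    (c0 : N + 2 ≤ t + x)
    (c1 : t ≤ y + 1)
    (c2 : x + y + 5 ≤ t + L)
    (c3 : x + 2 ≤ t)
    (c4 : t + L ≤ N + x + 3)
    (c5 : L ≠ x + y + 3)
    (c6 : L ≠ x + y + 4)
    (c7 : 2 * t + L ≠ N + x + y + 4)
    (c8 : 2 * t + L ≠ N + x + y + 5)
    (c9 : t + x + y + 2 ≠ N + L)
    (c10 : t + x + y + 1 ≠ N + L) :
    P (A N t) N x y L := by
  exact qr55 hD ⟨c0, c1, c2, c3, c4, c5, c6, c7, c8, c9, c10, trivial⟩

/-- hypotheses -/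
noncomputable def kr57 : List Fk.C :=
  [.le (.add (.mul 2 .N) (.k 3)) (.add (.mul 2 .t) .y), .le (.add .N (.k 2)) (.add .t .x), .le
  (.add (.add .N .L) (.k 2)) (.add (.mul 2 .t) .x), .le (.add (.add (.mul 2 .t) .x) .y) (.add (.mul
  2 .N) .L), .le (.add (.mul 2 .t) .x) (.add (.mul 2 .N) (.k 2)), .ne (.add (.add .t .x) .y) (.add
  .N .L), .ne (.add (.add .t .x) .y) (.add (.add .N .L) (.k 1)), .ne (.add (.add (.mul 3 .t) .x)
  .y) (.add (.add (.mul 2 .N) .L) (.k 1)), .ne (.add (.add (.mul 3 .t) .x) .y) (.add (.add (.mul 2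
  .N) .L) (.k 2)), .ne (.add (.add (.mul 4 .t) .x) .y) (.add (.add (.mul 3 .N) .L) (.k 3)), .ne
  (.add (.add (.mul 4 .t) .x) .y) (.add (.add (.mul 3 .N) .L) (.k 4))]

theorem qr57 {N t x y L : ℤ} (hD : D N t) : Fk.All ⟨N, t, x, y, L⟩ kr57 → P (A N t) N x y L :=
  Fk.route (fam hD x y L) kr57 .y (.dn .x (.add (.sub .N .t) (.k 2)))
    [(0, .pt .N), (1, .up (.sub (.sub (.sub (.add (.add (.mul 2 .t) .x) .y) .N) .L) (.k 1)) (.sub
    .N (.k 1))), (2, .up (.k 0) (.sub .N .t)), (4, .up (.add (.sub (.mul 2 .N) (.mul 2 .t)) (.k 3))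
    .y)]
    [.f 9240704, .f 8585344, .f 2471900298195291340932, .f 128, .f 128, .f 9371776, .f 128, .f
    9240704, .f 154744903025120334722564228, .f 128, .f 128, .f 9240768, .f 9240768, .f
    54043753882910852, .f 37155268169040002, .f 128, .f 128, .f 2471900298173816766597, .f
    2435006247085042696451, .f 8716416, .f 128, .f 2435006247085042696451, .f 8716416, .f
    2471900861123770122370, .f 2435007091501374505090, .f 566944071810, .f 566944071810, .s 7 (.f
    12648576) (.f 8454272), .s 8 (.f 12648576) (.f 8454272), .f 128, .f 128, .f 129, .f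
    36029355373363334, .f 128, .f 9240704, .f 159580661642122214099779718, .f 128, .f 128, .f 128,
    .f 128, .f 2471900861128065089666, .f 2435007655005378445455, .f 129, .f 1125289820419, .f
    8519808, .f 549764530308, .f 128, .f 128, .f 128, .f 128, .f 9240704, .f 8650881, .f
    566944137349, .f 8781952, .f 128, .f 128, .f 128, .f 128]
    (by decide +kernel)

theorem rT57 {N t x y L : ℤ} (hD : D N t)
    (c0 : 2 * N + 3 ≤ 2 * t + y)
    (c1 : N + 2 ≤ t + x)
    (c2 : N + L + 2 ≤ 2 * t + x)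
    (c3 : 2 * t + x + y ≤ 2 * N + L)
    (c4 : 2 * t + x ≤ 2 * N + 2)
    (c5 : t + x + y ≠ N + L)
    (c6 : t + x + y ≠ N + L + 1)
    (c7 : 3 * t + x + y ≠ 2 * N + L + 1)
    (c8 : 3 * t + x + y ≠ 2 * N + L + 2)
    (c9 : 4 * t + x + y ≠ 3 * N + L + 3)
    (c10 : 4 * t + x + y ≠ 3 * N + L + 4) :
    P (A N t) N x y L := by
  exact qr57 hD ⟨c0, c1, c2, c3, c4, c5, c6, c7, c8, c9, c10, trivial⟩

/-- hypotheses -/
noncomputable def kr59 : List Fk.C :=
  [.le (.add .x (.k 2)) .L, .le (.add .x (.k 1)) .y, .le (.k 1) .x, .le (.add .y .L) (.add (.add .N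
  .x) (.k 1)), .ne (.add .y .L) (.add (.add .t .x) (.k 1)), .ne (.add .y .L) (.add (.add .t .x) (.k
  2)), .ne (.add (.add .t .y) .L) (.add (.add .N .x) (.k 2)), .ne (.add (.add .t .y) .L) (.add
  (.add .N .x) (.k 3)), .ne (.add (.add (.mul 2 .t) .y) .L) (.add (.add (.mul 2 .N) .x) (.k 4)),
  .ne (.add (.add (.mul 2 .t) .y) .L) (.add (.add (.mul 2 .N) .x) (.k 5))]

theorem qr59 {N t x y L : ℤ} (hD : D N t) : Fk.All ⟨N, t, x, y, L⟩ kr59 → P (A N t) N x y L :=
  Fk.route (fam hD x y L) kr59 .y (.dn .x (.k 1))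
    [(0, .pt .N), (1, .dn (.sub (.sub (.add .y .L) .x) (.k 2)) .y)]
    [.f 128, .f 8650880, .f 36029355373297797, .f 128, .f 128, .f 9306240, .f 128, .f 128, .f
    9306240, .f 9175232, .f 9175232, .f 17563840, .f 17563840, .f 824659673229, .f
    696348392650171338961256837, .f 128, .f 128, .f 37436730256851072, .f 549764399236, .f 8519808,
    .f 8716416, .f 36029355373297796, .f 8716416, .s 8 (.f 12648576) (.f 8454272), .s 9 (.f
    12648576) (.f 8454272), .s 10 (.f 12648576) (.f 8454272), .s 11 (.f 12648576) (.f 8454272), .s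
    6 (.f 12648576) (.f 8454272), .s 7 (.f 12648576) (.f 8454272), .f 128, .f 128, .f 8716417, .f
    8585344, .f 128, .f 128, .f 128, .f 128]
    (by decide +kernel)

theorem rT59 {N t x y L : ℤ} (hD : D N t)
    (c0 : x + 2 ≤ L)
    (c1 : x + 1 ≤ y)
    (c2 : (1 : ℤ) ≤ x)
    (c3 : y + L ≤ N + x + 1)
    (c4 : y + L ≠ t + x + 1)
    (c5 : y + L ≠ t + x + 2)
    (c6 : t + y + L ≠ N + x + 2)
    (c7 : t + y + L ≠ N + x + 3)
    (c8 : 2 * t + y + L ≠ 2 * N + x + 4)
    (c9 : 2 * t + y + L ≠ 2 * N + x + 5) :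
    P (A N t) N x y L := by
  exact qr59 hD ⟨c0, c1, c2, c3, c4, c5, c6, c7, c8, c9, trivial⟩

/-- hypotheses -/
noncomputable def kr61 : List Fk.C :=
  [.le (.add .N (.k 1)) (.add .t .x), .le (.add (.add (.add .N .y) .L) (.k 1)) (.add (.mul 3 .t)
  .x), .le .t .y, .le (.add (.mul 3 .t) .x) (.add (.mul 2 .N) .L), .le (.add (.mul 2 .t) .x) (.add
  (.mul 2 .N) (.k 2)), .ne (.add .y .L) (.add (.add .t .x) (.k 2)), .ne (.add .y .L) (.add (.add .t
  .x) (.k 3)), .ne (.add (.add (.mul 2 .t) .x) (.k 1)) (.add (.add .N .y) .L), .ne (.add (.mul 2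
  .t) .x) (.add (.add .N .y) .L), .ne (.add (.mul 4 .t) .x) (.add (.add (.mul 2 .N) .y) .L), .ne
  (.add (.mul 4 .t) .x) (.add (.add (.add (.mul 2 .N) .y) .L) (.k 1))]

theorem qr61 {N t x y L : ℤ} (hD : D N t) : Fk.All ⟨N, t, x, y, L⟩ kr61 → P (A N t) N x y L :=
  Fk.route (fam hD x y L) kr61 .y (.dn .x (.add (.sub .N .t) (.k 1)))
    [(6, .dn (.sub .t (.k 1)) (.add (.sub (.mul 2 .N) (.mul 2 .t)) (.k 3))), (5, .dn (.sub .N .t)
    (.k 0)), (0, .pt .N), (1, .dn (.sub (.sub (.add (.add (.mul 2 .N) .y) .L) (.mul 3 .t)) .x) .y)]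
    [.f 9240704, .f 8519808, .f 37718196652671118, .f 128, .f 128, .f 72903139971563648, .f
    549765054606, .f 9240704, .f 128, .f 128, .f 128, .f 128, .f 8781952, .f 128, .f 9240704, .f
    549781831822, .f 128, .f 128, .f 128, .f 128, .f 9240705, .f 129, .f 9371776, .f 128, .f 128,
    .f 9371776, .f 9240768, .f 9240768, .f 72903139967107332, .f 72903139967107332, .f
    3541814833265399497093, .f 3541814833261104595333, .f 128, .f 128, .f 2199032562063, .f
    9240704, .f 161998679339202819884515589, .f 36029363980664974, .f 8716416, .f 8585344, .f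
    2361220396703005081742, .f 8585344, .f 2361223211993937478021, .f 2361223212552274772356, .f
    2361222930016432881796, .f 2361223211448460443781, .f 566944399488, .s 11 (.f 8454272) (.f
    12648576), .f 128, .f 128, .f 8585345, .f 4796225517368415158403, .f 8650880, .f
    161998679339202819876126853, .f 128, .f 128, .f 128, .f 128]
    (by decide +kernel)

theorem rT61 {N t x y L : ℤ} (hD : D N t)
    (c0 : N + 1 ≤ t + x)
    (c1 : N + y + L + 1 ≤ 3 * t + x)
    (c2 : t ≤ y)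
    (c3 : 3 * t + x ≤ 2 * N + L)
    (c4 : 2 * t + x ≤ 2 * N + 2)
    (c5 : y + L ≠ t + x + 2)
    (c6 : y + L ≠ t + x + 3)
    (c7 : 2 * t + x + 1 ≠ N + y + L)
    (c8 : 2 * t + x ≠ N + y + L)
    (c9 : 4 * t + x ≠ 2 * N + y + L)
    (c10 : 4 * t + x ≠ 2 * N + y + L + 1) :
    P (A N t) N x y L := by
  exact qr61 hD ⟨c0, c1, c2, c3, c4, c5, c6, c7, c8, c9, c10, trivial⟩

/-- hypotheses -/
noncomputable def kr63 : List Fk.C :=
  [.le (.add .N (.k 2)) (.add .t .x), .le (.add .N .L) (.add (.mul 2 .t) .x), .le .t .y, .le (.add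
  (.add (.add (.mul 2 .t) .x) .y) (.k 2)) (.add (.mul 2 .N) .L), .le (.add (.mul 2 .t) .x) (.add
  (.mul 2 .N) (.k 1)), .ne (.add (.add (.add .t .x) .y) (.k 2)) (.add .N .L), .ne (.add (.add (.add
  .t .x) .y) (.k 1)) (.add .N .L), .ne (.add (.add (.add (.mul 3 .t) .x) .y) (.k 1)) (.add (.mul 2
  .N) .L), .ne (.add (.add (.mul 3 .t) .x) .y) (.add (.mul 2 .N) .L), .ne (.add (.add (.mul 4 .t)
  .x) .y) (.add (.add (.mul 3 .N) .L) (.k 1)), .ne (.add (.add (.mul 4 .t) .x) .y) (.add (.add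
  (.mul 3 .N) .L) (.k 2))]

theorem qr63 {N t x y L : ℤ} (hD : D N t) : Fk.All ⟨N, t, x, y, L⟩ kr63 → P (A N t) N x y L :=
  Fk.route (fam hD x y L) kr63 .y (.dn .x (.add (.sub .N .t) (.k 2)))
    [(0, .pt .N), (1, .up (.add (.sub (.sub (.add (.add (.mul 2 .t) .x) .y) .N) .L) (.k 1)) (.sub
    .N (.k 1))), (2, .up (.k 0) (.add (.sub .N .t) (.k 1))), (6, .dn (.sub .t (.k 1)) (.add (.sub
    (.mul 2 .N) (.mul 2 .t)) (.k 2))), (8, .up .t .y)]
    [.f 9240704, .f 8519808, .f 162000856054722613856960654, .f 128, .f 128, .f 9371776, .f 128, .f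
    9240704, .f 2361292455387964178574, .f 128, .f 128, .f 9240768, .f 9240768, .f
    3541848327731057787139, .f 3541848327731057787139, .f 128, .f 128, .f
    161998679339202819884515589, .f 9500113169623323509125, .f 8716416, .f 128, .f
    9500113169623323509125, .f 8716416, .f 2361223212547979936131, .f 2361223212547979936131, .f
    2361256426041172623502, .f 2361220678723425927427, .f 566944268416, .f 562649104516, .f 128, .f
    128, .f 129, .f 161998679339203382516973696, .f 128, .f 9240704, .f 7138925986989088243854, .f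
    128, .f 128, .f 128, .f 128, .f 4777779054769690902671, .f 2203327529359, .f 129, .f
    72903139962913028, .f 2416559503019914625166, .f 9240704, .f 128, .f 128, .f 128, .f 128, .f
    9240704, .f 566944268417, .f 9240705, .f 8781952, .f 7138925986989088243854, .f 8650880, .f
    549764530307, .f 128, .f 128, .f 128, .f 128, .f 128, .f 2416595531804048687246, .f 8585345, .f
    562649432193, .f 161998476389270687029526660, .f 128, .f 128, .f 128, .f 128]
    (by decide +kernel)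

theorem rT63 {N t x y L : ℤ} (hD : D N t)
    (c0 : N + 2 ≤ t + x)
    (c1 : N + L ≤ 2 * t + x)
    (c2 : t ≤ y)
    (c3 : 2 * t + x + y + 2 ≤ 2 * N + L)
    (c4 : 2 * t + x ≤ 2 * N + 1)
    (c5 : t + x + y + 2 ≠ N + L)
    (c6 : t + x + y + 1 ≠ N + L)
    (c7 : 3 * t + x + y + 1 ≠ 2 * N + L)
    (c8 : 3 * t + x + y ≠ 2 * N + L)
    (c9 : 4 * t + x + y ≠ 3 * N + L + 1)
    (c10 : 4 * t + x + y ≠ 3 * N + L + 2) :
    P (A N t) N x y L := by
  exact qr63 hD ⟨c0, c1, c2, c3, c4, c5, c6, c7, c8, c9, c10, trivial⟩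

/-- hypotheses -/
noncomputable def kr65 : List Fk.C :=
  [.le (.add .x (.k 1)) .y, .le (.k 0) .x, .le (.add (.mul 2 .t) .x) (.add .N .L), .le (.add .y .L)
  (.add (.add .N .x) (.k 1)), .ne (.add .y .L) (.add .t .x), .ne (.add .y .L) (.add (.add .t .x)
  (.k 1)), .ne (.add (.mul 3 .t) .x) (.add (.add .N .y) .L), .ne (.add (.mul 3 .t) .x) (.add (.add
  (.add .N .y) .L) (.k 1)), .ne (.add .y .L) (.add (.add .N .x) (.k 2)), .ne (.add .y .L) (.add
  (.add .N .x) (.k 3))]

theorem qr65 {N t x y L : ℤ} (hD : D N t) : Fk.All ⟨N, t, x, y, L⟩ kr65 → P (A N t) N x y L :=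
  Fk.route (fam hD x y L) kr65 .y (.dn .x (.k 0))
    [(3, .dn (.sub .N (.k 1)) .t), (9, .up (.add (.sub (.mul 2 .N) (.mul 2 .t)) (.k 2)) (.sub .t
    (.k 2))), (0, .pt .N), (1, .dn (.sub (.sub (.add (.add .N .y) .L) (.mul 2 .t)) .x) .y)]
    [.f 128, .f 8585344, .f 160789569015555706634174732, .f 128, .f 128, .f 549765054860, .f
    9175168, .f 128, .f 128, .f 128, .f 128, .f 128, .f 625024167405385654530277518, .f
    2453454117058650505344, .f 549765054604, .f 9175168, .f 128, .f 128, .f 128, .f 128, .f 129, .f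
    37436721666850948, .f 9306240, .f 128, .f 549765054860, .f 9175168, .f 549773377677, .f
    549773377677, .f 549764989069, .f 549764989069, .f 192, .f 192, .f 128, .f 128, .f 9175168, .f
    128, .f 315534435145499022593949838, .f 549764333699, .f 8650880, .f 37436721667571980, .f
    37155255280140416, .f 37436721667571980, .s 6 (.f 12648576) (.f 8454272), .s 7 (.f 12648576)
    (.f 8454272), .f 8716480, .f 8716480, .f 386861224487429473413955716, .f
    386861224487429473413955716, .f 128, .f 128, .f 315534379769237467575419008, .f 8716417, .f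
    625024111957065405962190976, .f 8519808, .f 128, .f 128, .f 128, .f 128]
    (by decide +kernel)

theorem rT65 {N t x y L : ℤ} (hD : D N t)
    (c0 : x + 1 ≤ y)
    (c1 : (0 : ℤ) ≤ x)
    (c2 : 2 * t + x ≤ N + L)
    (c3 : y + L ≤ N + x + 1)
    (c4 : y + L ≠ t + x)
    (c5 : y + L ≠ t + x + 1)
    (c6 : 3 * t + x ≠ N + y + L)
    (c7 : 3 * t + x ≠ N + y + L + 1)
    (c8 : y + L ≠ N + x + 2)
    (c9 : y + L ≠ N + x + 3) :
    P (A N t) N x y L := by
  exact qr65 hD ⟨c0, c1, c2, c3, c4, c5, c6, c7, c8, c9, trivial⟩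

/-- hypotheses -/
noncomputable def kr67 : List Fk.C :=
  [.le .N (.add .t .x), .le (.add (.add .N .L) (.k 1)) (.add (.mul 2 .t) .y), .le (.add (.mul 2 .t)
  .x) (.add .N .L), .le (.add (.mul 2 .t) .y) (.add (.mul 2 .N) (.k 2)), .ne (.add (.add (.add .t
  .x) .y) (.k 1)) (.add .N .L), .ne (.add (.add .t .x) .y) (.add .N .L), .ne (.add (.add (.mul 3
  .t) .x) .y) (.add (.mul 2 .N) .L), .ne (.add (.add (.mul 3 .t) .x) .y) (.add (.add (.mul 2 .N)
  .L) (.k 1)), .ne (.add (.add (.mul 4 .t) .x) .y) (.add (.add (.mul 3 .N) .L) (.k 2)), .ne (.add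
  (.add (.mul 4 .t) .x) .y) (.add (.add (.mul 3 .N) .L) (.k 3))]

theorem qr67 {N t x y L : ℤ} (hD : D N t) : Fk.All ⟨N, t, x, y, L⟩ kr67 → P (A N t) N x y L :=
  Fk.route (fam hD x y L) kr67 .y (.dn .x (.sub .N .t))
    [(4, .up (.add (.sub (.mul 2 .N) (.mul 2 .t)) (.k 3)) (.sub .N (.k 1))), (2, .up (.k 0) (.sub
    (.sub .N .t) (.k 1))), (0, .pt .N), (1, .up (.sub (.sub (.add (.add (.mul 2 .t) .x) .y) .N) .L)
    .y)]
    [.f 9175168, .f 8519808, .f 160789495228860903960871053, .f 128, .f 128, .f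
    4814673387844551180416, .f 549773377677, .f 128, .f 128, .f 128, .f 128, .f 128, .f
    37436738846785664, .f 128, .f 9175168, .f 549781766285, .f 128, .f 128, .f 128, .f 128, .f
    9175169, .f 129, .f 9306240, .f 128, .f 9175168, .f 549781766285, .f 192, .f 192, .f 9175232,
    .f 9175232, .f 824642961676, .f 824651284621, .f 128, .f 128, .f 605623943566, .f 128, .f
    160789495228861488068100228, .f 2453489864389282496770, .f 8650880, .f 37436721675894925, .f
    2453489864389282496770, .f 2453452991167342575757, .f 562649104514, .s 9 (.f 12648576) (.f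
    8454272), .s 10 (.f 12648576) (.f 8454272), .f 571239301312, .f 3541814550690894971013, .f
    2453456650342034833548, .f 128, .f 128, .f 39688525775700236, .f 562649104514, .f 8716417, .f
    8585344, .f 128, .f 128, .f 128, .f 128]
    (by decide +kernel)

theorem rT67 {N t x y L : ℤ} (hD : D N t)
    (c0 : N ≤ t + x)
    (c1 : N + L + 1 ≤ 2 * t + y)
    (c2 : 2 * t + x ≤ N + L)
    (c3 : 2 * t + y ≤ 2 * N + 2)
    (c4 : t + x + y + 1 ≠ N + L)
    (c5 : t + x + y ≠ N + L)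
    (c6 : 3 * t + x + y ≠ 2 * N + L)
    (c7 : 3 * t + x + y ≠ 2 * N + L + 1)
    (c8 : 4 * t + x + y ≠ 3 * N + L + 2)
    (c9 : 4 * t + x + y ≠ 3 * N + L + 3) :
    P (A N t) N x y L := by
  exact qr67 hD ⟨c0, c1, c2, c3, c4, c5, c6, c7, c8, c9, trivial⟩

/-- hypotheses -/
noncomputable def kr69 : List Fk.C :=
  [.le (.add (.mul 2 .N) (.k 3)) (.add (.add .t .y) .L), .le (.add .N (.k 1)) (.add .t .x), .le
  (.add (.mul 2 .t) .y) (.add (.mul 2 .N) (.k 3)), .le (.add (.add .t .x) .L) (.add (.mul 2 .N) (.k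
  2)), .ne (.add (.add .x .y) .L) (.add (.mul 2 .N) (.k 2)), .ne (.add (.add .x .y) .L) (.add (.mul
  2 .N) (.k 3)), .ne (.add (.add (.add (.mul 2 .t) .x) .y) .L) (.add (.mul 3 .N) (.k 3)), .ne (.add
  (.add (.add (.mul 2 .t) .x) .y) .L) (.add (.mul 3 .N) (.k 4)), .ne (.add (.add (.add (.mul 3 .t)
  .x) .y) .L) (.add (.mul 4 .N) (.k 5)), .ne (.add (.add (.add (.mul 3 .t) .x) .y) .L) (.add (.mul
  4 .N) (.k 6))]

theorem qr69 {N t x y L : ℤ} (hD : D N t) : Fk.All ⟨N, t, x, y, L⟩ kr69 → P (A N t) N x y L :=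
  Fk.route (fam hD x y L) kr69 .y (.up .x (.sub (.sub (.add (.add (.add .t .x) .y) .L) (.mul 2 .N)) (.k 3)))
    [(0, .pt .N), (1, .up (.add (.sub (.mul 2 .N) (.mul 2 .t)) (.k 4)) (.sub .N (.k 1))), (2, .up
    (.k 0) (.sub .N .t)), (4, .dn (.add (.sub (.mul 2 .N) (.mul 2 .t)) (.k 3)) .y)]
    [.f 2453452991167341985922, .f 8519808, .f 2453492397664072892557, .f 128, .f 128, .f 9306240,
    .f 128, .f 2453452991167341986050, .f 2453492397664072892557, .f 562649104514, .s 9 (.f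
    12648576) (.f 8454272), .s 10 (.f 12648576) (.f 8454272), .f 571239301312, .f
    3541814550690894971013, .f 2453456650342034833548, .f 128, .f 128, .f 2361222929973492056197,
    .f 4814636233151920406786, .f 549773377677, .f 128, .f 4814636233151920406786, .f 549773377677,
    .f 9175168, .f 9175168, .f 128, .f 128, .f 824642961548, .f 824642961548, .f 128, .f 128, .f
    129, .f 571239039108, .f 128, .f 9175168, .f 549781766285, .f 128, .f 128, .f 128, .f 128, .f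
    9175169, .f 2203327463822, .f 8585345, .f 4814636232602164592898, .f 8650880, .f 549773377677,
    .f 128, .f 128, .f 128, .f 128, .f 37436721666916482, .f 129, .f 605607952513, .f 8716416, .f
    128, .f 128, .f 128, .f 128]
    (by decide +kernel)

theorem rT69 {N t x y L : ℤ} (hD : D N t)
    (c0 : 2 * N + 3 ≤ t + y + L)
    (c1 : N + 1 ≤ t + x)
    (c2 : 2 * t + y ≤ 2 * N + 3)
    (c3 : t + x + L ≤ 2 * N + 2)
    (c4 : x + y + L ≠ 2 * N + 2)
    (c5 : x + y + L ≠ 2 * N + 3)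
    (c6 : 2 * t + x + y + L ≠ 3 * N + 3)
    (c7 : 2 * t + x + y + L ≠ 3 * N + 4)
    (c8 : 3 * t + x + y + L ≠ 4 * N + 5)
    (c9 : 3 * t + x + y + L ≠ 4 * N + 6) :
    P (A N t) N x y L := by
  exact qr69 hD ⟨c0, c1, c2, c3, c4, c5, c6, c7, c8, c9, trivial⟩

/-- hypotheses -/
noncomputable def kr71 : List Fk.C :=
  [.le (.add (.mul 2 .N) (.k 2)) (.add (.mul 2 .t) .y), .le (.add .N .L) (.add (.mul 2 .t) .x), .le
  (.k 0) .x, .le (.add (.add (.add .t .x) .y) (.k 1)) (.add .N .L), .le (.add (.mul 2 .t) .x) (.add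
  (.mul 2 .N) (.k 1)), .ne (.add (.add (.add .t .x) .y) (.k 2)) (.add .N .L), .ne (.add (.add (.add
  .t .x) .y) (.k 1)) (.add .N .L), .ne (.add (.add (.add (.mul 3 .t) .x) .y) (.k 1)) (.add (.mul 2
  .N) .L), .ne (.add (.add (.mul 3 .t) .x) .y) (.add (.mul 2 .N) .L), .ne (.add (.add (.mul 4 .t)
  .x) .y) (.add (.add (.mul 3 .N) .L) (.k 1)), .ne (.add (.add (.mul 4 .t) .x) .y) (.add (.add
  (.mul 3 .N) .L) (.k 2))]

theorem qr71 {N t x y L : ℤ} (hD : D N t) : Fk.All ⟨N, t, x, y, L⟩ kr71 → P (A N t) N x y L :=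
  Fk.route (fam hD x y L) kr71 .y (.dn .x (.k 0))
    [(3, .dn (.sub .N (.k 1)) (.add .t (.k 1))), (0, .pt .N), (1, .up (.add (.sub (.sub (.add (.add
    (.mul 2 .t) .x) .y) .N) .L) (.k 1)) .t), (9, .up (.add (.sub (.mul 2 .N) (.mul 2 .t)) (.k 2))
    .y)]
    [.f 128, .f 8650880, .f 309489824531324114787500291, .f 128, .f 128, .f
    154744939917482573645021318, .f 9240704, .f 128, .f 128, .f 128, .f 128, .f 128, .f
    2416560910403387785346, .f 9371776, .f 128, .f 154744939917482573645021318, .f 9240704, .f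
    315532073961694650710491270, .f 313116601952450355432390790, .f 36873793188135042, .f
    36873793188135042, .f 128, .f 128, .f 128, .f 128, .f 128, .f 313116601990169084643377295, .f
    2416559503028504494210, .f 8716416, .f 9240704, .f 2416559503028504494210, .f 549764530317, .f
    2471936608995568255234, .f 2471936608995568255234, .f 562649104514, .s 12 (.f 12648576) (.f
    8454272), .s 7 (.f 12648576) (.f 8454272), .s 8 (.f 12648576) (.f 8454272), .f 128, .f 128, .f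
    9240705, .f 129, .f 37718205233561728, .f 575534268544, .f 8519808, .f 4722439948414100963587,
    .f 128, .f 128, .f 128, .f 128, .f 8585345, .f 4777779054735322775813, .f 562649432193, .f
    8781952, .f 128, .f 128, .f 128, .f 128]
    (by decide +kernel)

theorem rT71 {N t x y L : ℤ} (hD : D N t)
    (c0 : 2 * N + 2 ≤ 2 * t + y)
    (c1 : N + L ≤ 2 * t + x)
    (c2 : (0 : ℤ) ≤ x)
    (c3 : t + x + y + 1 ≤ N + L)
    (c4 : 2 * t + x ≤ 2 * N + 1)
    (c5 : t + x + y + 2 ≠ N + L)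
    (c6 : t + x + y + 1 ≠ N + L)
    (c7 : 3 * t + x + y + 1 ≠ 2 * N + L)
    (c8 : 3 * t + x + y ≠ 2 * N + L)
    (c9 : 4 * t + x + y ≠ 3 * N + L + 1)
    (c10 : 4 * t + x + y ≠ 3 * N + L + 2) :
    P (A N t) N x y L := by
  exact qr71 hD ⟨c0, c1, c2, c3, c4, c5, c6, c7, c8, c9, c10, trivial⟩

/-- hypotheses -/
noncomputable def kr73 : List Fk.C :=
  [.le (.add (.mul 2 .N) (.k 2)) (.add (.mul 2 .t) .y), .le (.add .N .L) (.add (.add (.add .t .x)
  .y) (.k 3)), .le (.k 0) .x, .le (.add .y (.k 3)) .t, .le (.add (.add (.add (.mul 2 .t) .x) .y)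
  (.k 5)) (.add (.mul 2 .N) .L), .le (.add (.mul 2 .t) .x) (.add (.mul 2 .N) (.k 1)), .ne (.add
  (.add (.add .t .x) .y) (.k 5)) (.add .N .L), .ne (.add (.add (.add .t .x) .y) (.k 4)) (.add .N
  .L), .ne (.add (.add (.add (.mul 3 .t) .x) .y) (.k 4)) (.add (.mul 2 .N) .L), .ne (.add (.add
  (.add (.mul 3 .t) .x) .y) (.k 3)) (.add (.mul 2 .N) .L), .ne (.add (.add (.add (.mul 4 .t) .x)
  .y) (.k 2)) (.add (.mul 3 .N) .L), .ne (.add (.add (.add (.mul 4 .t) .x) .y) (.k 1)) (.add (.mul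
  3 .N) .L)]

theorem qr73 {N t x y L : ℤ} (hD : D N t) : Fk.All ⟨N, t, x, y, L⟩ kr73 → P (A N t) N x y L :=
  Fk.route (fam hD x y L) kr73 .y (.dn .x (.k 0))
    [(3, .dn (.sub .N (.k 1)) (.add (.sub (.sub (.add (.add (.mul 2 .t) .x) .y) .N) .L) (.k 4))),
    (0, .pt .N), (1, .up (.sub .t (.k 2)) .t), (9, .up (.add (.sub (.mul 2 .N) (.mul 2 .t)) (.k 2))
    .y)]
    [.f 128, .f 8650880, .f 163207383761578292540670086, .f 128, .f 128, .f 7138926549397859008640,
    .f 8781952, .f 128, .f 128, .f 128, .f 128, .f 128, .f 2416559503024209723522, .f 9437312, .f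
    128, .f 7138926549397859008640, .f 8781952, .f 2453453554662748061824, .f
    2453453554662748061824, .f 36873793188135042, .f 36873793188135042, .f 8585344, .f 8585344, .f
    128, .f 128, .f 128, .f 4814710261603371188368, .f 2361219834294200238342, .f 128, .f 9306240,
    .f 2361219834294200238342, .f 9306240, .f 2398114447791770370176, .f 2398114447791770370176, .f
    558354464896, .f 36029359669051526, .f 192, .f 192, .f 128, .f 128, .f 9306241, .f 8585345, .f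
    37999680210075781, .f 1112404918534, .f 8519808, .f 36873771713626246, .f 128, .f 128, .f 128,
    .f 128, .f 8716417, .f 37436725961883782, .f 571239104643, .f 8847488, .f 128, .f 128, .f 128,
    .f 128]
    (by decide +kernel)

theorem rT73 {N t x y L : ℤ} (hD : D N t)
    (c0 : 2 * N + 2 ≤ 2 * t + y)
    (c1 : N + L ≤ t + x + y + 3)
    (c2 : (0 : ℤ) ≤ x)
    (c3 : y + 3 ≤ t)
    (c4 : 2 * t + x + y + 5 ≤ 2 * N + L)
    (c5 : 2 * t + x ≤ 2 * N + 1)
    (c6 : t + x + y + 5 ≠ N + L)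
    (c7 : t + x + y + 4 ≠ N + L)
    (c8 : 3 * t + x + y + 4 ≠ 2 * N + L)
    (c9 : 3 * t + x + y + 3 ≠ 2 * N + L)
    (c10 : 4 * t + x + y + 2 ≠ 3 * N + L)
    (c11 : 4 * t + x + y + 1 ≠ 3 * N + L) :
    P (A N t) N x y L := by
  exact qr73 hD ⟨c0, c1, c2, c3, c4, c5, c6, c7, c8, c9, c10, c11, trivial⟩

/-- hypotheses -/
noncomputable def kr75 : List Fk.C :=
  [.le (.add (.add .N .x) (.k 4)) (.add .t .L), .le (.add .N (.k 2)) (.add .t .x), .le (.add .y (.k
  2)) .t, .le (.add .t .L) (.add (.add .N .y) (.k 3)), .ne .L (.add (.add .x .y) (.k 3)), .ne .L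
  (.add (.add .x .y) (.k 4)), .ne (.add (.mul 2 .t) .L) (.add (.add (.add .N .x) .y) (.k 4)), .ne
  (.add (.mul 2 .t) .L) (.add (.add (.add .N .x) .y) (.k 5)), .ne (.add (.add (.add .t .x) .y) (.k
  2)) (.add .N .L), .ne (.add (.add (.add .t .x) .y) (.k 1)) (.add .N .L)]

theorem qr75 {N t x y L : ℤ} (hD : D N t) : Fk.All ⟨N, t, x, y, L⟩ kr75 → P (A N t) N x y L :=
  Fk.route (fam hD x y L) kr75 .y (.dn .x (.add (.sub .N .t) (.k 2)))
    [(11, .up (.k 0) (.add (.sub .N .t) (.k 1))), (6, .up (.sub .t (.k 1)) (.sub .N (.k 1))), (0,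
    .pt .N), (1, .up (.add (.sub (.sub (.add (.add .N .x) .y) .t) .L) (.k 4)) .y)]
    [.f 9175168, .f 8585344, .f 2361222648502801268868, .f 128, .f 128, .f 128, .f 9175168, .f
    159580569409809220435574924, .f 128, .f 128, .f 128, .f 128, .f 129, .f
    159580569409809220435574924, .f 9175168, .f 128, .f 128, .f 128, .f 128, .f 128, .f
    2435006247097919012994, .f 37155255280271488, .f 9306240, .f 128, .f 9306240, .f 128, .f
    159580569409809220435574924, .f 154745087492279588251369604, .f 2435006247097919012994, .f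
    2435006247097919012994, .f 9175168, .f 9175168, .f 128, .f 128, .f 128, .f
    159582930593050655258181774, .f 2435009624797639344258, .f 37436773206524032, .f 8519808, .f
    549764989060, .f 37436773206524032, .f 36029398322905220, .f 571239039107, .f 571239039107, .s
    10 (.f 12648576) (.f 8454272), .s 11 (.f 12648576) (.f 8454272), .f 566948266114, .f
    566948266114, .f 128, .f 128, .f 566944858241, .f 8650881, .f 571239039107, .f 8716416, .f 128,
    .f 128, .f 128, .f 128]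
    (by decide +kernel)

theorem rT75 {N t x y L : ℤ} (hD : D N t)
    (c0 : N + x + 4 ≤ t + L)
    (c1 : N + 2 ≤ t + x)
    (c2 : y + 2 ≤ t)
    (c3 : t + L ≤ N + y + 3)
    (c4 : L ≠ x + y + 3)
    (c5 : L ≠ x + y + 4)
    (c6 : 2 * t + L ≠ N + x + y + 4)
    (c7 : 2 * t + L ≠ N + x + y + 5)
    (c8 : t + x + y + 2 ≠ N + L)
    (c9 : t + x + y + 1 ≠ N + L) :
    P (A N t) N x y L := by
  exact qr75 hD ⟨c0, c1, c2, c3, c4, c5, c6, c7, c8, c9, trivial⟩

/-- hypotheses -/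
noncomputable def kr77 : List Fk.C :=
  [.le (.add (.add .N .x) (.k 3)) (.add .t .L), .le (.add .N (.k 1)) (.add .t .x), .le (.add .y (.k
  2)) .t, .le (.add .t .L) (.add (.add .N .y) (.k 2)), .ne .L (.add (.add .x .y) (.k 2)), .ne .L
  (.add (.add .x .y) (.k 3)), .ne (.add (.mul 2 .t) .L) (.add (.add (.add .N .x) .y) (.k 3)), .ne
  (.add (.mul 2 .t) .L) (.add (.add (.add .N .x) .y) (.k 4)), .ne (.add (.add (.add .t .x) .y) (.k
  1)) (.add .N .L), .ne (.add (.add .t .x) .y) (.add .N .L)]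

theorem qr77 {N t x y L : ℤ} (hD : D N t) : Fk.All ⟨N, t, x, y, L⟩ kr77 → P (A N t) N x y L :=
  Fk.route (fam hD x y L) kr77 .y (.dn .x (.add (.sub .N .t) (.k 1)))
    [(6, .up (.sub .t (.k 1)) (.sub .N (.k 1))), (2, .up (.k 0) (.sub (.sub .N .t) (.k 1))), (0,
    .pt .N), (1, .up (.add (.sub (.sub (.add (.add .N .x) .y) .t) .L) (.k 3)) .y)]
    [.f 9175168, .f 8585344, .f 2361222648502801268868, .f 128, .f 128, .f
    159580569409809220435574924, .f 9175168, .f 128, .f 128, .f 128, .f 128, .f 128, .f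
    37155255280271488, .f 128, .f 9175168, .f 159580569409809220435574924, .f 128, .f 128, .f 128,
    .f 128, .f 2435006528572895723650, .f 129, .f 9306240, .f 128, .f 9175168, .f
    159580569409809220435574924, .f 192, .f 192, .f 9175232, .f 9175232, .f 2453471005561548046468,
    .f 2453471005561548046468, .f 128, .f 128, .f 159582930593050655258181774, .f 128, .f
    2435009624797639344258, .f 37436773206524032, .f 8519808, .f 549764989060, .f
    37436773206524032, .f 36029398322905220, .f 571239039107, .f 549764530307, .s 10 (.f 12648576)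
    (.f 8454272), .s 11 (.f 12648576) (.f 8454272), .f 566948266114, .f 566948266114, .f 128, .f
    128, .f 566944858241, .f 562649104517, .f 8650881, .f 8716416, .f 128, .f 128, .f 128, .f 128]
    (by decide +kernel)

theorem rT77 {N t x y L : ℤ} (hD : D N t)
    (c0 : N + x + 3 ≤ t + L)
    (c1 : N + 1 ≤ t + x)
    (c2 : y + 2 ≤ t)
    (c3 : t + L ≤ N + y + 2)
    (c4 : L ≠ x + y + 2)
    (c5 : L ≠ x + y + 3)
    (c6 : 2 * t + L ≠ N + x + y + 3)
    (c7 : 2 * t + L ≠ N + x + y + 4)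
    (c8 : t + x + y + 1 ≠ N + L)
    (c9 : t + x + y ≠ N + L) :
    P (A N t) N x y L := by
  exact qr77 hD ⟨c0, c1, c2, c3, c4, c5, c6, c7, c8, c9, trivial⟩

/-- hypotheses -/
noncomputable def kr79 : List Fk.C :=
  [.le (.add (.mul 4 .N) (.k 6)) (.add (.add (.add (.mul 3 .t) .x) .y) .L), .le (.add .N (.k 2))
  (.add .t .x), .le (.add .y (.k 1)) .t, .le (.add (.mul 2 .t) .x) (.add (.mul 2 .N) (.k 1)), .le
  (.add (.add .t .x) .L) (.add (.mul 2 .N) (.k 3)), .ne (.add (.add .x .y) .L) (.add (.mul 2 .N)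
  (.k 3)), .ne (.add (.add .x .y) .L) (.add (.mul 2 .N) (.k 4)), .ne (.add (.add (.add (.mul 2 .t)
  .x) .y) .L) (.add (.mul 3 .N) (.k 4)), .ne (.add (.add (.add (.mul 2 .t) .x) .y) .L) (.add (.mul
  3 .N) (.k 5)), .ne (.add (.add (.add (.mul 3 .t) .x) .y) .L) (.add (.mul 4 .N) (.k 6)), .ne (.add
  (.add (.add (.mul 3 .t) .x) .y) .L) (.add (.mul 4 .N) (.k 7))]

theorem qr79 {N t x y L : ℤ} (hD : D N t) : Fk.All ⟨N, t, x, y, L⟩ kr79 → P (A N t) N x y L :=
  Fk.route (fam hD x y L) kr79 .y (.up .x (.add (.sub (.mul 2 .N) (.mul 2 .t)) (.k 1)))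
    [(0, .pt .N), (1, .dn (.sub (.sub (.add (.add (.add .t .x) .y) .L) (.mul 2 .N)) (.k 4)) (.add
    (.sub (.mul 2 .N) (.mul 2 .t)) (.k 2))), (8, .up .t (.sub .N (.k 1))), (2, .up (.k 0) (.add
    (.sub .N .t) (.k 1))), (6, .dn (.sub .t (.k 1)) .y)]
    [.f 549764530435, .f 8716416, .f 154744939918326998574956678, .f 128, .f 128, .f 9371776, .f
    128, .f 549772919043, .f 154744939918326998574956678, .f 9240704, .f 9240704, .f 192, .f 192,
    .f 54043762472648838, .f 54043771062583428, .f 128, .f 128, .f 161998494834889410587263107, .f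
    549772919043, .f 8519808, .f 2361220396702987649158, .f 36029355381817603, .f
    2361220396702987649158, .f 36029368258199682, .f 36029368258199682, .s 11 (.f 12648576) (.f
    8454272), .s 12 (.f 12648576) (.f 8454272), .f 824642371718, .f 824642371718, .f 128, .f 128,
    .f 2471900861145244827779, .f 128, .f 159583022827052485897748739, .f 9240704, .f 128, .f 128,
    .f 128, .f 128, .f 128, .f 575534268544, .f 129, .f 37718213823299714, .f 128, .f 9240704, .f
    154744939954356345349734534, .f 128, .f 128, .f 128, .f 128, .f 4833120132459426611343, .f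
    9240705, .f 2471900862227576652047, .f 8585345, .f 2361219834302798430342, .f 8650880, .f
    9240704, .f 128, .f 128, .f 128, .f 128, .f 2361220678182259327106, .f 129, .f 8781952, .f
    9240705, .f 549764595842, .f 128, .f 128, .f 128, .f 128]
    (by decide +kernel)

theorem rT79 {N t x y L : ℤ} (hD : D N t)
    (c0 : 4 * N + 6 ≤ 3 * t + x + y + L)
    (c1 : N + 2 ≤ t + x)
    (c2 : y + 1 ≤ t)
    (c3 : 2 * t + x ≤ 2 * N + 1)
    (c4 : t + x + L ≤ 2 * N + 3)
    (c5 : x + y + L ≠ 2 * N + 3)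
    (c6 : x + y + L ≠ 2 * N + 4)
    (c7 : 2 * t + x + y + L ≠ 3 * N + 4)
    (c8 : 2 * t + x + y + L ≠ 3 * N + 5)
    (c9 : 3 * t + x + y + L ≠ 4 * N + 6)
    (c10 : 3 * t + x + y + L ≠ 4 * N + 7) :
    P (A N t) N x y L := by
  exact qr79 hD ⟨c0, c1, c2, c3, c4, c5, c6, c7, c8, c9, c10, trivial⟩

/-- hypotheses -/
noncomputable def kr81 : List Fk.C :=
  [.le (.add .N (.k 3)) (.add .t .y), .le (.k 0) .x, .le (.add .L (.k 1)) (.add .t .x), .le (.add
  (.add (.add .t .x) .y) (.k 1)) (.add .N .L), .le (.add .t .x) (.add .N (.k 2)), .ne .L (.add .x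
  .y), .ne .L (.add (.add .x .y) (.k 1)), .ne (.add (.add (.mul 2 .t) .x) .y) (.add .N .L), .ne
  (.add (.add (.mul 2 .t) .x) .y) (.add (.add .N .L) (.k 1)), .ne (.add (.add (.mul 3 .t) .x) .y)
  (.add (.add (.mul 2 .N) .L) (.k 2)), .ne (.add (.add (.mul 3 .t) .x) .y) (.add (.add (.mul 2 .N)
  .L) (.k 3))]

theorem qr81 {N t x y L : ℤ} (hD : D N t) : Fk.All ⟨N, t, x, y, L⟩ kr81 → P (A N t) N x y L :=
  Fk.route (fam hD x y L) kr81 .y (.dn .x (.k 0))
    [(3, .dn (.sub .N (.k 1)) (.sub (.add (.add .t .x) .y) .L)), (0, .pt .N), (1, .up (.add (.sub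
    .N .t) (.k 3)) .y)]
    [.f 128, .f 8585344, .f 2471901142598746767492, .f 128, .f 128, .f 2435006247102213980290, .f
    8716416, .f 128, .f 128, .f 128, .f 128, .f 128, .f 37155246690402434, .f 9371776, .f 128, .f
    2435006247102213980290, .f 8716416, .f 566944071810, .f 566944071810, .s 11 (.f 12648576) (.f
    8454272), .s 12 (.f 12648576) (.f 8454272), .s 8 (.f 8454272) (.f 12648576), .s 7 (.f 8454272)
    (.f 12648576), .f 128, .f 128, .f 128, .f 2435007654477097336962, .f 9240704, .f 8519808, .f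
    549764530308, .f 9240704, .f 36029368258134148, .f 128, .f 128, .f 9240768, .f 9240768, .f
    824651350158, .f 2619511125359840067844, .f 128, .f 128, .f 566944137349, .f 8650881, .f
    8781952, .f 128, .f 128, .f 128, .f 128]
    (by decide +kernel)

theorem rT81 {N t x y L : ℤ} (hD : D N t)
    (c0 : N + 3 ≤ t + y)
    (c1 : (0 : ℤ) ≤ x)
    (c2 : L + 1 ≤ t + x)
    (c3 : t + x + y + 1 ≤ N + L)
    (c4 : t + x ≤ N + 2)
    (c5 : L ≠ x + y)
    (c6 : L ≠ x + y + 1)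
    (c7 : 2 * t + x + y ≠ N + L)
    (c8 : 2 * t + x + y ≠ N + L + 1)
    (c9 : 3 * t + x + y ≠ 2 * N + L + 2)
    (c10 : 3 * t + x + y ≠ 2 * N + L + 3) :
    P (A N t) N x y L := by
  exact qr81 hD ⟨c0, c1, c2, c3, c4, c5, c6, c7, c8, c9, c10, trivial⟩

/-- hypotheses -/
noncomputable def kr83 : List Fk.C :=
  [.le (.add .N (.k 1)) (.add .t .y), .le (.add .N .L) (.add (.add (.mul 2 .t) .x) (.k 1)), .le (.k
  0) .x, .le (.add (.add (.add .t .x) .y) (.k 3)) (.add .N .L), .le (.add .t .x) .N, .ne (.add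
  (.add (.add .t .x) .y) (.k 3)) (.add .N .L), .ne (.add (.add (.add .t .x) .y) (.k 2)) (.add .N
  .L), .ne (.add (.add (.add (.mul 3 .t) .x) .y) (.k 2)) (.add (.mul 2 .N) .L), .ne (.add (.add
  (.add (.mul 3 .t) .x) .y) (.k 1)) (.add (.mul 2 .N) .L), .ne (.add (.add (.mul 4 .t) .x) .y)
  (.add (.mul 3 .N) .L), .ne (.add (.add (.mul 4 .t) .x) .y) (.add (.add (.mul 3 .N) .L) (.k 1))]

theorem qr83 {N t x y L : ℤ} (hD : D N t) : Fk.All ⟨N, t, x, y, L⟩ kr83 → P (A N t) N x y L :=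
  Fk.route (fam hD x y L) kr83 .y (.dn .x (.k 0))
    [(0, .pt .N), (1, .up (.add (.sub (.sub (.add (.add (.mul 2 .t) .x) .y) .N) .L) (.k 2)) (.sub
    .t (.k 1))), (7, .up (.add (.sub .N .t) (.k 1)) .y)]
    [.f 128, .f 8650880, .f 154744958401381348575150211, .f 128, .f 128, .f 9371776, .f 128, .f
    128, .f 9371776, .f 9240768, .f 9240768, .f 824650891524, .f 824650891524, .f
    232116155480456597608792197, .f 158371735840521987729522822, .f 128, .f 128, .f
    158371735860225768675213455, .f 2416560065978457915520, .f 8716416, .f 9240704, .f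
    2416560065978457915520, .f 36029368258396292, .f 562649104514, .f 562649104514, .s 11 (.f
    12648576) (.f 8454272), .s 12 (.f 12648576) (.f 8454272), .s 7 (.f 12648576) (.f 8454272), .f
    8716480, .f 128, .f 128, .f 9240705, .f 37718205233561728, .f 9240704, .f 8519808, .f
    2361220678182259392643, .f 128, .f 128, .f 128, .f 128, .f 8585345, .f 2416559784503481204869,
    .f 8781952, .f 128, .f 128, .f 128, .f 128]
    (by decide +kernel)

theorem rT83 {N t x y L : ℤ} (hD : D N t)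
    (c0 : N + 1 ≤ t + y)
    (c1 : N + L ≤ 2 * t + x + 1)
    (c2 : (0 : ℤ) ≤ x)
    (c3 : t + x + y + 3 ≤ N + L)
    (c4 : t + x ≤ N)
    (c5 : t + x + y + 3 ≠ N + L)
    (c6 : t + x + y + 2 ≠ N + L)
    (c7 : 3 * t + x + y + 2 ≠ 2 * N + L)
    (c8 : 3 * t + x + y + 1 ≠ 2 * N + L)
    (c9 : 4 * t + x + y ≠ 3 * N + L)
    (c10 : 4 * t + x + y ≠ 3 * N + L + 1) :
    P (A N t) N x y L := by
  exact qr83 hD ⟨c0, c1, c2, c3, c4, c5, c6, c7, c8, c9, c10, trivial⟩

/-- hypotheses -/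
noncomputable def kr85 : List Fk.C :=
  [.le (.add (.mul 4 .N) (.k 7)) (.add (.add (.mul 4 .t) .x) .L), .le (.add (.mul 2 .N) (.k 4))
  (.add (.mul 2 .t) .y), .le .N (.add .t .x), .le (.add .t .x) .N, .le (.add (.add (.add (.mul 3
  .t) .x) .y) .L) (.add (.mul 4 .N) (.k 5)), .ne (.add (.add (.add (.mul 3 .t) .x) .y) .L) (.add
  (.mul 4 .N) (.k 6)), .ne (.add (.add (.add (.mul 3 .t) .x) .y) .L) (.add (.mul 4 .N) (.k 7)), .ne
  (.add (.add (.add (.mul 5 .t) .x) .y) .L) (.add (.mul 5 .N) (.k 7)), .ne (.add (.add (.add (.mul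
  5 .t) .x) .y) .L) (.add (.mul 5 .N) (.k 8)), .ne (.add (.add (.add (.mul 6 .t) .x) .y) .L) (.add
  (.mul 6 .N) (.k 9)), .ne (.add (.add (.add (.mul 6 .t) .x) .y) .L) (.add (.mul 6 .N) (.k 10))]

theorem qr85 {N t x y L : ℤ} (hD : D N t) : Fk.All ⟨N, t, x, y, L⟩ kr85 → P (A N t) N x y L :=
  Fk.route (fam hD x y L) kr85 .y (.up .x (.sub .N .t))
    [(4, .dn (.add (.sub (.mul 2 .N) (.mul 2 .t)) (.k 3)) (.add (.sub .N .t) (.k 1))), (6, .up
    (.sub .t (.k 1)) (.sub .N (.k 1))), (2, .up (.k 0) (.sub (.sub .N .t) (.k 1))), (0, .pt .N),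
    (1, .dn (.sub (.sub (.add (.add (.add (.mul 4 .t) .x) .y) .L) (.mul 4 .N)) (.k 7)) .y)]
    [.f 549765054596, .f 8716416, .f 2471900579648793346317, .f 128, .f 128, .f 9240704, .f
    9240704, .f 2471900579648793346189, .f 128, .f 128, .f 128, .f 128, .f 128, .f
    2471900579648793346317, .f 9240704, .f 128, .f 128, .f 128, .f 128, .f 128, .f
    37718209528463488, .f 162000782231716967949140097, .f 128, .f 9240704, .f
    2471900579648793346317, .f 128, .f 128, .f 128, .f 128, .f 4833119850984449900687, .f 129, .f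
    8650881, .f 9371776, .f 128, .f 9240704, .f 2471900579648793346317, .f 192, .f 192, .f 9240768,
    .f 9240768, .f 2471900579923671253133, .f 2471900579923671253133, .f 128, .f 128, .f
    2471900580748304974095, .f 128, .f 2471900580198549160065, .f 2471900579648793346317, .f
    549773443203, .f 8519808, .f 549765054598, .f 36592902326976643, .f 549765054598, .f
    36873827547873410, .f 36873827547873410, .f 562649104514, .f 562649104514, .f 8782016, .f
    8782016, .f 128, .f 128, .f 575534071949, .f 562649956480, .f 8781953, .f 8585344, .f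
    562649104525, .f 128, .f 128, .f 128, .f 128]
    (by decide +kernel)

theorem rT85 {N t x y L : ℤ} (hD : D N t)
    (c0 : 4 * N + 7 ≤ 4 * t + x + L)
    (c1 : 2 * N + 4 ≤ 2 * t + y)
    (c2 : N ≤ t + x)
    (c3 : t + x ≤ N)
    (c4 : 3 * t + x + y + L ≤ 4 * N + 5)
    (c5 : 3 * t + x + y + L ≠ 4 * N + 6)
    (c6 : 3 * t + x + y + L ≠ 4 * N + 7)
    (c7 : 5 * t + x + y + L ≠ 5 * N + 7)
    (c8 : 5 * t + x + y + L ≠ 5 * N + 8)
    (c9 : 6 * t + x + y + L ≠ 6 * N + 9)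
    (c10 : 6 * t + x + y + L ≠ 6 * N + 10) :
    P (A N t) N x y L := by
  exact qr85 hD ⟨c0, c1, c2, c3, c4, c5, c6, c7, c8, c9, c10, trivial⟩

/-- hypotheses -/
noncomputable def kr87 : List Fk.C :=
  [.le (.add (.mul 3 .N) (.k 5)) (.add (.add (.mul 3 .t) .x) .L), .le (.add .N (.k 2)) (.add .t
  .y), .le .N (.add .t .x), .le (.add .t .x) (.add .N (.k 1)), .le (.add (.add (.add (.mul 2 .t)
  .x) .y) .L) (.add (.mul 3 .N) (.k 3)), .ne (.add (.add (.add (.mul 2 .t) .x) .y) .L) (.add (.mul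
  3 .N) (.k 4)), .ne (.add (.add (.add (.mul 2 .t) .x) .y) .L) (.add (.mul 3 .N) (.k 5)), .ne (.add
  (.add (.add (.mul 4 .t) .x) .y) .L) (.add (.mul 4 .N) (.k 5)), .ne (.add (.add (.add (.mul 4 .t)
  .x) .y) .L) (.add (.mul 4 .N) (.k 6)), .ne (.add (.add (.add (.mul 5 .t) .x) .y) .L) (.add (.mul
  5 .N) (.k 7)), .ne (.add (.add (.add (.mul 5 .t) .x) .y) .L) (.add (.mul 5 .N) (.k 8))]

theorem qr87 {N t x y L : ℤ} (hD : D N t) : Fk.All ⟨N, t, x, y, L⟩ kr87 → P (A N t) N x y L :=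
  Fk.route (fam hD x y L) kr87 .y (.up .x (.add (.sub .N .t) (.k 1)))
    [(6, .up (.sub .t (.k 1)) (.sub .N (.k 1))), (2, .up (.k 0) (.sub (.sub .N .t) (.k 1))), (0,
    .pt .N), (1, .dn (.sub (.sub (.add (.add (.add (.mul 3 .t) .x) .y) .L) (.mul 3 .N)) (.k 5))
    .y)]
    [.f 549765054596, .f 8716416, .f 2471900579648793346189, .f 128, .f 128, .f
    2471900579648793346189, .f 9240704, .f 128, .f 128, .f 128, .f 128, .f 128, .f
    37718196643627138, .f 128, .f 9240704, .f 2471900579648793346189, .f 128, .f 128, .f 128, .f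
    128, .f 37718209528397954, .f 8650881, .f 9371776, .f 128, .f 9240704, .f
    2471900579648793346189, .f 192, .f 192, .f 9240768, .f 9240768, .f 37718209532526722, .f
    37718209532526722, .f 128, .f 128, .f 2471900580198549160079, .f 128, .f
    2471900579648793346189, .f 549765054595, .f 8519808, .f 549765054598, .f 36592296737439875, .f
    549765054598, .f 562649104514, .f 562649104514, .s 11 (.f 12648576) (.f 8454272), .s 12 (.f
    12648576) (.f 8454272), .f 8782016, .f 8782016, .f 128, .f 128, .f 575534071949, .f 8585344, .f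
    8781953, .f 8585344, .f 128, .f 128, .f 128, .f 128]
    (by decide +kernel)

theorem rT87 {N t x y L : ℤ} (hD : D N t)
    (c0 : 3 * N + 5 ≤ 3 * t + x + L)
    (c1 : N + 2 ≤ t + y)
    (c2 : N ≤ t + x)
    (c3 : t + x ≤ N + 1)
    (c4 : 2 * t + x + y + L ≤ 3 * N + 3)
    (c5 : 2 * t + x + y + L ≠ 3 * N + 4)
    (c6 : 2 * t + x + y + L ≠ 3 * N + 5)
    (c7 : 4 * t + x + y + L ≠ 4 * N + 5)
    (c8 : 4 * t + x + y + L ≠ 4 * N + 6)
    (c9 : 5 * t + x + y + L ≠ 5 * N + 7)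
    (c10 : 5 * t + x + y + L ≠ 5 * N + 8) :
    P (A N t) N x y L := by
  exact qr87 hD ⟨c0, c1, c2, c3, c4, c5, c6, c7, c8, c9, c10, trivial⟩

/-- hypotheses -/
noncomputable def kr89 : List Fk.C :=
  [.le (.add .x (.k 3)) .L, .le (.add .x (.k 1)) .y, .le (.k 0) .x, .le (.add .y .L) (.add (.add .N
  .x) (.k 2)), .ne (.add .y .L) (.add (.add .t .x) (.k 2)), .ne (.add .y .L) (.add (.add .t .x) (.k
  3)), .ne (.add (.add .t .y) .L) (.add (.add .N .x) (.k 3)), .ne (.add (.add .t .y) .L) (.add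
  (.add .N .x) (.k 4)), .ne (.add (.add (.mul 2 .t) .y) .L) (.add (.add (.mul 2 .N) .x) (.k 5)),
  .ne (.add (.add (.mul 2 .t) .y) .L) (.add (.add (.mul 2 .N) .x) (.k 6))]

theorem qr89 {N t x y L : ℤ} (hD : D N t) : Fk.All ⟨N, t, x, y, L⟩ kr89 → P (A N t) N x y L :=
  Fk.route (fam hD x y L) kr89 .y (.dn .x (.k 0))
    [(0, .pt .N), (1, .dn (.sub (.sub (.add .y .L) .x) (.k 3)) .y)]
    [.f 128, .f 8650880, .f 36029355373297797, .f 128, .f 128, .f 9306240, .f 128, .f 128, .f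
    9306240, .f 9175232, .f 9175232, .f 17563840, .f 17563840, .f 824659673229, .f
    696348392650171338961256837, .f 128, .f 128, .f 37436730256851072, .f 549764399236, .f 8519808,
    .f 8716416, .f 36029355373297796, .f 8716416, .s 8 (.f 12648576) (.f 8454272), .s 9 (.f
    12648576) (.f 8454272), .s 10 (.f 12648576) (.f 8454272), .s 11 (.f 12648576) (.f 8454272), .s
    6 (.f 12648576) (.f 8454272), .s 7 (.f 12648576) (.f 8454272), .f 128, .f 128, .f 8716417, .f
    8585344, .f 128, .f 128, .f 128, .f 128]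
    (by decide +kernel)

theorem rT89 {N t x y L : ℤ} (hD : D N t)
    (c0 : x + 3 ≤ L)
    (c1 : x + 1 ≤ y)
    (c2 : (0 : ℤ) ≤ x)
    (c3 : y + L ≤ N + x + 2)
    (c4 : y + L ≠ t + x + 2)
    (c5 : y + L ≠ t + x + 3)
    (c6 : t + y + L ≠ N + x + 3)
    (c7 : t + y + L ≠ N + x + 4)
    (c8 : 2 * t + y + L ≠ 2 * N + x + 5)
    (c9 : 2 * t + y + L ≠ 2 * N + x + 6) :
    P (A N t) N x y L := by
  exact qr89 hD ⟨c0, c1, c2, c3, c4, c5, c6, c7, c8, c9, trivial⟩

/-- hypotheses -/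
noncomputable def kr91 : List Fk.C :=
  [.le (.add .N .L) (.add (.add (.mul 2 .t) .y) (.k 1)), .le (.k 0) .x, .le (.add (.add (.mul 2 .t)
  .x) (.k 2)) (.add .N .L), .le (.add (.mul 2 .t) .y) (.mul 2 .N), .ne (.add (.add (.add .t .x) .y)
  (.k 3)) (.add .N .L), .ne (.add (.add (.add .t .x) .y) (.k 2)) (.add .N .L), .ne (.add (.add
  (.add (.mul 3 .t) .x) .y) (.k 2)) (.add (.mul 2 .N) .L), .ne (.add (.add (.add (.mul 3 .t) .x)
  .y) (.k 1)) (.add (.mul 2 .N) .L), .ne (.add (.add (.mul 4 .t) .x) .y) (.add (.mul 3 .N) .L), .ne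
  (.add (.add (.mul 4 .t) .x) .y) (.add (.add (.mul 3 .N) .L) (.k 1))]

theorem qr91 {N t x y L : ℤ} (hD : D N t) : Fk.All ⟨N, t, x, y, L⟩ kr91 → P (A N t) N x y L :=
  Fk.route (fam hD x y L) kr91 .y (.dn .x (.k 0))
    [(3, .dn (.sub .N (.k 1)) (.add (.sub (.mul 2 .N) (.mul 2 .t)) (.k 1))), (0, .pt .N), (1, .up
    (.add (.sub (.sub (.add (.add (.mul 2 .t) .x) .y) .N) .L) (.k 2)) .y)]
    [.f 128, .f 8585344, .f 160789495228580013091389572, .f 128, .f 128, .f 2453454117058650505344,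
    .f 154745105938179237030985860, .f 128, .f 128, .f 128, .f 128, .f 128, .f 37436738846720128,
    .f 9306240, .f 128, .f 2453454117058650505344, .f 154745105938179237030985860, .f 9175168, .f
    9175168, .f 192, .f 192, .f 824642896013, .f 824642896013, .f 128, .f 128, .f 128, .f
    315532239983517201118396558, .f 558354333824, .f 8650880, .f 154745105938179237039374468, .f
    558354333824, .f 154745105938179237039374596, .s 8 (.f 12648576) (.f 8454272), .s 9 (.f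
    12648576) (.f 8454272), .f 571239301312, .f 571239301312, .f 386861224560050017388331397, .f
    386861224560050017388331397, .f 128, .f 128, .f 315532239982672239308963968, .f 8716417, .f
    8519808, .f 128, .f 128, .f 128, .f 128]
    (by decide +kernel)

theorem rT91 {N t x y L : ℤ} (hD : D N t)
    (c0 : N + L ≤ 2 * t + y + 1)
    (c1 : (0 : ℤ) ≤ x)
    (c2 : 2 * t + x + 2 ≤ N + L)
    (c3 : 2 * t + y ≤ 2 * N)
    (c4 : t + x + y + 3 ≠ N + L)
    (c5 : t + x + y + 2 ≠ N + L)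
    (c6 : 3 * t + x + y + 2 ≠ 2 * N + L)
    (c7 : 3 * t + x + y + 1 ≠ 2 * N + L)
    (c8 : 4 * t + x + y ≠ 3 * N + L)
    (c9 : 4 * t + x + y ≠ 3 * N + L + 1) :
    P (A N t) N x y L := by
  exact qr91 hD ⟨c0, c1, c2, c3, c4, c5, c6, c7, c8, c9, trivial⟩

/-- hypotheses -/
noncomputable def kr93 : List Fk.C :=
  [.le (.add .N (.k 2)) (.add .t .y), .le (.add .N .L) (.add (.mul 2 .t) .y), .le (.k 0) .x, .le
  (.add (.add (.mul 3 .t) .x) .y) (.add (.mul 2 .N) .L), .le (.add (.mul 2 .t) .y) (.add (.mul 2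
  .N) (.k 1)), .ne (.add (.add (.add .t .x) .y) (.k 2)) (.add .N .L), .ne (.add (.add (.add .t .x)
  .y) (.k 1)) (.add .N .L), .ne (.add (.add (.add (.mul 3 .t) .x) .y) (.k 1)) (.add (.mul 2 .N)
  .L), .ne (.add (.add (.mul 3 .t) .x) .y) (.add (.mul 2 .N) .L), .ne (.add (.add (.mul 4 .t) .x)
  .y) (.add (.add (.mul 3 .N) .L) (.k 1)), .ne (.add (.add (.mul 4 .t) .x) .y) (.add (.add (.mul 3
  .N) .L) (.k 2))]

theorem qr93 {N t x y L : ℤ} (hD : D N t) : Fk.All ⟨N, t, x, y, L⟩ kr93 → P (A N t) N x y L :=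
  Fk.route (fam hD x y L) kr93 .y (.dn .x (.k 0))
    [(3, .dn (.sub .N (.k 1)) .t), (9, .up (.add (.sub (.mul 2 .N) (.mul 2 .t)) (.k 2)) (.sub .t
    (.k 1))), (7, .dn (.add (.sub .N .t) (.k 1)) (.add (.sub (.sub (.add (.add (.mul 2 .t) .x) .y)
    .N) .L) (.k 1))), (0, .pt .N), (1, .up (.add (.sub .N .t) (.k 2)) .y)]
    [.f 128, .f 8650880, .f 2416560910377635610766, .f 128, .f 128, .f 549781831822, .f 9240704, .f
    128, .f 128, .f 128, .f 128, .f 128, .f 4777746685658470023311, .f 72902568740978948, .f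
    549765054606, .f 9240704, .f 128, .f 128, .f 128, .f 128, .f 129, .f 36029918014079235, .f
    562649104516, .f 8716416, .f 549781831822, .f 128, .f 128, .f 128, .f 128, .f 9240705, .f
    2416595813291910889600, .f 8585344, .f 9371776, .f 128, .f 562649104516, .f 36029368275632270,
    .s 9 (.f 12648576) (.f 8454272), .s 10 (.f 12648576) (.f 8454272), .f 36874046599921796, .f
    36874046599921796, .f 54044350883365006, .f 54043766776725646, .f 128, .f 128, .f
    7139034073367260168334, .f 9240704, .f 128, .f 9500113169627643642255, .f 9240704, .f 8519808,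
    .f 36029372562210958, .f 9240704, .f 549781831822, .f 128, .f 128, .f 9240768, .f 9240768, .f
    824643027213, .f 824643027213, .f 128, .f 128, .f 161998679302330164871102725, .f 128, .f
    8781953, .f 161998679302329615106900101, .f 562649432192, .f 128, .f 128, .f 128, .f 128]
    (by decide +kernel)

theorem rT93 {N t x y L : ℤ} (hD : D N t)
    (c0 : N + 2 ≤ t + y)
    (c1 : N + L ≤ 2 * t + y)
    (c2 : (0 : ℤ) ≤ x)
    (c3 : 3 * t + x + y ≤ 2 * N + L)
    (c4 : 2 * t + y ≤ 2 * N + 1)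
    (c5 : t + x + y + 2 ≠ N + L)
    (c6 : t + x + y + 1 ≠ N + L)
    (c7 : 3 * t + x + y + 1 ≠ 2 * N + L)
    (c8 : 3 * t + x + y ≠ 2 * N + L)
    (c9 : 4 * t + x + y ≠ 3 * N + L + 1)
    (c10 : 4 * t + x + y ≠ 3 * N + L + 2) :
    P (A N t) N x y L := by
  exact qr93 hD ⟨c0, c1, c2, c3, c4, c5, c6, c7, c8, c9, c10, trivial⟩

/-- hypotheses -/
noncomputable def kr95 : List Fk.C :=
  [.le (.add (.add .N .L) (.k 1)) (.add (.mul 2 .t) .y), .le (.k 0) .x, .le (.add (.mul 2 .t) .x)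
  (.add .N .L), .le (.add .t .y) (.add .N (.k 1)), .ne (.add (.add (.add .t .x) .y) (.k 1)) (.add
  .N .L), .ne (.add (.add .t .x) .y) (.add .N .L), .ne (.add (.add (.mul 3 .t) .x) .y) (.add (.mul
  2 .N) .L), .ne (.add (.add (.mul 3 .t) .x) .y) (.add (.add (.mul 2 .N) .L) (.k 1)), .ne (.add
  (.add (.mul 4 .t) .x) .y) (.add (.add (.mul 3 .N) .L) (.k 2)), .ne (.add (.add (.mul 4 .t) .x)
  .y) (.add (.add (.mul 3 .N) .L) (.k 3))]

theorem qr95 {N t x y L : ℤ} (hD : D N t) : Fk.All ⟨N, t, x, y, L⟩ kr95 → P (A N t) N x y L :=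
  Fk.route (fam hD x y L) kr95 .y (.dn .x (.k 0))
    [(10, .up (.add (.sub .N .t) (.k 2)) (.sub .t (.k 2))), (0, .pt .N), (1, .up (.sub (.sub (.add
    (.add (.mul 2 .t) .x) .y) .N) .L) .y)]
    [.f 128, .f 8585344, .f 157162717770299625276506245, .f 128, .f 128, .f 9175168, .f
    549773377677, .f 9175168, .f 128, .f 128, .f 128, .f 128, .f 37436721666850948, .f 9306240, .f
    128, .f 549781766285, .f 9175168, .f 549773377677, .f 549773377677, .f 549764989069, .f
    549764989069, .f 192, .f 192, .f 128, .f 128, .f 9175168, .f 625017249876920963409510798, .f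
    549764399234, .f 8650880, .f 36030497835253893, .f 549764399234, .f 2361220397832564703365, .s
    8 (.f 12648576) (.f 8454272), .s 9 (.f 12648576) (.f 8454272), .f 3541848046208827916549, .f
    2398150195667863273664, .f 232116358466136597967536517, .f 232116358466136597967536517, .f 128,
    .f 128, .f 37436725962539404, .f 8716417, .f 8519808, .f 128, .f 128, .f 128, .f 128]
    (by decide +kernel)

theorem rT95 {N t x y L : ℤ} (hD : D N t)
    (c0 : N + L + 1 ≤ 2 * t + y)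
    (c1 : (0 : ℤ) ≤ x)
    (c2 : 2 * t + x ≤ N + L)
    (c3 : t + y ≤ N + 1)
    (c4 : t + x + y + 1 ≠ N + L)
    (c5 : t + x + y ≠ N + L)
    (c6 : 3 * t + x + y ≠ 2 * N + L)
    (c7 : 3 * t + x + y ≠ 2 * N + L + 1)
    (c8 : 4 * t + x + y ≠ 3 * N + L + 2)
    (c9 : 4 * t + x + y ≠ 3 * N + L + 3) :
    P (A N t) N x y L := by
  exact qr95 hD ⟨c0, c1, c2, c3, c4, c5, c6, c7, c8, c9, trivial⟩

/-- hypotheses -/
noncomputable def kr97 : List Fk.C :=
  [.le .N (.add .t .y), .le (.k 0) .x, .le (.add (.add (.add .t .x) .y) (.k 4)) (.add .N .L), .le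
  (.add (.add .t .x) (.k 1)) .N, .le (.add .t .L) (.add (.add .N .x) (.k 6)), .ne .L (.add (.add .x
  .y) (.k 6)), .ne .L (.add (.add .x .y) (.k 7)), .ne (.add (.mul 2 .t) .L) (.add (.add (.add .N
  .x) .y) (.k 7)), .ne (.add (.mul 2 .t) .L) (.add (.add (.add .N .x) .y) (.k 8)), .ne (.add (.add
  (.add .t .x) .y) (.k 5)) (.add .N .L), .ne (.add (.add (.add .t .x) .y) (.k 4)) (.add .N .L)]

theorem qr97 {N t x y L : ℤ} (hD : D N t) : Fk.All ⟨N, t, x, y, L⟩ kr97 → P (A N t) N x y L :=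
  Fk.route (fam hD x y L) kr97 .y (.dn .x (.k 0))
    [(0, .pt .N), (1, .up (.add (.sub (.sub (.add (.add .N .x) .y) .t) .L) (.k 7)) (.add (.sub
    (.mul 2 .N) (.mul 2 .t)) (.k 3))), (5, .up (.sub .N .t) .y)]
    [.f 128, .f 8585344, .f 36029368275632270, .f 128, .f 128, .f 9371776, .f 128, .f 128, .f
    9371776, .f 9240768, .f 9240768, .f 1121003438272, .f 1121003438272, .f 824659738766, .f
    824659738766, .f 128, .f 128, .f 39971667224560015, .f 2471901142607336767616, .f 8650880, .f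
    549773443214, .f 2471901142607336767616, .f 36029363972276366, .f 575534006402, .s 7 (.f
    8454272) (.f 12648576), .s 11 (.f 12648576) (.f 8454272), .s 12 (.f 12648576) (.f 8454272), .f
    54043801128140932, .f 54043801128140932, .f 128, .f 128, .f 609902985345, .f 37718218118398080,
    .f 9240704, .f 8519808, .f 2471900861729360314510, .f 128, .f 128, .f 128, .f 128, .f 8781953,
    .f 2471900017304431100036, .f 8716416, .f 128, .f 128, .f 128, .f 128]
    (by decide +kernel)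

theorem rT97 {N t x y L : ℤ} (hD : D N t)
    (c0 : N ≤ t + y)
    (c1 : (0 : ℤ) ≤ x)
    (c2 : t + x + y + 4 ≤ N + L)
    (c3 : t + x + 1 ≤ N)
    (c4 : t + L ≤ N + x + 6)
    (c5 : L ≠ x + y + 6)
    (c6 : L ≠ x + y + 7)
    (c7 : 2 * t + L ≠ N + x + y + 7)
    (c8 : 2 * t + L ≠ N + x + y + 8)
    (c9 : t + x + y + 5 ≠ N + L)
    (c10 : t + x + y + 4 ≠ N + L) :
    P (A N t) N x y L := by
  exact qr97 hD ⟨c0, c1, c2, c3, c4, c5, c6, c7, c8, c9, c10, trivial⟩

/-- hypotheses -/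
noncomputable def kr99 : List Fk.C :=
  [.le (.add (.add .N .L) (.k 2)) (.add (.mul 2 .t) .y), .le (.add .x (.k 1)) .y, .le (.add .y (.k
  3)) .L, .le (.k 0) .x, .le (.add (.mul 2 .t) .y) (.add (.mul 2 .N) (.k 3)), .ne .L (.add .y (.k
  1)), .ne .L (.add .y (.k 2)), .ne (.add .x (.k 2)) .t, .ne (.add .x (.k 1)) .t, .ne (.add (.add
  .t .x) (.k 1)) .N, .ne (.add .t .x) .N, .ne (.add .t .y) (.add .N .L), .ne (.add .t .y) (.add
  (.add .N .L) (.k 1)), .ne (.add (.mul 3 .t) .y) (.add (.add (.mul 2 .N) .L) (.k 1)), .ne (.add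
  (.mul 3 .t) .y) (.add (.add (.mul 2 .N) .L) (.k 2)), .ne (.add (.mul 2 .t) .x) (.add (.mul 2 .N)
  (.k 1)), .ne (.add (.mul 2 .t) .x) (.add (.mul 2 .N) (.k 2))]

theorem qr99 {N t x y L : ℤ} (hD : D N t) : Fk.All ⟨N, t, x, y, L⟩ kr99 → P (A N t) N x y L :=
  Fk.route (fam hD x y L) kr99 .y (.dn .x (.k 0))
    [(12, .up (.add (.sub (.mul 2 .N) (.mul 2 .t)) (.k 4)) (.add (.sub (.sub (.add (.mul 2 .N) .L)
    (.mul 2 .t)) .y) (.k 1))), (0, .pt .N), (1, .up (.add .x (.k 1)) .y)]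
    [.f 128, .f 8716416, .f 2361220396694397649030, .f 128, .f 128, .f 36029359668396166, .f
    8650880, .f 8519808, .f 128, .f 128, .f 128, .f 128, .f 575534203008, .f 9764992, .f 128, .f
    2361220396694397845638, .f 8519808, .f 4722439666926239416454, .f 4722439666926239416454, .f
    8650880, .f 8650880, .s 16 (.f 8454272) (.f 12648576), .s 15 (.f 8454272) (.f 12648576), .f
    128, .f 128, .f 8519808, .f 2471900861136654827650, .f 8716416, .f 8585344, .f
    36029363963166854, .f 8716416, .f 2361220396694397649030, .s 11 (.f 12648576) (.f 8454272), .s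
    12 (.f 12648576) (.f 8454272), .s 17 (.f 12648576) (.f 8454272), .s 18 (.f 12648576) (.f
    8454272), .f 3541811736005552898182, .f 178923456346086240883441926, .f 128, .f 128, .f
    37718200938528900, .f 8781953, .f 128, .f 128, .f 128, .f 128, .f 128]
    (by decide +kernel)

theorem rT99 {N t x y L : ℤ} (hD : D N t)
    (c0 : N + L + 2 ≤ 2 * t + y)
    (c1 : x + 1 ≤ y)
    (c2 : y + 3 ≤ L)
    (c3 : (0 : ℤ) ≤ x)
    (c4 : 2 * t + y ≤ 2 * N + 3)
    (c5 : L ≠ y + 1)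
    (c6 : L ≠ y + 2)
    (c7 : x + 2 ≠ t)
    (c8 : x + 1 ≠ t)
    (c9 : t + x + 1 ≠ N)
    (c10 : t + x ≠ N)
    (c11 : t + y ≠ N + L)
    (c12 : t + y ≠ N + L + 1)
    (c13 : 3 * t + y ≠ 2 * N + L + 1)
    (c14 : 3 * t + y ≠ 2 * N + L + 2)
    (c15 : 2 * t + x ≠ 2 * N + 1)
    (c16 : 2 * t + x ≠ 2 * N + 2) :
    P (A N t) N x y L := by
  exact qr99 hD ⟨c0, c1, c2, c3, c4, c5, c6, c7, c8, c9, c10, c11, c12, c13, c14, c15, c16, trivial⟩

/-- hypotheses -/
noncomputable def kr101 : List Fk.C :=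
  [.le (.add (.add (.mul 2 .N) .x) (.k 4)) (.add (.mul 2 .t) .L), .le (.add (.mul 2 .N) (.k 1))
  (.add (.mul 2 .t) .y), .le (.k 0) .x, .le (.add .t .x) .N, .le (.add (.add .t .y) .L) (.add (.add
  (.mul 2 .N) .x) (.k 2)), .ne (.add (.add .t .y) .L) (.add (.add (.mul 2 .N) .x) (.k 3)), .ne
  (.add (.add .t .y) .L) (.add (.add (.mul 2 .N) .x) (.k 4)), .ne (.add (.add (.mul 3 .t) .y) .L)
  (.add (.add (.mul 3 .N) .x) (.k 4)), .ne (.add (.add (.mul 3 .t) .y) .L) (.add (.add (.mul 3 .N)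
  .x) (.k 5)), .ne (.add (.add (.mul 4 .t) .y) .L) (.add (.add (.mul 4 .N) .x) (.k 6)), .ne (.add
  (.add (.mul 4 .t) .y) .L) (.add (.add (.mul 4 .N) .x) (.k 7))]

theorem qr101 {N t x y L : ℤ} (hD : D N t) : Fk.All ⟨N, t, x, y, L⟩ kr101 → P (A N t) N x y L :=
  Fk.route (fam hD x y L) kr101 .y (.dn .x (.k 0))
    [(3, .dn (.sub .N (.k 1)) (.sub .t (.k 1))), (7, .up (.add (.sub .N .t) (.k 1)) (.sub (.mul 2
    .N) (.mul 2 .t))), (0, .pt .N), (1, .dn (.sub (.sub (.sub (.add (.add (.mul 2 .t) .y) .L) (.mul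
    2 .N)) .x) (.k 4)) .y)]
    [.f 128, .f 8650880, .f 154749680730991546027081862, .f 128, .f 128, .f
    154747319547750111204475014, .f 9240704, .f 128, .f 128, .f 128, .f 128, .f 128, .f
    316745740595381185041006735, .f 9240704, .f 9240704, .f 154744958364508126626054278, .f 128, .f
    128, .f 128, .f 128, .f 37718205233561729, .f 8716416, .f 9371776, .f 128, .f 549772919044, .f
    154744958364508126626054278, .f 9240704, .f 9240704, .f 192, .f 192, .f 54043758177681542, .f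
    54043758177681542, .f 128, .f 128, .f 2471900298186701472000, .f 128, .f
    162003235648679853651263759, .f 36029918014013700, .f 8519808, .f 36029368258265222, .f
    2361256706966401843330, .f 36029368258265222, .f 2361220678169374490754, .f 36029359668920450,
    .s 11 (.f 12648576) (.f 8454272), .s 12 (.f 12648576) (.f 8454272), .f 8782016, .f 8782016, .f
    128, .f 128, .f 37718218118529153, .f 8585344, .f 8781953, .f 36873771722014852, .f 128, .f
    128, .f 128, .f 128]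
    (by decide +kernel)

theorem rT101 {N t x y L : ℤ} (hD : D N t)
    (c0 : 2 * N + x + 4 ≤ 2 * t + L)
    (c1 : 2 * N + 1 ≤ 2 * t + y)
    (c2 : (0 : ℤ) ≤ x)
    (c3 : t + x ≤ N)
    (c4 : t + y + L ≤ 2 * N + x + 2)
    (c5 : t + y + L ≠ 2 * N + x + 3)
    (c6 : t + y + L ≠ 2 * N + x + 4)
    (c7 : 3 * t + y + L ≠ 3 * N + x + 4)
    (c8 : 3 * t + y + L ≠ 3 * N + x + 5)
    (c9 : 4 * t + y + L ≠ 4 * N + x + 6)
    (c10 : 4 * t + y + L ≠ 4 * N + x + 7) :
    P (A N t) N x y L := by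
  exact qr101 hD ⟨c0, c1, c2, c3, c4, c5, c6, c7, c8, c9, c10, trivial⟩

/-- hypotheses -/
noncomputable def kr103 : List Fk.C :=
  [.le (.add (.mul 2 .N) (.k 4)) (.add (.mul 2 .t) .y), .le (.add (.add .N .x) (.k 7)) (.add .t
  .L), .le (.k 0) .x, .le (.add (.add .t .x) (.k 1)) .N, .le (.add (.add .t .y) .L) (.add (.add
  (.mul 2 .N) .x) (.k 6)), .ne (.add .y .L) (.add (.add .N .x) (.k 6)), .ne (.add .y .L) (.add
  (.add .N .x) (.k 7)), .ne (.add (.add (.mul 2 .t) .y) .L) (.add (.add (.mul 2 .N) .x) (.k 7)),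
  .ne (.add (.add (.mul 2 .t) .y) .L) (.add (.add (.mul 2 .N) .x) (.k 8)), .ne (.add (.add (.mul 3
  .t) .y) .L) (.add (.add (.mul 3 .N) .x) (.k 9)), .ne (.add (.add (.mul 3 .t) .y) .L) (.add (.add
  (.mul 3 .N) .x) (.k 10))]

theorem qr103 {N t x y L : ℤ} (hD : D N t) : Fk.All ⟨N, t, x, y, L⟩ kr103 → P (A N t) N x y L :=
  Fk.route (fam hD x y L) kr103 .y (.dn .x (.k 0))
    [(10, .dn (.add (.sub .N .t) (.k 2)) (.sub .N .t)), (4, .dn (.add (.sub (.mul 2 .N) (.mul 2
    .t)) (.k 3)) (.add (.sub .N .t) (.k 3))), (0, .pt .N), (1, .dn (.sub (.sub (.sub (.add (.add .t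
    .y) .L) .N) .x) (.k 7)) .y)]
    [.f 128, .f 8650880, .f 154747319547468086472016006, .f 128, .f 128, .f 9240704, .f 128, .f
    154744958364226651649409158, .f 128, .f 128, .f 128, .f 128, .f 8716416, .f 9240704, .f
    9240704, .f 36029359668199558, .f 128, .f 128, .f 128, .f 128, .f 128, .f 8716416, .f 9371776,
    .f 128, .f 9240704, .f 154744958364226651649409158, .f 128, .f 128, .f 9240768, .f 9240768, .f
    54043753882779782, .f 54043758177681542, .f 128, .f 128, .f 36029359668199558, .f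
    154744958364226651649409158, .f 162000874465156394096197775, .f 36029918013948164, .f 8585344,
    .f 8781952, .f 2361256706962106876035, .f 8781952, .f 2398112758950499975299, .f
    2398112758950499975299, .f 558354137219, .f 558354137219, .s 7 (.f 12648576) (.f 8454272), .s 8
    (.f 12648576) (.f 8454272), .f 128, .f 128, .f 8781953, .f 8519808, .f 36029368258265218, .f
    36592296745304196, .f 128, .f 128, .f 128, .f 128]
    (by decide +kernel)

theorem rT103 {N t x y L : ℤ} (hD : D N t)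
    (c0 : 2 * N + 4 ≤ 2 * t + y)
    (c1 : N + x + 7 ≤ t + L)
    (c2 : (0 : ℤ) ≤ x)
    (c3 : t + x + 1 ≤ N)
    (c4 : t + y + L ≤ 2 * N + x + 6)
    (c5 : y + L ≠ N + x + 6)
    (c6 : y + L ≠ N + x + 7)
    (c7 : 2 * t + y + L ≠ 2 * N + x + 7)
    (c8 : 2 * t + y + L ≠ 2 * N + x + 8)
    (c9 : 3 * t + y + L ≠ 3 * N + x + 9)
    (c10 : 3 * t + y + L ≠ 3 * N + x + 10) :
    P (A N t) N x y L := by
  exact qr103 hD ⟨c0, c1, c2, c3, c4, c5, c6, c7, c8, c9, c10, trivial⟩

/-- hypotheses -/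
noncomputable def kr105 : List Fk.C :=
  [.le (.add (.mul 2 .N) (.k 3)) (.add (.mul 2 .t) .y), .le (.add (.add .x .y) (.k 3)) .L, .le (.k
  0) .x, .le .L (.add (.add .t .x) (.k 2)), .le (.add (.add .t .x) (.k 1)) .N, .ne .L (.add (.add
  .x .y) (.k 3)), .ne .L (.add (.add .x .y) (.k 4)), .ne (.add (.add (.add (.mul 2 .t) .x) .y) (.k
  3)) (.add .N .L), .ne (.add (.add (.add (.mul 2 .t) .x) .y) (.k 2)) (.add .N .L), .ne (.add (.add
  (.add (.mul 3 .t) .x) .y) (.k 1)) (.add (.mul 2 .N) .L), .ne (.add (.add (.mul 3 .t) .x) .y)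
  (.add (.mul 2 .N) .L)]

theorem qr105 {N t x y L : ℤ} (hD : D N t) : Fk.All ⟨N, t, x, y, L⟩ kr105 → P (A N t) N x y L :=
  Fk.route (fam hD x y L) kr105 .y (.dn .x (.k 0))
    [(3, .dn (.sub .N (.k 1)) (.add .t (.k 1))), (0, .pt .N), (1, .up (.add (.sub (.add (.add .t
    .x) .y) .L) (.k 3)) .t), (9, .dn (.add (.sub (.mul 2 .N) (.mul 2 .t)) (.k 2)) (.sub .N .t)),
    (4, .up (.add (.sub (.mul 2 .N) (.mul 2 .t)) (.k 3)) .y)]
    [.f 128, .f 8650880, .f 154744921543922547930824837, .f 128, .f 128, .f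
    154744921470739053986251014, .f 9240704, .f 128, .f 128, .f 128, .f 128, .f 128, .f
    315534416735910195573686415, .f 9371776, .f 128, .f 154744921470739053986251014, .f 9240704, .f
    160789550568248700150349958, .f 160789550568248700150349958, .f 37436734551621762, .f
    37436734551621762, .f 128, .f 128, .f 128, .f 128, .f 128, .f 160789550641996226380300559, .f
    2453452991725687799938, .f 8585344, .f 9240704, .f 2453452991725687799938, .f
    36029359668461700, .f 2453453554125877018752, .f 2453452991175923597442, .f 571239039106, .f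
    571239039106, .s 8 (.f 8454272) (.f 12648576), .s 7 (.f 8454272) (.f 12648576), .f 128, .f 128,
    .f 9240705, .f 129, .f 2453452991725679411330, .f 9240704, .f 9240704, .f
    160789550568248700150349958, .f 128, .f 128, .f 128, .f 128, .f 571239170177, .f
    160789550568530175127060614, .f 37436734551752833, .f 8781952, .f 1125298471040, .f 8519808, .f
    2361220115232305971333, .f 128, .f 128, .f 128, .f 128, .f 128, .f 8716417, .f
    2453453835579378892934, .f 571239235713, .f 549764464902, .f 128, .f 128, .f 128, .f 128]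
    (by decide +kernel)

theorem rT105 {N t x y L : ℤ} (hD : D N t)
    (c0 : 2 * N + 3 ≤ 2 * t + y)
    (c1 : x + y + 3 ≤ L)
    (c2 : (0 : ℤ) ≤ x)
    (c3 : L ≤ t + x + 2)
    (c4 : t + x + 1 ≤ N)
    (c5 : L ≠ x + y + 3)
    (c6 : L ≠ x + y + 4)
    (c7 : 2 * t + x + y + 3 ≠ N + L)
    (c8 : 2 * t + x + y + 2 ≠ N + L)
    (c9 : 3 * t + x + y + 1 ≠ 2 * N + L)
    (c10 : 3 * t + x + y ≠ 2 * N + L) :
    P (A N t) N x y L := by
  exact qr105 hD ⟨c0, c1, c2, c3, c4, c5, c6, c7, c8, c9, c10, trivial⟩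

/-- hypotheses -/
noncomputable def kr107 : List Fk.C :=
  [.le (.add (.add .N .t) (.k 2)) (.add (.add .x .y) .L), .le .t .y, .le (.add .t .x) (.add .N (.k
  1)), .le (.add .y (.k 1)) .N, .le (.add .y .L) (.add (.add .N .t) (.k 1)), .ne (.add (.add .x .y)
  .L) (.add (.add .N (.mul 2 .t)) (.k 1)), .ne (.add (.add .x .y) .L) (.add (.add .N (.mul 2 .t))
  (.k 2)), .ne (.add (.add .x .y) .L) (.add (.mul 2 .N) (.k 2)), .ne (.add (.add .x .y) .L) (.add
  (.mul 2 .N) (.k 3)), .ne (.add (.add (.add .t .x) .y) .L) (.add (.mul 3 .N) (.k 4)), .ne (.add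
  (.add (.add .t .x) .y) .L) (.add (.mul 3 .N) (.k 5))]

theorem qr107 {N t x y L : ℤ} (hD : D N t) : Fk.All ⟨N, t, x, y, L⟩ kr107 → P (A N t) N x y L :=
  Fk.route (fam hD x y L) kr107 .y (.up .x (.add (.sub .N .t) (.k 1)))
    [(6, .dn (.sub .t (.k 1)) (.add (.sub .N .t) (.k 2))), (0, .pt .N), (1, .dn (.sub (.sub (.sub
    (.add (.add .x .y) .L) .N) .t) (.k 2)) (.k 0)), (3, .dn (.sub .N (.k 1)) .y)]
    [.f 575534006402, .f 8650880, .f 36029406929682821, .f 128, .f 128, .f 9240704, .f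
    36029406921294085, .f 9240704, .f 128, .f 128, .f 128, .f 128, .f 128, .f 9371776, .f 128, .f
    9240704, .f 36029406929682821, .f 128, .f 128, .f 9240768, .f 9240768, .f 824643027213, .f
    824643027213, .f 128, .f 128, .f 9240704, .f 108931365752144261, .f 128, .f 8519808, .f
    2471899735241060581518, .f 8519808, .f 2471899735241060581518, .s 9 (.f 12648576) (.f 8454272),
    .f 575534268608, .f 2471901142615926702272, .f 2471901142615926702272, .f
    161998679303174297743458565, .f 161998679303174297743458565, .f 128, .f 128, .f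
    9555558673472857964943, .f 575534268545, .f 8781953, .f 36873771714216333, .f 8716416, .f 128,
    .f 128, .f 128, .f 128, .f 128, .f 316743287178700319768838287, .f 129, .f 8585344, .f
    108931365759942798, .f 128, .f 128, .f 128, .f 128]
    (by decide +kernel)

theorem rT107 {N t x y L : ℤ} (hD : D N t)
    (c0 : N + t + 2 ≤ x + y + L)
    (c1 : t ≤ y)
    (c2 : t + x ≤ N + 1)
    (c3 : y + 1 ≤ N)
    (c4 : y + L ≤ N + t + 1)
    (c5 : x + y + L ≠ N + 2 * t + 1)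
    (c6 : x + y + L ≠ N + 2 * t + 2)
    (c7 : x + y + L ≠ 2 * N + 2)
    (c8 : x + y + L ≠ 2 * N + 3)
    (c9 : t + x + y + L ≠ 3 * N + 4)
    (c10 : t + x + y + L ≠ 3 * N + 5) :
    P (A N t) N x y L := by
  exact qr107 hD ⟨c0, c1, c2, c3, c4, c5, c6, c7, c8, c9, c10, trivial⟩

/-- hypotheses -/
noncomputable def kr109 : List Fk.C :=
  [.le (.add (.add .N .x) (.k 5)) (.add (.add .t .y) .L), .le (.add .x (.k 1)) .y, .le (.k 0) .x,
  .le (.add .y .L) (.add (.add .t .x) (.k 2)), .le (.add .t .y) (.add .N (.k 1)), .ne (.add .y .L)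
  (.add (.add .t .x) (.k 3)), .ne (.add .y .L) (.add (.add .t .x) (.k 4)), .ne (.add (.add (.mul 2
  .t) .x) (.k 2)) (.add (.add .N .y) .L), .ne (.add (.add (.mul 2 .t) .x) (.k 1)) (.add (.add .N
  .y) .L), .ne (.add (.add .t .y) .L) (.add (.add .N .x) (.k 4)), .ne (.add (.add .t .y) .L) (.add
  (.add .N .x) (.k 5))]

theorem qr109 {N t x y L : ℤ} (hD : D N t) : Fk.All ⟨N, t, x, y, L⟩ kr109 → P (A N t) N x y L :=
  Fk.route (fam hD x y L) kr109 .y (.dn .x (.k 0))
    [(0, .pt .N), (1, .up (.add (.sub (.sub (.add .N .x) .y) .L) (.k 4)) (.sub .t (.k 1))), (7, .dn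
    (.add (.sub .N .t) (.k 1)) .y)]
    [.f 128, .f 8650880, .f 154747338030522432177176709, .f 128, .f 128, .f 9371776, .f 128, .f
    128, .f 9371776, .f 9240768, .f 9240768, .f 54044320826851588, .f 54044320826851588, .f
    232116229266588467516801157, .f 160789605926495319788486787, .f 128, .f 128, .f
    160791967128596110626652303, .f 2416561191852594954373, .f 8519808, .f 9240704, .f
    2416561191852594954373, .f 2361220959644351201410, .f 8716416, .f 8716416, .s 9 (.f 12648576)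
    (.f 8454272), .s 10 (.f 12648576) (.f 8454272), .s 12 (.f 8454272) (.f 12648576), .f 8519872,
    .f 128, .f 128, .f 9240705, .f 37436747436523651, .f 549764399236, .f 8781952, .f
    154744976811252200335605893, .f 128, .f 128, .f 128, .f 128, .f 8716417, .f
    160789495264326751017369731, .f 8585344, .f 128, .f 128, .f 128, .f 128]
    (by decide +kernel)

theorem rT109 {N t x y L : ℤ} (hD : D N t)
    (c0 : N + x + 5 ≤ t + y + L)
    (c1 : x + 1 ≤ y)
    (c2 : (0 : ℤ) ≤ x)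
    (c3 : y + L ≤ t + x + 2)
    (c4 : t + y ≤ N + 1)
    (c5 : y + L ≠ t + x + 3)
    (c6 : y + L ≠ t + x + 4)
    (c7 : 2 * t + x + 2 ≠ N + y + L)
    (c8 : 2 * t + x + 1 ≠ N + y + L)
    (c9 : t + y + L ≠ N + x + 4)
    (c10 : t + y + L ≠ N + x + 5) :
    P (A N t) N x y L := by
  exact qr109 hD ⟨c0, c1, c2, c3, c4, c5, c6, c7, c8, c9, c10, trivial⟩

end Pool.Agent.Work.MP_193ce1_co.Rim.Kk
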