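import Pool.Agent.Work.MP_193ce1_co.Rim.KkD
import Pool.Agent.Work.MP_193ce1_co.Rim.DdH
import Pool.Agent.Work.MP_193ce1_co.Rim.FqH
import Pool.Agent.Work.MP_193ce1_co.Rim.KkR
import Pool.Agent.Work.MP_193ce1_co.Rim.KkH

-- merged part: Pool.Agent.Work.MP_193ce1_co.Rim.WpH
section
set_option linter.unusedVariables false

namespace Pool.Agent.Work.MP_193ce1_co.Rim.Wp

/-- hypotheses -/
noncomputable def kh0 : List Fk.C :=
  [.le (.k 2) .L, .le (.k 0) .x, .le (.add .x .L) (.add .N (.k 1)), .ne (.add .x .L) (.add .t (.k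
  2)), .ne (.add (.add .t .x) .L) (.add .N (.k 2))]

theorem qh0 {N t x L : ℤ} (hD : D N t) : Fk.All ⟨N, t, x, 0, L⟩ kh0 → P (A N t) N x N L :=
  Fk.route (fam hD x 0 L) kh0 .N (.up .x (.sub (.add .x .L) (.k 2)))
    [(0, .pt .N)]
    [.f 8585344, .f 8519808, .f 8650880, .f 128, .f 128, .f 8978560, .f 128, .f 549764333699, .f
    8650880, .s 6 (.f 12648576) (.f 8454272), .s 5 (.f 12648576) (.f 8454272), .f 128, .f 128, .f
    8650880, .f 128, .f 128, .f 128, .f 128]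
    (by decide +kernel)

theorem hT0 {N t x L : ℤ} (hD : D N t)
    (c0 : (2 : ℤ) ≤ L)
    (c1 : (0 : ℤ) ≤ x)
    (c2 : x + L ≤ N + 1)
    (c3 : x + L ≠ t + 2)
    (c4 : t + x + L ≠ N + 2) :
    P (A N t) N x N L := by
  exact qh0 hD ⟨c0, c1, c2, c3, c4, trivial⟩

/-- hypotheses -/
noncomputable def kh1 : List Fk.C :=
  [.le (.add .x (.k 3)) .L, .le (.k 0) .x, .le .L (.add (.add .t .x) (.k 1)), .le (.add .t .x) .N,
  .ne .L (.add .x (.k 2)), .ne (.add (.add (.mul 2 .t) .x) (.k 2)) (.add .N .L)]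

theorem qh1 {N t x L : ℤ} (hD : D N t) : Fk.All ⟨N, t, x, 0, L⟩ kh1 → P (A N t) N x N L :=
  Fk.route (fam hD x 0 L) kh1 .N (.dn .x (.k 0))
    [(4, .up (.add (.sub .N .t) (.k 1)) (.sub (.sub (.sub (.add .N .L) .t) .x) (.k 2))), (0, .pt
    .N)]
    [.f 128, .f 8585344, .f 36029355373363333, .f 128, .f 128, .f 8978560, .f 8519808, .f 8650880,
    .f 128, .f 128, .f 128, .f 128, .f 8716416, .f 9044096, .f 128, .f 36029355373297797, .f
    8650880, .f 8519808, .s 7 (.f 8454272) (.f 12648576), .f 128, .f 128, .f 8650880, .f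
    37436730256654468, .f 128, .f 128, .f 128, .f 128]
    (by decide +kernel)

theorem hT1 {N t x L : ℤ} (hD : D N t)
    (c0 : x + 3 ≤ L)
    (c1 : (0 : ℤ) ≤ x)
    (c2 : L ≤ t + x + 1)
    (c3 : t + x ≤ N)
    (c4 : L ≠ x + 2)
    (c5 : 2 * t + x + 2 ≠ N + L) :
    P (A N t) N x N L := by
  exact qh1 hD ⟨c0, c1, c2, c3, c4, c5, trivial⟩

/-- hypotheses -/
noncomputable def kh2 : List Fk.C :=
  [.le (.add .x (.k 3)) .L, .le (.k 0) .x, .le (.add .t .L) (.add .N (.k 3)), .ne .L (.add .x (.k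
  4)), .ne (.add (.mul 2 .t) .L) (.add (.add .N .x) (.k 4))]

theorem qh2 {N t x L : ℤ} (hD : D N t) : Fk.All ⟨N, t, x, 0, L⟩ kh2 → P (A N t) N x N L :=
  Fk.route (fam hD x 0 L) kh2 .N (.dn .x (.k 0))
    [(4, .dn (.add (.sub .N .t) (.k 1)) (.add (.sub (.sub (.add .N .x) .t) .L) (.k 4))), (0, .pt
    .N)]
    [.f 128, .f 8585344, .f 2361255862541463519492, .f 128, .f 128, .f 566944268416, .f 8519808, .f
    2361219833744444555396, .f 128, .f 128, .f 128, .f 128, .f 8650880, .f 8978560, .f 128, .f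
    566944268416, .f 2361255862541463519364, .s 5 (.f 8454272) (.f 12648576), .f 824642240647, .f
    128, .f 128, .f 2490382508107476566148, .f 4796226080807995244681, .f 128, .f 128, .f 128, .f
    128]
    (by decide +kernel)

theorem hT2 {N t x L : ℤ} (hD : D N t)
    (c0 : x + 3 ≤ L)
    (c1 : (0 : ℤ) ≤ x)
    (c2 : t + L ≤ N + 3)
    (c3 : L ≠ x + 4)
    (c4 : 2 * t + L ≠ N + x + 4) :
    P (A N t) N x N L := by
  exact qh2 hD ⟨c0, c1, c2, c3, c4, trivial⟩

/-- hypotheses -/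
noncomputable def kh3 : List Fk.C :=
  [.le (.add .x (.k 3)) .L, .le (.k 0) .x, .le .L (.add .N (.k 1)), .ne .L (.add (.add .t .x) (.k
  2)), .ne (.add .t .L) (.add (.add .N .x) (.k 2))]

theorem qh3 {N t x L : ℤ} (hD : D N t) : Fk.All ⟨N, t, x, 0, L⟩ kh3 → P (A N t) N x N L :=
  Fk.route (fam hD x 0 L) kh3 .N (.dn .x (.k 0))
    [(3, .dn (.sub .N (.k 1)) (.add (.sub (.add .N .x) .L) (.k 2))), (0, .pt .N)]
    [.f 128, .f 8585344, .f 549764333700, .f 128, .f 128, .f 549764399236, .f 8519808, .f 128, .f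
    128, .f 128, .f 128, .f 128, .f 8650880, .f 8978560, .f 128, .f 549764399236, .f 8519808, .s 5
    (.f 8454272) (.f 12648576), .s 6 (.f 8454272) (.f 12648576), .f 128, .f 128, .f 128, .f
    566944202880, .f 128, .f 128, .f 128, .f 128]
    (by decide +kernel)

theorem hT3 {N t x L : ℤ} (hD : D N t)
    (c0 : x + 3 ≤ L)
    (c1 : (0 : ℤ) ≤ x)
    (c2 : L ≤ N + 1)
    (c3 : L ≠ t + x + 2)
    (c4 : t + L ≠ N + x + 2) :
    P (A N t) N x N L := by
  exact qh3 hD ⟨c0, c1, c2, c3, c4, trivial⟩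

/-- hypotheses -/
noncomputable def kh4 : List Fk.C :=
  [.le (.k 2) .L, .le .L (.add .x (.k 2)), .le (.add .x (.k 1)) .N, .ne (.add .x (.k 2)) (.add .t
  .L), .ne (.add (.add .t .x) (.k 2)) (.add .N .L)]

theorem qh4 {N t x L : ℤ} (hD : D N t) : Fk.All ⟨N, t, x, 0, L⟩ kh4 → P (A N t) N x N L :=
  Fk.route (fam hD x 0 L) kh4 .N (.dn .x (.add (.sub .x .L) (.k 2)))
    [(0, .pt .N)]
    [.f 8585344, .f 8519808, .f 8650880, .f 128, .f 128, .f 8978560, .f 128, .f 8585344, .f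
    549764333700, .s 6 (.f 12648576) (.f 8454272), .s 5 (.f 12648576) (.f 8454272), .f 128, .f 128,
    .f 8650880, .f 128, .f 128, .f 128, .f 128]
    (by decide +kernel)

theorem hT4 {N t x L : ℤ} (hD : D N t)
    (c0 : (2 : ℤ) ≤ L)
    (c1 : L ≤ x + 2)
    (c2 : x + 1 ≤ N)
    (c3 : x + 2 ≠ t + L)
    (c4 : t + x + 2 ≠ N + L) :
    P (A N t) N x N L := by
  exact qh4 hD ⟨c0, c1, c2, c3, c4, trivial⟩

/-- hypotheses -/
noncomputable def kh5 : List Fk.C :=
  [.le (.add .N (.k 5)) (.add (.add .t .x) .L), .le (.k 1) .x, .le (.add .t .x) (.add .N (.k 1)),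
  .le (.add .x .L) (.add .N (.k 2)), .ne (.add .x .L) (.add .N (.k 4)), .ne (.add (.add (.mul 2 .t)
  .x) .L) (.add (.mul 2 .N) (.k 4))]

theorem qh5 {N t x L : ℤ} (hD : D N t) : Fk.All ⟨N, t, x, 0, L⟩ kh5 → P (A N t) N x N L :=
  Fk.route (fam hD x 0 L) kh5 .N (.up .x (.add (.sub .N .t) (.k 1)))
    [(5, .pt (.k 0)), (3, .dn (.sub .N (.k 1)) (.add (.sub (.sub (.sub (.mul 2 .N) .t) .x) .L) (.k
    4))), (0, .pt .N)]
    [.f 8585344, .f 8650880, .f 549764333701, .f 128, .f 128, .f 128, .f 9044096, .f 128, .f 128,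
    .f 128, .f 128, .f 8585345, .f 36029363963232389, .f 8519808, .f 128, .f 128, .f 128, .f 128,
    .f 128, .f 37436738846785664, .f 8716416, .f 9044096, .f 128, .f 36029363963232389, .f 8519808,
    .f 8716416, .s 7 (.f 8454272) (.f 12648576), .f 128, .f 128, .f 128, .f 9044096, .f
    571239039106, .f 128, .f 128, .f 128, .f 128]
    (by decide +kernel)

theorem hT5 {N t x L : ℤ} (hD : D N t)
    (c0 : N + 5 ≤ t + x + L)
    (c1 : (1 : ℤ) ≤ x)
    (c2 : t + x ≤ N + 1)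
    (c3 : x + L ≤ N + 2)
    (c4 : x + L ≠ N + 4)
    (c5 : 2 * t + x + L ≠ 2 * N + 4) :
    P (A N t) N x N L := by
  exact qh5 hD ⟨c0, c1, c2, c3, c4, c5, trivial⟩

/-- hypotheses -/
noncomputable def kh6 : List Fk.C :=
  [.le (.add .N (.k 1)) (.add .t .x), .le .L (.add .t (.k 1)), .le (.add (.add .t .x) (.k 3)) (.add
  .N .L), .ne .L (.add .x (.k 2)), .ne (.add (.add (.mul 2 .t) .x) (.k 2)) (.add .N .L)]

theorem qh6 {N t x L : ℤ} (hD : D N t) : Fk.All ⟨N, t, x, 0, L⟩ kh6 → P (A N t) N x N L :=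
  Fk.route (fam hD x 0 L) kh6 .N (.dn .x (.add (.sub .N .t) (.k 1)))
    [(5, .pt (.k 0)), (3, .dn (.sub .N (.k 1)) (.add (.sub (.add .t .x) .L) (.k 2))), (0, .pt .N)]
    [.f 8913024, .f 8519808, .f 549764464771, .f 128, .f 128, .f 128, .f 8978560, .f 128, .f 128,
    .f 128, .f 128, .f 8913025, .f 36873771713822850, .f 8650880, .f 128, .f 128, .f 128, .f 128,
    .f 128, .f 36873771713822850, .f 8585344, .f 8978560, .f 128, .f 36873771713822850, .f 8650880,
    .f 562649235584, .s 5 (.f 8454272) (.f 12648576), .f 128, .f 128, .f 128, .f 8978560, .f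
    562649104516, .f 128, .f 128, .f 128, .f 128]
    (by decide +kernel)

theorem hT6 {N t x L : ℤ} (hD : D N t)
    (c0 : N + 1 ≤ t + x)
    (c1 : L ≤ t + 1)
    (c2 : t + x + 3 ≤ N + L)
    (c3 : L ≠ x + 2)
    (c4 : 2 * t + x + 2 ≠ N + L) :
    P (A N t) N x N L := by
  exact qh6 hD ⟨c0, c1, c2, c3, c4, trivial⟩

/-- hypotheses -/
noncomputable def kh7 : List Fk.C :=
  [.le (.add .N (.k 1)) (.add .t .x), .le .L (.add .x (.k 2)), .le (.add (.add .t .x) (.k 2)) (.add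
  .N .L), .le (.add .x (.k 1)) .N, .ne .L (.add .x (.k 2)), .ne (.add (.add (.mul 2 .t) .x) (.k 2))
  (.add .N .L)]

theorem qh7 {N t x L : ℤ} (hD : D N t) : Fk.All ⟨N, t, x, 0, L⟩ kh7 → P (A N t) N x N L :=
  Fk.route (fam hD x 0 L) kh7 .N (.dn .x (.add (.sub .N .t) (.k 1)))
    [(5, .up (.k 0) (.sub (.sub (.sub (.add .N .L) .t) .x) (.k 2))), (0, .pt .N)]
    [.f 8978560, .f 8519808, .f 8716416, .f 128, .f 128, .f 128, .f 8650880, .f 36029359668199557,
    .f 128, .f 128, .f 128, .f 128, .f 8585345, .f 9044096, .f 128, .f 8650880, .f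
    36029359668199557, .s 6 (.f 12648576) (.f 8454272), .f 584124137664, .f 128, .f 128, .f
    37436721666916482, .f 8716416, .f 128, .f 128, .f 128, .f 128]
    (by decide +kernel)

theorem hT7 {N t x L : ℤ} (hD : D N t)
    (c0 : N + 1 ≤ t + x)
    (c1 : L ≤ x + 2)
    (c2 : t + x + 2 ≤ N + L)
    (c3 : x + 1 ≤ N)
    (c4 : L ≠ x + 2)
    (c5 : 2 * t + x + 2 ≠ N + L) :
    P (A N t) N x N L := by
  exact qh7 hD ⟨c0, c1, c2, c3, c4, c5, trivial⟩

/-- hypotheses -/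
noncomputable def kh8 : List Fk.C :=
  [.le (.add .N (.k 2)) (.add .x .L), .le (.add .x (.k 1)) .N, .le .L (.add .N (.k 1)), .ne (.add
  .x .L) (.add (.add .N .t) (.k 2)), .ne (.add (.add .t .x) .L) (.add (.mul 2 .N) (.k 2))]

theorem qh8 {N t x L : ℤ} (hD : D N t) : Fk.All ⟨N, t, x, 0, L⟩ kh8 → P (A N t) N x N L :=
  Fk.route (fam hD x 0 L) kh8 .N (.up .x (.sub .N (.k 1)))
    [(2, .up (.k 0) (.sub (.sub (.add .x .L) .N) (.k 2))), (0, .pt .N)]
    [.f 549764333700, .f 8585344, .f 128, .f 128, .f 128, .f 128, .f 8519808, .f 549764399236, .f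
    128, .f 128, .f 128, .f 128, .f 8650881, .f 8978560, .f 128, .f 8519808, .f 549764399236, .s 6
    (.f 12648576) (.f 8454272), .s 5 (.f 12648576) (.f 8454272), .f 128, .f 128, .f 566944268416,
    .f 128, .f 128, .f 128, .f 128, .f 128]
    (by decide +kernel)

theorem hT8 {N t x L : ℤ} (hD : D N t)
    (c0 : N + 2 ≤ x + L)
    (c1 : x + 1 ≤ N)
    (c2 : L ≤ N + 1)
    (c3 : x + L ≠ N + t + 2)
    (c4 : t + x + L ≠ 2 * N + 2) :
    P (A N t) N x N L := by
  exact qh8 hD ⟨c0, c1, c2, c3, c4, trivial⟩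

/-- hypotheses -/
noncomputable def kh9 : List Fk.C :=
  [.le (.add .N (.k 3)) (.add .x .L), .le (.add .N (.k 2)) (.add .t .x), .le (.add .x (.k 1)) .N,
  .le (.add (.add .t .x) .L) (.add (.mul 2 .N) (.k 3)), .ne (.add .x .L) (.add .N (.k 4)), .ne
  (.add (.add (.mul 2 .t) .x) .L) (.add (.mul 2 .N) (.k 4))]

theorem qh9 {N t x L : ℤ} (hD : D N t) : Fk.All ⟨N, t, x, 0, L⟩ kh9 → P (A N t) N x N L :=
  Fk.route (fam hD x 0 L) kh9 .N (.up .x (.sub .N (.k 1)))
    [(2, .pt (.k 0)), (4, .dn (.add (.sub .N .t) (.k 1)) (.add (.sub (.sub (.sub (.mul 2 .N) .t)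
    .x) .L) (.k 4))), (0, .pt .N)]
    [.f 36029355373297797, .f 8650880, .f 128, .f 128, .f 128, .f 128, .f 9044096, .f 128, .f 128,
    .f 128, .f 128, .f 37436725961818243, .f 8716416, .f 8519808, .f 549764464771, .f 128, .f 128,
    .f 128, .f 128, .f 8716416, .f 8585345, .f 9044096, .f 128, .f 8716416, .f 36029363963166851,
    .s 6 (.f 8454272) (.f 12648576), .f 584124072128, .f 128, .f 128, .f 562649366656, .f 9044096,
    .f 128, .f 128, .f 128, .f 128, .f 128]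
    (by decide +kernel)

theorem hT9 {N t x L : ℤ} (hD : D N t)
    (c0 : N + 3 ≤ x + L)
    (c1 : N + 2 ≤ t + x)
    (c2 : x + 1 ≤ N)
    (c3 : t + x + L ≤ 2 * N + 3)
    (c4 : x + L ≠ N + 4)
    (c5 : 2 * t + x + L ≠ 2 * N + 4) :
    P (A N t) N x N L := by
  exact qh9 hD ⟨c0, c1, c2, c3, c4, c5, trivial⟩

/-- hypotheses -/
noncomputable def kh10 : List Fk.C :=
  [.le (.add .N (.k 3)) (.add .x .L), .le .L (.add .t (.k 1)), .le (.add .x (.k 1)) .N, .ne (.add
  .x .L) (.add (.mul 2 .t) (.k 2)), .ne (.add .x .L) (.add .N (.k 2))]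

theorem qh10 {N t x L : ℤ} (hD : D N t) : Fk.All ⟨N, t, x, 0, L⟩ kh10 → P (A N t) N x N L :=
  Fk.route (fam hD x 0 L) kh10 .N (.up .x (.sub .N (.k 1)))
    [(2, .pt (.k 0)), (4, .up (.add (.sub .N .t) (.k 1)) (.sub (.sub (.add .x .L) .t) (.k 2))), (0,
    .pt .N)]
    [.f 36029355373297800, .f 8650880, .f 128, .f 128, .f 128, .f 128, .f 8978560, .f 128, .f 128,
    .f 128, .f 128, .f 38281150891950211, .f 8913024, .f 8519808, .f 549764464771, .f 128, .f 128,
    .f 128, .f 128, .f 8913024, .f 8585345, .f 8978560, .f 128, .f 549764333704, .f 549764464771,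
    .f 8519808, .s 5 (.f 12648576) (.f 8454272), .f 128, .f 128, .f 562649366656, .f 8978560, .f
    128, .f 128, .f 128, .f 128, .f 128]
    (by decide +kernel)

theorem hT10 {N t x L : ℤ} (hD : D N t)
    (c0 : N + 3 ≤ x + L)
    (c1 : L ≤ t + 1)
    (c2 : x + 1 ≤ N)
    (c3 : x + L ≠ 2 * t + 2)
    (c4 : x + L ≠ N + 2) :
    P (A N t) N x N L := by
  exact qh10 hD ⟨c0, c1, c2, c3, c4, trivial⟩


/-- table of hypotheses -/
noncomputable def tabh : List (List Fk.C) :=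
  [kh0, kh1, kh2, kh3, kh4, kh5, kh6, kh7, kh8, kh9, kh10]

theorem tbh {N t x L : ℤ} (hD : D N t) : Fk.Tab ⟨N, t, x, 0, L⟩ (P (A N t) N x N L) tabh :=
  ⟨qh0 hD, qh1 hD, qh2 hD, qh3 hD, qh4 hD, qh5 hD, qh6 hD, qh7 hD, qh8 hD, qh9 hD, qh10 hD,
  trivial⟩

theorem hn0 {N t x L : ℤ} (hD : D N t)
    (h0 : (0 : ℤ) ≤ x)
    (h1 : x + 1 ≤ N)
    (h2 : (5 : ℤ) ≤ L)
    (h3 : L ≤ N)
    (h4 : L ≠ t + 2) :
    P (A N t) N x N L := by
  exact Fk.tree (fam hD x 0 L) (tbh hD)
    [.le (.k 0) .x, .le (.add .x (.k 1)) .N, .le (.k 5) .L, .le .L .N, .ne .L (.add .t (.k 2))]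
    (.nd (.add .x .L) (.add .N (.k 1)) (.nd (.add .t (.k 3)) (.add .x .L) (.lf 0 [.f 8781952, .f
    8650880, .f 8585344, .f 8519808, .f 558354137225]) (.nd (.add .x .L) (.add .t (.k 1)) (.nd
    (.add .N (.k 3)) (.add (.add .t .x) .L) (.lf 0 [.f 8913024, .f 8781952, .f 8716416, .f 8585408,
    .f 8519808]) (.nd (.add (.add .t .x) .L) (.add .N (.k 1)) (.lf 0 [.f 8978560, .f 8847488, .f
    8781952, .f 8650944, .f 8519872]) (.nd (.add .x (.k 3)) .L (.nd (.add .N .L) (.add (.add (.mul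
    2 .t) .x) (.k 1)) (.lf 1 [.f 8585344, .f 8978560, .f 2361220115794946556037, .f
    37436734552211584, .f 8585344, .f 8519808]) (.nd (.add .x (.k 5)) .L (.lf 2 [.f 8519808, .f
    9044096, .f 575534661760, .f 8519808, .f 37436730257113216]) (.lf 3 [.f 8650880, .f 9044096, .f
    9240704, .f 579838017728, .f 2416598910607579676807]))) (.lf 4 [.f 9044096, .f 8519808, .f
    8978560, .f 824651153541, .f 566948266250])))) (.nd (.add .x (.k 3)) .L (.nd (.add (.add .N .x)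
    (.k 3)) (.add .t .L) (.lf 3 [.f 8585344, .f 8847488, .f 9044096, .s 11 (.f 828937404672) (.f
    575542395009), .f 8519808]) (.nd (.add .t .L) (.add (.add .N .x) (.k 1)) (.lf 3 [.f 8650880, .f
    8913024, .f 9109632, .f 605602971778, .f 8519872]) (.nd (.add .t .x) .N (.nd (.add (.add (.mul
    2 .t) .x) (.k 3)) (.add .N .L) (.lf 1 [.f 8781952, .f 9044096, .f 549765185669, .f 8585344, .f
    8781952, .f 8519872]) (.nd (.add (.mul 2 .N) (.k 5)) (.add (.add (.mul 2 .t) .x) .L) (.lf 1 [.f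
    8847488, .f 9109632, .f 2361219833757329195268, .f 8650880, .f 8847488, .f 36029355373494409])
    (.nd (.add (.add (.mul 2 .t) .x) .L) (.add (.mul 2 .N) (.k 3)) (.lf 5 [.f
    4796227207296313393536, .f 4722404764054897033351, .f 8716416, .f 9109632, .f 9109696, .f
    8519872]) (.lf 1 [.f 8913024, .f 9175168, .f 2361219833761624228101, .f 8716416, .f 8913024, .f
    36029355373559946])))) (.lf 6 [.f 8519808, .f 2361220678173669326983, .f 549772918916, .f
    8716416, .f 2361255862545758486661])))) (.nd (.add (.add .t .x) (.k 3)) (.add .N .L) (.lf 4 [.f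
    8978560, .f 8585344, .f 8913024, .f 571243233545, .f 8519872]) (.nd (.add .N .L) (.add (.add .t
    .x) (.k 1)) (.lf 4 [.f 9044096, .f 8650880, .f 8978560, .f 575538200842, .f 8519808]) (.lf 7
    [.f 562649759872, .f 8650880, .f 8519808, .f 8978560, .f 54043766767681671, .f
    2471938578783534317696])))))) (.nd (.add (.add .t .x) .L) (.add (.mul 2 .N) (.k 1)) (.lf 8 [.f
    8585344, .f 8716416, .f 8847488, .f 824642699394, .f 8519872]) (.nd (.add (.mul 2 .N) (.k 3))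
    (.add (.add .t .x) .L) (.nd (.add .x .L) (.add (.add .N .t) (.k 1)) (.lf 8 [.f 8716416, .f
    8847488, .f 8978560, .f 8519872, .f 8585344]) (.nd (.add (.add .N .t) (.k 3)) (.add .x .L) (.lf
    8 [.f 8781952, .f 8913024, .f 9044096, .f 8519808, .f 8650880]) (.nd .L (.add .x (.k 2)) (.lf 4
    [.f 9044096, .f 8519808, .f 8978560, .f 824642437385, .f 566948266249]) (.lf 3 [.f 8519808, .f
    8913024, .f 9109632, .f 824651219077, .f 566948266251])))) (.nd (.add .N (.k 5)) (.add .x .L)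
    (.lf 9 [.f 8519808, .f 549764464777, .f 8847488, .f 8585344, .f 8519808, .f 73184073774334080])
    (.lf 10 [.f 549764464780, .s 10 (.f 8454272) (.f 36873771713626250), .f 8847488, .f
    108649946613285124, .f 549764464780])))))
    (by decide +kernel) ⟨h0, h1, h2, h3, h4, trivial⟩



variable {N t : ℤ} {f : ℤ → ℤ}

theorem thread (c d : ℤ) (h : A N t c d) (hN : c ≠ N)
    (l0 : c ≠ (0 : ℤ))
    (l1 : c ≠ N - 1)
    : d = c + 1 ∨ d = c - 1 ∨ d = N ∨ d = 0 := by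
  rcases h.2 with (⟨a1, a2, a3⟩ | ⟨a1, a2⟩ | ⟨a1, a2⟩ | ⟨a1, a2⟩) | (⟨a1, a2, a3⟩ | ⟨a1, a2⟩ | ⟨a1, a2⟩ | ⟨a1, a2⟩) <;> omega

theorem nb (h : W (A N t) 0 N (t + 1) f) (hD : D N t) (i : ℤ) (h0 : 0 ≤ i) (h1 : i < t) :
    (f (i + 1) = f i + 1 ∧ f i + 1 < N) ∨
    (f (i + 1) = f i - 1 ∧ 1 ≤ f i) ∨
    (f i = N - 1 ∧ f (i + 1) = (0 : ℤ)) ∨
    (f i = (0 : ℤ) ∧ f (i + 1) = N - 1) ∨
    (f i = (0 : ℤ) ∧ f (i + 1) = N - t + 1) ∨
    (f i = N - t + 1 ∧ f (i + 1) = (0 : ℤ)) := by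
  have e1 : f i ≠ N := fun e => by
    have := h.inj i (t + 1) (by omega) (by omega) (by omega) (by omega) (by rw [h.hT]; exact e)
    omega
  have e2 : f (i + 1) ≠ N := fun e => by
    have := h.inj (i + 1) (t + 1) (by omega) (by omega) (by omega) (by omega) (by rw [h.hT]; exact e)
    omega
  rcases (h.adj i h0 (by omega)).2 with (⟨a1, a2, a3⟩ | ⟨a1, a2⟩ | ⟨a1, a2⟩ | ⟨a1, a2⟩) | (⟨a1, a2, a3⟩ | ⟨a1, a2⟩ | ⟨a1, a2⟩ | ⟨a1, a2⟩)
  · exact (Or.inl ⟨by omega, by omega⟩)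
  · exact absurd a1 e1
  · exact (Or.inr (Or.inr (Or.inl ⟨a1, a2⟩)))
  · exact (Or.inr (Or.inr (Or.inr (Or.inr (Or.inl ⟨a1, a2⟩)))))
  · exact (Or.inr (Or.inl ⟨by omega, by omega⟩))
  · exact absurd a1 e2
  · exact (Or.inr (Or.inr (Or.inr (Or.inl ⟨a2, a1⟩))))
  · exact (Or.inr (Or.inr (Or.inr (Or.inr (Or.inr ⟨a2, a1⟩)))))

theorem fin (h : W (A N t) 0 N (t + 1) f) (hD : D N t) {c : ℤ} (hv : V f t c)
    (e : c = N - t ∨ c = t) : False := by
  have h1 := h.adj t (by unfold D at hD; omega) (by omega)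
  rw [h.hT, show f t = c from hv] at h1
  unfold D at hD
  rcases h1.2 with (⟨a1, a2, a3⟩ | ⟨a1, a2⟩ | ⟨a1, a2⟩ | ⟨a1, a2⟩) | (⟨a1, a2, a3⟩ | ⟨a1, a2⟩ | ⟨a1, a2⟩ | ⟨a1, a2⟩) <;> omega

theorem nb0 (h : W (A N t) 0 N (t + 1) f) (hD : D N t) {i : ℤ} (hv : V f i (0 : ℤ))
    (e : 0 ≤ i ∧ i < t) :
    V f (i + 1) (1 : ℤ) ∨ V f (i + 1) (N - 1) ∨ V f (i + 1) (N - t + 1) := by
  have := nb h hD i e.1 e.2
  unfold V at *
  unfold D at hD
  omega

theorem th1 (hD : D N t) : Th (A N t) N 0 (0 : ℤ) (N - 1) := by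
  intro c d h1 h2 h3
  unfold D at hD
  exact thread c d h3 (by omega) (by omega) (by omega)

theorem nb2 (h : W (A N t) 0 N (t + 1) f) (hD : D N t) {i : ℤ} (hv : V f i (N - 1))
    (e : 0 ≤ i ∧ i < t) :
    V f (i + 1) (N - 2) ∨ V f (i + 1) (0 : ℤ) := by
  have := nb h hD i e.1 e.2
  unfold V at *
  unfold D at hD
  omega

theorem nb3 (h : W (A N t) 0 N (t + 1) f) (hD : D N t) {i : ℤ} (hv : V f i (N - t + 1))
    (e : 0 ≤ i ∧ i < t) :
    V f (i + 1) (N - t + 2) ∨ V f (i + 1) (N - t) ∨ V f (i + 1) (0 : ℤ) := by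
  have := nb h hD i e.1 e.2
  unfold V at *
  unfold D at hD
  omega

theorem th4 (hD : D N t) : Th (A N t) N 0 (N - t + 1) (N - 1) := by
  intro c d h1 h2 h3
  unfold D at hD
  exact thread c d h3 (by omega) (by omega) (by omega)

theorem th5 (hD : D N t) : Th (A N t) N 0 (0 : ℤ) (N - t + 1) := by
  intro c d h1 h2 h3
  unfold D at hD
  exact thread c d h3 (by omega) (by omega) (by omega)

theorem no (hD : D N t) (h : W (A N t) 0 N (t + 1) f) : False := by
  obtain ⟨d0, d1, d2⟩ := id hD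
  have v0 : V f (0 : ℤ) (0 : ℤ) := h.h0
  rcases nb0 h hD v0 (by omega) with n1 | n1 | n1
  · by_cases s3 : (0 : ℤ) ≤ t - N + 1
    · have r4 := h.ru v0 n1 (th1 hD) (by omega)
      have v5 := r4.at (N - 1) (N - 1) (by omega)
      exact fin h hD (v5.cast t (by omega)) (by omega)
    · have r6 := h.ru v0 n1 (th1 hD) (by omega)
      exact fin h hD (r6.at t t (by omega)) (by omega)
  · have v7 := n1.cast (1 : ℤ) (by omega)
    rcases nb2 h hD v7 (by omega) with n8 | n8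
    · have r9 := h.rd v7 n8 (th1 hD) (by omega)
      exact fin h hD (r9.at t (N - t) (by omega)) (by omega)
    · exact h.clash n8 v0 (by omega)
  · have v10 := n1.cast (1 : ℤ) (by omega)
    rcases nb3 h hD v10 (by omega) with n11 | n11 | n11
    · have r12 := h.ru v10 n11 (th4 hD) (by omega)
      have v13 := r12.at (t - 1) (N - 1) (by omega)
      rcases nb2 h hD v13 (by omega) with n14 | n14
      · exact h.clash n14 (r12.at (t - 2) (N - 2) (by omega)) (by omega)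
      · exact h.clash n14 v0 (by omega)
    · have r15 := h.rd v10 n11 (th5 hD) (by omega)
      exact h.clash (r15.at (N - t + 2) (0 : ℤ) (by omega)) v0 (by omega)
    · exact h.clash n11 v0 (by omega)

end Pool.Agent.Work.MP_193ce1_co.Rim.Wp
end

-- merged part: Pool.Agent.Work.MP_193ce1_co.Rim.ZzD
section
set_option linter.unusedVariables false

namespace Pool.Agent.Work.MP_193ce1_co.Rim.Zz

def D (N t : ℤ) : Prop :=
  2 * t ≤ N + 1 ∧ N + 1 ≤ 2 * t ∧ (11 : ℤ) ≤ N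

def B (N t a b : ℤ) : Prop :=
  (0 ≤ a ∧ b = a + 1 ∧ b < N) ∨ (a = N ∧ 0 ≤ b ∧ b < N ∧ b ≠ t - 3 ∧ b ≠ t - 1 ∧ b ≠ t) ∨
    (a = N - 1 ∧ b = 0) ∨
    (a = t ∧ b = t + 3)

def A (N t a b : ℤ) : Prop := a ≠ b ∧ (B N t a b ∨ B N t b a)

variable {N t : ℤ}

theorem rel (hD : D N t) : Rel (A N t) N :=
  ⟨fun _ _ h => ⟨h.1.symm, h.2.symm⟩, fun _ h => h.1 rfl,
    fun a h0 h1 => ⟨by omega, Or.inl (Or.inl ⟨h0, rfl, h1⟩)⟩⟩

theorem hubB (hD : D N t) (e : ℤ) (h0 : 0 ≤ e) (h1 : e < N) (x0 : e ≠ t - 3) (x1 : e ≠ t - 1) (x2 : e ≠ t) : A N t N e :=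
  ⟨by omega, Or.inl (Or.inr (Or.inl ⟨rfl, h0, h1, x0, x1, x2⟩))⟩

theorem hubA (hD : D N t) (e : ℤ) (h0 : 0 ≤ e) (h1 : e < N) (x0 : e ≠ t - 3) (x1 : e ≠ t - 1) (x2 : e ≠ t) : A N t e N :=
  ⟨by omega, Or.inr (Or.inr (Or.inl ⟨rfl, h0, h1, x0, x1, x2⟩))⟩

theorem ch0 (hD : D N t) : A N t (N - 1) 0 :=
  ⟨by unfold D at hD; omega, Or.inl (Or.inr (Or.inr (Or.inl ⟨rfl, rfl⟩)))⟩

theorem ch1 (hD : D N t) : A N t 0 (N - 1) :=
  ⟨by unfold D at hD; omega, Or.inr (Or.inr (Or.inr (Or.inl ⟨rfl, rfl⟩)))⟩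

theorem ch2 (hD : D N t) : A N t t (t + 3) :=
  ⟨by unfold D at hD; omega, Or.inl (Or.inr (Or.inr (Or.inr ⟨rfl, rfl⟩)))⟩

theorem ch3 (hD : D N t) : A N t (t + 3) t :=
  ⟨by unfold D at hD; omega, Or.inr (Or.inr (Or.inr (Or.inr ⟨rfl, rfl⟩)))⟩

/-- vertices missed by the hub -/
noncomputable def fV : List Fk.E :=
  [.sub .t (.k 3), .sub .t (.k 1), .t]

/-- chords -/
noncomputable def fH : List (Fk.E × Fk.E) :=
  [(.sub .N (.k 1), .k 0), (.k 0, .sub .N (.k 1)), (.t, .add .t (.k 3)), (.add .t (.k 3), .t)]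

/-- parameter range -/
noncomputable def fD : List Fk.C :=
  [.le (.mul 2 .t) (.add .N (.k 1)), .le (.add .N (.k 1)) (.mul 2 .t), .le (.k 11) .N]

theorem fam (hD : D N t) (x y L : ℤ) : Fk.Fam (A N t) ⟨N, t, x, y, L⟩ fV fH fD :=
  ⟨rel hD, fun e h0 h1 h => ⟨hubA hD e h0 h1 h.1 h.2.1 h.2.2.1,
    hubB hD e h0 h1 h.1 h.2.1 h.2.2.1⟩,
    ⟨ch0 hD, ch1 hD, ch2 hD, ch3 hD, trivial⟩, hD.1, hD.2.1, hD.2.2, trivial⟩

end Pool.Agent.Work.MP_193ce1_co.Rim.Zz
end

-- merged part: Pool.Agent.Work.MP_193ce1_co.Rim.ZzR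
section
set_option linter.unusedVariables false

namespace Pool.Agent.Work.MP_193ce1_co.Rim.Zz

/-- hypotheses -/
noncomputable def kr0 : List Fk.C :=
  [.le (.add .x (.k 1)) .y, .le (.k 3) .L, .le .L (.add .x (.k 3)), .le (.add .y (.k 1)) .N, .ne
  (.add .x (.k 6)) (.add .t .L), .ne (.add .x (.k 4)) (.add .t .L), .ne (.add .x (.k 3)) (.add .t
  .L), .ne (.add .y (.k 3)) .t, .ne (.add .y (.k 1)) .t, .ne .y .t]

theorem qr0 {N t x y L : ℤ} (hD : D N t) : Fk.All ⟨N, t, x, y, L⟩ kr0 → P (A N t) N x y L :=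
  Fk.route (fam hD x y L) kr0 .y (.dn .x (.add (.sub .x .L) (.k 3)))
    [(0, .pt .N), (1, .pt .y)]
    [.f 8650880, .f 8585344, .f 549764333701, .f 128, .f 128, .f 9306240, .f 128, .f 8650880, .f
    36029359668199557, .s 6 (.f 12648576) (.f 8454272), .s 7 (.f 12648576) (.f 8454272), .s 8 (.f
    12648576) (.f 8454272), .f 128, .f 128, .f 571239039106, .f 36029359668199556, .f 8716416, .f
    36029359668199556, .f 8716416, .s 9 (.f 12648576) (.f 8454272), .s 10 (.f 12648576) (.f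
    8454272), .s 11 (.f 12648576) (.f 8454272), .f 128, .f 128, .f 8716417, .f 8519808, .f 128, .f
    128, .f 128, .f 128]
    (by decide +kernel)

theorem rT0 {N t x y L : ℤ} (hD : D N t)
    (c0 : x + 1 ≤ y)
    (c1 : (3 : ℤ) ≤ L)
    (c2 : L ≤ x + 3)
    (c3 : y + 1 ≤ N)
    (c4 : x + 6 ≠ t + L)
    (c5 : x + 4 ≠ t + L)
    (c6 : x + 3 ≠ t + L)
    (c7 : y + 3 ≠ t)
    (c8 : y + 1 ≠ t)
    (c9 : y ≠ t) :
    P (A N t) N x y L := by
  exact qr0 hD ⟨c0, c1, c2, c3, c4, c5, c6, c7, c8, c9, trivial⟩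

/-- hypotheses -/
noncomputable def kr1 : List Fk.C :=
  [.le (.add .t (.k 4)) (.add .y .L), .le (.add .x (.k 1)) .y, .le .y (.add .t (.k 1)), .le (.add
  .y .L) (.add (.add .t .x) (.k 4)), .ne (.add .y .L) (.add .x (.k 4)), .ne (.add .y .L) (.add .x
  (.k 5)), .ne (.add .y .L) (.add .x (.k 7))]

theorem qr1 {N t x y L : ℤ} (hD : D N t) : Fk.All ⟨N, t, x, y, L⟩ kr1 → P (A N t) N x y L :=
  Fk.route (fam hD x y L) kr1 .y (.dn .x (.add (.sub (.sub (.add .t .x) .y) .L) (.k 4)))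
    [(0, .pt .N), (1, .dn (.add .t (.k 1)) .y)]
    [.f 8716416, .f 8519808, .f 2527277122691681943691, .f 128, .f 128, .f 9109632, .f 128, .f
    8716416, .f 165627633513285004938117259, .s 8 (.f 8454272) (.f 12648576), .s 7 (.f 8454272) (.f
    12648576), .s 6 (.f 8454272) (.f 12648576), .f 128, .f 128, .f 2527277122691681943691, .f
    36873771713429637, .f 8650880, .f 588427296907, .f 2361220396690102878339, .f 588427296907, .f
    128, .f 128, .f 128, .f 128, .f 128, .f 588427362443, .f 8585344, .f 128, .f 128, .f 128, .f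
    128]
    (by decide +kernel)

theorem rT1 {N t x y L : ℤ} (hD : D N t)
    (c0 : t + 4 ≤ y + L)
    (c1 : x + 1 ≤ y)
    (c2 : y ≤ t + 1)
    (c3 : y + L ≤ t + x + 4)
    (c4 : y + L ≠ x + 4)
    (c5 : y + L ≠ x + 5)
    (c6 : y + L ≠ x + 7) :
    P (A N t) N x y L := by
  exact qr1 hD ⟨c0, c1, c2, c3, c4, c5, c6, trivial⟩

/-- hypotheses -/
noncomputable def kr2 : List Fk.C :=
  [.le .t (.add .x (.k 2)), .le (.add .x (.k 1)) .y, .le (.add .x (.k 5)) (.add .t .L), .le (.add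
  (.add .t .y) .L) (.add (.add .N .x) (.k 4)), .ne (.add .y .L) (.add .x (.k 2)), .ne (.add .y .L)
  (.add .x (.k 4)), .ne (.add .y .L) (.add .x (.k 5))]

theorem qr2 {N t x y L : ℤ} (hD : D N t) : Fk.All ⟨N, t, x, y, L⟩ kr2 → P (A N t) N x y L :=
  Fk.route (fam hD x y L) kr2 .y (.dn .x (.sub .t (.k 2)))
    [(0, .pt .N), (1, .dn (.sub (.sub (.add (.add .t .y) .L) .x) (.k 5)) .y)]
    [.f 592722264203, .f 8519808, .f 36029359668330629, .f 128, .f 128, .f 9109632, .f 128, .f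
    592722264203, .f 2361219833744444358789, .f 128, .f 192, .f 192, .f 128, .f 128, .f
    37436721666916484, .f 154747264243546163108905093, .f 8650880, .f 8716416, .f
    154747264243546163117293701, .f 8716416, .f 36029355373297796, .s 7 (.f 12648576) (.f 8454272),
    .s 8 (.f 12648576) (.f 8454272), .f 128, .f 128, .f 8716417, .f 8585344, .f 128, .f 128, .f
    128, .f 128]
    (by decide +kernel)

theorem rT2 {N t x y L : ℤ} (hD : D N t)
    (c0 : t ≤ x + 2)
    (c1 : x + 1 ≤ y)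
    (c2 : x + 5 ≤ t + L)
    (c3 : t + y + L ≤ N + x + 4)
    (c4 : y + L ≠ x + 2)
    (c5 : y + L ≠ x + 4)
    (c6 : y + L ≠ x + 5) :
    P (A N t) N x y L := by
  exact qr2 hD ⟨c0, c1, c2, c3, c4, c5, c6, trivial⟩

/-- hypotheses -/
noncomputable def kr3 : List Fk.C :=
  [.le (.add .t (.k 1)) (.add .y .L), .le (.add .x (.k 1)) .y, .le (.add .y (.k 2)) .t, .le (.add
  .y .L) (.add (.add .t .x) (.k 1)), .ne (.add .y .L) (.add .x (.k 1)), .ne (.add .y .L) (.add .x
  (.k 2)), .ne (.add .y .L) (.add .x (.k 4))]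

theorem qr3 {N t x y L : ℤ} (hD : D N t) : Fk.All ⟨N, t, x, y, L⟩ kr3 → P (A N t) N x y L :=
  Fk.route (fam hD x y L) kr3 .y (.dn .x (.add (.sub (.sub (.add .t .x) .y) .L) (.k 1)))
    [(0, .pt .N), (1, .dn (.sub .t (.k 2)) .y)]
    [.f 8716416, .f 8519808, .f 154747301100724017065820297, .f 128, .f 128, .f 9109632, .f 128, .f
    8716416, .f 154747301136752814084784265, .s 8 (.f 8454272) (.f 12648576), .f 54043753882779780,
    .f 54043753882779780, .f 128, .f 128, .f 165627633512721526703718529, .f 36873771713429637, .f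
    8650880, .f 154744939917482582234824841, .f 2361220396690102878339, .f
    154744939917482582234824841, .f 128, .f 192, .f 192, .f 128, .f 128, .f
    165625198507037949977231491, .f 8585344, .f 128, .f 128, .f 128, .f 128]
    (by decide +kernel)

theorem rT3 {N t x y L : ℤ} (hD : D N t)
    (c0 : t + 1 ≤ y + L)
    (c1 : x + 1 ≤ y)
    (c2 : y + 2 ≤ t)
    (c3 : y + L ≤ t + x + 1)
    (c4 : y + L ≠ x + 1)
    (c5 : y + L ≠ x + 2)
    (c6 : y + L ≠ x + 4) :
    P (A N t) N x y L := by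
  exact qr3 hD ⟨c0, c1, c2, c3, c4, c5, c6, trivial⟩

/-- hypotheses -/
noncomputable def kr4 : List Fk.C :=
  [.le .t (.add .y (.k 1)), .le (.add .t (.k 1)) (.add .x .L), .le (.k 0) .x, .le (.add .x (.k 2))
  .t, .le (.add (.add .x .y) .L) (.add .N .t), .ne (.add (.add (.add .x .y) .L) (.k 2)) (.mul 2
  .t), .ne (.add (.add .x .y) .L) (.mul 2 .t), .ne (.add (.add .x .y) .L) (.add (.mul 2 .t) (.k
  1))]

theorem qr4 {N t x y L : ℤ} (hD : D N t) : Fk.All ⟨N, t, x, y, L⟩ kr4 → P (A N t) N x y L :=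
  Fk.route (fam hD x y L) kr4 .y (.up .x (.sub .t (.k 2)))
    [(0, .pt .N), (1, .dn (.sub (.sub (.add (.add .x .y) .L) .t) (.k 1)) .y)]
    [.f 8650880, .f 8716416, .f 36029355373297798, .f 128, .f 128, .f 9175168, .f 128, .f
    549764530308, .f 36029355373297798, .f 128, .f 192, .f 192, .f 128, .f 128, .f
    37718205233561728, .f 36029368258134148, .f 8585344, .f 8781952, .f 2361220678165079457924, .f
    8781952, .f 558354333824, .s 8 (.f 12648576) (.f 8454272), .s 9 (.f 12648576) (.f 8454272), .f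
    128, .f 128, .f 8781953, .f 8519808, .f 128, .f 128, .f 128, .f 128]
    (by decide +kernel)

theorem rT4 {N t x y L : ℤ} (hD : D N t)
    (c0 : t ≤ y + 1)
    (c1 : t + 1 ≤ x + L)
    (c2 : (0 : ℤ) ≤ x)
    (c3 : x + 2 ≤ t)
    (c4 : x + y + L ≤ N + t)
    (c5 : x + y + L + 2 ≠ 2 * t)
    (c6 : x + y + L ≠ 2 * t)
    (c7 : x + y + L ≠ 2 * t + 1) :
    P (A N t) N x y L := by
  exact qr4 hD ⟨c0, c1, c2, c3, c4, c5, c6, c7, trivial⟩

/-- hypotheses -/
noncomputable def kr5 : List Fk.C :=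
  [.le (.add .t .L) (.add .y (.k 6)), .le .t (.add .x (.k 4)), .le (.add .x (.k 7)) (.add .t .L),
  .le (.add .y (.k 1)) .N, .ne (.add (.add .x .y) (.k 10)) (.add (.mul 2 .t) .L), .ne (.add (.add
  .x .y) (.k 8)) (.add (.mul 2 .t) .L), .ne (.add (.add .x .y) (.k 7)) (.add (.mul 2 .t) .L)]

theorem qr5 {N t x y L : ℤ} (hD : D N t) : Fk.All ⟨N, t, x, y, L⟩ kr5 → P (A N t) N x y L :=
  Fk.route (fam hD x y L) kr5 .y (.dn .x (.sub .t (.k 4)))
    [(0, .pt .N), (1, .up (.add (.sub (.sub (.add .x .y) .t) .L) (.k 7)) .y)]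
    [.f 592722264203, .f 8585344, .f 36029355373363333, .f 128, .f 128, .f 9109632, .f 128, .f
    592722264203, .f 2361220115215126102149, .f 192, .f 192, .f 192, .f 128, .f 128, .f
    37436721666850948, .f 4759332873633041875200, .f 8650880, .f 8716416, .f
    4759332873633041875200, .f 549764464773, .s 6 (.f 12648576) (.f 8454272), .s 7 (.f 12648576)
    (.f 8454272), .s 8 (.f 12648576) (.f 8454272), .f 128, .f 128, .f 8716417, .f 8519808, .f 128,
    .f 128, .f 128, .f 128]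
    (by decide +kernel)

theorem rT5 {N t x y L : ℤ} (hD : D N t)
    (c0 : t + L ≤ y + 6)
    (c1 : t ≤ x + 4)
    (c2 : x + 7 ≤ t + L)
    (c3 : y + 1 ≤ N)
    (c4 : x + y + 10 ≠ 2 * t + L)
    (c5 : x + y + 8 ≠ 2 * t + L)
    (c6 : x + y + 7 ≠ 2 * t + L) :
    P (A N t) N x y L := by
  exact qr5 hD ⟨c0, c1, c2, c3, c4, c5, c6, trivial⟩

/-- hypotheses -/
noncomputable def kr6 : List Fk.C :=
  [.le (.add .x (.k 2)) .y, .le (.k 4) .L, .le .L (.add .x (.k 4)), .le (.add .y (.k 1)) .N, .ne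
  (.add .x (.k 7)) (.add .t .L), .ne (.add .x (.k 5)) (.add .t .L), .ne (.add .x (.k 4)) (.add .t
  .L), .ne (.add .y (.k 2)) .t, .ne .y .t, .ne .y (.add .t (.k 1))]

theorem qr6 {N t x y L : ℤ} (hD : D N t) : Fk.All ⟨N, t, x, y, L⟩ kr6 → P (A N t) N x y L :=
  Fk.route (fam hD x y L) kr6 .y (.dn .x (.add (.sub .x .L) (.k 4)))
    [(0, .pt .N), (1, .up (.sub .y (.k 1)) .y)]
    [.f 8650880, .f 8585344, .f 549764333701, .f 128, .f 128, .f 9306240, .f 128, .f 8650880, .f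
    36029359668199557, .s 6 (.f 12648576) (.f 8454272), .s 7 (.f 12648576) (.f 8454272), .s 8 (.f
    12648576) (.f 8454272), .f 128, .f 128, .f 571239039106, .f 36029359668199556, .f 128, .f
    8716416, .f 36029359668199556, .f 8716416, .s 9 (.f 12648576) (.f 8454272), .s 10 (.f 12648576)
    (.f 8454272), .s 11 (.f 12648576) (.f 8454272), .f 128, .f 128, .f 8716417, .f 8519808, .f 128,
    .f 128, .f 128, .f 128]
    (by decide +kernel)

theorem rT6 {N t x y L : ℤ} (hD : D N t)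
    (c0 : x + 2 ≤ y)
    (c1 : (4 : ℤ) ≤ L)
    (c2 : L ≤ x + 4)
    (c3 : y + 1 ≤ N)
    (c4 : x + 7 ≠ t + L)
    (c5 : x + 5 ≠ t + L)
    (c6 : x + 4 ≠ t + L)
    (c7 : y + 2 ≠ t)
    (c8 : y ≠ t)
    (c9 : y ≠ t + 1) :
    P (A N t) N x y L := by
  exact qr6 hD ⟨c0, c1, c2, c3, c4, c5, c6, c7, c8, c9, trivial⟩

/-- hypotheses -/
noncomputable def kr7 : List Fk.C :=
  [.le (.add .x (.k 1)) .y, .le (.k 4) .L, .le .L (.add .x (.k 4)), .le (.add .y (.k 2)) .N, .ne
  (.add .x (.k 7)) (.add .t .L), .ne (.add .x (.k 5)) (.add .t .L), .ne (.add .x (.k 4)) (.add .t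
  .L), .ne (.add .y (.k 4)) .t, .ne (.add .y (.k 2)) .t, .ne (.add .y (.k 1)) .t]

theorem qr7 {N t x y L : ℤ} (hD : D N t) : Fk.All ⟨N, t, x, y, L⟩ kr7 → P (A N t) N x y L :=
  Fk.route (fam hD x y L) kr7 .y (.dn .x (.add (.sub .x .L) (.k 4)))
    [(0, .pt .N), (1, .dn (.add .y (.k 1)) .y)]
    [.f 8650880, .f 8585344, .f 549764333701, .f 128, .f 128, .f 9306240, .f 128, .f 8650880, .f
    36029359668199557, .s 6 (.f 12648576) (.f 8454272), .s 7 (.f 12648576) (.f 8454272), .s 8 (.f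
    12648576) (.f 8454272), .f 128, .f 128, .f 571239039106, .f 36029359668199556, .f 128, .f
    8716416, .f 36029359668199556, .f 8716416, .s 9 (.f 12648576) (.f 8454272), .s 10 (.f 12648576)
    (.f 8454272), .s 11 (.f 12648576) (.f 8454272), .f 128, .f 128, .f 8716417, .f 8519808, .f 128,
    .f 128, .f 128, .f 128]
    (by decide +kernel)

theorem rT7 {N t x y L : ℤ} (hD : D N t)
    (c0 : x + 1 ≤ y)
    (c1 : (4 : ℤ) ≤ L)
    (c2 : L ≤ x + 4)
    (c3 : y + 2 ≤ N)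
    (c4 : x + 7 ≠ t + L)
    (c5 : x + 5 ≠ t + L)
    (c6 : x + 4 ≠ t + L)
    (c7 : y + 4 ≠ t)
    (c8 : y + 2 ≠ t)
    (c9 : y + 1 ≠ t) :
    P (A N t) N x y L := by
  exact qr7 hD ⟨c0, c1, c2, c3, c4, c5, c6, c7, c8, c9, trivial⟩

/-- hypotheses -/
noncomputable def kr8 : List Fk.C :=
  [.le (.add .N (.k 4)) (.add .y .L), .le (.add .x (.k 1)) .y, .le (.add .y (.k 1)) .N, .le (.add
  .y .L) (.add (.add .N .x) (.k 2)), .ne (.add (.add .t .y) .L) (.add (.add .N .x) (.k 4)), .ne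
  (.add (.add .t .y) .L) (.add (.add .N .x) (.k 5)), .ne (.add (.add .t .y) .L) (.add (.add .N .x)
  (.k 7))]

theorem qr8 {N t x y L : ℤ} (hD : D N t) : Fk.All ⟨N, t, x, y, L⟩ kr8 → P (A N t) N x y L :=
  Fk.route (fam hD x y L) kr8 .y (.dn .x (.add (.sub (.sub (.add .N .x) .y) .L) (.k 4)))
    [(0, .pt .N), (1, .dn (.k 1) (.k 0)), (3, .dn (.sub .N (.k 1)) .y)]
    [.f 8716416, .f 8519808, .f 549764464771, .f 128, .f 128, .f 9109632, .f 128, .f 8716416, .f
    36029363963166851, .s 8 (.f 8454272) (.f 12648576), .s 7 (.f 8454272) (.f 12648576), .s 6 (.f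
    8454272) (.f 12648576), .f 128, .f 128, .f 562649104516, .f 128, .f 128, .f 9109632, .f 128, .f
    9109632, .f 592726458507, .f 386858697283491383778869379, .f 386858697283491383778869379, .f
    128, .f 128, .f 9109633, .f 8716417, .f 36873771713429637, .f 8650880, .f 128, .f 128, .f 128,
    .f 128, .f 128, .f 36873771713429637, .f 129, .f 8585344, .f 128, .f 128, .f 128, .f 128]
    (by decide +kernel)

theorem rT8 {N t x y L : ℤ} (hD : D N t)
    (c0 : N + 4 ≤ y + L)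
    (c1 : x + 1 ≤ y)
    (c2 : y + 1 ≤ N)
    (c3 : y + L ≤ N + x + 2)
    (c4 : t + y + L ≠ N + x + 4)
    (c5 : t + y + L ≠ N + x + 5)
    (c6 : t + y + L ≠ N + x + 7) :
    P (A N t) N x y L := by
  exact qr8 hD ⟨c0, c1, c2, c3, c4, c5, c6, trivial⟩

/-- hypotheses -/
noncomputable def kr9 : List Fk.C :=
  [.le (.add .t .L) (.add .y (.k 1)), .le (.add .t (.k 1)) .x, .le (.add .x (.k 2)) (.add .t .L),
  .le (.add .y (.k 1)) .N, .ne (.add (.add .x .y) (.k 5)) (.add (.mul 2 .t) .L), .ne (.add (.add .x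
  .y) (.k 3)) (.add (.mul 2 .t) .L), .ne (.add (.add .x .y) (.k 2)) (.add (.mul 2 .t) .L)]

theorem qr9 {N t x y L : ℤ} (hD : D N t) : Fk.All ⟨N, t, x, y, L⟩ kr9 → P (A N t) N x y L :=
  Fk.route (fam hD x y L) kr9 .y (.dn .x (.add .t (.k 1)))
    [(0, .pt .N), (1, .up (.add (.sub (.sub (.add .x .y) .t) .L) (.k 2)) .y)]
    [.f 154744939917482573645348997, .f 8585344, .f 36029363963166853, .f 128, .f 128, .f 9109632,
    .f 128, .f 154744939917482573645348997, .f 2361220396690102747269, .f 128, .f 128, .f 128, .f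
    128, .f 128, .f 37436738846720128, .f 311907639204444707487744133, .f 8650880, .f 8716416, .f
    311907639204444707487744133, .f 549764464773, .f 562649235584, .f 558354333824, .f
    558354333824, .f 128, .f 128, .f 8716417, .f 8519808, .f 128, .f 128, .f 128, .f 128]
    (by decide +kernel)

theorem rT9 {N t x y L : ℤ} (hD : D N t)
    (c0 : t + L ≤ y + 1)
    (c1 : t + 1 ≤ x)
    (c2 : x + 2 ≤ t + L)
    (c3 : y + 1 ≤ N)
    (c4 : x + y + 5 ≠ 2 * t + L)
    (c5 : x + y + 3 ≠ 2 * t + L)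
    (c6 : x + y + 2 ≠ 2 * t + L) :
    P (A N t) N x y L := by
  exact qr9 hD ⟨c0, c1, c2, c3, c4, c5, c6, trivial⟩

/-- hypotheses -/
noncomputable def kr10 : List Fk.C :=
  [.le (.add .t (.k 1)) .x, .le (.add .x (.k 1)) .y, .le (.add .x (.k 2)) (.add .t .L), .le (.add
  (.add .t .y) .L) (.add (.add .N .x) (.k 1)), .ne (.add (.add .y .L) (.k 1)) .x, .ne (.add .y .L)
  (.add .x (.k 1)), .ne (.add .y .L) (.add .x (.k 2))]

theorem qr10 {N t x y L : ℤ} (hD : D N t) : Fk.All ⟨N, t, x, y, L⟩ kr10 → P (A N t) N x y L :=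
  Fk.route (fam hD x y L) kr10 .y (.dn .x (.add .t (.k 1)))
    [(0, .pt .N), (1, .dn (.sub (.sub (.add (.add .t .y) .L) .x) (.k 2)) .y)]
    [.f 154744939917764044327092357, .f 8519808, .f 36029363963232389, .f 128, .f 128, .f 9109632,
    .f 128, .f 154744939917764044327092357, .f 2361220396694397649029, .f 128, .f 128, .f 128, .f
    128, .f 128, .f 37436738846785664, .f 154744939953793391101870213, .f 8650880, .f 8716416, .f
    154747301137034825924477061, .f 8716416, .f 36029363963232386, .f 36029363963232386, .f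
    36029363963232386, .f 128, .f 128, .f 8716417, .f 8585344, .f 128, .f 128, .f 128, .f 128]
    (by decide +kernel)

theorem rT10 {N t x y L : ℤ} (hD : D N t)
    (c0 : t + 1 ≤ x)
    (c1 : x + 1 ≤ y)
    (c2 : x + 2 ≤ t + L)
    (c3 : t + y + L ≤ N + x + 1)
    (c4 : y + L + 1 ≠ x)
    (c5 : y + L ≠ x + 1)
    (c6 : y + L ≠ x + 2) :
    P (A N t) N x y L := by
  exact qr10 hD ⟨c0, c1, c2, c3, c4, c5, c6, trivial⟩

/-- hypotheses -/
noncomputable def kr11 : List Fk.C :=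
  [.le (.add (.add .N .x) (.k 2)) (.add (.add .t .y) .L), .le (.add .t (.k 1)) .x, .le (.add .x (.k
  1)) .y, .le (.add .y (.k 1)) .N, .le (.add .y .L) (.add (.add .N .x) (.k 2)), .ne (.add (.add .y
  .L) (.k 1)) (.add .N .x), .ne (.add .y .L) (.add (.add .N .x) (.k 1)), .ne (.add .y .L) (.add
  (.add .N .x) (.k 2))]

theorem qr11 {N t x y L : ℤ} (hD : D N t) : Fk.All ⟨N, t, x, y, L⟩ kr11 → P (A N t) N x y L :=
  Fk.route (fam hD x y L) kr11 .y (.dn .x (.add .t (.k 1)))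
    [(0, .pt .N), (1, .dn (.sub (.sub (.sub (.add (.add .t .y) .L) .N) .x) (.k 2)) (.k 0)), (3, .dn
    (.sub .N (.k 1)) .y)]
    [.f 549764333702, .f 8585344, .f 549764530308, .f 128, .f 128, .f 9175168, .f 128, .f
    549764333702, .f 36029368258199684, .f 128, .f 128, .f 128, .f 128, .f 128, .f 566944399488, .f
    128, .f 8519808, .f 2471901142611631538308, .f 8519808, .f 2471901142611631538308, .s 7 (.f
    12648576) (.f 8454272), .s 8 (.f 12648576) (.f 8454272), .s 9 (.f 12648576) (.f 8454272), .f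
    128, .f 128, .f 2435007654464212828289, .f 8781953, .f 2435006247089329275010, .f 8716416, .f
    128, .f 128, .f 128, .f 128, .f 128, .f 37155246690205830, .f 129, .f 8650880, .f 128, .f 128,
    .f 128, .f 128]
    (by decide +kernel)

theorem rT11 {N t x y L : ℤ} (hD : D N t)
    (c0 : N + x + 2 ≤ t + y + L)
    (c1 : t + 1 ≤ x)
    (c2 : x + 1 ≤ y)
    (c3 : y + 1 ≤ N)
    (c4 : y + L ≤ N + x + 2)
    (c5 : y + L + 1 ≠ N + x)
    (c6 : y + L ≠ N + x + 1)
    (c7 : y + L ≠ N + x + 2) :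
    P (A N t) N x y L := by
  exact qr11 hD ⟨c0, c1, c2, c3, c4, c5, c6, c7, trivial⟩

/-- hypotheses -/
noncomputable def kr12 : List Fk.C :=
  [.le (.add .N (.k 3)) (.add .y .L), .le (.add .x (.k 1)) .y, .le (.add .y (.k 1)) .N, .le (.add
  .y .L) (.add (.add .N .x) (.k 2)), .ne (.add (.add .t .y) .L) (.add (.add .N .x) (.k 3)), .ne
  (.add (.add .t .y) .L) (.add (.add .N .x) (.k 4)), .ne (.add (.add .t .y) .L) (.add (.add .N .x)
  (.k 6))]

theorem qr12 {N t x y L : ℤ} (hD : D N t) : Fk.All ⟨N, t, x, y, L⟩ kr12 → P (A N t) N x y L :=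
  Fk.route (fam hD x y L) kr12 .y (.dn .x (.add (.sub (.sub (.add .N .x) .y) .L) (.k 3)))
    [(0, .pt .N), (1, .pt (.k 0)), (3, .dn (.sub .N (.k 1)) .y)]
    [.f 8716416, .f 8519808, .f 549764464771, .f 128, .f 128, .f 9109632, .f 128, .f 8716416, .f
    36029363963166851, .s 8 (.f 8454272) (.f 12648576), .s 7 (.f 8454272) (.f 12648576), .s 6 (.f
    8454272) (.f 12648576), .f 128, .f 128, .f 562649104516, .f 128, .f 9109632, .f 128, .f
    9109632, .f 592726458507, .f 386858697283491383778869379, .f 386858697283491383778869379, .f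
    128, .f 128, .f 9109633, .f 8716417, .f 36873771713429637, .f 8650880, .f 128, .f 128, .f 128,
    .f 128, .f 128, .f 36873771713429637, .f 129, .f 8585344, .f 128, .f 128, .f 128, .f 128]
    (by decide +kernel)

theorem rT12 {N t x y L : ℤ} (hD : D N t)
    (c0 : N + 3 ≤ y + L)
    (c1 : x + 1 ≤ y)
    (c2 : y + 1 ≤ N)
    (c3 : y + L ≤ N + x + 2)
    (c4 : t + y + L ≠ N + x + 3)
    (c5 : t + y + L ≠ N + x + 4)
    (c6 : t + y + L ≠ N + x + 6) :
    P (A N t) N x y L := by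
  exact qr12 hD ⟨c0, c1, c2, c3, c4, c5, c6, trivial⟩

/-- hypotheses -/
noncomputable def kr13 : List Fk.C :=
  [.le (.add .x (.k 2)) .L, .le (.add .x (.k 1)) .y, .le (.k 1) .x, .le (.add .y .L) (.add (.add .N
  .x) (.k 1)), .ne (.add (.add .y .L) (.k 1)) (.add .t .x), .ne (.add .y .L) (.add (.add .t .x) (.k
  1)), .ne (.add .y .L) (.add (.add .t .x) (.k 2))]

theorem qr13 {N t x y L : ℤ} (hD : D N t) : Fk.All ⟨N, t, x, y, L⟩ kr13 → P (A N t) N x y L :=
  Fk.route (fam hD x y L) kr13 .y (.dn .x (.k 1))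
    [(0, .pt .N), (1, .dn (.sub (.sub (.add .y .L) .x) (.k 2)) .y)]
    [.f 128, .f 8650880, .f 36029355373297797, .f 128, .f 128, .f 9109632, .f 128, .f 128, .f
    9109632, .f 592726458507, .f 1374398644362, .f 386858660390284707041509509, .f 128, .f 128, .f
    37436730256851072, .f 549764399236, .f 8519808, .f 8716416, .f 36029355373297796, .f 8716416,
    .s 6 (.f 12648576) (.f 8454272), .s 7 (.f 12648576) (.f 8454272), .s 8 (.f 12648576) (.f
    8454272), .f 128, .f 128, .f 8716417, .f 8585344, .f 128, .f 128, .f 128, .f 128]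
    (by decide +kernel)

theorem rT13 {N t x y L : ℤ} (hD : D N t)
    (c0 : x + 2 ≤ L)
    (c1 : x + 1 ≤ y)
    (c2 : (1 : ℤ) ≤ x)
    (c3 : y + L ≤ N + x + 1)
    (c4 : y + L + 1 ≠ t + x)
    (c5 : y + L ≠ t + x + 1)
    (c6 : y + L ≠ t + x + 2) :
    P (A N t) N x y L := by
  exact qr13 hD ⟨c0, c1, c2, c3, c4, c5, c6, trivial⟩

/-- hypotheses -/
noncomputable def kr14 : List Fk.C :=
  [.le (.add .x (.k 4)) .L, .le (.add .x (.k 1)) .y, .le (.k 0) .x, .le (.add .y .L) (.add (.add .N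
  .x) (.k 2)), .ne (.add .y .L) (.add (.add .t .x) (.k 1)), .ne (.add .y .L) (.add (.add .t .x) (.k
  3)), .ne (.add .y .L) (.add (.add .t .x) (.k 4))]

theorem qr14 {N t x y L : ℤ} (hD : D N t) : Fk.All ⟨N, t, x, y, L⟩ kr14 → P (A N t) N x y L :=
  Fk.route (fam hD x y L) kr14 .y (.dn .x (.k 0))
    [(3, .pt (.sub .N (.k 1))), (0, .pt .N), (1, .dn (.sub (.sub (.add .y .L) .x) (.k 4)) .y)]
    [.f 128, .f 8650880, .f 36029355373297797, .f 128, .f 128, .f 9109632, .f 128, .f 128, .f 128,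
    .f 128, .f 128, .f 37436730256851072, .f 9109632, .f 128, .f 9109632, .f 128, .f
    165625235400807568078012549, .f 165625235400807568078012549, .f 588419629312, .f 128, .f 128,
    .f 128, .f 37436730256851072, .f 549764399236, .f 8519808, .f 8716416, .f 36029355373297796, .f
    8716416, .s 6 (.f 12648576) (.f 8454272), .s 7 (.f 12648576) (.f 8454272), .s 8 (.f 12648576)
    (.f 8454272), .f 128, .f 128, .f 8716417, .f 8716417, .f 8585344, .f 128, .f 128, .f 128, .f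
    128]
    (by decide +kernel)

theorem rT14 {N t x y L : ℤ} (hD : D N t)
    (c0 : x + 4 ≤ L)
    (c1 : x + 1 ≤ y)
    (c2 : (0 : ℤ) ≤ x)
    (c3 : y + L ≤ N + x + 2)
    (c4 : y + L ≠ t + x + 1)
    (c5 : y + L ≠ t + x + 3)
    (c6 : y + L ≠ t + x + 4) :
    P (A N t) N x y L := by
  exact qr14 hD ⟨c0, c1, c2, c3, c4, c5, c6, trivial⟩

/-- hypotheses -/
noncomputable def kr15 : List Fk.C :=
  [.le .t (.add .y (.k 4)), .le (.add .t .L) (.add (.add .x .y) (.k 7)), .le (.add .x (.k 5)) .t,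
  .le (.add .y (.k 7)) (.add .t .L), .le (.add .y (.k 1)) .N, .ne (.add (.add .x .y) (.k 10)) (.add
  (.mul 2 .t) .L), .ne (.add (.add .x .y) (.k 8)) (.add (.mul 2 .t) .L), .ne (.add (.add .x .y) (.k
  7)) (.add (.mul 2 .t) .L)]

theorem qr15 {N t x y L : ℤ} (hD : D N t) : Fk.All ⟨N, t, x, y, L⟩ kr15 → P (A N t) N x y L :=
  Fk.route (fam hD x y L) kr15 .y (.dn .x (.add (.sub (.sub (.add .x .y) .t) .L) (.k 7)))
    [(0, .pt .N), (1, .up (.sub .t (.k 4)) .y)]
    [.f 8585344, .f 8716416, .f 36029355373363334, .f 128, .f 128, .f 9175168, .f 128, .f 8585344,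
    .f 2361220678165079523462, .f 824642437252, .f 824642437252, .f 571243233412, .f 128, .f 128,
    .f 37718205233627264, .f 36029368258199684, .f 8519808, .f 8781952, .f 36029368258199684, .f
    549764333702, .f 192, .f 192, .f 192, .f 128, .f 128, .f 8781953, .f 8650880, .f 128, .f 128,
    .f 128, .f 128]
    (by decide +kernel)

theorem rT15 {N t x y L : ℤ} (hD : D N t)
    (c0 : t ≤ y + 4)
    (c1 : t + L ≤ x + y + 7)
    (c2 : x + 5 ≤ t)
    (c3 : y + 7 ≤ t + L)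
    (c4 : y + 1 ≤ N)
    (c5 : x + y + 10 ≠ 2 * t + L)
    (c6 : x + y + 8 ≠ 2 * t + L)
    (c7 : x + y + 7 ≠ 2 * t + L) :
    P (A N t) N x y L := by
  exact qr15 hD ⟨c0, c1, c2, c3, c4, c5, c6, c7, trivial⟩

/-- hypotheses -/
noncomputable def kr16 : List Fk.C :=
  [.le (.add .x (.k 4)) .L, .le (.add .x (.k 1)) .y, .le (.k 0) .x, .le (.add .y .L) (.add (.add .N
  .x) (.k 2)), .ne (.add .y (.k 3)) .t, .ne (.add .y (.k 1)) .t, .ne .y .t, .ne (.add .t .L) (.add
  (.add .N .x) (.k 3)), .ne (.add .t .L) (.add (.add .N .x) (.k 4)), .ne (.add .t .L) (.add (.add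
  .N .x) (.k 6))]

theorem qr16 {N t x y L : ℤ} (hD : D N t) : Fk.All ⟨N, t, x, y, L⟩ kr16 → P (A N t) N x y L :=
  Fk.route (fam hD x y L) kr16 .y (.dn .x (.k 0))
    [(3, .dn (.sub .N (.k 1)) (.add (.sub (.add .N .x) .L) (.k 3))), (0, .pt .N), (1, .pt .y)]
    [.f 128, .f 8650880, .f 36029355373297797, .f 128, .f 128, .f 36029359668330629, .f 8519808, .f
    128, .f 128, .f 128, .f 128, .f 128, .f 571239039107, .f 9306240, .f 128, .f 36029359668330629,
    .f 8519808, .s 11 (.f 8454272) (.f 12648576), .s 10 (.f 8454272) (.f 12648576), .s 9 (.f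
    8454272) (.f 12648576), .f 128, .f 128, .f 128, .f 37436730256851072, .f 549764399236, .f
    549764333701, .f 549764399236, .f 549764333701, .s 6 (.f 12648576) (.f 8454272), .s 7 (.f
    12648576) (.f 8454272), .s 8 (.f 12648576) (.f 8454272), .f 128, .f 128, .f 554059300997, .f
    8716417, .f 8585344, .f 128, .f 128, .f 128, .f 128]
    (by decide +kernel)

theorem rT16 {N t x y L : ℤ} (hD : D N t)
    (c0 : x + 4 ≤ L)
    (c1 : x + 1 ≤ y)
    (c2 : (0 : ℤ) ≤ x)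
    (c3 : y + L ≤ N + x + 2)
    (c4 : y + 3 ≠ t)
    (c5 : y + 1 ≠ t)
    (c6 : y ≠ t)
    (c7 : t + L ≠ N + x + 3)
    (c8 : t + L ≠ N + x + 4)
    (c9 : t + L ≠ N + x + 6) :
    P (A N t) N x y L := by
  exact qr16 hD ⟨c0, c1, c2, c3, c4, c5, c6, c7, c8, c9, trivial⟩

/-- hypotheses -/
noncomputable def kr17 : List Fk.C :=
  [.le (.add (.add .t .x) (.k 2)) (.add .y .L), .le (.add .x (.k 1)) .y, .le (.k 0) .x, .le (.add
  .y (.k 2)) .t, .le (.add .y .L) (.add (.add .N .x) (.k 2)), .ne (.add .y .L) (.add (.add .N .x)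
  (.k 1)), .ne (.add .y .L) (.add (.add .N .x) (.k 2)), .ne (.add .y .L) (.add (.add .N .x) (.k
  4))]

theorem qr17 {N t x y L : ℤ} (hD : D N t) : Fk.All ⟨N, t, x, y, L⟩ kr17 → P (A N t) N x y L :=
  Fk.route (fam hD x y L) kr17 .y (.dn .x (.k 0))
    [(3, .dn (.sub .N (.k 1)) (.add (.sub (.sub (.add (.add .N .t) .x) .y) .L) (.k 1))), (0, .pt
    .N), (1, .dn (.sub .t (.k 2)) .y)]
    [.f 128, .f 8650880, .f 2361220678165079457926, .f 128, .f 128, .f 2361220678173669392518, .f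
    8519808, .f 128, .f 128, .f 128, .f 128, .f 128, .f 37718218118267011, .f 9175168, .f 128, .f
    2361220678173669392518, .f 8519808, .f 8781952, .s 8 (.f 8454272) (.f 12648576), .s 7 (.f
    8454272) (.f 12648576), .f 128, .f 128, .f 128, .f 2471901142607336571011, .f 562649104516, .f
    8716416, .f 549764333702, .f 36029368258265219, .f 549764333702, .f 128, .f 192, .f 192, .f
    128, .f 128, .f 575534137473, .f 8781953, .f 8585344, .f 128, .f 128, .f 128, .f 128]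
    (by decide +kernel)

theorem rT17 {N t x y L : ℤ} (hD : D N t)
    (c0 : t + x + 2 ≤ y + L)
    (c1 : x + 1 ≤ y)
    (c2 : (0 : ℤ) ≤ x)
    (c3 : y + 2 ≤ t)
    (c4 : y + L ≤ N + x + 2)
    (c5 : y + L ≠ N + x + 1)
    (c6 : y + L ≠ N + x + 2)
    (c7 : y + L ≠ N + x + 4) :
    P (A N t) N x y L := by
  exact qr17 hD ⟨c0, c1, c2, c3, c4, c5, c6, c7, trivial⟩

/-- hypotheses -/
noncomputable def kr18 : List Fk.C :=
  [.le (.add .t (.k 5)) (.add .y .L), .le (.add .x (.k 1)) .y, .le .y (.add .t (.k 2)), .le (.add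
  .y .L) (.add (.add .t .x) (.k 5)), .ne (.add .y .L) (.add .x (.k 5)), .ne (.add .y .L) (.add .x
  (.k 6)), .ne (.add .y .L) (.add .x (.k 8))]

theorem qr18 {N t x y L : ℤ} (hD : D N t) : Fk.All ⟨N, t, x, y, L⟩ kr18 → P (A N t) N x y L :=
  Fk.route (fam hD x y L) kr18 .y (.dn .x (.add (.sub (.sub (.add .t .x) .y) .L) (.k 5)))
    [(0, .pt .N), (1, .dn (.add .t (.k 2)) .y)]
    [.f 8716416, .f 8519808, .f 2527277122691681943691, .f 128, .f 128, .f 9109632, .f 128, .f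
    8716416, .f 165627633513285004938117259, .s 8 (.f 8454272) (.f 12648576), .s 7 (.f 8454272) (.f
    12648576), .s 6 (.f 8454272) (.f 12648576), .f 128, .f 128, .f 2527277122691681943691, .f
    36873771713429637, .f 8650880, .f 588427296907, .f 2361220396690102878339, .f 588427296907, .f
    128, .f 128, .f 128, .f 128, .f 128, .f 588427362443, .f 8585344, .f 128, .f 128, .f 128, .f
    128]
    (by decide +kernel)

theorem rT18 {N t x y L : ℤ} (hD : D N t)
    (c0 : t + 5 ≤ y + L)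
    (c1 : x + 1 ≤ y)
    (c2 : y ≤ t + 2)
    (c3 : y + L ≤ t + x + 5)
    (c4 : y + L ≠ x + 5)
    (c5 : y + L ≠ x + 6)
    (c6 : y + L ≠ x + 8) :
    P (A N t) N x y L := by
  exact qr18 hD ⟨c0, c1, c2, c3, c4, c5, c6, trivial⟩

/-- hypotheses -/
noncomputable def kr19 : List Fk.C :=
  [.le (.add (.add .N .x) (.k 2)) (.add .y .L), .le (.k 0) .x, .le (.add .y (.k 2)) .N, .le .L
  (.add .N (.k 1)), .ne (.add .y (.k 4)) .t, .ne (.add .y (.k 2)) .t, .ne (.add .y (.k 1)) .t, .ne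
  (.add .t .L) (.add (.add .N .x) (.k 2)), .ne (.add .t .L) (.add (.add .N .x) (.k 3)), .ne (.add
  .t .L) (.add (.add .N .x) (.k 5))]

theorem qr19 {N t x y L : ℤ} (hD : D N t) : Fk.All ⟨N, t, x, y, L⟩ kr19 → P (A N t) N x y L :=
  Fk.route (fam hD x y L) kr19 .y (.dn .x (.k 0))
    [(3, .dn (.sub .N (.k 1)) (.add .y (.k 1))), (0, .pt .N), (1, .up (.add (.sub (.add .N .x) .L)
    (.k 2)) .y)]
    [.f 128, .f 8585344, .f 36029363963166853, .f 128, .f 128, .f 36029355373428867, .f 8650880, .f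
    128, .f 128, .f 128, .f 128, .f 128, .f 571239170176, .f 9306240, .f 128, .f 36029355373428867,
    .f 8650880, .s 6 (.f 12648576) (.f 8454272), .s 7 (.f 12648576) (.f 8454272), .s 8 (.f
    12648576) (.f 8454272), .f 128, .f 128, .f 128, .f 37436738846720128, .f 571239039107, .f
    8519808, .f 8650880, .f 571239039107, .f 549764464770, .s 11 (.f 8454272) (.f 12648576), .s 10
    (.f 8454272) (.f 12648576), .s 9 (.f 8454272) (.f 12648576), .f 128, .f 128, .f 8650881, .f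
    129, .f 8716416, .f 128, .f 128, .f 128, .f 128]
    (by decide +kernel)

theorem rT19 {N t x y L : ℤ} (hD : D N t)
    (c0 : N + x + 2 ≤ y + L)
    (c1 : (0 : ℤ) ≤ x)
    (c2 : y + 2 ≤ N)
    (c3 : L ≤ N + 1)
    (c4 : y + 4 ≠ t)
    (c5 : y + 2 ≠ t)
    (c6 : y + 1 ≠ t)
    (c7 : t + L ≠ N + x + 2)
    (c8 : t + L ≠ N + x + 3)
    (c9 : t + L ≠ N + x + 5) :
    P (A N t) N x y L := by
  exact qr19 hD ⟨c0, c1, c2, c3, c4, c5, c6, c7, c8, c9, trivial⟩

/-- hypotheses -/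
noncomputable def kr20 : List Fk.C :=
  [.le (.add (.add .N .x) (.k 2)) (.add .y .L), .le (.k 1) .x, .le (.add .y (.k 1)) .N, .le .L
  (.add .N (.k 1)), .ne (.add .x (.k 2)) .t, .ne .x .t, .ne .x (.add .t (.k 1)), .ne (.add (.add .y
  .L) (.k 1)) (.add .N .t), .ne (.add .y .L) (.add (.add .N .t) (.k 1)), .ne (.add .y .L) (.add
  (.add .N .t) (.k 2))]

theorem qr20 {N t x y L : ℤ} (hD : D N t) : Fk.All ⟨N, t, x, y, L⟩ kr20 → P (A N t) N x y L :=
  Fk.route (fam hD x y L) kr20 .y (.up .x (.sub (.sub (.add .y .L) .N) (.k 2)))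
    [(0, .pt .N), (1, .dn (.sub .x (.k 1)) (.k 0)), (3, .dn (.sub .N (.k 1)) .y)]
    [.f 8585344, .f 8519808, .f 549764464773, .f 128, .f 128, .f 9306240, .f 128, .f 549764333699,
    .f 549764464773, .s 9 (.f 12648576) (.f 8454272), .s 10 (.f 12648576) (.f 8454272), .s 11 (.f
    12648576) (.f 8454272), .f 128, .f 128, .f 571239301248, .f 128, .f 8585344, .f
    36029363963166853, .f 8585344, .f 36029363963166853, .s 6 (.f 12648576) (.f 8454272), .s 7 (.f
    12648576) (.f 8454272), .s 8 (.f 12648576) (.f 8454272), .f 128, .f 128, .f 37436738846720129,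
    .f 129, .f 36029355373297797, .f 8650880, .f 128, .f 128, .f 128, .f 128, .f 128, .f
    549764333701, .f 129, .f 8716416, .f 128, .f 128, .f 128, .f 128]
    (by decide +kernel)

theorem rT20 {N t x y L : ℤ} (hD : D N t)
    (c0 : N + x + 2 ≤ y + L)
    (c1 : (1 : ℤ) ≤ x)
    (c2 : y + 1 ≤ N)
    (c3 : L ≤ N + 1)
    (c4 : x + 2 ≠ t)
    (c5 : x ≠ t)
    (c6 : x ≠ t + 1)
    (c7 : y + L + 1 ≠ N + t)
    (c8 : y + L ≠ N + t + 1)
    (c9 : y + L ≠ N + t + 2) :
    P (A N t) N x y L := by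
  exact qr20 hD ⟨c0, c1, c2, c3, c4, c5, c6, c7, c8, c9, trivial⟩

/-- hypotheses -/
noncomputable def kr21 : List Fk.C :=
  [.le (.add (.add .N .x) (.k 1)) (.add .y .L), .le (.k 2) .x, .le (.add .y (.k 1)) .N, .le .L .N,
  .ne (.add .x (.k 1)) .t, .ne .x (.add .t (.k 1)), .ne .x (.add .t (.k 2)), .ne (.add (.add .y .L)
  (.k 2)) (.add .N .t), .ne (.add .y .L) (.add .N .t), .ne (.add .y .L) (.add (.add .N .t) (.k 1))]

theorem qr21 {N t x y L : ℤ} (hD : D N t) : Fk.All ⟨N, t, x, y, L⟩ kr21 → P (A N t) N x y L :=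
  Fk.route (fam hD x y L) kr21 .y (.up .x (.sub (.sub (.add .y .L) .N) (.k 1)))
    [(0, .pt .N), (1, .dn (.sub .x (.k 2)) (.k 0)), (3, .dn (.sub .N (.k 1)) .y)]
    [.f 8585344, .f 8519808, .f 549764464773, .f 128, .f 128, .f 9306240, .f 128, .f 549764333699,
    .f 549764464773, .s 9 (.f 12648576) (.f 8454272), .s 10 (.f 12648576) (.f 8454272), .s 11 (.f
    12648576) (.f 8454272), .f 128, .f 128, .f 571239301248, .f 128, .f 8585344, .f
    36029363963166853, .f 8585344, .f 36029363963166853, .s 6 (.f 12648576) (.f 8454272), .s 7 (.f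
    12648576) (.f 8454272), .s 8 (.f 12648576) (.f 8454272), .f 128, .f 128, .f 37436738846720129,
    .f 129, .f 36029355373297797, .f 8650880, .f 128, .f 128, .f 128, .f 128, .f 128, .f
    549764333701, .f 129, .f 8716416, .f 128, .f 128, .f 128, .f 128]
    (by decide +kernel)

theorem rT21 {N t x y L : ℤ} (hD : D N t)
    (c0 : N + x + 1 ≤ y + L)
    (c1 : (2 : ℤ) ≤ x)
    (c2 : y + 1 ≤ N)
    (c3 : L ≤ N)
    (c4 : x + 1 ≠ t)
    (c5 : x ≠ t + 1)
    (c6 : x ≠ t + 2)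
    (c7 : y + L + 2 ≠ N + t)
    (c8 : y + L ≠ N + t)
    (c9 : y + L ≠ N + t + 1) :
    P (A N t) N x y L := by
  exact qr21 hD ⟨c0, c1, c2, c3, c4, c5, c6, c7, c8, c9, trivial⟩

/-- hypotheses -/
noncomputable def kr22 : List Fk.C :=
  [.le (.add .N (.k 2)) (.add .y .L), .le (.k 0) .x, .le (.add .x .L) (.add .N (.k 1)), .le (.add
  .y (.k 1)) .N, .ne (.add (.add (.add .x .y) .L) (.k 1)) (.add .N .t), .ne (.add (.add .x .y) .L)
  (.add (.add .N .t) (.k 1)), .ne (.add (.add .x .y) .L) (.add (.add .N .t) (.k 2))]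

theorem qr22 {N t x y L : ℤ} (hD : D N t) : Fk.All ⟨N, t, x, y, L⟩ kr22 → P (A N t) N x y L :=
  Fk.route (fam hD x y L) kr22 .y (.up .x (.sub (.sub (.add (.add .x .y) .L) .N) (.k 2)))
    [(0, .pt .N), (1, .dn (.sub .N (.k 1)) .y)]
    [.f 8585344, .f 8519808, .f 549764530308, .f 128, .f 128, .f 9109632, .f 128, .f 549764333699,
    .f 549764530308, .s 6 (.f 12648576) (.f 8454272), .s 7 (.f 12648576) (.f 8454272), .s 8 (.f
    12648576) (.f 8454272), .f 128, .f 128, .f 566944399488, .f 37155246690140291, .f 8716416, .f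
    128, .f 9109632, .f 128, .f 165625290740758309934989444, .f 165625290740758309934989444, .f
    588419629312, .f 128, .f 128, .f 129, .f 8650880, .f 128, .f 128, .f 128, .f 128]
    (by decide +kernel)

theorem rT22 {N t x y L : ℤ} (hD : D N t)
    (c0 : N + 2 ≤ y + L)
    (c1 : (0 : ℤ) ≤ x)
    (c2 : x + L ≤ N + 1)
    (c3 : y + 1 ≤ N)
    (c4 : x + y + L + 1 ≠ N + t)
    (c5 : x + y + L ≠ N + t + 1)
    (c6 : x + y + L ≠ N + t + 2) :
    P (A N t) N x y L := by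
  exact qr22 hD ⟨c0, c1, c2, c3, c4, c5, c6, trivial⟩

/-- hypotheses -/
noncomputable def kr23 : List Fk.C :=
  [.le (.add .N .x) (.add .y .L), .le (.k 0) .x, .le (.add .y (.k 4)) .N, .le (.add .L (.k 1)) .N,
  .ne (.add .y (.k 6)) .t, .ne (.add .y (.k 4)) .t, .ne (.add .y (.k 3)) .t, .ne (.add .t .L) (.add
  .N .x), .ne (.add .t .L) (.add (.add .N .x) (.k 1)), .ne (.add .t .L) (.add (.add .N .x) (.k 3))]

theorem qr23 {N t x y L : ℤ} (hD : D N t) : Fk.All ⟨N, t, x, y, L⟩ kr23 → P (A N t) N x y L :=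
  Fk.route (fam hD x y L) kr23 .y (.dn .x (.k 0))
    [(3, .dn (.sub .N (.k 1)) (.add .y (.k 3))), (0, .pt .N), (1, .up (.sub (.add .N .x) .L) .y)]
    [.f 128, .f 8585344, .f 36029363963166853, .f 128, .f 128, .f 36029355373428867, .f 8650880, .f
    128, .f 128, .f 128, .f 128, .f 128, .f 571239170176, .f 9306240, .f 128, .f 36029355373428867,
    .f 8650880, .s 6 (.f 12648576) (.f 8454272), .s 7 (.f 12648576) (.f 8454272), .s 8 (.f
    12648576) (.f 8454272), .f 128, .f 128, .f 128, .f 37436738846720128, .f 571239039107, .f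
    8519808, .f 8650880, .f 571239039107, .f 549764464770, .s 11 (.f 8454272) (.f 12648576), .s 10
    (.f 8454272) (.f 12648576), .s 9 (.f 8454272) (.f 12648576), .f 128, .f 128, .f 8650881, .f
    129, .f 8716416, .f 128, .f 128, .f 128, .f 128]
    (by decide +kernel)

theorem rT23 {N t x y L : ℤ} (hD : D N t)
    (c0 : N + x ≤ y + L)
    (c1 : (0 : ℤ) ≤ x)
    (c2 : y + 4 ≤ N)
    (c3 : L + 1 ≤ N)
    (c4 : y + 6 ≠ t)
    (c5 : y + 4 ≠ t)
    (c6 : y + 3 ≠ t)
    (c7 : t + L ≠ N + x)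
    (c8 : t + L ≠ N + x + 1)
    (c9 : t + L ≠ N + x + 3) :
    P (A N t) N x y L := by
  exact qr23 hD ⟨c0, c1, c2, c3, c4, c5, c6, c7, c8, c9, trivial⟩

/-- hypotheses -/
noncomputable def kr24 : List Fk.C :=
  [.le .t (.add .y (.k 2)), .le (.k 0) .x, .le (.add (.add .x .y) (.k 6)) (.add .t .L), .le (.add
  .x (.k 3)) .t, .le (.add .t .L) (.add (.add .N .x) (.k 4)), .ne (.add (.mul 2 .t) .L) (.add (.add
  (.add .N .x) .y) (.k 5)), .ne (.add (.mul 2 .t) .L) (.add (.add (.add .N .x) .y) (.k 6)), .ne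
  (.add (.mul 2 .t) .L) (.add (.add (.add .N .x) .y) (.k 8))]

theorem qr24 {N t x y L : ℤ} (hD : D N t) : Fk.All ⟨N, t, x, y, L⟩ kr24 → P (A N t) N x y L :=
  Fk.route (fam hD x y L) kr24 .y (.dn .x (.k 0))
    [(3, .dn (.sub .N (.k 1)) (.add (.sub (.sub (.add (.add .N .x) .y) .t) .L) (.k 5))), (0, .pt
    .N), (1, .up (.sub .t (.k 2)) .y)]
    [.f 128, .f 8585344, .f 2361219833753034293382, .f 128, .f 128, .f 2361219833753034227846, .f
    8650880, .f 128, .f 128, .f 128, .f 128, .f 128, .f 37718205233692800, .f 9175168, .f 128, .f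
    2361219833753034227846, .f 8650880, .f 549764333702, .s 8 (.f 8454272) (.f 12648576), .s 7 (.f
    8454272) (.f 12648576), .f 128, .f 128, .f 128, .f 2471900298195291340932, .f 571239039107, .f
    8519808, .f 549764464774, .f 571239039107, .f 36029355373363334, .f 128, .f 192, .f 192, .f
    128, .f 128, .f 575534071940, .f 8781953, .f 8716416, .f 128, .f 128, .f 128, .f 128]
    (by decide +kernel)

theorem rT24 {N t x y L : ℤ} (hD : D N t)
    (c0 : t ≤ y + 2)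
    (c1 : (0 : ℤ) ≤ x)
    (c2 : x + y + 6 ≤ t + L)
    (c3 : x + 3 ≤ t)
    (c4 : t + L ≤ N + x + 4)
    (c5 : 2 * t + L ≠ N + x + y + 5)
    (c6 : 2 * t + L ≠ N + x + y + 6)
    (c7 : 2 * t + L ≠ N + x + y + 8) :
    P (A N t) N x y L := by
  exact qr24 hD ⟨c0, c1, c2, c3, c4, c5, c6, c7, trivial⟩

/-- hypotheses -/
noncomputable def kr25 : List Fk.C :=
  [.le .t (.add .y (.k 2)), .le (.add .x .L) (.add .y (.k 2)), .le (.k 0) .x, .le (.add .y (.k 5))
  (.add .t .L), .le (.add .y (.k 1)) .N, .ne (.add .y (.k 5)) (.add .x .L), .ne (.add .y (.k 4))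
  (.add .x .L), .ne (.add .y (.k 2)) (.add .x .L)]

theorem qr25 {N t x y L : ℤ} (hD : D N t) : Fk.All ⟨N, t, x, y, L⟩ kr25 → P (A N t) N x y L :=
  Fk.route (fam hD x y L) kr25 .y (.up .x (.sub (.sub (.add (.add .t .x) .L) .y) (.k 5)))
    [(0, .pt .N), (1, .up (.sub .t (.k 2)) .y)]
    [.f 8650880, .f 8716416, .f 36029359668199558, .f 128, .f 128, .f 9175168, .f 128, .f
    549764464773, .f 36029359668199558, .s 9 (.f 8454272) (.f 12648576), .f 8585408, .f 8585408, .f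
    128, .f 128, .f 37718209528463488, .f 36873771713560709, .f 8519808, .f 8781952, .f
    36873771713560709, .f 549764333702, .f 128, .f 192, .f 192, .f 128, .f 128, .f 8781953, .f
    8585344, .f 128, .f 128, .f 128, .f 128]
    (by decide +kernel)

theorem rT25 {N t x y L : ℤ} (hD : D N t)
    (c0 : t ≤ y + 2)
    (c1 : x + L ≤ y + 2)
    (c2 : (0 : ℤ) ≤ x)
    (c3 : y + 5 ≤ t + L)
    (c4 : y + 1 ≤ N)
    (c5 : y + 5 ≠ x + L)
    (c6 : y + 4 ≠ x + L)
    (c7 : y + 2 ≠ x + L) :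
    P (A N t) N x y L := by
  exact qr25 hD ⟨c0, c1, c2, c3, c4, c5, c6, c7, trivial⟩

/-- hypotheses -/
noncomputable def kr26 : List Fk.C :=
  [.le .N (.add .y (.k 3)), .le .N (.add (.add .x .L) (.k 1)), .le (.k 0) .x, .le (.add .x (.k 4))
  .N, .le (.add (.add (.add .x .y) .L) (.k 2)) (.mul 2 .N), .ne (.add (.add (.add .x .y) .L) (.k
  4)) (.add .N .t), .ne (.add (.add (.add .x .y) .L) (.k 2)) (.add .N .t), .ne (.add (.add (.add .x
  .y) .L) (.k 1)) (.add .N .t)]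

theorem qr26 {N t x y L : ℤ} (hD : D N t) : Fk.All ⟨N, t, x, y, L⟩ kr26 → P (A N t) N x y L :=
  Fk.route (fam hD x y L) kr26 .y (.up .x (.sub .N (.k 4)))
    [(0, .pt .N), (1, .dn (.add (.sub (.add (.add .x .y) .L) .N) (.k 1)) .y)]
    [.f 8650880, .f 8716416, .f 128, .f 128, .f 128, .f 9175168, .f 128, .f 9175168, .f 128, .f
    38844118033498244, .f 592722264204, .f 592722264204, .f 128, .f 128, .f 128, .f
    36029355373363333, .f 8585344, .f 8781952, .f 2361220115215126102149, .f 8781952, .f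
    166834216596401740423823616, .f 2545723303317221867776, .f 2545723585298996920576, .f 128, .f
    128, .f 8781953, .f 8519808, .f 128, .f 128, .f 128, .f 128]
    (by decide +kernel)

theorem rT26 {N t x y L : ℤ} (hD : D N t)
    (c0 : N ≤ y + 3)
    (c1 : N ≤ x + L + 1)
    (c2 : (0 : ℤ) ≤ x)
    (c3 : x + 4 ≤ N)
    (c4 : x + y + L + 2 ≤ 2 * N)
    (c5 : x + y + L + 4 ≠ N + t)
    (c6 : x + y + L + 2 ≠ N + t)
    (c7 : x + y + L + 1 ≠ N + t) :
    P (A N t) N x y L := by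
  exact qr26 hD ⟨c0, c1, c2, c3, c4, c5, c6, c7, trivial⟩

/-- hypotheses -/
noncomputable def kr27 : List Fk.C :=
  [.le (.add .x (.k 3)) .L, .le .L (.add .y (.k 2)), .le (.k 0) .x, .le (.add .y (.k 1)) .N, .ne
  (.add (.add .x .y) (.k 6)) (.add .t .L), .ne (.add (.add .x .y) (.k 4)) (.add .t .L), .ne (.add
  (.add .x .y) (.k 3)) (.add .t .L)]

theorem qr27 {N t x y L : ℤ} (hD : D N t) : Fk.All ⟨N, t, x, y, L⟩ kr27 → P (A N t) N x y L :=
  Fk.route (fam hD x y L) kr27 .y (.dn .x (.k 0))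
    [(0, .pt .N), (1, .up (.add (.sub (.add .x .y) .L) (.k 3)) .y)]
    [.f 128, .f 8650880, .f 36029355373297797, .f 128, .f 128, .f 9109632, .f 128, .f 128, .f
    9109632, .f 592726458507, .f 386858660390284707041509509, .f 386858660390284707041509509, .f
    128, .f 128, .f 37436730256851072, .f 562649104516, .f 8519808, .f 8716416, .f 562649104516, .f
    549764333701, .s 6 (.f 12648576) (.f 8454272), .s 7 (.f 12648576) (.f 8454272), .s 8 (.f
    12648576) (.f 8454272), .f 128, .f 128, .f 8716417, .f 8585344, .f 128, .f 128, .f 128, .f 128]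
    (by decide +kernel)

theorem rT27 {N t x y L : ℤ} (hD : D N t)
    (c0 : x + 3 ≤ L)
    (c1 : L ≤ y + 2)
    (c2 : (0 : ℤ) ≤ x)
    (c3 : y + 1 ≤ N)
    (c4 : x + y + 6 ≠ t + L)
    (c5 : x + y + 4 ≠ t + L)
    (c6 : x + y + 3 ≠ t + L) :
    P (A N t) N x y L := by
  exact qr27 hD ⟨c0, c1, c2, c3, c4, c5, c6, trivial⟩

/-- hypotheses -/
noncomputable def kr28 : List Fk.C :=
  [.le (.add (.add .N .x) (.k 1)) (.add .y .L), .le (.k 0) .x, .le (.add .y (.k 3)) .N, .le .L .N,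
  .ne (.add .y (.k 5)) .t, .ne (.add .y (.k 3)) .t, .ne (.add .y (.k 2)) .t, .ne (.add .t .L) (.add
  (.add .N .x) (.k 1)), .ne (.add .t .L) (.add (.add .N .x) (.k 2)), .ne (.add .t .L) (.add (.add
  .N .x) (.k 4))]

theorem qr28 {N t x y L : ℤ} (hD : D N t) : Fk.All ⟨N, t, x, y, L⟩ kr28 → P (A N t) N x y L :=
  Fk.route (fam hD x y L) kr28 .y (.dn .x (.k 0))
    [(3, .dn (.sub .N (.k 1)) (.add .y (.k 2))), (0, .pt .N), (1, .up (.add (.sub (.add .N .x) .L)
    (.k 1)) .y)]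
    [.f 128, .f 8585344, .f 36029363963166853, .f 128, .f 128, .f 36029355373428867, .f 8650880, .f
    128, .f 128, .f 128, .f 128, .f 128, .f 571239170176, .f 9306240, .f 128, .f 36029355373428867,
    .f 8650880, .s 6 (.f 12648576) (.f 8454272), .s 7 (.f 12648576) (.f 8454272), .s 8 (.f
    12648576) (.f 8454272), .f 128, .f 128, .f 128, .f 37436738846720128, .f 571239039107, .f
    8519808, .f 8650880, .f 571239039107, .f 549764464770, .s 11 (.f 8454272) (.f 12648576), .s 10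
    (.f 8454272) (.f 12648576), .s 9 (.f 8454272) (.f 12648576), .f 128, .f 128, .f 8650881, .f
    129, .f 8716416, .f 128, .f 128, .f 128, .f 128]
    (by decide +kernel)

theorem rT28 {N t x y L : ℤ} (hD : D N t)
    (c0 : N + x + 1 ≤ y + L)
    (c1 : (0 : ℤ) ≤ x)
    (c2 : y + 3 ≤ N)
    (c3 : L ≤ N)
    (c4 : y + 5 ≠ t)
    (c5 : y + 3 ≠ t)
    (c6 : y + 2 ≠ t)
    (c7 : t + L ≠ N + x + 1)
    (c8 : t + L ≠ N + x + 2)
    (c9 : t + L ≠ N + x + 4) :
    P (A N t) N x y L := by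
  exact qr28 hD ⟨c0, c1, c2, c3, c4, c5, c6, c7, c8, c9, trivial⟩

/-- hypotheses -/
noncomputable def kr29 : List Fk.C :=
  [.le (.add (.add .N .x) .y) (.add (.mul 2 .t) .L), .le .t .y, .le (.k 0) .x, .le (.add .x (.k 1))
  .t, .le (.add .t .L) (.add (.add .N .x) (.k 2)), .ne (.add (.mul 2 .t) .L) (.add (.add (.add .N
  .x) .y) (.k 3)), .ne (.add (.mul 2 .t) .L) (.add (.add (.add .N .x) .y) (.k 4)), .ne (.add (.mul
  2 .t) .L) (.add (.add (.add .N .x) .y) (.k 6))]

theorem qr29 {N t x y L : ℤ} (hD : D N t) : Fk.All ⟨N, t, x, y, L⟩ kr29 → P (A N t) N x y L :=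
  Fk.route (fam hD x y L) kr29 .y (.dn .x (.k 0))
    [(3, .dn (.sub .N (.k 1)) (.add .t (.k 4))), (0, .pt .N), (1, .up (.add (.sub (.sub (.add (.add
    .N .x) .y) .t) .L) (.k 3)) (.add .t (.k 3))), (5, .up .t .y)]
    [.f 128, .f 8650880, .f 36029363971752074, .f 128, .f 128, .f 549764464773, .f 1099520802954,
    .f 128, .f 128, .f 128, .f 128, .f 128, .f 8716416, .f 9175168, .f 128, .f 549764464773, .f
    1099520802954, .f 128, .f 128, .f 128, .f 128, .f 128, .f 128, .f 73465561643745420, .f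
    2471900579670268313728, .f 8519808, .f 1099520802954, .f 2471900579670268313728, .f
    72058702148665482, .f 575534203008, .f 575534203008, .f 575534203008, .f 128, .f 128, .f
    592722329740, .f 129, .f 37718209528660096, .f 571239039108, .f 8585344, .f
    4833119568955414675594, .f 128, .f 128, .f 128, .f 128, .f 8781953, .f 2545723022366231101580,
    .f 575534137473, .f 8716416, .f 128, .f 128, .f 128, .f 128]
    (by decide +kernel)

theorem rT29 {N t x y L : ℤ} (hD : D N t)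
    (c0 : N + x + y ≤ 2 * t + L)
    (c1 : t ≤ y)
    (c2 : (0 : ℤ) ≤ x)
    (c3 : x + 1 ≤ t)
    (c4 : t + L ≤ N + x + 2)
    (c5 : 2 * t + L ≠ N + x + y + 3)
    (c6 : 2 * t + L ≠ N + x + y + 4)
    (c7 : 2 * t + L ≠ N + x + y + 6) :
    P (A N t) N x y L := by
  exact qr29 hD ⟨c0, c1, c2, c3, c4, c5, c6, c7, trivial⟩

/-- hypotheses -/
noncomputable def kr30 : List Fk.C :=
  [.le (.add (.add .N .x) (.k 3)) (.add .t .L), .le (.k 0) .x, .le (.add .y (.k 1)) .t, .le (.add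
  .t .L) (.add (.add .N .y) (.k 2)), .ne (.add (.mul 2 .t) .L) (.add (.add (.add .N .x) .y) (.k
  3)), .ne (.add (.mul 2 .t) .L) (.add (.add (.add .N .x) .y) (.k 4)), .ne (.add (.mul 2 .t) .L)
  (.add (.add (.add .N .x) .y) (.k 6))]

theorem qr30 {N t x y L : ℤ} (hD : D N t) : Fk.All ⟨N, t, x, y, L⟩ kr30 → P (A N t) N x y L :=
  Fk.route (fam hD x y L) kr30 .y (.dn .x (.k 0))
    [(3, .dn (.sub .N (.k 1)) (.add .t (.k 3))), (5, .up .t (.add .t (.k 2))), (0, .pt .N), (1, .up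
    (.add (.sub (.sub (.add (.add .N .x) .y) .t) .L) (.k 3)) .y)]
    [.f 128, .f 8585344, .f 154745032188076164150067460, .f 128, .f 128, .f 2361219833753034227844,
    .f 1099520606347, .f 128, .f 128, .f 128, .f 128, .f 128, .f 37436730256654468, .f
    2435006247097919012994, .f 128, .f 1099520606347, .f 128, .f 128, .f 128, .f 128, .f 129, .f
    37155246690336898, .f 9109632, .f 128, .f 2361219833753034227844, .f 1099520606347, .f 128, .f
    128, .f 128, .f 128, .f 128, .f 1099520606347, .f 128, .f 314323240377207752082194571, .f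
    571239235712, .f 8519808, .f 154745032152047367122714884, .f 571239235712, .f
    154745032152047367131103492, .s 8 (.f 8454272) (.f 12648576), .s 7 (.f 8454272) (.f 12648576),
    .f 566948266114, .f 128, .f 128, .f 314323240376081315295920261, .f 8650881, .f 8650881, .f
    8716416, .f 128, .f 128, .f 128, .f 128]
    (by decide +kernel)

theorem rT30 {N t x y L : ℤ} (hD : D N t)
    (c0 : N + x + 3 ≤ t + L)
    (c1 : (0 : ℤ) ≤ x)
    (c2 : y + 1 ≤ t)
    (c3 : t + L ≤ N + y + 2)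
    (c4 : 2 * t + L ≠ N + x + y + 3)
    (c5 : 2 * t + L ≠ N + x + y + 4)
    (c6 : 2 * t + L ≠ N + x + y + 6) :
    P (A N t) N x y L := by
  exact qr30 hD ⟨c0, c1, c2, c3, c4, c5, c6, trivial⟩

/-- hypotheses -/
noncomputable def kr31 : List Fk.C :=
  [.le (.add .t (.k 1)) (.add .x .L), .le (.add .x .L) (.add .y (.k 2)), .le (.k 0) .x, .le (.add
  .x (.k 2)) .t, .le (.add .y (.k 1)) .N, .ne (.add .y (.k 4)) (.add .x .L), .ne (.add .y (.k 2))
  (.add .x .L), .ne (.add .y (.k 1)) (.add .x .L)]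

theorem qr31 {N t x y L : ℤ} (hD : D N t) : Fk.All ⟨N, t, x, y, L⟩ kr31 → P (A N t) N x y L :=
  Fk.route (fam hD x y L) kr31 .y (.up .x (.sub .t (.k 2)))
    [(0, .pt .N), (1, .up (.add (.sub (.sub (.add .t .y) .x) .L) (.k 1)) .y)]
    [.f 8650880, .f 8716416, .f 36029359668199558, .f 128, .f 128, .f 9175168, .f 128, .f
    549764530308, .f 36029359668199558, .f 128, .f 192, .f 192, .f 128, .f 128, .f
    37718209528463488, .f 36873793188135044, .f 8519808, .f 8781952, .f 36873793188135044, .f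
    549764333702, .f 8585344, .s 8 (.f 12648576) (.f 8454272), .s 9 (.f 12648576) (.f 8454272), .f
    128, .f 128, .f 8781953, .f 8585344, .f 128, .f 128, .f 128, .f 128]
    (by decide +kernel)

theorem rT31 {N t x y L : ℤ} (hD : D N t)
    (c0 : t + 1 ≤ x + L)
    (c1 : x + L ≤ y + 2)
    (c2 : (0 : ℤ) ≤ x)
    (c3 : x + 2 ≤ t)
    (c4 : y + 1 ≤ N)
    (c5 : y + 4 ≠ x + L)
    (c6 : y + 2 ≠ x + L)
    (c7 : y + 1 ≠ x + L) :
    P (A N t) N x y L := by
  exact qr31 hD ⟨c0, c1, c2, c3, c4, c5, c6, c7, trivial⟩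


/-- table of hypotheses -/
noncomputable def tabr : List (List Fk.C) :=
  [kr0, kr1, kr2, kr3, kr4, kr5, kr6, kr7, kr8, kr9, kr10, kr11, kr12, kr13, kr14, kr15, kr16,
  kr17, kr18, kr19, kr20, kr21, kr22, kr23, kr24, kr25, kr26, kr27, kr28, kr29, kr30, kr31]

theorem tbr {N t x y L : ℤ} (hD : D N t) : Fk.Tab ⟨N, t, x, y, L⟩ (P (A N t) N x y L) tabr :=
  ⟨qr0 hD, qr1 hD, qr2 hD, qr3 hD, qr4 hD, qr5 hD, qr6 hD, qr7 hD, qr8 hD, qr9 hD, qr10 hD, qr11
  hD, qr12 hD, qr13 hD, qr14 hD, qr15 hD, qr16 hD, qr17 hD, qr18 hD, qr19 hD, qr20 hD, qr21 hD,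
  qr22 hD, qr23 hD, qr24 hD, qr25 hD, qr26 hD, qr27 hD, qr28 hD, qr29 hD, qr30 hD, qr31 hD,
  trivial⟩

theorem rn1 {N t x y L : ℤ} (hD : D N t)
    (h0 : (0 : ℤ) ≤ x)
    (h1 : x + 1 ≤ y)
    (h2 : y + 1 ≤ N)
    (h3 : (5 : ℤ) ≤ L)
    (h4 : L ≤ N)
    (h5 : y + L ≤ N + x + 1) :
    P (A N t) N x y L := by
  exact Fk.tree (fam hD x y L) (tbr hD)
    [.le (.k 0) .x, .le (.add .x (.k 1)) .y, .le (.add .y (.k 1)) .N, .le (.k 5) .L, .le .L .N, .le
    (.add .y .L) (.add (.add .N .x) (.k 1))]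
    (.nd .L (.add .x (.k 4)) (.nd .L (.add .x (.k 3)) (.nd (.add .x (.k 7)) (.add .t .L) (.nd (.add
    .t (.k 1)) .y (.lf 0 [.f 8847488, .f 8978560, .f 8650880, .f 8913024, .f 8585408, .f 8585408,
    .f 8585408, .f 8519808, .f 8519808, .f 8519808]) (.nd (.add .y .L) (.add .N (.k 2)) (.nd (.add
    .t (.k 6)) (.add .y .L) (.nd (.add .x (.k 8)) (.add .y .L) (.lf 1 [.f 8585344, .f 9044096, .f
    8716416, .f 549764661381, .f 8519808, .f 8519808, .f 8519808]) (.lf 2 [.f 558354333824, .f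
    9044096, .f 8781952, .f 36592309621489796, .f 38844122320273664, .f 38844122320273664, .f
    38844122320273664])) (.nd (.add .y (.k 4)) .t (.lf 0 [.f 9044096, .f 9175168, .f 8847488, .f
    9109632, .f 8782016, .f 8782016, .f 8782016, .f 8519872, .f 8519872, .f 8519872]) (.nd (.add .y
    (.k 2)) .t (.lf 3 [.f 549765054595, .f 9109632, .f 8519808, .f 558354661504, .f 562649563264,
    .f 562649563264, .f 597009694848]) (.nd (.add .x (.k 4)) .t (.lf 1 [.f 549765120131, .f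
    9175168, .f 8847488, .f 588419367040, .f 562649628800, .f 562649628800, .f 36873831842971776])
    (.nd (.add (.mul 2 .t) (.k 2)) (.add (.add .x .y) .L) (.lf 4 [.f 8650880, .f 584123940994, .f
    9175168, .f 37718746399834253, .f 2471937734384382115981, .f 8519808, .f 8519808, .f 8519808])
    (.lf 5 [.f 36592863672467584, .f 8585344, .f 8978560, .f 9306240, .f 36592863680856192, .f
    558358331663, .f 558358331663])))))) (.lf 1 [.f 4759298815663371124877, .f 8913024, .f 8585344,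
    .f 549764399237, .f 36029355373691016, .f 549764857992, .f 313116546580412028870983821]))) (.nd
    (.add .t .L) (.add .x (.k 5)) (.nd (.add .t .L) (.add .x (.k 3)) (.nd (.add .x (.k 2)) .y (.lf
    6 [.f 8519808, .f 9109632, .f 8781952, .f 9044096, .f 8585344, .f 8585344, .f 8585344, .f
    36873818958069888, .f 36873818958069888, .f 36873818958069888]) (.nd (.add .y (.k 2)) .N (.lf 7
    [.f 9044096, .f 9175168, .f 8847488, .f 8519808, .f 8650880, .f 8650880, .f 8650880, .f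
    37155298230272128, .f 37155298230272128, .f 37155298230272128]) (.lf 8 [.f 558354923648, .f
    9044096, .f 9109632, .f 9306240, .f 824642371723, .f 597009105088, .f 597009105088]))) (.nd
    (.add .t .L) (.add .y (.k 1)) (.nd (.add .t (.k 1)) .x (.lf 9 [.f 8585344, .f 8519808, .f
    8650880, .f 9109632, .f 562649235584, .f 562649235584, .f 562649235584]) (.lf 2 [.f
    571239825536, .f 9044096, .f 549764989058, .f 571239039115, .f 36029948078784642, .f
    36029948078784642, .f 36029948078784642])) (.nd (.add (.add .t .y) .L) (.add (.add .N .x) (.k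
    1)) (.nd (.add .t (.k 1)) .x (.lf 10 [.f 8519808, .f 9109632, .f 8716416, .f 8585344, .f
    39125571527311490, .f 36029368258134155, .f 39125571527311490]) (.lf 2 [.f 575534858368, .f
    9109632, .f 549765054594, .f 8585344, .f 597009694848, .f 597009694848, .f 597009694848])) (.nd
    (.add .t (.k 1)) .x (.lf 11 [.f 8585344, .f 8519808, .f 9109632, .f 9175168, .f 9371776, .f
    4833122383232747176081, .f 162001003609815817454157963, .f 9371840]) (.lf 2 [.f 575534858368,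
    .f 9109632, .f 549765054594, .f 575534006412, .f 597009694848, .f 549764923533, .f
    549764923533]))))) (.nd (.add (.add .t .y) .L) (.add (.add .N .x) (.k 4)) (.lf 2 [.f
    566944727168, .f 8913024, .f 8585344, .f 8519808, .f 549764857992, .f 549764857992, .f
    549764857992]) (.lf 12 [.f 37155289639813248, .f 8913024, .f 8978560, .f 9175168, .f 8519808,
    .f 8519808, .f 566948266121])))) (.nd (.add (.add .t .x) (.k 3)) (.add .y .L) (.lf 13 [.f
    8585344, .f 8781952, .f 549764726916, .f 9044096, .f 8519808, .f 8519808, .f 8519808]) (.nd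
    (.add .y .L) (.add .t .x) (.lf 14 [.f 8650880, .f 8847488, .f 8781952, .f 9109632, .f 8519872,
    .f 8519872, .f 8519872]) (.nd (.add .t (.k 4)) (.add .y .L) (.lf 1 [.f 8519808, .f 8913024, .f
    549764530308, .f 8650880, .f 2361220678190849196164, .f 2361220678190849196164, .f
    171672281059790589066739970]) (.nd (.add .x (.k 5)) .t (.lf 15 [.f 579829235840, .f
    549764464903, .f 8519808, .f 562658214016, .f 9044096, .f 2453490709071911190658, .f
    2453490709071911190658, .f 2453490709071911190658]) (.lf 3 [.f 549764464776, .f 8978560, .f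
    571239432320, .f 2637957024183985832080, .f 36029372553560200, .f 36029372553560200, .f
    36029372553560200])))))) (.nd (.add (.add .t .x) (.k 6)) (.add .y .L) (.lf 14 [.f 8585344, .f
    8716416, .f 8650880, .f 8978560, .f 8519808, .f 8519808, .f 8519808]) (.nd (.add .y (.k 4)) .t
    (.nd (.add .t .L) (.add (.add .N .x) (.k 2)) (.lf 16 [.f 8716416, .f 8847488, .f 8781952, .f
    9109632, .f 8585408, .f 8585408, .f 8585408, .f 8519872, .f 8519872, .f 8519872]) (.lf 17 [.f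
    2398116136658810568832, .f 8847488, .f 8781952, .f 8585344, .f 9109632, .f 73184868343611532,
    .f 9109696, .f 9109696])) (.nd (.add .t (.k 5)) (.add .y .L) (.lf 18 [.f 8519808, .f 8847488,
    .f 549764530308, .f 8650880, .f 2361220678186554228868, .f 158374004772591631218835717, .f
    311905480971698368375947527]) (.nd (.add .y (.k 2)) .t (.lf 17 [.f 566944465024, .f 8913024, .f
    8847488, .f 8519808, .f 9175168, .f 2601080987515187560591, .f 9175232, .f 9175232]) (.lf 1 [.f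
    36592322506850432, .f 8913024, .f 571239432320, .f 562649104519, .f 36029372553494663, .f
    36029372553494663, .f 4833086917866705387660]))))))
    (by decide +kernel) ⟨h0, h1, h2, h3, h4, h5, trivial⟩

theorem rn2 {N t x y L : ℤ} (hD : D N t)
    (h0 : (0 : ℤ) ≤ x)
    (h1 : x + 1 ≤ y)
    (h2 : y + 1 ≤ N)
    (h3 : (5 : ℤ) ≤ L)
    (h4 : L ≤ N)
    (h5 : ¬ (y + L ≤ N + x + 1)) :
    P (A N t) N x y L := by
  exact Fk.tree (fam hD x y L) (tbr hD)
    [.le (.k 0) .x, .le (.add .x (.k 1)) .y, .le (.add .y (.k 1)) .N, .le (.k 5) .L, .le .L .N,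
    .nle (.add .y .L) (.add (.add .N .x) (.k 1))]
    (.nd (.add .y (.k 2)) .N (.nd (.add .t .L) (.add (.add .N .x) (.k 1)) (.lf 19 [.f 8978560, .f
    8650880, .f 8585344, .f 8913024, .f 588418908290, .f 588418908290, .f 588418908290, .f 8519872,
    .f 8519872, .f 8519872]) (.nd (.k 1) .x (.nd (.add (.add .y .L) (.k 2)) (.add .N .t) (.lf 20
    [.f 9109632, .f 8585344, .f 8716416, .f 9044096, .f 36593121370767492, .f 38000496254124162, .f
    38000496254124162, .f 8519872, .f 8519872, .f 8519872]) (.nd (.add .N .t) (.add .y .L) (.nd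
    (.add (.add .N .t) (.k 2)) (.add .y .L) (.nd (.k 2) .x (.lf 21 [.f 9306240, .f 8519808, .f
    8913024, .f 9240704, .f 824642568333, .f 605602971783, .f 605602971783, .f 8585344, .f 8585344,
    .f 8585344]) (.lf 22 [.f 2545722740328613937287, .f 8781952, .f 558354137229, .f 8913024, .f
    549764399238, .f 549764399238, .f 575534006403])) (.nd (.add .L (.k 1)) .N (.nd (.add .y (.k
    4)) .N (.nd (.add (.add .N .x) (.k 4)) (.add .t .L) (.lf 23 [.f 9437312, .f 8913024, .f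
    8585344, .f 8650880, .f 566944465024, .f 549764595844, .f 549764595844, .f 8519808, .f 8519808,
    .f 8519808]) (.lf 24 [.f 566944465024, .f 8913024, .f 549764792451, .f 549764464777, .f
    8519808, .f 37155272459944128, .f 37155272459944128, .f 37155521568047238])) (.nd (.add .x .L)
    (.add .y (.k 2)) (.nd (.add .x .L) (.add .y (.k 1)) (.lf 25 [.f 579828973701, .f 8519808, .f
    8978560, .f 36029394028396682, .f 9109632, .f 8519808, .f 8519808, .f 8519808]) (.lf 26 [.f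
    8650880, .f 566944202880, .f 8978560, .f 2564136270372242718981, .f 562658214016, .f
    2453454961483580702848, .f 2453454961483580702848, .f 2435008217422755922048])) (.nd (.add
    (.add (.add .x .y) .L) (.k 2)) (.mul 2 .N) (.lf 26 [.f 8650880, .f 566944268416, .f 8978560, .f
    157165208189116303940780298, .f 8519808, .f 2453454961487875670144, .f 2453454961487875670144,
    .f 2453454961487875670144]) (.lf 27 [.f 2564136270372242718853, .f 566944071813, .f 8978560, .f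
    9109632, .f 161998494835170413117440133, .f 311912490751054522594099718, .f 597013037194]))))
    (.nd (.add (.add .N .x) (.k 3)) (.add .t .L) (.nd (.add (.add .N .x) (.k 5)) (.add .t .L) (.lf
    28 [.f 9437312, .f 8913024, .f 2361220678229504295042, .f 9371776, .f 614189105280, .f
    549764595855, .f 549764595855, .f 8519808, .f 8519808, .f 8519808]) (.lf 24 [.f
    39407072273629440, .f 8913024, .f 314325527740821794760884483, .f 549765185667, .f 8519808, .f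
    36592322510585999, .f 108649916556902540, .f 39408154605650240])) (.lf 29 [.f
    36873771713822852, .f 36592318212145408, .f 8847488, .f 37155796446544008, .f 8519808, .f
    108649938019483968, .f 72621141000388800, .f 39125593014403458])))) (.nd (.k 2) .x (.lf 21 [.f
    9240704, .f 8519808, .f 8847488, .f 9175168, .f 36874596347412617, .f 36874596347609222, .f
    38563446207479942, .f 8650880, .f 8585408, .f 8585408]) (.lf 22 [.f 4722403638154998644870, .f
    8716416, .f 558354923648, .f 8847488, .f 566944399488, .f 558358331523, .f 562649235648]))))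
    (.nd (.add (.add (.add .x .y) .L) (.k 3)) (.add .N .t) (.lf 22 [.f 549764595851, .f 8781952, .f
    562649759872, .f 8716416, .f 8519872, .f 8519872, .f 8519872]) (.nd (.add (.add .N .x) (.k 6))
    (.add .t .L) (.nd .t .y (.lf 19 [.f 9240704, .f 8913024, .f 8847488, .f 9175168, .f 8519808, .f
    8519808, .f 8519808, .f 8585344, .f 8585344, .f 8585344]) (.lf 30 [.f 8585344, .f 8913024, .f
    8519808, .f 36029368258265356, .f 558354137219, .f 558354137219, .f 558354137219])) (.nd (.add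
    .t (.k 3)) .y (.nd (.add .x .L) .y (.lf 31 [.f 40252059844804736, .f 8519808, .f 8978560, .f
    2361221522620074623106, .f 8913024, .f 8519808, .f 8519808, .f 8519808]) (.lf 27 [.f
    36029359668527240, .f 2471899735236748247184, .f 8978560, .f 8913024, .f
    157162773113908429442121920, .f 471483486213712255383634061, .f 824642568328])) (.nd (.add
    (.add .x .y) .L) (.add .N .t) (.lf 4 [.f 174094873478751753857138949, .f 74591483017035911, .f
    8978560, .f 2398148787768994103431, .f 8519808, .f 2637924091633185325196, .f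
    40251471442804878, .f 40251544456659205]) (.lf 27 [.f 162000929806795448950718602, .f
    309492388736837292654854289, .f 8978560, .f 8913024, .f 2398130773903061090563, .f
    2398130773903061025032, .f 824642568328]))))))) (.nd (.add .t .L) (.add (.add .x .y) (.k 2))
    (.lf 27 [.f 588418908294, .f 562649628800, .f 8650880, .f 8781952, .f 8519808, .f 8519808, .f
    8519808]) (.nd (.k 1) .x (.nd (.add (.add .N .t) (.k 3)) (.add .y .L) (.nd (.add .x (.k 3)) .t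
    (.lf 20 [.f 9175168, .f 8650880, .f 8978560, .f 9109632, .f 8519872, .f 8519872, .f 8519872, .f
    8585344, .f 8585344, .f 8585344]) (.lf 21 [.f 9175168, .f 160789495228860946909888779, .f
    8978560, .f 9109632, .f 37718218118987968, .f 54043766767878283, .f 37718218122461323, .f
    8585344, .f 8585344, .f 8585344])) (.nd (.add .x .L) .y (.lf 31 [.f 2471903394398560649476, .f
    8519808, .f 8650880, .f 36029355373363333, .f 8978560, .f 8519808, .f 8519808, .f 8519808])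
    (.lf 5 [.f 36874347238916237, .f 2416560066528213467277, .f 2471902549995105747072, .f 8978560,
    .f 2398222534732582748429, .f 157169912036235917390709253, .f 157169893589492144328868288])))
    (.nd (.add (.add .x .L) (.k 1)) .y (.lf 31 [.f 2453456369425399677060, .f 8519808, .f 8781952,
    .f 36592296736981124, .f 8913024, .f 8519808, .f 8519808, .f 8519808]) (.lf 22 [.f
    571239628928, .f 8781952, .f 562649104522, .f 8913024, .f 625017231323777737873686786, .f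
    9537006656654051901698, .f 4759405494679544660108])))))
    (by decide +kernel) ⟨h0, h1, h2, h3, h4, h5, trivial⟩


theorem rn0 {N t x y L : ℤ} (hD : D N t)
    (h0 : (0 : ℤ) ≤ x)
    (h1 : x + 1 ≤ y)
    (h2 : y + 1 ≤ N)
    (h3 : (5 : ℤ) ≤ L)
    (h4 : L ≤ N) :
    P (A N t) N x y L := by
  obtain ⟨d0, d1, d2⟩ := id hD
  by_cases h5 : y + L ≤ N + x + 1
  · exact rn1 hD h0 h1 h2 h3 h4 h5
  · exact rn2 hD h0 h1 h2 h3 h4 h5

end Pool.Agent.Work.MP_193ce1_co.Rim.Zz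
end

-- merged part: Pool.Agent.Work.MP_193ce1_co.Rim.ZzH
section
set_option linter.unusedVariables false

namespace Pool.Agent.Work.MP_193ce1_co.Rim.Zz

/-- hypotheses -/
noncomputable def kh0 : List Fk.C :=
  [.le (.add .x (.k 3)) .L, .le (.k 0) .x, .le .L (.add .N (.k 1)), .ne (.add .t .L) (.add (.add .N
  .x) (.k 2)), .ne (.add .t .L) (.add (.add .N .x) (.k 3)), .ne (.add .t .L) (.add (.add .N .x) (.k
  5))]

theorem qh0 {N t x L : ℤ} (hD : D N t) : Fk.All ⟨N, t, x, 0, L⟩ kh0 → P (A N t) N x N L :=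
  Fk.route (fam hD x 0 L) kh0 .N (.dn .x (.k 0))
    [(3, .dn (.sub .N (.k 1)) (.add (.sub (.add .N .x) .L) (.k 2))), (0, .pt .N)]
    [.f 128, .f 8585344, .f 549764333700, .f 128, .f 128, .f 549764399236, .f 8519808, .f 128, .f
    128, .f 128, .f 128, .f 128, .f 8650880, .f 9044096, .f 128, .f 549764399236, .f 8519808, .s 7
    (.f 8454272) (.f 12648576), .s 6 (.f 8454272) (.f 12648576), .s 5 (.f 8454272) (.f 12648576),
    .f 128, .f 128, .f 128, .f 566944202880, .f 128, .f 128, .f 128, .f 128]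
    (by decide +kernel)

theorem hT0 {N t x L : ℤ} (hD : D N t)
    (c0 : x + 3 ≤ L)
    (c1 : (0 : ℤ) ≤ x)
    (c2 : L ≤ N + 1)
    (c3 : t + L ≠ N + x + 2)
    (c4 : t + L ≠ N + x + 3)
    (c5 : t + L ≠ N + x + 5) :
    P (A N t) N x N L := by
  exact qh0 hD ⟨c0, c1, c2, c3, c4, c5, trivial⟩

/-- hypotheses -/
noncomputable def kh1 : List Fk.C :=
  [.le (.add .N .x) (.add .t .L), .le (.k 0) .x, .le (.add .L (.k 1)) .N, .ne (.add .t .L) (.add .N
  .x), .ne (.add .t .L) (.add (.add .N .x) (.k 1)), .ne (.add .t .L) (.add (.add .N .x) (.k 3))]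

theorem qh1 {N t x L : ℤ} (hD : D N t) : Fk.All ⟨N, t, x, 0, L⟩ kh1 → P (A N t) N x N L :=
  Fk.route (fam hD x 0 L) kh1 .N (.dn .x (.k 0))
    [(3, .dn (.sub .N (.k 1)) (.add .t (.k 3))), (5, .dn .t (.sub (.add .N .x) .L)), (0, .pt .N)]
    [.f 128, .f 8585344, .f 2361221522594312880388, .f 128, .f 128, .f 36029355373297796, .f
    1099520540810, .f 128, .f 128, .f 128, .f 128, .f 128, .f 566944202880, .f 566944071811, .f
    8519808, .f 1099520540810, .f 128, .f 128, .f 128, .f 128, .f 129, .f 8650880, .f 9044096, .f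
    128, .f 566944071811, .f 72621128123678858, .s 7 (.f 8454272) (.f 12648576), .s 6 (.f 8454272)
    (.f 12648576), .s 5 (.f 8454272) (.f 12648576), .f 128, .f 128, .f 584124596480, .f 128, .f
    4796191740860844605578, .f 128, .f 128, .f 128, .f 128]
    (by decide +kernel)

theorem hT1 {N t x L : ℤ} (hD : D N t)
    (c0 : N + x ≤ t + L)
    (c1 : (0 : ℤ) ≤ x)
    (c2 : L + 1 ≤ N)
    (c3 : t + L ≠ N + x)
    (c4 : t + L ≠ N + x + 1)
    (c5 : t + L ≠ N + x + 3) :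
    P (A N t) N x N L := by
  exact qh1 hD ⟨c0, c1, c2, c3, c4, c5, trivial⟩

/-- hypotheses -/
noncomputable def kh2 : List Fk.C :=
  [.le .N (.add .x .L), .le .x .t, .le (.add .L (.k 1)) .N, .ne (.add (.add .x .L) (.k 3)) (.add .N
  .t), .ne (.add (.add .x .L) (.k 1)) (.add .N .t), .ne (.add .x .L) (.add .N .t)]

theorem qh2 {N t x L : ℤ} (hD : D N t) : Fk.All ⟨N, t, x, 0, L⟩ kh2 → P (A N t) N x N L :=
  Fk.route (fam hD x 0 L) kh2 .N (.up .x .t)
    [(4, .up (.add .t (.k 3)) (.sub .N (.k 1))), (2, .up (.k 0) (.sub (.add .x .L) .N)), (0, .pt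
    .N)]
    [.f 566944071810, .f 8585344, .f 1099520540810, .f 128, .f 128, .f 36029359668199556, .f
    1099520540810, .f 128, .f 128, .f 128, .f 128, .f 128, .f 128, .f 128, .f 8519808, .f
    2361221522590017978628, .f 128, .f 128, .f 128, .f 128, .f 566944268417, .f 8650881, .f
    9044096, .f 128, .f 8519808, .f 2361221522590017978628, .s 5 (.f 12648576) (.f 8454272), .s 6
    (.f 12648576) (.f 8454272), .f 824642306180, .f 128, .f 128, .f 4796191740860844671114, .f 128,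
    .f 584124596480, .f 128, .f 128, .f 128, .f 128]
    (by decide +kernel)

theorem hT2 {N t x L : ℤ} (hD : D N t)
    (c0 : N ≤ x + L)
    (c1 : x ≤ t)
    (c2 : L + 1 ≤ N)
    (c3 : x + L + 3 ≠ N + t)
    (c4 : x + L + 1 ≠ N + t)
    (c5 : x + L ≠ N + t) :
    P (A N t) N x N L := by
  exact qh2 hD ⟨c0, c1, c2, c3, c4, c5, trivial⟩

/-- hypotheses -/
noncomputable def kh3 : List Fk.C :=
  [.le (.k 2) .L, .le (.k 0) .x, .le (.add .x .L) (.add .N (.k 1)), .ne (.add (.add .x .L) (.k 1))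
  .t, .ne (.add .x .L) (.add .t (.k 1)), .ne (.add .x .L) (.add .t (.k 2))]

theorem qh3 {N t x L : ℤ} (hD : D N t) : Fk.All ⟨N, t, x, 0, L⟩ kh3 → P (A N t) N x N L :=
  Fk.route (fam hD x 0 L) kh3 .N (.up .x (.sub (.add .x .L) (.k 2)))
    [(0, .pt .N)]
    [.f 8585344, .f 8519808, .f 8650880, .f 128, .f 128, .f 9044096, .f 128, .f 549764333699, .f
    8650880, .s 5 (.f 12648576) (.f 8454272), .s 6 (.f 12648576) (.f 8454272), .s 7 (.f 12648576)
    (.f 8454272), .f 128, .f 128, .f 8650880, .f 128, .f 128, .f 128, .f 128]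
    (by decide +kernel)

theorem hT3 {N t x L : ℤ} (hD : D N t)
    (c0 : (2 : ℤ) ≤ L)
    (c1 : (0 : ℤ) ≤ x)
    (c2 : x + L ≤ N + 1)
    (c3 : x + L + 1 ≠ t)
    (c4 : x + L ≠ t + 1)
    (c5 : x + L ≠ t + 2) :
    P (A N t) N x N L := by
  exact qh3 hD ⟨c0, c1, c2, c3, c4, c5, trivial⟩

/-- hypotheses -/
noncomputable def kh4 : List Fk.C :=
  [.le (.add .N (.k 2)) (.add .x .L), .le (.add .x (.k 1)) .N, .le .L (.add .N (.k 1)), .ne (.add
  (.add .x .L) (.k 1)) (.add .N .t), .ne (.add .x .L) (.add (.add .N .t) (.k 1)), .ne (.add .x .L)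
  (.add (.add .N .t) (.k 2))]

theorem qh4 {N t x L : ℤ} (hD : D N t) : Fk.All ⟨N, t, x, 0, L⟩ kh4 → P (A N t) N x N L :=
  Fk.route (fam hD x 0 L) kh4 .N (.up .x (.sub .N (.k 1)))
    [(2, .up (.k 0) (.sub (.sub (.add .x .L) .N) (.k 2))), (0, .pt .N)]
    [.f 549764333700, .f 8585344, .f 128, .f 128, .f 128, .f 128, .f 8519808, .f 549764399236, .f
    128, .f 128, .f 128, .f 128, .f 8650881, .f 9044096, .f 128, .f 8519808, .f 549764399236, .s 5
    (.f 12648576) (.f 8454272), .s 6 (.f 12648576) (.f 8454272), .s 7 (.f 12648576) (.f 8454272),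
    .f 128, .f 128, .f 566944268416, .f 128, .f 128, .f 128, .f 128, .f 128]
    (by decide +kernel)

theorem hT4 {N t x L : ℤ} (hD : D N t)
    (c0 : N + 2 ≤ x + L)
    (c1 : x + 1 ≤ N)
    (c2 : L ≤ N + 1)
    (c3 : x + L + 1 ≠ N + t)
    (c4 : x + L ≠ N + t + 1)
    (c5 : x + L ≠ N + t + 2) :
    P (A N t) N x N L := by
  exact qh4 hD ⟨c0, c1, c2, c3, c4, c5, trivial⟩

/-- hypotheses -/
noncomputable def kh5 : List Fk.C :=
  [.le (.k 2) .L, .le .L (.add .x (.k 2)), .le (.add .x (.k 1)) .N, .ne (.add .x (.k 5)) (.add .t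
  .L), .ne (.add .x (.k 3)) (.add .t .L), .ne (.add .x (.k 2)) (.add .t .L)]

theorem qh5 {N t x L : ℤ} (hD : D N t) : Fk.All ⟨N, t, x, 0, L⟩ kh5 → P (A N t) N x N L :=
  Fk.route (fam hD x 0 L) kh5 .N (.dn .x (.add (.sub .x .L) (.k 2)))
    [(0, .pt .N)]
    [.f 8585344, .f 8519808, .f 8650880, .f 128, .f 128, .f 9044096, .f 128, .f 8585344, .f
    549764333700, .s 5 (.f 12648576) (.f 8454272), .s 6 (.f 12648576) (.f 8454272), .s 7 (.f
    12648576) (.f 8454272), .f 128, .f 128, .f 8650880, .f 128, .f 128, .f 128, .f 128]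
    (by decide +kernel)

theorem hT5 {N t x L : ℤ} (hD : D N t)
    (c0 : (2 : ℤ) ≤ L)
    (c1 : L ≤ x + 2)
    (c2 : x + 1 ≤ N)
    (c3 : x + 5 ≠ t + L)
    (c4 : x + 3 ≠ t + L)
    (c5 : x + 2 ≠ t + L) :
    P (A N t) N x N L := by
  exact qh5 hD ⟨c0, c1, c2, c3, c4, c5, trivial⟩

/-- hypotheses -/
noncomputable def kh6 : List Fk.C :=
  [.le (.add .t .L) (.add .x (.k 2)), .le (.add .t (.k 3)) .x, .le .x (.add .t .L), .le (.add .x
  (.k 1)) .N, .ne .x (.add .t .L), .ne .x (.add (.add .t .L) (.k 1)), .ne .x (.add (.add .t .L) (.k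
  3))]

theorem qh6 {N t x L : ℤ} (hD : D N t) : Fk.All ⟨N, t, x, 0, L⟩ kh6 → P (A N t) N x N L :=
  Fk.route (fam hD x 0 L) kh6 .N (.dn .x (.add .t (.k 3)))
    [(5, .up .t (.sub (.add (.mul 2 .t) .L) .x)), (0, .pt .N)]
    [.f 36029359668723845, .f 8585344, .f 8716416, .f 128, .f 128, .f 36029359668723845, .f
    8650880, .f 36592318211620992, .f 128, .f 128, .f 128, .f 128, .f 8519809, .f 9109632, .f 128,
    .f 2361220396694398173317, .f 36592318211620992, .f 8650880, .f 8650880, .s 6 (.f 8454272) (.f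
    12648576), .f 128, .f 128, .f 36592309621489797, .f 8716416, .f 128, .f 128, .f 128, .f 128]
    (by decide +kernel)

theorem hT6 {N t x L : ℤ} (hD : D N t)
    (c0 : t + L ≤ x + 2)
    (c1 : t + 3 ≤ x)
    (c2 : x ≤ t + L)
    (c3 : x + 1 ≤ N)
    (c4 : x ≠ t + L)
    (c5 : x ≠ t + L + 1)
    (c6 : x ≠ t + L + 3) :
    P (A N t) N x N L := by
  exact qh6 hD ⟨c0, c1, c2, c3, c4, c5, c6, trivial⟩

/-- hypotheses -/
noncomputable def kh7 : List Fk.C :=
  [.le (.add .t (.k 3)) .x, .le .L .x, .le .x (.add .t .L), .le (.add .x (.k 1)) .N, .ne (.add .x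
  (.k 3)) (.add .t .L), .ne (.add .x (.k 1)) (.add .t .L), .ne .x (.add .t .L)]

theorem qh7 {N t x L : ℤ} (hD : D N t) : Fk.All ⟨N, t, x, 0, L⟩ kh7 → P (A N t) N x N L :=
  Fk.route (fam hD x 0 L) kh7 .N (.dn .x (.add .t (.k 3)))
    [(5, .dn .t (.sub .x .L)), (0, .pt .N)]
    [.f 549764464771, .f 8519808, .f 8716416, .f 128, .f 128, .f 8585344, .f 8650880, .f
    549764333701, .f 128, .f 128, .f 128, .f 128, .f 129, .f 9109632, .f 128, .f 8585344, .f
    36029363963166853, .s 6 (.f 12648576) (.f 8454272), .s 7 (.f 12648576) (.f 8454272), .s 8 (.f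
    12648576) (.f 8454272), .f 128, .f 128, .f 571239170176, .f 8716416, .f 128, .f 128, .f 128, .f
    128]
    (by decide +kernel)

theorem hT7 {N t x L : ℤ} (hD : D N t)
    (c0 : t + 3 ≤ x)
    (c1 : L ≤ x)
    (c2 : x ≤ t + L)
    (c3 : x + 1 ≤ N)
    (c4 : x + 3 ≠ t + L)
    (c5 : x + 1 ≠ t + L)
    (c6 : x ≠ t + L) :
    P (A N t) N x N L := by
  exact qh7 hD ⟨c0, c1, c2, c3, c4, c5, c6, trivial⟩

/-- hypotheses -/
noncomputable def kh8 : List Fk.C :=
  [.le .t .x, .le .x (.add .t (.k 2)), .le (.add .x (.k 3)) (.add .t .L), .le (.add (.add (.mul 2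
  .t) .L) (.k 1)) (.add .N .x), .ne .x (.add .t .L), .ne .x (.add (.add .t .L) (.k 1)), .ne .x
  (.add (.add .t .L) (.k 3))]

theorem qh8 {N t x L : ℤ} (hD : D N t) : Fk.All ⟨N, t, x, 0, L⟩ kh8 → P (A N t) N x N L :=
  Fk.route (fam hD x 0 L) kh8 .N (.dn .x .t)
    [(4, .up (.add .t (.k 3)) (.sub (.add (.mul 2 .t) .L) .x)), (0, .pt .N)]
    [.f 36029368258265226, .f 8519808, .f 36029368258265219, .f 128, .f 128, .f 36029363963691141,
    .f 8650880, .f 8716416, .f 128, .f 128, .f 128, .f 128, .f 8585344, .f 9109632, .f 128, .f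
    38844096558923909, .f 8716416, .f 8650880, .f 8650880, .f 8650880, .f 128, .f 128, .f 8716416,
    .f 36873771713560709, .f 128, .f 128, .f 128, .f 128]
    (by decide +kernel)

theorem hT8 {N t x L : ℤ} (hD : D N t)
    (c0 : t ≤ x)
    (c1 : x ≤ t + 2)
    (c2 : x + 3 ≤ t + L)
    (c3 : 2 * t + L + 1 ≤ N + x)
    (c4 : x ≠ t + L)
    (c5 : x ≠ t + L + 1)
    (c6 : x ≠ t + L + 3) :
    P (A N t) N x N L := by
  exact qh8 hD ⟨c0, c1, c2, c3, c4, c5, c6, trivial⟩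

/-- hypotheses -/
noncomputable def kh9 : List Fk.C :=
  [.le (.add .N .x) (.add (.mul 2 .t) .L), .le .t .x, .le .x (.add .t (.k 2)), .le (.add (.add .t
  .L) (.k 1)) (.add .N .x), .ne (.add (.add .t .L) (.k 3)) (.add .N .x), .ne (.add (.add .t .L) (.k
  1)) (.add .N .x), .ne (.add .t .L) (.add .N .x)]

theorem qh9 {N t x L : ℤ} (hD : D N t) : Fk.All ⟨N, t, x, 0, L⟩ kh9 → P (A N t) N x N L :=
  Fk.route (fam hD x 0 L) kh9 .N (.dn .x .t)
    [(4, .up (.add .t (.k 3)) (.sub .N (.k 1))), (2, .up (.k 0) (.sub (.sub (.add (.mul 2 .t) .L)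
    .N) .x)), (0, .pt .N)]
    [.f 571239039106, .f 8585344, .f 73184593465507977, .f 128, .f 128, .f 549764333701, .f
    1099520737417, .f 128, .f 128, .f 128, .f 128, .f 128, .f 8650880, .f 128, .f 8519808, .f
    36029918013948041, .f 128, .f 128, .f 128, .f 128, .f 8716417, .f 8716417, .f 9109632, .f 128,
    .f 8519808, .f 36029918013948041, .s 6 (.f 12648576) (.f 8454272), .s 7 (.f 12648576) (.f
    8454272), .f 8716480, .f 128, .f 128, .f 73465557348778123, .f 128, .f 38563171338027147, .f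
    128, .f 128, .f 128, .f 128]
    (by decide +kernel)

theorem hT9 {N t x L : ℤ} (hD : D N t)
    (c0 : N + x ≤ 2 * t + L)
    (c1 : t ≤ x)
    (c2 : x ≤ t + 2)
    (c3 : t + L + 1 ≤ N + x)
    (c4 : t + L + 3 ≠ N + x)
    (c5 : t + L + 1 ≠ N + x)
    (c6 : t + L ≠ N + x) :
    P (A N t) N x N L := by
  exact qh9 hD ⟨c0, c1, c2, c3, c4, c5, c6, trivial⟩


/-- table of hypotheses -/
noncomputable def tabh : List (List Fk.C) :=
  [kh0, kh1, kh2, kh3, kh4, kh5, kh6, kh7, kh8, kh9]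

theorem tbh {N t x L : ℤ} (hD : D N t) : Fk.Tab ⟨N, t, x, 0, L⟩ (P (A N t) N x N L) tabh :=
  ⟨qh0 hD, qh1 hD, qh2 hD, qh3 hD, qh4 hD, qh5 hD, qh6 hD, qh7 hD, qh8 hD, qh9 hD, trivial⟩

theorem hn0 {N t x L : ℤ} (hD : D N t)
    (h0 : (0 : ℤ) ≤ x)
    (h1 : x + 1 ≤ N)
    (h2 : (5 : ℤ) ≤ L)
    (h3 : L ≤ N)
    (h4 : L ≠ t + 2) :
    P (A N t) N x N L := by
  exact Fk.tree (fam hD x 0 L) (tbh hD)
    [.le (.k 0) .x, .le (.add .x (.k 1)) .N, .le (.k 5) .L, .le .L .N, .ne .L (.add .t (.k 2))]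
    (.nd (.add .x (.k 3)) .L (.nd (.add .t .L) (.add (.add .N .x) (.k 1)) (.lf 0 [.f 8585344, .f
    8650880, .f 8847488, .f 8519872, .f 8519872, .f 8519872]) (.nd (.add .L (.k 1)) .N (.nd (.add
    (.add .N .x) (.k 4)) (.add .t .L) (.lf 1 [.f 8519808, .f 8781952, .f 8585344, .f 8519808, .f
    8519808, .f 8519808]) (.nd .N (.add .x .L) (.lf 2 [.f 8519808, .f 549764530308, .f 8650880, .f
    571243233540, .f 824650760325, .f 824642437380]) (.nd (.add .t (.k 2)) (.add .x .L) (.lf 3 [.f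
    9044096, .f 8913024, .f 8585344, .f 8519808, .f 8519808, .s 12 (.f 39970026526146816) (.f
    554059169929)]) (.lf 1 [.f 8781952, .f 8913024, .f 8716416, .f 8781952, .f 8781952, .f
    36592352580075712])))) (.nd (.add .N (.k 2)) (.add .x .L) (.lf 4 [.f 8519808, .f 8847488, .f
    8978560, .f 824651088004, .f 824651088004, .f 824651088004]) (.lf 3 [.f 8913024, .f 8781952, .f
    8519808, .f 2416561755378082119819, .f 2416561755378082119819, .f 2564171173295133032707]))))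
    (.nd (.add .x (.k 6)) (.add .t .L) (.lf 5 [.f 8781952, .f 8585344, .f 8716416, .f 8519872, .f
    8519872, .f 8519872]) (.nd (.add .t .L) (.add .x (.k 4)) (.nd (.add .t .L) (.add .x (.k 2))
    (.nd (.add .t .L) (.add .x (.k 1)) (.lf 5 [.f 8978560, .f 8781952, .f 8913024, .f 8519808, .f
    8519808, .f 8519808]) (.lf 6 [.f 8585344, .f 562649694336, .f 8519808, .f 8913024, .f 8519872,
    .f 8519872, .f 8519872])) (.nd (.add .N (.k 2)) (.add .x .L) (.nd (.add (.add .x .L) (.k 2))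
    (.add .N .t) (.lf 4 [.f 8585344, .f 8978560, .f 9109632, .f 8519872, .f 8519872, .f 8519872])
    (.nd (.add .x (.k 4)) (.add .t .L) (.lf 5 [.f 9109632, .f 8913024, .f 9044096, .f 8781952, .f
    8519872, .f 8519872]) (.lf 4 [.f 8650880, .f 9044096, .f 9175168, .c .N (.add .x (.k 1)) (.f
    72058169572917377) (.f 72058422975201424), .f 54043753883566346, .f 54043753883566346]))) (.lf
    3 [.f 8978560, .f 8847488, .f 8519808, .f 566953050240, .f 566944071945, .f 566944071945])))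
    (.nd (.add .t (.k 3)) .x (.lf 7 [.f 8519808, .f 2361222648489916498055, .f 8585344, .f 8847488,
    .f 8585408, .f 8585408, .f 8585408]) (.nd (.add (.add (.mul 2 .t) .L) (.k 1)) (.add .N .x) (.lf
    8 [.f 571239628928, .f 8585344, .f 8650880, .f 8519808, .f 8650944, .f 8650944, .f 8650944])
    (.lf 9 [.f 8519808, .f 571239628928, .f 8585344, .f 571239956608, .f 609894072512, .f
    824642437262, .f 571243233422]))))))
    (by decide +kernel) ⟨h0, h1, h2, h3, h4, trivial⟩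



variable {N t : ℤ} {f : ℤ → ℤ}

theorem thread (c d : ℤ) (h : A N t c d) (hN : c ≠ N)
    (l0 : c ≠ (0 : ℤ))
    (l1 : c ≠ N - 1)
    (l2 : c ≠ t)
    (l3 : c ≠ t + 3)
    : d = c + 1 ∨ d = c - 1 ∨ d = N ∨ d = 0 := by
  rcases h.2 with (⟨a1, a2, a3⟩ | ⟨a1, a2⟩ | ⟨a1, a2⟩ | ⟨a1, a2⟩) | (⟨a1, a2, a3⟩ | ⟨a1, a2⟩ | ⟨a1, a2⟩ | ⟨a1, a2⟩) <;> omega

theorem nb (h : W (A N t) 0 N (t + 1) f) (hD : D N t) (i : ℤ) (h0 : 0 ≤ i) (h1 : i < t) :
    (f (i + 1) = f i + 1 ∧ f i + 1 < N) ∨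
    (f (i + 1) = f i - 1 ∧ 1 ≤ f i) ∨
    (f i = N - 1 ∧ f (i + 1) = (0 : ℤ)) ∨
    (f i = (0 : ℤ) ∧ f (i + 1) = N - 1) ∨
    (f i = t ∧ f (i + 1) = t + 3) ∨
    (f i = t + 3 ∧ f (i + 1) = t) := by
  have e1 : f i ≠ N := fun e => by
    have := h.inj i (t + 1) (by omega) (by omega) (by omega) (by omega) (by rw [h.hT]; exact e)
    omega
  have e2 : f (i + 1) ≠ N := fun e => by
    have := h.inj (i + 1) (t + 1) (by omega) (by omega) (by omega) (by omega) (by rw [h.hT]; exact e)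
    omega
  rcases (h.adj i h0 (by omega)).2 with (⟨a1, a2, a3⟩ | ⟨a1, a2⟩ | ⟨a1, a2⟩ | ⟨a1, a2⟩) | (⟨a1, a2, a3⟩ | ⟨a1, a2⟩ | ⟨a1, a2⟩ | ⟨a1, a2⟩)
  · exact (Or.inl ⟨by omega, by omega⟩)
  · exact absurd a1 e1
  · exact (Or.inr (Or.inr (Or.inl ⟨a1, a2⟩)))
  · exact (Or.inr (Or.inr (Or.inr (Or.inr (Or.inl ⟨a1, a2⟩)))))
  · exact (Or.inr (Or.inl ⟨by omega, by omega⟩))
  · exact absurd a1 e2
  · exact (Or.inr (Or.inr (Or.inr (Or.inl ⟨a2, a1⟩))))
  · exact (Or.inr (Or.inr (Or.inr (Or.inr (Or.inr ⟨a2, a1⟩)))))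

theorem fin (h : W (A N t) 0 N (t + 1) f) (hD : D N t) {c : ℤ} (hv : V f t c)
    (e : c = t - 3 ∨ c = t - 1 ∨ c = t) : False := by
  have h1 := h.adj t (by unfold D at hD; omega) (by omega)
  rw [h.hT, show f t = c from hv] at h1
  unfold D at hD
  rcases h1.2 with (⟨a1, a2, a3⟩ | ⟨a1, a2⟩ | ⟨a1, a2⟩ | ⟨a1, a2⟩) | (⟨a1, a2, a3⟩ | ⟨a1, a2⟩ | ⟨a1, a2⟩ | ⟨a1, a2⟩) <;> omega

theorem nb0 (h : W (A N t) 0 N (t + 1) f) (hD : D N t) {i : ℤ} (hv : V f i (0 : ℤ))
    (e : 0 ≤ i ∧ i < t) :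
    V f (i + 1) (1 : ℤ) ∨ V f (i + 1) (N - 1) := by
  have := nb h hD i e.1 e.2
  unfold V at *
  unfold D at hD
  omega

theorem th1 (hD : D N t) : Th (A N t) N 0 (0 : ℤ) t := by
  intro c d h1 h2 h3
  unfold D at hD
  exact thread c d h3 (by omega) (by omega) (by omega) (by omega) (by omega)

theorem nb2 (h : W (A N t) 0 N (t + 1) f) (hD : D N t) {i : ℤ} (hv : V f i (N - 1))
    (e : 0 ≤ i ∧ i < t) :
    V f (i + 1) (N - 2) ∨ V f (i + 1) (0 : ℤ) := by
  have := nb h hD i e.1 e.2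
  unfold V at *
  unfold D at hD
  omega

theorem th3 (hD : D N t) : Th (A N t) N 0 (t + 3) (N - 1) := by
  intro c d h1 h2 h3
  unfold D at hD
  exact thread c d h3 (by omega) (by omega) (by omega) (by omega) (by omega)

theorem nb4 (h : W (A N t) 0 N (t + 1) f) (hD : D N t) {i : ℤ} (hv : V f i (t + 3))
    (e : 0 ≤ i ∧ i < t) :
    V f (i + 1) (t + 4) ∨ V f (i + 1) (t + 2) ∨ V f (i + 1) t := by
  have := nb h hD i e.1 e.2
  unfold V at *
  unfold D at hD
  omega

theorem th5 (hD : D N t) : Th (A N t) N 0 t (t + 3) := by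
  intro c d h1 h2 h3
  unfold D at hD
  exact thread c d h3 (by omega) (by omega) (by omega) (by omega) (by omega)

theorem nb6 (h : W (A N t) 0 N (t + 1) f) (hD : D N t) {i : ℤ} (hv : V f i t)
    (e : 0 ≤ i ∧ i < t) :
    V f (i + 1) (t + 1) ∨ V f (i + 1) (t - 1) ∨ V f (i + 1) (t + 3) := by
  have := nb h hD i e.1 e.2
  unfold V at *
  unfold D at hD
  omega

theorem no (hD : D N t) (h : W (A N t) 0 N (t + 1) f) : False := by
  obtain ⟨d0, d1, d2⟩ := id hD
  have v0 : V f (0 : ℤ) (0 : ℤ) := h.h0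
  rcases nb0 h hD v0 (by omega) with n1 | n1
  · have r2 := h.ru v0 n1 (th1 hD) (by omega)
    have v3 := r2.at t t (by omega)
    exact fin h hD (v3.cast t (by omega)) (by omega)
  · have v4 := n1.cast (1 : ℤ) (by omega)
    rcases nb2 h hD v4 (by omega) with n5 | n5
    · have r6 := h.rd v4 n5 (th3 hD) (by omega)
      have v7 := r6.at (N - t - 3) (t + 3) (by omega)
      by_cases s8 : (0 : ℤ) ≤ t - N + 5
      · rcases nb4 h hD v7 (by omega) with n9 | n9 | n9
        · exact h.clash n9 v4 (by omega)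
        · have r10 := h.rd v7 n9 (th5 hD) (by omega)
          have v11 := r10.at (N - t) t (by omega)
          rcases nb6 h hD v11 (by omega) with n12 | n12 | n12
          · exact h.clash n12 (r10.at (N - t - 1) (t + 1) (by omega)) (by omega)
          · have r13 := h.rd v11 n12 (th1 hD) (by omega)
            exact fin h hD (r13.at t (N - t) (by omega)) (by omega)
          · exact h.clash n12 v7 (by omega)
        · have v14 := n9.cast (N - t - 2) (by omega)
          rcases nb6 h hD v14 (by omega) with n15 | n15 | n15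
          · have r16 := h.ru v14 n15 (th5 hD) (by omega)
            exact h.clash (r16.at (N - t + 1) (t + 3) (by omega)) v7 (by omega)
          · have r17 := h.rd v14 n15 (th1 hD) (by omega)
            exact fin h hD (r17.at t (N - t - 2) (by omega)) (by omega)
          · exact h.clash n15 v7 (by omega)
      · rcases nb4 h hD v7 (by omega) with n18 | n18 | n18
        · exact h.clash n18 (r6.at (N - t - 4) (t + 4) (by omega)) (by omega)
        · have r19 := h.rd v7 n18 (th5 hD) (by omega)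
          have v20 := r19.at (N - t) t (by omega)
          rcases nb6 h hD v20 (by omega) with n21 | n21 | n21
          · exact h.clash n21 (r19.at (N - t - 1) (t + 1) (by omega)) (by omega)
          · have r22 := h.rd v20 n21 (th1 hD) (by omega)
            exact fin h hD (r22.at t (N - t) (by omega)) (by omega)
          · exact h.clash n21 v7 (by omega)
        · have v23 := n18.cast (N - t - 2) (by omega)
          rcases nb6 h hD v23 (by omega) with n24 | n24 | n24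
          · have r25 := h.ru v23 n24 (th5 hD) (by omega)
            exact h.clash (r25.at (N - t + 1) (t + 3) (by omega)) v7 (by omega)
          · have r26 := h.rd v23 n24 (th1 hD) (by omega)
            exact fin h hD (r26.at t (N - t - 2) (by omega)) (by omega)
          · exact h.clash n24 v7 (by omega)
    · exact h.clash n5 v0 (by omega)

end Pool.Agent.Work.MP_193ce1_co.Rim.Zz
end

-- merged part: Pool.Agent.Work.MP_193ce1_co.Rim.Sep
section
/-! Graphs with all properties `P_i` of a range except one. -/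

namespace Pool.Agent.Work.MP_193ce1_co.Rim

/-- Property `P_i`. -/
def HP {n : ℕ} (G : SimpleGraph (Fin n)) (i : ℕ) : Prop :=
  ∀ u v : Fin n, u ≠ v → ∃ p : G.Walk u v, p.IsPath ∧ p.support.length = i

/-- Some graph of order `n` has `P_i` for `lo ≤ i ≤ hi`, `i ≠ j`, but not `P_j`. -/
def Sep (n lo hi j : ℕ) : Prop :=
  ∃ G : SimpleGraph (Fin n), (∀ i, lo ≤ i → i ≤ hi → i ≠ j → HP G i) ∧ ¬ HP G j

theorem has_range {A : ℤ → ℤ → Prop} {N t lo hi : ℤ} (hA : Rel A N) {n : ℕ}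
    (hn : (n : ℤ) = N + 1)
    (hr : ∀ x y L : ℤ, 0 ≤ x → x + 1 ≤ y → y + 1 ≤ N → lo ≤ L → L ≤ hi → P A N x y L)
    (hh : ∀ x L : ℤ, 0 ≤ x → x + 1 ≤ N → lo ≤ L → L ≤ hi → L ≠ t + 2 → P A N x N L)
    (i : ℕ) (h1 : lo ≤ i) (h2 : (i : ℤ) ≤ hi) (h3 : (i : ℤ) ≠ t + 2) : HP (gr hA n) i := by
  refine has_of_P hA hn i fun x y hx hxy hy => ?_
  rcases eq_or_lt_of_le hy with rfl | hy
  · exact hh x i hx (by omega) h1 h2 h3
  · exact hr x y i hx (by omega) (by omega) h1 h2

theorem not_has {A : ℤ → ℤ → Prop} {N : ℤ} (hA : Rel A N) {n j : ℕ} (a b : ℕ) (ha : a < n)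
    (hb : b < n) (hab : a ≠ b) (hno : ∀ f, ¬ W A a b ((j : ℤ) - 1) f) : ¬ HP (gr hA n) j := by
  intro h
  obtain ⟨p, hp, hl⟩ := h ⟨a, ha⟩ ⟨b, hb⟩ (fun e => hab (congrArg Fin.val e))
  obtain ⟨f, hf⟩ := W_of_walk hA _ _ j p hp hl
  exact hno f hf

theorem sep_of {A : ℤ → ℤ → Prop} {N t lo hi : ℤ} (hA : Rel A N) {n j l u : ℕ}
    (hn : (n : ℤ) = N + 1) (hj : (j : ℤ) = t + 2) (hl : lo ≤ l) (hu : (u : ℤ) ≤ hi) (hN : 1 ≤ N)
    (hr : ∀ x y L : ℤ, 0 ≤ x → x + 1 ≤ y → y + 1 ≤ N → lo ≤ L → L ≤ hi → P A N x y L)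
    (hh : ∀ x L : ℤ, 0 ≤ x → x + 1 ≤ N → lo ≤ L → L ≤ hi → L ≠ t + 2 → P A N x N L)
    (hno : ∀ f, ¬ W A 0 N (t + 1) f) : Sep n l u j := by
  refine ⟨gr hA n, fun i h1 h2 h3 => has_range hA hn hr hh i (by omega) (by omega) (by omega),
    not_has hA 0 (n - 1) (by omega) (by omega) (by omega) fun f hf => hno f ?_⟩
  have e1 : ((n - 1 : ℕ) : ℤ) = N := by omega
  have e2 : (j : ℤ) - 1 = t + 1 := by omega
  rw [e1, e2] at hf
  exact hf

theorem Sep.mono {n lo hi j l u : ℕ} (h : Sep n lo hi j) (hl : lo ≤ l) (hu : u ≤ hi) :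
    Sep n l u j := by
  obtain ⟨G, h1, h2⟩ := h
  exact ⟨G, fun i a b c => h1 i (by omega) (by omega) c, h2⟩

theorem sepWp {n j : ℕ} (h : n + 5 ≤ 2 * j ∧ j ≤ n ∧ 10 ≤ n) : Sep n 5 (n - 1) j := by
  have hD : Wp.D ((n : ℤ) - 1) ((j : ℤ) - 2) := by unfold Wp.D; omega
  exact sep_of (Wp.rel hD) (by omega) (by omega) (by omega) (by omega) (by omega)
    (fun x y L a b c d e => Wp.rn0 hD a b c d e) (fun x L a b c d e => Wp.hn0 hD a b c d e)
    (fun f hf => Wp.no hD hf)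

theorem sepZz {n j : ℕ} (h : n + 4 = 2 * j ∧ 12 ≤ n) : Sep n 5 (n - 1) j := by
  have hD : Zz.D ((n : ℤ) - 1) ((j : ℤ) - 2) := by unfold Zz.D; omega
  exact sep_of (Zz.rel hD) (by omega) (by omega) (by omega) (by omega) (by omega)
    (fun x y L a b c d e => Zz.rn0 hD a b c d e) (fun x L a b c d e => Zz.hn0 hD a b c d e)
    (fun f hf => Zz.no hD hf)

theorem sepSg {n j : ℕ} (h : n + 3 = 2 * j ∧ 9 ≤ n) : Sep n 4 (n - 1) j := by
  have hD : Sg.D ((n : ℤ) - 1) ((j : ℤ) - 2) := by unfold Sg.D; omega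
  exact sep_of (Sg.rel hD) (by omega) (by omega) (by omega) (by omega) (by omega)
    (fun x y L a b c d e => Sg.rn0 hD a b c d e) (fun x L a b c d e => Sg.hn0 hD a b c d e)
    (fun f hf => Sg.no hD hf)

theorem sepEr {n j : ℕ} (h : n + 2 = 2 * j ∧ 10 ≤ n) : Sep n 4 (n - 1) j := by
  have hD : Er.D ((n : ℤ) - 1) ((j : ℤ) - 2) := by unfold Er.D; omega
  exact sep_of (Er.rel hD) (by omega) (by omega) (by omega) (by omega) (by omega)
    (fun x y L a b c d e => Er.rn0 hD a b c d e) (fun x L a b c d e => Er.hn0 hD a b c d e)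
    (fun f hf => Er.no hD hf)

theorem sepFp {n j : ℕ} (h : n + 1 = 2 * j ∧ 9 ≤ n) : Sep n 5 n j := by
  have hD : Fp.D ((n : ℤ) - 1) ((j : ℤ) - 2) := by unfold Fp.D; omega
  exact sep_of (Fp.rel hD) (by omega) (by omega) (by omega) (by omega) (by omega)
    (fun x y L a b c d e => Fp.rn0 hD a b c d e) (fun x L a b c d e => Fp.hn0 hD a b c d e)
    (fun f hf => Fp.no hD hf)

theorem sepDd {n j : ℕ} (h : 2 * n + 7 ≤ 3 * j ∧ j ≤ n ∧ 11 ≤ n) : Sep n 4 (n - 1) j := by
  have hD : Dd.D ((n : ℤ) - 1) ((j : ℤ) - 2) := by unfold Dd.D; omega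
  exact sep_of (Dd.rel hD) (by omega) (by omega) (by omega) (by omega) (by omega)
    (fun x y L a b c d e => Dd.rn0 hD a b c d e) (fun x L a b c d e => Dd.hn0 hD a b c d e)
    (fun f hf => Dd.no hD hf)

theorem sepKk {n j : ℕ} (h : 3 * n + 10 ≤ 4 * j ∧ j + 1 ≤ n ∧ 15 ≤ n) : Sep n 5 n j := by
  have hD : Kk.D ((n : ℤ) - 1) ((j : ℤ) - 2) := by unfold Kk.D; omega
  exact sep_of (Kk.rel hD) (by omega) (by omega) (by omega) (by omega) (by omega)
    (fun x y L a b c d e => Kk.rn0 hD a b c d e) (fun x L a b c d e => Kk.hn0 hD a b c d e)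
    (fun f hf => Kk.no hD hf)

theorem sepFq {n j : ℕ} (h : 2 * j ≤ n ∧ 2 ≤ j ∧ 8 ≤ n) : Sep n 4 n j := by
  rcases Nat.lt_or_ge j 3 with h3 | h3
  · have hD : Fq.D ((n : ℤ) - 1) 1 := by unfold Fq.D; omega
    refine ⟨gr (Fq.rel hD) n, fun i h1 h2 _ => has_range (Fq.rel hD) (by omega)
      (fun x y L a b c d e => Fq.rn0 hD a b c d e) (fun x L a b c d e => Fq.hn0 hD a b c d e) i
      (by omega) (by omega) (by omega),
      not_has (Fq.rel hD) 0 2 (by omega) (by omega) (by omega) fun f hf => ?_⟩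
    have h1 := hf.adj 0 (by omega) (by omega)
    have h2 := hf.h0
    have h4 := hf.hT
    have e : (j : ℤ) - 1 = 0 + 1 := by omega
    rw [e] at h4
    rw [h2, h4] at h1
    unfold Fq.A Fq.B at h1
    omega
  · have hD : Fq.D ((n : ℤ) - 1) ((j : ℤ) - 2) := by unfold Fq.D; omega
    exact sep_of (Fq.rel hD) (by omega) (by omega) (by omega) (by omega) (by omega)
      (fun x y L a b c d e => Fq.rn0 hD a b c d e) (fun x L a b c d e => Fq.hn0 hD a b c d e)
      (fun f hf => Fq.no hD hf)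

/-- Every `j` is separated from `{5, …, n - 1}`. -/
theorem sep_mid {n j : ℕ} (hn : 11 ≤ n) (h2 : 2 ≤ j) (hj : j ≤ n) : Sep n 5 (n - 1) j := by
  by_cases h1 : 2 * j ≤ n
  · exact (sepFq ⟨h1, h2, by omega⟩).mono (by omega) (by omega)
  by_cases h3 : 2 * j = n + 1
  · exact (sepFp ⟨h3.symm, by omega⟩).mono (by omega) (by omega)
  by_cases h4 : 2 * j = n + 2
  · exact (sepEr ⟨h4.symm, by omega⟩).mono (by omega) (by omega)
  by_cases h5 : 2 * j = n + 3
  · exact (sepSg ⟨h5.symm, by omega⟩).mono (by omega) (by omega)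
  by_cases h6 : 2 * j = n + 4
  · exact sepZz ⟨h6.symm, by omega⟩
  exact sepWp ⟨by omega, hj, by omega⟩

end Pool.Agent.Work.MP_193ce1_co.Rim
end
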